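import Pool.Agent.Lib.MP_6e2ba5_an.Dx.Defs

/-! # Abstract cut off resolvents

`K` is a bounded operator on `L²` with `SymB r C K`, `V` a potential with `M ‖K‖ ≤ 1/2`, so that
`‖K ∘ V‖ ≤ 1/2` and `u = UK K V e` is the solution of `u = e + K V u`. The proofs for `UX`, `UN`, `uk` in the library
(`UX_fix`, `norm_UX_le`, `ident`, `identN`, `ub_diff` in `Cx/UBnd.lean`) are the models.
`UK_V`: `g = V u` solves `g = V e + V K g`, and `‖V K‖ ≤ M ‖K‖ ≤ 1/2`.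
`UK_ident`: with `e = u₂ - K V₂ u₂` resp. `e = u₁ - K V₁ u₁` and the symmetry of `K`
`pr e (V₁ u₁) - pr e (V₂ u₂) = pr u₂ (V₁ u₁) - pr u₁ (V₂ u₂) = ∫ (V₁ - V₂) u₁ u₂`.
`UK_lim`: `u_n - u = K V_n (u_n - u) + K ((V_n - V) u)`, so `‖u_n - u‖ ≤ 2 ‖K‖ ‖(V_n - V) u‖` and `u` is bounded
(`UK_Bd`), hence `‖(V_n - V) u‖ ≤ c' ‖dH V_n - dH V‖` (both potentials vanish outside the ball).
`A3_lim`: `A3 w f g - A3 w₀ f₀ g₀ = A3 (w - w₀) f g + A3 w₀ (f - f₀) g + A3 w₀ f₀ (g - g₀)`; for the last two terms `w₀`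
is only in `L²` and the other factor is bounded: `|∫ w₀ (f - f₀) g| ≤ C ‖w₀‖ ‖f - f₀‖` (`A3_norm`, `A3_comm`). -/

set_option autoImplicit false

open MeasureTheory Filter Topology Set
open scoped FourierTransform SchwartzMap InnerProductSpace ENNReal BoundedContinuousFunction

noncomputable section

namespace FracScatC

open FracScat

theorem UK_T {r M : ℝ} {K : HS →L[ℂ] HS} {V : E3 → ℂ} (hV : IsPot r M V) (hMK : M * ‖K‖ ≤ 1 / 2) :
    ‖K ∘L mulL V‖ ≤ 1 / 2 := by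
  refine (ContinuousLinearMap.opNorm_comp_le _ _).trans ?_
  have h1 := mul_le_mul_of_nonneg_left (hV.norm_mulL hV.nonneg) (norm_nonneg K)
  linarith [mul_comm M ‖K‖]

theorem UK_fix {r M : ℝ} {K : HS →L[ℂ] HS} {V : E3 → ℂ} (hV : IsPot r M V)
    (hMK : M * ‖K‖ ≤ 1 / 2) (e : HS) : UK K V e = e + K (mulL V (UK K V e)) := by
  have hu : IsUnit (1 - K ∘L mulL V) :=
    isUnit_one_sub_of_norm_lt_one (lt_of_le_of_lt (UK_T hV hMK) (by norm_num))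
  have h1 := Ring.mul_inverse_cancel _ hu
  have h2 : (1 - K ∘L mulL V) (UK K V e) = e := by
    have h3 := congrArg (fun A : HS →L[ℂ] HS => A e) h1
    exact h3
  have h4 : UK K V e - K (mulL V (UK K V e)) = e := h2
  calc UK K V e = (UK K V e - K (mulL V (UK K V e))) + K (mulL V (UK K V e)) := by abel
    _ = e + K (mulL V (UK K V e)) := by rw [h4]

theorem norm_UK_le {r M : ℝ} {K : HS →L[ℂ] HS} {V : E3 → ℂ} (hV : IsPot r M V)
    (hMK : M * ‖K‖ ≤ 1 / 2) (e : HS) : ‖UK K V e‖ ≤ 2 * ‖e‖ := by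
  have h1 := UK_fix hV hMK e
  have h2 : ‖K (mulL V (UK K V e))‖ ≤ 1 / 2 * ‖UK K V e‖ :=
    ((K ∘L mulL V).le_opNorm _).trans
      (mul_le_mul_of_nonneg_right (UK_T hV hMK) (norm_nonneg _))
  have h3 : ‖UK K V e‖ ≤ ‖e‖ + ‖K (mulL V (UK K V e))‖ := by
    have := norm_add_le e (K (mulL V (UK K V e)))
    rwa [← h1] at this
  linarith

private theorem abs_norm_mulL_UK {r M : ℝ} {K : HS →L[ℂ] HS} {V : E3 → ℂ} (hV : IsPot r M V)
    (hMK : M * ‖K‖ ≤ 1 / 2) (e : HS) : ‖mulL V (UK K V e)‖ ≤ M * (2 * ‖e‖) :=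
  ((mulL V).le_opNorm _).trans
    (mul_le_mul (hV.norm_mulL hV.nonneg) (norm_UK_le hV hMK e) (norm_nonneg _) hV.nonneg)

theorem UK_Bd {r C M : ℝ} {K : HS →L[ℂ] HS} (hK : SymB r C K) {V : E3 → ℂ} (hV : IsPot r M V)
    (hMK : M * ‖K‖ ≤ 1 / 2) {c : ℝ} {e : HS} (he : Bd c e) :
    Bd (c + C * (M * (2 * ‖e‖))) (UK K V e) := by
  have h1 := he.add (hK.bd (mulL V (UK K V e)))
  rw [← UK_fix hV hMK e] at h1
  refine h1.mono ?_
  have := mul_le_mul_of_nonneg_left (abs_norm_mulL_UK hV hMK e) hK.nonneg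
  linarith

theorem UK_V {r M : ℝ} {K : HS →L[ℂ] HS} {V : E3 → ℂ} (hV : IsPot r M V)
    (hMK : M * ‖K‖ ≤ 1 / 2) (e : HS) : ‖mulL V (UK K V e)‖ ≤ 2 * ‖mulL V e‖ := by
  have h1 : mulL V (UK K V e) = mulL V e + mulL V (K (mulL V (UK K V e))) := by
    rw [← map_add, ← UK_fix hV hMK e]
  have h2 : ‖mulL V (K (mulL V (UK K V e)))‖ ≤ 1 / 2 * ‖mulL V (UK K V e)‖ := by
    refine ((mulL V).le_opNorm _).trans ?_
    have a1 : ‖mulL V‖ * ‖K (mulL V (UK K V e))‖ ≤ M * (‖K‖ * ‖mulL V (UK K V e)‖) :=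
      mul_le_mul (hV.norm_mulL hV.nonneg) (K.le_opNorm _) (norm_nonneg _) hV.nonneg
    have a2 : M * (‖K‖ * ‖mulL V (UK K V e)‖) = M * ‖K‖ * ‖mulL V (UK K V e)‖ := by ring
    rw [a2] at a1
    exact a1.trans (mul_le_mul_of_nonneg_right hMK (norm_nonneg _))
  have h3 : ‖mulL V (UK K V e)‖ ≤ ‖mulL V e‖ + ‖mulL V (K (mulL V (UK K V e)))‖ := by
    have := norm_add_le (mulL V e) (mulL V (K (mulL V (UK K V e))))
    rwa [← h1] at this
  linarith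

theorem UK_ident {r C M : ℝ} {K : HS →L[ℂ] HS} (hK : SymB r C K) {V₁ V₂ : E3 → ℂ}
    (hV₁ : IsPot r M V₁) (hV₂ : IsPot r M V₂) (hMK : M * ‖K‖ ≤ 1 / 2) (e : HS) :
    A3 (dH r (fun x => V₁ x - V₂ x)) (UK K V₁ e) (UK K V₂ e) =
      pr e (mulL V₁ (UK K V₁ e)) - pr e (mulL V₂ (UK K V₂ e)) := by
  have g1 := pr_add_left e (K (mulL V₂ (UK K V₂ e))) (mulL V₁ (UK K V₁ e))
  rw [← UK_fix hV₂ hMK e] at g1
  have g2 := pr_add_left e (K (mulL V₁ (UK K V₁ e))) (mulL V₂ (UK K V₂ e))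
  rw [← UK_fix hV₁ hMK e] at g2
  have g3 : pr (K (mulL V₂ (UK K V₂ e))) (mulL V₁ (UK K V₁ e)) =
      pr (K (mulL V₁ (UK K V₁ e))) (mulL V₂ (UK K V₂ e)) := by
    rw [hK.symm, pr_comm]
  have g4 : A3 (dH r (fun x => V₁ x - V₂ x)) (UK K V₁ e) (UK K V₂ e) =
      pr (UK K V₂ e) (mulL V₁ (UK K V₁ e)) - pr (UK K V₁ e) (mulL V₂ (UK K V₂ e)) := by
    rw [pr_eq, pr_eq, ← integral_sub (integrable_mul _ _) (integrable_mul _ _)]
    unfold A3
    refine integral_congr_ae ?_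
    filter_upwards [dH_coe (hV₁.sub hV₂), mulL_coe hV₁.BM (UK K V₁ e),
      mulL_coe hV₂.BM (UK K V₂ e)] with x a b c
    rw [a, b, c]
    ring
  rw [g4, g1, g2, g3]
  ring

private theorem abs_mulL_diff {r M c : ℝ} {V W : E3 → ℂ} (hV : IsPot r M V) (hW : IsPot r M W)
    {u : HS} (hu : Bd c u) : ‖mulL V u - mulL W u‖ ≤ c * ‖dH r V - dH r W‖ := by
  refine Lp.norm_le_mul_norm_of_ae_le_mul ?_
  filter_upwards [Lp.coeFn_sub (mulL V u) (mulL W u), Lp.coeFn_sub (dH r V) (dH r W),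
    mulL_coe hV.BM u, mulL_coe hW.BM u, dH_coe hV, dH_coe hW, hu] with x h1 h2 h3 h4 h5 h6 h7
  rw [h1, h2, Pi.sub_apply, Pi.sub_apply, h3, h4, h5, h6, ← sub_mul, norm_mul,
    mul_comm ‖V x - W x‖]
  exact mul_le_mul_of_nonneg_right h7 (norm_nonneg _)

theorem UK_lim {r C M : ℝ} {K : HS →L[ℂ] HS} (hK : SymB r C K) {Vn : ℕ → E3 → ℂ} {V : E3 → ℂ}
    (hVn : ∀ n, IsPot r M (Vn n)) (hV : IsPot r M V) (hMK : M * ‖K‖ ≤ 1 / 2)
    (hd : Tendsto (fun n => dH r (Vn n)) atTop (𝓝 (dH r V))) {c : ℝ} {e : HS} (he : Bd c e) :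
    Tendsto (fun n => UK K (Vn n) e) atTop (𝓝 (UK K V e)) := by
  obtain ⟨c', hc'⟩ : ∃ c', c' = c + C * (M * (2 * ‖e‖)) := ⟨_, rfl⟩
  have hB : Bd c' (UK K V e) := hc' ▸ UK_Bd hK hV hMK he
  have hb : ∀ n, ‖UK K (Vn n) e - UK K V e‖ ≤
      2 * ‖K‖ * (c' * ‖dH r (Vn n) - dH r V‖) := by
    intro n
    have h1 : UK K (Vn n) e - UK K V e = K (mulL (Vn n) (UK K (Vn n) e - UK K V e)) +
        K (mulL (Vn n) (UK K V e) - mulL V (UK K V e)) := by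
      have e1 := UK_fix (hVn n) hMK e
      have e2 := UK_fix hV hMK e
      have e3 : UK K (Vn n) e - UK K V e = K (mulL (Vn n) (UK K (Vn n) e)) -
          K (mulL V (UK K V e)) := by
        conv_lhs => rw [e1, e2]
        abel
      rw [← map_add, map_sub]
      have e4 : mulL (Vn n) (UK K (Vn n) e) - mulL (Vn n) (UK K V e) +
          (mulL (Vn n) (UK K V e) - mulL V (UK K V e)) =
          mulL (Vn n) (UK K (Vn n) e) - mulL V (UK K V e) := by abel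
      rw [e4, map_sub]
      exact e3
    have h2 : ‖K (mulL (Vn n) (UK K (Vn n) e - UK K V e))‖ ≤
        1 / 2 * ‖UK K (Vn n) e - UK K V e‖ :=
      ((K ∘L mulL (Vn n)).le_opNorm _).trans
        (mul_le_mul_of_nonneg_right (UK_T (hVn n) hMK) (norm_nonneg _))
    have h3 : ‖K (mulL (Vn n) (UK K V e) - mulL V (UK K V e))‖ ≤
        ‖K‖ * (c' * ‖dH r (Vn n) - dH r V‖) :=
      (K.le_opNorm _).trans (mul_le_mul_of_nonneg_left (abs_mulL_diff (hVn n) hV hB)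
        (norm_nonneg _))
    have h4 : ‖UK K (Vn n) e - UK K V e‖ ≤
        ‖K (mulL (Vn n) (UK K (Vn n) e - UK K V e))‖ +
          ‖K (mulL (Vn n) (UK K V e) - mulL V (UK K V e))‖ := by
      have := norm_add_le (K (mulL (Vn n) (UK K (Vn n) e - UK K V e)))
        (K (mulL (Vn n) (UK K V e) - mulL V (UK K V e)))
      rwa [← h1] at this
    have h5 : 2 * ‖K‖ * (c' * ‖dH r (Vn n) - dH r V‖) =
        2 * (‖K‖ * (c' * ‖dH r (Vn n) - dH r V‖)) := by ring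
    rw [h5]
    linarith
  rw [tendsto_iff_norm_sub_tendsto_zero]
  refine squeeze_zero (fun n => norm_nonneg _) hb ?_
  have h0 := (tendsto_iff_norm_sub_tendsto_zero.1 hd)
  have h1 := (h0.const_mul c').const_mul (2 * ‖K‖)
  rw [mul_zero, mul_zero] at h1
  exact h1

theorem A3_W_add {C : ℝ} {W W' f g : HS} (hf : Bd C f) : A3 (W + W') f g = A3 W f g + A3 W' f g := by
  unfold A3
  rw [← integral_add (A3_integrable hf) (A3_integrable hf)]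
  refine integral_congr_ae ?_
  filter_upwards [Lp.coeFn_add W W'] with x hx
  rw [hx, Pi.add_apply]
  ring

theorem A3_W_smul (c : ℂ) (W f g : HS) : A3 (c • W) f g = c * A3 W f g := by
  unfold A3
  rw [← integral_const_mul]
  refine integral_congr_ae ?_
  filter_upwards [Lp.coeFn_smul c W] with x hx
  rw [hx, Pi.smul_apply, smul_eq_mul]
  ring

theorem A3_lim {C : ℝ} {w f g : ℕ → HS} {w₀ f₀ g₀ : HS} (hw : Tendsto w atTop (𝓝 w₀))
    (hf : Tendsto f atTop (𝓝 f₀)) (hg : Tendsto g atTop (𝓝 g₀)) (hfb : ∀ n, Bd C (f n))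
    (hgb : ∀ n, Bd C (g n)) (hf₀ : Bd C f₀) (hg₀ : Bd C g₀) :
    Tendsto (fun n => A3 (w n) (f n) (g n)) atTop (𝓝 (A3 w₀ f₀ g₀)) := by
  obtain ⟨D, hD⟩ : ∃ D, D = max C 0 := ⟨_, rfl⟩
  have hD0 : 0 ≤ D := hD ▸ le_max_right _ _
  have hCD : C ≤ D := hD ▸ le_max_left _ _
  have hb : ∀ n, ‖A3 (w n) (f n) (g n) - A3 w₀ f₀ g₀‖ ≤
      D * ‖w n - w₀‖ * ‖g n‖ + D * ‖w₀‖ * ‖f n - f₀‖ + D * ‖w₀‖ * ‖g n - g₀‖ := by
    intro n
    have a1 : A3 (w n) (f n) (g n) = A3 (w n - w₀) (f n) (g n) + A3 w₀ (f n) (g n) := by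
      rw [← A3_W_add (hfb n), sub_add_cancel]
    have a2 : A3 w₀ (f n) (g n) = A3 w₀ (f n - f₀) (g n) + A3 w₀ f₀ (g n) := by
      rw [← A3_add_left ((hfb n).sub hf₀) hf₀, sub_add_cancel]
    have a3 : A3 w₀ f₀ (g n) = A3 w₀ f₀ (g n - g₀) + A3 w₀ f₀ g₀ := by
      rw [← A3_add_right hf₀, sub_add_cancel]
    have a4 : A3 (w n) (f n) (g n) - A3 w₀ f₀ g₀ = A3 (w n - w₀) (f n) (g n) +
        A3 w₀ (g n) (f n - f₀) + A3 w₀ f₀ (g n - g₀) := by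
      rw [a1, a2, a3, A3_comm w₀ (f n - f₀)]
      ring
    rw [a4]
    refine (norm_add₃_le).trans (add_le_add (add_le_add ?_ ?_) ?_)
    · exact A3_norm hD0 ((hfb n).mono hCD)
    · exact A3_norm hD0 ((hgb n).mono hCD)
    · exact A3_norm hD0 (hf₀.mono hCD)
  rw [tendsto_iff_norm_sub_tendsto_zero]
  refine squeeze_zero (fun n => norm_nonneg _) hb ?_
  have w1 := tendsto_iff_norm_sub_tendsto_zero.1 hw
  have f1 := tendsto_iff_norm_sub_tendsto_zero.1 hf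
  have g1 := tendsto_iff_norm_sub_tendsto_zero.1 hg
  have g2 := hg.norm
  have h1 := ((w1.const_mul D).mul g2).add (f1.const_mul (D * ‖w₀‖)) |>.add
    (g1.const_mul (D * ‖w₀‖))
  simpa using h1

end FracScatC

end
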