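import Pool.Agent.Lib.MP_6e2ba5_an.Dx.Defs

/-! # The operators on the axis which is used

Both cases (`s > 1`: real axis, `Kop s r (kx ξ)`; `s < 1`: negative axis, `Mop s r (km ξ)`) from the library:
symmetry `Kop_symm` (`Cx/KopRep.lean`), `Mop_symm` (`Ex/MopB.lean`); the cut offs from the definitions (`indB_idem`);
the sup bounds `Kop_Bd`, `Mop_Bd` with `‖PL s r ξ g‖ ≤ ‖gsH‖ ‖g‖` (`norm_PL_le`, `norm_PLN_le`; for general `g`
use `K (indB g) = K g` and `‖indB g‖ ≤ ‖g‖`); the norms `Kx_norm` (`Cx/UBnd.lean`), `Mop_norm` with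
`‖km ξ‖ = 2π‖ξ‖`; `norm_gsH_le` (`Cx/GsMem.lean`), `norm_mNH_le` (`Ex/SymNB.lean`); the formulas `A3_eK`, `A3_KK`
(`Cx/A3Four.lean`), `A3_eM`, `A3_MM` (`Ex/RepN.lean`). `exists_KOK`: `exists_N` (`Cx/UBnd.lean`), `exists_NN`
(`Ex/MopB.lean`), `AR_norm`, and `Kop_norm` (`KopA.lean`) at `k = iτ`, since the norms tend to `0`. -/

set_option autoImplicit false

open MeasureTheory Filter Topology Set
open scoped FourierTransform SchwartzMap InnerProductSpace ENNReal BoundedContinuousFunction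

noncomputable section

namespace FracScatC

open FracScat

theorem aE_gt {s : ℝ} (h0 : 3 / 4 < s) (h1 : s ≠ 1) : 1 < aE s := by
  unfold aE
  split_ifs with h <;> linarith

theorem bE_pos {s : ℝ} (h0 : 3 / 4 < s) (h1 : s ≠ 1) : 0 < bE s := by
  unfold bE
  split_ifs with h <;> linarith

private theorem AxApi_ne {ξ : E3} (hξ : 1 ≤ ‖ξ‖) : ξ ≠ 0 := by
  intro h
  rw [h, norm_zero] at hξ
  linarith

private theorem AxApi_le (ξ : E3) : ‖ξ‖ ≤ 2 * Real.pi * ‖ξ‖ := by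
  have := Real.pi_gt_three
  nlinarith [norm_nonneg ξ]

private theorem AxApi_lt {s : ℝ} (h1 : s ≠ 1) (h : ¬ 1 < s) : s < 1 :=
  lt_of_le_of_ne (not_lt.1 h) h1

private theorem AxApi_cut (r : ℝ) (g : HS) : ‖mulL (indB r) g‖ ≤ ‖g‖ := by
  have h : ‖mulL (indB r)‖ ≤ 1 := by
    refine norm_mulL_le (indB_BM r) zero_le_one (Eventually.of_forall fun x => ?_)
    unfold indB
    split_ifs <;> simp
  calc ‖mulL (indB r) g‖ ≤ ‖mulL (indB r)‖ * ‖g‖ := (mulL (indB r)).le_opNorm g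
    _ ≤ 1 * ‖g‖ := mul_le_mul_of_nonneg_right h (norm_nonneg _)
    _ = ‖g‖ := one_mul _

private theorem AxApi_mono {C C' : ℝ} {f : HS} (h : Bd C f) (hC : C ≤ C') : Bd C' f := by
  filter_upwards [h] with x hx
  exact hx.trans hC

theorem AR_SymB {s : ℝ} (h0 : 3 / 4 < s) (h2 : s < 2) (h1 : s ≠ 1) {r : ℝ} (hr : 0 < r) {ξ : E3}
    (hξ : 1 ≤ ‖ξ‖) : SymB r ‖aH s r ξ‖ (AR s r ξ) := by
  have hne := AxApi_ne hξ
  by_cases h : 1 < s
  · have eA : AR s r ξ = Kop s r (kx ξ) := if_pos h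
    have eH : aH s r ξ = gsH s r (2 * Real.pi * ‖ξ‖) := if_pos h
    rw [eA, eH]
    have hc : ∀ g : HS, Kop s r (kx ξ) (mulL (indB r) g) = Kop s r (kx ξ) g := by
      intro g
      show mulL (indB r) (multL _ (mulL (indB r) (mulL (indB r) g))) = _
      rw [indB_idem]
      rfl
    refine ⟨norm_nonneg _, fun f g => ?_, fun g => ?_, hc, fun g => ?_⟩
    · rw [pr_eq, pr_eq]
      exact Kop_symm (by linarith) h2 hr.le (kx_mem_Quad hne) f g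
    · show mulL (indB r) (mulL (indB r) _) = mulL (indB r) _
      rw [indB_idem]
    · rw [← hc g]
      refine AxApi_mono (Kop_Bd h0 h2 hr.le (hξ.trans (AxApi_le ξ)) (indB_idem r g)) ?_
      exact (norm_PL_le s r ξ _).trans
        (mul_le_mul_of_nonneg_left (AxApi_cut r g) (norm_nonneg _))
  · have hs := AxApi_lt h1 h
    have eA : AR s r ξ = Mop s r (km ξ) := if_neg h
    have eH : aH s r ξ = mNH s (2 * Real.pi * ‖ξ‖) := if_neg h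
    rw [eA, eH]
    have hc : ∀ g : HS, Mop s r (km ξ) (mulL (indB r) g) = Mop s r (km ξ) g := by
      intro g
      show mulL (indB r) (multL _ (mulL (indB r) (mulL (indB r) g))) = _
      rw [indB_idem]
      rfl
    refine ⟨norm_nonneg _, fun f g => ?_, fun g => ?_, hc, fun g => ?_⟩
    · rw [pr_eq, pr_eq]
      exact Mop_symm r (rsE_BM2 (by linarith) hs (km_mem_Sec2 hne)) f g
    · show mulL (indB r) (mulL (indB r) _) = mulL (indB r) _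
      rw [indB_idem]
    · rw [← hc g]
      refine AxApi_mono (Mop_Bd h0 hs r hne (indB_idem r g)) ?_
      exact (norm_PLN_le s ξ _).trans
        (mul_le_mul_of_nonneg_left (AxApi_cut r g) (norm_nonneg _))

theorem AR_norm {s : ℝ} (h0 : 3 / 4 < s) (h2 : s < 2) (h1 : s ≠ 1) {r : ℝ} (hr : 0 < r) :
    ∃ C : ℝ, 0 ≤ C ∧ ∀ ξ : E3, 1 ≤ ‖ξ‖ → ‖AR s r ξ‖ ≤ C * ‖ξ‖ ^ (-(aE s)) := by
  by_cases h : 1 < s
  · obtain ⟨C, hC, H⟩ := Kx_norm h0 h2 hr.le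
    refine ⟨C, hC, fun ξ hξ => ?_⟩
    have eA : AR s r ξ = Kop s r (kx ξ) := if_pos h
    have ea : -(aE s) = 1 - 2 * s := by
      rw [aE, if_pos h]
      ring
    rw [eA, ea]
    exact H ξ hξ
  · have hs := AxApi_lt h1 h
    obtain ⟨C, hC, H⟩ := Mop_norm (s := s) (by linarith) hs r
    refine ⟨C, hC, fun ξ hξ => ?_⟩
    have eA : AR s r ξ = Mop s r (km ξ) := if_neg h
    have ea : aE s = 2 * s := if_neg h
    rw [eA, ea]
    refine (H _ (km_mem_Sec2 (AxApi_ne hξ))).trans (mul_le_mul_of_nonneg_left ?_ hC)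
    rw [norm_km]
    exact Real.rpow_le_rpow_of_nonpos (by linarith) (AxApi_le ξ) (by linarith)

theorem aH_norm {s : ℝ} (h0 : 3 / 4 < s) (h2 : s < 2) (h1 : s ≠ 1) {r : ℝ} (hr : 0 < r) :
    ∃ C : ℝ, 0 ≤ C ∧ ∀ ξ : E3, 1 ≤ ‖ξ‖ → ‖aH s r ξ‖ ≤ C * ‖ξ‖ ^ (-(bE s)) := by
  by_cases h : 1 < s
  · obtain ⟨C, hC, H⟩ := norm_gsH_le h0 h2 hr.le
    refine ⟨C, hC, fun ξ hξ => ?_⟩
    have eH : aH s r ξ = gsH s r (2 * Real.pi * ‖ξ‖) := if_pos h
    have ea : -(bE s) = 2 - 2 * s := by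
      rw [bE, if_pos h]
      ring
    rw [eH, ea]
    exact H ξ (hξ.trans (AxApi_le ξ))
  · have hs := AxApi_lt h1 h
    obtain ⟨C, hC, H⟩ := norm_mNH_le h0 hs
    refine ⟨C, hC, fun ξ hξ => ?_⟩
    have eH : aH s r ξ = mNH s (2 * Real.pi * ‖ξ‖) := if_neg h
    have ea : -(bE s) = 3 / 2 - 2 * s := by
      rw [bE, if_neg h]
      ring
    rw [eH, ea]
    have hp : 0 < 2 * Real.pi * ‖ξ‖ := lt_of_lt_of_le (by linarith) (AxApi_le ξ)
    refine (H _ hp).trans (mul_le_mul_of_nonneg_left ?_ hC)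
    exact Real.rpow_le_rpow_of_nonpos (by linarith) (AxApi_le ξ) (by linarith)

theorem A3_eA {s : ℝ} (h0 : 3 / 4 < s) (h2 : s < 2) (h1 : s ≠ 1) {r : ℝ} (hr : 0 < r) {ξ : E3}
    (hξ : 1 ≤ ‖ξ‖) {W : HS} (hW : W ∈ HB r) {g : HS} (hg : mulL (indB r) g = g) :
    A3 W (eH r ξ) (AR s r ξ g) = lam ξ (PA s r ξ g) (ftX W) := by
  by_cases h : 1 < s
  · have eA : AR s r ξ = Kop s r (kx ξ) := if_pos h
    have eP : PA s r ξ g = PL s r ξ g := by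
      rw [PA, aH, if_pos h, PL_apply]
    rw [eA, eP]
    exact A3_eK h0 h2 hr.le (hξ.trans (AxApi_le ξ)) hW hg
  · have hs := AxApi_lt h1 h
    have eA : AR s r ξ = Mop s r (km ξ) := if_neg h
    have eP : PA s r ξ g = PLN s ξ g := by
      rw [PA, aH, if_neg h, PLN_apply]
    rw [eA, eP]
    exact A3_eM h0 hs (AxApi_ne hξ) hW hg

theorem A3_AA {s : ℝ} (h0 : 3 / 4 < s) (h2 : s < 2) (h1 : s ≠ 1) {r : ℝ} (hr : 0 < r) {ξ : E3}
    (hξ : 1 ≤ ‖ξ‖) {W : HS} (hW : W ∈ HB r) {g₁ g₂ : HS} (hg₁ : mulL (indB r) g₁ = g₁)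
    (hg₂ : mulL (indB r) g₂ = g₂) :
    A3 W (AR s r ξ g₁) (AR s r ξ g₂) = bet (PA s r ξ g₁) (PA s r ξ g₂) (ftX W) := by
  by_cases h : 1 < s
  · have eA : AR s r ξ = Kop s r (kx ξ) := if_pos h
    have eP : ∀ g : HS, PA s r ξ g = PL s r ξ g := by
      intro g
      rw [PA, aH, if_pos h, PL_apply]
    rw [eA, eP, eP]
    exact A3_KK h0 h2 hr.le (hξ.trans (AxApi_le ξ)) hW hg₁ hg₂
  · have hs := AxApi_lt h1 h
    have eA : AR s r ξ = Mop s r (km ξ) := if_neg h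
    have eP : ∀ g : HS, PA s r ξ g = PLN s ξ g := by
      intro g
      rw [PA, aH, if_neg h, PLN_apply]
    rw [eA, eP, eP]
    exact A3_MM h0 hs (AxApi_ne hξ) hW hg₁ hg₂

private theorem AxApi_small {C M a : ℝ} (ha : 0 < a) :
    ∃ K : ℝ, 1 ≤ K ∧ ∀ t : ℝ, K ≤ t → max M 0 * (C * t ^ (-a)) ≤ 1 / 2 := by
  have ht : Tendsto (fun t : ℝ => max M 0 * (C * t ^ (-a))) atTop (𝓝 (max M 0 * (C * 0))) :=
    ((tendsto_rpow_neg_atTop ha).const_mul C).const_mul _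
  rw [mul_zero, mul_zero] at ht
  obtain ⟨K, hK⟩ := eventually_atTop.1 (ht.eventually_le_const (by norm_num : (0 : ℝ) < 1 / 2))
  exact ⟨max K 1, le_max_right _ _, fun t htK => hK t ((le_max_left _ _).trans htK)⟩

private theorem AxApi_tk {s : ℝ} (h0 : 3 / 4 < s) (h2 : s < 2) (h1 : s ≠ 1) {r : ℝ} (hr : 0 < r)
    (M : ℝ) : ∃ K : ℝ, 1 ≤ K ∧ (∀ V : E3 → ℂ, IsPot r M V → ∀ k ∈ Reg K, ‖Tk s r V k‖ ≤ 1 / 2) ∧
      (s < 1 → ∀ V : E3 → ℂ, IsPot r M V → ∀ k ∈ Sec2, K ≤ ‖k‖ → ‖Tm s r V k‖ ≤ 1 / 2) := by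
  by_cases h : 1 < s
  · obtain ⟨K, hK, H⟩ := exists_N h0 h2 hr M
    exact ⟨K, hK, H, fun hs => absurd hs (not_lt.2 h.le)⟩
  · obtain ⟨K, hK, H⟩ := exists_NN h0 (AxApi_lt h1 h) hr M
    exact ⟨K, hK, fun V hV => (H V hV).1, fun _ V hV => (H V hV).2⟩

theorem exists_KOK {s : ℝ} (h0 : 3 / 4 < s) (h2 : s < 2) (h1 : s ≠ 1) {r : ℝ} (hr : 0 < r)
    (M : ℝ) : ∃ K : ℝ, KOK s r M K := by
  obtain ⟨K₁, hK₁, H₁, H₁'⟩ := AxApi_tk h0 h2 h1 hr M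
  obtain ⟨C₂, hC₂, H₂⟩ := AR_norm h0 h2 h1 hr
  obtain ⟨K₂, hK₂, L₂⟩ := AxApi_small (C := C₂) (M := M) (a := aE s)
    (lt_trans zero_lt_one (aE_gt h0 h1))
  obtain ⟨C₃, hC₃, H₃⟩ := Kop_norm (s := s) (by linarith) h2 hr.le
  obtain ⟨K₃, hK₃, L₃⟩ := AxApi_small (C := C₃) (M := M) (a := 2 * s - 1) (by linarith)
  have hM : M ≤ max M 0 := le_max_left _ _
  refine ⟨max K₁ (max K₂ K₃), hK₁.trans (le_max_left _ _), fun V hV k hk => ?_,
    fun hs V hV k hk hkK => ?_, fun ξ hξ => ?_, fun τ hτ => ?_⟩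
  · exact H₁ V hV k ⟨hk.1, hk.2.1, (le_max_left _ _).trans hk.2.2⟩
  · exact H₁' hs V hV k hk ((le_max_left _ _).trans hkK)
  · have hξ₂ : K₂ ≤ ‖ξ‖ := ((le_max_left _ _).trans (le_max_right _ _)).trans hξ
    calc M * ‖AR s r ξ‖ ≤ max M 0 * ‖AR s r ξ‖ := mul_le_mul_of_nonneg_right hM (norm_nonneg _)
      _ ≤ max M 0 * (C₂ * ‖ξ‖ ^ (-(aE s))) :=
        mul_le_mul_of_nonneg_left (H₂ ξ (hK₂.trans hξ₂)) (le_max_right _ _)
      _ ≤ 1 / 2 := L₂ _ hξ₂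
  · have hτ₃ : K₃ ≤ τ := ((le_max_right _ _).trans (le_max_right _ _)).trans hτ
    have hτ1 : 1 ≤ τ := hK₃.trans hτ₃
    have hn : ‖Complex.I * (τ : ℂ)‖ = τ := by
      rw [norm_mul, Complex.norm_I, one_mul, Complex.norm_real, Real.norm_of_nonneg (by linarith)]
    have hq : Complex.I * (τ : ℂ) ∈ Quad := by
      refine ⟨by simp, by simp; linarith, ?_⟩
      intro h
      rw [h, norm_zero] at hn
      linarith
    have h3 := H₃ _ hq (by rw [hn]; exact hτ1)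
    rw [hn] at h3
    have e : (1 : ℝ) - 2 * s = -(2 * s - 1) := by ring
    rw [e] at h3
    calc M * ‖RI s r τ‖ ≤ max M 0 * ‖RI s r τ‖ := mul_le_mul_of_nonneg_right hM (norm_nonneg _)
      _ ≤ max M 0 * (C₃ * τ ^ (-(2 * s - 1))) :=
        mul_le_mul_of_nonneg_left h3 (le_max_right _ _)
      _ ≤ 1 / 2 := L₃ _ hτ₃

end FracScatC

end
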