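import Pool.Agent.Lib.MP_6e2ba5_an.Dx.EcA

/-! # The data for complex directions

For a unit vector `θ` and a unit vector `b ⟂ θ` put `η(t) = -τ (cos t θ + sin t b)`, `t ∈ ℂ`. For real `t` this is
`rv τ (cos t θ + sin t b)` with a unit vector, and `ec r (rv τ θ) = ev r θ (iτ)` (`ec_ev`), so
`FC s r V τ (rv τ θ) = Ffun s r V θ (iτ)` by the definitions. `t ↦ FC s r V_j τ (η t)` is entire (`ec_diff`, the
pairing `prB` and the operator `TI` are bounded), and the difference vanishes on the real line, so it vanishes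
(`AnalyticOnNhd.eq_of_frequently_eq` or similar). Every `η` with `η·η = τ²` (`τ > 0`) is of this form: let `a = Re η`,
`b' = Im η`, then `|a|² - |b'|² = τ²`, `a·b' = 0`; `θ = -a/|a|`, `|a| = τ cosh β`, `|b'| = τ sinh β`, `b = -b'/|b'|`
(any unit vector orthogonal to `θ` if `b' = 0`), `t = iβ`: `cos(iβ) = cosh β`, `sin(iβ) = i sinh β`. -/

set_option autoImplicit false

open MeasureTheory Filter Topology Set
open scoped FourierTransform SchwartzMap InnerProductSpace ENNReal BoundedContinuousFunction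

noncomputable section

namespace FracScatC

open FracScat

private theorem FCeq_diff (s r : ℝ) (V : E3 → ℂ) (τ : ℝ) {g : ℂ → Fin 3 → ℂ}
    (hg : Differentiable ℂ g) : Differentiable ℂ fun t => FC s r V τ (g t) := by
  have h1 : Differentiable ℂ fun t => ec r (g t) := (ec_diff r).comp hg
  have h2 : Differentiable ℂ fun t => prB (ec r (g t)) := prB.differentiable.comp h1
  have h3 : Differentiable ℂ fun t => TI s r V τ (ec r (g t)) :=
    (TI s r V τ).differentiable.comp h1
  exact h2.clm_apply h3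

private theorem FCeq_ident {f g : ℂ → ℂ} (hf : Differentiable ℂ f) (hg : Differentiable ℂ g)
    (h : ∀ t : ℝ, f t = g t) : f = g := by
  have hfa : AnalyticOnNhd ℂ f univ := fun z _ => hf.analyticAt z
  have hga : AnalyticOnNhd ℂ g univ := fun z _ => hg.analyticAt z
  refine hfa.eq_of_frequently_eq hga (z₀ := 0) ?_
  have ht : Tendsto (fun n : ℕ => (((1 / ((n : ℝ) + 1) : ℝ)) : ℂ)) atTop (𝓝[≠] (0 : ℂ)) := by
    refine tendsto_nhdsWithin_iff.2 ⟨?_, Filter.Eventually.of_forall fun n => ?_⟩
    · have h1 : Tendsto (fun n : ℕ => (1 / ((n : ℝ) + 1) : ℝ)) atTop (𝓝 0) :=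
        tendsto_one_div_add_atTop_nhds_zero_nat
      have h2 : Tendsto (fun n : ℕ => (((1 / ((n : ℝ) + 1) : ℝ)) : ℂ)) atTop (𝓝 ((0 : ℝ) : ℂ)) :=
        (Complex.continuous_ofReal.tendsto 0).comp h1
      rw [Complex.ofReal_zero] at h2
      exact h2
    · have h3 : (1 / ((n : ℝ) + 1) : ℝ) ≠ 0 := by positivity
      have h4 : (((1 / ((n : ℝ) + 1) : ℝ)) : ℂ) ≠ 0 := Complex.ofReal_ne_zero.2 h3
      exact h4
  exact ht.frequently (Filter.Frequently.of_forall fun n => h _)

private theorem FCeq_norm {x : E3} (h : ∑ j, x j ^ 2 = 1) : ‖x‖ = 1 := by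
  have h1 : ‖x‖ ^ 2 = 1 := by
    rw [EuclideanSpace.norm_sq_eq, ← h]
    exact Finset.sum_congr rfl fun j _ => by rw [Real.norm_eq_abs, sq_abs]
  have h2 : 0 ≤ ‖x‖ := norm_nonneg x
  nlinarith

theorem FC_real (s r : ℝ) (V : E3 → ℂ) (τ : ℝ) (θ : E3) :
    FC s r V τ (rv τ θ) = Ffun s r V θ (Complex.I * τ) := by
  unfold FC
  rw [ec_ev]
  rfl

theorem FC_eq {s r : ℝ} {V₁ V₂ : E3 → ℂ} {τ : ℝ} (hτ : 0 < τ)
    (h : ∀ θ : E3, ‖θ‖ = 1 → Ffun s r V₁ θ (Complex.I * τ) = Ffun s r V₂ θ (Complex.I * τ))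
    {η : Fin 3 → ℂ} (hη : Adm τ η) : FC s r V₁ τ η = FC s r V₂ τ η := by
  have hsum : ∑ j, η j ^ 2 = ((τ ^ 2 : ℝ) : ℂ) := hη
  set a : Fin 3 → ℝ := fun j => (η j).re with ha
  set c : Fin 3 → ℝ := fun j => (η j).im with hc
  have hre : ∑ j, a j ^ 2 = τ ^ 2 + ∑ j, c j ^ 2 := by
    have h1 := congrArg Complex.re hsum
    rw [Complex.ofReal_re, Complex.re_sum] at h1
    rw [← h1, ← Finset.sum_add_distrib]
    refine Finset.sum_congr rfl fun j _ => ?_
    rw [pow_two (η j), Complex.mul_re]
    simp only [ha, hc]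
    ring
  have him : ∑ j, a j * c j = 0 := by
    have h1 := congrArg Complex.im hsum
    rw [Complex.ofReal_im, Complex.im_sum] at h1
    have h2 : ∑ j, (η j ^ 2).im = 2 * ∑ j, a j * c j := by
      rw [Finset.mul_sum]
      refine Finset.sum_congr rfl fun j _ => ?_
      rw [pow_two (η j), Complex.mul_im]
      simp only [ha, hc]
      ring
    rw [h2] at h1
    linarith
  have hC0 : 0 ≤ ∑ j, c j ^ 2 := Finset.sum_nonneg fun j _ => sq_nonneg _
  rcases eq_or_lt_of_le hC0 with hC | hC
  · -- real vector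
    have hcz : ∀ j, c j = 0 := by
      intro j
      have h1 := (Finset.sum_eq_zero_iff_of_nonneg (fun j _ => sq_nonneg (c j))).1 hC.symm j
        (Finset.mem_univ j)
      exact pow_eq_zero_iff (two_ne_zero) |>.1 h1
    set θ : E3 := WithLp.toLp 2 fun j => -(a j / τ) with hθ
    have hθn : ‖θ‖ = 1 := by
      refine FCeq_norm ?_
      have h1 : ∀ j, θ j ^ 2 = a j ^ 2 / τ ^ 2 := by
        intro j
        simp only [hθ]
        rw [neg_sq, div_pow]
      rw [Finset.sum_congr rfl fun j _ => h1 j, ← Finset.sum_div, hre, ← hC, add_zero]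
      exact div_self (by positivity)
    have hη' : η = rv τ θ := by
      funext j
      have h1 : rv τ θ j = ((a j : ℝ) : ℂ) := by
        unfold rv
        congr 1
        simp only [hθ]
        field_simp
      rw [h1]
      apply Complex.ext
      · rw [Complex.ofReal_re]
      · rw [Complex.ofReal_im]
        exact hcz j
    rw [hη', FC_real, FC_real]
    exact h θ hθn
  · -- complex vector
    have hA : 0 < ∑ j, a j ^ 2 := by
      rw [hre]
      positivity
    set α : ℝ := Real.sqrt (∑ j, a j ^ 2) with hα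
    set γ : ℝ := Real.sqrt (∑ j, c j ^ 2) with hγ
    have hα0 : 0 < α := Real.sqrt_pos.2 hA
    have hγ0 : 0 < γ := Real.sqrt_pos.2 hC
    have hα2 : α ^ 2 = ∑ j, a j ^ 2 := Real.sq_sqrt hA.le
    have hγ2 : γ ^ 2 = ∑ j, c j ^ 2 := Real.sq_sqrt hC.le
    set β : ℝ := Real.arsinh (γ / τ) with hβ
    have hsh : Real.sinh β = γ / τ := Real.sinh_arsinh _
    have hch : Real.cosh β = α / τ := by
      rw [hβ, Real.cosh_arsinh]
      have h1 : 1 + (γ / τ) ^ 2 = (α / τ) ^ 2 := by
        rw [div_pow, div_pow, hα2, hre, ← hγ2]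
        field_simp
      rw [h1]
      exact Real.sqrt_sq (by positivity)
    set g : ℂ → Fin 3 → ℂ := fun t j =>
      -((τ : ℂ) * (Complex.cos t * ((-(a j / α) : ℝ) : ℂ) +
        Complex.sin t * ((-(c j / γ) : ℝ) : ℂ))) with hg
    have hgd : Differentiable ℂ g := by
      rw [differentiable_pi]
      intro j
      simp only [hg]
      fun_prop
    have hreal : ∀ t : ℝ, FC s r V₁ τ (g t) = FC s r V₂ τ (g t) := by
      intro t
      set θ : E3 := WithLp.toLp 2 fun j =>
        Real.cos t * (-(a j / α)) + Real.sin t * (-(c j / γ)) with hθ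
      have hθn : ‖θ‖ = 1 := by
        refine FCeq_norm ?_
        have h1 : ∀ j, θ j ^ 2 = Real.cos t ^ 2 / α ^ 2 * a j ^ 2 +
            Real.sin t ^ 2 / γ ^ 2 * c j ^ 2 +
            2 * Real.cos t * Real.sin t / (α * γ) * (a j * c j) := by
          intro j
          simp only [hθ]
          field_simp
          ring
        rw [Finset.sum_congr rfl fun j _ => h1 j, Finset.sum_add_distrib,
          Finset.sum_add_distrib, ← Finset.mul_sum, ← Finset.mul_sum, ← Finset.mul_sum, him,
          ← hα2, ← hγ2, mul_zero, add_zero, div_mul_cancel₀ _ (by positivity),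
          div_mul_cancel₀ _ (by positivity)]
        exact Real.cos_sq_add_sin_sq t
      have hgt : g t = rv τ θ := by
        funext j
        simp only [hg, rv, hθ]
        push_cast
        ring
      rw [hgt, FC_real, FC_real]
      exact h θ hθn
    have hall := FCeq_ident (FCeq_diff s r V₁ τ hgd) (FCeq_diff s r V₂ τ hgd) hreal
    have hpt : g ((β : ℂ) * Complex.I) = η := by
      funext j
      simp only [hg]
      rw [Complex.cos_mul_I, Complex.sin_mul_I, ← Complex.ofReal_cosh, ← Complex.ofReal_sinh, hsh,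
        hch]
      have h1 : η j = (a j : ℂ) + (c j : ℂ) * Complex.I := (Complex.re_add_im (η j)).symm
      rw [h1]
      have hτ' : (τ : ℂ) ≠ 0 := Complex.ofReal_ne_zero.2 hτ.ne'
      have hα' : (α : ℂ) ≠ 0 := Complex.ofReal_ne_zero.2 hα0.ne'
      have hγ' : (γ : ℂ) ≠ 0 := Complex.ofReal_ne_zero.2 hγ0.ne'
      push_cast
      field_simp
      ring
    have hfin := congrFun hall ((β : ℂ) * Complex.I)
    simp only [hpt] at hfin
    exact hfin

end FracScatC

end
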