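import Pool.Agent.Lib.MP_6e2ba5_an.Dx.Defs

/-! # The exponentials `ec r η`

`ec_diff`: `η ↦ 1_B exp(η·x)` is an entire function with values in `L²`. One way: the operators
`X_j = mulL (x_j 1_B)` are bounded, `exp(∑ η_j X_j)` (`NormedSpace.exp` in the Banach algebra of bounded operators,
analytic) is the multiplication by `exp(η·x)` on the ball. Another way: by Hartogs-free direct estimate: the
derivative at `η` in the direction `h` is `1_B (h·x) exp(η·x)`, and
`|exp((η+h)·x) - exp(η·x) - (h·x) exp(η·x)| ≤ C ‖h‖²` uniformly on the ball for `‖h‖ ≤ 1`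
(`Complex.norm_exp_sub_one_sub_id_le` or similar), which gives `HasFDerivAt`. `SphC_diff` in `Rx/SphC.lean` and
`ev_diff` are related. `ec_ev`: `planeWave_I` (`AxisZ.lean`). -/

set_option autoImplicit false

open MeasureTheory Filter Topology Set
open scoped FourierTransform SchwartzMap InnerProductSpace ENNReal BoundedContinuousFunction

noncomputable section

namespace FracScatC

open FracScat

private theorem EcA_cd_le (h : Fin 3 → ℂ) {r : ℝ} {x : E3} (hx : ‖x‖ < r) :
    ‖cd h x‖ ≤ r * ∑ j, ‖h j‖ := by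
  unfold cd
  refine (norm_sum_le _ _).trans ?_
  rw [Finset.mul_sum]
  refine Finset.sum_le_sum fun j _ => ?_
  rw [norm_mul, Complex.norm_real, mul_comm]
  exact mul_le_mul_of_nonneg_right ((PiLp.norm_apply_le x j).trans hx.le) (norm_nonneg _)

private theorem EcA_cd_add (η h : Fin 3 → ℂ) (x : E3) : cd (η + h) x = cd η x + cd h x := by
  unfold cd
  rw [← Finset.sum_add_distrib]
  refine Finset.sum_congr rfl fun j _ => ?_
  rw [Pi.add_apply, add_mul]

private theorem EcA_BM (r : ℝ) (h : Fin 3 → ℂ) : BM (fun x => indB r x * cd h x) := by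
  refine ⟨(indB_BM r).1.mul (cd_cont h).aestronglyMeasurable, |r| * ∑ j, ‖h j‖,
    Eventually.of_forall fun x => ?_⟩
  show ‖indB r x * cd h x‖ ≤ _
  unfold indB
  split_ifs with hx
  · rw [one_mul]
    refine (EcA_cd_le h hx).trans ?_
    exact mul_le_mul_of_nonneg_right (le_abs_self r) (Finset.sum_nonneg fun j _ => norm_nonneg _)
  · rw [zero_mul, norm_zero]
    exact mul_nonneg (abs_nonneg _) (Finset.sum_nonneg fun j _ => norm_nonneg _)

/-- multiplication by the coordinate `x_j` on the ball -/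
private def EcA_X (r : ℝ) (j : Fin 3) : HS →L[ℂ] HS :=
  mulL (fun x => indB r x * cd (Pi.single j 1) x)

private theorem EcA_lin (r : ℝ) (h : Fin 3 → ℂ) :
    mulL (fun x => indB r x * cd h x) = ∑ j, h j • EcA_X r j := by
  unfold EcA_X
  rw [Fin.sum_univ_three]
  rw [← mulL_const_mul _ (EcA_BM r _), ← mulL_const_mul _ (EcA_BM r _),
    ← mulL_const_mul _ (EcA_BM r _), ← mulL_add ((EcA_BM r _).const_mul _)
      ((EcA_BM r _).const_mul _), ← mulL_add (((EcA_BM r _).const_mul _).add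
      ((EcA_BM r _).const_mul _)) ((EcA_BM r _).const_mul _)]
  congr 1
  funext x
  have e : cd h x = h 0 * cd (Pi.single 0 1) x + h 1 * cd (Pi.single 1 1) x +
      h 2 * cd (Pi.single 2 1) x := by
    unfold cd
    simp [Fin.sum_univ_three]
  rw [e]
  ring

private def EcA_D (r : ℝ) (η : Fin 3 → ℂ) : (Fin 3 → ℂ) →L[ℂ] HS :=
  ∑ j, (ContinuousLinearMap.proj (R := ℂ) (φ := fun _ : Fin 3 => ℂ) j).smulRight (EcA_X r j (ec r η))

private theorem EcA_D_apply (r : ℝ) (η h : Fin 3 → ℂ) :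
    EcA_D r η h = mulL (fun x => indB r x * cd h x) (ec r η) := by
  rw [EcA_lin]
  unfold EcA_D
  rw [Fin.sum_univ_three, Fin.sum_univ_three]
  rfl

private theorem EcA_bd (r : ℝ) (η h : Fin 3 → ℂ) (hh : |r| * ∑ j, ‖h j‖ ≤ 1) :
    ‖ec r (η + h) - ec r η - EcA_D r η h‖ ≤ (|r| * ∑ j, ‖h j‖) ^ 2 * ‖ec r η‖ := by
  refine Lp.norm_le_mul_norm_of_ae_le_mul ?_
  rw [EcA_D_apply]
  filter_upwards [Lp.coeFn_sub (ec r (η + h) - ec r η) (mulL (fun x => indB r x * cd h x) (ec r η)),
    Lp.coeFn_sub (ec r (η + h)) (ec r η), mulL_coe (EcA_BM r h) (ec r η), ec_coe r (η + h),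
    ec_coe r η] with x a1 a2 a3 a4 a5
  rw [a1, Pi.sub_apply, a2, Pi.sub_apply, a3, a4, a5]
  show ‖indB r x * Complex.exp (cd (η + h) x) - indB r x * Complex.exp (cd η x) -
    indB r x * cd h x * (indB r x * Complex.exp (cd η x))‖ ≤ _
  unfold indB
  split_ifs with hx
  · rw [EcA_cd_add, Complex.exp_add]
    have e : (1 : ℂ) * (Complex.exp (cd η x) * Complex.exp (cd h x)) - 1 * Complex.exp (cd η x) -
        1 * cd h x * (1 * Complex.exp (cd η x)) =
        (Complex.exp (cd h x) - 1 - cd h x) * (1 * Complex.exp (cd η x)) := by ring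
    rw [e, norm_mul]
    refine mul_le_mul_of_nonneg_right ?_ (norm_nonneg _)
    have h1 : ‖cd h x‖ ≤ |r| * ∑ j, ‖h j‖ := by
      refine (EcA_cd_le h hx).trans ?_
      exact mul_le_mul_of_nonneg_right (le_abs_self r) (Finset.sum_nonneg fun j _ => norm_nonneg _)
    exact (Complex.norm_exp_sub_one_sub_id_le (h1.trans hh)).trans
      (pow_le_pow_left₀ (norm_nonneg _) h1 2)
  · simp

theorem ec_diff (r : ℝ) : Differentiable ℂ (ec r) := by
  intro η
  have hD : HasFDerivAt (ec r) (EcA_D r η) η := by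
    rw [hasFDerivAt_iff_isLittleO_nhds_zero]
    have hs : ∀ h : Fin 3 → ℂ, |r| * ∑ j, ‖h j‖ ≤ 3 * |r| * ‖h‖ := by
      intro h
      have h1 : ∑ j, ‖h j‖ ≤ 3 * ‖h‖ := by
        rw [Fin.sum_univ_three]
        have := norm_le_pi_norm h 0
        have := norm_le_pi_norm h 1
        have := norm_le_pi_norm h 2
        linarith
      calc |r| * ∑ j, ‖h j‖ ≤ |r| * (3 * ‖h‖) := mul_le_mul_of_nonneg_left h1 (abs_nonneg _)
        _ = 3 * |r| * ‖h‖ := by ring
    have hs0 : ∀ h : Fin 3 → ℂ, 0 ≤ |r| * ∑ j, ‖h j‖ := fun h =>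
      mul_nonneg (abs_nonneg _) (Finset.sum_nonneg fun j _ => norm_nonneg _)
    have hO : (fun h : Fin 3 → ℂ => ec r (η + h) - ec r η - EcA_D r η h) =O[𝓝 0]
        fun h : Fin 3 → ℂ => ‖h‖ ^ 2 := by
      refine Asymptotics.IsBigO.of_bound ((3 * |r|) ^ 2 * ‖ec r η‖) ?_
      have ht : Tendsto (fun h : Fin 3 → ℂ => 3 * |r| * ‖h‖) (𝓝 0)
          (𝓝 (3 * |r| * ‖(0 : Fin 3 → ℂ)‖)) :=
        (continuous_const.mul continuous_norm).tendsto 0
      rw [norm_zero, mul_zero] at ht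
      filter_upwards [ht.eventually_le_const (by norm_num : (0 : ℝ) < 1)] with h hh
      refine (EcA_bd r η h ((hs h).trans hh)).trans ?_
      rw [norm_pow, norm_norm]
      calc (|r| * ∑ j, ‖h j‖) ^ 2 * ‖ec r η‖ ≤ (3 * |r| * ‖h‖) ^ 2 * ‖ec r η‖ :=
            mul_le_mul_of_nonneg_right (pow_le_pow_left₀ (hs0 h) (hs h) 2) (norm_nonneg _)
        _ = (3 * |r|) ^ 2 * ‖ec r η‖ * ‖h‖ ^ 2 := by ring
    refine hO.trans_isLittleO ?_
    exact Asymptotics.isLittleO_norm_pow_id one_lt_two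
  exact hD.differentiableAt

theorem ec_cut (r : ℝ) (η : Fin 3 → ℂ) : mulL (indB r) (ec r η) = ec r η := by
  apply Lp.ext
  filter_upwards [mulL_coe (indB_BM r) (ec r η), ec_coe r η] with x a b
  rw [a, b]
  unfold indB
  split_ifs <;> simp

theorem norm_exp_cd (η : Fin 3 → ℂ) (x : E3) :
    ‖Complex.exp (cd η x)‖ = Real.exp (∑ j, (η j).re * x j) := by
  rw [Complex.norm_exp]
  congr 1
  unfold cd
  rw [Complex.re_sum]
  refine Finset.sum_congr rfl fun j _ => ?_
  rw [Complex.re_mul_ofReal]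

theorem ec_Bd {r : ℝ} (hr : 0 < r) (η : Fin 3 → ℂ) : Bd (Real.exp (r * ∑ j, ‖η j‖)) (ec r η) := by
  unfold Bd
  filter_upwards [ec_coe r η] with x a
  rw [a]
  unfold indB
  split_ifs with hx
  · rw [one_mul, Complex.norm_exp]
    apply Real.exp_le_exp.2
    exact (Complex.re_le_norm _).trans (EcA_cd_le η hx)
  · rw [zero_mul, norm_zero]
    exact (Real.exp_pos _).le

theorem ec_ev (r τ : ℝ) (θ : E3) : ec r (rv τ θ) = ev r θ (Complex.I * τ) := by
  apply Lp.ext
  filter_upwards [ec_coe r (rv τ θ), ev_coe r θ (Complex.I * τ)] with x a b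
  rw [a, b, planeWave_I]
  congr 1
  unfold pe
  rw [Complex.ofReal_exp]
  congr 1
  unfold cd rv
  rw [PiLp.inner_apply]
  simp only [RCLike.inner_apply, conj_trivial]
  push_cast
  rw [Finset.mul_sum, ← Finset.sum_neg_distrib]
  refine Finset.sum_congr rfl fun j _ => ?_
  ring

end FracScatC

end
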