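import Pool.Agent.Lib.MP_6e2ba5_an.Dx.Abs
import Pool.Agent.Lib.MP_6e2ba5_an.Dx.EcA

/-! # The operators on the imaginary axis

`RI s r τ = Kop s r (iτ) = 1_B multL (mI s τ) 1_B` (`Kop_interior`, `Mop_eq_Kop`; `mI s τ = rsE s (iτ)` by definition).
`RI_SymB`: symmetry `Kop_symm`; the sup bound: `multL m g` for `m ∈ L²`, `g` supported in the ball is
`FT⁻¹(m · FT g)` with `m · FT g ∈ L¹`, norm `≤ ‖m‖ ‖g‖` (see `Kop_rep`, `Kop_Bd` and `Ex/RepN.lean` for the negative axis),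
and `‖mI s τ‖_{L²} ≤ C τ^(3/2 - 2s)` (from `mI_bound`, `Rx/SymI.lean`, as in the proof of `mI_memLp`).
`gX_norm`: `‖gX‖ ≤ ‖mIH s τ‖`. `TI_sub`: with `S_j = (1 - R V_j)⁻¹`, `S₁ - S₂ = S₁ R (V₁ - V₂) S₂`, so
`V₁ S₁ - V₂ S₂ = (V₁ - V₂) S₂ + V₁ S₁ R (V₁ - V₂) S₂`. `TI_neumann`: `S = 1 + S R V`.
`FC_ident` is `UK_ident`. -/

set_option autoImplicit false

open MeasureTheory Filter Topology Set
open scoped FourierTransform SchwartzMap InnerProductSpace ENNReal BoundedContinuousFunction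

noncomputable section

namespace FracScatC

open FracScat

private theorem RIb_meas (s : ℝ) (k : ℂ) : Measurable (rsE s k) := by
  have h0 : Measurable (fun a => rs s k a) := by
    unfold rs
    fun_prop
  have h1 : Measurable (fun ξ : E3 => 2 * Real.pi * ‖ξ‖) := measurable_norm.const_mul _
  exact h0.comp h1

/-- square bound from a pointwise bound -/
private theorem RIb_sq {F : E3 → ℂ} {K C t p : ℝ}
    (hC : ∫⁻ ζ : E3, ENNReal.ofReal ((‖ζ‖ + t) ^ (-(2 * p))) ≤ ENNReal.ofReal (C * t ^ (3 - 2 * p)))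
    (ht : 0 < t) (hF : ∀ ζ : E3, ‖F ζ‖ ≤ K * (‖ζ‖ + t) ^ (-p)) :
    ∫⁻ ζ, ‖F ζ‖ₑ ^ 2 ≤ ENNReal.ofReal (K ^ 2 * C * t ^ (3 - 2 * p)) := by
  have h1 : ∀ ζ : E3, ‖F ζ‖ₑ ^ 2 ≤
      ENNReal.ofReal (K ^ 2) * ENNReal.ofReal ((‖ζ‖ + t) ^ (-(2 * p))) := by
    intro ζ
    have hpos : 0 < ‖ζ‖ + t := by positivity
    rw [← ENNReal.ofReal_mul (by positivity), ← ofReal_norm,
      ← ENNReal.ofReal_pow (norm_nonneg _)]
    apply ENNReal.ofReal_le_ofReal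
    have h2 := pow_le_pow_left₀ (norm_nonneg _) (hF ζ) 2
    refine h2.trans (le_of_eq ?_)
    rw [mul_pow, ← Real.rpow_natCast ((‖ζ‖ + t) ^ (-p)) 2, ← Real.rpow_mul hpos.le]
    congr 2
    push_cast
    ring
  calc ∫⁻ ζ, ‖F ζ‖ₑ ^ 2
      ≤ ∫⁻ ζ : E3, ENNReal.ofReal (K ^ 2) * ENNReal.ofReal ((‖ζ‖ + t) ^ (-(2 * p))) :=
        lintegral_mono h1
    _ = ENNReal.ofReal (K ^ 2) * ∫⁻ ζ : E3, ENNReal.ofReal ((‖ζ‖ + t) ^ (-(2 * p))) := by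
        rw [lintegral_const_mul _ (by fun_prop)]
    _ ≤ ENNReal.ofReal (K ^ 2) * ENNReal.ofReal (C * t ^ (3 - 2 * p)) := by gcongr
    _ = ENNReal.ofReal (K ^ 2 * C * t ^ (3 - 2 * p)) := by
        rw [← ENNReal.ofReal_mul (by positivity), mul_assoc]

private theorem RIb_L2 {s : ℝ} (h0 : 3 / 4 < s) (h2 : s < 2) (h1 : s ≠ 1) : ∃ C : ℝ, 0 ≤ C ∧
    ∀ τ : ℝ, 0 < τ → ∫⁻ ζ, ‖mI s τ ζ‖ₑ ^ 2 ≤ ENNReal.ofReal (C * τ ^ (3 - 4 * s)) := by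
  obtain ⟨K, hK, hb⟩ := mI_bound (s := s) (by linarith) h2 h1
  obtain ⟨C, hC, hi⟩ := int_dec (p := 2 * (2 * s)) (by linarith)
  have hpi := Real.pi_gt_three
  refine ⟨(K * 2 ^ (2 * s)) ^ 2 * C, by positivity, fun τ hτ => ?_⟩
  have key : ∀ ζ : E3, ‖mI s τ ζ‖ ≤ (K * 2 ^ (2 * s)) * (‖ζ‖ + τ) ^ (-(2 * s)) := by
    intro ζ
    have hz : 0 ≤ ‖ζ‖ := norm_nonneg ζ
    have hpos : 0 < ‖ζ‖ + τ := by positivity
    refine (hb τ hτ ζ).trans ?_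
    have ha : 0 ≤ (2 * Real.pi * ‖ζ‖) ^ (2 * s) := by positivity
    have hb' : 0 < τ ^ (2 * s) := Real.rpow_pos_of_pos hτ _
    have e1 : (‖ζ‖ + τ) ^ (2 * s) ≤
        2 ^ (2 * s) * ((2 * Real.pi * ‖ζ‖) ^ (2 * s) + τ ^ (2 * s)) := by
      rcases le_total ‖ζ‖ τ with h | h
      · calc (‖ζ‖ + τ) ^ (2 * s) ≤ (2 * τ) ^ (2 * s) :=
              Real.rpow_le_rpow hpos.le (by linarith) (by linarith)
          _ = 2 ^ (2 * s) * τ ^ (2 * s) := Real.mul_rpow (by norm_num) hτ.le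
          _ ≤ _ := mul_le_mul_of_nonneg_left (by linarith) (by positivity)
      · calc (‖ζ‖ + τ) ^ (2 * s) ≤ (2 * (2 * Real.pi * ‖ζ‖)) ^ (2 * s) :=
              Real.rpow_le_rpow hpos.le (by nlinarith) (by linarith)
          _ = 2 ^ (2 * s) * (2 * Real.pi * ‖ζ‖) ^ (2 * s) :=
              Real.mul_rpow (by norm_num) (by positivity)
          _ ≤ _ := mul_le_mul_of_nonneg_left (by linarith) (by positivity)
    rw [Real.rpow_neg hpos.le, ← div_eq_mul_inv, div_le_div_iff₀ (by positivity) (by positivity),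
      mul_assoc]
    exact mul_le_mul_of_nonneg_left e1 hK
  have h3 := RIb_sq (F := mI s τ) (p := 2 * s) (hi τ hτ) hτ key
  have e : 3 - 2 * (2 * s) = 3 - 4 * s := by ring
  rw [e] at h3
  exact h3

private theorem RIb_Quad {τ : ℝ} (hτ : 0 < τ) : Complex.I * (τ : ℂ) ∈ Quad := by
  refine ⟨?_, ?_, ?_⟩
  · simp
  · simp [hτ.le]
  · exact mul_ne_zero Complex.I_ne_zero (Complex.ofReal_ne_zero.2 hτ.ne')

private theorem RIb_im {τ : ℝ} (hτ : 0 < τ) : 0 < (Complex.I * (τ : ℂ)).im := by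
  simp [hτ]

private theorem RIb_norm_indB (r : ℝ) (x : E3) : ‖indB r x‖ ≤ 1 := by
  unfold indB
  split_ifs <;> simp

/-- The sup bound for the multiplier with a symbol in `L²`. -/
private theorem RIb_Bd {s τ : ℝ} (hm : MemLp (mI s τ) 2 (volume : Measure E3))
    (hB : BM (mI s τ)) (r : ℝ) (g : HS) :
    Bd (‖mIH s τ‖ * ‖g‖) (mulL (indB r) (multL (mI s τ) g)) := by
  have hmul : (mulL (mI s τ) (FT g) : E3 → ℂ) =ᵐ[volume]
      (prodL (mIH s τ) (FT g) : E3 → ℂ) := by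
    filter_upwards [mulL_coe hB (FT g), prodL_coe (mIH s τ) (FT g), mIH_coe hm] with x a b c
    rw [a, b, c]
  have hint : Integrable (mulL (mI s τ) (FT g) : E3 → ℂ) :=
    (L1.integrable_coeFn (prodL (mIH s τ) (FT g))).congr hmul.symm
  have h2 := FTsymm_coe_of_integrable _ hint
  have hn : ∫ ζ, ‖(mulL (mI s τ) (FT g) : E3 → ℂ) ζ‖ ≤ ‖mIH s τ‖ * ‖g‖ := by
    have e1 : ∫ ζ, ‖(mulL (mI s τ) (FT g) : E3 → ℂ) ζ‖ =
        ∫ ζ, ‖(prodL (mIH s τ) (FT g) : E3 → ℂ) ζ‖ := by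
      apply integral_congr_ae
      filter_upwards [hmul] with x a
      rw [a]
    rw [e1, ← L1.norm_eq_integral_norm]
    refine (norm_prodL_le _ _).trans ?_
    rw [LinearIsometryEquiv.norm_map]
  unfold Bd
  filter_upwards [mulL_coe (indB_BM r) (multL (mI s τ) g), h2] with x a b
  have c : (multL (mI s τ) g : E3 → ℂ) x = 𝓕⁻ (mulL (mI s τ) (FT g) : E3 → ℂ) x := b
  rw [a, c, norm_mul]
  have d : ‖𝓕⁻ (mulL (mI s τ) (FT g) : E3 → ℂ) x‖ ≤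
      ∫ ζ, ‖(mulL (mI s τ) (FT g) : E3 → ℂ) ζ‖ := by
    rw [Real.fourierInv_eq']
    refine (norm_integral_le_integral_norm _).trans (le_of_eq ?_)
    congr 1
    funext ζ
    rw [norm_smul, Complex.norm_exp_ofReal_mul_I, one_mul]
  calc ‖indB r x‖ * ‖𝓕⁻ (mulL (mI s τ) (FT g) : E3 → ℂ) x‖
      ≤ 1 * (‖mIH s τ‖ * ‖g‖) :=
        mul_le_mul (RIb_norm_indB r x) (d.trans hn) (norm_nonneg _) zero_le_one
    _ = ‖mIH s τ‖ * ‖g‖ := one_mul _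

private theorem RIb_unit {s r M K : ℝ} (hK : KOK s r M K) {V : E3 → ℂ} (hV : IsPot r M V)
    {τ : ℝ} (hτ : K ≤ τ) : IsUnit (1 - RI s r τ ∘L mulL V) :=
  isUnit_one_sub_of_norm_lt_one
    (lt_of_le_of_lt (UK_T hV (hK.ri τ hτ)) (by norm_num))

/-- `S (1 - R V) f = f`. -/
private theorem RIb_left {s r M K : ℝ} (hK : KOK s r M K) {V : E3 → ℂ} (hV : IsPot r M V)
    {τ : ℝ} (hτ : K ≤ τ) (f : HS) :
    SI s r V τ f - SI s r V τ (RI s r τ (mulL V f)) = f := by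
  have h1 := Ring.inverse_mul_cancel _ (RIb_unit hK hV hτ)
  have h3 := congrArg (fun A : HS →L[ℂ] HS => A f) h1
  have h4 : SI s r V τ (f - RI s r τ (mulL V f)) = f := h3
  rw [map_sub] at h4
  exact h4

/-- `(1 - R V) S f = f`. -/
private theorem RIb_right {s r M K : ℝ} (hK : KOK s r M K) {V : E3 → ℂ} (hV : IsPot r M V)
    {τ : ℝ} (hτ : K ≤ τ) (f : HS) :
    SI s r V τ f - RI s r τ (mulL V (SI s r V τ f)) = f := by
  have h1 := Ring.mul_inverse_cancel _ (RIb_unit hK hV hτ)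
  have h3 := congrArg (fun A : HS →L[ℂ] HS => A f) h1
  exact h3

theorem mIH_norm {s : ℝ} (h0 : 3 / 4 < s) (h2 : s < 2) (h1 : s ≠ 1) :
    ∃ C : ℝ, 0 ≤ C ∧ ∀ τ : ℝ, 0 < τ → ‖mIH s τ‖ ≤ C * τ ^ (3 / 2 - 2 * s) := by
  obtain ⟨C, hC, h⟩ := RIb_L2 h0 h2 h1
  refine ⟨Real.sqrt C, Real.sqrt_nonneg _, fun t ht => ?_⟩
  have hm := mI_memLp h0 h2 h1 ht
  have h2 : ‖mIH s t‖ = (eLpNorm (mI s t) 2 (volume : Measure E3)).toReal := by
    rw [mIH, dif_pos hm, Lp.norm_toLp]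
  have h3 : eLpNorm (mI s t) 2 (volume : Measure E3) =
      (∫⁻ ζ, ‖mI s t ζ‖ₑ ^ 2) ^ (1 / 2 : ℝ) := by
    rw [eLpNorm_eq_lintegral_rpow_enorm_toReal (by norm_num) (by norm_num)]
    norm_num
  have h4 : eLpNorm (mI s t) 2 (volume : Measure E3) ≤
      ENNReal.ofReal (Real.sqrt C * t ^ (3 / 2 - 2 * s)) := by
    rw [h3]
    refine (ENNReal.rpow_le_rpow (h t ht) (by norm_num)).trans (le_of_eq ?_)
    rw [ENNReal.ofReal_rpow_of_nonneg (by positivity) (by norm_num),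
      Real.mul_rpow hC (by positivity), ← Real.sqrt_eq_rpow, ← Real.rpow_mul ht.le]
    congr 3
    ring
  rw [h2]
  exact ENNReal.toReal_le_of_le_ofReal (by positivity) h4

theorem RI_eq {s : ℝ} (h0 : 3 / 4 < s) (h2 : s < 2) {r : ℝ} (hr : 0 < r) {τ : ℝ} (hτ : 0 < τ)
    (g : HS) : RI s r τ g = mulL (indB r) (multL (mI s τ) (mulL (indB r) g)) := by
  rw [RI, Kop_interior (by linarith) h2 hr.le (RIb_Quad hτ) (RIb_im hτ)]
  rfl

theorem RI_SymB {s : ℝ} (h0 : 3 / 4 < s) (h2 : s < 2) (h1 : s ≠ 1) {r : ℝ} (hr : 0 < r) :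
    ∃ C : ℝ, 0 ≤ C ∧ ∀ τ : ℝ, 1 ≤ τ → SymB r C (RI s r τ) := by
  obtain ⟨C, hC, h⟩ := mIH_norm h0 h2 h1
  refine ⟨C, hC, fun τ hτ => ?_⟩
  have hτ0 : 0 < τ := by linarith
  refine ⟨hC, fun f g => ?_, fun g => ?_, fun g => ?_, fun g => ?_⟩
  · rw [pr_eq, pr_eq]
    exact Kop_symm (by linarith) h2 hr.le (RIb_Quad hτ0) f g
  · exact indB_idem r _
  · show mulL (indB r) (multL _ (mulL (indB r) (mulL (indB r) g))) =
      mulL (indB r) (multL _ (mulL (indB r) g))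
    rw [indB_idem]
  · rw [RI_eq h0 h2 hr hτ0]
    refine (RIb_Bd (mI_memLp h0 h2 h1 hτ0) (mI_BM (by linarith) h2 h1 hτ0) r _).mono ?_
    have e1 : ‖mIH s τ‖ ≤ C := by
      refine (h τ hτ0).trans ?_
      have : τ ^ (3 / 2 - 2 * s) ≤ 1 :=
        Real.rpow_le_one_of_one_le_of_nonpos hτ (by linarith)
      nlinarith
    have e2 : ‖mulL (indB r) g‖ ≤ ‖g‖ := by
      refine ((mulL (indB r)).le_opNorm _).trans ?_
      have := mul_le_mul_of_nonneg_right (norm_mulL_indB r) (norm_nonneg g)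
      rwa [one_mul] at this
    exact mul_le_mul e1 e2 (norm_nonneg _) hC

theorem gX_norm {s : ℝ} (h0 : 3 / 4 < s) (h2 : s < 2) (h1 : s ≠ 1) (r : ℝ) :
    ∃ C : ℝ, 0 ≤ C ∧ ∀ τ : ℝ, 0 < τ → ∀ x : E3, ‖gX s r τ x‖ ≤ C * τ ^ (3 / 2 - 2 * s) := by
  obtain ⟨C, hC, h⟩ := mIH_norm h0 h2 h1
  refine ⟨C, hC, fun τ hτ x => ?_⟩
  have e1 : ‖mulL (efun (-x)) (mIH s τ)‖ ≤ ‖mIH s τ‖ := by
    refine ((mulL (efun (-x))).le_opNorm _).trans ?_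
    have := mul_le_mul_of_nonneg_right (norm_mulL_le (efun_BM (-x)) zero_le_one
      (Eventually.of_forall fun y => (norm_efun (-x) y).le)) (norm_nonneg (mIH s τ))
    rwa [one_mul] at this
  have e2 : ‖gX s r τ x‖ ≤ ‖FT.symm (mulL (efun (-x)) (mIH s τ))‖ := by
    unfold gX
    refine ((mulL (indB r)).le_opNorm _).trans ?_
    have := mul_le_mul_of_nonneg_right (norm_mulL_indB r)
      (norm_nonneg (FT.symm (mulL (efun (-x)) (mIH s τ))))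
    rwa [one_mul] at this
  rw [LinearIsometryEquiv.norm_map] at e2
  exact (e2.trans e1).trans (h τ hτ)

theorem SI_eq (s r : ℝ) (V : E3 → ℂ) (τ : ℝ) (e : HS) : SI s r V τ e = UK (RI s r τ) V e := rfl

theorem TI_norm {s r M K : ℝ} (hK : KOK s r M K) {V : E3 → ℂ} (hV : IsPot r M V) {τ : ℝ}
    (hτ : K ≤ τ) : ‖TI s r V τ‖ ≤ 2 * M := by
  have hM := hV.nonneg
  refine ContinuousLinearMap.opNorm_le_bound _ (by positivity) fun f => ?_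
  have e1 : ‖SI s r V τ f‖ ≤ 2 * ‖f‖ := by
    rw [SI_eq]
    exact norm_UK_le hV (hK.ri τ hτ) f
  show ‖mulL V (SI s r V τ f)‖ ≤ 2 * M * ‖f‖
  calc ‖mulL V (SI s r V τ f)‖ ≤ ‖mulL V‖ * ‖SI s r V τ f‖ := (mulL V).le_opNorm _
    _ ≤ M * (2 * ‖f‖) := mul_le_mul (hV.norm_mulL hM) e1 (norm_nonneg _) hM
    _ = 2 * M * ‖f‖ := by ring

theorem TI_sub {s r M K : ℝ} (hK : KOK s r M K) {V₁ V₂ : E3 → ℂ} (hV₁ : IsPot r M V₁)
    (hV₂ : IsPot r M V₂) {τ : ℝ} (hτ : K ≤ τ) (f : HS) :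
    (TI s r V₁ τ - TI s r V₂ τ) f = mulL (fun x => V₁ x - V₂ x) (SI s r V₂ τ f) +
      TI s r V₁ τ (RI s r τ (mulL (fun x => V₁ x - V₂ x) (SI s r V₂ τ f))) := by
  have hw : ∀ u : HS, mulL (fun x => V₁ x - V₂ x) u = mulL V₁ u - mulL V₂ u := by
    intro u
    rw [mulL_sub hV₁.BM hV₂.BM]
    rfl
  set u₁ : HS := SI s r V₁ τ f with hu₁
  set u₂ : HS := SI s r V₂ τ f with hu₂
  have h1 := RIb_right hK hV₁ hτ f
  have h2 := RIb_right hK hV₂ hτ f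
  rw [← hu₁] at h1
  rw [← hu₂] at h2
  have h3 : SI s r V₁ τ (RI s r τ (mulL V₁ u₂ - mulL V₂ u₂)) = u₁ - u₂ := by
    have e1 : RI s r τ (mulL V₁ u₂ - mulL V₂ u₂) =
        f - (u₂ - RI s r τ (mulL V₁ u₂)) := by
      rw [map_sub]
      rw [← h2]
      abel
    rw [e1, map_sub, map_sub (SI s r V₁ τ) u₂, RIb_left hK hV₁ hτ u₂, hu₁]
  show mulL V₁ u₁ - mulL V₂ u₂ = mulL (fun x => V₁ x - V₂ x) u₂ +
    mulL V₁ (SI s r V₁ τ (RI s r τ (mulL (fun x => V₁ x - V₂ x) u₂)))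
  rw [hw, h3, map_sub]
  abel

theorem TI_neumann {s r M K : ℝ} (hK : KOK s r M K) {V : E3 → ℂ} (hV : IsPot r M V) {τ : ℝ}
    (hτ : K ≤ τ) (f : HS) :
    TI s r V τ f = mulL V f + TI s r V τ (RI s r τ (mulL V f)) := by
  have h1 := RIb_left hK hV hτ f
  show mulL V (SI s r V τ f) = mulL V f + mulL V (SI s r V τ (RI s r τ (mulL V f)))
  rw [← map_add]
  congr 1
  rw [sub_eq_iff_eq_add] at h1
  exact h1

/-- If the difference of the operators `TI` kills `f`, then `(V₁ - V₂) S₂ f = 0`. -/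
theorem TI_sub_zero {s r M K : ℝ} (hK : KOK s r M K) {V₁ V₂ : E3 → ℂ} (hV₁ : IsPot r M V₁)
    (hV₂ : IsPot r M V₂) {τ : ℝ} (hτ : K ≤ τ) {f : HS}
    (h : (TI s r V₁ τ - TI s r V₂ τ) f = 0) :
    mulL (fun x => V₁ x - V₂ x) (SI s r V₂ τ f) = 0 := by
  set w : HS := mulL (fun x => V₁ x - V₂ x) (SI s r V₂ τ f) with hw
  have h1 := TI_sub hK hV₁ hV₂ hτ f
  rw [h, ← hw] at h1
  set y : HS := SI s r V₁ τ (RI s r τ w) with hy
  have h2 : (0 : HS) = w + mulL V₁ y := h1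
  have h3 : w = -mulL V₁ y := eq_neg_of_add_eq_zero_left h2.symm
  have h4 := RIb_right hK hV₁ hτ (RI s r τ w)
  rw [← hy] at h4
  have h5 : RI s r τ w = -RI s r τ (mulL V₁ y) := by
    rw [h3, map_neg]
  have h6 : y = 0 := by
    have h7 : y - RI s r τ (mulL V₁ y) = 0 - RI s r τ (mulL V₁ y) := by
      rw [h4, h5, zero_sub]
    exact sub_left_injective h7
  rw [h3, h6, map_zero, neg_zero]

theorem FC_ident {s : ℝ} (h0 : 3 / 4 < s) (h2 : s < 2) (h1 : s ≠ 1) {r : ℝ} (hr : 0 < r)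
    {M K : ℝ} (hK : KOK s r M K) {V₁ V₂ : E3 → ℂ} (hV₁ : IsPot r M V₁) (hV₂ : IsPot r M V₂)
    {τ : ℝ} (hτ : K ≤ τ) (η : Fin 3 → ℂ) :
    A3 (dH r (fun x => V₁ x - V₂ x)) (SI s r V₁ τ (ec r η)) (SI s r V₂ τ (ec r η)) =
      FC s r V₁ τ η - FC s r V₂ τ η := by
  obtain ⟨C, hC, h⟩ := RI_SymB h0 h2 h1 hr
  exact UK_ident (h τ (hK.one.trans hτ)) hV₁ hV₂ (hK.ri τ hτ) (ec r η)

end FracScatC

end
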