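import Pool.Agent.Lib.MP_6e2ba5_an.Dx.Abs
import Pool.Agent.Lib.MP_6e2ba5_an.Dx.AxApi

/-! # The relation `SD`

`SD_real`: `F_j = Ffun s r V_j θ` are continuous on `Reg K` and analytic inside (`Ffun_cont`, `Ffun_diff` in
`Cx/UeqA.lean`), their difference vanishes on a real half line; `bdry_unique` (`Bdry.lean`) with `a = max K K₀`,
`b = a + 1` gives `0` on `Reg K`; `SD_I` is the same at `k = iτ`.
`SD_FA`: for `s > 1` `AR = Kop (kx ξ)`, `eH = ev` (`eH_eq_ev`), `FA = Ffun s r V (ξ/‖ξ‖) (kx ξ)`, `2π‖ξ‖ ≥ K`; for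
`s < 1` `FA = Gfun s r V (-(ξ/‖ξ‖)) (km ξ)` (`eH_eq_ev_neg`), and `contN` (`Ex/ContN.lean`) applies, see `vanishN` in
`Ex/IdentN.lean`.
`SD_of_band`: `data_real` (`Cx/Main.lean`). -/

set_option autoImplicit false

open MeasureTheory Filter Topology Set
open scoped FourierTransform SchwartzMap InnerProductSpace ENNReal BoundedContinuousFunction

noncomputable section

namespace FracScatC

open FracScat

private theorem SDa_zero {s : ℝ} (h0 : 3 / 4 < s) (h2 : s < 2) {r : ℝ} (hr : 0 < r)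
    {M K : ℝ} (hK : KOK s r M K) {V₁ V₂ : E3 → ℂ} (hV₁ : IsPot r M V₁) (hV₂ : IsPot r M V₂)
    (h : SD s r V₁ V₂) {θ : E3} (hθ : ‖θ‖ = 1) (k : ℂ) (hr' : 0 ≤ k.re) (hi : 0 ≤ k.im)
    (hk : K ≤ ‖k‖) : Ffun s r V₁ θ k = Ffun s r V₂ θ k := by
  obtain ⟨K₀, hK₀⟩ := h
  have hK1 := hK.one
  have hh : (1 : ℝ) / 2 < s := by linarith
  have hc : ContinuousOn (fun k => Ffun s r V₁ θ k - Ffun s r V₂ θ k)
      {k : ℂ | 0 ≤ k.re ∧ 0 ≤ k.im ∧ K ≤ ‖k‖} :=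
    (Ffun_cont hh h2 hr θ hK1 (hK.tk V₁ hV₁)).sub (Ffun_cont hh h2 hr θ hK1 (hK.tk V₂ hV₂))
  have hdi : DifferentiableOn ℂ (fun k => Ffun s r V₁ θ k - Ffun s r V₂ θ k)
      {k : ℂ | 0 < k.re ∧ 0 < k.im ∧ K < ‖k‖} :=
    (Ffun_diff hh h2 hr θ hK1 (hK.tk V₁ hV₁)).sub (Ffun_diff hh h2 hr θ hK1 (hK.tk V₂ hV₂))
  have hz : ∀ x ∈ Ioo (max K K₀) (max K K₀ + 1),
      Ffun s r V₁ θ (x : ℂ) - Ffun s r V₂ θ (x : ℂ) = 0 := by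
    intro x hx
    rw [sub_eq_zero]
    exact hK₀ θ hθ x ((le_max_right _ _).trans hx.1.le)
  have := bdry_unique (by linarith) hc hdi (le_max_left K K₀) (lt_add_one _) hz k hr' hi hk
  exact sub_eq_zero.1 this

theorem SD_real {s : ℝ} (h0 : 3 / 4 < s) (h2 : s < 2) (h1 : s ≠ 1) {r : ℝ} (hr : 0 < r)
    {M K : ℝ} (hK : KOK s r M K) {V₁ V₂ : E3 → ℂ} (hV₁ : IsPot r M V₁) (hV₂ : IsPot r M V₂)
    (h : SD s r V₁ V₂) {θ : E3} (hθ : ‖θ‖ = 1) (k : ℝ) (hk : K ≤ k) :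
    Ffun s r V₁ θ k = Ffun s r V₂ θ k := by
  have hk0 : 0 ≤ k := le_trans (by linarith [hK.one]) hk
  refine SDa_zero h0 h2 hr hK hV₁ hV₂ h hθ (k : ℂ) ?_ ?_ ?_
  · rw [Complex.ofReal_re]; exact hk0
  · rw [Complex.ofReal_im]
  · rw [Complex.norm_real, Real.norm_eq_abs, abs_of_nonneg hk0]; exact hk

theorem SD_I {s : ℝ} (h0 : 3 / 4 < s) (h2 : s < 2) (h1 : s ≠ 1) {r : ℝ} (hr : 0 < r)
    {M K : ℝ} (hK : KOK s r M K) {V₁ V₂ : E3 → ℂ} (hV₁ : IsPot r M V₁) (hV₂ : IsPot r M V₂)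
    (h : SD s r V₁ V₂) {θ : E3} (hθ : ‖θ‖ = 1) (τ : ℝ) (hτ : K ≤ τ) :
    Ffun s r V₁ θ (Complex.I * τ) = Ffun s r V₂ θ (Complex.I * τ) := by
  have hk0 : 0 ≤ τ := le_trans (by linarith [hK.one]) hτ
  refine SDa_zero h0 h2 hr hK hV₁ hV₂ h hθ (Complex.I * (τ : ℂ)) ?_ ?_ ?_
  · simp
  · simpa using hk0
  · rw [norm_mul, Complex.norm_I, one_mul, Complex.norm_real, Real.norm_eq_abs, abs_of_nonneg hk0]
    exact hτ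

theorem SD_FA {s : ℝ} (h0 : 3 / 4 < s) (h2 : s < 2) (h1 : s ≠ 1) {r : ℝ} (hr : 0 < r)
    {M K : ℝ} (hK : KOK s r M K) {V₁ V₂ : E3 → ℂ} (hV₁ : IsPot r M V₁) (hV₂ : IsPot r M V₂)
    (h : SD s r V₁ V₂) (ξ : E3) (hξ : K < ‖ξ‖) : FA s r V₁ ξ = FA s r V₂ ξ := by
  have hK1 := hK.one
  have hn : 0 < ‖ξ‖ := by linarith
  have hξ0 : ξ ≠ 0 := norm_pos_iff.1 hn
  have hpi := Real.pi_gt_three
  have hk : K < 2 * Real.pi * ‖ξ‖ := by nlinarith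
  by_cases hs : 1 < s
  · have e : ∀ V : E3 → ℂ, FA s r V ξ = Ffun s r V (‖ξ‖⁻¹ • ξ) (kx ξ) := by
      intro V
      unfold FA UA UK AR
      rw [if_pos hs, eH_eq_ev r hξ0]
      rfl
    rw [e, e]
    have hθ : ‖(‖ξ‖⁻¹ • ξ)‖ = 1 := by
      rw [norm_smul, norm_inv, norm_norm, inv_mul_cancel₀ hn.ne']
    exact SD_real h0 h2 h1 hr hK hV₁ hV₂ h hθ (2 * Real.pi * ‖ξ‖) hk.le
  · have hs1 : s < 1 := lt_of_le_of_ne (not_lt.1 hs) h1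
    have e : ∀ V : E3 → ℂ, FA s r V ξ = Gfun s r V (-(‖ξ‖⁻¹ • ξ)) (km ξ) := by
      intro V
      unfold FA UA UK AR
      rw [if_neg hs, eH_eq_ev_neg r hξ0]
      rfl
    rw [e, e]
    have hθ : ‖-(‖ξ‖⁻¹ • ξ)‖ = 1 := by
      rw [norm_neg, norm_smul, norm_inv, norm_norm, inv_mul_cancel₀ hn.ne']
    exact contN h0 hs1 hr hV₁ hV₂ (-(‖ξ‖⁻¹ • ξ)) hK1 (hK.tk V₁ hV₁) (hK.tk V₂ hV₂)
      (hK.tm hs1 V₁ hV₁) (hK.tm hs1 V₂ hV₂)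
      (fun k hk => SD_real h0 h2 h1 hr hK hV₁ hV₂ h hθ k hk) (2 * Real.pi * ‖ξ‖) hk

theorem SD_of_band {s : ℝ} (h0 : 3 / 4 < s) (h2 : s < 2) (h1 : s ≠ 1) {r : ℝ} (hr : 0 < r)
    {M K : ℝ} (hK : KOK s r M K) {V₁ V₂ : E3 → ℂ} (hV₁ : IsPot r M V₁) (hV₂ : IsPot r M V₂)
    {a b : ℝ} (ha : K ≤ a) (hab : a < b)
    (hd : ∀ θ : E3, ‖θ‖ = 1 → ∀ k ∈ Ioo a b, SameBackScattering s k V₁ V₂ θ) :
    SD s r V₁ V₂ :=
  ⟨K, fun θ hθ k hk => data_real (by linarith) h2 hr hV₁ hV₂ hθ hK.one (hK.tk V₁ hV₁)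
    (hK.tk V₂ hV₂) ha hab (hd θ hθ) k hk⟩

theorem SD_congr {s r : ℝ} {V₁ V₂ V₁' V₂' : E3 → ℂ} (e₁ : V₁ =ᵐ[volume] V₁')
    (e₂ : V₂ =ᵐ[volume] V₂') (h : SD s r V₁ V₂) : SD s r V₁' V₂' := by
  have e : ∀ {V V' : E3 → ℂ}, V =ᵐ[volume] V' → ∀ (θ : E3) (k : ℂ),
      Ffun s r V θ k = Ffun s r V' θ k := by
    intro V V' hV θ k
    unfold Ffun uk Tk
    rw [mulL_congr hV]
  obtain ⟨K, hK⟩ := h
  exact ⟨K, fun θ hθ k hk => by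
    rw [← e e₁, ← e e₂]
    exact hK θ hθ k hk⟩

end FracScatC

end
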