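import Pool.Agent.Lib.MP_6e2ba5_an.Dx.TSeq
import Pool.Agent.Lib.MP_6e2ba5_an.Dx.SDa
import Pool.Agent.Lib.MP_6e2ba5_an.Dx.FCeq
import Pool.Agent.Lib.MP_6e2ba5_an.Dx.RIb

/-! # The local Lipschitz estimate

By contradiction: there are `V_n`, `c_n`, `c_n'`, `U_n`, `U_n'` with `‖V_n + ε_{c_n} - V₁‖_∞ ≤ 1/n` (a.e.), the same for `c_n'`, `‖dH U_n - dH V₂‖ ≤ 1/n`, the
same for `U_n'`, both pairs in the relation `SD`, and `‖c_n - c_n'‖ > n ‖P (dH U_n - dH U_n')‖`, `P` the orthogonal projection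
onto `F`. Put `t_n = ‖c_n - c_n'‖ + ‖dH U_n - dH U_n'‖ > 0`, `c̄_n = (c_n - c_n')/t_n`, `w_n = (dH U_n - dH U_n')/t_n`, `ε_n = ∑ (c̄_n)_i dH (e i)`.
Pass to a subsequence with `c̄_n → c̄` (finite dimension). From `FA_ident` (`UK_ident` for `AR`) and `SD_FA` for the two pairs:
`A3 w_n (UA U_n) (UA U_n') = A3 ε_n (UA (V_n+ε_{c_n})) (UA (V_n+ε_{c_n'}))` for `‖ξ‖ > K`, so by `tseq` a subsequence `w_n → w ∈ HB r`. Similarly, with
`FC_ident`, `SD_I`, `FC_eq`: `A3 w_n (SI U_n e) (SI U_n' e) = A3 ε_n (SI (..) e) (SI (..) e)` for all `τ ≥ K`, admissible `η`, `e = ec r η`. Limit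
(`A3_lim`, `UK_lim`, `UK_Bd`; a.e. uniform convergence gives `dH` convergence): `A3 w (SI V₂ e)² = A3 (∑ c̄_i dH (e i)) (SI V₁ e)²`,
so `c̄ = 0` by `hstar`; then `A3 w (UA V₂ ξ)² = 0` for `‖ξ‖ > K`, so `w ∈ F`; `P w = lim P w_n = 0` (`‖P w_n‖ ≤ ‖c̄_n‖/n`), so `w = 0`. But
`‖c̄_n‖ + ‖w_n‖ = 1`. -/

set_option autoImplicit false

open MeasureTheory Filter Topology Set
open scoped FourierTransform SchwartzMap InnerProductSpace ENNReal BoundedContinuousFunction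

noncomputable section

namespace FracScatC

open FracScat

theorem FA_ident {s : ℝ} (h0 : 3 / 4 < s) (h2 : s < 2) (h1 : s ≠ 1) {r : ℝ} (hr : 0 < r)
    {M K : ℝ} (hK : KOK s r M K) {V₁ V₂ : E3 → ℂ} (hV₁ : IsPot r M V₁) (hV₂ : IsPot r M V₂)
    {ξ : E3} (hξ : K ≤ ‖ξ‖) : A3 (dH r (fun x => V₁ x - V₂ x)) (UA s r V₁ ξ) (UA s r V₂ ξ) =
      FA s r V₁ ξ - FA s r V₂ ξ :=
  UK_ident (AR_SymB h0 h2 h1 hr (hK.one.trans hξ)) hV₁ hV₂ (hK.ar ξ hξ) (eH r ξ)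

private theorem LipL_sum {r : ℝ} {N : ℕ} {e : Fin N → E3 → ℂ} (he : ∀ i, IsPot r 1 (e i))
    (c : Fin N → ℝ) (S : Finset (Fin N)) :
    BM (fun x => ∑ i ∈ S, ((c i : ℝ) : ℂ) * e i x) ∧
      mulL (fun x => ∑ i ∈ S, ((c i : ℝ) : ℂ) * e i x) =
        ∑ i ∈ S, ((c i : ℝ) : ℂ) • mulL (e i) := by
  classical
  induction S using Finset.induction_on with
  | empty =>
    have hz : BM (fun _ : E3 => (0 : ℂ)) :=
      ⟨aestronglyMeasurable_const, 0, Eventually.of_forall fun x => by simp⟩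
    simp only [Finset.sum_empty]
    refine ⟨hz, ?_⟩
    have h := mulL_const_mul 0 hz
    simpa using h
  | insert a S ha ih =>
    have e1 : (fun x => ∑ i ∈ insert a S, ((c i : ℝ) : ℂ) * e i x) =
        fun x => ((c a : ℝ) : ℂ) * e a x + ∑ i ∈ S, ((c i : ℝ) : ℂ) * e i x := by
      funext x
      rw [Finset.sum_insert ha]
    have hb := ((he a).BM).const_mul ((c a : ℝ) : ℂ)
    rw [e1, Finset.sum_insert ha]
    exact ⟨hb.add ih.1, by rw [mulL_add hb ih.1, mulL_const_mul _ (he a).BM, ih.2]⟩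

/-- the combination `∑ c_i dH (e i)` -/
private def LipL_L (r : ℝ) {N : ℕ} (e : Fin N → E3 → ℂ) (c : Fin N → ℝ) : HS :=
  ∑ i, ((c i : ℝ) : ℂ) • dH r (e i)

private theorem LipL_dH {r : ℝ} {N : ℕ} {e : Fin N → E3 → ℂ} (he : ∀ i, IsPot r 1 (e i))
    (c : Fin N → ℝ) : dH r (fun x => ∑ i, ((c i : ℝ) : ℂ) * e i x) = LipL_L r e c := by
  unfold dH LipL_L
  rw [(LipL_sum he c Finset.univ).2, _root_.sum_apply]
  rfl

private theorem LipL_cont (r : ℝ) {N : ℕ} (e : Fin N → E3 → ℂ) : Continuous (LipL_L r e) := by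
  unfold LipL_L
  refine continuous_finsetSum _ fun i _ => ?_
  exact (Complex.continuous_ofReal.comp (continuous_apply i)).smul continuous_const

private theorem LipL_smul (r : ℝ) {N : ℕ} (e : Fin N → E3 → ℂ) (t : ℝ) (c : Fin N → ℝ) :
    LipL_L r e (t • c) = (t : ℂ) • LipL_L r e c := by
  unfold LipL_L
  rw [Finset.smul_sum]
  refine Finset.sum_congr rfl fun i _ => ?_
  rw [Pi.smul_apply, smul_eq_mul, Complex.ofReal_mul, smul_smul]

private theorem LipL_zero (r : ℝ) {N : ℕ} (e : Fin N → E3 → ℂ) : LipL_L r e 0 = 0 := by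
  unfold LipL_L
  refine Finset.sum_eq_zero fun i _ => ?_
  rw [Pi.zero_apply, Complex.ofReal_zero, zero_smul]

private theorem LipL_mem {r : ℝ} {N : ℕ} {e : Fin N → E3 → ℂ} (he : ∀ i, IsPot r 1 (e i))
    (c : Fin N → ℝ) : LipL_L r e c ∈ HB r :=
  Submodule.sum_mem _ fun i _ => Submodule.smul_mem _ _ (dH_mem (he i))

private theorem LipL_dH_sub {r M M' : ℝ} {A B : E3 → ℂ} (hA : IsPot r M A) (hB : IsPot r M' B) :
    dH r (fun x => A x - B x) = dH r A - dH r B := by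
  unfold dH
  rw [mulL_sub hA.BM hB.BM]
  rfl

/-- closeness a.e. gives closeness of `dH` -/
private theorem LipL_close {r M M' δ : ℝ} (hδ : 0 ≤ δ) {A B : E3 → ℂ} (hA : IsPot r M A)
    (hB : IsPot r M' B) (h : ∀ᵐ x ∂(volume : Measure E3), ‖A x - B x‖ ≤ δ) :
    ‖dH r A - dH r B‖ ≤ δ * ‖oneB r‖ := by
  rw [← LipL_dH_sub hA hB]
  refine ((mulL fun x => A x - B x).le_opNorm _).trans ?_
  exact mul_le_mul_of_nonneg_right (norm_mulL_le (hA.BM.sub hB.BM) hδ h) (norm_nonneg _)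

private theorem LipL_id {r C M : ℝ} {K : HS →L[ℂ] HS} (hK : SymB r C K)
    (hMK : M * ‖K‖ ≤ 1 / 2) {e : HS} {X X' U U' : E3 → ℂ} (hX : IsPot r M X) (hX' : IsPot r M X')
    (hU : IsPot r M U) (hU' : IsPot r M U')
    (h1 : pr e (mulL X (UK K X e)) = pr e (mulL U (UK K U e)))
    (h2 : pr e (mulL X' (UK K X' e)) = pr e (mulL U' (UK K U' e))) (t : ℝ) :
    A3 ((t : ℂ) • (dH r U - dH r U')) (UK K U e) (UK K U' e) =
      A3 ((t : ℂ) • (dH r X - dH r X')) (UK K X e) (UK K X' e) := by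
  rw [A3_W_smul, A3_W_smul, ← LipL_dH_sub hU hU', ← LipL_dH_sub hX hX',
    UK_ident hK hU hU' hMK e, UK_ident hK hX hX' hMK e, h1, h2]

private theorem LipL_pass {r C M : ℝ} {K : HS →L[ℂ] HS} (hK : SymB r C K)
    (hMK : M * ‖K‖ ≤ 1 / 2) {c : ℝ} {e : HS} (he : Bd c e)
    {X X' U U' : ℕ → E3 → ℂ} {V₁ V₂ : E3 → ℂ} (hX : ∀ n, IsPot r M (X n))
    (hX' : ∀ n, IsPot r M (X' n)) (hU : ∀ n, IsPot r M (U n)) (hU' : ∀ n, IsPot r M (U' n))
    (hV₁ : IsPot r M V₁) (hV₂ : IsPot r M V₂)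
    (dX : Tendsto (fun n => dH r (X n)) atTop (𝓝 (dH r V₁)))
    (dX' : Tendsto (fun n => dH r (X' n)) atTop (𝓝 (dH r V₁)))
    (dU : Tendsto (fun n => dH r (U n)) atTop (𝓝 (dH r V₂)))
    (dU' : Tendsto (fun n => dH r (U' n)) atTop (𝓝 (dH r V₂)))
    {w ε : ℕ → HS} {w₀ ε₀ : HS} (hw : Tendsto w atTop (𝓝 w₀)) (hε : Tendsto ε atTop (𝓝 ε₀))
    (hid : ∀ n, A3 (w n) (UK K (U n) e) (UK K (U' n) e) =
      A3 (ε n) (UK K (X n) e) (UK K (X' n) e)) :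
    A3 w₀ (UK K V₂ e) (UK K V₂ e) = A3 ε₀ (UK K V₁ e) (UK K V₁ e) := by
  have l1 := A3_lim hw (UK_lim hK hU hV₂ hMK dU he) (UK_lim hK hU' hV₂ hMK dU' he)
    (fun n => UK_Bd hK (hU n) hMK he) (fun n => UK_Bd hK (hU' n) hMK he)
    (UK_Bd hK hV₂ hMK he) (UK_Bd hK hV₂ hMK he)
  have l2 := A3_lim hε (UK_lim hK hX hV₁ hMK dX he) (UK_lim hK hX' hV₁ hMK dX' he)
    (fun n => UK_Bd hK (hX n) hMK he) (fun n => UK_Bd hK (hX' n) hMK he)
    (UK_Bd hK hV₁ hMK he) (UK_Bd hK hV₁ hMK he)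
  exact tendsto_nhds_unique l1 (l2.congr fun n => (hid n).symm)

private theorem LipL_tend {a : ℕ → HS} {b : HS} {C : ℝ}
    (h : ∀ n : ℕ, ‖a n - b‖ ≤ 1 / ((n : ℝ) + 1) * C) : Tendsto a atTop (𝓝 b) := by
  rw [tendsto_iff_norm_sub_tendsto_zero]
  refine squeeze_zero (fun n => norm_nonneg _) h ?_
  have := (tendsto_one_div_add_atTop_nhds_zero_nat (𝕜 := ℝ)).mul_const C
  simpa using this

theorem lipL {s : ℝ} (h0 : 3 / 4 < s) (h2 : s < 2) (h1 : s ≠ 1) {r : ℝ} (hr : 0 < r)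
    {M K : ℝ} (hK : KOK s r M K) {V₁ V₂ : E3 → ℂ} (hV₁ : IsPot r M V₁) (hV₂ : IsPot r M V₂)
    {F : Submodule ℂ HS} [FiniteDimensional ℂ F] (hF : ∀ w ∈ HB r,
      (∀ ξ : E3, K < ‖ξ‖ → A3 w (UA s r V₂ ξ) (UA s r V₂ ξ) = 0) → w ∈ F) {N : ℕ}
    {e : Fin N → E3 → ℂ} (he : ∀ i, IsPot r 1 (e i))
    (hstar : ∀ c : Fin N → ℝ, ∀ w ∈ HB r, (∀ τ : ℝ, K ≤ τ → ∀ η : Fin 3 → ℂ, Adm τ η →
      A3 (dH r (fun x => ∑ i, ((c i : ℝ) : ℂ) * e i x)) (SI s r V₁ τ (ec r η))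
        (SI s r V₁ τ (ec r η)) = A3 w (SI s r V₂ τ (ec r η)) (SI s r V₂ τ (ec r η))) → c = 0) :
    ∃ δ C : ℝ, 0 < δ ∧ 0 ≤ C ∧ ∀ (V U U' : E3 → ℂ) (c c' : Fin N → ℝ),
      IsPot r M (fun x => V x + ∑ i, ((c i : ℝ) : ℂ) * e i x) →
      IsPot r M (fun x => V x + ∑ i, ((c' i : ℝ) : ℂ) * e i x) → IsPot r M U → IsPot r M U' →
      (∀ᵐ x ∂(volume : Measure E3), ‖V x + ∑ i, ((c i : ℝ) : ℂ) * e i x - V₁ x‖ ≤ δ) →
      (∀ᵐ x ∂(volume : Measure E3), ‖V x + ∑ i, ((c' i : ℝ) : ℂ) * e i x - V₁ x‖ ≤ δ) →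
      ‖dH r U - dH r V₂‖ ≤ δ → ‖dH r U' - dH r V₂‖ ≤ δ →
      SD s r (fun x => V x + ∑ i, ((c i : ℝ) : ℂ) * e i x) U →
      SD s r (fun x => V x + ∑ i, ((c' i : ℝ) : ℂ) * e i x) U' →
      ‖c - c'‖ ≤ C * ‖F.orthogonalProjection (dH r U - dH r U')‖ := by
  by_contra hcon
  push Not at hcon
  have hall := fun n : ℕ => hcon (1 / ((n : ℝ) + 1)) n (by positivity) (by positivity)
  choose V U U' c c' hX hX' hU hU' nX nX' nU nU' sX sX' hlt using hall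
  set X : ℕ → E3 → ℂ := fun n x => V n x + ∑ i, ((c n i : ℝ) : ℂ) * e i x with hXdef
  set X' : ℕ → E3 → ℂ := fun n x => V n x + ∑ i, ((c' n i : ℝ) : ℂ) * e i x with hX'def
  have hδ : ∀ n : ℕ, (0 : ℝ) ≤ 1 / ((n : ℝ) + 1) := fun n => by positivity
  -- the convergence of the potentials
  have dX : Tendsto (fun n => dH r (X n)) atTop (𝓝 (dH r V₁)) :=
    LipL_tend fun n => LipL_close (hδ n) (hX n) hV₁ (nX n)
  have dX' : Tendsto (fun n => dH r (X' n)) atTop (𝓝 (dH r V₁)) :=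
    LipL_tend fun n => LipL_close (hδ n) (hX' n) hV₁ (nX' n)
  have dU : Tendsto (fun n => dH r (U n)) atTop (𝓝 (dH r V₂)) :=
    LipL_tend (C := 1) fun n => by rw [mul_one]; exact nU n
  have dU' : Tendsto (fun n => dH r (U' n)) atTop (𝓝 (dH r V₂)) :=
    LipL_tend (C := 1) fun n => by rw [mul_one]; exact nU' n
  -- the normalisation
  set t : ℕ → ℝ := fun n => ‖c n - c' n‖ + ‖dH r (U n) - dH r (U' n)‖ with ht
  have htpos : ∀ n, 0 < t n := fun n => by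
    have h3 : 0 < ‖c n - c' n‖ :=
      lt_of_le_of_lt (mul_nonneg (Nat.cast_nonneg n) (norm_nonneg _)) (hlt n)
    have h4 := norm_nonneg (dH r (U n) - dH r (U' n))
    show 0 < ‖c n - c' n‖ + ‖dH r (U n) - dH r (U' n)‖
    linarith
  set cb : ℕ → Fin N → ℝ := fun n => (t n)⁻¹ • (c n - c' n) with hcb
  set w : ℕ → HS := fun n => (((t n)⁻¹ : ℝ) : ℂ) • (dH r (U n) - dH r (U' n)) with hw
  have hcbn : ∀ n, ‖cb n‖ = (t n)⁻¹ * ‖c n - c' n‖ := fun n => by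
    show ‖(t n)⁻¹ • (c n - c' n)‖ = _
    rw [norm_smul, Real.norm_of_nonneg (inv_nonneg.2 (htpos n).le)]
  have hwn : ∀ n, ‖w n‖ = (t n)⁻¹ * ‖dH r (U n) - dH r (U' n)‖ := fun n => by
    show ‖(((t n)⁻¹ : ℝ) : ℂ) • (dH r (U n) - dH r (U' n))‖ = _
    rw [norm_smul, Complex.norm_real, Real.norm_of_nonneg (inv_nonneg.2 (htpos n).le)]
  have hone : ∀ n, ‖cb n‖ + ‖w n‖ = 1 := fun n => by
    rw [hcbn, hwn, ← mul_add]
    exact inv_mul_cancel₀ (htpos n).ne'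
  have hcb1 : ∀ n, ‖cb n‖ ≤ 1 := fun n => by
    have := hone n
    have := norm_nonneg (w n)
    linarith
  have hw1 : ∀ n, ‖w n‖ ≤ 1 := fun n => by
    have := hone n
    have := norm_nonneg (cb n)
    linarith
  have hwB : ∀ n, w n ∈ HB r := fun n =>
    Submodule.smul_mem _ _ (Submodule.sub_mem _ (dH_mem (hU n)) (dH_mem (hU' n)))
  -- the difference of the perturbations
  have hε : ∀ n, (((t n)⁻¹ : ℝ) : ℂ) • (dH r (X n) - dH r (X' n)) = LipL_L r e (cb n) := by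
    intro n
    rw [← LipL_dH_sub (hX n) (hX' n)]
    have e1 : (fun x => X n x - X' n x) =
        fun x => ∑ i, (((c n - c' n) i : ℝ) : ℂ) * e i x := by
      funext x
      simp only [hXdef, hX'def, Pi.sub_apply, Complex.ofReal_sub, sub_mul,
        Finset.sum_sub_distrib]
      ring
    rw [e1, LipL_dH he, ← LipL_smul]
  -- the identities
  have hidA : ∀ (n : ℕ) (ξ : E3), K < ‖ξ‖ → A3 (w n) (UA s r (U n) ξ) (UA s r (U' n) ξ) =
      A3 (LipL_L r e (cb n)) (UA s r (X n) ξ) (UA s r (X' n) ξ) := by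
    intro n ξ hξ
    rw [← hε n]
    exact LipL_id (AR_SymB h0 h2 h1 hr (hK.one.trans hξ.le)) (hK.ar ξ hξ.le) (hX n) (hX' n)
      (hU n) (hU' n) (SD_FA h0 h2 h1 hr hK (hX n) (hU n) (sX n) ξ hξ)
      (SD_FA h0 h2 h1 hr hK (hX' n) (hU' n) (sX' n) ξ hξ) _
  obtain ⟨CR, _, hCR⟩ := RI_SymB h0 h2 h1 hr
  have hidI : ∀ (n : ℕ) (τ : ℝ), K ≤ τ → ∀ η : Fin 3 → ℂ, Adm τ η →
      A3 (w n) (UK (RI s r τ) (U n) (ec r η)) (UK (RI s r τ) (U' n) (ec r η)) =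
        A3 (LipL_L r e (cb n)) (UK (RI s r τ) (X n) (ec r η)) (UK (RI s r τ) (X' n) (ec r η)) := by
    intro n τ hτ η hη
    have hτ0 : 0 < τ := lt_of_lt_of_le one_pos (hK.one.trans hτ)
    rw [← hε n]
    refine LipL_id (hCR τ (hK.one.trans hτ)) (hK.ri τ hτ) (hX n) (hX' n) (hU n) (hU' n) ?_ ?_ _
    · exact FC_eq hτ0 (fun θ hθ => SD_I h0 h2 h1 hr hK (hX n) (hU n) (sX n) hθ τ hτ) hη
    · exact FC_eq hτ0 (fun θ hθ => SD_I h0 h2 h1 hr hK (hX' n) (hU' n) (sX' n) hθ τ hτ) hη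
  -- first subsequence
  obtain ⟨cl, _, φ₁, hφ₁, hcl⟩ := (isCompact_closedBall (0 : Fin N → ℝ) 1).tendsto_subseq
    (x := cb) (fun n => mem_closedBall_zero_iff.2 (hcb1 n))
  have hεl : Tendsto (fun n => LipL_L r e (cb (φ₁ n))) atTop (𝓝 (LipL_L r e cl)) :=
    ((LipL_cont r e).tendsto cl).comp hcl
  -- second subsequence
  obtain ⟨φ₂, hφ₂, wl, hwlB, hwl⟩ := tseq h0 h2 h1 hr hK (V₁ := fun n => X (φ₁ n))
    (V₁' := fun n => X' (φ₁ n)) (V₂ := fun n => U (φ₁ n)) (V₂' := fun n => U' (φ₁ n))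
    (fun n => hX _) (fun n => hX' _) (fun n => hU _) (fun n => hU' _)
    (w := fun n => w (φ₁ n)) (ε := fun n => LipL_L r e (cb (φ₁ n))) (fun n => hwB _)
    (fun n => LipL_mem he _) (A := 1) (fun n => hw1 _) hεl (fun n ξ hξ => hidA _ ξ hξ)
  set φ : ℕ → ℕ := fun n => φ₁ (φ₂ n) with hφ
  have hφm : StrictMono φ := hφ₁.comp hφ₂
  have hφt : Tendsto φ atTop atTop := hφm.tendsto_atTop
  have hwφ : Tendsto (fun n => w (φ n)) atTop (𝓝 wl) := hwl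
  have hcφ : Tendsto (fun n => cb (φ n)) atTop (𝓝 cl) := hcl.comp hφ₂.tendsto_atTop
  have hεφ : Tendsto (fun n => LipL_L r e (cb (φ n))) atTop (𝓝 (LipL_L r e cl)) :=
    ((LipL_cont r e).tendsto cl).comp hcφ
  -- the limit identities
  have limI : ∀ τ : ℝ, K ≤ τ → ∀ η : Fin 3 → ℂ, Adm τ η →
      A3 wl (SI s r V₂ τ (ec r η)) (SI s r V₂ τ (ec r η)) =
        A3 (LipL_L r e cl) (SI s r V₁ τ (ec r η)) (SI s r V₁ τ (ec r η)) := by
    intro τ hτ η hη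
    exact LipL_pass (hCR τ (hK.one.trans hτ)) (hK.ri τ hτ) (ec_Bd hr η)
      (X := fun n => X (φ n)) (X' := fun n => X' (φ n)) (U := fun n => U (φ n))
      (U' := fun n => U' (φ n)) (fun n => hX _) (fun n => hX' _) (fun n => hU _) (fun n => hU' _)
      hV₁ hV₂ (dX.comp hφt) (dX'.comp hφt) (dU.comp hφt) (dU'.comp hφt) hwφ hεφ
      (fun n => hidI _ τ hτ η hη)
  have hcl0 : cl = 0 := by
    refine hstar cl wl hwlB fun τ hτ η hη => ?_
    rw [LipL_dH he]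
    exact (limI τ hτ η hη).symm
  have limA : ∀ ξ : E3, K < ‖ξ‖ → A3 wl (UA s r V₂ ξ) (UA s r V₂ ξ) = 0 := by
    intro ξ hξ
    have h5 : A3 wl (UA s r V₂ ξ) (UA s r V₂ ξ) =
        A3 (LipL_L r e cl) (UA s r V₁ ξ) (UA s r V₁ ξ) :=
      LipL_pass (AR_SymB h0 h2 h1 hr (hK.one.trans hξ.le)) (hK.ar ξ hξ.le) (eH_Bd r ξ)
        (X := fun n => X (φ n)) (X' := fun n => X' (φ n)) (U := fun n => U (φ n))
        (U' := fun n => U' (φ n)) (fun n => hX _) (fun n => hX' _) (fun n => hU _)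
        (fun n => hU' _) hV₁ hV₂ (dX.comp hφt) (dX'.comp hφt) (dU.comp hφt) (dU'.comp hφt)
        hwφ hεφ (fun n => hidA _ ξ hξ)
    rw [h5, hcl0, LipL_zero]
    have h6 := A3_W_smul 0 (0 : HS) (UA s r V₁ ξ) (UA s r V₁ ξ)
    rw [zero_smul, zero_mul] at h6
    exact h6
  have hwlF : wl ∈ F := hF wl hwlB limA
  -- the projection
  have hPn : ∀ n : ℕ, (n : ℝ) * ‖F.orthogonalProjection (w n)‖ ≤ 1 := by
    intro n
    have h7 : F.orthogonalProjection (w n) =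
        (((t n)⁻¹ : ℝ) : ℂ) • F.orthogonalProjection (dH r (U n) - dH r (U' n)) :=
      map_smul _ _ _
    rw [h7, norm_smul, Complex.norm_real, Real.norm_of_nonneg (inv_nonneg.2 (htpos n).le)]
    have h8 := mul_le_mul_of_nonneg_left (hlt n).le (inv_nonneg.2 (htpos n).le)
    rw [← hcbn n] at h8
    have h9 := hcb1 n
    nlinarith [h8, h9]
  have hP0 : Tendsto (fun n => ‖F.orthogonalProjection (w n)‖) atTop (𝓝 0) := by
    refine squeeze_zero' (Eventually.of_forall fun n => norm_nonneg _) ?_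
      (tendsto_const_div_atTop_nhds_zero_nat (1 : ℝ))
    filter_upwards [eventually_gt_atTop 0] with n hn
    rw [le_div_iff₀ (by exact_mod_cast hn), mul_comm]
    exact hPn n
  have hP1 : Tendsto (fun n => ‖F.orthogonalProjection (w (φ n))‖) atTop
      (𝓝 ‖F.orthogonalProjection wl‖) :=
    ((F.orthogonalProjection.continuous.tendsto wl).comp hwφ).norm
  have hPwl : ‖F.orthogonalProjection wl‖ = 0 := tendsto_nhds_unique hP1 (hP0.comp hφt)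
  have hwl0 : wl = 0 := by
    have h10 : F.orthogonalProjection wl = ⟨wl, hwlF⟩ :=
      Submodule.orthogonalProjectionOnto_mem_subspace_eq_self ⟨wl, hwlF⟩
    rw [h10] at hPwl
    exact norm_eq_zero.1 hPwl
  -- contradiction
  have hlim1 : Tendsto (fun n => ‖cb (φ n)‖ + ‖w (φ n)‖) atTop (𝓝 (‖cl‖ + ‖wl‖)) :=
    hcφ.norm.add hwφ.norm
  have hlim2 : Tendsto (fun n => ‖cb (φ n)‖ + ‖w (φ n)‖) atTop (𝓝 1) := by
    simp only [hone]
    exact tendsto_const_nhds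
  have h11 := tendsto_nhds_unique hlim1 hlim2
  rw [hcl0, hwl0, norm_zero, norm_zero, add_zero] at h11
  exact zero_ne_one h11

end FracScatC

end
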