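import Pool.Agent.Lib.MP_6e2ba5_an.Dx.Abs
import Pool.Agent.Lib.MP_6e2ba5_an.Dx.AxApi
import Pool.Agent.Lib.MP_6e2ba5_an.Dx.SDa

/-! # Closedness of `SD`

At each real `k = 2π‖ξ‖`, `k` large, `Ffun s r V θ k = pr e (V u)` with `u = UK (Kop s r k) V e`, `e = ev r θ k` bounded
by `1`; take `ξ = (k/2π) θ`, then `k = kx ξ`, `Kop s r (kx ξ)` satisfies `SymB r C` (`Kop_symm`, `Kop_Bd`,
`norm_PL_le`, as in `AR_SymB`, but for all `s > 3/4`), and `M ‖Kop‖ ≤ 1/2` for large `k` (`Kx_norm`). `UK_lim` gives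
`u_n → u` in `L²`, and `V_n u_n → V u`: `‖V_n (u_n - u)‖ ≤ M ‖u_n - u‖` and `‖(V_n - V) u‖ ≤ c ‖dH V_n - dH V‖`,
`u` bounded. By `SD_real` (`SDa.lean`) the equalities for all `n` hold from the same threshold on: import `SDa` if
needed (`KOK`, `exists_KOK`). -/

set_option autoImplicit false

open MeasureTheory Filter Topology Set
open scoped FourierTransform SchwartzMap InnerProductSpace ENNReal BoundedContinuousFunction

noncomputable section

namespace FracScatC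

open FracScat

private theorem SDb_cut' (s r : ℝ) (k : ℂ) (g : HS) :
    Kop s r k (mulL (indB r) g) = Kop s r k g := by
  show mulL (indB r) (multL (gs s (2 * r) k) (mulL (indB r) (mulL (indB r) g))) =
    mulL (indB r) (multL (gs s (2 * r) k) (mulL (indB r) g))
  rw [indB_idem]

private theorem SDb_SymB {s : ℝ} (h0 : 3 / 4 < s) (h2 : s < 2) {r : ℝ} (hr : 0 < r) {ξ : E3}
    (hξ : 1 ≤ ‖ξ‖) : SymB r ‖gsH s r (2 * Real.pi * ‖ξ‖)‖ (Kop s r (kx ξ)) where
  nonneg := norm_nonneg _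
  symm f g := by
    have hξ0 : ξ ≠ 0 := by
      intro h
      rw [h, norm_zero] at hξ
      linarith
    rw [pr_eq, pr_eq]
    exact Kop_symm (by linarith) h2 hr.le (kx_mem_Quad hξ0) f g
  cut g := indB_idem r _
  cut' g := SDb_cut' s r (kx ξ) g
  bd g := by
    have hpi := Real.pi_gt_three
    have hξ' : 1 ≤ 2 * Real.pi * ‖ξ‖ := by nlinarith
    have e1 := Kop_Bd h0 h2 hr.le hξ' (indB_idem r g)
    have e2 := norm_PL_le s r ξ (mulL (indB r) g)
    have e3 : ‖mulL (indB r) g‖ ≤ ‖g‖ := by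
      refine (ContinuousLinearMap.le_opNorm _ _).trans ?_
      exact mul_le_of_le_one_left (norm_nonneg _) (norm_mulL_indB r)
    rw [SDb_cut'] at e1
    filter_upwards [e1] with x hx
    exact hx.trans (e2.trans (mul_le_mul_of_nonneg_left e3 (norm_nonneg _)))

private theorem SDb_pot {r M c : ℝ} {V V' : E3 → ℂ} (hV : IsPot r M V) (hV' : IsPot r M V') {u : HS}
    (hu : Bd c u) : ‖mulL V u - mulL V' u‖ ≤ c * ‖dH r V - dH r V'‖ := by
  refine Lp.norm_le_mul_norm_of_ae_le_mul ?_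
  filter_upwards [hu, mulL_coe hV.BM u, mulL_coe hV'.BM u, dH_coe hV, dH_coe hV',
    Lp.coeFn_sub (mulL V u) (mulL V' u), Lp.coeFn_sub (dH r V) (dH r V')] with x a b b' d d' e e'
  rw [e, e', Pi.sub_apply, Pi.sub_apply, b, b', d, d', ← sub_mul, norm_mul, mul_comm]
  exact mul_le_mul_of_nonneg_right a (norm_nonneg _)

private theorem SDb_lim {r C M : ℝ} {K : HS →L[ℂ] HS} (hK : SymB r C K) {Vn : ℕ → E3 → ℂ}
    {V : E3 → ℂ} (hVn : ∀ n, IsPot r M (Vn n)) (hV : IsPot r M V) (hMK : M * ‖K‖ ≤ 1 / 2)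
    (hd : Tendsto (fun n => dH r (Vn n)) atTop (𝓝 (dH r V))) {c : ℝ} {e : HS} (he : Bd c e) :
    Tendsto (fun n => pr e (mulL (Vn n) (UK K (Vn n) e))) atTop (𝓝 (pr e (mulL V (UK K V e)))) := by
  have hM : 0 ≤ M := (norm_nonneg _).trans (hV.bounded 0)
  have h1 := UK_lim hK hVn hV hMK hd he
  have h2 := UK_Bd hK hV hMK he
  have h3 : Tendsto (fun n => mulL (Vn n) (UK K (Vn n) e)) atTop (𝓝 (mulL V (UK K V e))) := by
    rw [tendsto_iff_norm_sub_tendsto_zero]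
    have e1 : Tendsto (fun n => M * ‖UK K (Vn n) e - UK K V e‖ +
        (c + C * (M * (2 * ‖e‖))) * ‖dH r (Vn n) - dH r V‖) atTop (𝓝 0) := by
      have e2 := (tendsto_iff_norm_sub_tendsto_zero.1 h1).const_mul M
      have e3 := (tendsto_iff_norm_sub_tendsto_zero.1 hd).const_mul (c + C * (M * (2 * ‖e‖)))
      have e4 := e2.add e3
      rwa [mul_zero, mul_zero, add_zero] at e4
    refine squeeze_zero (fun n => norm_nonneg _) (fun n => ?_) e1
    have e5 : mulL (Vn n) (UK K (Vn n) e) - mulL V (UK K V e) =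
        mulL (Vn n) (UK K (Vn n) e - UK K V e) +
          (mulL (Vn n) (UK K V e) - mulL V (UK K V e)) := by
      rw [map_sub]
      abel
    rw [e5]
    refine (norm_add_le _ _).trans (add_le_add ?_ (SDb_pot (hVn n) hV h2))
    exact (ContinuousLinearMap.le_opNorm _ _).trans
      (mul_le_mul_of_nonneg_right ((hVn n).norm_mulL hM) (norm_nonneg _))
  exact ((prB e).continuous.tendsto _).comp h3

theorem SD_lim {s : ℝ} (h0 : 3 / 4 < s) (h2 : s < 2) (h1 : s ≠ 1) {r : ℝ} (hr : 0 < r)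
    {M : ℝ} {Vn Un : ℕ → E3 → ℂ} {V U : E3 → ℂ} (hVn : ∀ n, IsPot r M (Vn n))
    (hUn : ∀ n, IsPot r M (Un n)) (hV : IsPot r M V) (hU : IsPot r M U)
    (hdV : Tendsto (fun n => dH r (Vn n)) atTop (𝓝 (dH r V)))
    (hdU : Tendsto (fun n => dH r (Un n)) atTop (𝓝 (dH r U)))
    (h : ∀ n, SD s r (Vn n) (Un n)) : SD s r V U := by
  have hM : 0 ≤ M := (norm_nonneg _).trans (hV.bounded 0)
  obtain ⟨K, hK⟩ := exists_KOK h0 h2 h1 hr M
  obtain ⟨C, hC, hnorm⟩ := Kx_norm h0 h2 hr.le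
  have hlim : Tendsto (fun x : ℝ => M * (C * x ^ (-(2 * s - 1)))) atTop (𝓝 0) := by
    have e1 := ((tendsto_rpow_neg_atTop (show 0 < 2 * s - 1 by linarith)).const_mul C).const_mul M
    rwa [mul_zero, mul_zero] at e1
  obtain ⟨R, hR⟩ := eventually_atTop.1 (hlim.eventually_le_const (show (0 : ℝ) < 1 / 2 by norm_num))
  have hpi := Real.pi_pos
  refine ⟨max K (2 * Real.pi * max R 1), fun θ hθ k hk => ?_⟩
  have hk1 : K ≤ k := (le_max_left _ _).trans hk
  have hk2 : 2 * Real.pi * max R 1 ≤ k := (le_max_right _ _).trans hk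
  have hx : max R 1 ≤ k / (2 * Real.pi) := by
    rw [le_div_iff₀ (by positivity)]
    linarith
  obtain ⟨x, hxk⟩ : ∃ x : ℝ, x = k / (2 * Real.pi) := ⟨_, rfl⟩
  rw [← hxk] at hx
  have hx1 : 1 ≤ x := (le_max_right _ _).trans hx
  have hxR : R ≤ x := (le_max_left _ _).trans hx
  have hk0 : k = 2 * Real.pi * x := by
    rw [hxk]
    field_simp
  obtain ⟨ξ, hξ⟩ : ∃ ξ : E3, ξ = x • θ := ⟨_, rfl⟩
  have hnξ : ‖ξ‖ = x := by
    rw [hξ, norm_smul, hθ, mul_one, Real.norm_of_nonneg (by linarith)]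
  have hξ0 : ξ ≠ 0 := by
    intro h
    rw [h, norm_zero] at hnξ
    linarith
  have hkx : (k : ℂ) = kx ξ := by
    rw [kx, hnξ, ← hk0]
  have hθξ : ‖ξ‖⁻¹ • ξ = θ := by
    rw [hnξ, hξ, smul_smul, inv_mul_cancel₀ (by linarith), one_smul]
  have hev : ev r θ (k : ℂ) = eH r ξ := by
    rw [eH_eq_ev r hξ0, hθξ, hkx]
  have hS := SDb_SymB h0 h2 hr (show 1 ≤ ‖ξ‖ by rw [hnξ]; exact hx1)
  have hMK : M * ‖Kop s r (kx ξ)‖ ≤ 1 / 2 := by
    refine (mul_le_mul_of_nonneg_left (hnorm ξ (by rw [hnξ]; exact hx1)) hM).trans ?_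
    have e1 := hR x hxR
    rw [neg_sub] at e1
    rw [hnξ]
    exact e1
  have key : ∀ W : E3 → ℂ, Ffun s r W θ k = pr (eH r ξ) (mulL W (UK (Kop s r (kx ξ)) W (eH r ξ))) := by
    intro W
    rw [pr_eq]
    unfold Ffun uk UK Tk
    rw [hev, hkx]
  have l1 := SDb_lim hS hVn hV hMK hdV (eH_Bd r ξ)
  have l2 := SDb_lim hS hUn hU hMK hdU (eH_Bd r ξ)
  rw [key V, key U]
  refine tendsto_nhds_unique l1 (l2.congr fun n => ?_)
  rw [← key, ← key]
  exact (SD_real h0 h2 h1 hr hK (hVn n) (hUn n) (h n) hθ k hk1).symm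

end FracScatC

end
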