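import Pool.Agent.Lib.MP_6e2ba5_an.Dx.TSeq
import Pool.Agent.Lib.MP_6e2ba5_an.Dx.SDa
import Pool.Agent.Lib.MP_6e2ba5_an.Dx.SDb
import Pool.Agent.Lib.MP_6e2ba5_an.Dx.LipL

/-! # Compactness of the set of solutions

`W_n = dH (U_n - V_n) ∈ HB r` (`dH_mem`, bounded), `A3 W_n (UA U_n ξ) (UA V_n ξ) = FA U_n ξ - FA V_n ξ = 0` for `‖ξ‖ > K` (`FA_ident`, `SD_FA`), so by `tseq` with
`ε = 0` a subsequence of `W_n` converges, hence `dH U_n = W_n + dH V_n` converges to some `g`. `rep_pot`: a limit in `L²` of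
real functions bounded by `M` and vanishing outside the ball has such a representative (a subsequence converges a.e.; or the set of such `g` is
closed; modify on a null set). `SD_lim`. -/

set_option autoImplicit false

open MeasureTheory Filter Topology Set
open scoped FourierTransform SchwartzMap InnerProductSpace ENNReal BoundedContinuousFunction

noncomputable section

namespace FracScatC

open FracScat

theorem rep_pot {r M : ℝ} (hM : 0 ≤ M) {U : ℕ → E3 → ℝ} (hU : ∀ n, IsPot r M (Vc (U n)))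
    {g : HS} (hg : Tendsto (fun n => dH r (Vc (U n))) atTop (𝓝 g)) :
    ∃ U₀ : E3 → ℝ, IsPot r M (Vc U₀) ∧ dH r (Vc U₀) = g := by
  -- a subsequence converges almost everywhere
  have hm : TendstoInMeasure (volume : Measure E3)
      (fun n => (dH r (Vc (U n)) : E3 → ℂ)) atTop (g : E3 → ℂ) :=
    tendstoInMeasure_of_tendsto_Lp hg
  obtain ⟨ns, _, hns⟩ := hm.exists_seq_tendsto_ae
  have hall : ∀ᵐ x ∂(volume : Measure E3), ∀ n, (dH r (Vc (U n)) : E3 → ℂ) x = Vc (U n) x :=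
    ae_all_iff.2 fun n => dH_coe (hU n)
  have hgm : Measurable (g : E3 → ℂ) := (Lp.stronglyMeasurable g).measurable
  have hlim : ∀ᵐ x ∂(volume : Measure E3),
      ((g : E3 → ℂ) x).im = 0 ∧ |((g : E3 → ℂ) x).re| ≤ M ∧ (r ≤ ‖x‖ → (g : E3 → ℂ) x = 0) := by
    filter_upwards [hns, hall] with x hx hx2
    have hx3 : Tendsto (fun k => Vc (U (ns k)) x) atTop (𝓝 ((g : E3 → ℂ) x)) := by
      refine hx.congr fun k => ?_
      exact hx2 (ns k)
    refine ⟨?_, ?_, ?_⟩
    · have h1 : Tendsto (fun k => (Vc (U (ns k)) x).im) atTop (𝓝 ((g : E3 → ℂ) x).im) :=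
        (Complex.continuous_im.tendsto _).comp hx3
      have h2 : (fun k => (Vc (U (ns k)) x).im) = fun _ => (0 : ℝ) := by
        funext k
        unfold Vc
        exact Complex.ofReal_im _
      rw [h2] at h1
      exact (tendsto_nhds_unique tendsto_const_nhds h1).symm
    · have h1 : Tendsto (fun k => |(Vc (U (ns k)) x).re|) atTop (𝓝 |((g : E3 → ℂ) x).re|) :=
        ((continuous_abs.comp Complex.continuous_re).tendsto _).comp hx3
      refine le_of_tendsto h1 (Eventually.of_forall fun k => ?_)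
      exact (Complex.abs_re_le_norm _).trans ((hU (ns k)).bounded x)
    · intro hr'
      have h2 : (fun k => Vc (U (ns k)) x) = fun _ => (0 : ℂ) := by
        funext k
        exact (hU (ns k)).vanish x hr'
      rw [h2] at hx3
      exact (tendsto_nhds_unique tendsto_const_nhds hx3).symm
  let U₀ : E3 → ℝ := fun x => if ‖x‖ < r then max (-M) (min M ((g : E3 → ℂ) x).re) else 0
  have hU₀m : Measurable U₀ := by
    refine Measurable.ite (measurableSet_lt measurable_norm measurable_const) ?_ measurable_const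
    exact measurable_const.max (measurable_const.min (Complex.measurable_re.comp hgm))
  have hpot : IsPot r M (Vc U₀) := by
    refine ⟨Complex.measurable_ofReal.comp hU₀m, fun x => ?_, fun x hx => ?_⟩
    · unfold Vc
      rw [Complex.norm_real, Real.norm_eq_abs]
      change |if ‖x‖ < r then max (-M) (min M ((g : E3 → ℂ) x).re) else 0| ≤ M
      split_ifs
      · rw [abs_le]
        exact ⟨le_max_left _ _, max_le (by linarith) (min_le_left _ _)⟩
      · rw [abs_zero]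
        exact hM
    · unfold Vc
      change ((if ‖x‖ < r then max (-M) (min M ((g : E3 → ℂ) x).re) else 0 : ℝ) : ℂ) = 0
      rw [if_neg (not_lt.2 hx), Complex.ofReal_zero]
  refine ⟨U₀, hpot, ?_⟩
  apply Lp.ext
  filter_upwards [dH_coe hpot, hlim] with x hx hx2
  rw [hx]
  obtain ⟨h1, h2, h3⟩ := hx2
  unfold Vc
  change ((if ‖x‖ < r then max (-M) (min M ((g : E3 → ℂ) x).re) else 0 : ℝ) : ℂ) = _
  split_ifs with h
  · rw [abs_le] at h2
    rw [min_eq_right h2.2, max_eq_right h2.1]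
    apply Complex.ext
    · rw [Complex.ofReal_re]
    · rw [Complex.ofReal_im, h1]
  · rw [h3 (not_lt.1 h), Complex.ofReal_zero]

private theorem cpt_sub {r M : ℝ} {V₁ V₂ : E3 → ℂ} (h₁ : IsPot r M V₁) (h₂ : IsPot r M V₂) :
    dH r (fun x => V₁ x - V₂ x) = dH r V₁ - dH r V₂ := by
  unfold dH
  rw [mulL_sub h₁.BM h₂.BM]
  rfl

private theorem cpt_zero (f g : HS) : A3 0 f g = 0 := by
  unfold A3
  have h : (fun x => ((0 : HS) : E3 → ℂ) x * ((f : E3 → ℂ) x * (g : E3 → ℂ) x)) =ᵐ[volume]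
      fun _ => (0 : ℂ) := by
    filter_upwards [Lp.coeFn_zero (E := ℂ) (p := 2) (μ := (volume : Measure E3))] with x hx
    rw [hx, Pi.zero_apply, zero_mul]
  rw [integral_congr_ae h, integral_zero]

theorem cptL {s : ℝ} (h0 : 3 / 4 < s) (h2 : s < 2) (h1 : s ≠ 1) {r : ℝ} (hr : 0 < r) {M : ℝ}
    {V U : ℕ → E3 → ℝ} {V₀ : E3 → ℝ} (hV : ∀ n, IsPot r M (Vc (V n)))
    (hU : ∀ n, IsPot r M (Vc (U n))) (hV₀ : IsPot r M (Vc V₀))
    (hd : Tendsto (fun n => dH r (Vc (V n))) atTop (𝓝 (dH r (Vc V₀))))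
    (h : ∀ n, SD s r (Vc (V n)) (Vc (U n))) :
    ∃ φ : ℕ → ℕ, StrictMono φ ∧ ∃ U₀ : E3 → ℝ, IsPot r M (Vc U₀) ∧
      Tendsto (fun n => dH r (Vc (U (φ n)))) atTop (𝓝 (dH r (Vc U₀))) ∧
      SD s r (Vc V₀) (Vc U₀) := by
  obtain ⟨K, hK⟩ := exists_KOK h0 h2 h1 hr M
  have hM : 0 ≤ M := hV₀.nonneg
  have hsub : ∀ n, IsPot r (M + M) (fun x => Vc (U n) x - Vc (V n) x) :=
    fun n => (hU n).sub (hV n)
  obtain ⟨φ, hφ, w₀, -, hw₀⟩ := tseq h0 h2 h1 hr hK (V₁ := fun n => Vc (V n))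
    (V₁' := fun n => Vc (V n)) (V₂ := fun n => Vc (U n)) (V₂' := fun n => Vc (V n)) hV hV hU hV
    (w := fun n => dH r (fun x => Vc (U n) x - Vc (V n) x)) (ε := fun _ => 0)
    (fun n => dH_mem (hsub n)) (fun _ => Submodule.zero_mem _)
    (A := (M + M) * ‖oneB r‖) (fun n => norm_dH_le (hsub n)) (ε₀ := 0) tendsto_const_nhds
    (by
      intro n ξ hξ
      rw [cpt_zero, FA_ident h0 h2 h1 hr hK (hU n) (hV n) hξ.le,
        SD_FA h0 h2 h1 hr hK (hV n) (hU n) (h n) ξ hξ, sub_self])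
  have hconv : Tendsto (fun n => dH r (Vc (U (φ n)))) atTop (𝓝 (w₀ + dH r (Vc V₀))) := by
    have h3 : Tendsto (fun n => dH r (Vc (V (φ n)))) atTop (𝓝 (dH r (Vc V₀))) :=
      hd.comp hφ.tendsto_atTop
    refine (hw₀.add h3).congr fun n => ?_
    change dH r (fun x => Vc (U (φ n)) x - Vc (V (φ n)) x) + dH r (Vc (V (φ n))) = _
    rw [cpt_sub (hU (φ n)) (hV (φ n)), sub_add_cancel]
  obtain ⟨U₀, hU₀, hU₀g⟩ := rep_pot (U := fun n => U (φ n)) hM (fun n => hU (φ n)) hconv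
  refine ⟨φ, hφ, U₀, hU₀, ?_, ?_⟩
  · rw [hU₀g]
    exact hconv
  · refine SD_lim h0 h2 h1 hr (Vn := fun n => Vc (V (φ n))) (Un := fun n => Vc (U (φ n)))
      (fun n => hV (φ n)) (fun n => hU (φ n)) hV₀ hU₀ (hd.comp hφ.tendsto_atTop) ?_
      (fun n => h (φ n))
    rw [hU₀g]
    exact hconv

end FracScatC

end
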