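import Pool.Agent.Lib.MP_6e2ba5_an.Dx.LocalL
import Pool.Agent.Lib.MP_6e2ba5_an.Dx.CptL

/-! # Compactness arguments -/

set_option autoImplicit false

open MeasureTheory Filter Topology Set
open scoped FourierTransform SchwartzMap InnerProductSpace ENNReal BoundedContinuousFunction

noncomputable section

namespace FracScatC

open FracScat

theorem Vc_meas {r M : ℝ} {V : E3 → ℝ} (h : IsPot r M (Vc V)) : Measurable V := by
  have h3 : V = fun y => (Vc V y).re := by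
    funext y
    rw [Vc, Complex.ofReal_re]
  rw [h3]
  exact Complex.measurable_re.comp h.measurable

theorem Vc_bd {r M : ℝ} {V : E3 → ℝ} (h : IsPot r M (Vc V)) (x : E3) : |V x| ≤ M := by
  have := h.bounded x
  rwa [Vc, Complex.norm_real, Real.norm_eq_abs] at this

theorem Vc_van {r M : ℝ} {V : E3 → ℝ} (h : IsPot r M (Vc V)) (x : E3) (hx : r ≤ ‖x‖) :
    V x = 0 := by
  have := h.vanish x hx
  rw [Vc] at this
  exact_mod_cast this

theorem pot_Vc {r M : ℝ} {V : E3 → ℝ} (hm : Measurable V) (hb : ∀ x, |V x| ≤ M)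
    (hv : ∀ x, r ≤ ‖x‖ → V x = 0) : IsPot r M (Vc V) :=
  ⟨Complex.measurable_ofReal.comp hm, fun x => by
    rw [Vc, Complex.norm_real, Real.norm_eq_abs]
    exact hb x, fun x hx => by rw [Vc, hv x hx, Complex.ofReal_zero]⟩

theorem dH_congr {r : ℝ} {M M' : ℝ} {V V' : E3 → ℂ} (hV : IsPot r M V) (hV' : IsPot r M' V')
    (h : V =ᵐ[volume] V') : dH r V = dH r V' := by
  apply Lp.ext
  filter_upwards [dH_coe hV, dH_coe hV', h] with x h1 h2 h3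
  rw [h1, h2, h3]

theorem dH_inj {r : ℝ} {M M' : ℝ} {V V' : E3 → ℂ} (hV : IsPot r M V) (hV' : IsPot r M' V')
    (h : dH r V = dH r V') : V =ᵐ[volume] V' := by
  have e1 := dH_coe hV
  rw [h] at e1
  exact e1.symm.trans (dH_coe hV')

theorem dH_sub_le {r : ℝ} {M M' κ : ℝ} {V V' : E3 → ℂ} (hV : IsPot r M V)
    (hV' : IsPot r M' V') (hκ : 0 ≤ κ) (h : ∀ᵐ x ∂(volume : Measure E3), ‖V x - V' x‖ ≤ κ) :
    ‖dH r V - dH r V'‖ ≤ κ * ‖oneB r‖ := by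
  refine Lp.norm_le_mul_norm_of_ae_le_mul ?_
  filter_upwards [dH_coe hV, dH_coe hV', oneB_coe r, Lp.coeFn_sub (dH r V) (dH r V'), h]
    with x h1 h2 h3 h4 h5
  rw [h4, Pi.sub_apply, h1, h2, h3, indB]
  split_ifs with h6
  · rw [norm_one, mul_one]
    exact h5
  · rw [hV.vanish x (not_lt.1 h6), hV'.vanish x (not_lt.1 h6)]
    simp

/-- Every solution bounded by `n` is `1/(n+1)`-close to the potential. -/
def goodN (s r : ℝ) (n : ℕ) (V : E3 → ℝ) : Prop :=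
  ∀ U : E3 → ℝ, IsPot r n (Vc U) → SD s r (Vc V) (Vc U) →
    ‖dH r (Vc U) - dH r (Vc V)‖ < 1 / ((n : ℝ) + 1)

theorem goodN_congr {s r : ℝ} {n : ℕ} {M M' : ℝ} {V V' : E3 → ℝ} (hV : IsPot r M (Vc V))
    (hV' : IsPot r M' (Vc V')) (h : V =ᵐ[volume] V') (hg : goodN s r n V) : goodN s r n V' := by
  intro U hU hSD
  have h' : Vc V =ᵐ[volume] Vc V' := by
    filter_upwards [h] with x hx
    rw [Vc, Vc, hx]
  rw [← dH_congr hV hV' h']
  exact hg U hU (SD_congr h'.symm (EventuallyEq.refl _ _) hSD)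

/-- The bounded solutions near `g`. -/
def solP (s r M : ℝ) (g : HS) (δ : ℝ) (V : E3 → ℝ) : Prop :=
  ∀ U : E3 → ℝ, IsPot r M (Vc U) → ‖dH r (Vc U) - g‖ ≤ δ → ¬ SD s r (Vc V) (Vc U)

theorem seq_close {p : ℝ → (E3 → ℝ) → Prop} (h : ∀ κ : ℝ, 0 < κ → ∃ V : E3 → ℝ, p κ V) :
    ∃ V : ℕ → E3 → ℝ, ∀ j : ℕ, p (1 / ((j : ℝ) + 1)) (V j) := by
  choose V hV using fun j : ℕ => h (1 / ((j : ℝ) + 1)) (by positivity)
  exact ⟨V, hV⟩

theorem tendsto_inv_nat : Tendsto (fun j : ℕ => 1 / ((j : ℝ) + 1)) atTop (𝓝 0) :=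
  tendsto_one_div_add_atTop_nhds_zero_nat

theorem tendsto_of_le_inv {g : HS} {f : ℕ → HS} (h : ∀ j : ℕ, ‖f j - g‖ ≤ 1 / ((j : ℝ) + 1)) :
    Tendsto f atTop (𝓝 g) := by
  rw [tendsto_iff_norm_sub_tendsto_zero]
  exact squeeze_zero (fun _ => norm_nonneg _) h tendsto_inv_nat

theorem goodN_open {s : ℝ} (h0 : 3 / 4 < s) (h2 : s < 2) (h1 : s ≠ 1) {r : ℝ} (hr : 0 < r)
    {M : ℝ} {n : ℕ} (hn : (n : ℝ) ≤ M) {V : E3 → ℝ} (hV : IsPot r M (Vc V))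
    (hg : goodN s r n V) : ∃ κ : ℝ, 0 < κ ∧ ∀ V' : E3 → ℝ, IsPot r M (Vc V') →
      ‖dH r (Vc V') - dH r (Vc V)‖ ≤ κ → goodN s r n V' := by
  by_contra hcon
  push Not at hcon
  obtain ⟨V', hV'⟩ := seq_close hcon
  have hbad : ∀ j, ∃ U : E3 → ℝ, IsPot r n (Vc U) ∧ SD s r (Vc (V' j)) (Vc U) ∧
      1 / ((n : ℝ) + 1) ≤ ‖dH r (Vc U) - dH r (Vc (V' j))‖ := by
    intro j
    have := (hV' j).2.2
    unfold goodN at this
    push Not at this
    exact this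
  choose U hU hSD hfar using hbad
  have hd : Tendsto (fun j => dH r (Vc (V' j))) atTop (𝓝 (dH r (Vc V))) :=
    tendsto_of_le_inv fun j => (hV' j).2.1
  obtain ⟨φ, hφ, U₀, hU₀, hlim, hSD₀⟩ := cptL h0 h2 h1 hr (fun j => (hV' j).1)
    (fun j => (hU j).mono hn) hV hd hSD
  obtain ⟨U₁, hU₁, hU₁e⟩ := rep_pot (Nat.cast_nonneg n) (fun j => hU (φ j)) hlim
  have hae : Vc U₀ =ᵐ[volume] Vc U₁ := dH_inj hU₀ hU₁ hU₁e.symm
  have h3 := hg U₁ hU₁ (SD_congr (EventuallyEq.refl _ _) hae hSD₀)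
  rw [hU₁e] at h3
  have h4 : Tendsto (fun j => ‖dH r (Vc (U (φ j))) - dH r (Vc (V' (φ j)))‖) atTop
      (𝓝 ‖dH r (Vc U₀) - dH r (Vc V)‖) := (hlim.sub (hd.comp hφ.tendsto_atTop)).norm
  exact absurd (ge_of_tendsto' h4 fun j => hfar (φ j)) (not_le.2 h3)

theorem solP_open {s : ℝ} (h0 : 3 / 4 < s) (h2 : s < 2) (h1 : s ≠ 1) {r : ℝ} (hr : 0 < r)
    {M : ℝ} {g : HS} {δ : ℝ} {V : E3 → ℝ} (hV : IsPot r M (Vc V))
    (hg : solP s r M g δ V) : ∃ κ : ℝ, 0 < κ ∧ ∀ V' : E3 → ℝ, IsPot r M (Vc V') →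
      ‖dH r (Vc V') - dH r (Vc V)‖ ≤ κ → solP s r M g δ V' := by
  by_contra hcon
  push Not at hcon
  obtain ⟨V', hV'⟩ := seq_close hcon
  have hbad : ∀ j, ∃ U : E3 → ℝ, IsPot r M (Vc U) ∧ ‖dH r (Vc U) - g‖ ≤ δ ∧
      SD s r (Vc (V' j)) (Vc U) := by
    intro j
    have := (hV' j).2.2
    unfold solP at this
    push Not at this
    exact this
  choose U hU hnear hSD using hbad
  have hd : Tendsto (fun j => dH r (Vc (V' j))) atTop (𝓝 (dH r (Vc V))) :=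
    tendsto_of_le_inv fun j => (hV' j).2.1
  obtain ⟨φ, hφ, U₀, hU₀, hlim, hSD₀⟩ := cptL h0 h2 h1 hr (fun j => (hV' j).1) hU hV hd hSD
  refine hg U₀ hU₀ ?_ hSD₀
  exact le_of_tendsto' (hlim.sub_const g).norm fun j => hnear (φ j)

/-- Simultaneous avoidance of finitely many balls of solutions. -/
theorem avoid {s : ℝ} (h0 : 3 / 4 < s) (h2 : s < 2) (h1 : s ≠ 1) {r : ℝ} (hr : 0 < r)
    {M : ℝ} (hM : 1 ≤ M) {V₁ : E3 → ℝ} (hV₁ : IsPot r (M - 2) (Vc V₁)) {O : Set E3}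
    (hOr : ∀ x ∈ O, ‖x‖ < r) (T : Finset HS) (δ : HS → ℝ) (hδ : ∀ g ∈ T, 0 < δ g)
    (hloc : ∀ g ∈ T, ∀ V : E3 → ℝ, IsPot r (M - 1) (Vc V) →
      (∀ᵐ x ∂(volume : Measure E3), |V x - V₁ x| ≤ δ g) → ∀ ε₁ : ℝ, 0 < ε₁ →
      ∃ W : E3 → ℝ, Measurable W ∧ (∀ x, |W x| ≤ ε₁) ∧ (∀ x, x ∉ O → W x = 0) ∧
        solP s r M g (δ g) (fun x => V x + W x)) :
    ∀ ε : ℝ, 0 < ε → ε ≤ 1 → (∀ g ∈ T, ε ≤ δ g) → ∃ W : E3 → ℝ, Measurable W ∧
      (∀ x, |W x| ≤ ε) ∧ (∀ x, x ∉ O → W x = 0) ∧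
      ∀ g ∈ T, solP s r M g (δ g) (fun x => V₁ x + W x) := by
  classical
  have hV₁m := Vc_meas hV₁
  have hpot : ∀ (W : E3 → ℝ) (κ : ℝ), Measurable W → (∀ x, |W x| ≤ κ) →
      (∀ x, x ∉ O → W x = 0) → IsPot r (M - 2 + κ) (Vc fun x => V₁ x + W x) := by
    intro W κ hWm hWb hWO
    refine pot_Vc (hV₁m.add hWm) (fun x => ?_) (fun x hx => ?_)
    · exact (abs_add_le _ _).trans (add_le_add (Vc_bd hV₁ x) (hWb x))
    · rw [Vc_van hV₁ x hx, hWO x fun h => absurd (hOr x h) (not_lt.2 hx), add_zero]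
  induction T using Finset.induction_on with
  | empty =>
    intro ε hε _ _
    refine ⟨fun _ => 0, measurable_const, fun x => ?_, fun _ _ => rfl, fun g hg => ?_⟩
    · rw [abs_zero]
      exact hε.le
    · exact absurd hg (Finset.notMem_empty g)
  | insert g T hgT ih =>
    intro ε hε hε1 hεδ
    obtain ⟨W, hWm, hWb, hWO, hWs⟩ := ih (fun g' hg' => hδ g' (Finset.mem_insert_of_mem hg'))
      (fun g' hg' => hloc g' (Finset.mem_insert_of_mem hg')) (ε / 2) (by linarith) (by linarith)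
      (fun g' hg' => by linarith [hεδ g' (Finset.mem_insert_of_mem hg')])
    have hp := hpot W (ε / 2) hWm hWb hWO
    have hpM : IsPot r M (Vc fun x => V₁ x + W x) := hp.mono (by linarith)
    -- a uniform radius
    obtain ⟨κ, hκ, hκs⟩ : ∃ κ : ℝ, 0 < κ ∧ ∀ g' ∈ T, ∀ V' : E3 → ℝ, IsPot r M (Vc V') →
        ‖dH r (Vc V') - dH r (Vc fun x => V₁ x + W x)‖ ≤ κ → solP s r M g' (δ g') V' := by
      choose! κ hκ hκs using fun (g' : HS) (hg' : g' ∈ T) =>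
        solP_open h0 h2 h1 hr hpM (hWs g' hg')
      by_cases hT : T.Nonempty
      · obtain ⟨g₀, hg₀, hmin⟩ := Finset.exists_min_image T κ hT
        exact ⟨κ g₀, hκ g₀ hg₀, fun g' hg' V' hV' hd => hκs g' hg' V' hV'
          (hd.trans (hmin g' hg'))⟩
      · rw [Finset.not_nonempty_iff_eq_empty] at hT
        subst hT
        exact ⟨1, one_pos, fun g' hg' => absurd hg' (Finset.notMem_empty g')⟩
    have hone : (0 : ℝ) < ‖oneB r‖ + 1 := by positivity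
    have hδg : ∀ᵐ x ∂(volume : Measure E3), |(V₁ x + W x) - V₁ x| ≤ δ g := by
      refine Eventually.of_forall fun x => ?_
      rw [add_sub_cancel_left]
      linarith [hWb x, hεδ g (Finset.mem_insert_self g T)]
    obtain ⟨W', hW'm, hW'b, hW'O, hW's⟩ := hloc g (Finset.mem_insert_self g T)
      (fun x => V₁ x + W x) (hp.mono (by linarith)) hδg (min (ε / 2) (κ / (‖oneB r‖ + 1)))
      (lt_min (by linarith) (div_pos hκ hone))
    have hWW : ∀ x, |W x + W' x| ≤ ε := by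
      intro x
      have e1 := hWb x
      have e2 := (hW'b x).trans (min_le_left _ _)
      have e3 := abs_add_le (W x) (W' x)
      linarith
    have hWWO : ∀ x, x ∉ O → W x + W' x = 0 := by
      intro x hx
      rw [hWO x hx, hW'O x hx, add_zero]
    have hadd : (fun x => V₁ x + (W x + W' x)) = fun x => V₁ x + W x + W' x := by
      funext x
      ring
    have hpWW : IsPot r M (Vc fun x => V₁ x + W x + W' x) := by
      have := hpot (fun x => W x + W' x) ε (hWm.add hW'm) hWW hWWO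
      rw [hadd] at this
      exact this.mono (by linarith)
    refine ⟨fun x => W x + W' x, hWm.add hW'm, hWW, hWWO, fun g' hg' => ?_⟩
    rw [hadd]
    rcases Finset.mem_insert.1 hg' with rfl | hg'T
    · exact hW's
    · refine hκs g' hg'T _ hpWW ?_
      have hb : ∀ᵐ x ∂(volume : Measure E3), ‖Vc (fun x => V₁ x + W x + W' x) x -
          Vc (fun x => V₁ x + W x) x‖ ≤ κ / (‖oneB r‖ + 1) := by
        refine Eventually.of_forall fun x => ?_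
        rw [Vc, Vc, ← Complex.ofReal_sub, Complex.norm_real, Real.norm_eq_abs,
          add_sub_cancel_left]
        exact (hW'b x).trans (min_le_right _ _)
      refine (dH_sub_le hpWW hpM (div_pos hκ hone).le hb).trans ?_
      rw [div_mul_eq_mul_div, div_le_iff₀ hone]
      exact mul_le_mul_of_nonneg_left (by linarith) hκ.le

theorem denseF {s : ℝ} (h0 : 3 / 4 < s) (h2 : s < 2) (h1 : s ≠ 1) {r : ℝ} (hr : 0 < r)
    {M K : ℝ} (hM : 1 ≤ M) (hK : KOK s r M K) {V₁ : E3 → ℝ} (hV₁ : IsPot r (M - 2) (Vc V₁))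
    {y₀ : E3} {c : ℝ} (hy₀ : ‖y₀‖ < r) (hc : 0 < c)
    (hc₁ : ∀ᵐ x ∂(volume : Measure E3), x ∉ cone y₀ c → V₁ x = 0) {ρ : ℝ} (hρ : ρ ≠ 0) {δ₀ : ℝ}
    (hδ₀ : 0 < δ₀) (htip : ∀ᵐ x ∂(volume : Measure E3), ‖x - y₀‖ < δ₀ →
      V₁ x = (oct y₀).indicator (fun _ => ρ) x)
    {O : Set E3} (hO : IsOpen O) (hOne : O.Nonempty) (hOr : ∀ x ∈ O, ‖x‖ < r)
    (hOlt : ∀ x ∈ O, ⟪dv, x⟫_ℝ < ⟪dv, y₀⟫_ℝ) {n : ℕ} (hn : (n : ℝ) ≤ M) :
    ∀ ε : ℝ, 0 < ε → ∃ W : E3 → ℝ, Measurable W ∧ (∀ x, |W x| ≤ ε) ∧ (∀ x, x ∉ O → W x = 0) ∧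
      goodN s r n (fun x => V₁ x + W x) := by
  classical
  intro ε hε
  have hV₁m := Vc_meas hV₁
  have hV₁M : IsPot r M (Vc V₁) := hV₁.mono (by linarith)
  -- the bad solutions
  set B : Set HS := {g | ∃ U : E3 → ℝ, IsPot r n (Vc U) ∧ SD s r (Vc V₁) (Vc U) ∧
    1 / ((n : ℝ) + 1) ≤ ‖dH r (Vc U) - dH r (Vc V₁)‖ ∧ dH r (Vc U) = g} with hB
  have hBc : IsCompact B := by
    refine IsSeqCompact.isCompact ?_
    intro g hg
    choose U hU hSD hfar hUg using hg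
    obtain ⟨φ, hφ, U₀, hU₀, hlim, hSD₀⟩ := cptL h0 h2 h1 hr (fun _ => hV₁M)
      (fun j => (hU j).mono hn) hV₁M tendsto_const_nhds hSD
    obtain ⟨U₁, hU₁, hU₁e⟩ := rep_pot (Nat.cast_nonneg n) (fun j => hU (φ j)) hlim
    have hae : Vc U₀ =ᵐ[volume] Vc U₁ := dH_inj hU₀ hU₁ hU₁e.symm
    refine ⟨dH r (Vc U₀), ⟨U₁, hU₁, SD_congr (EventuallyEq.refl _ _) hae hSD₀, ?_, hU₁e⟩, φ, hφ,
      ?_⟩
    · rw [hU₁e]
      exact ge_of_tendsto' (hlim.sub_const _).norm fun j => hfar (φ j)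
    · refine hlim.congr fun j => ?_
      rw [hUg (φ j)]
      rfl
  -- the local radii
  have hloc : ∀ g ∈ B, ∃ δ : ℝ, 0 < δ ∧ ∀ V : E3 → ℝ, IsPot r (M - 1) (Vc V) →
      (∀ᵐ x ∂(volume : Measure E3), |V x - V₁ x| ≤ δ) → ∀ ε₁ : ℝ, 0 < ε₁ →
      ∃ W : E3 → ℝ, Measurable W ∧ (∀ x, |W x| ≤ ε₁) ∧ (∀ x, x ∉ O → W x = 0) ∧
        solP s r M g δ (fun x => V x + W x) := by
    rintro g ⟨U, hU, hSD, hfar, rfl⟩
    have hUM : IsPot r M (Vc U) := hU.mono hn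
    have hne : ¬ V₁ =ᵐ[volume] U := by
      intro h
      have h' : Vc U =ᵐ[volume] Vc V₁ := by
        filter_upwards [h] with x hx
        rw [Vc, Vc, hx]
      rw [dH_congr hUM hV₁M h', sub_self, norm_zero] at hfar
      have : 0 < 1 / ((n : ℝ) + 1) := by positivity
      linarith
    obtain ⟨δ, hδ, hL⟩ := localL h0 h2 h1 hr hM hK hV₁M hUM hne hSD hy₀ hc hc₁ hρ hδ₀ htip hO hOne
      hOr hOlt
    refine ⟨δ, hδ, fun V hV hVδ ε₁ hε₁ => ?_⟩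
    obtain ⟨W, hWm, hWb, hWO, hWs⟩ := hL V hV hVδ ε₁ hε₁
    exact ⟨W, hWm, hWb, hWO, fun U' hU' hd => hWs U' hU' hd⟩
  choose! δ hδ hloc' using hloc
  obtain ⟨T, hTB, hTc⟩ := hBc.elim_nhds_subcover (fun g => Metric.ball g (δ g))
    (fun g hg => Metric.ball_mem_nhds g (hδ g hg))
  -- the smallest radius
  obtain ⟨δm, hδm, hδmT⟩ : ∃ δm : ℝ, 0 < δm ∧ ∀ g ∈ T, δm ≤ δ g := by
    by_cases hT : T.Nonempty
    · obtain ⟨g₀, hg₀, hmin⟩ := Finset.exists_min_image T δ hT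
      exact ⟨δ g₀, hδ g₀ (hTB g₀ hg₀), hmin⟩
    · rw [Finset.not_nonempty_iff_eq_empty] at hT
      subst hT
      exact ⟨1, one_pos, fun g' hg' => absurd hg' (Finset.notMem_empty g')⟩
  have hav := avoid h0 h2 h1 hr hM hV₁ hOr T δ (fun g hg => hδ g (hTB g hg))
    (fun g hg => hloc' g (hTB g hg))
  by_contra hcon
  push Not at hcon
  have hseq : ∀ κ : ℝ, 0 < κ → ∃ W : E3 → ℝ, Measurable W ∧ (∀ x, |W x| ≤ κ) ∧
      (∀ x, |W x| ≤ 1) ∧ (∀ x, x ∉ O → W x = 0) ∧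
      (∀ g ∈ T, solP s r M g (δ g) (fun x => V₁ x + W x)) ∧
      ¬ goodN s r n (fun x => V₁ x + W x) := by
    intro κ hκ
    obtain ⟨W, hWm, hWb, hWO, hWs⟩ := hav (min (min κ ε) (min 1 δm))
      (lt_min (lt_min hκ hε) (lt_min one_pos hδm)) ((min_le_right _ _).trans (min_le_left _ _))
      (fun g hg => ((min_le_right _ _).trans (min_le_right _ _)).trans (hδmT g hg))
    refine ⟨W, hWm, fun x => (hWb x).trans ((min_le_left _ _).trans (min_le_left _ _)),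
      fun x => (hWb x).trans ((min_le_right _ _).trans (min_le_left _ _)), hWO, hWs, ?_⟩
    exact hcon W hWm (fun x => (hWb x).trans ((min_le_left _ _).trans (min_le_right _ _))) hWO
  obtain ⟨W, hW⟩ := seq_close hseq
  have hpW : ∀ j, IsPot r M (Vc fun x => V₁ x + W j x) := by
    intro j
    refine pot_Vc (hV₁m.add (hW j).1) (fun x => ?_) (fun x hx => ?_)
    · have e1 := Vc_bd hV₁ x
      have e2 := (hW j).2.2.1 x
      have e3 := abs_add_le (V₁ x) (W j x)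
      linarith
    · rw [Vc_van hV₁ x hx, (hW j).2.2.2.1 x fun h => absurd (hOr x h) (not_lt.2 hx), add_zero]
  have hbad : ∀ j, ∃ U : E3 → ℝ, IsPot r n (Vc U) ∧ SD s r (Vc fun x => V₁ x + W j x) (Vc U) ∧
      1 / ((n : ℝ) + 1) ≤ ‖dH r (Vc U) - dH r (Vc fun x => V₁ x + W j x)‖ := by
    intro j
    have := (hW j).2.2.2.2.2
    unfold goodN at this
    push Not at this
    exact this
  choose U hU hSD hfar using hbad
  have hd : Tendsto (fun j => dH r (Vc fun x => V₁ x + W j x)) atTop (𝓝 (dH r (Vc V₁))) := by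
    rw [tendsto_iff_norm_sub_tendsto_zero]
    have h3 : Tendsto (fun j : ℕ => 1 / ((j : ℝ) + 1) * ‖oneB r‖) atTop (𝓝 0) := by
      have := tendsto_inv_nat.mul_const ‖oneB r‖
      rwa [zero_mul] at this
    refine squeeze_zero (fun _ => norm_nonneg _) (fun j => ?_) h3
    refine dH_sub_le (hpW j) hV₁M (by positivity) (Eventually.of_forall fun x => ?_)
    rw [Vc, Vc, ← Complex.ofReal_sub, Complex.norm_real, Real.norm_eq_abs, add_sub_cancel_left]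
    exact (hW j).2.1 x
  obtain ⟨φ, hφ, U₀, hU₀, hlim, hSD₀⟩ := cptL h0 h2 h1 hr hpW (fun j => (hU j).mono hn) hV₁M hd hSD
  obtain ⟨U₁, hU₁, hU₁e⟩ := rep_pot (Nat.cast_nonneg n) (fun j => hU (φ j)) hlim
  have hae : Vc U₀ =ᵐ[volume] Vc U₁ := dH_inj hU₀ hU₁ hU₁e.symm
  have h4 : Tendsto (fun j => ‖dH r (Vc (U (φ j))) - dH r (Vc fun x => V₁ x + W (φ j) x)‖) atTop
      (𝓝 ‖dH r (Vc U₀) - dH r (Vc V₁)‖) := (hlim.sub (hd.comp hφ.tendsto_atTop)).norm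
  have h5 := ge_of_tendsto' h4 fun j => hfar (φ j)
  have hmemB : dH r (Vc U₀) ∈ B :=
    ⟨U₁, hU₁, SD_congr (EventuallyEq.refl _ _) hae hSD₀, by rw [hU₁e]; exact h5, hU₁e⟩
  obtain ⟨g, hgT, hgU⟩ := mem_iUnion₂.1 (hTc hmemB)
  have h6 : ∀ᶠ j in atTop, dH r (Vc (U (φ j))) ∈ Metric.ball g (δ g) :=
    hlim.eventually (Metric.isOpen_ball.mem_nhds hgU)
  obtain ⟨j, hj⟩ := h6.exists
  rw [Metric.mem_ball, dist_eq_norm] at hj
  exact (hW (φ j)).2.2.2.2.1 g hgT (U (φ j)) ((hU (φ j)).mono hn) hj.le (hSD (φ j))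

end FracScatC

end
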