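import Pool.Agent.Lib.MP_6e2ba5_an.Dx.Defs

/-! # Compactness in `L²` of the ball

Functions in `HB r` with bounded norms: `F_n = ftX (w n)` are uniformly bounded (`‖w‖_{L¹} ≤ ‖1_B‖ ‖w‖`) and uniformly
Lipschitz (`|F(ξ) - F(ξ')| ≤ ∫ |exp(-2πi (ξ-ξ')·x) - 1| |w| ≤ 2π r |ξ-ξ'| ‖w‖_{L¹}`). By Arzela-Ascoli (on closed balls
and a diagonal sequence, or in `C(E3, ℂ)`; or: a diagonal sequence converging at the points of a countable dense set,
then equicontinuity) a subsequence converges locally uniformly. Plancherel: `‖w_n - w_m‖² = ∫ |F_n - F_m|²`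
`= 8 ∫ |(F_n - F_m)(-2ξ)|² dξ`; the part `‖ξ‖ < N` tends to `0`, the part `‖ξ‖ ≥ N` is at most `32 ε`. So the subsequence
is Cauchy; `HB r` is closed. -/

set_option autoImplicit false

open MeasureTheory Filter Topology Set
open scoped FourierTransform SchwartzMap InnerProductSpace ENNReal BoundedContinuousFunction

noncomputable section

namespace FracScatC

open FracScat

private theorem cmp_integral {r : ℝ} {W : HS} (hW : W ∈ HB r) (η : E3) :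
    ftX W η = ∫ x, (eH r (-η) : E3 → ℂ) x * (W : E3 → ℂ) x := by
  rw [ftX_apply (HB_integrable hW), Real.fourier_eq']
  have h1 : (W : E3 → ℂ) =ᵐ[volume] fun x => indB r x * (W : E3 → ℂ) x := by
    have h2 := mulL_coe (indB_BM r) W
    rw [mem_HB.1 hW] at h2
    exact h2
  refine integral_congr_ae ?_
  filter_upwards [h1, eH_coe r (-η)] with x hx h2
  have h3 : efun (-η) x * indB r x * (W : E3 → ℂ) x = efun (-η) x * (W : E3 → ℂ) x := by
    rw [mul_assoc, ← hx]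
  rw [h2, h3, smul_eq_mul, efun]
  congr 2
  rw [inner_neg_left, real_inner_comm η x]
  push_cast
  ring

private theorem cmp_norm {r : ℝ} {W : HS} (hW : W ∈ HB r) (η : E3) :
    ‖ftX W η‖ ≤ ‖oneB r‖ * ‖W‖ := by
  rw [cmp_integral hW]
  exact (norm_integral_mul_le _ _).trans
    (mul_le_mul_of_nonneg_right (norm_eH_le r _) (norm_nonneg _))

private theorem cmp_sq {r : ℝ} {W W' : HS} (hW : W ∈ HB r) (hW' : W' ∈ HB r) :
    ‖W - W'‖ₑ ^ 2 = ∫⁻ η, ‖ftX W η - ftX W' η‖ₑ ^ 2 := by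
  have e1 : ∫⁻ η, ‖ftX W η - ftX W' η‖ₑ ^ 2 = ∫⁻ η, ‖(FT (W - W') : E3 → ℂ) η‖ₑ ^ 2 := by
    refine lintegral_congr_ae ?_
    have h0 : FT (W - W') = FT W - FT W' := map_sub FT W W'
    rw [h0]
    filter_upwards [FT_eq_ftX (HB_integrable hW), FT_eq_ftX (HB_integrable hW'),
      Lp.coeFn_sub (FT W) (FT W')] with ζ a b c
    rw [c, Pi.sub_apply, a, b]
  have e2 : ‖W - W'‖ₑ = ‖FT (W - W')‖ₑ := by
    rw [← ofReal_norm, ← ofReal_norm, LinearIsometryEquiv.norm_map]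
  rw [e1, e2, Lp.enorm_def, eLpNorm_eq_lintegral_rpow_enorm_toReal (by norm_num) (by norm_num),
    ENNReal.toReal_ofNat]
  have h1 : ∀ ζ : E3, ‖(FT (W - W') : E3 → ℂ) ζ‖ₑ ^ (2 : ℝ) =
    ‖(FT (W - W') : E3 → ℂ) ζ‖ₑ ^ 2 := fun ζ => ENNReal.rpow_two _
  simp only [h1]
  rw [← ENNReal.rpow_two, ← ENNReal.rpow_mul]
  norm_num

private theorem cmp_tri (a b c : ℂ) : ‖a - b‖ₑ ^ 2 ≤ 2 * ‖a - c‖ₑ ^ 2 + 2 * ‖b - c‖ₑ ^ 2 := by
  have h2 : (2 : ℝ≥0∞) = ENNReal.ofReal 2 := by simp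
  rw [h2, ← ofReal_norm, ← ofReal_norm, ← ofReal_norm, ← ENNReal.ofReal_pow (norm_nonneg _),
    ← ENNReal.ofReal_pow (norm_nonneg _), ← ENNReal.ofReal_pow (norm_nonneg _),
    ← ENNReal.ofReal_mul (by norm_num), ← ENNReal.ofReal_mul (by norm_num),
    ← ENNReal.ofReal_add (by positivity) (by positivity)]
  apply ENNReal.ofReal_le_ofReal
  have h : ‖a - b‖ ≤ ‖a - c‖ + ‖b - c‖ := by
    have := norm_sub_le (a - c) (b - c)
    rwa [sub_sub_sub_cancel_right] at this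
  nlinarith [norm_nonneg (a - b), norm_nonneg (a - c), norm_nonneg (b - c),
    sq_nonneg (‖a - c‖ - ‖b - c‖)]

private theorem cmp_J1E {g : E3 → ℝ≥0∞} (hg : Measurable g) :
    ∫⁻ η : E3, g η = 8 * ∫⁻ ξ : E3, g (-(2 : ℝ) • ξ) := by
  have hm : Measurable (fun ξ : E3 => (-(2 : ℝ)) • ξ) := measurable_const_smul _
  have h1 : ∫⁻ ξ : E3, g (-(2 : ℝ) • ξ) =
      ∫⁻ η, g η ∂(Measure.map (fun ξ : E3 => (-(2 : ℝ)) • ξ) volume) :=
    (lintegral_map hg hm).symm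
  have h2 : Measure.map (fun ξ : E3 => (-(2 : ℝ)) • ξ) volume =
      ENNReal.ofReal |((-(2 : ℝ)) ^ (Module.finrank ℝ E3))⁻¹| • (volume : Measure E3) :=
    Measure.map_addHaar_smul volume (by norm_num)
  have h3 : Module.finrank ℝ E3 = 3 := by simp
  have h4 : |((-(2 : ℝ)) ^ 3)⁻¹| = 1 / 8 := by
    rw [abs_inv, abs_pow, abs_neg]; norm_num
  rw [h1, h2, h3, h4, lintegral_smul_measure, smul_eq_mul, ← mul_assoc]
  have h5 : (8 : ℝ≥0∞) * ENNReal.ofReal (1 / 8) = 1 := by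
    rw [show (8 : ℝ≥0∞) = ENNReal.ofReal 8 by simp, ← ENNReal.ofReal_mul (by norm_num)]
    norm_num
  rw [h5, one_mul]

private theorem cmp_tail (F : XB) (N : ℝ) :
    ∫⁻ η in {η : E3 | 2 * N ≤ ‖η‖}, ‖F η‖ₑ ^ 2 =
      8 * ∫⁻ ξ in {ξ : E3 | N ≤ ‖ξ‖}, ‖F (-(2 : ℝ) • ξ)‖ₑ ^ 2 := by
  have hFm : Measurable (fun η : E3 => ‖F η‖ₑ ^ 2) := by
    have := F.continuous.measurable
    fun_prop
  have hm1 : MeasurableSet {η : E3 | 2 * N ≤ ‖η‖} := measurableSet_le measurable_const measurable_norm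
  have hm2 : MeasurableSet {η : E3 | N ≤ ‖η‖} := measurableSet_le measurable_const measurable_norm
  rw [← lintegral_indicator hm1, ← lintegral_indicator hm2, cmp_J1E (hFm.indicator hm1)]
  congr 1
  refine lintegral_congr fun ξ => ?_
  have hn : ‖(-(2 : ℝ)) • ξ‖ = 2 * ‖ξ‖ := by
    rw [norm_smul]
    norm_num
  by_cases h : N ≤ ‖ξ‖
  · rw [Set.indicator_of_mem (by
      show 2 * N ≤ ‖(-(2 : ℝ)) • ξ‖
      rw [hn]; linarith), Set.indicator_of_mem (by exact h)]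
  · rw [Set.indicator_of_notMem (by
      show ¬ (2 * N ≤ ‖(-(2 : ℝ)) • ξ‖)
      rw [hn]; intro h'; exact h (by linarith)), Set.indicator_of_notMem (by exact h)]

/-- A subsequence converges pointwise. -/
private theorem cmp_sub {F : ℕ → E3 → ℂ} {C L : ℝ} (hL : 0 ≤ L)
    (hC : ∀ n η, ‖F n η‖ ≤ C) (hF : ∀ n η η', ‖F n η - F n η'‖ ≤ L * ‖η - η'‖) :
    ∃ φ : ℕ → ℕ, StrictMono φ ∧ ∃ F₀ : E3 → ℂ, ∀ η, Tendsto (fun n => F (φ n) η) atTop (𝓝 (F₀ η)) := by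
  set D : ℕ → E3 := TopologicalSpace.denseSeq E3 with hD
  have hK : IsCompact (Set.pi univ (fun _ : ℕ => Metric.closedBall (0 : ℂ) C)) :=
    isCompact_univ_pi fun _ => isCompact_closedBall 0 C
  obtain ⟨a, -, φ, hφ, hlim⟩ := hK.tendsto_subseq (x := fun n i => F n (D i)) (fun n => by
    rw [Set.mem_univ_pi]
    intro i
    rw [mem_closedBall_zero_iff]
    exact hC n (D i))
  have hpt : ∀ i, Tendsto (fun n => F (φ n) (D i)) atTop (𝓝 (a i)) := by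
    rw [tendsto_pi_nhds] at hlim
    exact hlim
  have hcau : ∀ η : E3, CauchySeq (fun n => F (φ n) η) := by
    intro η
    rw [Metric.cauchySeq_iff']
    intro ε hε
    obtain ⟨i, hi⟩ := (TopologicalSpace.denseRange_denseSeq E3).exists_dist_lt η
      (show 0 < ε / (3 * (L + 1)) by positivity)
    have hc := (hpt i).cauchySeq
    rw [Metric.cauchySeq_iff'] at hc
    obtain ⟨N, hN⟩ := hc (ε / 3) (by positivity)
    refine ⟨N, fun n hn => ?_⟩
    have h1 := hN n hn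
    rw [dist_eq_norm] at h1 hi ⊢
    have hLi : L * ‖η - D i‖ < ε / 3 := by
      have h5 : L * ‖η - D i‖ ≤ (L + 1) * ‖η - D i‖ := by
        have := norm_nonneg (η - D i)
        nlinarith
      have h6 : (L + 1) * ‖η - D i‖ < (L + 1) * (ε / (3 * (L + 1))) :=
        mul_lt_mul_of_pos_left hi (by positivity)
      have h7 : (L + 1) * (ε / (3 * (L + 1))) = ε / 3 := by
        field_simp
      linarith
    have h2 := (hF (φ n) η (D i)).trans_lt hLi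
    have h3 := (hF (φ N) η (D i)).trans_lt hLi
    have h4 : F (φ n) η - F (φ N) η = (F (φ n) η - F (φ n) (D i)) +
        (F (φ n) (D i) - F (φ N) (D i)) - (F (φ N) η - F (φ N) (D i)) := by ring
    rw [h4]
    refine (norm_sub_le _ _).trans_lt ?_
    have := norm_add_le (F (φ n) η - F (φ n) (D i)) (F (φ n) (D i) - F (φ N) (D i))
    linarith
  have hex : ∀ η : E3, ∃ z : ℂ, Tendsto (fun n => F (φ n) η) atTop (𝓝 z) := fun η =>
    cauchySeq_tendsto_of_complete (hcau η)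
  choose F₀ hF₀ using hex
  exact ⟨φ, hφ, F₀, hF₀⟩

/-- Convergence of the integrals over balls. -/
private theorem cmp_ball {F : ℕ → E3 → ℂ} {F₀ : E3 → ℂ} {C : ℝ} (hFc : ∀ n, Continuous (F n))
    (hC : ∀ n η, ‖F n η‖ ≤ C) (hlim : ∀ η, Tendsto (fun n => F n η) atTop (𝓝 (F₀ η))) (R : ℝ) :
    Measurable F₀ ∧
      Tendsto (fun n => ∫⁻ η in {η : E3 | ‖η‖ < R}, ‖F n η - F₀ η‖ₑ ^ 2) atTop (𝓝 0) := by
  have hC0 : 0 ≤ C := (norm_nonneg _).trans (hC 0 0)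
  have hm : Measurable F₀ :=
    measurable_of_tendsto_metrizable (fun n => (hFc n).measurable) (tendsto_pi_nhds.2 hlim)
  refine ⟨hm, ?_⟩
  have hC₀ : ∀ η, ‖F₀ η‖ ≤ C := fun η =>
    le_of_tendsto' ((continuous_norm.tendsto _).comp (hlim η)) (fun n => hC n η)
  have hset : {η : E3 | ‖η‖ < R} = Metric.ball (0 : E3) R := by
    ext η
    simp
  have h := tendsto_lintegral_of_dominated_convergence
    (μ := (volume : Measure E3).restrict {η : E3 | ‖η‖ < R})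
    (F := fun n η => ‖F n η - F₀ η‖ₑ ^ 2) (f := fun _ => 0)
    (fun _ => ENNReal.ofReal ((2 * C) ^ 2)) (fun n => by
      have := (hFc n).measurable
      fun_prop) (fun n => Eventually.of_forall fun η => by
      show ‖F n η - F₀ η‖ₑ ^ 2 ≤ ENNReal.ofReal ((2 * C) ^ 2)
      rw [← ofReal_norm, ← ENNReal.ofReal_pow (norm_nonneg _)]
      apply ENNReal.ofReal_le_ofReal
      have h1 : ‖F n η - F₀ η‖ ≤ 2 * C := by
        have := norm_sub_le (F n η) (F₀ η)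
        have h2 := hC n η
        have h3 := hC₀ η
        linarith
      exact pow_le_pow_left₀ (norm_nonneg _) h1 2) (by
      rw [lintegral_const, Measure.restrict_apply_univ, hset]
      exact ENNReal.mul_ne_top ENNReal.ofReal_ne_top measure_ball_lt_top.ne)
      (Eventually.of_forall fun η => by
        have h1 : Tendsto (fun n => F n η - F₀ η) atTop (𝓝 (F₀ η - F₀ η)) :=
          (hlim η).sub tendsto_const_nhds
        rw [sub_self] at h1
        have h2 : Tendsto (fun n => ‖F n η - F₀ η‖ₑ ^ 2) atTop (𝓝 (‖(0 : ℂ)‖ₑ ^ 2)) :=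
          ((ENNReal.continuous_pow 2).tendsto _).comp ((continuous_enorm.tendsto _).comp h1)
        simpa using h2)
  simpa using h

theorem cmpct {r : ℝ} (hr : 0 < r) {w : ℕ → HS} (hw : ∀ n, w n ∈ HB r) {A : ℝ}
    (hA : ∀ n, ‖w n‖ ≤ A) (ht : ∀ ε : ℝ, 0 < ε → ∃ N : ℝ, ∀ᶠ n : ℕ in atTop,
      ∫⁻ ξ in {ξ : E3 | N ≤ ‖ξ‖}, ‖ftX (w n) (-(2 : ℝ) • ξ)‖ₑ ^ 2 ≤ ENNReal.ofReal ε) :
    ∃ φ : ℕ → ℕ, StrictMono φ ∧ ∃ w₀ ∈ HB r, Tendsto (w ∘ φ) atTop (𝓝 w₀) := by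
  obtain ⟨L, hL, hlip⟩ := bernstein hr
  have hA0 : 0 ≤ A := (norm_nonneg _).trans (hA 0)
  set C : ℝ := ‖oneB r‖ * A with hCdef
  have hC0 : 0 ≤ C := by positivity
  have hC : ∀ n η, ‖ftX (w n) η‖ ≤ C := fun n η =>
    (cmp_norm (hw n) η).trans (mul_le_mul_of_nonneg_left (hA n) (norm_nonneg _))
  have hCn : ∀ n, ‖ftX (w n)‖ ≤ C := fun n =>
    (BoundedContinuousFunction.norm_le hC0).2 fun η => hC n η
  have hF : ∀ n η η', ‖ftX (w n) η - ftX (w n) η'‖ ≤ (L * C) * ‖η - η'‖ := by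
    intro n η η'
    refine (hlip (w n) (hw n) η η').trans ?_
    have h1 : L * ‖η - η'‖ * ‖ftX (w n)‖ ≤ L * ‖η - η'‖ * C :=
      mul_le_mul_of_nonneg_left (hCn n) (by positivity)
    refine h1.trans (le_of_eq ?_)
    ring
  obtain ⟨φ, hφ, F₀, hF₀⟩ := cmp_sub (F := fun n η => ftX (w n) η) (by positivity) hC hF
  have hball := cmp_ball (F := fun n η => ftX (w (φ n)) η) (fun n => (ftX (w (φ n))).continuous)
    (fun n η => hC (φ n) η) hF₀
  have hF₀m : Measurable F₀ := (hball 0).1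
  have hcau : CauchySeq (w ∘ φ) := by
    rw [Metric.cauchySeq_iff]
    intro ε hε
    set ε' : ℝ := ε ^ 2 / 72 with hε'
    have hε'0 : 0 < ε' := by positivity
    obtain ⟨N, hN⟩ := ht ε' hε'0
    have h1 : ∀ᶠ n : ℕ in atTop, ∫⁻ ξ in {ξ : E3 | N ≤ ‖ξ‖},
        ‖ftX (w (φ n)) (-(2 : ℝ) • ξ)‖ₑ ^ 2 ≤ ENNReal.ofReal ε' :=
      hφ.tendsto_atTop.eventually hN
    have h2 : ∀ᶠ n : ℕ in atTop, ∫⁻ η in {η : E3 | ‖η‖ < 2 * N},
        ‖ftX (w (φ n)) η - F₀ η‖ₑ ^ 2 ≤ ENNReal.ofReal ε' := by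
      have := (hball (2 * N)).2.eventually (ge_mem_nhds (show (0 : ℝ≥0∞) < ENNReal.ofReal ε' by
        rw [ENNReal.ofReal_pos]; exact hε'0))
      exact this
    obtain ⟨n₀, hn₀⟩ := eventually_atTop.1 (h1.and h2)
    refine ⟨n₀, fun m hm n hn => ?_⟩
    obtain ⟨hm1, hm2⟩ := hn₀ m hm
    obtain ⟨hn1, hn2⟩ := hn₀ n hn
    have hS : MeasurableSet {η : E3 | ‖η‖ < 2 * N} := measurableSet_lt measurable_norm measurable_const
    have hcompl : {η : E3 | ‖η‖ < 2 * N}ᶜ = {η : E3 | 2 * N ≤ ‖η‖} := by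
      ext η
      simp
    have hmm : Measurable (fun η : E3 => ftX (w (φ m)) η) := (ftX (w (φ m))).continuous.measurable
    have hmn : Measurable (fun η : E3 => ftX (w (φ n)) η) := (ftX (w (φ n))).continuous.measurable
    have hkey : ‖w (φ m) - w (φ n)‖ₑ ^ 2 ≤ ENNReal.ofReal (36 * ε') := by
      rw [cmp_sq (hw (φ m)) (hw (φ n)), ← lintegral_add_compl _ hS, hcompl]
      have k1 : ∫⁻ η in {η : E3 | ‖η‖ < 2 * N}, ‖ftX (w (φ m)) η - ftX (w (φ n)) η‖ₑ ^ 2 ≤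
          2 * ENNReal.ofReal ε' + 2 * ENNReal.ofReal ε' := by
        calc ∫⁻ η in {η : E3 | ‖η‖ < 2 * N}, ‖ftX (w (φ m)) η - ftX (w (φ n)) η‖ₑ ^ 2 ≤
            ∫⁻ η in {η : E3 | ‖η‖ < 2 * N}, (2 * ‖ftX (w (φ m)) η - F₀ η‖ₑ ^ 2 +
              2 * ‖ftX (w (φ n)) η - F₀ η‖ₑ ^ 2) := lintegral_mono fun η => cmp_tri _ _ _
          _ = 2 * (∫⁻ η in {η : E3 | ‖η‖ < 2 * N}, ‖ftX (w (φ m)) η - F₀ η‖ₑ ^ 2) +
              2 * ∫⁻ η in {η : E3 | ‖η‖ < 2 * N}, ‖ftX (w (φ n)) η - F₀ η‖ₑ ^ 2 := by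
            rw [lintegral_add_left (by fun_prop), lintegral_const_mul _ (by fun_prop),
              lintegral_const_mul _ (by fun_prop)]
          _ ≤ _ := by gcongr
      have k2 : ∫⁻ η in {η : E3 | 2 * N ≤ ‖η‖}, ‖ftX (w (φ m)) η - ftX (w (φ n)) η‖ₑ ^ 2 ≤
          2 * (8 * ENNReal.ofReal ε') + 2 * (8 * ENNReal.ofReal ε') := by
        calc ∫⁻ η in {η : E3 | 2 * N ≤ ‖η‖}, ‖ftX (w (φ m)) η - ftX (w (φ n)) η‖ₑ ^ 2 ≤
            ∫⁻ η in {η : E3 | 2 * N ≤ ‖η‖}, (2 * ‖ftX (w (φ m)) η‖ₑ ^ 2 +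
              2 * ‖ftX (w (φ n)) η‖ₑ ^ 2) := lintegral_mono fun η => by
                have := cmp_tri (ftX (w (φ m)) η) (ftX (w (φ n)) η) 0
                rwa [sub_zero, sub_zero] at this
          _ = 2 * (∫⁻ η in {η : E3 | 2 * N ≤ ‖η‖}, ‖ftX (w (φ m)) η‖ₑ ^ 2) +
              2 * ∫⁻ η in {η : E3 | 2 * N ≤ ‖η‖}, ‖ftX (w (φ n)) η‖ₑ ^ 2 := by
            rw [lintegral_add_left (by fun_prop), lintegral_const_mul _ (by fun_prop),
              lintegral_const_mul _ (by fun_prop)]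
          _ ≤ _ := by
            rw [cmp_tail, cmp_tail]
            gcongr
      refine (add_le_add k1 k2).trans (le_of_eq ?_)
      have e2 : (2 : ℝ≥0∞) = ENNReal.ofReal 2 := by simp
      have e8 : (8 : ℝ≥0∞) = ENNReal.ofReal 8 := by simp
      rw [e2, e8, ← ENNReal.ofReal_mul (by norm_num), ← ENNReal.ofReal_mul (by norm_num),
        ← ENNReal.ofReal_mul (by norm_num), ← ENNReal.ofReal_add (by positivity) (by positivity),
        ← ENNReal.ofReal_add (by positivity) (by positivity),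
        ← ENNReal.ofReal_add (by positivity) (by positivity)]
      congr 1
      ring
    rw [← ofReal_norm, ← ENNReal.ofReal_pow (norm_nonneg _),
      ENNReal.ofReal_le_ofReal_iff (by positivity)] at hkey
    rw [dist_eq_norm]
    show ‖w (φ m) - w (φ n)‖ < ε
    refine lt_of_pow_lt_pow_left₀ 2 hε.le (hkey.trans_lt ?_)
    rw [hε']
    have : 0 < ε ^ 2 := by positivity
    linarith
  obtain ⟨w₀, hw₀⟩ := cauchySeq_tendsto_of_complete hcau
  refine ⟨φ, hφ, w₀, ?_, hw₀⟩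
  rw [mem_HB]
  have h1 : Tendsto (fun n => mulL (indB r) ((w ∘ φ) n)) atTop (𝓝 (mulL (indB r) w₀)) :=
    ((mulL (indB r)).continuous.tendsto w₀).comp hw₀
  have h2 : (fun n => mulL (indB r) ((w ∘ φ) n)) = w ∘ φ := by
    funext n
    exact mem_HB.1 (hw (φ n))
  rw [h2] at h1
  exact tendsto_nhds_unique h1 hw₀

end FracScatC

end
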