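import Pool.Agent.Lib.MP_6e2ba5_an.Dx.DirD
import Pool.Agent.Lib.MP_6e2ba5_an.Dx.EcA

/-! # The directions: elementary facts

Direct computations with `dv j = 1/√3`, `bv = (1/√2, -1/√2, 0)`. `cone_dir`: `⟪a, x-y⟫ ≥ ⟪dv, x-y⟫ - (c/2) ‖x-y‖`.
`cube_dir`: `⟪a, y - x⟫ = ∑ a_j (y_j - x_j) ≥ 0`. `oct_cone`: `∑ v_j ≥ ‖v‖` for `v ≥ 0`. -/

set_option autoImplicit false

open MeasureTheory Filter Topology Set
open scoped FourierTransform SchwartzMap InnerProductSpace ENNReal BoundedContinuousFunction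

noncomputable section

namespace FracScatC

open FracScat

private theorem Dir_inner (a x : E3) : ⟪a, x⟫_ℝ = a 0 * x 0 + a 1 * x 1 + a 2 * x 2 := by
  rw [PiLp.inner_apply, Fin.sum_univ_three]
  simp only [RCLike.inner_apply, conj_trivial]
  ring

private theorem Dir_norm_sq (x : E3) : ‖x‖ ^ 2 = x 0 ^ 2 + x 1 ^ 2 + x 2 ^ 2 := by
  rw [← real_inner_self_eq_norm_sq, Dir_inner]
  ring

private theorem Dir_s3 : (1 / Real.sqrt 3) ^ 2 = 1 / 3 := by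
  rw [div_pow, Real.sq_sqrt (by norm_num), one_pow]

private theorem Dir_s2 : (1 / Real.sqrt 2) ^ 2 = 1 / 2 := by
  rw [div_pow, Real.sq_sqrt (by norm_num), one_pow]

private theorem Dir_dv (j : Fin 3) : dv j = 1 / Real.sqrt 3 := rfl

private theorem Dir_bv0 : bv 0 = 1 / Real.sqrt 2 := rfl
private theorem Dir_bv1 : bv 1 = -(1 / Real.sqrt 2) := rfl
private theorem Dir_bv2 : bv 2 = 0 := rfl

theorem norm_dv : ‖dv‖ = 1 := by
  have h : ‖dv‖ ^ 2 = 1 := by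
    rw [Dir_norm_sq, Dir_dv, Dir_dv, Dir_dv, Dir_s3]
    norm_num
  nlinarith [norm_nonneg dv]

theorem norm_bv : ‖bv‖ = 1 := by
  have h : ‖bv‖ ^ 2 = 1 := by
    rw [Dir_norm_sq, Dir_bv0, Dir_bv1, Dir_bv2, neg_sq, Dir_s2]
    norm_num
  nlinarith [norm_nonneg bv]

theorem inner_dv_bv : ⟪dv, bv⟫_ℝ = 0 := by
  rw [Dir_inner, Dir_dv, Dir_dv, Dir_dv, Dir_bv0, Dir_bv1, Dir_bv2]
  ring

private theorem Dir_pos3 : 0 < 1 / Real.sqrt 3 := by positivity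

private theorem Dir_vt_ne (j : Fin 3) : vt j ≠ 0 := by
  intro h
  have h1 := congrArg Complex.re h
  unfold vt at h1
  rw [Dir_dv] at h1
  simp at h1

theorem T0_ne : T0 ≠ 0 := by
  unfold T0
  exact Finset.prod_ne_zero_iff.2 fun j _ => inv_ne_zero (Dir_vt_ne j)

private theorem Dir_c3 : (((1 / Real.sqrt 3 : ℝ) : ℂ)) ^ 2 = 1 / 3 := by
  rw [← Complex.ofReal_pow, Dir_s3]
  push_cast
  ring

private theorem Dir_c2 : (((1 / Real.sqrt 2 : ℝ) : ℂ)) ^ 2 = 1 / 2 := by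
  rw [← Complex.ofReal_pow, Dir_s2]
  push_cast
  ring

theorem em_adm {m : ℝ} (hm : m ≠ 0) (τ : ℝ) : Adm τ (em m ((τ ^ 2 : ℝ) : ℂ)) := by
  unfold Adm
  rw [Fin.sum_univ_three]
  unfold em vt vtb
  rw [Dir_dv, Dir_dv, Dir_dv, Dir_bv0, Dir_bv1, Dir_bv2]
  have hm' : (m : ℂ) ≠ 0 := by exact_mod_cast hm
  set w : ℂ := ((τ ^ 2 : ℝ) : ℂ) with hw
  have h3 := Dir_c3
  have h2 := Dir_c2
  have hI : Complex.I ^ 2 = -1 := Complex.I_sq
  set a : ℂ := ((1 / Real.sqrt 3 : ℝ) : ℂ) with ha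
  set b : ℂ := ((1 / Real.sqrt 2 : ℝ) : ℂ) with hb
  have hb' : ((-(1 / Real.sqrt 2) : ℝ) : ℂ) = -b := by rw [hb]; push_cast; ring
  have h0 : (((0 : ℝ)) : ℂ) = 0 := Complex.ofReal_zero
  rw [hb', h0]
  have e : (-((m : ℂ) * (a - Complex.I * b) + w / (4 * m) * (a + Complex.I * b))) ^ 2 +
      (-((m : ℂ) * (a - Complex.I * -b) + w / (4 * m) * (a + Complex.I * -b))) ^ 2 +
      (-((m : ℂ) * (a - Complex.I * 0) + w / (4 * m) * (a + Complex.I * 0))) ^ 2 =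
      (3 * a ^ 2) * (m + w / (4 * m)) ^ 2 +
        2 * b ^ 2 * Complex.I ^ 2 * (m - w / (4 * m)) ^ 2 := by ring
  rw [e, h3, h2, hI]
  field_simp
  ring

/-- `2η' = η` for `η' = em (m/2) (ω/4)`. -/
theorem em_half {m : ℝ} (hm : m ≠ 0) (ω : ℂ) (j : Fin 3) :
    2 * em (m / 2) (ω / 4) j = em m ω j := by
  unfold em
  have hm' : (m : ℂ) ≠ 0 := by exact_mod_cast hm
  push_cast
  field_simp
  ring

private theorem Dir_cd_em (m : ℝ) (ω : ℂ) (x : E3) :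
    cd (em m ω) x = -((m : ℂ) * ((⟪dv, x⟫_ℝ : ℂ) - Complex.I * (⟪bv, x⟫_ℝ : ℂ)) +
      ω / (4 * m) * ((⟪dv, x⟫_ℝ : ℂ) + Complex.I * (⟪bv, x⟫_ℝ : ℂ))) := by
  unfold cd em vt vtb
  rw [Fin.sum_univ_three, Dir_inner, Dir_inner]
  push_cast
  ring

theorem em_re {m : ℝ} (hm : m ≠ 0) (ω : ℝ) (x : E3) :
    ‖Complex.exp (cd (em m (ω : ℂ)) x)‖ = Real.exp (-((m + ω / (4 * m)) * ⟪dv, x⟫_ℝ)) := by
  rw [Complex.norm_exp, Dir_cd_em]
  congr 1
  have e : (ω : ℂ) / (4 * (m : ℂ)) = ((ω / (4 * m) : ℝ) : ℂ) := by push_cast; ring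
  rw [e]
  simp only [Complex.neg_re, Complex.add_re, Complex.re_ofReal_mul, Complex.sub_re,
    Complex.ofReal_re, Complex.mul_re, Complex.I_re, Complex.I_im, Complex.ofReal_im]
  ring

/-- The deviation from `exp(-m dv·x)` for complex `ω`, `‖ω‖ ≤ m`. -/
theorem em_bd {m : ℝ} (hm : 0 < m) {ω : ℂ} (hω : ‖ω‖ ≤ m) (x : E3) :
    ‖Complex.exp (cd (em m ω) x)‖ ≤ Real.exp (-(m * ⟪dv, x⟫_ℝ)) * Real.exp ‖x‖ := by
  rw [Complex.norm_exp, Dir_cd_em, ← Real.exp_add]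
  apply Real.exp_le_exp.2
  set z : ℂ := ω / (4 * m) * ((⟪dv, x⟫_ℝ : ℂ) + Complex.I * (⟪bv, x⟫_ℝ : ℂ)) with hz
  have h1 : (-((m : ℂ) * ((⟪dv, x⟫_ℝ : ℂ) - Complex.I * (⟪bv, x⟫_ℝ : ℂ)) + z)).re =
      -(m * ⟪dv, x⟫_ℝ) - z.re := by
    simp only [Complex.neg_re, Complex.add_re, Complex.re_ofReal_mul, Complex.sub_re,
      Complex.ofReal_re, Complex.mul_re, Complex.I_re, Complex.I_im, Complex.ofReal_im]
    ring
  rw [h1]
  have h2 : ‖z‖ ≤ ‖x‖ := by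
    rw [hz, norm_mul]
    have h3 : ‖ω / (4 * (m : ℂ))‖ ≤ 1 / 4 := by
      rw [norm_div, norm_mul, Complex.norm_real, Real.norm_of_nonneg hm.le]
      rw [div_le_iff₀ (by simpa using hm)]
      simp only [Complex.norm_ofNat]
      linarith
    have h4 : ‖((⟪dv, x⟫_ℝ : ℂ) + Complex.I * (⟪bv, x⟫_ℝ : ℂ))‖ ≤ 2 * ‖x‖ := by
      refine (norm_add_le _ _).trans ?_
      rw [norm_mul, Complex.norm_I, one_mul, Complex.norm_real, Complex.norm_real]
      have h5 := norm_inner_le_norm (𝕜 := ℝ) dv x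
      have h6 := norm_inner_le_norm (𝕜 := ℝ) bv x
      rw [norm_dv] at h5
      rw [norm_bv] at h6
      linarith
    have h7 := mul_le_mul h3 h4 (norm_nonneg _) (by norm_num)
    have := norm_nonneg x
    linarith
  have h8 := Complex.abs_re_le_norm z
  have h9 := neg_abs_le z.re
  linarith

theorem cone_dir {y : E3} {c : ℝ} {x : E3} (hx : x ∈ cone y c) {a : E3} (ha : ‖a - dv‖ ≤ c / 2) :
    c / 2 * ‖x - y‖ ≤ ⟪a, x - y⟫_ℝ := by
  have h1 : c * ‖x - y‖ ≤ ⟪dv, x - y⟫_ℝ := hx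
  have h2 : ⟪a, x - y⟫_ℝ = ⟪dv, x - y⟫_ℝ + ⟪a - dv, x - y⟫_ℝ := by
    rw [← inner_add_left]
    congr 1
    abel
  have h3 : |⟪a - dv, x - y⟫_ℝ| ≤ c / 2 * ‖x - y‖ :=
    (abs_real_inner_le_norm _ _).trans (mul_le_mul_of_nonneg_right ha (norm_nonneg _))
  have h4 := neg_abs_le ⟪a - dv, x - y⟫_ℝ
  rw [h2]
  linarith

theorem cube_dir {x : E3} {l : ℝ} {y : E3} (hy : y ∈ cube x l) {a : E3} (ha : ∀ j, 0 ≤ a j) :
    ⟪a, x⟫_ℝ ≤ ⟪a, y⟫_ℝ := by
  rw [Dir_inner, Dir_inner]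
  have h0 := mul_le_mul_of_nonneg_left (hy 0).1 (ha 0)
  have h1 := mul_le_mul_of_nonneg_left (hy 1).1 (ha 1)
  have h2 := mul_le_mul_of_nonneg_left (hy 2).1 (ha 2)
  linarith

theorem cube_norm {x : E3} {l : ℝ} {y : E3} (hy : y ∈ cube x l) :
    ‖y - x‖ ≤ Real.sqrt 3 * l := by
  have hl : 0 < l := by
    have := hy 0
    linarith [this.1, this.2]
  have h : ∀ j, (y j - x j) ^ 2 ≤ l ^ 2 := by
    intro j
    have := hy j
    have h1 : 0 ≤ y j - x j := by linarith [this.1]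
    have h2 : y j - x j ≤ l := by linarith [this.2]
    exact pow_le_pow_left₀ h1 h2 2
  apply (pow_le_pow_iff_left₀ (norm_nonneg _) (by positivity) two_ne_zero).1
  rw [Dir_norm_sq, mul_pow, Real.sq_sqrt (by norm_num)]
  have e : ∀ j, (y - x) j = y j - x j := fun j => rfl
  rw [e, e, e]
  linarith [h 0, h 1, h 2]

theorem oct_cone (y : E3) : oct y ⊆ cone y (1 / 2) := by
  intro x hx
  show 1 / 2 * ‖x - y‖ ≤ ⟪dv, x - y⟫_ℝ
  rw [Dir_inner, Dir_dv, Dir_dv, Dir_dv]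
  have e : ∀ j, (x - y) j = x j - y j := fun j => rfl
  have h : ∀ j, 0 ≤ (x - y) j := fun j => by
    rw [e]
    linarith [hx j]
  set v := x - y with hv
  have h1 : ‖v‖ ≤ v 0 + v 1 + v 2 := by
    apply (pow_le_pow_iff_left₀ (norm_nonneg _) (by linarith [h 0, h 1, h 2]) two_ne_zero).1
    rw [Dir_norm_sq]
    nlinarith [mul_nonneg (h 0) (h 1), mul_nonneg (h 0) (h 2), mul_nonneg (h 1) (h 2)]
  have h2 : 1 / 2 ≤ 1 / Real.sqrt 3 := by
    apply one_div_le_one_div_of_le (by positivity)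
    rw [show (2 : ℝ) = Real.sqrt 4 by
      rw [show (4 : ℝ) = 2 ^ 2 by norm_num, Real.sqrt_sq (by norm_num)]]
    exact Real.sqrt_le_sqrt (by norm_num)
  have h3 := mul_le_mul h2 h1 (norm_nonneg _) (by positivity)
  linarith

theorem dv_pos {a : E3} (ha : ‖a - dv‖ < 1 / 2) (j : Fin 3) : 0 < a j := by
  have h1 : |(a - dv) j| ≤ ‖a - dv‖ := by
    have := PiLp.norm_apply_le (a - dv) j
    rwa [Real.norm_eq_abs] at this
  have h2 : (a - dv) j = a j - 1 / Real.sqrt 3 := rfl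
  have h3 := neg_abs_le ((a - dv) j)
  have h4 : 1 / 2 ≤ 1 / Real.sqrt 3 := by
    apply one_div_le_one_div_of_le (by positivity)
    rw [show (2 : ℝ) = Real.sqrt 4 by
      rw [show (4 : ℝ) = 2 ^ 2 by norm_num, Real.sqrt_sq (by norm_num)]]
    exact Real.sqrt_le_sqrt (by norm_num)
  linarith

theorem cube_meas (x : E3) (l : ℝ) : MeasurableSet (cube x l) := by
  have h : cube x l = ⋂ j : Fin 3, ({y : E3 | x j ≤ y j} ∩ {y : E3 | y j < x j + l}) := by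
    ext y
    simp [cube]
  rw [h]
  refine MeasurableSet.iInter fun j => MeasurableSet.inter ?_ ?_
  · exact (isClosed_le continuous_const (by fun_prop)).measurableSet
  · exact (isOpen_lt (by fun_prop) continuous_const).measurableSet

theorem oct_meas (y : E3) : MeasurableSet (oct y) := by
  have h : oct y = ⋂ j : Fin 3, {x : E3 | y j ≤ x j} := by
    ext x
    simp [oct]
  rw [h]
  exact MeasurableSet.iInter fun j =>
    (isClosed_le continuous_const (by fun_prop)).measurableSet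

theorem cube_pot {r : ℝ} {x : E3} {l : ℝ} (h : cube x l ⊆ Metric.ball 0 r) :
    IsPot r 1 ((cube x l).indicator fun _ => (1 : ℂ)) := by
  refine ⟨measurable_const.indicator (cube_meas x l), fun z => ?_, fun z hz => ?_⟩
  · by_cases h1 : z ∈ cube x l
    · rw [Set.indicator_of_mem h1, norm_one]
    · rw [Set.indicator_of_notMem h1, norm_zero]
      exact zero_le_one
  · refine Set.indicator_of_notMem (fun h1 => ?_) _
    have h2 := mem_ball_zero_iff.1 (h h1)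
    linarith

end FracScatC

end
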