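import Pool.Agent.Lib.MP_6e2ba5_an.Dx.SDa
import Pool.Agent.Lib.MP_6e2ba5_an.Dx.Dir

/-! # The cone condition for the second potential

By `SD_I` the amplitudes at `k = iτ` agree for all unit `θ`, so `half_space` (`HalfSpace.lean`, real potentials; the objects of
`FracScat` for `V` are those of `FracScatC` for `Vc V` by definition, compare `Rx/FinalR.lean`) applies in both directions. For unit vectors `θ`
with `‖θ - dv‖ ≤ c/2` (or `< c/2`) `V₁ = 0` a.e. on `{θ·x < θ·y₀}` (`cone_dir`), hence `V₂ = 0` a.e. there. Take a countable dense set of such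
`θ`: a.e. point `x` with `V₂ x ≠ 0` satisfies `θ·(x-y₀) ≥ 0` for all of them, hence (with `v = x - y₀`, `c₁ = min c 1`,
`θ` close to the normalisation of `dv - (c₁/8) v/‖v‖`) `dv·v ≥ (c₁/16) ‖v‖`. -/

set_option autoImplicit false

open MeasureTheory Filter Topology Set
open scoped FourierTransform SchwartzMap InnerProductSpace ENNReal BoundedContinuousFunction

noncomputable section

namespace FracScatC

open FracScat

private theorem coneL_pot {r M : ℝ} {V : E3 → ℝ} (h : IsPot r M (Vc V)) : PotIn r V where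
  measurable := Complex.measurable_re.comp h.measurable
  bounded := ⟨M, fun x => by
    have := h.bounded x
    unfold Vc at this
    rwa [Complex.norm_real] at this⟩
  vanish := fun x hx => by
    have := h.vanish x hx
    unfold Vc at this
    exact_mod_cast this

/-- the vector in the dual cone -/
private theorem coneL_geom {c : ℝ} (hc : 0 < c) {v : E3}
    (h : ∀ θ : E3, ‖θ‖ = 1 → ‖θ - dv‖ ≤ c / 2 → 0 ≤ ⟪θ, v⟫_ℝ) :
    min c 1 / 8 * ‖v‖ ≤ ⟪dv, v⟫_ℝ := by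
  set c₁ : ℝ := min c 1 with hc₁
  have h1 : 0 < c₁ := lt_min hc one_pos
  have h2 : c₁ ≤ 1 := min_le_right _ _
  have h3 : c₁ ≤ c := min_le_left _ _
  by_cases hv : v = 0
  · rw [hv]
    simp
  have hv' : 0 < ‖v‖ := norm_pos_iff.2 hv
  set u : E3 := (‖v‖)⁻¹ • v with hu
  have hu1 : ‖u‖ = 1 := by
    rw [hu, norm_smul, norm_inv, norm_norm, inv_mul_cancel₀ hv'.ne']
  set w : E3 := dv - (c₁ / 8) • u with hw
  have hcu : ‖(c₁ / 8) • u‖ = c₁ / 8 := by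
    rw [norm_smul, hu1, mul_one, Real.norm_of_nonneg (by linarith)]
  have hwd : ‖w - dv‖ = c₁ / 8 := by
    rw [hw, sub_sub_cancel_left, norm_neg, hcu]
  have hw1 : |‖w‖ - 1| ≤ c₁ / 8 := by
    have := abs_norm_sub_norm_le w dv
    rwa [norm_dv, hwd] at this
  have hw0 : 0 < ‖w‖ := by
    have := (abs_le.1 hw1).1
    linarith
  have hθ : ‖(‖w‖)⁻¹ • w‖ = 1 := by
    rw [norm_smul, norm_inv, norm_norm, inv_mul_cancel₀ hw0.ne']
  have hθw : ‖(‖w‖)⁻¹ • w - w‖ = |‖w‖ - 1| := by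
    have e1 : (‖w‖)⁻¹ • w - w = ((‖w‖)⁻¹ - 1) • w := by
      rw [sub_smul, one_smul]
    rw [e1, norm_smul, Real.norm_eq_abs]
    have e2 : |(‖w‖)⁻¹ - 1| * ‖w‖ = |((‖w‖)⁻¹ - 1) * ‖w‖| := by
      rw [abs_mul, abs_of_pos hw0]
    rw [e2, sub_mul, inv_mul_cancel₀ hw0.ne', one_mul, abs_sub_comm]
  have hθd : ‖(‖w‖)⁻¹ • w - dv‖ ≤ c / 2 := by
    have e1 : (‖w‖)⁻¹ • w - dv = ((‖w‖)⁻¹ • w - w) + (w - dv) := by abel
    rw [e1]
    refine (norm_add_le _ _).trans ?_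
    rw [hθw, hwd]
    linarith
  have key := h _ hθ hθd
  rw [real_inner_smul_left] at key
  have key2 : 0 ≤ ⟪w, v⟫_ℝ := by
    by_contra hcon
    push Not at hcon
    have := mul_neg_of_pos_of_neg (inv_pos.2 hw0) hcon
    linarith
  rw [hw, inner_sub_left, real_inner_smul_left, hu, real_inner_smul_left,
    real_inner_self_eq_norm_sq] at key2
  have e3 : (‖v‖)⁻¹ * ‖v‖ ^ 2 = ‖v‖ := by
    rw [sq, ← mul_assoc, inv_mul_cancel₀ hv'.ne', one_mul]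
  rw [e3] at key2
  linarith

theorem coneL {s : ℝ} (h0 : 3 / 4 < s) (h2 : s < 2) (h1 : s ≠ 1) {r : ℝ} (hr : 0 < r)
    {M K : ℝ} (hK : KOK s r M K) {V₁ V₂ : E3 → ℝ} (hV₁ : IsPot r M (Vc V₁))
    (hV₂ : IsPot r M (Vc V₂)) (h : SD s r (Vc V₁) (Vc V₂)) {y₀ : E3} {c : ℝ} (hc : 0 < c)
    (hc₁ : ∀ᵐ x ∂(volume : Measure E3), x ∉ cone y₀ c → V₁ x = 0) :
    ∃ c' : ℝ, 0 < c' ∧ c' ≤ c ∧ ∀ᵐ x ∂(volume : Measure E3), x ∉ cone y₀ c' → V₂ x = 0 := by
  have h1' : 0 < min c 1 := lt_min hc one_pos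
  refine ⟨min c 1 / 8, by linarith, by linarith [min_le_left c 1], ?_⟩
  -- the good directions
  set S : Set E3 := {θ | ‖θ‖ = 1 ∧ ‖θ - dv‖ ≤ c / 2} with hS
  have hdir : ∀ θ ∈ S, ∀ᵐ x ∂(volume : Measure E3), -⟪θ, y₀⟫_ℝ < -⟪θ, x⟫_ℝ → V₂ x = 0 := by
    intro θ hθ
    refine half_space (by linarith) h2 h1 hr (coneL_pot hV₂) (coneL_pot hV₁) θ hK.one
      (fun k hk => hK.tk (Vc V₂) hV₂ k hk) (fun k hk => hK.tk (Vc V₁) hV₁ k hk)
      (fun τ hτ => (SD_I h0 h2 h1 hr hK hV₁ hV₂ h hθ.1 τ hτ).symm) ?_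
    filter_upwards [hc₁] with x hx hlt
    apply hx
    intro hmem
    have e1 := cone_dir hmem hθ.2
    rw [inner_sub_right] at e1
    have e2 : 0 ≤ c / 2 * ‖x - y₀‖ := by positivity
    linarith
  obtain ⟨T, hTS, hTc, hTd⟩ :=
    (TopologicalSpace.IsSeparable.of_separableSpace S).exists_countable_dense_subset
  have hall : ∀ᵐ x ∂(volume : Measure E3), ∀ θ ∈ T, -⟪θ, y₀⟫_ℝ < -⟪θ, x⟫_ℝ → V₂ x = 0 :=
    (ae_ball_iff hTc).2 fun θ hθ => hdir θ (hTS hθ)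
  filter_upwards [hall] with x hx hxc
  by_contra hne
  apply hxc
  show min c 1 / 8 * ‖x - y₀‖ ≤ ⟪dv, x - y₀⟫_ℝ
  refine coneL_geom hc fun θ hθ1 hθ2 => ?_
  have hcl : IsClosed {θ : E3 | 0 ≤ ⟪θ, x - y₀⟫_ℝ} :=
    isClosed_le continuous_const (by fun_prop)
  have hsub : T ⊆ {θ : E3 | 0 ≤ ⟪θ, x - y₀⟫_ℝ} := by
    intro θ hθ
    show 0 ≤ ⟪θ, x - y₀⟫_ℝ
    by_contra hlt
    push Not at hlt
    rw [inner_sub_right] at hlt
    exact hne (hx θ hθ (by linarith))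
  exact (closure_minimal hsub hcl) (hTd ⟨hθ1, hθ2⟩)

end FracScatC

end
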