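import Pool.Agent.Lib.MP_6e2ba5_an.Rx.SphC
import Pool.Agent.Lib.MP_6e2ba5_an.Rx.LimI
import Pool.Agent.Lib.MP_6e2ba5_an.Ex.FinalCN
import Pool.Agent.Lib.MP_6e2ba5_an.Ex.ShApi

/-! # Generic absolute uniqueness: definitions

Everything is for `3/4 < s < 2`, `s ≠ 1`. `pr f g = ∫ f g` (bilinear, no conjugation).
Real axis (`s > 1`) or negative axis (`s < 1`): the operators `AR s r ξ`, the fields `UA s r V ξ`, the data
`FA s r V ξ`; in both cases the symbol of `AR` is in `L²`, with the norm `O(‖ξ‖^(-bE s))`, and the operator norm is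
`O(‖ξ‖^(-aE s))`.
Imaginary axis `k = iτ`: `RI`, `SI = (1 - RI V)⁻¹`, `TI = V SI`, for the exponentials `ec r η = 1_B exp(η·x)`,
`η ∈ ℂ³`, `η·η = τ²` the data `FC s r V τ η = ∫ e V u`. -/

set_option autoImplicit false

open MeasureTheory Filter Topology Set
open scoped FourierTransform SchwartzMap InnerProductSpace ENNReal BoundedContinuousFunction

noncomputable section

namespace FracScatC

open FracScat

/-! ### The pairing -/

/-- The bilinear pairing as a continuous bilinear map. -/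
def prB : HS →L[ℂ] HS →L[ℂ] ℂ :=
  LinearMap.mkContinuous₂
    (LinearMap.mk₂ ℂ (fun f g : HS => ∫ x, (f : E3 → ℂ) x * (g : E3 → ℂ) x)
      (fun f f' g => by
        rw [← integral_add (integrable_mul f g) (integrable_mul f' g)]
        apply integral_congr_ae
        filter_upwards [Lp.coeFn_add f f'] with x hx
        rw [hx, Pi.add_apply]
        ring)
      (fun c f g => by
        rw [smul_eq_mul, ← integral_const_mul]
        apply integral_congr_ae
        filter_upwards [Lp.coeFn_smul c f] with x hx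
        rw [hx, Pi.smul_apply, smul_eq_mul]
        ring)
      (fun f g g' => by
        rw [← integral_add (integrable_mul f g) (integrable_mul f g')]
        apply integral_congr_ae
        filter_upwards [Lp.coeFn_add g g'] with x hx
        rw [hx, Pi.add_apply]
        ring)
      (fun c f g => by
        rw [smul_eq_mul, ← integral_const_mul]
        apply integral_congr_ae
        filter_upwards [Lp.coeFn_smul c g] with x hx
        rw [hx, Pi.smul_apply, smul_eq_mul]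
        ring))
    1 (fun f g => by
      rw [one_mul]
      exact norm_integral_mul_le f g)

/-- `∫ f g`. -/
def pr (f g : HS) : ℂ := prB f g

theorem pr_eq (f g : HS) : pr f g = ∫ x, (f : E3 → ℂ) x * (g : E3 → ℂ) x := rfl

theorem pr_comm (f g : HS) : pr f g = pr g f := by
  rw [pr_eq, pr_eq]
  exact integral_congr_ae (Eventually.of_forall fun x => mul_comm _ _)

theorem pr_add_left (f f' g : HS) : pr (f + f') g = pr f g + pr f' g := by
  unfold pr
  rw [map_add, ContinuousLinearMap.add_apply]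

theorem pr_add_right (f g g' : HS) : pr f (g + g') = pr f g + pr f g' := by
  unfold pr
  rw [map_add]

theorem pr_sub_left (f f' g : HS) : pr (f - f') g = pr f g - pr f' g := by
  unfold pr
  rw [map_sub, ContinuousLinearMap.sub_apply]

theorem pr_sub_right (f g g' : HS) : pr f (g - g') = pr f g - pr f g' := by
  unfold pr
  rw [map_sub]

theorem pr_smul_left (c : ℂ) (f g : HS) : pr (c • f) g = c * pr f g := by
  unfold pr
  rw [map_smul, ContinuousLinearMap.smul_apply, smul_eq_mul]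

theorem pr_smul_right (c : ℂ) (f g : HS) : pr f (c • g) = c * pr f g := by
  unfold pr
  rw [map_smul, smul_eq_mul]

theorem norm_pr_le (f g : HS) : ‖pr f g‖ ≤ ‖f‖ * ‖g‖ := norm_integral_mul_le f g

/-! ### Abstract cut off resolvents -/

/-- A bounded operator on functions on the ball, symmetric for the pairing and bounded from `L²` to `L^∞`. -/
structure SymB (r C : ℝ) (K : HS →L[ℂ] HS) : Prop where
  nonneg : 0 ≤ C
  symm : ∀ f g : HS, pr (K f) g = pr f (K g)
  cut : ∀ g : HS, mulL (indB r) (K g) = K g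
  cut' : ∀ g : HS, K (mulL (indB r) g) = K g
  bd : ∀ g : HS, Bd (C * ‖g‖) (K g)

/-- The solution of `u = e + K V u`. -/
def UK (K : HS →L[ℂ] HS) (V : E3 → ℂ) (e : HS) : HS := Ring.inverse (1 - K ∘L mulL V) e

/-! ### Real axis or negative axis -/

/-- The cut off resolvent on the axis which is used. -/
def AR (s r : ℝ) (ξ : E3) : HS →L[ℂ] HS := if 1 < s then Kop s r (kx ξ) else Mop s r (km ξ)

/-- Its symbol as an element of `L²`. -/
def aH (s r : ℝ) (ξ : E3) : HS :=
  if 1 < s then gsH s r (2 * Real.pi * ‖ξ‖) else mNH s (2 * Real.pi * ‖ξ‖)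

/-- The Fourier density `a · FT g` of `AR g`. -/
def PA (s r : ℝ) (ξ : E3) (g : HS) : L1 := prodL (aH s r ξ) (FT g)

/-- The exponent of the operator norm. -/
def aE (s : ℝ) : ℝ := if 1 < s then 2 * s - 1 else 2 * s

/-- The exponent of the `L²` norm of the symbol. -/
def bE (s : ℝ) : ℝ := if 1 < s then 2 * s - 2 else 2 * s - 3 / 2

/-- The total field on the ball. -/
def UA (s r : ℝ) (V : E3 → ℂ) (ξ : E3) : HS := UK (AR s r ξ) V (eH r ξ)

/-- The data. -/
def FA (s r : ℝ) (V : E3 → ℂ) (ξ : E3) : ℂ := pr (eH r ξ) (mulL V (UA s r V ξ))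

/-- Equal back-scattering data for all large wave numbers. -/
def SD (s r : ℝ) (V₁ V₂ : E3 → ℂ) : Prop :=
  ∃ K : ℝ, ∀ θ : E3, ‖θ‖ = 1 → ∀ k : ℝ, K ≤ k → Ffun s r V₁ θ k = Ffun s r V₂ θ k

/-! ### The imaginary axis -/

/-- The cut off resolvent at `k = iτ`. -/
def RI (s r τ : ℝ) : HS →L[ℂ] HS := Kop s r (Complex.I * τ)

/-- `(1 - R V)⁻¹`. -/
def SI (s r : ℝ) (V : E3 → ℂ) (τ : ℝ) : HS →L[ℂ] HS := Ring.inverse (1 - RI s r τ ∘L mulL V)

/-- `V (1 - R V)⁻¹`. -/
def TI (s r : ℝ) (V : E3 → ℂ) (τ : ℝ) : HS →L[ℂ] HS := mulL V ∘L SI s r V τ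

/-- `η · x` for `η ∈ ℂ³`. -/
def cd (η : Fin 3 → ℂ) (x : E3) : ℂ := ∑ j, η j * ((x j : ℝ) : ℂ)

theorem cd_cont (η : Fin 3 → ℂ) : Continuous (cd η) := by
  unfold cd
  fun_prop

theorem ec_memLp (r : ℝ) (η : Fin 3 → ℂ) :
    MemLp (fun x => indB r x * Complex.exp (cd η x)) 2 (volume : Measure E3) := by
  have hc : Continuous (fun x : E3 => Complex.exp (cd η x)) :=
    Complex.continuous_exp.comp (cd_cont η)
  have h1 : MemLp (fun x : E3 => Complex.exp (cd η x)) 2
      (volume.restrict (Metric.closedBall (0 : E3) r)) := by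
    obtain ⟨C, hC⟩ := (isCompact_closedBall (0 : E3) r).exists_bound_of_continuousOn hc.continuousOn
    have : IsFiniteMeasure (volume.restrict (Metric.closedBall (0 : E3) r)) :=
      ⟨by rw [Measure.restrict_apply_univ]; exact measure_closedBall_lt_top⟩
    refine MemLp.of_bound hc.aestronglyMeasurable C ?_
    rw [ae_restrict_iff' Metric.isClosed_closedBall.measurableSet]
    exact Filter.Eventually.of_forall fun x hx => hC x hx
  have hind : (fun x : E3 => indB r x * Complex.exp (cd η x)) =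
      (Metric.ball (0 : E3) r).indicator (fun x => Complex.exp (cd η x)) := by
    funext x
    unfold indB
    by_cases hx : ‖x‖ < r
    · rw [if_pos hx, one_mul, Set.indicator_of_mem (mem_ball_zero_iff.2 hx)]
    · rw [if_neg hx, zero_mul, Set.indicator_of_notMem (fun h => hx (mem_ball_zero_iff.1 h))]
  rw [hind, memLp_indicator_iff_restrict Metric.isOpen_ball.measurableSet]
  exact h1.mono_measure (Measure.restrict_mono Metric.ball_subset_closedBall le_rfl)

/-- The cut off exponential `1_B exp(η·x)` as an element of `L²`. -/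
def ec (r : ℝ) (η : Fin 3 → ℂ) : HS := (ec_memLp r η).toLp _

theorem ec_coe (r : ℝ) (η : Fin 3 → ℂ) :
    (ec r η : E3 → ℂ) =ᵐ[volume] fun x => indB r x * Complex.exp (cd η x) :=
  (ec_memLp r η).coeFn_toLp

/-- The real vector `-τ θ` as an element of `ℂ³`. -/
def rv (τ : ℝ) (θ : E3) (j : Fin 3) : ℂ := ((-(τ * θ j) : ℝ) : ℂ)

/-- `η·η = τ²`. -/
def Adm (τ : ℝ) (η : Fin 3 → ℂ) : Prop := ∑ j, η j ^ 2 = ((τ ^ 2 : ℝ) : ℂ)

/-- The data at `k = iτ` for the exponential `exp(η·x)`. -/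
def FC (s r : ℝ) (V : E3 → ℂ) (τ : ℝ) (η : Fin 3 → ℂ) : ℂ :=
  pr (ec r η) (TI s r V τ (ec r η))

/-- The cut off resolvent kernel with the pole `x`, `1_B G(· - x)`. -/
def gX (s r τ : ℝ) (x : E3) : HS := mulL (indB r) (FT.symm (mulL (efun (-x)) (mIH s τ)))

/-- The difference of the two perturbed resolvent kernels at the points `x`, `y`. -/
def Dk (s r : ℝ) (V₁ V₂ : E3 → ℂ) (τ : ℝ) (x y : E3) : ℂ :=
  pr (gX s r τ x) ((TI s r V₁ τ - TI s r V₂ τ) (gX s r τ y))

/-- A threshold which is good for all potentials bounded by `M` in the ball of radius `r`. -/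
structure KOK (s r M K : ℝ) : Prop where
  one : 1 ≤ K
  tk : ∀ V : E3 → ℂ, IsPot r M V → ∀ k ∈ Reg K, ‖Tk s r V k‖ ≤ 1 / 2
  tm : s < 1 → ∀ V : E3 → ℂ, IsPot r M V → ∀ k ∈ Sec2, K ≤ ‖k‖ → ‖Tm s r V k‖ ≤ 1 / 2
  ar : ∀ ξ : E3, K ≤ ‖ξ‖ → M * ‖AR s r ξ‖ ≤ 1 / 2
  ri : ∀ τ : ℝ, K ≤ τ → M * ‖RI s r τ‖ ≤ 1 / 2

theorem SD.symm {s r : ℝ} {V₁ V₂ : E3 → ℂ} (h : SD s r V₁ V₂) : SD s r V₂ V₁ := by
  obtain ⟨K, hK⟩ := h
  exact ⟨K, fun θ hθ k hk => (hK θ hθ k hk).symm⟩

/-! ### The directions -/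

/-- The direction `(1,1,1)/√3`. -/
def dv : E3 := WithLp.toLp 2 fun _ => 1 / Real.sqrt 3

/-- The direction `(1,-1,0)/√2`. -/
def bv : E3 := WithLp.toLp 2 ![1 / Real.sqrt 2, -(1 / Real.sqrt 2), 0]

/-- The isotropic vector `dv - i bv`. -/
def vt (j : Fin 3) : ℂ := (dv j : ℂ) - Complex.I * (bv j : ℂ)

/-- The isotropic vector `dv + i bv`. -/
def vtb (j : Fin 3) : ℂ := (dv j : ℂ) + Complex.I * (bv j : ℂ)

/-- The vector `-(m ϑ + (ω/(4m)) ϑ')` with the square `ω`. -/
def em (m : ℝ) (ω : ℂ) (j : Fin 3) : ℂ := -((m : ℂ) * vt j + ω / (4 * m) * vtb j)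

/-- The half open cube with the lower vertex `x` and the side `l`. -/
def cube (x : E3) (l : ℝ) : Set E3 := {y | ∀ j, x j ≤ y j ∧ y j < x j + l}

/-- The octant with the vertex `y`. -/
def oct (y : E3) : Set E3 := {x | ∀ j, y j ≤ x j}

/-- The combination `∑ c_i 1_{cube(x_i)}`. -/
def cmb {N : ℕ} (x : Fin N → E3) (l : ℝ) (c : Fin N → ℝ) (y : E3) : ℂ :=
  ∑ i, ((c i : ℝ) : ℂ) * (cube (x i) l).indicator (fun _ => (1 : ℂ)) y

/-- The functions `φ m` concentrate at `y` with the mass `μ` as `m → ∞`. -/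
structure Delta (r : ℝ) (φ : ℝ → HS) (y : E3) (μ : ℂ) : Prop where
  cut : ∀ m, mulL (indB r) (φ m) = φ m
  l1 : ∃ C : ℝ, ∀ᶠ m : ℝ in atTop, ∫ x, ‖(φ m : E3 → ℂ) x‖ ≤ C
  conc : ∀ δ : ℝ, 0 < δ → Tendsto (fun m : ℝ => ∫ x in {x : E3 | δ ≤ ‖x - y‖},
    ‖(φ m : E3 → ℂ) x‖) atTop (𝓝 0)
  mass : Tendsto (fun m : ℝ => ∫ x, (φ m : E3 → ℂ) x) atTop (𝓝 μ)

end FracScatC

end
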