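import Pool.Agent.Lib.MP_6e2ba5_an.Dx.RIb

/-! # The resolvent of concentrating sources

`RI (φ m) = 1_B multL (mI s τ) (φ m)`; the Fourier transform of `φ m` is `𝓕 (φ m)(ξ) = ∫ φ_m(x) exp(-2πi ξ·x) dx`, bounded by
`‖φ_m‖_{L¹} ≤ C`, and it tends to `μ exp(-2πi ξ·y)` for every `ξ` (mass and concentration: split at `‖x-y‖ < δ`). So
`mI · 𝓕 (φ m) → μ mI exp(-2πi ξ·y)` in `L²` by dominated convergence (`mI ∈ L²`), and `FT` is an isometry. The limit is
`μ • gX s r τ y`: `mulL (efun (-y)) (mIH s τ)` is the function `exp(-2πi ξ·y) mI(ξ)`. `atTop` on `ℝ` is countably generated,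
so sequences suffice. -/

set_option autoImplicit false

open MeasureTheory Filter Topology Set
open scoped FourierTransform SchwartzMap InnerProductSpace ENNReal BoundedContinuousFunction

noncomputable section

namespace FracScatC

open FracScat

private theorem DelA_int {r : ℝ} {φ : ℝ → HS} {y : E3} {μ : ℂ} (hφ : Delta r φ y μ) (m : ℝ) :
    Integrable (φ m : E3 → ℂ) := integrable_of_indB (hφ.cut m)

/-- Concentrating sources test bounded continuous functions at the point. -/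
private theorem DelA_test {r : ℝ} {φ : ℝ → HS} {y : E3} {μ : ℂ} (hφ : Delta r φ y μ) {g : E3 → ℂ}
    (hg : Continuous g) (hg1 : ∀ x, ‖g x‖ ≤ 1) :
    Tendsto (fun m : ℝ => ∫ x, g x * (φ m : E3 → ℂ) x) atTop (𝓝 (μ * g y)) := by
  obtain ⟨C, hC⟩ := hφ.l1
  have hC0 : 0 ≤ C := by
    obtain ⟨m, hm⟩ := hC.exists
    exact (integral_nonneg fun x => norm_nonneg _).trans hm
  rw [Metric.tendsto_nhds]
  intro ε hε
  set ε1 : ℝ := ε / (2 * (C + 1)) with hε1
  have hε1p : 0 < ε1 := by positivity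
  obtain ⟨δ, hδ, hδ2⟩ := Metric.continuous_iff.1 hg y ε1 hε1p
  have hc := (Metric.tendsto_nhds.1 (hφ.conc δ hδ)) (ε / 8) (by positivity)
  have hm := (Metric.tendsto_nhds.1 hφ.mass) (ε / 8) (by positivity)
  filter_upwards [hC, hc, hm] with m h1 h2 h3
  have hi := DelA_int hφ m
  have hgi : Integrable (fun x => g x * (φ m : E3 → ℂ) x) :=
    hi.bdd_mul (c := 1) hg.aestronglyMeasurable (Eventually.of_forall hg1)
  have hgy : Integrable (fun x => g y * (φ m : E3 → ℂ) x) := hi.const_mul _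
  have hset : MeasurableSet {x : E3 | δ ≤ ‖x - y‖} :=
    measurableSet_le measurable_const (measurable_id.sub_const y).norm
  have hind : Integrable ({x : E3 | δ ≤ ‖x - y‖}.indicator fun x => ‖(φ m : E3 → ℂ) x‖) :=
    hi.norm.indicator hset
  have e1 : (∫ x, g x * (φ m : E3 → ℂ) x) - μ * g y =
      (∫ x, (g x - g y) * (φ m : E3 → ℂ) x) + g y * ((∫ x, (φ m : E3 → ℂ) x) - μ) := by
    have : (∫ x, (g x - g y) * (φ m : E3 → ℂ) x) =
        (∫ x, g x * (φ m : E3 → ℂ) x) - g y * ∫ x, (φ m : E3 → ℂ) x := by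
      rw [← integral_const_mul, ← integral_sub hgi hgy]
      apply integral_congr_ae
      exact Eventually.of_forall fun x => by ring
    rw [this]
    ring
  have e2 : ‖∫ x, (g x - g y) * (φ m : E3 → ℂ) x‖ ≤
      ε1 * C + 2 * ∫ x in {x : E3 | δ ≤ ‖x - y‖}, ‖(φ m : E3 → ℂ) x‖ := by
    have e3 : ‖∫ x, (g x - g y) * (φ m : E3 → ℂ) x‖ ≤
        ∫ x, (ε1 * ‖(φ m : E3 → ℂ) x‖ +
          2 * ({x : E3 | δ ≤ ‖x - y‖}.indicator (fun x => ‖(φ m : E3 → ℂ) x‖) x)) := by
      apply norm_integral_le_of_norm_le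
      · exact (hi.norm.const_mul _).add (hind.const_mul _)
      · refine Eventually.of_forall fun x => ?_
        rw [norm_mul]
        by_cases hx : δ ≤ ‖x - y‖
        · rw [Set.indicator_of_mem (show x ∈ {x : E3 | δ ≤ ‖x - y‖} from hx)]
          have h4 : ‖g x - g y‖ ≤ 2 := by
            refine (norm_sub_le _ _).trans ?_
            have := hg1 x
            have := hg1 y
            linarith
          have h5 := mul_le_mul_of_nonneg_right h4 (norm_nonneg ((φ m : E3 → ℂ) x))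
          have h6 : 0 ≤ ε1 * ‖(φ m : E3 → ℂ) x‖ := by positivity
          linarith
        · rw [Set.indicator_of_notMem (show x ∉ {x : E3 | δ ≤ ‖x - y‖} from hx)]
          rw [mul_zero, add_zero]
          refine mul_le_mul_of_nonneg_right ?_ (norm_nonneg _)
          have h7 : dist x y < δ := by
            rw [dist_eq_norm]
            exact not_le.1 hx
          have := hδ2 x h7
          rw [dist_eq_norm] at this
          exact this.le
    refine e3.trans ?_
    rw [integral_add (hi.norm.const_mul _) (hind.const_mul _), integral_const_mul,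
      integral_const_mul, integral_indicator hset]
    have := mul_le_mul_of_nonneg_left h1 hε1p.le
    linarith
  have e4 : ε1 * C ≤ ε / 2 := by
    rw [hε1, div_mul_eq_mul_div, div_le_div_iff₀ (by positivity) (by positivity)]
    nlinarith
  have h2' : ∫ x in {x : E3 | δ ≤ ‖x - y‖}, ‖(φ m : E3 → ℂ) x‖ < ε / 8 := by
    rw [Real.dist_eq, sub_zero] at h2
    exact (le_abs_self _).trans_lt h2
  have e5 : ‖g y * ((∫ x, (φ m : E3 → ℂ) x) - μ)‖ < ε / 8 := by
    rw [norm_mul]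
    rw [dist_eq_norm] at h3
    have h8 := mul_le_mul_of_nonneg_right (hg1 y) (norm_nonneg ((∫ x, (φ m : E3 → ℂ) x) - μ))
    rw [one_mul] at h8
    exact h8.trans_lt h3
  rw [dist_eq_norm, e1]
  refine (norm_add_le _ _).trans_lt ?_
  linarith

private theorem DelA_fourier (f : E3 → ℂ) (ξ : E3) :
    𝓕 f ξ = ∫ x, efun (-ξ) x * f x := by
  rw [Real.fourier_eq']
  apply integral_congr_ae
  refine Eventually.of_forall fun x => ?_
  simp only [smul_eq_mul]
  unfold efun
  congr 2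
  rw [inner_neg_left, real_inner_comm]
  push_cast
  ring

private theorem DelA_L2 {s : ℝ} (h0 : 3 / 4 < s) (h2 : s < 2) (h1 : s ≠ 1) {r : ℝ} {τ : ℝ}
    (hτ : 0 < τ) {φ : ℝ → HS} {y : E3} {μ : ℂ} (hφ : Delta r φ y μ) :
    Tendsto (fun m : ℝ => mulL (mI s τ) (FT (φ m))) atTop
      (𝓝 (μ • mulL (efun (-y)) (mIH s τ))) := by
  have hL := mI_memLp h0 h2 h1 hτ
  have hB := mI_BM (s := s) (by linarith) h2 h1 hτ
  obtain ⟨C, hC⟩ := hφ.l1
  have hlim : (μ • mulL (efun (-y)) (mIH s τ) : HS) =ᵐ[volume]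
      fun ξ => mI s τ ξ * (μ * efun (-ξ) y) := by
    filter_upwards [Lp.coeFn_smul μ (mulL (efun (-y)) (mIH s τ)), mulL_coe (efun_BM (-y)) (mIH s τ),
      mIH_coe hL] with ξ a b c
    rw [a, Pi.smul_apply, b, c, smul_eq_mul]
    have : efun (-y) ξ = efun (-ξ) y := by
      unfold efun
      rw [inner_neg_left, inner_neg_left, real_inner_comm]
    rw [this]
    ring
  have hfun : ∀ m, (mulL (mI s τ) (FT (φ m)) : HS) =ᵐ[volume]
      fun ξ => mI s τ ξ * ∫ x, efun (-ξ) x * (φ m : E3 → ℂ) x := by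
    intro m
    filter_upwards [mulL_coe hB (FT (φ m)), FT_coe_of_integrable (φ m) (DelA_int hφ m)] with ξ a b
    rw [a, b, DelA_fourier]
  have hcont : ∀ m, Continuous fun ξ : E3 => ∫ x, efun (-ξ) x * (φ m : E3 → ℂ) x := by
    intro m
    have : Continuous (𝓕 (φ m : E3 → ℂ)) :=
      VectorFourier.fourierIntegral_continuous Real.continuous_fourierChar continuous_inner
        (DelA_int hφ m)
    refine this.congr fun ξ => ?_
    rw [DelA_fourier]
  have hcy : Continuous fun ξ : E3 => μ * efun (-ξ) y := by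
    unfold efun
    fun_prop
  rw [Lp.tendsto_Lp_iff_tendsto_eLpNorm']
  have e1 : ∀ m, eLpNorm (((mulL (mI s τ) (FT (φ m)) : HS) : E3 → ℂ) -
      ((μ • mulL (efun (-y)) (mIH s τ) : HS) : E3 → ℂ)) 2 volume =
      (∫⁻ ξ, ‖mI s τ ξ * ((∫ x, efun (-ξ) x * (φ m : E3 → ℂ) x) - μ * efun (-ξ) y)‖ₑ ^ (2 : ℝ)) ^
        (1 / 2 : ℝ) := by
    intro m
    rw [eLpNorm_eq_lintegral_rpow_enorm_toReal (by norm_num) (by norm_num)]
    simp only [ENNReal.toReal_ofNat]
    congr 1
    apply lintegral_congr_ae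
    filter_upwards [hlim, hfun m] with ξ a b
    rw [Pi.sub_apply, a, b, mul_sub]
  simp_rw [e1]
  have e0 : (0 : ℝ≥0∞) = (∫⁻ _ξ : E3, 0) ^ (1 / 2 : ℝ) := by
    rw [lintegral_zero, ENNReal.zero_rpow_of_pos (by norm_num)]
  rw [e0]
  refine (ENNReal.continuous_rpow_const.tendsto _).comp ?_
  refine tendsto_lintegral_filter_of_dominated_convergence
    (fun ξ => ENNReal.ofReal ((‖mI s τ ξ‖ * (C + ‖μ‖)) ^ 2)) ?_ ?_ ?_ ?_
  · refine Eventually.of_forall fun m => ?_
    have h4 : Measurable (mI s τ) := by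
      have : mI s τ = fun ξ => 1 / (aS s ξ - zt s τ) := by
        funext ξ
        exact mI_eq s τ ξ
      rw [this]
      exact measurable_const.div ((aS_measurable s).sub_const _)
    have h3 : Measurable (fun ξ => mI s τ ξ *
        ((∫ x, efun (-ξ) x * (φ m : E3 → ℂ) x) - μ * efun (-ξ) y)) :=
      h4.mul ((hcont m).sub hcy).measurable
    exact h3.enorm.pow_const _
  · filter_upwards [hC] with m hm
    refine Eventually.of_forall fun ξ => ?_
    have h4 : ‖mI s τ ξ * ((∫ x, efun (-ξ) x * (φ m : E3 → ℂ) x) - μ * efun (-ξ) y)‖ ≤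
        ‖mI s τ ξ‖ * (C + ‖μ‖) := by
      rw [norm_mul]
      refine mul_le_mul_of_nonneg_left ?_ (norm_nonneg _)
      refine (norm_sub_le _ _).trans (add_le_add ?_ ?_)
      · refine (norm_integral_le_integral_norm _).trans ?_
        refine le_trans (le_of_eq ?_) hm
        apply integral_congr_ae
        refine Eventually.of_forall fun x => ?_
        simp only [norm_mul, norm_efun, one_mul]
      · rw [norm_mul, norm_efun, mul_one]
    rw [← ofReal_norm, ENNReal.ofReal_rpow_of_nonneg (norm_nonneg _) (by norm_num)]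
    apply ENNReal.ofReal_le_ofReal
    rw [Real.rpow_two]
    exact pow_le_pow_left₀ (norm_nonneg _) h4 2
  · have h5 : Integrable (fun ξ => (‖mI s τ ξ‖ * (C + ‖μ‖)) ^ 2) (volume : Measure E3) := by
      have h6 : Integrable (fun ξ => ‖mI s τ ξ‖ ^ 2) (volume : Measure E3) :=
        (memLp_two_iff_integrable_sq_norm hL.1).1 hL
      refine (h6.mul_const ((C + ‖μ‖) ^ 2)).congr ?_
      refine Eventually.of_forall fun ξ => ?_
      simp only
      ring
    rw [← ofReal_integral_eq_lintegral_ofReal h5 (Eventually.of_forall fun ξ => sq_nonneg _)]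
    exact ENNReal.ofReal_ne_top
  · refine Eventually.of_forall fun ξ => ?_
    have h7 : Tendsto (fun m : ℝ => ∫ x, efun (-ξ) x * (φ m : E3 → ℂ) x) atTop
        (𝓝 (μ * efun (-ξ) y)) :=
      DelA_test hφ (efun_cont (-ξ)) fun x => (norm_efun _ _).le
    have h8 : Tendsto (fun m : ℝ => mI s τ ξ *
        ((∫ x, efun (-ξ) x * (φ m : E3 → ℂ) x) - μ * efun (-ξ) y)) atTop (𝓝 0) := by
      have := (h7.sub_const (μ * efun (-ξ) y)).const_mul (mI s τ ξ)
      rwa [sub_self, mul_zero] at this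
    have h9 : Tendsto (fun m : ℝ => ‖mI s τ ξ *
        ((∫ x, efun (-ξ) x * (φ m : E3 → ℂ) x) - μ * efun (-ξ) y)‖ₑ ^ (2 : ℝ)) atTop
        (𝓝 (‖(0 : ℂ)‖ₑ ^ (2 : ℝ))) :=
      (ENNReal.continuous_rpow_const.tendsto _).comp ((continuous_enorm.tendsto _).comp h8)
    rwa [enorm_zero, ENNReal.zero_rpow_of_pos (by norm_num)] at h9

theorem delta_RI {s : ℝ} (h0 : 3 / 4 < s) (h2 : s < 2) (h1 : s ≠ 1) {r : ℝ} (hr : 0 < r) {τ : ℝ}
    (hτ : 0 < τ) {φ : ℝ → HS} {y : E3} {μ : ℂ} (hφ : Delta r φ y μ) :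
    Tendsto (fun m : ℝ => RI s r τ (φ m)) atTop (𝓝 (μ • gX s r τ y)) := by
  have e1 : (fun m : ℝ => RI s r τ (φ m)) =
      fun m => mulL (indB r) (FT.symm (mulL (mI s τ) (FT (φ m)))) := by
    funext m
    rw [RI_eq h0 h2 hr hτ, hφ.cut m, multL_apply]
  have e2 : μ • gX s r τ y =
      mulL (indB r) (FT.symm (μ • mulL (efun (-y)) (mIH s τ))) := by
    rw [gX, map_smul, map_smul]
  rw [e1, e2]
  exact ((mulL (indB r)).continuous.tendsto _).comp
    ((FT.symm.continuous.tendsto _).comp (DelA_L2 h0 h2 h1 hτ hφ))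

theorem Delta.sub {r : ℝ} {φ ψ : ℝ → HS} {y : E3} {μ ν : ℂ} (hφ : Delta r φ y μ)
    (hψ : Delta r ψ y ν) : Delta r (fun m => φ m - ψ m) y (μ - ν) := by
  have hi : ∀ m, Integrable (φ m : E3 → ℂ) := DelA_int hφ
  have hj : ∀ m, Integrable (ψ m : E3 → ℂ) := DelA_int hψ
  have hb : ∀ m, ∀ᵐ x ∂(volume : Measure E3), ‖((φ m - ψ m : HS) : E3 → ℂ) x‖ ≤
      ‖(φ m : E3 → ℂ) x‖ + ‖(ψ m : E3 → ℂ) x‖ := by
    intro m
    filter_upwards [Lp.coeFn_sub (φ m) (ψ m)] with x hx
    rw [hx, Pi.sub_apply]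
    exact norm_sub_le _ _
  have hk : ∀ m, Integrable ((φ m - ψ m : HS) : E3 → ℂ) := fun m =>
    ((hi m).sub (hj m)).congr (Lp.coeFn_sub (φ m) (ψ m)).symm
  refine ⟨fun m => ?_, ?_, fun δ hδ => ?_, ?_⟩
  · rw [map_sub, hφ.cut m, hψ.cut m]
  · obtain ⟨C, hC⟩ := hφ.l1
    obtain ⟨D, hD⟩ := hψ.l1
    refine ⟨C + D, ?_⟩
    filter_upwards [hC, hD] with m h1 h2
    refine (integral_mono_ae (hk m).norm ((hi m).norm.add (hj m).norm) (hb m)).trans ?_
    rw [show (∫ x, ((fun x => ‖(φ m : E3 → ℂ) x‖) + fun x => ‖(ψ m : E3 → ℂ) x‖) x) =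
      (∫ x, ‖(φ m : E3 → ℂ) x‖) + ∫ x, ‖(ψ m : E3 → ℂ) x‖ from integral_add (hi m).norm (hj m).norm]
    exact add_le_add h1 h2
  · have hs := (hφ.conc δ hδ).add (hψ.conc δ hδ)
    rw [add_zero] at hs
    refine squeeze_zero (fun m => integral_nonneg fun x => norm_nonneg _) (fun m => ?_) hs
    rw [← integral_add (hi m).norm.integrableOn (hj m).norm.integrableOn]
    exact integral_mono_ae (hk m).norm.integrableOn
      ((hi m).norm.integrableOn.add (hj m).norm.integrableOn) (ae_restrict_of_ae (hb m))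
  · have hs := hφ.mass.sub hψ.mass
    refine hs.congr fun m => ?_
    rw [← integral_sub (hi m) (hj m)]
    apply integral_congr_ae
    filter_upwards [Lp.coeFn_sub (φ m) (ψ m)] with x hx
    rw [hx, Pi.sub_apply]

end FracScatC

end
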