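import Pool.Agent.Lib.MP_6e2ba5_an.Dx.KerCb
import Pool.Agent.Lib.MP_6e2ba5_an.Dx.DelA

/-! # Separated concentrating sources

`pr (RI (φ m)) (ψ m) = ∫∫ G(a-b) φ_m(b) ψ_m(a) db da` with `G = GI s τ` (`multL (mI s τ) f = ∫ GI(x-x') f(x') dx'` a.e. for
integrable `f ∈ L²`: `conv_sub` in `Rx/OffN.lean`, private: copy it), only differences `a - b` with `δ ≤ ‖a-b‖ ≤ 2r` occur,
where the continuous kernel `k` of `kerC` is bounded and uniformly continuous. Since `φ_m` concentrates at `x ∈ closure S`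
(if `x ∉ closure S` then `‖φ_m‖_{L¹} → 0` and the claim is easy), `ψ_m` at `y`: replace `k(a-b)` by the constant `k(y-x)` up to
a small error where `a` is near `y` and `b` near `x`; the rest has small `L¹` norm. The constant gives
`k(y-x) (∫ φ_m) (∫ ψ_m) → 0`. (If `‖y - x‖ < δ`, one of the two `L¹` norms tends to `0`.) -/

set_option autoImplicit false

open MeasureTheory Filter Topology Set
open scoped FourierTransform SchwartzMap InnerProductSpace ENNReal BoundedContinuousFunction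

noncomputable section

namespace FracScatC

open FracScat

/-- The double integral with a bounded continuous kernel. -/
private theorem dbl_bound {kt : E3 → ℂ} (hc : Continuous kt) {K : ℝ} (hK : ∀ z, ‖kt z‖ ≤ K)
    {ε η : ℝ} (hε : 0 ≤ ε) {x y : E3}
    (huc : ∀ a b : E3, ‖a - y‖ < η → ‖b - x‖ < η → ‖kt (a - b) - kt (y - x)‖ ≤ ε)
    {f g : E3 → ℂ} (hf : Integrable f) (hg : Integrable g) :
    ‖(∫ a, (∫ b, kt (a - b) * f b) * g a) - kt (y - x) * (∫ b, f b) * ∫ a, g a‖ ≤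
      ε * (∫ b, ‖f b‖) * (∫ a, ‖g a‖) +
        2 * K * (∫ b, ‖f b‖) * (∫ a in {a : E3 | η ≤ ‖a - y‖}, ‖g a‖) +
        2 * K * (∫ b in {b : E3 | η ≤ ‖b - x‖}, ‖f b‖) * (∫ a, ‖g a‖) := by
  have hK0 : 0 ≤ K := (norm_nonneg _).trans (hK 0)
  have hmy : MeasurableSet {a : E3 | η ≤ ‖a - y‖} :=
    measurableSet_le measurable_const (measurable_id.sub_const y).norm
  have hmx : MeasurableSet {b : E3 | η ≤ ‖b - x‖} :=
    measurableSet_le measurable_const (measurable_id.sub_const x).norm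
  have hkf : ∀ a, Integrable fun b => kt (a - b) * f b := by
    intro a
    refine hf.bdd_mul (c := K) ?_ ?_
    · exact (hc.comp (continuous_const.sub continuous_id)).aestronglyMeasurable
    · exact Eventually.of_forall fun b => hK _
  -- the inner integral is continuous in `a`
  have hcont : Continuous fun a => ∫ b, kt (a - b) * f b := by
    refine continuous_of_dominated (bound := fun b => K * ‖f b‖) ?_ ?_ ?_ ?_
    · exact fun a => (hkf a).aestronglyMeasurable
    · intro a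
      refine Eventually.of_forall fun b => ?_
      rw [norm_mul]
      exact mul_le_mul_of_nonneg_right (hK _) (norm_nonneg _)
    · exact hf.norm.const_mul K
    · exact Eventually.of_forall fun b =>
        (hc.comp (continuous_id.sub continuous_const)).mul continuous_const
  have hJ : ∀ a, (∫ b, kt (a - b) * f b) - kt (y - x) * ∫ b, f b =
      ∫ b, (kt (a - b) - kt (y - x)) * f b := by
    intro a
    rw [← integral_const_mul, ← integral_sub (hkf a) (hf.const_mul _)]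
    refine integral_congr_ae (Eventually.of_forall fun b => ?_)
    simp only
    ring
  have hIn : ∀ a, ‖∫ b, kt (a - b) * f b‖ ≤ K * ∫ b, ‖f b‖ := by
    intro a
    rw [← integral_const_mul]
    refine norm_integral_le_of_norm_le (hf.norm.const_mul K) (Eventually.of_forall fun b => ?_)
    rw [norm_mul]
    exact mul_le_mul_of_nonneg_right (hK _) (norm_nonneg _)
  have hint : Integrable fun a => (∫ b, kt (a - b) * f b) * g a :=
    hg.bdd_mul (c := K * ∫ b, ‖f b‖) hcont.aestronglyMeasurable (Eventually.of_forall hIn)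
  have hdiff : (∫ a, (∫ b, kt (a - b) * f b) * g a) - kt (y - x) * (∫ b, f b) * ∫ a, g a =
      ∫ a, (∫ b, (kt (a - b) - kt (y - x)) * f b) * g a := by
    rw [← integral_const_mul, ← integral_sub hint (hg.const_mul _)]
    refine integral_congr_ae (Eventually.of_forall fun a => ?_)
    simp only
    rw [← hJ a]
    ring
  have hJb : ∀ a, ‖∫ b, (kt (a - b) - kt (y - x)) * f b‖ ≤
      (ε + {a : E3 | η ≤ ‖a - y‖}.indicator (fun _ => 2 * K) a) * (∫ b, ‖f b‖) +
        2 * K * ∫ b in {b : E3 | η ≤ ‖b - x‖}, ‖f b‖ := by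
    intro a
    have hi2 : Integrable ({b : E3 | η ≤ ‖b - x‖}.indicator fun b => ‖f b‖) :=
      hf.norm.indicator hmx
    rw [← integral_indicator hmx, ← integral_const_mul, ← integral_const_mul,
      ← integral_add (hf.norm.const_mul _) (hi2.const_mul _)]
    refine norm_integral_le_of_norm_le ((hf.norm.const_mul _).add (hi2.const_mul _))
      (Eventually.of_forall fun b => ?_)
    rw [norm_mul]
    have h2K : ‖kt (a - b) - kt (y - x)‖ ≤ 2 * K := by
      calc ‖kt (a - b) - kt (y - x)‖ ≤ ‖kt (a - b)‖ + ‖kt (y - x)‖ := norm_sub_le _ _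
        _ ≤ 2 * K := by linarith [hK (a - b), hK (y - x)]
    have hfb := norm_nonneg (f b)
    by_cases ha : η ≤ ‖a - y‖
    · have e1 : {a : E3 | η ≤ ‖a - y‖}.indicator (fun _ => 2 * K) a = 2 * K :=
        indicator_of_mem (show a ∈ {a : E3 | η ≤ ‖a - y‖} from ha) _
      have e2 : 0 ≤ {b : E3 | η ≤ ‖b - x‖}.indicator (fun b => ‖f b‖) b :=
        indicator_nonneg (fun _ _ => norm_nonneg _) _
      rw [e1]
      have e3 : 0 ≤ 2 * K * {b : E3 | η ≤ ‖b - x‖}.indicator (fun b => ‖f b‖) b := by positivity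
      have e4 : ‖kt (a - b) - kt (y - x)‖ * ‖f b‖ ≤ (ε + 2 * K) * ‖f b‖ :=
        mul_le_mul_of_nonneg_right (by linarith) hfb
      linarith
    · have e1 : {a : E3 | η ≤ ‖a - y‖}.indicator (fun _ => 2 * K) a = 0 :=
        indicator_of_notMem (show a ∉ {a : E3 | η ≤ ‖a - y‖} from ha) _
      rw [e1, add_zero]
      by_cases hb : η ≤ ‖b - x‖
      · have e2 : {b : E3 | η ≤ ‖b - x‖}.indicator (fun b => ‖f b‖) b = ‖f b‖ :=
          indicator_of_mem (show b ∈ {b : E3 | η ≤ ‖b - x‖} from hb) _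
        rw [e2]
        have e3 : 0 ≤ ε * ‖f b‖ := by positivity
        have e4 : ‖kt (a - b) - kt (y - x)‖ * ‖f b‖ ≤ 2 * K * ‖f b‖ :=
          mul_le_mul_of_nonneg_right h2K hfb
        linarith
      · have e2 : {b : E3 | η ≤ ‖b - x‖}.indicator (fun b => ‖f b‖) b = 0 :=
          indicator_of_notMem (show b ∉ {b : E3 | η ≤ ‖b - x‖} from hb) _
        rw [e2, mul_zero, add_zero]
        exact mul_le_mul_of_nonneg_right (huc a b (not_le.1 ha) (not_le.1 hb)) hfb
  rw [hdiff]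
  set F1 : ℝ := ∫ b, ‖f b‖ with hF1
  set TF : ℝ := ∫ b in {b : E3 | η ≤ ‖b - x‖}, ‖f b‖ with hTF
  have hi3 : Integrable ({a : E3 | η ≤ ‖a - y‖}.indicator fun a => ‖g a‖) :=
    hg.norm.indicator hmy
  have hfin : ε * F1 * (∫ a, ‖g a‖) + 2 * K * F1 * (∫ a in {a : E3 | η ≤ ‖a - y‖}, ‖g a‖) +
      2 * K * TF * (∫ a, ‖g a‖) =
      ∫ a, ((ε * F1 + 2 * K * TF) * ‖g a‖ +
        2 * K * F1 * {a : E3 | η ≤ ‖a - y‖}.indicator (fun a => ‖g a‖) a) := by
    rw [integral_add (hg.norm.const_mul _) (hi3.const_mul _), integral_const_mul,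
      integral_const_mul, integral_indicator hmy]
    ring
  rw [hfin]
  refine norm_integral_le_of_norm_le ((hg.norm.const_mul _).add (hi3.const_mul _))
    (Eventually.of_forall fun a => ?_)
  rw [norm_mul]
  have h1 := mul_le_mul_of_nonneg_right (hJb a) (norm_nonneg (g a))
  refine h1.trans (le_of_eq ?_)
  by_cases ha : η ≤ ‖a - y‖
  · have e1 : {a : E3 | η ≤ ‖a - y‖}.indicator (fun _ => 2 * K) a = 2 * K :=
      indicator_of_mem (show a ∈ {a : E3 | η ≤ ‖a - y‖} from ha) _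
    have e2 : {a : E3 | η ≤ ‖a - y‖}.indicator (fun a => ‖g a‖) a = ‖g a‖ :=
      indicator_of_mem (show a ∈ {a : E3 | η ≤ ‖a - y‖} from ha) _
    rw [e1, e2]
    ring
  · have e1 : {a : E3 | η ≤ ‖a - y‖}.indicator (fun _ => 2 * K) a = 0 :=
      indicator_of_notMem (show a ∉ {a : E3 | η ≤ ‖a - y‖} from ha) _
    have e2 : {a : E3 | η ≤ ‖a - y‖}.indicator (fun a => ‖g a‖) a = 0 :=
      indicator_of_notMem (show a ∉ {a : E3 | η ≤ ‖a - y‖} from ha) _
    rw [e1, e2]
    ring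

/-- The limit of the double integrals. -/
private theorem dbl_tendsto {r : ℝ} {kt : E3 → ℂ} (hc : Continuous kt)
    (hs : HasCompactSupport kt) {φ ψ : ℝ → HS} {x y : E3} {μ : ℂ} (hφ : Delta r φ x μ)
    (hψ : Delta r ψ y 0) :
    Tendsto (fun m : ℝ => ∫ a, (∫ b, kt (a - b) * (φ m : E3 → ℂ) b) * (ψ m : E3 → ℂ) a) atTop
      (𝓝 0) := by
  obtain ⟨K, hK⟩ := hc.bounded_above_of_compact_support hs
  have hK0 : 0 ≤ K := (norm_nonneg _).trans (hK 0)
  have huc := hs.uniformContinuous_of_continuous hc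
  obtain ⟨C₁, hC₁⟩ := hφ.l1
  obtain ⟨C₂, hC₂⟩ := hψ.l1
  have hmain : Tendsto (fun m : ℝ => (∫ a, (∫ b, kt (a - b) * (φ m : E3 → ℂ) b) *
      (ψ m : E3 → ℂ) a) - kt (y - x) * (∫ b, (φ m : E3 → ℂ) b) * ∫ a, (ψ m : E3 → ℂ) a) atTop
      (𝓝 0) := by
    rw [Metric.tendsto_nhds]
    intro ε hε
    set C : ℝ := max 0 (max C₁ C₂) with hCdef
    have hC0 : 0 ≤ C := le_max_left _ _
    set ε' : ℝ := ε / (2 * (C * C + 1)) with hε'
    have hε'0 : 0 < ε' := by positivity
    obtain ⟨η₀, hη₀, hη⟩ := Metric.uniformContinuous_iff.1 huc ε' hε'0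
    set η : ℝ := η₀ / 2 with hηdef
    have hη0 : 0 < η := by positivity
    have hu : ∀ a b : E3, ‖a - y‖ < η → ‖b - x‖ < η → ‖kt (a - b) - kt (y - x)‖ ≤ ε' := by
      intro a b ha hb
      have h1 : dist (a - b) (y - x) < η₀ := by
        rw [dist_eq_norm]
        have h2 : a - b - (y - x) = (a - y) - (b - x) := by abel
        rw [h2]
        calc ‖(a - y) - (b - x)‖ ≤ ‖a - y‖ + ‖b - x‖ := norm_sub_le _ _
          _ < η₀ := by rw [hηdef] at ha hb; linarith
      have h3 := hη h1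
      rw [dist_eq_norm] at h3
      exact h3.le
    have hg1 := hψ.conc η hη0
    have hf1 := hφ.conc η hη0
    have hlim : Tendsto (fun m : ℝ => 2 * K * C *
        (∫ a in {a : E3 | η ≤ ‖a - y‖}, ‖(ψ m : E3 → ℂ) a‖) +
        2 * K * (∫ b in {b : E3 | η ≤ ‖b - x‖}, ‖(φ m : E3 → ℂ) b‖) * C) atTop (𝓝 0) := by
      have h1 := (hg1.const_mul (2 * K * C)).add ((hf1.const_mul (2 * K)).mul_const C)
      simpa using h1
    have hev := (Metric.tendsto_nhds.1 hlim) (ε / 2) (by positivity)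
    filter_upwards [hC₁, hC₂, hev] with m h1 h2 h3
    rw [dist_zero_right] at h3 ⊢
    have hfm : Integrable (φ m : E3 → ℂ) := integrable_of_indB (hφ.cut m)
    have hgm : Integrable (ψ m : E3 → ℂ) := integrable_of_indB (hψ.cut m)
    have hb := dbl_bound hc hK hε'0.le hu hfm hgm
    refine hb.trans_lt ?_
    have hF : ∫ b, ‖(φ m : E3 → ℂ) b‖ ≤ C :=
      h1.trans ((le_max_left _ _).trans (le_max_right _ _))
    have hG : ∫ a, ‖(ψ m : E3 → ℂ) a‖ ≤ C :=
      h2.trans ((le_max_right _ _).trans (le_max_right _ _))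
    have hF0 : 0 ≤ ∫ b, ‖(φ m : E3 → ℂ) b‖ := integral_nonneg fun _ => norm_nonneg _
    have hG0 : 0 ≤ ∫ a, ‖(ψ m : E3 → ℂ) a‖ := integral_nonneg fun _ => norm_nonneg _
    have hTF0 : 0 ≤ ∫ b in {b : E3 | η ≤ ‖b - x‖}, ‖(φ m : E3 → ℂ) b‖ :=
      integral_nonneg fun _ => norm_nonneg _
    have hTG0 : 0 ≤ ∫ a in {a : E3 | η ≤ ‖a - y‖}, ‖(ψ m : E3 → ℂ) a‖ :=
      integral_nonneg fun _ => norm_nonneg _
    have e1 : ε' * (∫ b, ‖(φ m : E3 → ℂ) b‖) * (∫ a, ‖(ψ m : E3 → ℂ) a‖) ≤ ε' * (C * C) := by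
      rw [mul_assoc]
      exact mul_le_mul_of_nonneg_left (mul_le_mul hF hG hG0 hC0) hε'0.le
    have e1' : ε' * (C * C) < ε / 2 := by
      rw [hε', div_mul_eq_mul_div, div_lt_div_iff₀ (by positivity) (by norm_num)]
      nlinarith [mul_nonneg hC0 hC0]
    have e2 : 2 * K * (∫ b, ‖(φ m : E3 → ℂ) b‖) *
        (∫ a in {a : E3 | η ≤ ‖a - y‖}, ‖(ψ m : E3 → ℂ) a‖) ≤
        2 * K * C * (∫ a in {a : E3 | η ≤ ‖a - y‖}, ‖(ψ m : E3 → ℂ) a‖) :=
      mul_le_mul_of_nonneg_right (mul_le_mul_of_nonneg_left hF (by positivity)) hTG0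
    have e3 : 2 * K * (∫ b in {b : E3 | η ≤ ‖b - x‖}, ‖(φ m : E3 → ℂ) b‖) *
        (∫ a, ‖(ψ m : E3 → ℂ) a‖) ≤
        2 * K * (∫ b in {b : E3 | η ≤ ‖b - x‖}, ‖(φ m : E3 → ℂ) b‖) * C :=
      mul_le_mul_of_nonneg_left hG (by positivity)
    have h4 := (abs_lt.1 h3).2
    linarith
  have hprod : Tendsto (fun m : ℝ => kt (y - x) * (∫ b, (φ m : E3 → ℂ) b) *
      ∫ a, (ψ m : E3 → ℂ) a) atTop (𝓝 0) := by
    have h1 := (hφ.mass.const_mul (kt (y - x))).mul hψ.mass
    simpa using h1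
  have h := hmain.add hprod
  simpa using h

private theorem conv_sub' {s : ℝ} (h0 : 3 / 4 < s) (h2 : s < 2) (h1 : s ≠ 1) {τ : ℝ} (hτ : 0 < τ)
    {f : HS} (hf : Integrable (f : E3 → ℂ)) :
    (multL (mI s τ) f : E3 → ℂ) =ᵐ[volume] fun x => ∫ x', (GI s τ : E3 → ℂ) (x - x') *
      (f : E3 → ℂ) x' := by
  have hs : 0 < s := by linarith
  have e := multL_conv (mI_BM hs h2 h1 hτ) (FT_GI (mI_memLp h0 h2 h1 hτ)) hf
  filter_upwards [e] with x hx
  rw [hx]
  have := integral_sub_left_eq_self (fun z => (GI s τ : E3 → ℂ) z * (f : E3 → ℂ) (x - z)) volume x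
  rw [← this]
  refine integral_congr_ae (Eventually.of_forall fun x' => ?_)
  simp only [sub_sub_cancel]

/-- the cut off function -/
private def chi (δ r t : ℝ) : ℝ := max 0 (min 1 (min (2 * t / δ - 1) (2 - t / (2 * r))))

private theorem chi_cont (δ r : ℝ) : Continuous (chi δ r) := by
  unfold chi
  fun_prop

private theorem chi_one {δ r t : ℝ} (hδ : 0 < δ) (hr : 0 < r) (h1 : δ ≤ t) (h2 : t ≤ 2 * r) :
    chi δ r t = 1 := by
  unfold chi
  have e1 : 1 ≤ 2 * t / δ - 1 := by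
    have : 2 ≤ 2 * t / δ := by
      rw [le_div_iff₀ hδ]
      linarith
    linarith
  have e2 : 1 ≤ 2 - t / (2 * r) := by
    have : t / (2 * r) ≤ 1 := by
      rw [div_le_one (by positivity)]
      exact h2
    linarith
  rw [min_eq_left (le_min e1 e2), max_eq_right zero_le_one]

private theorem chi_zero_small {δ r t : ℝ} (hδ : 0 < δ) (h1 : t ≤ δ / 2) : chi δ r t = 0 := by
  unfold chi
  have e1 : 2 * t / δ - 1 ≤ 0 := by
    have : 2 * t / δ ≤ 1 := by
      rw [div_le_one hδ]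
      linarith
    linarith
  exact max_eq_left ((min_le_right _ _).trans ((min_le_left _ _).trans e1))

private theorem chi_zero_large {δ r t : ℝ} (hr : 0 < r) (h1 : 4 * r ≤ t) : chi δ r t = 0 := by
  unfold chi
  have e1 : 2 - t / (2 * r) ≤ 0 := by
    have : 2 ≤ t / (2 * r) := by
      rw [le_div_iff₀ (by positivity)]
      linarith
    linarith
  exact max_eq_left ((min_le_right _ _).trans ((min_le_right _ _).trans e1))

theorem delta_sep {s : ℝ} (h0 : 3 / 4 < s) (h2 : s < 2) (h1 : s ≠ 1) {r : ℝ} (hr : 0 < r) {τ : ℝ}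
    (hτ : 0 < τ) {φ ψ : ℝ → HS} {x y : E3} {μ : ℂ} (hφ : Delta r φ x μ) (hψ : Delta r ψ y 0)
    {S T : Set E3} (hS : MeasurableSet S) (hT : MeasurableSet T) {δ : ℝ} (hδ : 0 < δ)
    (hST : ∀ a ∈ S, ∀ b ∈ T, δ ≤ ‖a - b‖)
    (hφS : ∀ m, ∀ᵐ z ∂(volume : Measure E3), z ∉ S → (φ m : E3 → ℂ) z = 0)
    (hψT : ∀ m, ∀ᵐ z ∂(volume : Measure E3), z ∉ T → (ψ m : E3 → ℂ) z = 0) :
    Tendsto (fun m : ℝ => pr (RI s r τ (φ m)) (ψ m)) atTop (𝓝 0) := by
  obtain ⟨k, hkc, hke⟩ := kerC h0 h2 h1 hτ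
  set kt : E3 → ℂ := fun z => ((chi δ r ‖z‖ : ℝ) : ℂ) * k z with hkt
  have hcc : Continuous kt := by
    rw [continuous_iff_continuousAt]
    intro z
    by_cases hz : z = 0
    · have hev : ∀ᶠ w in 𝓝 z, kt w = 0 := by
        have : Metric.ball (0 : E3) (δ / 2) ∈ 𝓝 z := by
          rw [hz]
          exact Metric.ball_mem_nhds _ (by positivity)
        filter_upwards [this] with w hw
        rw [mem_ball_zero_iff] at hw
        simp only [hkt]
        rw [chi_zero_small hδ hw.le]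
        simp
      exact (continuousAt_congr hev).2 continuousAt_const
    · have hk1 : ContinuousAt k z :=
        hkc.continuousAt (isOpen_ne.mem_nhds hz)
      have hk2 : Continuous fun w : E3 => ((chi δ r ‖w‖ : ℝ) : ℂ) :=
        Complex.continuous_ofReal.comp ((chi_cont δ r).comp continuous_norm)
      exact hk2.continuousAt.mul hk1
  have hsupp : HasCompactSupport kt := by
    refine HasCompactSupport.intro (isCompact_closedBall (0 : E3) (4 * r)) fun z hz => ?_
    rw [mem_closedBall_zero_iff, not_le] at hz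
    simp only [hkt]
    rw [chi_zero_large hr hz.le]
    simp
  have hmp : ∀ a : E3, MeasurePreserving (fun b : E3 => a - b) volume volume := fun a =>
    Measure.measurePreserving_sub_left volume a
  have hcutae : ∀ g : HS, mulL (indB r) g = g →
      ∀ᵐ z ∂(volume : Measure E3), ¬ ‖z‖ < r → (g : E3 → ℂ) z = 0 := by
    intro g hg
    have h3 := mulL_coe (indB_BM r) g
    rw [hg] at h3
    filter_upwards [h3] with z hz hzr
    rw [hz]
    unfold indB
    rw [if_neg hzr, zero_mul]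
  refine (dbl_tendsto hcc hsupp hφ hψ).congr fun m => ?_
  rw [pr_eq, RI_eq h0 h2 hr hτ, hφ.cut m]
  refine integral_congr_ae ?_
  filter_upwards [mulL_coe (indB_BM r) (multL (mI s τ) (φ m)), conv_sub' h0 h2 h1 hτ
    (integrable_of_indB (hφ.cut m)), hcutae _ (hψ.cut m), hψT m] with a ha1 ha2 ha3 ha4
  rw [ha1, ha2]
  by_cases hψa : (ψ m : E3 → ℂ) a = 0
  · rw [hψa, mul_zero, mul_zero]
  have har : ‖a‖ < r := by
    by_contra h
    exact hψa (ha3 h)
  have haT : a ∈ T := by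
    by_contra h
    exact hψa (ha4 h)
  have hind : indB r a = 1 := by
    unfold indB
    rw [if_pos har]
  rw [hind, one_mul]
  congr 1
  refine integral_congr_ae ?_
  filter_upwards [(hmp a).quasiMeasurePreserving.ae hke, hcutae _ (hφ.cut m), hφS m]
    with b hb1 hb2 hb3
  by_cases hφb : (φ m : E3 → ℂ) b = 0
  · rw [hφb, mul_zero, mul_zero]
  have hbr : ‖b‖ < r := by
    by_contra h
    exact hφb (hb2 h)
  have hbS : b ∈ S := by
    by_contra h
    exact hφb (hb3 h)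
  rw [hb1]
  simp only [hkt]
  have e1 : δ ≤ ‖a - b‖ := by
    rw [norm_sub_rev]
    exact hST b hbS a haT
  have e2 : ‖a - b‖ ≤ 2 * r := by
    calc ‖a - b‖ ≤ ‖a‖ + ‖b‖ := norm_sub_le _ _
      _ ≤ 2 * r := by linarith
  rw [chi_one hδ hr e1 e2, Complex.ofReal_one, one_mul]

end FracScatC

end
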