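import Pool.Agent.Lib.MP_6e2ba5_an.Dx.Defs

/-! # A dimension count

Choose for every `c ∈ S` an element `g(c) ∈ F` with `R c (g c)`. The map `g(c) ↦ c` is Lipschitz on `Q = g(S)` (well defined by the
estimate), so `dimH S ≤ dimH Q ≤ finrank ℝ F = 2 finrank ℂ F < N` (`LipschitzOnWith.dimH_image_le`, `dimH_mono`,
`Real.dimH_univ_eq_finrank` or similar), and `dense_compl_of_dimH_lt_finrank` applies (`finrank ℝ (Fin N → ℝ) = N`). -/

set_option autoImplicit false

open MeasureTheory Filter Topology Set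
open scoped FourierTransform SchwartzMap InnerProductSpace ENNReal BoundedContinuousFunction

noncomputable section

namespace FracScatC

open FracScat

theorem dimL {F : Submodule ℂ HS} [FiniteDimensional ℂ F] {N : ℕ}
    (hN : 2 * Module.finrank ℂ F < N) {S : Set (Fin N → ℝ)} {R : (Fin N → ℝ) → F → Prop}
    (hS : ∀ c ∈ S, ∃ g : F, R c g) {C : ℝ} (hC : 0 ≤ C)
    (hR : ∀ c c' : Fin N → ℝ, ∀ g g' : F, R c g → R c' g' → ‖c - c'‖ ≤ C * ‖g - g'‖) :
    Dense Sᶜ := by
  classical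
  set Q : Set F := {g : F | ∃ c ∈ S, R c g} with hQ
  have hch : ∀ g : F, ∃ c : Fin N → ℝ, g ∈ Q → (c ∈ S ∧ R c g) := by
    intro g
    by_cases hg : g ∈ Q
    · obtain ⟨c, hc, hcg⟩ := hg
      exact ⟨c, fun _ => ⟨hc, hcg⟩⟩
    · exact ⟨0, fun h => absurd h hg⟩
  choose f hf using hch
  have hlip : LipschitzOnWith C.toNNReal f Q := by
    rw [lipschitzOnWith_iff_dist_le_mul]
    intro x hx y hy
    rw [dist_eq_norm, dist_eq_norm, Real.coe_toNNReal C hC]
    exact hR _ _ _ _ (hf x hx).2 (hf y hy).2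
  have himg : S ⊆ f '' Q := by
    intro c hc
    obtain ⟨g, hg⟩ := hS c hc
    have hgQ : g ∈ Q := ⟨c, hc, hg⟩
    refine ⟨g, hgQ, ?_⟩
    have h1 := hR _ _ _ _ (hf g hgQ).2 hg
    rw [sub_self, norm_zero, mul_zero] at h1
    exact sub_eq_zero.1 (norm_le_zero_iff.1 h1)
  have hfin : FiniteDimensional ℝ F := FiniteDimensional.complexToReal F
  apply dense_compl_of_dimH_lt_finrank
  calc dimH S ≤ dimH (f '' Q) := dimH_mono himg
    _ ≤ dimH Q := hlip.dimH_image_le
    _ ≤ dimH (univ : Set F) := dimH_mono (subset_univ _)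
    _ = (Module.finrank ℝ F : ℝ≥0∞) := Real.dimH_univ_eq_finrank F
    _ < (Module.finrank ℝ (Fin N → ℝ) : ℝ≥0∞) := by
      rw [Module.finrank_fin_fun, ← Module.finrank_mul_finrank ℝ ℂ F, Complex.finrank_real_complex]
      exact_mod_cast hN

end FracScatC

end
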