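import Pool.Agent.Lib.MP_6e2ba5_an.Dx.Defs

/-! # The directions and the normalised sources: definitions

`em m ω = -(m ϑ + (ω/(4m)) ϑ')`, `ϑ = dv - i bv`, `ϑ' = dv + i bv`, `ϑ·ϑ = ϑ'·ϑ' = 0`, `ϑ·ϑ' = 2`, so `em·em = ω`.
For real `ω` the real part of `em m ω · x` is `-(m + ω/(4m)) dv·x`. -/

set_option autoImplicit false

open MeasureTheory Filter Topology Set
open scoped FourierTransform SchwartzMap InnerProductSpace ENNReal BoundedContinuousFunction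

noncomputable section

namespace FracScatC

open FracScat

/-- The octant cone `{x | c ‖x - y‖ ≤ dv·(x-y)}`. -/
def cone (y : E3) (c : ℝ) : Set E3 := {x | c * ‖x - y‖ ≤ ⟪dv, x - y⟫_ℝ}

/-- The source `V exp(η·x)`, `η = em m ω`, normalised at `y`, times `m³`. -/
def nz (r : ℝ) (V : E3 → ℂ) (ω : ℂ) (y : E3) (m : ℝ) : HS :=
  ((m : ℂ) ^ 3 * Complex.exp (-cd (em m ω) y)) • mulL V (ec r (em m ω))

/-- `∏ 1/ϑ_j`. -/
def T0 : ℂ := ∏ j, (vt j)⁻¹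

/-- The entire function of `ω`. -/
def Phm (r : ℝ) (f : HS) (xD y₀ : E3) (m : ℝ) (ω : ℂ) : ℂ :=
  (m : ℂ) ^ 6 * Complex.exp (-cd (em m ω) (xD + y₀)) * pr f (ec r (fun j => 2 * em m ω j))

/-- The main term. -/
def Xm (s r : ℝ) (V₁ V₂ : E3 → ℂ) (l : ℝ) (xD y₀ : E3) (τ m : ℝ) : ℂ :=
  (m : ℂ) ^ 6 * Complex.exp (-cd (em m ((τ ^ 2 : ℝ) : ℂ)) (xD + y₀)) *
    pr (mulL ((cube xD l).indicator fun _ => (1 : ℂ)) (ec r (em m ((τ ^ 2 : ℝ) : ℂ))))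
      (SI s r V₁ τ (ec r (em m ((τ ^ 2 : ℝ) : ℂ))) - SI s r V₂ τ (ec r (em m ((τ ^ 2 : ℝ) : ℂ))))

end FracScatC

end
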