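import Pool.Agent.Lib.MP_6e2ba5_an.Dx.RIb

/-! # The difference of the resolvent kernels at high energies

`|Dk| ≤ ‖gX x‖ ‖TI V₁ - TI V₂‖ ‖gX y‖ ≤ 4M C² τ^(3-4s) → 0` (`norm_pr_le`, `TI_norm`, `gX_norm`). -/

set_option autoImplicit false

open MeasureTheory Filter Topology Set
open scoped FourierTransform SchwartzMap InnerProductSpace ENNReal BoundedContinuousFunction

noncomputable section

namespace FracScatC

open FracScat

theorem Dk_lim {s : ℝ} (h0 : 3 / 4 < s) (h2 : s < 2) (h1 : s ≠ 1) {r : ℝ} {M K : ℝ}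
    (hK : KOK s r M K) {V₁ V₂ : E3 → ℂ} (hV₁ : IsPot r M V₁) (hV₂ : IsPot r M V₂) (x y : E3) :
    Tendsto (fun τ : ℝ => Dk s r V₁ V₂ τ x y) atTop (𝓝 0) := by
  obtain ⟨C, hC0, hC⟩ := gX_norm h0 h2 h1 r
  have hlim : Tendsto (fun τ : ℝ => 4 * M * C ^ 2 * τ ^ (-(4 * s - 3))) atTop (𝓝 0) := by
    have h := (tendsto_rpow_neg_atTop (show (0 : ℝ) < 4 * s - 3 by linarith)).const_mul
      (4 * M * C ^ 2)
    rwa [mul_zero] at h
  refine squeeze_zero_norm' ?_ hlim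
  filter_upwards [eventually_ge_atTop K, eventually_gt_atTop (0 : ℝ)] with τ hτ hτ0
  have hp : 0 ≤ τ ^ (3 / 2 - 2 * s) := Real.rpow_nonneg hτ0.le _
  have hx := hC τ hτ0 x
  have hy := hC τ hτ0 y
  have hT1 := TI_norm hK hV₁ hτ
  have hT2 := TI_norm hK hV₂ hτ
  have hM : 0 ≤ M := by
    have := norm_nonneg (TI s r V₁ τ)
    linarith
  have hT : ‖TI s r V₁ τ - TI s r V₂ τ‖ ≤ 4 * M := by
    refine (norm_sub_le _ _).trans ?_
    linarith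
  have hA : ‖(TI s r V₁ τ - TI s r V₂ τ) (gX s r τ y)‖ ≤ 4 * M * (C * τ ^ (3 / 2 - 2 * s)) :=
    ((TI s r V₁ τ - TI s r V₂ τ).le_opNorm _).trans
      (mul_le_mul hT hy (norm_nonneg _) (by positivity))
  have hpow : τ ^ (3 / 2 - 2 * s) * τ ^ (3 / 2 - 2 * s) = τ ^ (-(4 * s - 3)) := by
    rw [← Real.rpow_add hτ0]
    congr 1
    ring
  calc ‖Dk s r V₁ V₂ τ x y‖
      ≤ ‖gX s r τ x‖ * ‖(TI s r V₁ τ - TI s r V₂ τ) (gX s r τ y)‖ := norm_pr_le _ _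
    _ ≤ (C * τ ^ (3 / 2 - 2 * s)) * (4 * M * (C * τ ^ (3 / 2 - 2 * s))) :=
        mul_le_mul hx hA (norm_nonneg _) (mul_nonneg hC0 hp)
    _ = 4 * M * C ^ 2 * (τ ^ (3 / 2 - 2 * s) * τ ^ (3 / 2 - 2 * s)) := by ring
    _ = 4 * M * C ^ 2 * τ ^ (-(4 * s - 3)) := by rw [hpow]

end FracScatC

end
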