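import Pool.Agent.Lib.MP_6e2ba5_an.Dx.GXp

/-! # The perturbed kernel at high energies

`u = SI s r V τ (gX s r τ y) = gX y + RI (V u)` (`UK_fix`), `z = zt s τ`, `|z| = τ^(2s)`. `gX y = 1_B GI(· - y)` (`gX_coe`), so by `offE` (`Rx/OffE.lean`,
translated) `z² gX y → κ kf(· - y)` in `L²(F_δ)`, `F_δ = {‖x‖ < r, ‖x-y‖ ≥ δ}`; in particular `‖1_{F_δ} gX y‖ = O(|z|^(-2))`. `‖u‖ ≤ 2‖gX‖ → 0`
(`gX_norm`). Claim: `‖1_{F_δ} u‖ = O(|z|^(-2))` for every `δ > 0`: write `V u = f_n + f_f`, `f_n = 1_{‖x-y‖<δ/2} V u`, `f_f` the rest. `RI f_n` on `F_δ`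
is off-diagonal (`offB` in `Rx/OffN.lean`, `RI_eq`): `‖1_{F_δ} RI f_n‖ ≤ C |z|^(-2) ‖f_n‖_{L¹} ≤ C' |z|^(-2)`, and `‖RI f_f‖ ≤ C |z|^(-1) M ‖1_{F_{δ/2}} u‖`
(`multI_norm`). So `e_δ = ‖1_{F_δ} u‖ ≤ C|z|^(-2) + C|z|^(-1) e_{δ/2}`; use it twice (`e_{δ/4} ≤ C`). Then
`z² u - κ kf(·-y) = (z² gX y - κ kf) + z² RI f_n + z² RI f_f` on `F_δ`, with `‖1_{F_δ} z² RI f_n‖ ≤ C ‖f_n‖_{L¹} ≤ C ‖u‖ → 0`,
`‖z² RI f_f‖ ≤ C |z| e_{δ/2} = O(|z|^(-1))`. The constant `κ` is that of `offE`. -/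

set_option autoImplicit false

open MeasureTheory Filter Topology Set
open scoped FourierTransform SchwartzMap InnerProductSpace ENNReal BoundedContinuousFunction

noncomputable section

namespace FracScatC

open FracScat

private theorem fg_sq (h : HS) :
    ∫⁻ x, ‖(h : E3 → ℂ) x‖ₑ ^ 2 = ENNReal.ofReal (‖h‖ ^ 2) := by
  have h1 : eLpNorm (h : E3 → ℂ) 2 (volume : Measure E3) ≠ ⊤ := (Lp.memLp h).2.ne
  rw [Lp.norm_def, ← ENNReal.toReal_pow, ENNReal.ofReal_toReal (ENNReal.pow_ne_top h1),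
    eLpNorm_eq_lintegral_rpow_enorm_toReal two_ne_zero ENNReal.ofNat_ne_top]
  rw [← ENNReal.rpow_natCast, ← ENNReal.rpow_mul]
  norm_num

/-- The far part of the ball. -/
private def Fs (r δ : ℝ) (y : E3) : Set E3 := {x : E3 | ‖x‖ < r ∧ δ ≤ ‖x - y‖}

private theorem Fs_meas (r δ : ℝ) (y : E3) : MeasurableSet (Fs r δ y) := by
  have h : Measurable fun x : E3 => ‖x - y‖ := (measurable_id.sub_const y).norm
  exact (measurableSet_lt measurable_norm measurable_const).inter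
    (measurableSet_le measurable_const h)

private theorem Fs_ann {r δ : ℝ} {y : E3} (hy : ‖y‖ < r) (k : E3 → ℂ) :
    ∫⁻ x in Fs r δ y, ‖k (x - y)‖ₑ ^ 2 ≤
      ∫⁻ x in {x : E3 | δ ≤ ‖x‖ ∧ ‖x‖ ≤ 2 * r}, ‖k x‖ₑ ^ 2 := by
  have hA : MeasurableSet {x : E3 | δ ≤ ‖x‖ ∧ ‖x‖ ≤ 2 * r} :=
    (measurableSet_le measurable_const measurable_norm).inter
      (measurableSet_le measurable_norm measurable_const)
  rw [← lintegral_indicator (Fs_meas r δ y), ← lintegral_indicator hA,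
    ← lintegral_sub_right_eq_self
      ({x : E3 | δ ≤ ‖x‖ ∧ ‖x‖ ≤ 2 * r}.indicator fun x => ‖k x‖ₑ ^ 2) y]
  refine lintegral_mono fun x => ?_
  by_cases hx : x ∈ Fs r δ y
  · have h3 : x - y ∈ {x : E3 | δ ≤ ‖x‖ ∧ ‖x‖ ≤ 2 * r} := by
      refine ⟨hx.2, ?_⟩
      have h4 := norm_sub_le x y
      have h5 := hx.1
      linarith
    rw [indicator_of_mem hx, indicator_of_mem h3]
  · rw [indicator_of_notMem hx]
    exact zero_le

private theorem three_sq (a b c : ℂ) :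
    ‖a + b + c‖ₑ ^ 2 ≤ 3 * (‖a‖ₑ ^ 2 + ‖b‖ₑ ^ 2 + ‖c‖ₑ ^ 2) := by
  have h1 : ‖a + b + c‖ ^ 2 ≤ 3 * (‖a‖ ^ 2 + ‖b‖ ^ 2 + ‖c‖ ^ 2) := by
    have h2 : ‖a + b + c‖ ≤ ‖a‖ + ‖b‖ + ‖c‖ := norm_add₃_le
    have h3 := pow_le_pow_left₀ (norm_nonneg _) h2 2
    nlinarith [sq_nonneg (‖a‖ - ‖b‖), sq_nonneg (‖b‖ - ‖c‖), sq_nonneg (‖a‖ - ‖c‖)]
  have h2 := ENNReal.ofReal_le_ofReal h1
  rw [ENNReal.ofReal_mul (by norm_num), ENNReal.ofReal_add (by positivity) (by positivity),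
    ENNReal.ofReal_add (by positivity) (by positivity), ENNReal.ofReal_pow (norm_nonneg _),
    ENNReal.ofReal_pow (norm_nonneg _), ENNReal.ofReal_pow (norm_nonneg _),
    ENNReal.ofReal_pow (norm_nonneg _), ofReal_norm, ofReal_norm,
    ofReal_norm, ofReal_norm] at h2
  simpa using h2

private theorem split3 {F : Set E3} (hF : MeasurableSet F) {g a b c : E3 → ℂ}
    (ha : AEStronglyMeasurable a volume) (hb : AEStronglyMeasurable b volume)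
    (h : ∀ᵐ x ∂(volume : Measure E3), x ∈ F → g x = a x + b x + c x) :
    ∫⁻ x in F, ‖g x‖ₑ ^ 2 ≤ 3 * ((∫⁻ x in F, ‖a x‖ₑ ^ 2) + (∫⁻ x in F, ‖b x‖ₑ ^ 2) +
      ∫⁻ x in F, ‖c x‖ₑ ^ 2) := by
  have ha' : AEMeasurable (fun x => ‖a x‖ₑ ^ 2) (volume.restrict F) :=
    (ha.restrict.enorm).pow_const 2
  have hb' : AEMeasurable (fun x => ‖b x‖ₑ ^ 2) (volume.restrict F) :=
    (hb.restrict.enorm).pow_const 2
  have hab : AEMeasurable (fun x => ‖a x‖ₑ ^ 2 + ‖b x‖ₑ ^ 2) (volume.restrict F) := ha'.add hb'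
  calc ∫⁻ x in F, ‖g x‖ₑ ^ 2
      ≤ ∫⁻ x in F, 3 * ((‖a x‖ₑ ^ 2 + ‖b x‖ₑ ^ 2) + ‖c x‖ₑ ^ 2) := by
        refine lintegral_mono_ae ?_
        rw [ae_restrict_iff' hF]
        filter_upwards [h] with x hx hxF
        rw [hx hxF]
        exact three_sq _ _ _
    _ = 3 * ∫⁻ x in F, ((‖a x‖ₑ ^ 2 + ‖b x‖ₑ ^ 2) + ‖c x‖ₑ ^ 2) :=
        lintegral_const_mul' _ _ (by norm_num)
    _ = _ := by
        rw [lintegral_add_left' hab, lintegral_add_left' ha']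

private theorem l1_sq (r : ℝ) : ∃ c : ℝ, 0 ≤ c ∧ ∀ f : HS,
    (∀ᵐ x ∂(volume : Measure E3), r ≤ ‖x‖ → (f : E3 → ℂ) x = 0) →
    Integrable (f : E3 → ℂ) ∧
      (∫⁻ x, ‖(f : E3 → ℂ) x‖ₑ) ^ 2 ≤ ENNReal.ofReal (c * ‖f‖ ^ 2) := by
  set B : ℝ≥0∞ := (volume : Measure E3) (Metric.closedBall 0 r) with hB
  have hBt : B ≠ ∞ := measure_closedBall_lt_top.ne
  refine ⟨B.toReal, ENNReal.toReal_nonneg, fun f hf => ?_⟩
  have hfi : Integrable (f : E3 → ℂ) := by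
    refine integrable_of_indB (r := r) ?_
    apply Lp.ext
    filter_upwards [mulL_coe (indB_BM r) f, hf] with x a b
    rw [a]
    unfold indB
    by_cases hx : ‖x‖ < r
    · rw [if_pos hx, one_mul]
    · rw [if_neg hx, zero_mul, b (not_lt.1 hx)]
  refine ⟨hfi, ?_⟩
  have e : ∫⁻ x, ‖(f : E3 → ℂ) x‖ₑ = ∫⁻ x in Metric.closedBall (0 : E3) r, ‖(f : E3 → ℂ) x‖ₑ := by
    rw [← lintegral_indicator Metric.isClosed_closedBall.measurableSet]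
    refine lintegral_congr_ae ?_
    filter_upwards [hf] with x hx
    by_cases hxr : x ∈ Metric.closedBall (0 : E3) r
    · rw [indicator_of_mem hxr]
    · rw [indicator_of_notMem hxr]
      have : r ≤ ‖x‖ := by
        rw [Metric.mem_closedBall, dist_zero_right, not_le] at hxr
        exact hxr.le
      rw [hx this, enorm_zero]
  have hCS : ∫⁻ x in Metric.closedBall (0 : E3) r, ‖(f : E3 → ℂ) x‖ₑ ≤
      ENNReal.ofReal ‖f‖ * B ^ (1 / 2 : ℝ) := by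
    have h3 : eLpNorm (f : E3 → ℂ) 1 (volume.restrict (Metric.closedBall (0 : E3) r)) ≤
        eLpNorm (f : E3 → ℂ) 2 (volume.restrict (Metric.closedBall (0 : E3) r)) *
          (volume.restrict (Metric.closedBall (0 : E3) r)) Set.univ ^
            (1 / (1 : ℝ≥0∞).toReal - 1 / (2 : ℝ≥0∞).toReal) :=
      eLpNorm_le_eLpNorm_mul_rpow_measure_univ (by norm_num) (Lp.aestronglyMeasurable f).restrict
    rw [eLpNorm_one_eq_lintegral_enorm, Measure.restrict_apply_univ] at h3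
    have h4 : eLpNorm (f : E3 → ℂ) 2 (volume.restrict (Metric.closedBall (0 : E3) r)) ≤
        ENNReal.ofReal ‖f‖ := by
      rw [Lp.norm_def, ENNReal.ofReal_toReal (Lp.eLpNorm_ne_top f)]
      exact eLpNorm_mono_measure _ Measure.restrict_le_self
    have e5 : (1 / (1 : ℝ≥0∞).toReal - 1 / (2 : ℝ≥0∞).toReal) = (1 / 2 : ℝ) := by
      rw [ENNReal.toReal_one, ENNReal.toReal_ofNat]; norm_num
    rw [e5] at h3
    exact h3.trans (mul_le_mul_left h4 _)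
  rw [e]
  refine (pow_le_pow_left' hCS 2).trans (le_of_eq ?_)
  rw [mul_pow, ← ENNReal.rpow_natCast (B ^ (1 / 2 : ℝ)), ← ENNReal.rpow_mul,
    ← ENNReal.ofReal_pow (norm_nonneg _)]
  have e6 : (1 / 2 : ℝ) * ((2 : ℕ) : ℝ) = 1 := by norm_num
  rw [e6, ENNReal.rpow_one, mul_comm B.toReal, ENNReal.ofReal_mul (by positivity),
    ENNReal.ofReal_toReal hBt]

/-- The near part and the far part of the source. -/
private def ff (y : E3) (ρ : ℝ) (V : E3 → ℂ) (u : HS) : HS := mulL (indF y ρ) (mulL V u)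

private def fn (y : E3) (ρ : ℝ) (V : E3 → ℂ) (u : HS) : HS := mulL V u - ff y ρ V u

private theorem fn_coe {r M : ℝ} {V : E3 → ℂ} (hV : IsPot r M V) (y : E3) (ρ : ℝ) (u : HS) :
    (fn y ρ V u : E3 → ℂ) =ᵐ[volume] fun x => (1 - indF y ρ x) * (V x * (u : E3 → ℂ) x) := by
  filter_upwards [Lp.coeFn_sub (mulL V u) (ff y ρ V u), mulL_coe (indF_BM y ρ) (mulL V u),
    mulL_coe hV.BM u] with x a b c
  have e1 : (ff y ρ V u : E3 → ℂ) x = indF y ρ x * (mulL V u : E3 → ℂ) x := b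
  unfold fn
  rw [a, Pi.sub_apply, e1, c]
  ring

private theorem fn_zero {r M : ℝ} {V : E3 → ℂ} (hV : IsPot r M V) (y : E3) (ρ : ℝ) (u : HS) :
    ∀ᵐ x ∂(volume : Measure E3), x ∉ ({x : E3 | ‖x - y‖ < ρ} ∩ Metric.closedBall 0 r) →
      (fn y ρ V u : E3 → ℂ) x = 0 := by
  filter_upwards [fn_coe hV y ρ u] with x a hx
  rw [a]
  by_cases hxr : r ≤ ‖x‖
  · rw [hV.vanish x hxr]
    ring
  · have : ρ ≤ ‖x - y‖ := by
      by_contra h'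
      exact hx ⟨not_le.1 h', mem_closedBall_zero_iff.2 (not_le.1 hxr).le⟩
    simp [indF, this]

private theorem fn_norm {r M : ℝ} {V : E3 → ℂ} (hV : IsPot r M V) (y : E3) (ρ : ℝ) (u : HS) :
    ‖fn y ρ V u‖ ≤ M * ‖u‖ := by
  have hM : 0 ≤ M := (norm_nonneg _).trans (hV.bounded 0)
  refine Lp.norm_le_mul_norm_of_ae_le_mul ?_
  filter_upwards [fn_coe hV y ρ u] with x a
  rw [a, norm_mul, norm_mul]
  have e1 : ‖1 - indF y ρ x‖ ≤ 1 := by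
    unfold indF
    split <;> simp
  have e2 : ‖V x‖ * ‖(u : E3 → ℂ) x‖ ≤ M * ‖(u : E3 → ℂ) x‖ :=
    mul_le_mul_of_nonneg_right (hV.bounded x) (norm_nonneg _)
  calc ‖1 - indF y ρ x‖ * (‖V x‖ * ‖(u : E3 → ℂ) x‖) ≤ 1 * (M * ‖(u : E3 → ℂ) x‖) :=
        mul_le_mul e1 e2 (by positivity) zero_le_one
    _ = _ := one_mul _

private theorem ff_sq {r M : ℝ} {V : E3 → ℂ} (hV : IsPot r M V) (y : E3) (ρ : ℝ) (u : HS) {b : ℝ}
    (hb : ∫⁻ x in Fs r ρ y, ‖(u : E3 → ℂ) x‖ₑ ^ 2 ≤ ENNReal.ofReal b) :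
    ENNReal.ofReal (‖ff y ρ V u‖ ^ 2) ≤ ENNReal.ofReal (M ^ 2 * b) := by
  have hM : 0 ≤ M := (norm_nonneg _).trans (hV.bounded 0)
  rw [← fg_sq]
  calc ∫⁻ x, ‖(ff y ρ V u : E3 → ℂ) x‖ₑ ^ 2
      ≤ ∫⁻ x, (Fs r ρ y).indicator
          (fun x => ENNReal.ofReal (M ^ 2) * ‖(u : E3 → ℂ) x‖ₑ ^ 2) x := by
        refine lintegral_mono_ae ?_
        filter_upwards [mulL_coe (indF_BM y ρ) (mulL V u), mulL_coe hV.BM u] with x a c
        have e1 : (ff y ρ V u : E3 → ℂ) x = indF y ρ x * (V x * (u : E3 → ℂ) x) := by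
          rw [← c]
          exact a
        by_cases hx : x ∈ Fs r ρ y
        · rw [indicator_of_mem hx, e1, ← ofReal_norm, ← ofReal_norm,
            ← ENNReal.ofReal_pow (norm_nonneg _), ← ENNReal.ofReal_pow (norm_nonneg _),
            ← ENNReal.ofReal_mul (by positivity), ← mul_pow]
          refine ENNReal.ofReal_le_ofReal (pow_le_pow_left₀ (norm_nonneg _) ?_ 2)
          have e3 : indF y ρ x = 1 := by
            unfold indF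
            rw [if_pos hx.2]
          rw [e3, one_mul, norm_mul]
          exact mul_le_mul_of_nonneg_right (hV.bounded x) (norm_nonneg _)
        · rw [indicator_of_notMem hx, e1]
          have : indF y ρ x * (V x * (u : E3 → ℂ) x) = 0 := by
            by_cases hxr : r ≤ ‖x‖
            · rw [hV.vanish x hxr]
              ring
            · have : ¬ ρ ≤ ‖x - y‖ := fun h' => hx ⟨not_le.1 hxr, h'⟩
              simp [indF, this]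
          rw [this, enorm_zero]
          simp
    _ = ENNReal.ofReal (M ^ 2) * ∫⁻ x in Fs r ρ y, ‖(u : E3 → ℂ) x‖ₑ ^ 2 := by
        rw [lintegral_indicator (Fs_meas r ρ y), lintegral_const_mul' _ _ ENNReal.ofReal_ne_top]
    _ ≤ ENNReal.ofReal (M ^ 2) * ENNReal.ofReal b := by gcongr
    _ = _ := by rw [ENNReal.ofReal_mul (by positivity)]

/-- The decomposition of the field on the ball. -/
private theorem u_split {s : ℝ} (h0 : 3 / 4 < s) (h2 : s < 2) (h1 : s ≠ 1) {r M K : ℝ}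
    (hr : 0 < r) (hK : KOK s r M K) {V : E3 → ℂ} (hV : IsPot r M V) (y : E3) (ρ : ℝ) {τ : ℝ}
    (hτ : K ≤ τ) :
    ∀ᵐ x ∂(volume : Measure E3), ‖x‖ < r → (SI s r V τ (gX s r τ y) : E3 → ℂ) x =
      (GI s τ : E3 → ℂ) (x - y) +
      (multL (mI s τ) (fn y ρ V (SI s r V τ (gX s r τ y))) : E3 → ℂ) x +
      (multL (mI s τ) (ff y ρ V (SI s r V τ (gX s r τ y))) : E3 → ℂ) x := by
  have hτ0 : 0 < τ := by linarith [hK.one]
  set u : HS := SI s r V τ (gX s r τ y) with hu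
  have e0 : u = gX s r τ y + RI s r τ (mulL V u) := by
    have := UK_fix hV (hK.ri τ hτ) (gX s r τ y)
    rw [← SI_eq] at this
    exact this
  have e1 : mulL (indB r) (mulL V u) = mulL V u := by
    apply Lp.ext
    filter_upwards [mulL_coe (indB_BM r) (mulL V u), mulL_coe hV.BM u] with x a b
    rw [a]
    unfold indB
    by_cases hx : ‖x‖ < r
    · rw [if_pos hx, one_mul]
    · rw [if_neg hx, zero_mul, b, hV.vanish x (not_lt.1 hx), zero_mul]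
  have e2 : RI s r τ (mulL V u) = mulL (indB r) (multL (mI s τ) (mulL V u)) := by
    rw [RI_eq h0 h2 hr hτ0, e1]
  have e3 : multL (mI s τ) (mulL V u) =
      multL (mI s τ) (fn y ρ V u) + multL (mI s τ) (ff y ρ V u) := by
    rw [← map_add]
    unfold fn
    rw [sub_add_cancel]
  have e4 : (u : E3 → ℂ) =ᵐ[volume]
      ((gX s r τ y + mulL (indB r) (multL (mI s τ) (mulL V u)) : HS) : E3 → ℂ) := by
    rw [← e2, ← e0]
  filter_upwards [e4, Lp.coeFn_add (gX s r τ y) (mulL (indB r) (multL (mI s τ) (mulL V u))),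
    gX_coe h0 h2 h1 r hτ0 y, mulL_coe (indB_BM r) (multL (mI s τ) (mulL V u)),
    Lp.coeFn_add (multL (mI s τ) (fn y ρ V u)) (multL (mI s τ) (ff y ρ V u))] with x a b c d e hx
  have e5 : indB r x = 1 := by
    unfold indB
    rw [if_pos hx]
  rw [a, b, Pi.add_apply, c, d, e5, one_mul, one_mul, e3, e, Pi.add_apply, add_assoc]

private theorem u_sq {s : ℝ} (h0 : 3 / 4 < s) (h2 : s < 2) (h1 : s ≠ 1) (r : ℝ) :
    ∃ C : ℝ, 0 ≤ C ∧ ∀ {M K : ℝ}, KOK s r M K → ∀ {V : E3 → ℂ}, IsPot r M V → ∀ (y : E3)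
      {τ : ℝ}, K ≤ τ → ‖SI s r V τ (gX s r τ y)‖ ^ 2 ≤ C * τ ^ (3 - 4 * s) := by
  obtain ⟨C, hC, h⟩ := gX_norm h0 h2 h1 r
  refine ⟨(2 * C) ^ 2, by positivity, fun {M K} hK {V} hV y {τ} hτ => ?_⟩
  have hτ0 : 0 < τ := by linarith [hK.one]
  have e1 := norm_UK_le hV (hK.ri τ hτ) (gX s r τ y)
  rw [← SI_eq] at e1
  have e2 : ‖SI s r V τ (gX s r τ y)‖ ≤ 2 * C * τ ^ (3 / 2 - 2 * s) := by
    have := h τ hτ0 y
    linarith
  have e3 := pow_le_pow_left₀ (norm_nonneg _) e2 2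
  refine e3.trans (le_of_eq ?_)
  rw [mul_pow, ← Real.rpow_natCast (τ ^ (3 / 2 - 2 * s)), ← Real.rpow_mul hτ0.le]
  congr 2
  push_cast
  ring

/-- The near part: off-diagonal. -/
private theorem near_part {s : ℝ} (h0 : 3 / 4 < s) (h2 : s < 2) (h1 : s ≠ 1) {r M K : ℝ}
    (hK : KOK s r M K) {V : E3 → ℂ} (hV : IsPot r M V) (y : E3) {δ : ℝ} (hδ : 0 < δ) :
    ∃ C K' : ℝ, 0 ≤ C ∧ K ≤ K' ∧ ∀ τ : ℝ, K' ≤ τ →
      ∫⁻ x in Fs r δ y, ‖(multL (mI s τ) (fn y (δ / 2) V (SI s r V τ (gX s r τ y))) : E3 → ℂ) x‖ₑ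
        ^ 2 ≤ ENNReal.ofReal (C * (τ ^ (-(8 * s)) * τ ^ (3 - 4 * s))) := by
  have hM : 0 ≤ M := (norm_nonneg _).trans (hV.bounded 0)
  obtain ⟨C₁, K₁, hC₁, hK₁, hO⟩ := offB h0 h2 h1 (δ / 2) (2 * r) (by positivity)
  obtain ⟨c, hc, hl⟩ := l1_sq r
  obtain ⟨C₂, hC₂, hu⟩ := u_sq h0 h2 h1 r
  refine ⟨C₁ * (c * (M ^ 2 * C₂)), max K K₁, by positivity, le_max_left _ _, fun τ hτ => ?_⟩
  have hτK : K ≤ τ := (le_max_left _ _).trans hτ
  have hτ1 : K₁ ≤ τ := (le_max_right _ _).trans hτ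
  have hτ0 : 0 < τ := by linarith [hK.one]
  set u : HS := SI s r V τ (gX s r τ y) with hud
  set f : HS := fn y (δ / 2) V u with hf
  have hz := fn_zero hV y (δ / 2) u
  have hz' : ∀ᵐ x ∂(volume : Measure E3), r ≤ ‖x‖ → (f : E3 → ℂ) x = 0 := by
    filter_upwards [fn_coe hV y (δ / 2) u] with x a hx
    rw [a, hV.vanish x hx]
    ring
  obtain ⟨hfi, hfL⟩ := hl f hz'
  set S : Set E3 := {x : E3 | ‖x - y‖ < δ / 2} ∩ Metric.closedBall 0 r with hS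
  have hSm : MeasurableSet S :=
    (measurableSet_lt (by fun_prop) measurable_const).inter measurableSet_closedBall
  have hST : ∀ x ∈ Fs r δ y, ∀ x' ∈ S, δ / 2 ≤ ‖x - x'‖ ∧ ‖x - x'‖ ≤ 2 * r := by
    rintro x ⟨hx1, hx2⟩ x' ⟨hx1', hx2'⟩
    have hx1b : ‖x' - y‖ < δ / 2 := hx1'
    rw [mem_closedBall_zero_iff] at hx2'
    constructor
    · have e1 : x - y = (x - x') + (x' - y) := by abel
      have e2 : ‖x - y‖ ≤ ‖x - x'‖ + ‖x' - y‖ := by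
        rw [e1]
        exact norm_add_le _ _
      linarith
    · have e1 := norm_sub_le x x'
      linarith
  have hfn : ‖f‖ ^ 2 ≤ M ^ 2 * (C₂ * τ ^ (3 - 4 * s)) := by
    have e1 := pow_le_pow_left₀ (norm_nonneg _) (fn_norm hV y (δ / 2) u) 2
    rw [mul_pow] at e1
    exact e1.trans (mul_le_mul_of_nonneg_left (hu hK hV y hτK) (by positivity))
  calc ∫⁻ x in Fs r δ y, ‖(multL (mI s τ) f : E3 → ℂ) x‖ₑ ^ 2
      ≤ ENNReal.ofReal (C₁ * τ ^ (-(8 * s))) * (∫⁻ x, ‖(f : E3 → ℂ) x‖ₑ) ^ 2 :=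
        hO τ hτ1 f hfi S (Fs r δ y) hSm (Fs_meas r δ y) hz hST
    _ ≤ ENNReal.ofReal (C₁ * τ ^ (-(8 * s))) *
          ENNReal.ofReal (c * (M ^ 2 * (C₂ * τ ^ (3 - 4 * s)))) := by
        refine mul_le_mul_right ?_ _
        exact hfL.trans (ENNReal.ofReal_le_ofReal (mul_le_mul_of_nonneg_left hfn hc))
    _ = _ := by
        rw [← ENNReal.ofReal_mul (by positivity)]
        congr 1
        ring

/-- The far part. -/
private theorem far_part {s : ℝ} (h0 : 3 / 4 < s) (h2 : s < 2) (h1 : s ≠ 1) {r M : ℝ}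
    {V : E3 → ℂ} (hV : IsPot r M V) :
    ∃ C : ℝ, 0 ≤ C ∧ ∀ (y : E3) (ρ : ℝ) (u : HS) (T : Set E3) {τ b : ℝ}, 0 < τ →
      ∫⁻ x in Fs r ρ y, ‖(u : E3 → ℂ) x‖ₑ ^ 2 ≤ ENNReal.ofReal b →
      ∫⁻ x in T, ‖(multL (mI s τ) (ff y ρ V u) : E3 → ℂ) x‖ₑ ^ 2 ≤
        ENNReal.ofReal (C * (τ ^ (-(4 * s)) * b)) := by
  have hM : 0 ≤ M := (norm_nonneg _).trans (hV.bounded 0)
  obtain ⟨C₀, hC₀, hN⟩ := multI_norm (s := s) (by linarith) h2 h1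
  refine ⟨C₀ ^ 2 * M ^ 2, by positivity, fun y ρ u T {τ b} hτ hb => ?_⟩
  refine (setLIntegral_le_lintegral _ _).trans ?_
  rw [fg_sq]
  have e1 : ‖multL (mI s τ) (ff y ρ V u)‖ ≤ C₀ * τ ^ (-(2 * s)) * ‖ff y ρ V u‖ :=
    ((multL (mI s τ)).le_opNorm _).trans (mul_le_mul_of_nonneg_right (hN τ hτ) (norm_nonneg _))
  have e2 := pow_le_pow_left₀ (norm_nonneg _) e1 2
  refine (ENNReal.ofReal_le_ofReal e2).trans ?_
  rw [mul_pow, ENNReal.ofReal_mul (by positivity)]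
  refine (mul_le_mul_right (ff_sq hV y ρ u hb) _).trans (le_of_eq ?_)
  rw [← ENNReal.ofReal_mul (by positivity)]
  congr 1
  have e3 : (τ ^ (-(2 * s))) ^ 2 = τ ^ (-(4 * s)) := by
    rw [← Real.rpow_natCast, ← Real.rpow_mul hτ.le]
    congr 1
    push_cast
    ring
  rw [mul_pow, e3]
  ring

private theorem GI_part {s : ℝ} (h0 : 3 / 4 < s) (h2 : s < 2) (h1 : s ≠ 1) (r : ℝ) {δ : ℝ}
    (hδ : 0 < δ) :
    ∃ C K : ℝ, 0 ≤ C ∧ 1 ≤ K ∧ ∀ y : E3, ‖y‖ < r → ∀ τ : ℝ, K ≤ τ →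
      ∫⁻ x in Fs r δ y, ‖(GI s τ : E3 → ℂ) (x - y)‖ₑ ^ 2 ≤
        ENNReal.ofReal (C * τ ^ (-(8 * s))) := by
  obtain ⟨C, K, hC, hK, h⟩ := offE2 h0 h2 h1 δ (2 * r) hδ
  exact ⟨C, K, hC, hK, fun y hy τ hτ => (Fs_ann hy _).trans (h τ hτ)⟩

private theorem GI_meas (s τ : ℝ) (y : E3) :
    AEStronglyMeasurable (fun x : E3 => (GI s τ : E3 → ℂ) (x - y)) volume :=
  ((Lp.stronglyMeasurable (GI s τ)).measurable.comp
    (measurable_id.sub_const y)).aestronglyMeasurable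

private theorem rec_step {s : ℝ} (h0 : 3 / 4 < s) (h2 : s < 2) (h1 : s ≠ 1) {r M K : ℝ}
    (hr : 0 < r) (hK : KOK s r M K) {V : E3 → ℂ} (hV : IsPot r M V) {y : E3} (hy : ‖y‖ < r)
    {δ : ℝ} (hδ : 0 < δ) :
    ∃ C K' : ℝ, 0 ≤ C ∧ K ≤ K' ∧ ∀ τ : ℝ, K' ≤ τ → ∀ b : ℝ, 0 ≤ b →
      ∫⁻ x in Fs r (δ / 2) y, ‖(SI s r V τ (gX s r τ y) : E3 → ℂ) x‖ₑ ^ 2 ≤ ENNReal.ofReal b →
      ∫⁻ x in Fs r δ y, ‖(SI s r V τ (gX s r τ y) : E3 → ℂ) x‖ₑ ^ 2 ≤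
        ENNReal.ofReal (C * (τ ^ (-(8 * s)) + τ ^ (-(4 * s)) * b)) := by
  obtain ⟨C₁, K₁, hC₁, hK₁, hG⟩ := GI_part h0 h2 h1 r hδ
  obtain ⟨C₂, K₂, hC₂, hK₂, hn⟩ := near_part h0 h2 h1 hK hV y hδ
  obtain ⟨C₃, hC₃, hf⟩ := far_part h0 h2 h1 hV
  refine ⟨3 * (C₁ + C₂ + C₃), max K₁ K₂, by positivity, hK₂.trans (le_max_right _ _),
    fun τ hτ b hb0 hb => ?_⟩
  have hτ1 : K₁ ≤ τ := (le_max_left _ _).trans hτ
  have hτ2 : K₂ ≤ τ := (le_max_right _ _).trans hτ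
  have hτ3 : 1 ≤ τ := hK₁.trans hτ1
  have hτ0 : 0 < τ := by linarith
  have hs := u_split h0 h2 h1 hr hK hV y (δ / 2) (hK₂.trans hτ2)
  set u : HS := SI s r V τ (gX s r τ y) with hu
  have e1 := split3 (Fs_meas r δ y) (g := (u : E3 → ℂ)) (GI_meas s τ y)
    (Lp.aestronglyMeasurable (multL (mI s τ) (fn y (δ / 2) V u)))
    (c := (multL (mI s τ) (ff y (δ / 2) V u) : E3 → ℂ))
    (by filter_upwards [hs] with x hx hxF using hx hxF.1)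
  refine e1.trans ?_
  have q1 : τ ^ (3 - 4 * s) ≤ 1 := Real.rpow_le_one_of_one_le_of_nonpos hτ3 (by linarith)
  have q2 : 0 ≤ τ ^ (-(8 * s)) := by positivity
  have q3 : 0 ≤ τ ^ (-(4 * s)) * b := by positivity
  have a1 := hG y hy τ hτ1
  have a2 : ∫⁻ x in Fs r δ y, ‖(multL (mI s τ) (fn y (δ / 2) V u) : E3 → ℂ) x‖ₑ ^ 2 ≤
      ENNReal.ofReal (C₂ * τ ^ (-(8 * s))) := by
    refine (hn τ hτ2).trans (ENNReal.ofReal_le_ofReal ?_)
    refine mul_le_mul_of_nonneg_left ?_ hC₂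
    calc τ ^ (-(8 * s)) * τ ^ (3 - 4 * s) ≤ τ ^ (-(8 * s)) * 1 :=
          mul_le_mul_of_nonneg_left q1 q2
      _ = _ := mul_one _
  have a3 := hf y (δ / 2) u (Fs r δ y) hτ0 hb
  calc 3 * ((∫⁻ x in Fs r δ y, ‖(GI s τ : E3 → ℂ) (x - y)‖ₑ ^ 2) +
        (∫⁻ x in Fs r δ y, ‖(multL (mI s τ) (fn y (δ / 2) V u) : E3 → ℂ) x‖ₑ ^ 2) +
        ∫⁻ x in Fs r δ y, ‖(multL (mI s τ) (ff y (δ / 2) V u) : E3 → ℂ) x‖ₑ ^ 2)
      ≤ 3 * (ENNReal.ofReal (C₁ * τ ^ (-(8 * s))) + ENNReal.ofReal (C₂ * τ ^ (-(8 * s))) +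
          ENNReal.ofReal (C₃ * (τ ^ (-(4 * s)) * b))) := by gcongr
    _ = ENNReal.ofReal (3 * (C₁ * τ ^ (-(8 * s)) + C₂ * τ ^ (-(8 * s)) +
          C₃ * (τ ^ (-(4 * s)) * b))) := by
        rw [ENNReal.ofReal_mul (p := 3) (by norm_num),
          ENNReal.ofReal_add (by positivity) (by positivity),
          ENNReal.ofReal_add (by positivity) (by positivity), ENNReal.ofReal_ofNat]
    _ ≤ _ := by
        refine ENNReal.ofReal_le_ofReal ?_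
        have r1 := mul_nonneg hC₃ q2
        have r2 := mul_nonneg hC₁ q3
        have r3 := mul_nonneg hC₂ q3
        nlinarith

private theorem far_field {s : ℝ} (h0 : 3 / 4 < s) (h2 : s < 2) (h1 : s ≠ 1) {r M K : ℝ}
    (hr : 0 < r) (hK : KOK s r M K) {V : E3 → ℂ} (hV : IsPot r M V) {y : E3} (hy : ‖y‖ < r)
    {δ : ℝ} (hδ : 0 < δ) :
    ∃ C K' : ℝ, 0 ≤ C ∧ K ≤ K' ∧ ∀ τ : ℝ, K' ≤ τ →
      ∫⁻ x in Fs r δ y, ‖(SI s r V τ (gX s r τ y) : E3 → ℂ) x‖ₑ ^ 2 ≤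
        ENNReal.ofReal (C * τ ^ (-(8 * s))) := by
  obtain ⟨C₀, hC₀, hu⟩ := u_sq h0 h2 h1 r
  obtain ⟨C₁, K₁, hC₁, hK₁, hA⟩ := rec_step h0 h2 h1 hr hK hV hy (half_pos hδ)
  obtain ⟨C₂, K₂, hC₂, hK₂, hB⟩ := rec_step h0 h2 h1 hr hK hV hy hδ
  refine ⟨C₂ * (1 + C₁ * (1 + C₀)), max K₁ K₂, by positivity, hK₁.trans (le_max_left _ _),
    fun τ hτ => ?_⟩
  have hτ1 : K₁ ≤ τ := (le_max_left _ _).trans hτ
  have hτ2 : K₂ ≤ τ := (le_max_right _ _).trans hτ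
  have hτK : K ≤ τ := hK₁.trans hτ1
  have hτ3 : 1 ≤ τ := hK.one.trans hτK
  have hτ0 : 0 < τ := by linarith
  have q1 : τ ^ (3 - 4 * s) ≤ 1 := Real.rpow_le_one_of_one_le_of_nonpos hτ3 (by linarith)
  have b0 : ∫⁻ x in Fs r (δ / 2 / 2) y, ‖(SI s r V τ (gX s r τ y) : E3 → ℂ) x‖ₑ ^ 2 ≤
      ENNReal.ofReal C₀ := by
    refine (setLIntegral_le_lintegral _ _).trans ?_
    rw [fg_sq]
    refine ENNReal.ofReal_le_ofReal ((hu hK hV y hτK).trans ?_)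
    calc C₀ * τ ^ (3 - 4 * s) ≤ C₀ * 1 := mul_le_mul_of_nonneg_left q1 hC₀
      _ = C₀ := mul_one _
  have e4 : τ ^ (-(4 * s)) * τ ^ (-(4 * s)) = τ ^ (-(8 * s)) := by
    rw [← Real.rpow_add hτ0]
    congr 1
    ring
  have p4 : 0 ≤ τ ^ (-(4 * s)) := by positivity
  have e5 : τ ^ (-(8 * s)) ≤ τ ^ (-(4 * s)) :=
    Real.rpow_le_rpow_of_exponent_le hτ3 (by linarith)
  have b1 : ∫⁻ x in Fs r (δ / 2) y, ‖(SI s r V τ (gX s r τ y) : E3 → ℂ) x‖ₑ ^ 2 ≤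
      ENNReal.ofReal (C₁ * (1 + C₀) * τ ^ (-(4 * s))) := by
    refine (hA τ hτ1 C₀ hC₀ b0).trans (ENNReal.ofReal_le_ofReal ?_)
    have : τ ^ (-(8 * s)) + τ ^ (-(4 * s)) * C₀ ≤ (1 + C₀) * τ ^ (-(4 * s)) := by linarith
    calc C₁ * (τ ^ (-(8 * s)) + τ ^ (-(4 * s)) * C₀) ≤ C₁ * ((1 + C₀) * τ ^ (-(4 * s))) :=
          mul_le_mul_of_nonneg_left this hC₁
      _ = _ := by ring
  refine (hB τ hτ2 _ (by positivity) b1).trans (ENNReal.ofReal_le_ofReal (le_of_eq ?_))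
  have e6 : τ ^ (-(4 * s)) * (C₁ * (1 + C₀) * τ ^ (-(4 * s))) =
      C₁ * (1 + C₀) * τ ^ (-(8 * s)) := by
    rw [← e4]
    ring
  rw [e6]
  ring

theorem farG {s : ℝ} (h0 : 3 / 4 < s) (h2 : s < 2) (h1 : s ≠ 1) : ∃ κ : ℂ, κ ≠ 0 ∧
    ∀ {r M K : ℝ}, 0 < r → KOK s r M K → ∀ {V : E3 → ℂ}, IsPot r M V → ∀ {y : E3}, ‖y‖ < r →
    ∀ {δ : ℝ}, 0 < δ → Tendsto (fun τ : ℝ => ∫⁻ x in {x : E3 | ‖x‖ < r ∧ δ ≤ ‖x - y‖},
      ‖zt s τ ^ 2 * (SI s r V τ (gX s r τ y) : E3 → ℂ) x - κ * kf s (x - y)‖ₑ ^ 2)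
      atTop (𝓝 0) := by
  obtain ⟨κ, hκ, hE⟩ := offE h0 h2 h1
  refine ⟨κ, hκ, fun {r M K} hr hK {V} hV {y} hy {δ} hδ => ?_⟩
  have hM : 0 ≤ M := (norm_nonneg _).trans (hV.bounded 0)
  obtain ⟨C₁, K₁, hC₁, hK₁, hn⟩ := near_part h0 h2 h1 hK hV y hδ
  obtain ⟨C₂, hC₂, hf⟩ := far_part h0 h2 h1 hV
  obtain ⟨C₃, K₃, hC₃, hK₃, hu⟩ := far_field h0 h2 h1 hr hK hV hy (half_pos hδ)
  -- the bound
  have hev : ∀ᶠ τ : ℝ in atTop, ∫⁻ x in {x : E3 | ‖x‖ < r ∧ δ ≤ ‖x - y‖},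
      ‖zt s τ ^ 2 * (SI s r V τ (gX s r τ y) : E3 → ℂ) x - κ * kf s (x - y)‖ₑ ^ 2 ≤
      3 * ((∫⁻ x in {x : E3 | δ ≤ ‖x‖ ∧ ‖x‖ ≤ 2 * r},
        ‖zt s τ ^ 2 * (GI s τ : E3 → ℂ) x - κ * kf s x‖ₑ ^ 2) +
        ENNReal.ofReal (C₁ * τ ^ (-(4 * s - 3))) +
        ENNReal.ofReal (C₂ * C₃ * τ ^ (-(4 * s)))) := by
    filter_upwards [eventually_ge_atTop (max K₁ K₃)] with τ hτ
    have hτ1 : K₁ ≤ τ := (le_max_left _ _).trans hτ
    have hτ3 : K₃ ≤ τ := (le_max_right _ _).trans hτ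
    have hτK : K ≤ τ := hK₁.trans hτ1
    have hτ2 : 1 ≤ τ := hK.one.trans hτK
    have hτ0 : 0 < τ := by linarith
    have hs := u_split h0 h2 h1 hr hK hV y (δ / 2) hτK
    have hux := hu τ hτ3
    have hnx := hn τ hτ1
    set u : HS := SI s r V τ (gX s r τ y) with hud
    have hz : ‖zt s τ ^ 2‖ₑ ^ 2 = ENNReal.ofReal (τ ^ (8 * s)) := by
      rw [← ofReal_norm, ← ENNReal.ofReal_pow (norm_nonneg _), norm_pow, zt_norm hτ0]
      congr 1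
      rw [← pow_mul, ← Real.rpow_natCast, ← Real.rpow_mul hτ0.le]
      congr 1
      push_cast
      ring
    have e1 := split3 (Fs_meas r δ y)
      (g := fun x => zt s τ ^ 2 * (u : E3 → ℂ) x - κ * kf s (x - y))
      (a := fun x => zt s τ ^ 2 * (GI s τ : E3 → ℂ) (x - y) - κ * kf s (x - y))
      (b := fun x => zt s τ ^ 2 * (multL (mI s τ) (fn y (δ / 2) V u) : E3 → ℂ) x)
      (c := fun x => zt s τ ^ 2 * (multL (mI s τ) (ff y (δ / 2) V u) : E3 → ℂ) x)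
      (((GI_meas s τ y).const_mul _).sub
        (((kf_measurable s).comp (measurable_id.sub_const y)).aestronglyMeasurable.const_mul _))
      ((Lp.aestronglyMeasurable _).const_mul _)
      (by
        filter_upwards [hs] with x hx hxF
        rw [hx hxF.1]
        ring)
    refine e1.trans ?_
    have a1 := Fs_ann (δ := δ) hy (fun x => zt s τ ^ 2 * (GI s τ : E3 → ℂ) x - κ * kf s x)
    have a2 : ∫⁻ x in Fs r δ y,
        ‖zt s τ ^ 2 * (multL (mI s τ) (fn y (δ / 2) V u) : E3 → ℂ) x‖ₑ ^ 2 ≤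
        ENNReal.ofReal (C₁ * τ ^ (-(4 * s - 3))) := by
      have e2 : ∫⁻ x in Fs r δ y,
          ‖zt s τ ^ 2 * (multL (mI s τ) (fn y (δ / 2) V u) : E3 → ℂ) x‖ₑ ^ 2 =
          ENNReal.ofReal (τ ^ (8 * s)) * ∫⁻ x in Fs r δ y,
            ‖(multL (mI s τ) (fn y (δ / 2) V u) : E3 → ℂ) x‖ₑ ^ 2 := by
        rw [← lintegral_const_mul' _ _ ENNReal.ofReal_ne_top]
        refine lintegral_congr fun x => ?_
        rw [enorm_mul, mul_pow, hz]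
      rw [e2]
      refine (mul_le_mul_right hnx _).trans (le_of_eq ?_)
      rw [← ENNReal.ofReal_mul (by positivity)]
      congr 1
      have e3 : τ ^ (8 * s) * (τ ^ (-(8 * s)) * τ ^ (3 - 4 * s)) = τ ^ (-(4 * s - 3)) := by
        rw [← Real.rpow_add hτ0, ← Real.rpow_add hτ0]
        congr 1
        ring
      rw [← e3]
      ring
    have a3 : ∫⁻ x in Fs r δ y,
        ‖zt s τ ^ 2 * (multL (mI s τ) (ff y (δ / 2) V u) : E3 → ℂ) x‖ₑ ^ 2 ≤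
        ENNReal.ofReal (C₂ * C₃ * τ ^ (-(4 * s))) := by
      have e2 : ∫⁻ x in Fs r δ y,
          ‖zt s τ ^ 2 * (multL (mI s τ) (ff y (δ / 2) V u) : E3 → ℂ) x‖ₑ ^ 2 =
          ENNReal.ofReal (τ ^ (8 * s)) * ∫⁻ x in Fs r δ y,
            ‖(multL (mI s τ) (ff y (δ / 2) V u) : E3 → ℂ) x‖ₑ ^ 2 := by
        rw [← lintegral_const_mul' _ _ ENNReal.ofReal_ne_top]
        refine lintegral_congr fun x => ?_
        rw [enorm_mul, mul_pow, hz]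
      rw [e2]
      refine (mul_le_mul_right (hf y (δ / 2) u (Fs r δ y) hτ0 hux) _).trans (le_of_eq ?_)
      rw [← ENNReal.ofReal_mul (by positivity)]
      congr 1
      have e3 : τ ^ (8 * s) * (τ ^ (-(4 * s)) * τ ^ (-(8 * s))) = τ ^ (-(4 * s)) := by
        rw [← Real.rpow_add hτ0, ← Real.rpow_add hτ0]
        congr 1
        ring
      calc τ ^ (8 * s) * (C₂ * (τ ^ (-(4 * s)) * (C₃ * τ ^ (-(8 * s))))) =
          C₂ * C₃ * (τ ^ (8 * s) * (τ ^ (-(4 * s)) * τ ^ (-(8 * s)))) := by ring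
        _ = _ := by rw [e3]
    exact mul_le_mul_right (add_le_add (add_le_add a1 a2) a3) 3
  have t1 : Tendsto (fun τ : ℝ => ENNReal.ofReal (C₁ * τ ^ (-(4 * s - 3)))) atTop (𝓝 0) := by
    have h3 := (tendsto_rpow_neg_atTop (y := 4 * s - 3) (by linarith)).const_mul C₁
    rw [mul_zero] at h3
    have h4 := ENNReal.tendsto_ofReal h3
    rwa [ENNReal.ofReal_zero] at h4
  have t2 : Tendsto (fun τ : ℝ => ENNReal.ofReal (C₂ * C₃ * τ ^ (-(4 * s)))) atTop (𝓝 0) := by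
    have h3 := (tendsto_rpow_neg_atTop (y := 4 * s) (by linarith)).const_mul (C₂ * C₃)
    rw [mul_zero] at h3
    have h4 := ENNReal.tendsto_ofReal h3
    rwa [ENNReal.ofReal_zero] at h4
  have t3 := ENNReal.Tendsto.const_mul (a := 3) (((hE δ (2 * r) hδ).add t1).add t2)
    (Or.inr (by norm_num))
  rw [add_zero, add_zero, mul_zero] at t3
  exact tendsto_of_tendsto_of_tendsto_of_le_of_le' tendsto_const_nhds t3
    (Eventually.of_forall fun τ => zero_le) hev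

end FracScatC

end
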