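import Pool.Agent.Lib.MP_6e2ba5_an.Dx.Defs

/-! # The vanishing lemma

`fd7`: `Φ(ω) = ∑_{j<7} a_j ω^j + R(ω)` with `‖R(ω)‖ ≤ 2 A (‖ω‖/ρ)^7` for `‖ω‖ ≤ ρ/2` (Cauchy estimates for the Taylor
coefficients: `‖a_j‖ ≤ A ρ^(-j)`; `cderiv`/`HasFPowerSeriesOnBall` in Mathlib, or the iterated `dslope` at `0` and the
maximum principle). The seventh difference of a polynomial of degree `≤ 6` vanishes (`fwdDiff` in Mathlib, or
`decide`/`ring` on monomials). `vanish`: for fixed `ω₀ = τ²`, `h > 0`, `m` large, `fd7` with `ρ = m`, `A = C m⁶` gives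
`∑_j (-1)^j (7 choose j) Φ_m(ω₀ + j h) → 0`, so `∑_j (-1)^j (7 choose j) L(√(ω₀+jh)) = 0` for all `h > 0`. As `h → ∞` the
terms `j ≥ 1` tend to `0`, so `L(τ) = 0`. -/

set_option autoImplicit false

open MeasureTheory Filter Topology Set
open scoped FourierTransform SchwartzMap InnerProductSpace ENNReal BoundedContinuousFunction

noncomputable section

namespace FracScatC

open FracScat

private theorem pf8 (a h : ℂ) (hn : ∀ j : ℕ, j < 8 → a - (j : ℂ) * h ≠ 0) :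
    ∑ j ∈ Finset.range 8, (-1 : ℂ) ^ j * (Nat.choose 7 j : ℂ) * (a - (j : ℂ) * h)⁻¹ =
      -(5040 * h ^ 7) * ∏ j ∈ Finset.range 8, (a - (j : ℂ) * h)⁻¹ := by
  have h0 := hn 0 (by norm_num)
  have h1 := hn 1 (by norm_num)
  have h2 := hn 2 (by norm_num)
  have h3 := hn 3 (by norm_num)
  have h4 := hn 4 (by norm_num)
  have h5 := hn 5 (by norm_num)
  have h6 := hn 6 (by norm_num)
  have h7 := hn 7 (by norm_num)
  have c2 : Nat.choose 7 2 = 21 := by decide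
  have c3 : Nat.choose 7 3 = 35 := by decide
  have c4 : Nat.choose 7 4 = 35 := by decide
  have c5 : Nat.choose 7 5 = 21 := by decide
  have c6 : Nat.choose 7 6 = 7 := by decide
  have c7 : Nat.choose 7 7 = 1 := by decide
  simp only [Finset.sum_range_succ, Finset.prod_range_succ, Finset.sum_range_zero,
    Finset.prod_range_zero, Nat.choose_zero_right, Nat.choose_one_right, c2, c3, c4, c5, c6, c7]
  push_cast at h0 h1 h2 h3 h4 h5 h6 h7 ⊢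
  simp only [zero_mul, sub_zero, one_mul] at h0 h1 ⊢
  rw [mul_comm] at h2 h3 h4 h5 h6 h7
  simp only [mul_comm (2 : ℂ) h, mul_comm (3 : ℂ) h, mul_comm (4 : ℂ) h, mul_comm (5 : ℂ) h,
    mul_comm (6 : ℂ) h, mul_comm (7 : ℂ) h]
  have g2 : a - 2 * h ≠ 0 := by rwa [mul_comm]
  have g3 : a - 3 * h ≠ 0 := by rwa [mul_comm]
  have g4 : a - 4 * h ≠ 0 := by rwa [mul_comm]
  have g5 : a - 5 * h ≠ 0 := by rwa [mul_comm]
  have g6 : a - 6 * h ≠ 0 := by rwa [mul_comm]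
  have g7 : a - 7 * h ≠ 0 := by rwa [mul_comm]
  field_simp
  ring

theorem fd7 : ∃ C : ℝ, 0 ≤ C ∧ ∀ (Φ : ℂ → ℂ) (A ρ : ℝ), 0 < ρ → 0 ≤ A → Differentiable ℂ Φ →
    (∀ ω : ℂ, ‖ω‖ ≤ ρ → ‖Φ ω‖ ≤ A) → ∀ ω₀ h : ℝ, 0 ≤ ω₀ → 0 ≤ h → ω₀ + 7 * h ≤ ρ / 2 →
    ‖∑ j ∈ Finset.range 8, (-1 : ℂ) ^ j * (Nat.choose 7 j : ℂ) *
      Φ ((ω₀ + (j : ℝ) * h : ℝ) : ℂ)‖ ≤ C * A * ((ω₀ + 7 * h) / ρ) ^ 7 := by
  refine ⟨5040 * 2 ^ 8, by norm_num, ?_⟩
  intro Φ A ρ hρ hA hd hb ω₀ h hω hh hle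
  -- the points
  have hpt : ∀ j : ℕ, j < 8 → |ω₀ + (j : ℝ) * h| ≤ ρ / 2 := by
    intro j hj
    have hj' : (j : ℝ) ≤ 7 := by exact_mod_cast (by omega : j ≤ 7)
    rw [abs_of_nonneg (by positivity)]
    nlinarith
  have hball : ∀ j : ℕ, j < 8 → ((ω₀ + (j : ℝ) * h : ℝ) : ℂ) ∈ Metric.ball (0 : ℂ) ρ := by
    intro j hj
    rw [mem_ball_zero_iff, Complex.norm_real, Real.norm_eq_abs]
    linarith [hpt j hj]
  have hcauchy : ∀ j : ℕ, j < 8 →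
      (∮ z in C(0, ρ), (z - ((ω₀ + (j : ℝ) * h : ℝ) : ℂ))⁻¹ • Φ z) =
        (2 * Real.pi * Complex.I : ℂ) • Φ ((ω₀ + (j : ℝ) * h : ℝ) : ℂ) := by
    intro j hj
    exact DifferentiableOn.circleIntegral_sub_inv_smul hd.differentiableOn (hball j hj)
  have hnz : ∀ z ∈ Metric.sphere (0 : ℂ) ρ, ∀ j : ℕ, j < 8 →
      ρ / 2 ≤ ‖z - ((ω₀ + (j : ℝ) * h : ℝ) : ℂ)‖ := by
    intro z hz j hj
    have h1 : ‖z‖ = ρ := by simpa using hz
    have h2 := norm_sub_norm_le z ((ω₀ + (j : ℝ) * h : ℝ) : ℂ)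
    rw [Complex.norm_real, Real.norm_eq_abs, h1] at h2
    linarith [hpt j hj]
  have hne : ∀ z ∈ Metric.sphere (0 : ℂ) ρ, ∀ j : ℕ, j < 8 →
      z - ((ω₀ + (j : ℝ) * h : ℝ) : ℂ) ≠ 0 := by
    intro z hz j hj h0
    have := hnz z hz j hj
    rw [h0, norm_zero] at this
    linarith
  have hci : ∀ j ∈ Finset.range 8, CircleIntegrable (fun z => ((-1 : ℂ) ^ j * (Nat.choose 7 j : ℂ)) •
      ((z - ((ω₀ + (j : ℝ) * h : ℝ) : ℂ))⁻¹ • Φ z)) 0 ρ := by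
    intro j hj
    apply ContinuousOn.circleIntegrable hρ.le
    have h1 : ContinuousOn (fun z : ℂ => (z - ((ω₀ + (j : ℝ) * h : ℝ) : ℂ))⁻¹) (Metric.sphere 0 ρ) := by
      apply ContinuousOn.inv₀ (by fun_prop)
      intro z hz
      exact hne z hz j (Finset.mem_range.1 hj)
    exact (continuousOn_const.mul (h1.mul hd.continuous.continuousOn) :
      ContinuousOn (fun z => ((-1 : ℂ) ^ j * (Nat.choose 7 j : ℂ)) *
        ((z - ((ω₀ + (j : ℝ) * h : ℝ) : ℂ))⁻¹ * Φ z)) (Metric.sphere 0 ρ))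
  have hsum : (2 * Real.pi * Complex.I : ℂ) * ∑ j ∈ Finset.range 8, (-1 : ℂ) ^ j * (Nat.choose 7 j : ℂ) *
      Φ ((ω₀ + (j : ℝ) * h : ℝ) : ℂ) =
      ∮ z in C(0, ρ), ∑ j ∈ Finset.range 8, ((-1 : ℂ) ^ j * (Nat.choose 7 j : ℂ)) •
      ((z - ((ω₀ + (j : ℝ) * h : ℝ) : ℂ))⁻¹ • Φ z) := by
    rw [circleIntegral.integral_fun_sum hci, Finset.mul_sum]
    refine Finset.sum_congr rfl fun j hj => ?_
    rw [circleIntegral.integral_smul, hcauchy j (Finset.mem_range.1 hj), smul_eq_mul, smul_eq_mul]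
    ring
  have hval : ∀ z ∈ Metric.sphere (0 : ℂ) ρ,
      ‖∑ j ∈ Finset.range 8, ((-1 : ℂ) ^ j * (Nat.choose 7 j : ℂ)) •
      ((z - ((ω₀ + (j : ℝ) * h : ℝ) : ℂ))⁻¹ • Φ z)‖ ≤ 5040 * h ^ 7 * (ρ / 2)⁻¹ ^ 8 * A := by
    intro z hz
    have hz' : ‖z‖ = ρ := by simpa using hz
    have e1 : ∑ j ∈ Finset.range 8, ((-1 : ℂ) ^ j * (Nat.choose 7 j : ℂ)) •
      ((z - ((ω₀ + (j : ℝ) * h : ℝ) : ℂ))⁻¹ • Φ z) =
      (-(5040 * (h : ℂ) ^ 7) * ∏ j ∈ Finset.range 8, ((z - (ω₀ : ℂ)) - (j : ℂ) * (h : ℂ))⁻¹) * Φ z := by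
      rw [← pf8, Finset.sum_mul]
      · refine Finset.sum_congr rfl fun j _ => ?_
        rw [smul_eq_mul, smul_eq_mul]
        push_cast
        rw [sub_sub z]
        ring
      · intro j hj
        have := hne z hz j hj
        push_cast at this
        rwa [sub_sub]
    rw [e1, norm_mul, norm_mul, norm_neg, norm_mul, norm_pow, Complex.norm_real, Real.norm_eq_abs,
      abs_of_nonneg hh, norm_prod]
    have e2 : ∏ j ∈ Finset.range 8, ‖((z - (ω₀ : ℂ)) - (j : ℂ) * (h : ℂ))⁻¹‖ ≤ (ρ / 2)⁻¹ ^ 8 := by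
      rw [← Finset.card_range 8, ← Finset.prod_const]
      apply Finset.prod_le_prod
      · intro j _; positivity
      · intro j hj
        rw [Finset.card_range] at hj
        rw [norm_inv]
        have := hnz z hz j (Finset.mem_range.1 hj)
        push_cast at this
        rw [← sub_sub] at this
        exact inv_anti₀ (by positivity) this
    have e3 : ‖(5040 : ℂ)‖ = 5040 := by simp
    rw [e3]
    have := hb z hz'.le
    gcongr
  have hI : ‖(2 * Real.pi * Complex.I : ℂ)‖ = 2 * Real.pi := by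
    simp [abs_of_pos Real.pi_pos]
  have hfin := circleIntegral.norm_integral_le_of_norm_le_const hρ.le hval
  rw [← hsum, norm_mul, hI] at hfin
  have hpi := Real.pi_pos
  have h8 : ‖∑ j ∈ Finset.range 8, (-1 : ℂ) ^ j * (Nat.choose 7 j : ℂ) *
      Φ ((ω₀ + (j : ℝ) * h : ℝ) : ℂ)‖ ≤ ρ * (5040 * h ^ 7 * (ρ / 2)⁻¹ ^ 8 * A) := by
    have : 0 < 2 * Real.pi := by positivity
    rw [← mul_le_mul_iff_right₀ this]
    calc _ ≤ _ := hfin
      _ = _ := by ring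
  refine h8.trans ?_
  have h9 : ρ * (5040 * h ^ 7 * (ρ / 2)⁻¹ ^ 8 * A) = 5040 * 2 ^ 8 * A * (h / ρ) ^ 7 := by
    field_simp
  rw [h9]
  have h10 : h / ρ ≤ (ω₀ + 7 * h) / ρ := by
    apply div_le_div_of_nonneg_right _ hρ.le
    linarith
  gcongr

theorem vanish {Φ : ℝ → ℂ → ℂ} (hd : ∀ m, Differentiable ℂ (Φ m)) {C : ℝ}
    (hb : ∀ m : ℝ, 1 ≤ m → ∀ ω : ℂ, ‖ω‖ ≤ m → ‖Φ m ω‖ ≤ C * m ^ 6) {L : ℝ → ℂ} {τ₀ : ℝ}
    (hτ₀ : 0 ≤ τ₀)
    (hlim : ∀ τ : ℝ, τ₀ ≤ τ → Tendsto (fun m : ℝ => Φ m ((τ ^ 2 : ℝ) : ℂ)) atTop (𝓝 (L τ)))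
    (hL : Tendsto L atTop (𝓝 0)) (τ : ℝ) (hτ : τ₀ ≤ τ) : L τ = 0 := by
  obtain ⟨C₁, hC₁, hfd⟩ := fd7
  have hC : 0 ≤ C := by
    have h1 := hb 1 le_rfl 0 (by simp)
    have h2 := (norm_nonneg _).trans h1
    simpa using h2
  have hτ0 : 0 ≤ τ := hτ₀.trans hτ
  have key : ∀ h : ℝ, 0 < h → ∑ j ∈ Finset.range 8, (-1 : ℂ) ^ j * (Nat.choose 7 j : ℂ) *
      L (√(τ ^ 2 + (j : ℝ) * h)) = 0 := by
    intro h hh
    have ht1 : Tendsto (fun m : ℝ => ∑ j ∈ Finset.range 8, (-1 : ℂ) ^ j * (Nat.choose 7 j : ℂ) *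
        Φ m ((τ ^ 2 + (j : ℝ) * h : ℝ) : ℂ)) atTop
        (𝓝 (∑ j ∈ Finset.range 8, (-1 : ℂ) ^ j * (Nat.choose 7 j : ℂ) *
          L (√(τ ^ 2 + (j : ℝ) * h)))) := by
      apply tendsto_finsetSum
      intro j _
      apply Tendsto.const_mul
      have h0 : 0 ≤ (j : ℝ) * h := by positivity
      have h1 := hlim (√(τ ^ 2 + (j : ℝ) * h)) (by
        refine hτ.trans (Real.le_sqrt_of_sq_le ?_)
        linarith)
      rw [Real.sq_sqrt (by positivity)] at h1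
      exact h1
    have ht2 : Tendsto (fun m : ℝ => ∑ j ∈ Finset.range 8, (-1 : ℂ) ^ j * (Nat.choose 7 j : ℂ) *
        Φ m ((τ ^ 2 + (j : ℝ) * h : ℝ) : ℂ)) atTop (𝓝 0) := by
      apply squeeze_zero_norm' (a := fun m : ℝ => C₁ * (C * m ^ 6) * ((τ ^ 2 + 7 * h) / m) ^ 7)
      · filter_upwards [eventually_ge_atTop 1, eventually_ge_atTop (2 * (τ ^ 2 + 7 * h))]
          with m hm1 hm2
        exact hfd (Φ m) (C * m ^ 6) m (by linarith) (by positivity) (hd m) (hb m hm1) (τ ^ 2) h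
          (by positivity) hh.le (by linarith)
      · have he : (fun m : ℝ => C₁ * C * (τ ^ 2 + 7 * h) ^ 7 * m⁻¹) =ᶠ[atTop]
            fun m : ℝ => C₁ * (C * m ^ 6) * ((τ ^ 2 + 7 * h) / m) ^ 7 := by
          filter_upwards [eventually_gt_atTop 0] with m hm
          field_simp
        refine Tendsto.congr' he ?_
        have := (tendsto_inv_atTop_zero (𝕜 := ℝ)).const_mul (C₁ * C * (τ ^ 2 + 7 * h) ^ 7)
        simpa using this
    exact tendsto_nhds_unique ht1 ht2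
  have hlim2 : Tendsto (fun h : ℝ => ∑ j ∈ Finset.range 8, (-1 : ℂ) ^ j * (Nat.choose 7 j : ℂ) *
      L (√(τ ^ 2 + (j : ℝ) * h))) atTop (𝓝 (L τ)) := by
    simp only [Finset.sum_range_succ' _ 7]
    have h1 : Tendsto (fun h : ℝ => ∑ j ∈ Finset.range 7, (-1 : ℂ) ^ (j + 1) *
        (Nat.choose 7 (j + 1) : ℂ) * L (√(τ ^ 2 + ((j + 1 : ℕ) : ℝ) * h))) atTop
        (𝓝 (∑ j ∈ Finset.range 7, (-1 : ℂ) ^ (j + 1) * (Nat.choose 7 (j + 1) : ℂ) * 0)) := by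
      apply tendsto_finsetSum
      intro j _
      apply Tendsto.const_mul
      apply hL.comp
      apply Real.tendsto_sqrt_atTop.comp
      apply tendsto_atTop_add_const_left
      exact Tendsto.const_mul_atTop (by positivity) tendsto_id
    have h2 : (fun h : ℝ => (-1 : ℂ) ^ 0 * (Nat.choose 7 0 : ℂ) * L (√(τ ^ 2 + ((0 : ℕ) : ℝ) * h))) =
        fun _ => L τ := by
      funext h
      simp [Real.sqrt_sq hτ0]
    have h3 := h1.add (tendsto_const_nhds (x := L τ) (f := (atTop : Filter ℝ)))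
    simp only [mul_zero, Finset.sum_const_zero, zero_add] at h3
    refine h3.congr fun h => ?_
    rw [← congrFun h2 h]
  have hz : Tendsto (fun h : ℝ => ∑ j ∈ Finset.range 8, (-1 : ℂ) ^ j * (Nat.choose 7 j : ℂ) *
      L (√(τ ^ 2 + (j : ℝ) * h))) atTop (𝓝 0) := by
    apply tendsto_const_nhds.congr'
    filter_upwards [eventually_gt_atTop 0] with h hh
    exact (key h hh).symm
  exact tendsto_nhds_unique hlim2 hz

end FracScatC

end
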