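import Pool.Agent.Lib.MP_6e2ba5_an.Dx.XsA
import Pool.Agent.Lib.MP_6e2ba5_an.Dx.Bz
import Pool.Agent.Lib.MP_6e2ba5_an.Final

/-! # Generic uniqueness -/

set_option autoImplicit false

open MeasureTheory Filter Topology Set
open scoped FourierTransform SchwartzMap InnerProductSpace ENNReal BoundedContinuousFunction

noncomputable section

namespace FracScatC

open FracScat

/-! ### The open sets -/

theorem bPot_isPot {r M r' : ℝ} {V : E3 → ℝ} (h : BPot r M V) (hr : r < r') :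
    IsPot r' M (Vc V) :=
  pot_Vc h.measurable h.bounded fun x hx => h.vanish x (lt_of_lt_of_le hr hx)

/-- The perturbed potential. -/
def pV (V₀ : E3 → ℝ) {R' R : ℝ} (f : Shell R' R) (x : E3) : ℝ := V₀ x + rp f x

theorem pV_pot {V₀ : E3 → ℝ} {M₀ R' R : ℝ} (hR : R' < R) (hV₀ : BPot R' M₀ V₀)
    (f : Shell R' R) : IsPot (R + 1) (M₀ + ‖(f : LI)‖) (Vc (pV V₀ f)) := by
  refine pot_Vc (hV₀.measurable.add (rp_meas f)) (fun x => ?_) (fun x hx => ?_)
  · exact (abs_add_le _ _).trans (add_le_add (hV₀.bounded x) (rp_bd f x))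
  · have h1 : V₀ x = 0 := hV₀.vanish x (by linarith)
    have h2 : rp f x = 0 := by
      by_contra h
      linarith [(rp_van f x h).2]
    rw [pV, h1, h2, add_zero]

theorem pV_dist {V₀ : E3 → ℝ} {M₀ R' R : ℝ} (hR : R' < R) (hV₀ : BPot R' M₀ V₀)
    (f g : Shell R' R) : ‖dH (R + 1) (Vc (pV V₀ g)) - dH (R + 1) (Vc (pV V₀ f))‖ ≤
      ‖(g : LI) - (f : LI)‖ * ‖oneB (R + 1)‖ := by
  refine dH_sub_le (pV_pot hR hV₀ g) (pV_pot hR hV₀ f) (norm_nonneg _) ?_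
  filter_upwards [rp_sub g f] with x hx
  rw [Vc, Vc, ← Complex.ofReal_sub, Complex.norm_real, Real.norm_eq_abs, pV, pV]
  have : V₀ x + rp g x - (V₀ x + rp f x) = rp g x - rp f x := by ring
  rw [this]
  exact hx

theorem isOpen_good {s : ℝ} (h0 : 3 / 4 < s) (h2 : s < 2) (h1 : s ≠ 1) {V₀ : E3 → ℝ}
    {M₀ R' R : ℝ} (hR0 : 0 ≤ R') (hR : R' < R) (hV₀ : BPot R' M₀ V₀) (n : ℕ) :
    IsOpen {f : Shell R' R | goodN s (R + 1) n (pV V₀ f)} := by
  have hr : 0 < R + 1 := by linarith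
  rw [Metric.isOpen_iff]
  intro f hf
  set M : ℝ := max (M₀ + ‖(f : LI)‖ + 1) n with hM
  have hp : IsPot (R + 1) M (Vc (pV V₀ f)) :=
    (pV_pot hR hV₀ f).mono (by linarith [le_max_left (M₀ + ‖(f : LI)‖ + 1) (n : ℝ)])
  obtain ⟨κ, hκ, hκs⟩ := goodN_open h0 h2 h1 hr (le_max_right _ _) hp hf
  have hone : (0 : ℝ) < ‖oneB (R + 1)‖ + 1 := by positivity
  refine ⟨min 1 (κ / (‖oneB (R + 1)‖ + 1)), lt_min one_pos (div_pos hκ hone), fun g hg => ?_⟩
  have hd : ‖(g : LI) - (f : LI)‖ < min 1 (κ / (‖oneB (R + 1)‖ + 1)) := by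
    rw [Metric.mem_ball, Subtype.dist_eq, dist_eq_norm] at hg
    exact hg
  refine hκs (pV V₀ g) ((pV_pot hR hV₀ g).mono ?_) ?_
  · have h3 : ‖(g : LI)‖ ≤ ‖(f : LI)‖ + 1 := by
      have h4 := norm_sub_norm_le (g : LI) (f : LI)
      have h5 := lt_of_lt_of_le hd (min_le_left _ _)
      linarith
    have h6 := le_max_left (M₀ + ‖(f : LI)‖ + 1) (n : ℝ)
    linarith
  · refine (pV_dist hR hV₀ f g).trans ?_
    have h5 := lt_of_lt_of_le hd (min_le_right _ _)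
    calc ‖(g : LI) - (f : LI)‖ * ‖oneB (R + 1)‖
        ≤ κ / (‖oneB (R + 1)‖ + 1) * ‖oneB (R + 1)‖ :=
          mul_le_mul_of_nonneg_right h5.le (norm_nonneg _)
      _ ≤ κ := by
          rw [div_mul_eq_mul_div, div_le_iff₀ hone]
          exact mul_le_mul_of_nonneg_left (by linarith) hκ.le

/-! ### Density -/

theorem cone_tip {ρ R₁ : ℝ} (hρ : 0 ≤ ρ) (hR : ρ < R₁) {x : E3} (hx : ‖x‖ ≤ ρ) :
    x ∈ cone (-R₁ • dv) ((R₁ - ρ) / (R₁ + ρ)) := by
  have hpos : 0 < R₁ + ρ := by linarith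
  show (R₁ - ρ) / (R₁ + ρ) * ‖x - -R₁ • dv‖ ≤ ⟪dv, x - -R₁ • dv⟫_ℝ
  have e1 : ‖x - -R₁ • dv‖ ≤ R₁ + ρ := by
    refine (norm_sub_le _ _).trans ?_
    rw [norm_smul, norm_dv, mul_one, norm_neg, Real.norm_of_nonneg (by linarith)]
    linarith
  have e2 : ⟪dv, x - -R₁ • dv⟫_ℝ = ⟪dv, x⟫_ℝ + R₁ := by
    rw [inner_sub_right, inner_smul_right, real_inner_self_eq_norm_sq, norm_dv]
    ring
  have e3 : -ρ ≤ ⟪dv, x⟫_ℝ := by
    have h := abs_real_inner_le_norm dv x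
    rw [norm_dv, one_mul] at h
    linarith [neg_le_of_abs_le (h.trans hx)]
  rw [e2]
  calc (R₁ - ρ) / (R₁ + ρ) * ‖x - -R₁ • dv‖ ≤ (R₁ - ρ) / (R₁ + ρ) * (R₁ + ρ) :=
        mul_le_mul_of_nonneg_left e1 (div_nonneg (by linarith) hpos.le)
    _ = R₁ - ρ := by field_simp
    _ ≤ _ := by linarith

theorem dense_good {s : ℝ} (h0 : 3 / 4 < s) (h2 : s < 2) (h1 : s ≠ 1) {V₀ : E3 → ℝ}
    {M₀ R' R : ℝ} (hR0 : 0 ≤ R') (hR : R' < R) (hV₀ : BPot R' M₀ V₀) (n : ℕ) :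
    Dense {f : Shell R' R | goodN s (R + 1) n (pV V₀ f)} := by
  have hr : 0 < R + 1 := by linarith
  rw [Metric.dense_iff]
  intro f ε hε
  -- a compactly supported approximation
  obtain ⟨f₁, ⟨ρ₀, hρ₀R, hf₁v⟩, hf₁d⟩ := Metric.mem_closure_iff.1 f.2 (ε / 4) (by linarith)
  rw [dist_eq_norm] at hf₁d
  set ρ : ℝ := max R' ρ₀ with hρ
  have hρR : ρ < R := max_lt hR hρ₀R
  have hρ0 : 0 ≤ ρ := hR0.trans (le_max_left _ _)
  have hf₁v' : ∀ᵐ x ∂(volume : Measure E3), (f₁ : E3 → ℝ) x ≠ 0 → R' ≤ ‖x‖ ∧ ‖x‖ ≤ ρ := by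
    filter_upwards [hf₁v] with x hx h
    exact ⟨(hx h).1, (hx h).2.trans (le_max_right _ _)⟩
  set F₁ : Shell R' R := ⟨f₁, Shell_mem_of hρR hf₁v'⟩ with hF₁
  -- the tip
  set R₁ : ℝ := (ρ + R) / 2 with hR₁
  have hρR₁ : ρ < R₁ := by rw [hR₁]; linarith
  have hR₁R : R₁ < R := by rw [hR₁]; linarith
  set y₀ : E3 := -R₁ • dv with hy₀
  have hny₀ : ‖y₀‖ = R₁ := by
    rw [hy₀, norm_smul, norm_neg, norm_dv, mul_one, Real.norm_of_nonneg (by linarith)]
  have h3 : (0 : ℝ) < Real.sqrt 3 := Real.sqrt_pos.2 (by norm_num)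
  set l : ℝ := (R - ρ) / 4 / Real.sqrt 3 with hl
  have hl0 : 0 < l := div_pos (by linarith) h3
  have hl3 : Real.sqrt 3 * l = (R - ρ) / 4 := by
    rw [hl]
    field_simp
  set R₂ : ℝ := (ρ + 3 * R) / 4 with hR₂
  have hR₂R : R₂ < R := by rw [hR₂]; linarith
  have hR₁R₂ : R₁ < R₂ := by rw [hR₂, hR₁]; linarith
  have hcube : ∀ x ∈ cube y₀ l, ρ < ‖x‖ ∧ ‖x‖ ≤ R₂ := by
    intro x hx
    have h4 := cube_norm hx
    rw [hl3] at h4
    have h5 := norm_sub_norm_le y₀ x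
    have h6 := norm_sub_norm_le x y₀
    rw [norm_sub_rev] at h5
    rw [hny₀] at h5 h6
    constructor <;> linarith
  set g₀ : E3 → ℝ := (cube y₀ l).indicator fun _ => ε / 4 with hg₀
  have hg₀m : Measurable g₀ := measurable_const.indicator (cube_meas _ _)
  have hg₀b : ∀ x, |g₀ x| ≤ ε / 4 := by
    intro x
    by_cases h : x ∈ cube y₀ l
    · rw [hg₀, Set.indicator_of_mem h, abs_of_pos (by linarith)]
    · rw [hg₀, Set.indicator_of_notMem h, abs_zero]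
      linarith
  set V₁ : E3 → ℝ := fun x => pV V₀ F₁ x + g₀ x with hV₁
  set M : ℝ := max (M₀ + ‖f₁‖ + ε + 3) n with hM
  have hM1 : M₀ + ‖f₁‖ + ε + 3 ≤ M := le_max_left _ _
  have hM₀ : 0 ≤ M₀ := (abs_nonneg _).trans (hV₀.bounded 0)
  have hV₁p : IsPot (R + 1) (M - 2) (Vc V₁) := by
    have hp := pV_pot hR hV₀ F₁
    refine pot_Vc ((Vc_meas hp).add hg₀m) (fun x => ?_) (fun x hx => ?_)
    · have e1 := Vc_bd hp x
      have e2 := hg₀b x
      have e3 := abs_add_le (pV V₀ F₁ x) (g₀ x)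
      linarith
    · rw [hV₁]
      simp only
      rw [Vc_van hp x hx, zero_add, hg₀, Set.indicator_of_notMem]
      intro h
      linarith [(hcube x h).2]
  obtain ⟨K, hK⟩ := exists_KOK h0 h2 h1 hr M
  -- vanishing of `V₀ + f₁` outside the ball of radius `ρ`
  have hvan : ∀ᵐ x ∂(volume : Measure E3), ρ < ‖x‖ → pV V₀ F₁ x = 0 := by
    filter_upwards [hf₁v', rp_ae F₁] with x hx1 hx2 hx3
    have e1 : V₀ x = 0 := hV₀.vanish x (lt_of_le_of_lt (le_max_left _ _) hx3)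
    have e2 : rp F₁ x = 0 := by
      rw [← hx2]
      by_contra h
      exact absurd (hx1 h).2 (not_le.2 hx3)
    rw [pV, e1, e2, add_zero]
  set c : ℝ := min (1 / 2) ((R₁ - ρ) / (R₁ + ρ)) with hc
  have hc0 : 0 < c := lt_min (by norm_num) (div_pos (by linarith) (by linarith))
  have hc₁ : ∀ᵐ x ∂(volume : Measure E3), x ∉ cone y₀ c → V₁ x = 0 := by
    filter_upwards [hvan] with x hx hnc
    have e1 : ρ < ‖x‖ := by
      by_contra h
      exact hnc (cone_mono (min_le_right _ _) (cone_tip hρ0 hρR₁ (not_lt.1 h)))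
    have e2 : g₀ x = 0 := by
      rw [hg₀, Set.indicator_of_notMem]
      intro h
      refine hnc (cone_mono (min_le_left _ _) (oct_cone y₀ ?_))
      exact fun j => (h j).1
    rw [hV₁]
    simp only
    rw [hx e1, e2, add_zero]
  have htip : ∀ᵐ x ∂(volume : Measure E3), ‖x - y₀‖ < min l (R₁ - ρ) →
      V₁ x = (oct y₀).indicator (fun _ => ε / 4) x := by
    filter_upwards [hvan] with x hx hd
    have e0 : ρ < ‖x‖ := by
      have h5 := norm_sub_norm_le y₀ x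
      rw [norm_sub_rev, hny₀] at h5
      have := lt_of_lt_of_le hd (min_le_right _ _)
      linarith
    have e1 : x ∈ oct y₀ ↔ x ∈ cube y₀ l := by
      constructor
      · intro h j
        refine ⟨h j, ?_⟩
        have h6 : |x j - y₀ j| ≤ ‖x - y₀‖ := by
          have := PiLp.norm_apply_le (x - y₀) j
          rwa [PiLp.sub_apply, Real.norm_eq_abs] at this
        have h7 := lt_of_lt_of_le hd (min_le_left _ _)
        have h8 := le_abs_self (x j - y₀ j)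
        linarith
      · exact fun h j => (h j).1
    rw [hV₁]
    simp only
    rw [hx e0, zero_add, hg₀]
    by_cases h : x ∈ cube y₀ l
    · rw [Set.indicator_of_mem h, Set.indicator_of_mem (e1.2 h)]
    · rw [Set.indicator_of_notMem h, Set.indicator_of_notMem (fun h' => h (e1.1 h'))]
  -- the open set
  set O : Set E3 := {x | ‖x‖ < R₂ ∧ ⟪dv, x⟫_ℝ < -R₁} with hO
  have hOo : IsOpen O := by
    have hcont : Continuous fun x : E3 => ⟪dv, x⟫_ℝ := by fun_prop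
    exact (isOpen_lt continuous_norm continuous_const).inter (isOpen_lt hcont continuous_const)
  have hOne : O.Nonempty := by
    refine ⟨-((R₁ + R₂) / 2) • dv, ?_, ?_⟩
    · rw [norm_smul, norm_neg, norm_dv, mul_one, Real.norm_of_nonneg (by linarith)]
      linarith
    · rw [inner_smul_right, real_inner_self_eq_norm_sq, norm_dv]
      linarith
  have hOr : ∀ x ∈ O, ‖x‖ < R + 1 := fun x hx => by linarith [hx.1]
  have hdy₀ : ⟪dv, y₀⟫_ℝ = -R₁ := by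
    rw [hy₀, inner_smul_right, real_inner_self_eq_norm_sq, norm_dv]
    ring
  have hOlt : ∀ x ∈ O, ⟪dv, x⟫_ℝ < ⟪dv, y₀⟫_ℝ := fun x hx => by
    rw [hdy₀]
    exact hx.2
  have hOρ : ∀ x ∈ O, R₁ < ‖x‖ := by
    intro x hx
    have h := abs_real_inner_le_norm dv x
    rw [norm_dv, one_mul] at h
    have h5 := neg_le_of_abs_le h
    linarith [hx.2]
  have hε4 : 0 < ε / 4 := by linarith
  have hM1' : (1 : ℝ) ≤ M := by
    have := norm_nonneg f₁
    linarith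
  obtain ⟨W, hWm, hWb, hWO, hWg⟩ := denseF h0 h2 h1 hr hM1' hK hV₁p
    (by rw [hny₀]; linarith) hc0 hc₁ hε4.ne' (lt_min hl0 (by linarith)) htip hOo hOne hOr hOlt
    (le_max_right _ _) (ε / 4) hε4
  -- the new element
  have hgm : Measurable fun x => rp F₁ x + (g₀ x + W x) := (rp_meas F₁).add (hg₀m.add hWm)
  have hgb : ∀ x, |rp F₁ x + (g₀ x + W x)| ≤ ‖f₁‖ + (ε / 4 + ε / 4) := by
    intro x
    have e1 := rp_bd F₁ x
    have e2 := abs_add_le (rp F₁ x) (g₀ x + W x)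
    have e3 := abs_add_le (g₀ x) (W x)
    have e4 := hg₀b x
    have e5 := hWb x
    have e6 : ‖(F₁ : LI)‖ = ‖f₁‖ := rfl
    linarith
  set h : LI := (memLI hgm hgb).toLp _ with hh
  have hae : (h : E3 → ℝ) =ᵐ[volume] fun x => rp F₁ x + (g₀ x + W x) := (memLI hgm hgb).coeFn_toLp
  have hmem : h ∈ Shell R' R := by
    refine Shell_mem_of hR₂R ?_
    filter_upwards [hae, hf₁v', rp_ae F₁] with x e1 e2 e3 hne
    rw [e1] at hne
    by_cases hr1 : rp F₁ x = 0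
    · by_cases hr2 : g₀ x = 0
      · rw [hr1, hr2, zero_add, zero_add] at hne
        have hxO : x ∈ O := by
          by_contra hxO
          exact hne (hWO x hxO)
        have := hOρ x hxO
        exact ⟨by linarith [le_max_left R' ρ₀], hxO.1.le⟩
      · have hxc : x ∈ cube y₀ l := by
          by_contra hxc
          exact hr2 (Set.indicator_of_notMem hxc _)
        have := hcube x hxc
        exact ⟨by linarith [le_max_left R' ρ₀], this.2⟩
    · have := e2 (by rw [show (f₁ : E3 → ℝ) x = rp F₁ x from e3]; exact hr1)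
      exact ⟨this.1, by linarith [this.2]⟩
  have hdist : ‖h - f₁‖ ≤ ε / 4 + ε / 4 := by
    refine LI_norm_le (by linarith) ?_
    filter_upwards [Lp.coeFn_sub h f₁, hae, rp_ae F₁] with x e1 e2 e3
    rw [e1, Pi.sub_apply, e2, show (f₁ : E3 → ℝ) x = rp F₁ x from e3, add_sub_cancel_left]
    have e3 := abs_add_le (g₀ x) (W x)
    have e4 := hg₀b x
    have e5 := hWb x
    linarith
  refine ⟨⟨h, hmem⟩, ?_, ?_⟩
  · rw [Metric.mem_ball, Subtype.dist_eq, dist_eq_norm]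
    show ‖h - (f : LI)‖ < ε
    have e1 : h - (f : LI) = (h - f₁) - ((f : LI) - f₁) := by abel
    rw [e1]
    have e2 := norm_sub_le (h - f₁) ((f : LI) - f₁)
    linarith
  · show goodN s (R + 1) n (pV V₀ ⟨h, hmem⟩)
    have hWpot : IsPot (R + 1) M (Vc fun x => V₁ x + W x) := by
      refine pot_Vc ((Vc_meas hV₁p).add hWm) (fun x => ?_) (fun x hx => ?_)
      · have hp := Vc_bd (pV_pot hR hV₀ F₁) x
        have e2 := hg₀b x
        have e3 := abs_add_le (pV V₀ F₁ x) (g₀ x)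
        have e5 := hWb x
        have e4 := abs_add_le (V₁ x) (W x)
        have e6 : ‖(F₁ : LI)‖ = ‖f₁‖ := rfl
        have e7 : V₁ x = pV V₀ F₁ x + g₀ x := rfl
        rw [← e7] at e3
        linarith
      · rw [Vc_van hV₁p x hx, hWO x (fun h => by linarith [h.1]), add_zero]
    refine goodN_congr hWpot (pV_pot hR hV₀ ⟨h, hmem⟩) ?_ hWg
    filter_upwards [hae, rp_ae (⟨h, hmem⟩ : Shell R' R)] with x e1 e2
    have e3 : rp (⟨h, hmem⟩ : Shell R' R) x = rp F₁ x + (g₀ x + W x) := by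
      rw [← e2]
      exact e1
    rw [pV, e3, hV₁]
    simp only
    rw [pV]
    ring

/-! ### The data -/

theorem sbs_c {s k : ℝ} {V₁ V₂ : E3 → ℝ} {θ : E3} (h : FracScat.SameBackScattering s k V₁ V₂ θ) :
    SameBackScattering s k (Vc V₁) (Vc V₂) θ := by
  obtain ⟨u₁, u₂, h₁, h₂, h₃⟩ := h
  exact ⟨u₁, u₂, ⟨h₁.bstar, h₁.equation, h₁.radiation⟩, ⟨h₂.bstar, h₂.equation, h₂.radiation⟩, h₃⟩

theorem ball_vanish {V : E3 → ℝ} {R : ℝ} (hR : 0 ≤ R)
    (h : ∀ θ : E3, ‖θ‖ = 1 → ∀ᵐ x ∂(volume : Measure E3), R < -⟪θ, x⟫_ℝ → V x = 0) :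
    ∀ᵐ x ∂(volume : Measure E3), R < ‖x‖ → V x = 0 := by
  have hU : IsOpen {x : E3 | R < ‖x‖} := isOpen_lt continuous_const continuous_norm
  refine (halfspace_iff V hU).2 ?_
  rw [Set.disjoint_left]
  intro x hx hxs
  have hx' : R < ‖x‖ := hx
  have hpos : 0 < ‖x‖ := lt_of_le_of_lt hR hx'
  set θ : E3 := -(‖x‖⁻¹ • x) with hθ
  have hn : ‖θ‖ = 1 := by
    rw [hθ, norm_neg, norm_smul, norm_inv, norm_norm, inv_mul_cancel₀ hpos.ne']
  have hUθ : IsOpen {y : E3 | R < -⟪θ, y⟫_ℝ} := isOpen_lt continuous_const (by fun_prop)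
  have hd := (halfspace_iff V hUθ).1 (h θ hn)
  refine Set.disjoint_left.1 hd ?_ hxs
  show R < -⟪θ, x⟫_ℝ
  rw [hθ, inner_neg_left, neg_neg, real_inner_smul_left, real_inner_self_eq_norm_sq]
  have : ‖x‖⁻¹ * ‖x‖ ^ 2 = ‖x‖ := by
    field_simp
  rw [this]
  exact hx'

/-- The supports. -/
theorem SD_support {s : ℝ} (h0 : 3 / 4 < s) (h2 : s < 2) (h1 : s ≠ 1) {r : ℝ} (hr : 0 < r)
    {M K : ℝ} (hK : KOK s r M K) {V₁ V₂ : E3 → ℝ} (hV₁ : IsPot r M (Vc V₁))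
    (hV₂ : IsPot r M (Vc V₂)) (h : SD s r (Vc V₁) (Vc V₂)) {R : ℝ} (hR : 0 ≤ R)
    (hv : ∀ᵐ x ∂(volume : Measure E3), R < ‖x‖ → V₁ x = 0) :
    ∀ᵐ x ∂(volume : Measure E3), R < ‖x‖ → V₂ x = 0 := by
  refine ball_vanish hR fun θ hθ => ?_
  have hP₁ : PotIn r V₁ := ⟨Vc_meas hV₁, ⟨M, Vc_bd hV₁⟩, Vc_van hV₁⟩
  have hP₂ : PotIn r V₂ := ⟨Vc_meas hV₂, ⟨M, Vc_bd hV₂⟩, Vc_van hV₂⟩
  refine half_space (by linarith) h2 h1 hr hP₂ hP₁ θ hK.one (fun k hk => hK.tk _ hV₂ k hk)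
    (fun k hk => hK.tk _ hV₁ k hk) (fun τ hτ => ?_) ?_
  · exact (SD_I h0 h2 h1 hr hK hV₁ hV₂ h hθ τ hτ).symm
  · filter_upwards [hv] with x hx hlt
    refine hx (lt_of_lt_of_le hlt ?_)
    have h3 := abs_real_inner_le_norm θ x
    rw [hθ, one_mul] at h3
    linarith [neg_le_of_abs_le h3]

theorem generic {s : ℝ} (h0 : 3 / 4 < s) (h2 : s < 2) (h1 : s ≠ 1) (R : ℝ) :
    ∃ K : ℝ → ℝ → ℝ, ∀ R' : ℝ, 0 ≤ R' → R' < R → ∀ V₀ : E3 → ℝ, IsPotential V₀ →
      (∀ x, R' < ‖x‖ → V₀ x = 0) →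
      {f : Shell R' R | Determined s K (fun x => V₀ x + ((f : LI) : E3 → ℝ) x)} ∈
        residual (Shell R' R) := by
  have hex : ∀ r M : ℝ, ∃ K : ℝ, 0 < r → KOK s r M K := by
    intro r M
    by_cases hr : 0 < r
    · obtain ⟨K, hK⟩ := exists_KOK h0 h2 h1 hr M
      exact ⟨K, fun _ => hK⟩
    · exact ⟨0, fun h => absurd h hr⟩
  choose K₁ hK₁ using hex
  refine ⟨fun r M => max (K₁ (max r R + 1) M) (K₁ (R + 1) M), fun R' hR0 hR V₀ hV₀ hv => ?_⟩
  obtain ⟨M₀, hM₀⟩ := hV₀.bounded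
  have hB : BPot R' M₀ V₀ := ⟨hV₀.measurable, hM₀, hv⟩
  have hRpos : 0 ≤ R := hR0.trans hR.le
  have hr : 0 < R + 1 := by linarith
  have hres : (⋂ n : ℕ, {f : Shell R' R | goodN s (R + 1) n (pV V₀ f)}) ∈
      residual (Shell R' R) := by
    rw [countable_iInter_mem]
    exact fun n => residual_of_dense_open (isOpen_good h0 h2 h1 hR0 hR hB n)
      (dense_good h0 h2 h1 hR0 hR hB n)
  refine mem_of_superset hres fun f hf => ?_
  have hg : ∀ n : ℕ, goodN s (R + 1) n (pV V₀ f) := fun n => mem_iInter.1 hf n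
  intro r M V₁ V₂ hV₁ hV₂ hVf a b ha hab hd
  have hVp : V₁ =ᵐ[volume] pV V₀ f := by
    filter_upwards [hVf, rp_ae f] with x e1 e2
    rw [e1, pV, e2]
  -- the supports
  have hr₁ : 0 < max r R + 1 := by linarith [le_max_right r R]
  have hI₁ : IsPot (max r R + 1) M (Vc V₁) := bPot_isPot hV₁ (by linarith [le_max_left r R])
  have hI₂ : IsPot (max r R + 1) M (Vc V₂) := bPot_isPot hV₂ (by linarith [le_max_left r R])
  have hSD := SD_of_band h0 h2 h1 hr₁ (hK₁ _ M hr₁) hI₁ hI₂ ((le_max_left _ _).trans ha) hab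
    (fun θ hθ k hk => sbs_c (hd θ hθ k hk))
  have hv₁ : ∀ᵐ x ∂(volume : Measure E3), R < ‖x‖ → V₁ x = 0 := by
    filter_upwards [hVp] with x e1 e2
    rw [e1]
    have e3 : rp f x = 0 := by
      by_contra h
      linarith [(rp_van f x h).2]
    rw [pV, hv x (by linarith), e3, add_zero]
  have hv₂ := SD_support h0 h2 h1 hr₁ (hK₁ _ M hr₁) hI₁ hI₂ hSD hRpos hv₁
  -- the truncated potentials
  have htr : ∀ V : E3 → ℝ, BPot r M V → (∀ᵐ x ∂(volume : Measure E3), R < ‖x‖ → V x = 0) →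
      IsPot (R + 1) M (Vc ((Metric.closedBall 0 R).indicator V)) ∧
        V =ᵐ[volume] (Metric.closedBall 0 R).indicator V := by
    intro V hV hVv
    refine ⟨pot_Vc (hV.measurable.indicator Metric.isClosed_closedBall.measurableSet)
      (fun x => ?_) (fun x hx => ?_), ?_⟩
    · by_cases h : x ∈ Metric.closedBall (0 : E3) R
      · rw [Set.indicator_of_mem h]
        exact hV.bounded x
      · rw [Set.indicator_of_notMem h, abs_zero]
        exact (abs_nonneg _).trans (hV.bounded x)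
    · refine Set.indicator_of_notMem (fun h => ?_) _
      rw [mem_closedBall_zero_iff] at h
      linarith
    · filter_upwards [hVv] with x hx
      by_cases h : x ∈ Metric.closedBall (0 : E3) R
      · rw [Set.indicator_of_mem h]
      · rw [Set.indicator_of_notMem h]
        rw [mem_closedBall_zero_iff, not_le] at h
        exact hx h
  obtain ⟨hT₁, hae₁⟩ := htr V₁ hV₁ hv₁
  obtain ⟨hT₂, hae₂⟩ := htr V₂ hV₂ hv₂
  have hSD' := SD_of_band h0 h2 h1 hr (hK₁ _ M hr) hT₁ hT₂ ((le_max_right _ _).trans ha) hab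
    (fun θ hθ k hk => sbs_c (SBS_congr hae₁ hae₂ (hd θ hθ k hk)))
  have haeC : Vc ((Metric.closedBall 0 R).indicator V₁) =ᵐ[volume] Vc (pV V₀ f) := by
    filter_upwards [hae₁, hVp] with x e1 e2
    rw [Vc, Vc, ← e1, e2]
  have hSDf : SD s (R + 1) (Vc (pV V₀ f)) (Vc ((Metric.closedBall 0 R).indicator V₂)) :=
    SD_congr haeC (EventuallyEq.refl _ _) hSD'
  have hclose : ∀ n : ℕ, M ≤ n →
      ‖dH (R + 1) (Vc ((Metric.closedBall 0 R).indicator V₂)) - dH (R + 1) (Vc (pV V₀ f))‖ <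
        1 / ((n : ℝ) + 1) := fun n hn => hg n _ (hT₂.mono hn) hSDf
  have hzero : ‖dH (R + 1) (Vc ((Metric.closedBall 0 R).indicator V₂)) -
      dH (R + 1) (Vc (pV V₀ f))‖ ≤ 0 := by
    refine ge_of_tendsto tendsto_one_div_add_atTop_nhds_zero_nat ?_
    obtain ⟨n₀, hn₀⟩ := exists_nat_ge M
    filter_upwards [eventually_ge_atTop n₀] with n hn
    exact (hclose n (hn₀.trans (by exact_mod_cast hn))).le
  have heq := dH_inj hT₂ (pV_pot hR hB f) (sub_eq_zero.1 (norm_le_zero_iff.1 hzero))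
  filter_upwards [heq, hae₂, hVp] with x e1 e2 e3
  rw [e3, e2]
  exact Complex.ofReal_injective e1

/-- Explicit density. -/
theorem generic_dense {s : ℝ} (h0 : 3 / 4 < s) (h2 : s < 2) (h1 : s ≠ 1) (R : ℝ) :
    ∃ K : ℝ → ℝ → ℝ, ∀ R' : ℝ, 0 ≤ R' → R' < R → ∀ V₀ : E3 → ℝ, IsPotential V₀ →
      (∀ x, R' < ‖x‖ → V₀ x = 0) →
      {f : Shell R' R | Determined s K (fun x => V₀ x + ((f : LI) : E3 → ℝ) x)} ∈
        residual (Shell R' R) ∧
      ∀ ε : ℝ, 0 < ε → ∃ U : E3 → ℝ, Measurable U ∧ (∀ x, |U x| ≤ ε) ∧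
        (∀ x, U x ≠ 0 → R' ≤ ‖x‖ ∧ ‖x‖ < R) ∧ Determined s K (fun x => V₀ x + U x) := by
  obtain ⟨K, hK⟩ := generic h0 h2 h1 R
  refine ⟨K, fun R' hR0 hR V₀ hV₀ hv => ⟨hK R' hR0 hR V₀ hV₀ hv, fun ε hε => ?_⟩⟩
  have hd := dense_of_mem_residual (hK R' hR0 hR V₀ hV₀ hv)
  have h0mem : (0 : LI) ∈ Shell R' R := by
    refine Shell_mem_of hR ?_
    filter_upwards [Lp.coeFn_zero ℝ ∞ (volume : Measure E3)] with x hx hne
    exact absurd hx hne
  obtain ⟨f, hf, hfd⟩ := hd.exists_dist_lt (⟨0, h0mem⟩ : Shell R' R) hε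
  have hfn : ‖(f : LI)‖ < ε := by
    rw [Subtype.dist_eq, dist_eq_norm] at hfd
    have : ((⟨0, h0mem⟩ : Shell R' R) : LI) - (f : LI) = -(f : LI) := by
      simp
    rwa [this, norm_neg] at hfd
  refine ⟨rp f, rp_meas f, fun x => (rp_bd f x).trans hfn.le, rp_van f, ?_⟩
  intro r M V₁ V₂ hV₁ hV₂ hVf
  refine hf r M V₁ V₂ hV₁ hV₂ ?_
  filter_upwards [hVf, rp_ae f] with x e1 e2
  rw [e1, e2]

end FracScatC

end
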