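import Pool.Agent.Lib.MP_6e2ba5_an.Dx.OpenD

/-! # Open dense sets of stably determined potentials -/

set_option autoImplicit false

open MeasureTheory Filter Topology Set
open scoped FourierTransform SchwartzMap InnerProductSpace ENNReal BoundedContinuousFunction

noncomputable section

namespace FracScatC

open FracScat

theorem sq_enorm_HS (W : HS) : ‖W‖ₑ ^ 2 = ∫⁻ x, ‖(W : E3 → ℂ) x‖ₑ ^ 2 := by
  rw [Lp.enorm_def]
  have h := eLpNorm_nnreal_pow_eq_lintegral (μ := (volume : Measure E3)) (f := (W : E3 → ℂ))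
    (p := 2) (by norm_num)
  simpa using h

theorem LocStable.mono {s R M : ℝ} {f g : E3 → ℝ} {δ : ℝ} (hδ : 0 < δ)
    (h : ∃ δ₀ K C : ℝ, δ < δ₀ ∧ 0 < K ∧ 0 ≤ C ∧ ∀ V U : E3 → ℝ, Measurable V →
      (∀ x, R < ‖x‖ → V x = 0) → (∀ᵐ x ∂(volume : Measure E3), |V x - f x| ≤ δ₀) → BPot R M U →
      (∀ a b : ℝ, K ≤ a → a < b →
        (∀ θ : E3, ‖θ‖ = 1 → ∀ k ∈ Ioo a b, FracScat.SameBackScattering s k V U θ) →
          V =ᵐ[volume] U) ∧
      (1 < s → ∀ D : E3 → ℝ, Measurable D →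
        (∀ ξ : E3, K ≤ ‖ξ‖ → BackDistR s (2 * Real.pi * ‖ξ‖) V U (‖ξ‖⁻¹ • ξ) (D ξ)) →
        ∫⁻ x, ‖V x - U x‖ₑ ^ 2 ≤
          ENNReal.ofReal C * ∫⁻ ξ in {ξ : E3 | K ≤ ‖ξ‖}, ‖D ξ‖ₑ ^ 2))
    (hfg : ∀ᵐ x ∂(volume : Measure E3), |g x - f x| ≤ δ) : LocStable s R M g := by
  obtain ⟨δ₀, K, C, hδ₀, hK, hC, hh⟩ := h
  refine ⟨δ₀ - δ, K, C, by linarith, hK, hC, fun V U hV hVv hVg hU => hh V U hV hVv ?_ hU⟩
  filter_upwards [hVg, hfg] with x e1 e2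
  have e3 := abs_add_le (V x - g x) (g x - f x)
  rw [sub_add_sub_cancel] at e3
  linarith

theorem locStable_open {s R' R M : ℝ} :
    IsOpen {f : Shell R' R | LocStable s R M ((f : LI) : E3 → ℝ)} := by
  rw [Metric.isOpen_iff]
  rintro f ⟨δ₀, K, C, hδ₀, hK, hC, hh⟩
  refine ⟨δ₀ / 2, by linarith, fun g hg => ?_⟩
  rw [Metric.mem_ball, Subtype.dist_eq, dist_eq_norm] at hg
  refine LocStable.mono (f := ((f : LI) : E3 → ℝ)) (δ := δ₀ / 2) (by linarith)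
    ⟨δ₀, K, C, by linarith, hK, hC, hh⟩ ?_
  filter_upwards [LI_sub_ae (g : LI) (f : LI)] with x hx
  linarith

/-- A bounded representative. -/
theorem clampL {R M : ℝ} (hM : 0 ≤ M) {V : E3 → ℝ} (hV : Measurable V)
    (hVv : ∀ x, R < ‖x‖ → V x = 0) (hb : ∀ᵐ x ∂(volume : Measure E3), |V x| ≤ M) :
    ∃ V' : E3 → ℝ, BPot R M V' ∧ V =ᵐ[volume] V' := by
  have hS : MeasurableSet {x | |V x| ≤ M} := measurableSet_le hV.abs measurable_const
  refine ⟨{x | |V x| ≤ M}.indicator V, ⟨hV.indicator hS, fun x => ?_, fun x hx => ?_⟩, ?_⟩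
  · by_cases h : x ∈ {x | |V x| ≤ M}
    · rw [Set.indicator_of_mem h]
      exact h
    · rw [Set.indicator_of_notMem h, abs_zero]
      exact hM
  · by_cases h : x ∈ {x | |V x| ≤ M}
    · rw [Set.indicator_of_mem h]
      exact hVv x hx
    · rw [Set.indicator_of_notMem h]
  · filter_upwards [hb] with x hx
    have h : x ∈ {x | |V x| ≤ M} := hx
    rw [Set.indicator_of_mem h]

theorem BackDistR_congr {s k ε : ℝ} {V₁ V₂ V₁' V₂' : E3 → ℝ} (e₁ : V₁ =ᵐ[volume] V₁')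
    (e₂ : V₂ =ᵐ[volume] V₂') {θ : E3} (h : BackDistR s k V₁ V₂ θ ε) :
    BackDistR s k V₁' V₂' θ ε := by
  obtain ⟨u₁, u₂, h1, h2, h3⟩ := h
  refine ⟨u₁, u₂, IsScattering_congr e₁ h1, IsScattering_congr e₂ h2, ?_⟩
  rw [← amplitude_congr e₁, ← amplitude_congr e₂]
  exact h3

theorem bd_c {s k ε : ℝ} {V₁ V₂ : E3 → ℝ} {θ : E3} (h : BackDistR s k V₁ V₂ θ ε) :
    BackDist s k (Vc V₁) (Vc V₂) θ ε := by
  obtain ⟨u₁, u₂, h₁, h₂, h₃⟩ := h
  exact ⟨u₁, u₂, ⟨h₁.bstar, h₁.equation, h₁.radiation⟩, ⟨h₂.bstar, h₂.equation, h₂.radiation⟩, h₃⟩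

theorem UA_UX {s r : ℝ} (h1 : 1 < s) (V : E3 → ℂ) (ξ : E3) : UA s r V ξ = UX s r V ξ := by
  rw [UA, UK, AR, if_pos h1]
  rfl

theorem locStable_of {s : ℝ} (h0 : 3 / 4 < s) (h2 : s < 2) (h1 : s ≠ 1) {R' R M : ℝ}
    (hR0 : 0 < R + 1) {f : Shell R' R}
    (hgood : ∀ n : ℕ, goodN s (R + 1) n (rp f))
    (hkt : ∀ j : ℕ, ‖(f : LI)‖ ≤ j → ∃ K : ℝ, KOK s (R + 1) ((j : ℝ) + 1) K ∧
      kerTriv s (R + 1) K (Vc (rp f))) : LocStable s R M ((f : LI) : E3 → ℝ) := by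
  obtain ⟨j, hj⟩ := exists_nat_ge (max M (‖(f : LI)‖ + 1))
  have hjM : M ≤ j := (le_max_left _ _).trans hj
  have hjf : ‖(f : LI)‖ + 1 ≤ j := (le_max_right _ _).trans hj
  obtain ⟨K, hK, hker⟩ := hkt j (by linarith)
  set M' : ℝ := (j : ℝ) + 1 with hM'
  have hM'0 : 0 ≤ M' := by
    have : (0 : ℝ) ≤ j := Nat.cast_nonneg j
    linarith
  have hV₁ : IsPot (R + 1) M' (Vc (rp f)) := (rp_pot f).mono (by linarith)
  have huniq : ∀ U : E3 → ℝ, IsPot (R + 1) M' (Vc U) → SD s (R + 1) (Vc (rp f)) (Vc U) →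
      dH (R + 1) (Vc U) = dH (R + 1) (Vc (rp f)) := by
    intro U hU hSD
    have hzero : ‖dH (R + 1) (Vc U) - dH (R + 1) (Vc (rp f))‖ ≤ 0 := by
      refine ge_of_tendsto tendsto_one_div_add_atTop_nhds_zero_nat ?_
      obtain ⟨n₀, hn₀⟩ := exists_nat_ge M'
      filter_upwards [eventually_ge_atTop n₀] with n hn
      exact (hgood n U (hU.mono (hn₀.trans (by exact_mod_cast hn))) hSD).le
    exact sub_eq_zero.1 (norm_le_zero_iff.1 hzero)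
  obtain ⟨δ₁, hδ₁, hu⟩ := uniqL h0 h2 h1 hR0 hK hV₁ hker huniq
  obtain ⟨δ₂, C, hδ₂, hC, hst⟩ : ∃ δ₂ C : ℝ, 0 < δ₂ ∧ 0 ≤ C ∧ (1 < s → ∀ V U : E3 → ℝ,
      IsPot (R + 1) M' (Vc V) → IsPot (R + 1) M' (Vc U) →
      ‖dH (R + 1) (Vc V) - dH (R + 1) (Vc (rp f))‖ ≤ δ₂ → ∀ D : E3 → ℝ≥0∞, Measurable D →
      (∀ ξ : E3, K < ‖ξ‖ → ‖FA s (R + 1) (Vc V) ξ - FA s (R + 1) (Vc U) ξ‖ₑ ≤ D ξ) →
      ‖dH (R + 1) (Vc V) - dH (R + 1) (Vc U)‖ₑ ^ 2 ≤
        ENNReal.ofReal C * ∫⁻ ξ in {ξ : E3 | K < ‖ξ‖}, D ξ ^ 2) := by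
    by_cases hs : 1 < s
    · obtain ⟨δ₂, C, hδ₂, hC, hst⟩ := stabL h0 h2 hs hR0 hK hV₁ hker huniq
      exact ⟨δ₂, C, hδ₂, hC, fun _ => hst⟩
    · exact ⟨1, 0, one_pos, le_rfl, fun h => absurd h hs⟩
  have hone : (0 : ℝ) < ‖oneB (R + 1)‖ + 1 := by positivity
  have hKpos : 0 < K := by linarith [hK.one]
  refine ⟨min 1 (min δ₁ δ₂ / (‖oneB (R + 1)‖ + 1)), K, C,
    lt_min one_pos (div_pos (lt_min hδ₁ hδ₂) hone), hKpos, hC, ?_⟩
  intro V U hV hVv hVf hU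
  have hVb : ∀ᵐ x ∂(volume : Measure E3), |V x| ≤ M' := by
    filter_upwards [hVf, LI_ae_le (f : LI)] with x e1 e2
    have e3 := abs_add_le (V x - (f : LI) x) ((f : LI) x)
    rw [sub_add_cancel] at e3
    have e4 := e1.trans (min_le_left _ _)
    linarith
  obtain ⟨V', hV', hae⟩ := clampL hM'0 hV hVv hVb
  have hpV : IsPot (R + 1) M' (Vc V') := bPot_isPot hV' (by linarith)
  have hpU : IsPot (R + 1) M' (Vc U) := (bPot_isPot hU (by linarith)).mono (by linarith)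
  have hdist : ‖dH (R + 1) (Vc V') - dH (R + 1) (Vc (rp f))‖ ≤ min δ₁ δ₂ := by
    have h3 : ‖dH (R + 1) (Vc V') - dH (R + 1) (Vc (rp f))‖ ≤
        min 1 (min δ₁ δ₂ / (‖oneB (R + 1)‖ + 1)) * ‖oneB (R + 1)‖ := by
      refine dH_sub_le hpV hV₁ (lt_min one_pos (div_pos (lt_min hδ₁ hδ₂) hone)).le ?_
      filter_upwards [hVf, hae, rp_ae f] with x e1 e2 e3
      rw [Vc, Vc, ← Complex.ofReal_sub, Complex.norm_real, Real.norm_eq_abs, ← e2, ← e3]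
      exact e1
    refine h3.trans ?_
    calc min 1 (min δ₁ δ₂ / (‖oneB (R + 1)‖ + 1)) * ‖oneB (R + 1)‖
        ≤ min δ₁ δ₂ / (‖oneB (R + 1)‖ + 1) * ‖oneB (R + 1)‖ :=
          mul_le_mul_of_nonneg_right (min_le_right _ _) (norm_nonneg _)
      _ ≤ min δ₁ δ₂ := by
          rw [div_mul_eq_mul_div, div_le_iff₀ hone]
          exact mul_le_mul_of_nonneg_left (by linarith) (lt_min hδ₁ hδ₂).le
  refine ⟨fun a b ha hab hd => ?_, fun hs D hD hDd => ?_⟩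
  · have hSD := SD_of_band h0 h2 h1 hR0 hK hpV hpU ha hab
      (fun θ hθ k hk => sbs_c (SBS_congr hae (EventuallyEq.refl _ _) (hd θ hθ k hk)))
    have h3 := hu V' U hpV hpU (hdist.trans (min_le_left _ _)) hSD
    have h4 := dH_inj hpV hpU h3
    filter_upwards [hae, h4] with x e1 e2
    rw [e1]
    exact Complex.ofReal_injective e2
  · have hFA : ∀ ξ : E3, K < ‖ξ‖ →
        ‖FA s (R + 1) (Vc V') ξ - FA s (R + 1) (Vc U) ξ‖ₑ ≤ ‖D ξ‖ₑ := by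
      intro ξ hξ
      have hξ0 : ξ ≠ 0 := norm_pos_iff.1 (by linarith)
      have hkx : kx ξ ∈ Reg K := by
        refine ⟨?_, ?_, ?_⟩
        · rw [kx, Complex.ofReal_re]
          positivity
        · rw [kx, Complex.ofReal_im]
        · rw [kx, Complex.norm_real, Real.norm_of_nonneg (by positivity)]
          have hpi := Real.pi_gt_three
          nlinarith
      have h3 := data_ident h0 h2 hR0 hξ0 hpV hpU (hK.tk _ hpV _ hkx) (hK.tk _ hpU _ hkx)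
        (bd_c (BackDistR_congr hae (EventuallyEq.refl _ _) (hDd ξ hξ.le)))
      rw [← FA_ident h0 h2 h1 hR0 hK hpV hpU hξ.le, UA_UX hs, UA_UX hs]
      rw [← ofReal_norm, ← ofReal_norm]
      refine ENNReal.ofReal_le_ofReal (h3.trans ?_)
      exact Real.le_norm_self _
    have h3 := hst hs V' U hpV hpU (hdist.trans (min_le_right _ _)) (fun ξ => ‖D ξ‖ₑ) hD.enorm hFA
    have h4 : ∫⁻ x, ‖V x - U x‖ₑ ^ 2 = ‖dH (R + 1) (Vc V') - dH (R + 1) (Vc U)‖ₑ ^ 2 := by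
      rw [sq_enorm_HS]
      refine lintegral_congr_ae ?_
      filter_upwards [Lp.coeFn_sub (dH (R + 1) (Vc V')) (dH (R + 1) (Vc U)), dH_coe hpV,
        dH_coe hpU, hae] with x e1 e2 e3 e4
      rw [e1, Pi.sub_apply, e2, e3, Vc, Vc, ← Complex.ofReal_sub, e4]
      congr 1
      rw [← ofReal_norm, ← ofReal_norm, Complex.norm_real]
    rw [h4]
    have hsub : {ξ : E3 | K < ‖ξ‖} ⊆ {ξ : E3 | K ≤ ‖ξ‖} := by
      intro ξ hξ
      have h5 : K < ‖ξ‖ := hξ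
      exact h5.le
    exact h3.trans (mul_le_mul_right (lintegral_mono_set hsub) _)

/-- For every bound `M` the stably determined potentials form an open dense set. -/
theorem generic_open {s : ℝ} (h0 : 3 / 4 < s) (h2 : s < 2) (h1 : s ≠ 1) {R' R : ℝ}
    (hR0 : 0 ≤ R') (hR : R' < R) (M : ℝ) :
    IsOpen {f : Shell R' R | LocStable s R M ((f : LI) : E3 → ℝ)} ∧
      Dense {f : Shell R' R | LocStable s R M ((f : LI) : E3 → ℝ)} := by
  refine ⟨locStable_open, ?_⟩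
  have hr : 0 < R + 1 := by linarith
  have hex : ∀ j : ℕ, ∃ K : ℝ, KOK s (R + 1) ((j : ℝ) + 1) K := fun j =>
    exists_KOK h0 h2 h1 hr _
  choose K hK using hex
  have hA : (⋂ n : ℕ, {f : Shell R' R | goodN s (R + 1) n (pV (fun _ => 0) f)}) ∈
      residual (Shell R' R) := by
    rw [countable_iInter_mem]
    exact fun n => residual_of_dense_open (isOpen_good h0 h2 h1 hR0 hR bpot_zero n)
      (dense_good h0 h2 h1 hR0 hR bpot_zero n)
  have hB : (⋂ j : ℕ, {f : Shell R' R | (j : ℝ) < ‖(f : LI)‖ ∨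
      (‖(f : LI)‖ < (j : ℝ) + 1 ∧ kerTriv s (R + 1) (K j) (Vc (rp f)))}) ∈
      residual (Shell R' R) := by
    rw [countable_iInter_mem]
    exact fun j => residual_of_dense_open (ker_set_open h0 h2 h1 hr j (hK j))
      (ker_set_dense h0 h2 h1 hr j (K j))
  refine (dense_of_mem_residual (inter_mem hA hB)).mono ?_
  rintro f ⟨hf1, hf2⟩
  refine locStable_of h0 h2 h1 hr (fun n => ?_) (fun j hj => ⟨K j, hK j, ?_⟩)
  · have h3 : goodN s (R + 1) n (pV (fun _ => 0) f) := mem_iInter.1 hf1 n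
    rwa [pV_zero] at h3
  · rcases mem_iInter.1 hf2 j with h | h
    · exact absurd hj (not_le.2 h)
    · exact h.2

end FracScatC

end
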