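import Pool.Agent.Lib.MP_6e2ba5_an.Dx.StmtZ
import Pool.Agent.Lib.MP_6e2ba5_an.Dx.FinY

/-! # Transfer to the elementary terms -/

set_option autoImplicit false

open MeasureTheory Filter Topology Set
open scoped InnerProductSpace ENNReal

noncomputable section

namespace FracScat

theorem InShell.memLp {R' R : ℝ} {f : E3 → ℝ} (h : InShell R' R f) :
    MemLp f ∞ (volume : Measure E3) := by
  obtain ⟨hm, ⟨M, hM⟩, -⟩ := h
  refine memLp_top_of_bound hm.aestronglyMeasurable M ?_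
  filter_upwards [hM] with x hx
  rwa [Real.norm_eq_abs]

theorem InShell.mem {R' R : ℝ} {f : E3 → ℝ} (h : InShell R' R f) :
    (h.memLp.toLp f : LI) ∈ Shell R' R := by
  have hL := h.memLp
  obtain ⟨hm, ⟨M, hM⟩, hs⟩ := h
  refine Metric.mem_closure_iff.2 fun ε hε => ?_
  obtain ⟨ρ, hρ, hρ'⟩ := hs (ε / 2) (half_pos hε)
  set S : Set E3 := {x | R' ≤ ‖x‖ ∧ ‖x‖ ≤ ρ} with hS
  have hSm : MeasurableSet S := (measurableSet_le measurable_const measurable_norm).inter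
    (measurableSet_le measurable_norm measurable_const)
  have hg : MemLp (S.indicator f) ∞ (volume : Measure E3) := hL.indicator hSm
  refine ⟨hg.toLp _, ⟨ρ, hρ, ?_⟩, ?_⟩
  · filter_upwards [hg.coeFn_toLp] with x hx hne
    rw [hx] at hne
    by_contra h
    exact hne (Set.indicator_of_notMem (s := S) h _)
  · rw [dist_eq_norm]
    refine lt_of_le_of_lt (LI_norm_le (C := ε / 2) (half_pos hε).le ?_) (half_lt_self hε)
    filter_upwards [Lp.coeFn_sub (hL.toLp f : LI) (hg.toLp _ : LI), hg.coeFn_toLp, hL.coeFn_toLp,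
      hρ'] with x e1 e2 e3 e4
    rw [e1, Pi.sub_apply, e2, e3]
    by_cases h : x ∈ S
    · rw [Set.indicator_of_mem h, sub_self, abs_zero]
      exact (half_pos hε).le
    · rw [Set.indicator_of_notMem h, sub_zero]
      rcases e4 with e4 | e4
      · exact e4
      · exact absurd e4 h

theorem inShell_coe {R' R : ℝ} (F : Shell R' R) : InShell R' R ((F : LI) : E3 → ℝ) := by
  refine ⟨(Lp.stronglyMeasurable (F : LI)).measurable, ⟨_, LI_ae_le (F : LI)⟩, fun ε hε => ?_⟩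
  obtain ⟨g, ⟨ρ, hρ, hg⟩, hd⟩ := Metric.mem_closure_iff.1 F.2 ε hε
  refine ⟨ρ, hρ, ?_⟩
  filter_upwards [hg, LI_sub_ae (F : LI) g] with x h1 h2
  by_cases h : (g : E3 → ℝ) x = 0
  · left
    rw [h, sub_zero] at h2
    rw [dist_eq_norm] at hd
    exact h2.trans hd.le
  · right
    exact h1 h

/-- The class of `f`. -/
def cls {R' R : ℝ} {f : E3 → ℝ} (h : InShell R' R f) : Shell R' R := ⟨h.memLp.toLp f, h.mem⟩

theorem cls_ae {R' R : ℝ} {f : E3 → ℝ} (h : InShell R' R f) :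
    ((cls h : LI) : E3 → ℝ) =ᵐ[volume] f := h.memLp.coeFn_toLp

theorem cls_coe {R' R : ℝ} (F : Shell R' R) : cls (inShell_coe F) = F :=
  Subtype.ext (Lp.toLp_coeFn (F : LI) (inShell_coe F).memLp)

theorem dist_cls {R' R : ℝ} {f : E3 → ℝ} (h : InShell R' R f) (G : Shell R' R) {δ : ℝ}
    (hδ : 0 ≤ δ) (hn : Near δ f ((G : LI) : E3 → ℝ)) : dist G (cls h) ≤ δ := by
  rw [Subtype.dist_eq, dist_eq_norm]
  refine LI_norm_le hδ ?_
  filter_upwards [Lp.coeFn_sub (G : LI) (cls h : LI), cls_ae h, hn] with x e1 e2 e3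
  rw [e1, Pi.sub_apply, e2]
  exact e3

theorem near_of_dist {R' R : ℝ} {f : E3 → ℝ} (h : InShell R' R f) (G : Shell R' R) :
    Near (dist G (cls h)) f ((G : LI) : E3 → ℝ) := by
  rw [Near, Subtype.dist_eq, dist_eq_norm]
  filter_upwards [LI_sub_ae (G : LI) (cls h : LI), cls_ae h] with x e1 e2
  rwa [e2] at e1

/-- Properties of classes. -/
def Inv (R' R : ℝ) (P : (E3 → ℝ) → Prop) : Prop :=
  ∀ f g : E3 → ℝ, InShell R' R f → InShell R' R g → f =ᵐ[volume] g → P f → P g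

theorem openDense_of {R' R : ℝ} {P : (E3 → ℝ) → Prop} (hP : Inv R' R P)
    (ho : IsOpen {F : Shell R' R | P ((F : LI) : E3 → ℝ)})
    (hd : Dense {F : Shell R' R | P ((F : LI) : E3 → ℝ)}) : OpenDense R' R P := by
  refine ⟨fun f hf hPf => ?_, fun f hf ε hε => ?_⟩
  · have h1 : cls hf ∈ {F : Shell R' R | P ((F : LI) : E3 → ℝ)} :=
      hP _ _ hf (inShell_coe _) (cls_ae hf).symm hPf
    obtain ⟨δ, hδ, hb⟩ := Metric.isOpen_iff.1 ho _ h1
    refine ⟨δ / 2, half_pos hδ, fun g hg hn => ?_⟩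
    have h2 : Near (δ / 2) f ((cls hg : LI) : E3 → ℝ) := by
      filter_upwards [hn, cls_ae hg] with x e1 e2
      rwa [e2]
    have h3 : cls hg ∈ Metric.ball (cls hf) δ :=
      Metric.mem_ball.2 (lt_of_le_of_lt (dist_cls hf _ (half_pos hδ).le h2) (half_lt_self hδ))
    exact hP _ _ (inShell_coe _) hg (cls_ae hg) (hb h3)
  · obtain ⟨G, hG1, hG2⟩ := Metric.dense_iff.1 hd (cls hf) ε hε
    refine ⟨_, inShell_coe G, ?_, hG2⟩
    filter_upwards [near_of_dist hf G] with x e1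
    exact e1.trans (Metric.mem_ball.1 hG1).le

theorem residual_of {R' R : ℝ} {P : (E3 → ℝ) → Prop} (hP : Inv R' R P)
    (hr : {F : Shell R' R | P ((F : LI) : E3 → ℝ)} ∈ residual (Shell R' R)) :
    Residual R' R P := by
  obtain ⟨S, h1, h2, h3, h4⟩ := mem_residual_iff.1 hr
  have key : ∀ u : ℕ → Set (Shell R' R), (∀ n, IsOpen (u n) ∧ Dense (u n)) →
      (∀ F, (∀ n, F ∈ u n) → P ((F : LI) : E3 → ℝ)) → Residual R' R P := by
    intro u hu hF
    refine ⟨fun n f => ∃ h : InShell R' R f, cls h ∈ u n, fun n => ?_, fun f hf hn => ?_⟩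
    · have e : {F : Shell R' R | ∃ h : InShell R' R ((F : LI) : E3 → ℝ), cls h ∈ u n} = u n := by
        ext F
        constructor
        · rintro ⟨h, h'⟩
          have := cls_coe F
          rwa [show cls h = F from this] at h'
        · intro h
          refine ⟨inShell_coe F, ?_⟩
          rwa [cls_coe F]
      refine openDense_of (fun f g hf hg hfg hp => ?_) ?_ ?_
      · obtain ⟨h, h'⟩ := hp
        refine ⟨hg, ?_⟩
        have : cls hg = cls h := Subtype.ext (by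
          refine Lp.ext ?_
          exact ((cls_ae hg).trans hfg.symm).trans (cls_ae h).symm)
        rwa [this]
      · rw [e]
        exact (hu n).1
      · rw [e]
        exact (hu n).2
    · refine hP _ _ (inShell_coe (cls hf)) hf (cls_ae hf) (hF _ fun n => ?_)
      obtain ⟨h, h'⟩ := hn n
      exact h'
  rcases S.eq_empty_or_nonempty with rfl | hne
  · refine key (fun _ => Set.univ) (fun _ => ⟨isOpen_univ, dense_univ⟩) fun F _ => h4 ?_
    simp
  · obtain ⟨u, hu⟩ := h3.exists_eq_range hne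
    refine key u (fun n => ?_) fun F hF => h4 ?_
    · have : u n ∈ S := hu ▸ Set.mem_range_self n
      exact ⟨h1 _ this, h2 _ this⟩
    · rw [hu]
      rintro _ ⟨n, rfl⟩
      exact hF n

theorem Determined_congr {s : ℝ} {K : ℝ → ℝ → ℝ} {V V' : E3 → ℝ} (h : V =ᵐ[volume] V')
    (hd : Determined s K V) : Determined s K V' :=
  fun r M V₁ V₂ h1 h2 e => hd r M V₁ V₂ h1 h2 (e.trans h.symm)

theorem LocStable_congr {s R M : ℝ} {f g : E3 → ℝ} (h : f =ᵐ[volume] g)
    (hf : LocStable s R M f) : LocStable s R M g := by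
  obtain ⟨δ, K, C, h1, h2, h3, h4⟩ := hf
  refine ⟨δ, K, C, h1, h2, h3, fun V U hV hv hn hU => h4 V U hV hv ?_ hU⟩
  filter_upwards [hn, h] with x e1 e2
  rwa [e2]

/-- The data of the zero potential determine it. -/
theorem goodN_zero {s : ℝ} (h0 : 3 / 4 < s) (h2 : s < 2) (h1 : s ≠ 1) {r : ℝ} (hr : 0 < r)
    (n : ℕ) : FracScatC.goodN s r n (fun _ => (0 : ℝ)) := by
  intro U hU hSD
  obtain ⟨K, hK⟩ := FracScatC.exists_KOK h0 h2 h1 hr (n : ℝ)
  have hZ : FracScatC.IsPot r n (Vc (fun _ : E3 => (0 : ℝ))) :=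
    FracScatC.pot_Vc measurable_const (fun x => by
      rw [abs_zero]
      exact Nat.cast_nonneg n) (fun x _ => rfl)
  have hP₁ : PotIn r U := ⟨FracScatC.Vc_meas hU, ⟨n, FracScatC.Vc_bd hU⟩, FracScatC.Vc_van hU⟩
  have hP₂ : PotIn r (fun _ : E3 => (0 : ℝ)) :=
    ⟨FracScatC.Vc_meas hZ, ⟨n, FracScatC.Vc_bd hZ⟩, FracScatC.Vc_van hZ⟩
  set θ : E3 := EuclideanSpace.single 0 1 with hθd
  have hθ : ‖θ‖ = 1 := by
    rw [hθd]
    simp
  have h3 := half_space (by linarith) h2 h1 hr hP₁ hP₂ θ hK.one (fun k hk => hK.tk _ hU k hk)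
    (fun k hk => hK.tk _ hZ k hk)
    (fun τ hτ => (FracScatC.SD_I h0 h2 h1 hr hK hZ hU hSD hθ τ hτ).symm)
    (c := -(r + 1)) (Eventually.of_forall fun x _ => rfl)
  have h4 : U =ᵐ[volume] fun _ => (0 : ℝ) := by
    filter_upwards [h3] with x hx
    by_cases h : ‖x‖ < r
    · refine hx ?_
      have h5 := abs_real_inner_le_norm θ x
      rw [hθ, one_mul] at h5
      linarith [le_abs_self (⟪θ, x⟫_ℝ)]
    · exact FracScatC.Vc_van hU x (not_lt.1 h)
  have h5 : Vc U =ᵐ[volume] Vc (fun _ : E3 => (0 : ℝ)) := by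
    filter_upwards [h4] with x hx
    rw [Vc, Vc, hx]
  rw [FracScatC.dH_congr hU hZ h5, sub_self, norm_zero]
  positivity

/-- Small potentials are determined among all potentials. -/
theorem locStable_zero {s : ℝ} (h0 : 3 / 4 < s) (h2 : s < 2) (h1 : s ≠ 1) {R : ℝ} (hR : 0 < R)
    (M : ℝ) : LocStable s R M (fun _ => (0 : ℝ)) := by
  have hr : 0 < R + 1 := by linarith
  have h0mem : (0 : LI) ∈ Shell 0 R := by
    refine Shell_mem_of hR ?_
    filter_upwards [Lp.coeFn_zero ℝ ∞ (volume : Measure E3)] with x hx hne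
    exact absurd hx hne
  set f : Shell 0 R := ⟨0, h0mem⟩ with hf
  have hrp : rp f =ᵐ[volume] fun _ => (0 : ℝ) :=
    (rp_ae f).symm.trans (Lp.coeFn_zero ℝ ∞ (volume : Measure E3))
  have hZ : FracScatC.IsPot (R + 1) 0 (Vc (fun _ : E3 => (0 : ℝ))) :=
    FracScatC.pot_Vc measurable_const (fun x => by rw [abs_zero]) (fun x _ => rfl)
  have hV : Vc (rp f) =ᵐ[volume] Vc (fun _ : E3 => (0 : ℝ)) := by
    filter_upwards [hrp] with x hx
    rw [Vc, Vc, hx]
  have hker : ∀ K : ℝ, FracScatC.kerTriv s (R + 1) K (Vc (rp f)) := by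
    intro K
    obtain ⟨S, -, hS0, hSt⟩ := FracScatC.ker_scale h0 h2 h1 hr hZ 1 K
    have h3 : FracScatC.kerTriv s (R + 1) K
        (fun x => (0 : ℂ) * Vc (fun _ : E3 => (0 : ℝ)) x) :=
      fun w hw hA => hSt 0 (by simp) hS0 w hw hA
    refine FracScatC.kerTriv_congr ?_ h3
    filter_upwards [hV] with x hx
    rw [hx, zero_mul]
    rfl
  refine LocStable_congr (Lp.coeFn_zero ℝ ∞ (volume : Measure E3)) (f := ((f : LI) : E3 → ℝ)) ?_
  refine FracScatC.locStable_of h0 h2 h1 hr (f := f) (fun n => ?_) (fun j _ => ?_)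
  · exact FracScatC.goodN_congr hZ (FracScatC.rp_pot f) hrp.symm (goodN_zero h0 h2 h1 hr n)
  · obtain ⟨K, hK⟩ := FracScatC.exists_KOK h0 h2 h1 hr ((j : ℝ) + 1)
    exact ⟨K, hK, hker K⟩

/-- **Generic uniqueness and stability.** -/
theorem generic_all {s : ℝ} (h0 : 3 / 4 < s) (h2 : s < 2) (h1 : s ≠ 1) (R : ℝ) :
    ∃ K : ℝ → ℝ → ℝ, ∀ R' : ℝ, 0 ≤ R' → R' < R →
      (∀ V₀ : E3 → ℝ, IsPotential V₀ → (∀ x, R' < ‖x‖ → V₀ x = 0) →
        Residual R' R (fun f => Determined s K (fun x => V₀ x + f x)) ∧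
        ∀ ε : ℝ, 0 < ε → ∃ U : E3 → ℝ, Measurable U ∧ (∀ x, |U x| ≤ ε) ∧
          (∀ x, U x ≠ 0 → R' ≤ ‖x‖ ∧ ‖x‖ < R) ∧ Determined s K (fun x => V₀ x + U x)) ∧
      ∀ M : ℝ, OpenDense R' R (LocStable s R M) ∧ LocStable s R M (fun _ => 0) := by
  obtain ⟨K, hK⟩ := FracScatC.generic_dense h0 h2 h1 R
  refine ⟨K, fun R' hR0 hR => ⟨fun V₀ hV₀ hv => ⟨?_, (hK R' hR0 hR V₀ hV₀ hv).2⟩, fun M => ?_⟩⟩
  · refine residual_of (fun f g _ _ hfg hd => Determined_congr ?_ hd) (hK R' hR0 hR V₀ hV₀ hv).1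
    filter_upwards [hfg] with x hx
    rw [hx]
  · exact ⟨openDense_of (fun f g _ _ hfg hd => LocStable_congr hfg hd)
      (FracScatC.generic_open h0 h2 h1 hR0 hR M).1 (FracScatC.generic_open h0 h2 h1 hR0 hR M).2,
      locStable_zero h0 h2 h1 (hR0.trans_lt hR) M⟩

end FracScat

end
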