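import Pool.Agent.Lib.MP_6e2ba5_an.Dx.RIb

/-! # The kernel `gX` as a function of the pole

`gX_coe`: `FT.symm (mulL (efun (-x)) (mIH))` is the translate `GI(· - x)` of `GI = FT.symm mIH` (translation and modulation).
`pr_gX`: for `q ∈ HB r`, `pr (gX s r τ x) q = ∫ GI(a-x) q(a) da`, `GI` is even (the symbol is even), and
`multL (mI s τ) q = ∫ GI(x-a) q(a) da` a.e. (`conv_sub` in `Rx/OffN.lean`, private: copy). Or in Fourier space: `parseval`:
`pr (gX x) q = ∫ mI(ξ) exp(-2πi ξ·x) FT q (-ξ) dξ = 𝓕⁻ (mI · 𝓕 q)(x)`, and `mI · 𝓕 q` is integrable. -/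

set_option autoImplicit false

open MeasureTheory Filter Topology Set
open scoped FourierTransform SchwartzMap InnerProductSpace ENNReal BoundedContinuousFunction

noncomputable section

namespace FracScatC

open FracScat

private theorem FT_trans (x : E3) (h : HS) :
    FT (Lp.compMeasurePreserving (fun a : E3 => a - x) (measurePreserving_sub_right volume x) h) =
      mulL (efun (-x)) (FT h) := by
  let T : HS →ₗᵢ[ℂ] HS := Lp.compMeasurePreservingₗᵢ ℂ (fun ζ : E3 => ζ - x)
    (measurePreserving_sub_right volume x)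
  have hT : ∀ f : HS, (T f : E3 → ℂ) =ᵐ[volume] fun ζ => (f : E3 → ℂ) (ζ - x) := fun f =>
    Lp.coeFn_compMeasurePreserving f (measurePreserving_sub_right volume x)
  change FT (T h) = mulL (efun (-x)) (FT h)
  refine DenseRange.induction_on (p := fun g : HS => FT (T g) = mulL (efun (-x)) (FT g))
    (SchwartzMap.denseRange_toLpCLM (p := 2) (μ := (volume : Measure E3)) (F := ℂ)
      ENNReal.ofNat_ne_top) h ?_ ?_
  · exact isClosed_eq (FT.continuous.comp T.continuous)
      ((mulL (efun (-x))).continuous.comp FT.continuous)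
  · intro φ
    have hi : Integrable (φ.toLp 2 (volume : Measure E3) : E3 → ℂ) :=
      (φ.integrable (μ := (volume : Measure E3))).congr (φ.coeFn_toLp 2 volume).symm
    set g : HS := φ.toLp 2 (volume : Measure E3) with hg
    change FT (T g) = mulL (efun (-x)) (FT g)
    have hi2 : Integrable (T g : E3 → ℂ) := (hi.comp_sub_right x).congr (hT g).symm
    apply Lp.ext
    filter_upwards [FT_coe_of_integrable _ hi2, mulL_coe (efun_BM (-x)) (FT g),
      FT_coe_of_integrable _ hi] with ζ a b c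
    rw [a, b, c, Real.fourier_eq', Real.fourier_eq', ← integral_const_mul]
    have h2 : ∫ v, Complex.exp (((-2 * Real.pi * ⟪v, ζ⟫_ℝ : ℝ) : ℂ) * Complex.I) •
        (T g : E3 → ℂ) v =
        ∫ v, (fun u => efun (-x) ζ *
          (Complex.exp (((-2 * Real.pi * ⟪u, ζ⟫_ℝ : ℝ) : ℂ) * Complex.I) •
          (g : E3 → ℂ) u)) (v - x) := by
      refine integral_congr_ae ?_
      filter_upwards [hT g] with v a
      rw [a, smul_eq_mul]
      beta_reduce
      rw [smul_eq_mul, ← mul_assoc, efun, ← Complex.exp_add]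
      congr 2
      rw [inner_neg_left, inner_sub_left]
      push_cast
      ring
    rw [h2]
    exact integral_sub_right_eq_self (fun u => efun (-x) ζ * (Complex.exp
      (((-2 * Real.pi * ⟪u, ζ⟫_ℝ : ℝ) : ℂ) * Complex.I) • (g : E3 → ℂ) u)) x

theorem gX_coe {s : ℝ} (h0 : 3 / 4 < s) (h2 : s < 2) (h1 : s ≠ 1) (r : ℝ) {τ : ℝ} (hτ : 0 < τ)
    (x : E3) : (gX s r τ x : E3 → ℂ) =ᵐ[volume] fun a => indB r a * (GI s τ : E3 → ℂ) (a - x) := by
  have e1 : mulL (efun (-x)) (mIH s τ) = FT (Lp.compMeasurePreserving (fun a : E3 => a - x)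
      (measurePreserving_sub_right volume x) (GI s τ)) := by
    rw [FT_trans, GI, LinearIsometryEquiv.apply_symm_apply]
  have e2 : gX s r τ x = mulL (indB r) (Lp.compMeasurePreserving (fun a : E3 => a - x)
      (measurePreserving_sub_right volume x) (GI s τ)) := by
    rw [gX, e1, LinearIsometryEquiv.symm_apply_apply]
  rw [e2]
  filter_upwards [mulL_coe (indB_BM r) (Lp.compMeasurePreserving (fun a : E3 => a - x)
      (measurePreserving_sub_right volume x) (GI s τ)),
    Lp.coeFn_compMeasurePreserving (GI s τ) (measurePreserving_sub_right volume x)] with a b c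
  rw [b, c]
  rfl

theorem pr_gX {s : ℝ} (h0 : 3 / 4 < s) (h2 : s < 2) (h1 : s ≠ 1) {r : ℝ} (hr : 0 < r) {τ : ℝ}
    (hτ : 0 < τ) {q : HS} (hq : q ∈ HB r) :
    ∀ᵐ x ∂(volume : Measure E3), pr (gX s r τ x) q = (multL (mI s τ) q : E3 → ℂ) x := by
  have hm : MemLp (mI s τ) 2 (volume : Measure E3) := mI_memLp h0 h2 h1 hτ
  have hBM : BM (mI s τ) := mI_BM (by linarith) h2 h1 hτ
  have heven : ∀ ξ : E3, mI s τ (-ξ) = mI s τ ξ := by
    intro ξ
    rw [mI, mI, rsE, rsE, norm_neg]
  have hGc : (mulL (mI s τ) (FT q) : E3 → ℂ) =ᵐ[volume]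
      fun ζ => (FT (GI s τ) : E3 → ℂ) ζ * (FT q : E3 → ℂ) ζ := by
    filter_upwards [mulL_coe hBM (FT q), FT_GI hm] with ζ a b
    rw [a, b]
  have hG : Integrable (mulL (mI s τ) (FT q) : E3 → ℂ) :=
    (integrable_mul (FT (GI s τ)) (FT q)).congr hGc.symm
  rw [multL_apply]
  filter_upwards [FTsymm_coe_of_integrable _ hG] with x hx
  rw [hx]
  have hqB : mulL (indB r) q = q := mem_HB.1 hq
  set F : HS := mulL (efun (-x)) (mIH s τ) with hF
  have e1 : pr (gX s r τ x) q = ∫ a, (FT.symm F : E3 → ℂ) a * (q : E3 → ℂ) a := by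
    rw [pr_eq]
    apply integral_congr_ae
    have h3 := mulL_coe (indB_BM r) q
    rw [hqB] at h3
    filter_upwards [mulL_coe (indB_BM r) (FT.symm F), h3] with a b c
    rw [gX, ← hF, b]
    conv_rhs => rw [c]
    ring
  rw [e1, parseval, LinearIsometryEquiv.apply_symm_apply, Real.fourierInv_eq',
    ← integral_neg_eq_self]
  simp only [neg_neg]
  have hneg : MeasurePreserving (fun ζ : E3 => -ζ) volume volume :=
    Measure.measurePreserving_neg volume
  have h5 : ∀ᵐ ξ ∂(volume : Measure E3), (F : E3 → ℂ) (-ξ) = efun (-x) (-ξ) * mI s τ (-ξ) := by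
    have : ∀ᵐ ξ ∂(volume : Measure E3), (F : E3 → ℂ) ξ = efun (-x) ξ * mI s τ ξ := by
      filter_upwards [mulL_coe (efun_BM (-x)) (mIH s τ), mIH_coe hm] with ξ a b
      rw [hF, a, b]
    exact hneg.quasiMeasurePreserving.ae this
  refine integral_congr_ae ?_
  filter_upwards [h5, mulL_coe hBM (FT q)] with ξ a b
  rw [a, b, heven, smul_eq_mul, efun, inner_neg_neg, real_inner_comm]
  ring

end FracScatC

end
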