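import Pool.Agent.Lib.MP_6e2ba5_an.Dx.Defs

/-! # Unique continuation for the potentials of square integrable functions

`W` real, `W = 0` a.e. on `B(y₀,ρ)`, `∫ |W|² < ∞`, `∫ W(x) ‖x-y‖^(-b) dx = 0` for `‖y-y₀‖ < ρ'`, `b = 3 + 2s > 4`. As in
`Rx/SphA.lean`, `SphB.lean`, `SphC.lean` (there `W` has bounded support): the Laplace operator in `y` (second differences, `sph_point`)
gives `∫ W ‖x-y‖^(-b-2m) = 0` for all `m`; all these integrals converge since `‖x-y‖^(-b)` is square integrable on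
`‖x-y‖ ≥ δ`. So `∫ W(x) ‖x-y‖^(-b) P(‖x-y‖^(-2)) dx = 0` for polynomials `P`; with `T = ‖x-y‖^(-2) ∈ (0, δ^(-2)]` and the
Weierstrass theorem on `[0, δ^(-2)]` for the continuous function `T ↦ T^(-b/2) exp(-1/T)` (`0` at `T = 0`):
`∫ W(x) exp(-‖x-y‖²) dx = 0` for `‖y-y₀‖ < ρ'' = min ρ ρ'`. Put `W₁(x) = W(x) exp(-‖x-y₀‖²)`: for `y = y₀ + v`,
`exp(-‖x-y‖²) = exp(-‖x-y₀‖²) exp(2 v·(x-y₀)) exp(-‖v‖²)`, so `∫ W₁(x) exp(2 v·(x-y₀)) dx = 0` for small real `v`; for fixed `ξ`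
the function `t ↦ ∫ W₁(x) exp(t ξ·(x-y₀)) dx` is entire (Gaussian decay) and vanishes for small real `t`, so it vanishes at
`t = -2πi`: the Fourier transform of `W₁` vanishes. -/

set_option autoImplicit false

open MeasureTheory Filter Topology Set
open scoped FourierTransform SchwartzMap InnerProductSpace ENNReal BoundedContinuousFunction

noncomputable section

namespace FracScatC

open FracScat

private structure SphLW (W : E3 → ℝ) (y₀ : E3) (ρ b₀ : ℝ) : Prop where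
  meas : Measurable W
  zero : ∀ᵐ x ∂(volume : Measure E3), ‖x - y₀‖ < ρ → W x = 0
  int : Integrable (fun x => W x * (1 + ‖x‖) ^ (-b₀)) (volume : Measure E3)

/-- kernel bound -/
private theorem sphL_ker {b₀ b δ : ℝ} (hb₀ : 0 ≤ b₀) (hb : b₀ ≤ b) (hδ : 0 < δ) (y : E3) :
    ∃ K : ℝ, 0 ≤ K ∧ ∀ x : E3, δ ≤ ‖x - y‖ → ‖x - y‖ ^ (-b) ≤ K * (1 + ‖x‖) ^ (-b₀) := by
  set A : ℝ := (1 + ‖y‖) / δ + 1 with hA
  have hA0 : 0 < A := by positivity
  refine ⟨(A ^ (-b₀))⁻¹ * δ ^ (-(b - b₀)), by positivity, fun x hx => ?_⟩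
  have hp : 0 < ‖x - y‖ := hδ.trans_le hx
  have h1 : 1 + ‖x‖ ≤ A * ‖x - y‖ := by
    have h2 : ‖x‖ ≤ ‖x - y‖ + ‖y‖ := by
      have := norm_add_le (x - y) y
      simpa using this
    have h3 : (1 + ‖y‖) ≤ (1 + ‖y‖) / δ * ‖x - y‖ := by
      rw [div_mul_eq_mul_div, le_div_iff₀ hδ]
      exact mul_le_mul_of_nonneg_left hx (by positivity)
    rw [hA]
    nlinarith
  have h4 : (1 + ‖x‖) / A ≤ ‖x - y‖ := by
    rw [div_le_iff₀ hA0]
    linarith
  have h5 : 0 < (1 + ‖x‖) / A := by positivity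
  have h6 : ‖x - y‖ ^ (-b₀) ≤ ((1 + ‖x‖) / A) ^ (-b₀) :=
    Real.rpow_le_rpow_of_nonpos h5 h4 (by linarith)
  have h7 : ‖x - y‖ ^ (-(b - b₀)) ≤ δ ^ (-(b - b₀)) :=
    Real.rpow_le_rpow_of_nonpos hδ hx (by linarith)
  have h8 : ‖x - y‖ ^ (-b) = ‖x - y‖ ^ (-b₀) * ‖x - y‖ ^ (-(b - b₀)) := by
    rw [← Real.rpow_add hp]
    congr 1
    ring
  rw [Real.div_rpow (by positivity) hA0.le] at h6
  rw [h8]
  calc ‖x - y‖ ^ (-b₀) * ‖x - y‖ ^ (-(b - b₀))
      ≤ ((1 + ‖x‖) ^ (-b₀) / A ^ (-b₀)) * δ ^ (-(b - b₀)) :=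
        mul_le_mul h6 h7 (by positivity) (by positivity)
    _ = (A ^ (-b₀))⁻¹ * δ ^ (-(b - b₀)) * (1 + ‖x‖) ^ (-b₀) := by
        rw [div_eq_mul_inv]
        ring

private theorem SphLW.ae {W : E3 → ℝ} {y₀ : E3} {ρ b₀ : ℝ} (hW : SphLW W y₀ ρ b₀) (y : E3) :
    ∀ᵐ x ∂(volume : Measure E3), W x = 0 ∨ ρ - ‖y - y₀‖ ≤ ‖x - y‖ := by
  filter_upwards [hW.zero] with x hx
  by_cases h0 : W x = 0
  · exact Or.inl h0
  · right
    have h1 : ρ ≤ ‖x - y₀‖ := by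
      by_contra h
      exact h0 (hx (not_le.1 h))
    have h2 : ‖x - y₀‖ ≤ ‖x - y‖ + ‖y - y₀‖ := by
      have := norm_add_le (x - y) (y - y₀)
      rwa [sub_add_sub_cancel] at this
    linarith

private theorem SphLW.absint {W : E3 → ℝ} {y₀ : E3} {ρ b₀ : ℝ} (hW : SphLW W y₀ ρ b₀) :
    Integrable (fun x => |W x| * (1 + ‖x‖) ^ (-b₀)) (volume : Measure E3) := by
  refine hW.int.abs.congr (Eventually.of_forall fun x => ?_)
  have : 0 ≤ (1 + ‖x‖) ^ (-b₀) := by positivity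
  simp only [abs_mul, abs_of_nonneg this]

private theorem SphLW.integrable {W : E3 → ℝ} {y₀ : E3} {ρ b₀ : ℝ} (hW : SphLW W y₀ ρ b₀)
    {φ : E3 → ℝ} (hφ : Measurable φ) (y : E3) {K : ℝ} (hK : 0 ≤ K)
    (h : ∀ x, ρ - ‖y - y₀‖ ≤ ‖x - y‖ → |φ x| ≤ K * (1 + ‖x‖) ^ (-b₀)) :
    Integrable (fun x => W x * φ x) (volume : Measure E3) := by
  refine (hW.absint.const_mul K).mono' (hW.meas.mul hφ).aestronglyMeasurable ?_
  filter_upwards [hW.ae y] with x hx
  rcases hx with h0 | hd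
  · rw [h0, zero_mul, norm_zero]
    positivity
  · rw [Real.norm_eq_abs, abs_mul]
    calc |W x| * |φ x| ≤ |W x| * (K * (1 + ‖x‖) ^ (-b₀)) :=
          mul_le_mul_of_nonneg_left (h x hd) (abs_nonneg _)
      _ = K * (|W x| * (1 + ‖x‖) ^ (-b₀)) := by ring

private theorem sphL_meas (y : E3) (b : ℝ) : Measurable (fun x : E3 => ‖x - y‖ ^ (-b)) :=
  ((measurable_id.sub_const y).norm).pow_const _

private theorem SphLW.intK {W : E3 → ℝ} {y₀ : E3} {ρ b₀ b : ℝ} (hW : SphLW W y₀ ρ b₀)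
    (hb₀ : 0 ≤ b₀) (hb : b₀ ≤ b) {y : E3} (hy : ‖y - y₀‖ < ρ) :
    Integrable (fun x => W x * ‖x - y‖ ^ (-b)) (volume : Measure E3) := by
  obtain ⟨K, hK, h⟩ := sphL_ker hb₀ hb (show 0 < ρ - ‖y - y₀‖ by linarith) y
  refine hW.integrable (sphL_meas y b) y hK fun x hx => ?_
  rw [abs_of_nonneg (by positivity)]
  exact h x hx

private theorem sphL_pt {b : ℝ} (hb : 1 < b) {δ : ℝ} (hδ : 0 < δ) :
    ∃ C : ℝ, 0 ≤ C ∧ ∀ v : E3, δ ≤ ‖v‖ → ∀ t : ℝ, 0 < t → t ≤ δ / 2 →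
      |∑ i : Fin 3, (‖v + t • EuclideanSpace.single i (1 : ℝ)‖ ^ (-b) +
        ‖v - t • EuclideanSpace.single i (1 : ℝ)‖ ^ (-b) - 2 * ‖v‖ ^ (-b)) / t ^ 2| ≤
          C * ‖v‖ ^ (-(b + 2)) := by
  obtain ⟨C, hC0, hC⟩ := sph_point hb hδ
  refine ⟨C * (δ ^ (-(b + 2)))⁻¹, by positivity, fun v hv t ht0 ht => ?_⟩
  have hv0 : 0 < ‖v‖ := hδ.trans_le hv
  obtain ⟨l, hl⟩ : ∃ l : ℝ, l = ‖v‖ / δ := ⟨_, rfl⟩
  have hl1 : 1 ≤ l := by
    rw [hl, le_div_iff₀ hδ]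
    linarith
  have hl0 : 0 < l := by linarith
  obtain ⟨v', hv'⟩ : ∃ v' : E3, v' = l⁻¹ • v := ⟨_, rfl⟩
  obtain ⟨t', ht'⟩ : ∃ t' : ℝ, t' = l⁻¹ * t := ⟨_, rfl⟩
  have hvl : v = l • v' := by
    rw [hv', smul_smul, mul_inv_cancel₀ hl0.ne', one_smul]
  have htl : t = l * t' := by
    rw [ht', ← mul_assoc, mul_inv_cancel₀ hl0.ne', one_mul]
  have hnv' : ‖v'‖ = δ := by
    rw [hv', norm_smul, Real.norm_eq_abs, abs_of_pos (inv_pos.2 hl0), hl]
    field_simp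
  have ht'0 : 0 < t' := by
    rw [ht']
    positivity
  have ht'1 : t' ≤ δ / 2 := by
    rw [ht']
    have : l⁻¹ ≤ 1 := inv_le_one_of_one_le₀ hl1
    nlinarith
  have key := (hC v' hnv'.ge).1 t' ht'0 ht'1
  have e1 : ∀ i : Fin 3, ‖v + t • EuclideanSpace.single i (1 : ℝ)‖ ^ (-b) =
      l ^ (-b) * ‖v' + t' • EuclideanSpace.single i (1 : ℝ)‖ ^ (-b) := by
    intro i
    have : v + t • EuclideanSpace.single i (1 : ℝ) =
        l • (v' + t' • EuclideanSpace.single i (1 : ℝ)) := by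
      rw [smul_add, smul_smul, ← htl, ← hvl]
    rw [this, norm_smul, Real.norm_eq_abs, abs_of_pos hl0,
      Real.mul_rpow hl0.le (norm_nonneg _)]
  have e2 : ∀ i : Fin 3, ‖v - t • EuclideanSpace.single i (1 : ℝ)‖ ^ (-b) =
      l ^ (-b) * ‖v' - t' • EuclideanSpace.single i (1 : ℝ)‖ ^ (-b) := by
    intro i
    have : v - t • EuclideanSpace.single i (1 : ℝ) =
        l • (v' - t' • EuclideanSpace.single i (1 : ℝ)) := by
      rw [smul_sub, smul_smul, ← htl, ← hvl]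
    rw [this, norm_smul, Real.norm_eq_abs, abs_of_pos hl0,
      Real.mul_rpow hl0.le (norm_nonneg _)]
  have e3 : ‖v‖ ^ (-b) = l ^ (-b) * ‖v'‖ ^ (-b) := by
    rw [hvl, norm_smul, Real.norm_eq_abs, abs_of_pos hl0,
      Real.mul_rpow hl0.le (norm_nonneg _)]
  have hsum : ∑ i : Fin 3, (‖v + t • EuclideanSpace.single i (1 : ℝ)‖ ^ (-b) +
        ‖v - t • EuclideanSpace.single i (1 : ℝ)‖ ^ (-b) - 2 * ‖v‖ ^ (-b)) / t ^ 2 =
      l ^ (-(b + 2)) * ∑ i : Fin 3, (‖v' + t' • EuclideanSpace.single i (1 : ℝ)‖ ^ (-b) +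
        ‖v' - t' • EuclideanSpace.single i (1 : ℝ)‖ ^ (-b) - 2 * ‖v'‖ ^ (-b)) / t' ^ 2 := by
    have hpw : l ^ (-(b + 2)) = l ^ (-b) * (l ^ 2)⁻¹ := by
      rw [show -(b + 2) = -b + -2 by ring, Real.rpow_add hl0, Real.rpow_neg hl0.le 2]
      norm_num
    rw [Finset.mul_sum]
    refine Finset.sum_congr rfl fun i _ => ?_
    rw [e1, e2, e3, hpw, htl]
    field_simp
  rw [hsum, abs_mul, abs_of_pos (by positivity : 0 < l ^ (-(b + 2)))]
  have e4 : l ^ (-(b + 2)) = ‖v‖ ^ (-(b + 2)) / δ ^ (-(b + 2)) := by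
    rw [hl, Real.div_rpow hv0.le hδ.le]
  rw [e4]
  calc ‖v‖ ^ (-(b + 2)) / δ ^ (-(b + 2)) * |∑ i : Fin 3,
        (‖v' + t' • EuclideanSpace.single i (1 : ℝ)‖ ^ (-b) +
        ‖v' - t' • EuclideanSpace.single i (1 : ℝ)‖ ^ (-b) - 2 * ‖v'‖ ^ (-b)) / t' ^ 2|
      ≤ ‖v‖ ^ (-(b + 2)) / δ ^ (-(b + 2)) * C :=
        mul_le_mul_of_nonneg_left key (by positivity)
    _ = C * (δ ^ (-(b + 2)))⁻¹ * ‖v‖ ^ (-(b + 2)) := by
        rw [div_eq_mul_inv]
        ring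

private theorem SphLW.stepA {W : E3 → ℝ} {y₀ : E3} {ρ b₀ b : ℝ} (hW : SphLW W y₀ ρ b₀)
    (hb₀ : 0 ≤ b₀) (hbb : b₀ ≤ b) (hb : 1 < b)
    (h : ∀ y : E3, ‖y - y₀‖ < ρ → ∫ x, W x * ‖x - y‖ ^ (-b) = 0) (y : E3) (hy : ‖y - y₀‖ < ρ) :
    ∫ x, W x * ‖x - y‖ ^ (-(b + 2)) = 0 := by
  set δ := ρ - ‖y - y₀‖ with hδd
  have hδ : 0 < δ := by rw [hδd]; linarith
  obtain ⟨_, _, hCl⟩ := sph_point hb hδ
  obtain ⟨C, hC0, hC⟩ := sphL_pt hb hδ
  obtain ⟨K, hK0, hK⟩ := sphL_ker hb₀ (show b₀ ≤ b + 2 by linarith) hδ y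
  set Q : ℝ → E3 → ℝ := fun t x => ∑ i : Fin 3,
    (‖(x - y) + t • EuclideanSpace.single i (1 : ℝ)‖ ^ (-b) +
      ‖(x - y) - t • EuclideanSpace.single i (1 : ℝ)‖ ^ (-b) - 2 * ‖x - y‖ ^ (-b)) / t ^ 2 with hQ
  have hmeasQ : ∀ t, Measurable (fun x => W x * Q t x) := by
    intro t
    apply hW.meas.mul
    simp only [hQ]
    apply Finset.measurable_sum
    intro i _
    have m1 : Measurable (fun x : E3 => ‖(x - y) + t • EuclideanSpace.single i (1 : ℝ)‖ ^ (-b)) :=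
      (((measurable_id.sub_const y).add_const _).norm).pow_const _
    have m2 : Measurable (fun x : E3 => ‖(x - y) - t • EuclideanSpace.single i (1 : ℝ)‖ ^ (-b)) :=
      (((measurable_id.sub_const y).sub_const _).norm).pow_const _
    have m3 : Measurable (fun x : E3 => ‖x - y‖ ^ (-b)) :=
      ((measurable_id.sub_const y).norm).pow_const _
    exact ((m1.add m2).sub (m3.const_mul 2)).div_const _
  have hmem : ∀ᶠ t in 𝓝[>] (0 : ℝ), 0 < t ∧ t < δ / 2 := by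
    have := Ioo_mem_nhdsGT (show (0 : ℝ) < δ / 2 by linarith)
    filter_upwards [this] with t ht using ht
  have hlim : Tendsto (fun t => ∫ x, W x * Q t x) (𝓝[>] 0)
      (𝓝 (∫ x, W x * (b * (b - 1) * ‖x - y‖ ^ (-(b + 2))))) := by
    refine tendsto_integral_filter_of_dominated_convergence
      (fun x => C * K * (|W x| * (1 + ‖x‖) ^ (-b₀))) ?_ ?_ (hW.absint.const_mul _) ?_
    · filter_upwards with t using (hmeasQ t).aestronglyMeasurable
    · filter_upwards [hmem] with t ht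
      filter_upwards [hW.ae y] with x hx
      rcases hx with h0 | hd
      · rw [h0, zero_mul, norm_zero]
        positivity
      · rw [norm_mul, Real.norm_eq_abs, Real.norm_eq_abs]
        have h1 : |Q t x| ≤ C * ‖x - y‖ ^ (-(b + 2)) := hC (x - y) hd t ht.1 ht.2.le
        have h2 := mul_le_mul_of_nonneg_left (hK x hd) hC0
        calc |W x| * |Q t x| ≤ |W x| * (C * (K * (1 + ‖x‖) ^ (-b₀))) :=
              mul_le_mul_of_nonneg_left (h1.trans h2) (abs_nonneg _)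
          _ = C * K * (|W x| * (1 + ‖x‖) ^ (-b₀)) := by ring
    · filter_upwards [hW.ae y] with x hx
      rcases hx with h0 | hd
      · simp only [h0, zero_mul]
        exact tendsto_const_nhds
      · exact ((hCl (x - y) hd).2).const_mul (W x)
  have hzero : ∀ᶠ t in 𝓝[>] (0 : ℝ), ∫ x, W x * Q t x = 0 := by
    filter_upwards [hmem] with t ht
    have hnear : ∀ (i : Fin 3) (σ : ℝ), |σ| = t →
        ‖(y + σ • EuclideanSpace.single i (1 : ℝ)) - y₀‖ < ρ := by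
      intro i σ hσ
      have h1 : ‖σ • (EuclideanSpace.single i (1 : ℝ) : E3)‖ = t := by
        rw [norm_smul, EuclideanSpace.norm_single]; simpa using hσ
      have h2 := norm_add_le (y - y₀) (σ • (EuclideanSpace.single i (1 : ℝ) : E3))
      have h3 : (y + σ • EuclideanSpace.single i (1 : ℝ)) - y₀ =
          (y - y₀) + σ • (EuclideanSpace.single i (1 : ℝ) : E3) := by abel
      rw [h3]
      rw [h1] at h2
      have := ht.2
      linarith
    have i0 := hW.intK hb₀ hbb hy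
    have e0 : ∫ x, W x * ‖x - y‖ ^ (-b) = 0 := h y hy
    have ip : ∀ i : Fin 3, Integrable (fun x => W x *
        ‖(x - y) - t • EuclideanSpace.single i (1 : ℝ)‖ ^ (-b)) (volume : Measure E3) ∧
        ∫ x, W x * ‖(x - y) - t • EuclideanSpace.single i (1 : ℝ)‖ ^ (-b) = 0 := by
      intro i
      have hn := hnear i t (abs_of_pos ht.1)
      have e : ∀ x : E3, (x - y) - t • EuclideanSpace.single i (1 : ℝ) =
          x - (y + t • EuclideanSpace.single i (1 : ℝ)) := fun x => by abel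
      simp_rw [e]
      exact ⟨hW.intK hb₀ hbb hn, h _ hn⟩
    have im : ∀ i : Fin 3, Integrable (fun x => W x *
        ‖(x - y) + t • EuclideanSpace.single i (1 : ℝ)‖ ^ (-b)) (volume : Measure E3) ∧
        ∫ x, W x * ‖(x - y) + t • EuclideanSpace.single i (1 : ℝ)‖ ^ (-b) = 0 := by
      intro i
      have hn := hnear i (-t) (by rw [abs_neg, abs_of_pos ht.1])
      have e : ∀ x : E3, (x - y) + t • EuclideanSpace.single i (1 : ℝ) =
          x - (y + (-t) • EuclideanSpace.single i (1 : ℝ)) := fun x => by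
        rw [neg_smul]; abel
      simp_rw [e]
      exact ⟨hW.intK hb₀ hbb hn, h _ hn⟩
    have eQ : ∀ x, W x * Q t x = ∑ i : Fin 3,
        ((W x * ‖(x - y) + t • EuclideanSpace.single i (1 : ℝ)‖ ^ (-b) +
          W x * ‖(x - y) - t • EuclideanSpace.single i (1 : ℝ)‖ ^ (-b)) -
          2 * (W x * ‖x - y‖ ^ (-b))) / t ^ 2 := by
      intro x
      simp only [hQ]
      rw [Finset.mul_sum]
      refine Finset.sum_congr rfl fun i _ => ?_
      ring
    simp_rw [eQ]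
    rw [integral_finsetSum]
    · refine Finset.sum_eq_zero fun i _ => ?_
      rw [integral_div]
      have s1 := integral_sub ((im i).1.add (ip i).1) (i0.const_mul 2)
      simp only [Pi.add_apply] at s1
      rw [s1, integral_add (im i).1 (ip i).1, integral_const_mul, (im i).2, (ip i).2, e0]
      simp
    · intro i _
      exact (((im i).1.add (ip i).1).sub (i0.const_mul 2)).div_const _
  have h0 : ∫ x, W x * (b * (b - 1) * ‖x - y‖ ^ (-(b + 2))) = 0 := by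
    refine tendsto_nhds_unique hlim ?_
    refine Tendsto.congr' (f₁ := fun _ => (0 : ℝ)) ?_ tendsto_const_nhds
    filter_upwards [hzero] with t ht using ht.symm
  have e : (fun x => W x * (b * (b - 1) * ‖x - y‖ ^ (-(b + 2)))) =
      fun x => (b * (b - 1)) * (W x * ‖x - y‖ ^ (-(b + 2))) := by
    funext x; ring
  rw [e, integral_const_mul] at h0
  have hb1 : b * (b - 1) ≠ 0 := by
    have : 0 < b * (b - 1) := by nlinarith
    exact this.ne'
  exact (mul_eq_zero.1 h0).resolve_left hb1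

private theorem SphLW.all {W : E3 → ℝ} {y₀ : E3} {ρ b : ℝ} (hW : SphLW W y₀ ρ b)
    (hb : 1 < b) (h : ∀ y : E3, ‖y - y₀‖ < ρ → ∫ x, W x * ‖x - y‖ ^ (-b) = 0) (m : ℕ) :
    ∀ y : E3, ‖y - y₀‖ < ρ → ∫ x, W x * ‖x - y‖ ^ (-(b + 2 * (m : ℝ))) = 0 := by
  induction m with
  | zero =>
    intro z hz
    simpa using h z hz
  | succ m ih =>
    intro z hz
    have hm : (0 : ℝ) ≤ m := Nat.cast_nonneg m
    have h1 := hW.stepA (b := b + 2 * m) (by linarith) (by linarith) (by linarith) ih z hz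
    rw [show b + 2 * ((m + 1 : ℕ) : ℝ) = b + 2 * m + 2 by push_cast; ring]
    exact h1

private theorem SphLW.poly {W : E3 → ℝ} {y₀ : E3} {ρ b : ℝ} (hW : SphLW W y₀ ρ b)
    (hb : 1 < b) (h : ∀ y : E3, ‖y - y₀‖ < ρ → ∫ x, W x * ‖x - y‖ ^ (-b) = 0)
    (P : Polynomial ℝ) (y : E3) (hy : ‖y - y₀‖ < ρ) :
    Integrable (fun x => W x * ‖x - y‖ ^ (-b) * P.eval (‖x - y‖ ^ (-2 : ℝ)))
      (volume : Measure E3) ∧
      ∫ x, W x * ‖x - y‖ ^ (-b) * P.eval (‖x - y‖ ^ (-2 : ℝ)) = 0 := by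
  have hpow : ∀ (i : ℕ) (t : ℝ), 0 ≤ t → t ^ (-b) * (t ^ (-2 : ℝ)) ^ i = t ^ (-(b + 2 * i)) := by
    intro i t ht
    rcases ht.eq_or_lt with h0 | h0
    · subst h0
      have hi : (0 : ℝ) ≤ i := Nat.cast_nonneg i
      rw [Real.zero_rpow (by linarith : -b ≠ 0), Real.zero_rpow (by linarith : -(b + 2 * (i : ℝ)) ≠ 0),
        zero_mul]
    · rw [← Real.rpow_natCast, ← Real.rpow_mul h0.le, ← Real.rpow_add h0]
      congr 1
      ring
  have hrw : ∀ x : E3, W x * ‖x - y‖ ^ (-b) * P.eval (‖x - y‖ ^ (-2 : ℝ)) =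
      ∑ i ∈ Finset.range (P.natDegree + 1), P.coeff i * (W x * ‖x - y‖ ^ (-(b + 2 * i))) := by
    intro x
    rw [Polynomial.eval_eq_sum_range, Finset.mul_sum]
    refine Finset.sum_congr rfl fun i _ => ?_
    rw [← hpow i _ (norm_nonneg _)]
    ring
  have hI : ∀ i : ℕ, Integrable (fun x => P.coeff i * (W x * ‖x - y‖ ^ (-(b + 2 * i))))
      (volume : Measure E3) := fun i =>
    (hW.intK (b := b + 2 * i) (by linarith)
      (by have : (0 : ℝ) ≤ i := Nat.cast_nonneg i; linarith) hy).const_mul _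
  simp only [hrw]
  refine ⟨integrable_finsetSum _ fun i _ => hI i, ?_⟩
  rw [integral_finsetSum _ fun i _ => hI i]
  refine Finset.sum_eq_zero fun i _ => ?_
  rw [integral_const_mul, hW.all hb h i y hy, mul_zero]

/-- continuity at zero of the function which is approximated -/
private theorem sphL_cont {b : ℝ} (hb : 0 < b) {D : ℝ} :
    ContinuousOn (fun u : ℝ => Real.exp (-u⁻¹) * u ^ (-(b / 2))) (Set.Icc 0 D) := by
  intro u hu
  rcases hu.1.eq_or_lt with h0 | h0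
  · subst h0
    have hv : Real.exp (-(0 : ℝ)⁻¹) * (0 : ℝ) ^ (-(b / 2)) = 0 := by
      rw [Real.zero_rpow (by linarith : -(b / 2) ≠ 0), mul_zero]
    have hT : Tendsto (fun u : ℝ => Real.exp (-u⁻¹) * u ^ (-(b / 2))) (𝓝[>] 0) (𝓝 0) := by
      have h1 : Tendsto (fun v : ℝ => v ^ (b / 2) * Real.exp (-v)) atTop (𝓝 0) := by
        have := tendsto_rpow_mul_exp_neg_mul_atTop_nhds_zero (b / 2) 1 one_pos
        simpa using this
      have h2 : Tendsto (fun u : ℝ => u⁻¹) (𝓝[>] 0) atTop := tendsto_inv_nhdsGT_zero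
      refine (h1.comp h2).congr' ?_
      filter_upwards [self_mem_nhdsWithin] with u hu
      have hu' : (0 : ℝ) < u := hu
      simp only [Function.comp_apply]
      rw [Real.inv_rpow hu'.le, ← Real.rpow_neg hu'.le, mul_comm]
    have : ContinuousWithinAt (fun u : ℝ => Real.exp (-u⁻¹) * u ^ (-(b / 2))) (Set.Ici 0) 0 := by
      rw [← continuousWithinAt_Ioi_iff_Ici]
      unfold ContinuousWithinAt
      simp only
      rw [hv]
      exact hT
    exact this.mono Icc_subset_Ici_self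
  · apply ContinuousAt.continuousWithinAt
    refine ContinuousAt.mul ?_ ?_
    · exact (Real.continuous_exp.continuousAt).comp (continuousAt_inv₀ h0.ne').neg
    · exact Real.continuousAt_rpow_const u _ (Or.inl h0.ne')

private theorem SphLW.gauss {W : E3 → ℝ} {y₀ : E3} {ρ b : ℝ} (hW : SphLW W y₀ ρ b)
    (hb : 1 < b) (h : ∀ y : E3, ‖y - y₀‖ < ρ → ∫ x, W x * ‖x - y‖ ^ (-b) = 0)
    (y : E3) (hy : ‖y - y₀‖ < ρ) : ∫ x, W x * Real.exp (-‖x - y‖ ^ 2) = 0 := by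
  by_cases hint : Integrable (fun x => W x * Real.exp (-‖x - y‖ ^ 2)) (volume : Measure E3)
  swap
  · exact integral_undef hint
  obtain ⟨δ, hδd⟩ : ∃ δ : ℝ, δ = ρ - ‖y - y₀‖ := ⟨_, rfl⟩
  have hδ : 0 < δ := by rw [hδd]; linarith
  have hI := hW.intK (by linarith) le_rfl hy
  have key : ∀ ε : ℝ, 0 < ε →
      |∫ x, W x * Real.exp (-‖x - y‖ ^ 2)| ≤ ε * ∫ x, |W x * ‖x - y‖ ^ (-b)| := by
    intro ε hε
    obtain ⟨P, hP⟩ := exists_polynomial_near_of_continuousOn 0 (δ ^ (-2 : ℝ)) _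
      (sphL_cont (b := b) (by linarith)) ε hε
    obtain ⟨hP1, hP2⟩ := hW.poly hb h P y hy
    have h1 : ∫ x, W x * Real.exp (-‖x - y‖ ^ 2) = ∫ x, (W x * Real.exp (-‖x - y‖ ^ 2) -
        W x * ‖x - y‖ ^ (-b) * P.eval (‖x - y‖ ^ (-2 : ℝ))) := by
      rw [integral_sub hint hP1, hP2, sub_zero]
    rw [h1, ← integral_const_mul]
    refine (abs_integral_le_integral_abs).trans (integral_mono_ae (hint.sub hP1).abs
      (hI.abs.const_mul _) ?_)
    filter_upwards [hW.ae y] with x hx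
    rcases hx with h0 | h2
    · simp [h0]
    · rw [← hδd] at h2
      have hp : 0 < ‖x - y‖ := hδ.trans_le h2
      have hu : ‖x - y‖ ^ (-2 : ℝ) ∈ Set.Icc 0 (δ ^ (-2 : ℝ)) :=
        ⟨by positivity, Real.rpow_le_rpow_of_nonpos hδ h2 (by norm_num)⟩
      have h4 := (hP _ hu).le
      have h5 : (‖x - y‖ ^ (-2 : ℝ))⁻¹ = ‖x - y‖ ^ 2 := by
        rw [← Real.rpow_neg hp.le]
        norm_num
      have h6 : (‖x - y‖ ^ (-2 : ℝ)) ^ (-(b / 2)) = ‖x - y‖ ^ b := by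
        rw [← Real.rpow_mul hp.le]
        congr 1
        ring
      have h7 : ‖x - y‖ ^ b * ‖x - y‖ ^ (-b) = 1 := by
        rw [← Real.rpow_add hp]
        simp
      simp only [h5, h6] at h4
      have h8 : W x * Real.exp (-‖x - y‖ ^ 2) -
          W x * ‖x - y‖ ^ (-b) * P.eval (‖x - y‖ ^ (-2 : ℝ)) =
          -((P.eval (‖x - y‖ ^ (-2 : ℝ)) - Real.exp (-‖x - y‖ ^ 2) * ‖x - y‖ ^ b) *
            (W x * ‖x - y‖ ^ (-b))) := by
        have : W x * Real.exp (-‖x - y‖ ^ 2) =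
            W x * Real.exp (-‖x - y‖ ^ 2) * (‖x - y‖ ^ b * ‖x - y‖ ^ (-b)) := by
          rw [h7, mul_one]
        rw [this]
        ring
      simp only [h8, abs_neg, abs_mul]
      exact mul_le_mul_of_nonneg_right h4 (by positivity)
  have hnn : 0 ≤ ∫ x, |W x * ‖x - y‖ ^ (-b)| := integral_nonneg fun x => abs_nonneg _
  have h9 : |∫ x, W x * Real.exp (-‖x - y‖ ^ 2)| ≤ 0 := by
    refine le_of_forall_pos_le_add fun η hη => ?_
    have := key (η / ((∫ x, |W x * ‖x - y‖ ^ (-b)|) + 1)) (by positivity)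
    refine this.trans ?_
    rw [zero_add, div_mul_eq_mul_div, div_le_iff₀ (by positivity)]
    nlinarith
  exact abs_eq_zero.1 (le_antisymm h9 (abs_nonneg _))

/-- completing the square -/
private theorem sphL_sq (x y₀ v : E3) (t : ℝ) :
    Real.exp (-‖x - y₀‖ ^ 2) * Real.exp (t * ⟪v, x⟫_ℝ) =
      Real.exp (t * ⟪v, y₀⟫_ℝ + t ^ 2 / 4 * ‖v‖ ^ 2) *
        Real.exp (-‖x - (y₀ + (t / 2) • v)‖ ^ 2) := by
  rw [← Real.exp_add, ← Real.exp_add]
  congr 1
  have e1 : x - (y₀ + (t / 2) • v) = (x - y₀) - (t / 2) • v := by abel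
  rw [e1, norm_sub_sq_real (x - y₀) ((t / 2) • v), norm_smul, real_inner_smul_right,
    inner_sub_left, real_inner_comm x v, real_inner_comm y₀ v, Real.norm_eq_abs, mul_pow, sq_abs]
  ring

private theorem SphLW.gint {W : E3 → ℝ} {y₀ : E3} {ρ b : ℝ} (hW : SphLW W y₀ ρ b)
    (hb : 0 ≤ b) {c : ℝ} (hc : 0 ≤ c) :
    Integrable (fun x => |W x| * Real.exp (-‖x - y₀‖ ^ 2) * Real.exp (c * ‖x‖))
      (volume : Measure E3) := by
  set K : ℝ := Real.exp ((c + b) ^ 2 / 4 + (c + b) * ‖y₀‖) with hK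
  have hWm := hW.meas
  refine (hW.absint.const_mul K).mono' ?_ ?_
  · apply Measurable.aestronglyMeasurable
    fun_prop
  · refine Eventually.of_forall fun x => ?_
    have h1 : (1 + ‖x‖) ^ b ≤ Real.exp (b * ‖x‖) := by
      have h2 : 1 + ‖x‖ ≤ Real.exp ‖x‖ := by
        have := Real.add_one_le_exp ‖x‖
        linarith
      have h3 := Real.rpow_le_rpow (by positivity) h2 hb
      rwa [← Real.exp_mul, mul_comm] at h3
    have h4 : Real.exp (-‖x - y₀‖ ^ 2) * Real.exp (c * ‖x‖) * Real.exp (b * ‖x‖) ≤ K := by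
      rw [hK, ← Real.exp_add, ← Real.exp_add]
      apply Real.exp_le_exp.2
      have h5 : ‖x‖ ≤ ‖x - y₀‖ + ‖y₀‖ := by
        have := norm_add_le (x - y₀) y₀
        simpa using this
      have h6 : (c + b) * ‖x‖ ≤ (c + b) * (‖x - y₀‖ + ‖y₀‖) :=
        mul_le_mul_of_nonneg_left h5 (by linarith)
      nlinarith [sq_nonneg (‖x - y₀‖ - (c + b) / 2)]
    have h7 : 0 < (1 + ‖x‖) ^ b := by positivity
    have h8 : Real.exp (-‖x - y₀‖ ^ 2) * Real.exp (c * ‖x‖) ≤ K * (1 + ‖x‖) ^ (-b) := by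
      rw [Real.rpow_neg (by positivity), ← div_eq_mul_inv, le_div_iff₀ h7]
      refine le_trans ?_ h4
      exact mul_le_mul_of_nonneg_left h1 (by positivity)
    rw [Real.norm_eq_abs, abs_of_nonneg (by positivity), mul_assoc]
    calc |W x| * (Real.exp (-‖x - y₀‖ ^ 2) * Real.exp (c * ‖x‖))
        ≤ |W x| * (K * (1 + ‖x‖) ^ (-b)) := mul_le_mul_of_nonneg_left h8 (abs_nonneg _)
      _ = K * (|W x| * (1 + ‖x‖) ^ (-b)) := by ring

private theorem SphLW.diff {W : E3 → ℝ} {y₀ : E3} {ρ b : ℝ} (hW : SphLW W y₀ ρ b)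
    (hb : 0 ≤ b) (v : E3) :
    Differentiable ℂ (fun k : ℂ => ∫ x : E3, ((W x * Real.exp (-‖x - y₀‖ ^ 2) : ℝ) : ℂ) *
      Complex.exp (k * ((⟪v, x⟫_ℝ : ℝ) : ℂ))) := by
  have hWm := hW.meas
  intro k₀
  have hmeas : ∀ k : ℂ, Measurable (fun x : E3 => ((W x * Real.exp (-‖x - y₀‖ ^ 2) : ℝ) : ℂ) *
      Complex.exp (k * ((⟪v, x⟫_ℝ : ℝ) : ℂ))) := by
    intro k
    have h1 : Measurable (fun x : E3 => ⟪v, x⟫_ℝ) := (continuous_const.inner continuous_id).measurable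
    fun_prop
  have hmeas' : ∀ k : ℂ, Measurable (fun x : E3 => ((W x * Real.exp (-‖x - y₀‖ ^ 2) : ℝ) : ℂ) *
      (((⟪v, x⟫_ℝ : ℝ) : ℂ) * Complex.exp (k * ((⟪v, x⟫_ℝ : ℝ) : ℂ)))) := by
    intro k
    have h1 : Measurable (fun x : E3 => ⟪v, x⟫_ℝ) := (continuous_const.inner continuous_id).measurable
    fun_prop
  have hexp : ∀ (k : ℂ) (x : E3), ‖Complex.exp (k * ((⟪v, x⟫_ℝ : ℝ) : ℂ))‖ ≤
      Real.exp (‖k‖ * ‖v‖ * ‖x‖) := by
    intro k x
    rw [Complex.norm_exp]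
    apply Real.exp_le_exp.2
    refine (Complex.re_le_norm _).trans ?_
    rw [norm_mul, Complex.norm_real, Real.norm_eq_abs, mul_assoc]
    exact mul_le_mul_of_nonneg_left (abs_real_inner_le_norm v x) (norm_nonneg _)
  have hnW : ∀ x : E3, ‖((W x * Real.exp (-‖x - y₀‖ ^ 2) : ℝ) : ℂ)‖ =
      |W x| * Real.exp (-‖x - y₀‖ ^ 2) := by
    intro x
    rw [Complex.norm_real, Real.norm_eq_abs, abs_mul, abs_of_pos (Real.exp_pos _)]
  have key := hasDerivAt_integral_of_dominated_loc_of_deriv_le (𝕜 := ℂ) (μ := (volume : Measure E3))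
    (F := fun k x => ((W x * Real.exp (-‖x - y₀‖ ^ 2) : ℝ) : ℂ) *
      Complex.exp (k * ((⟪v, x⟫_ℝ : ℝ) : ℂ)))
    (F' := fun k x => ((W x * Real.exp (-‖x - y₀‖ ^ 2) : ℝ) : ℂ) *
      (((⟪v, x⟫_ℝ : ℝ) : ℂ) * Complex.exp (k * ((⟪v, x⟫_ℝ : ℝ) : ℂ))))
    (x₀ := k₀) (s := Metric.ball k₀ 1)
    (bound := fun x => |W x| * Real.exp (-‖x - y₀‖ ^ 2) * Real.exp (((‖k₀‖ + 2) * ‖v‖) * ‖x‖))
    (Metric.ball_mem_nhds k₀ one_pos)
    (Eventually.of_forall fun k => (hmeas k).aestronglyMeasurable)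
    ?_ (hmeas' k₀).aestronglyMeasurable ?_ (hW.gint hb (by positivity)) ?_
  · exact key.2.differentiableAt
  · refine (hW.gint hb (c := ‖k₀‖ * ‖v‖) (by positivity)).mono'
      (hmeas k₀).aestronglyMeasurable (Eventually.of_forall fun x => ?_)
    rw [norm_mul, hnW]
    exact mul_le_mul_of_nonneg_left (hexp k₀ x) (by positivity)
  · refine Eventually.of_forall fun x k hk => ?_
    rw [norm_mul, hnW, norm_mul]
    refine mul_le_mul_of_nonneg_left ?_ (by positivity)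
    have hk' : ‖k‖ ≤ ‖k₀‖ + 1 := by
      have h1 : ‖k - k₀‖ < 1 := by simpa [dist_eq_norm] using hk
      have h2 := norm_add_le (k - k₀) k₀
      rw [sub_add_cancel] at h2
      linarith
    have h3 : ‖((⟪v, x⟫_ℝ : ℝ) : ℂ)‖ ≤ Real.exp (‖v‖ * ‖x‖) := by
      rw [Complex.norm_real, Real.norm_eq_abs]
      refine (abs_real_inner_le_norm v x).trans ?_
      have := Real.add_one_le_exp (‖v‖ * ‖x‖)
      linarith
    have h4 : ‖Complex.exp (k * ((⟪v, x⟫_ℝ : ℝ) : ℂ))‖ ≤ Real.exp ((‖k₀‖ + 1) * ‖v‖ * ‖x‖) := by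
      refine (hexp k x).trans (Real.exp_le_exp.2 ?_)
      have : ‖k‖ * (‖v‖ * ‖x‖) ≤ (‖k₀‖ + 1) * (‖v‖ * ‖x‖) :=
        mul_le_mul_of_nonneg_right hk' (by positivity)
      linarith [mul_assoc ‖k‖ ‖v‖ ‖x‖, mul_assoc (‖k₀‖ + 1) ‖v‖ ‖x‖]
    calc ‖((⟪v, x⟫_ℝ : ℝ) : ℂ)‖ * ‖Complex.exp (k * ((⟪v, x⟫_ℝ : ℝ) : ℂ))‖
        ≤ Real.exp (‖v‖ * ‖x‖) * Real.exp ((‖k₀‖ + 1) * ‖v‖ * ‖x‖) :=
          mul_le_mul h3 h4 (norm_nonneg _) (Real.exp_pos _).le
      _ = Real.exp (((‖k₀‖ + 2) * ‖v‖) * ‖x‖) := by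
          rw [← Real.exp_add]
          congr 1
          ring
  · refine Eventually.of_forall fun x k _ => ?_
    have h1 : HasDerivAt (fun k : ℂ => k * ((⟪v, x⟫_ℝ : ℝ) : ℂ)) ((⟪v, x⟫_ℝ : ℝ) : ℂ) k := by
      simpa using (hasDerivAt_id k).mul_const ((⟪v, x⟫_ℝ : ℝ) : ℂ)
    have h2 := (h1.cexp).const_mul (((W x * Real.exp (-‖x - y₀‖ ^ 2) : ℝ) : ℂ))
    refine h2.congr_deriv ?_
    ring

private theorem SphLW.final {W : E3 → ℝ} {y₀ : E3} {ρ b : ℝ} (hρ : 0 < ρ)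
    (hW : SphLW W y₀ ρ b) (hb : 0 ≤ b) (hW2 : MemLp W 2 (volume : Measure E3))
    (h : ∀ y : E3, ‖y - y₀‖ < ρ → ∫ x, W x * Real.exp (-‖x - y‖ ^ 2) = 0) :
    ∀ᵐ x ∂(volume : Measure E3), W x = 0 := by
  have hWm := hW.meas
  set m : E3 → ℂ := fun x => ((W x * Real.exp (-‖x - y₀‖ ^ 2) : ℝ) : ℂ) with hm
  have hmm : AEStronglyMeasurable m volume := by
    apply Measurable.aestronglyMeasurable
    rw [hm]
    fun_prop
  have hnm : ∀ x, ‖m x‖ = |W x| * Real.exp (-‖x - y₀‖ ^ 2) := by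
    intro x
    rw [hm]
    simp only
    rw [Complex.norm_real, Real.norm_eq_abs, abs_mul, abs_of_pos (Real.exp_pos _)]
  have hm2 : MemLp m 2 (volume : Measure E3) := by
    refine hW2.mono hmm (Eventually.of_forall fun x => ?_)
    rw [hnm, Real.norm_eq_abs]
    have h1 : Real.exp (-‖x - y₀‖ ^ 2) ≤ 1 := Real.exp_le_one_iff.2 (by nlinarith [sq_nonneg ‖x - y₀‖])
    exact mul_le_of_le_one_right (abs_nonneg _) h1
  have hmi : Integrable m (volume : Measure E3) := by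
    refine (hW.gint hb (c := 0) le_rfl).mono' hmm (Eventually.of_forall fun x => ?_)
    rw [hnm]
    simp
  set H : HS := hm2.toLp m with hH
  have hHc : (H : E3 → ℂ) =ᵐ[volume] m := hm2.coeFn_toLp
  have hHi : Integrable (H : E3 → ℂ) := hmi.congr hHc.symm
  have hF : ∀ v : E3, 𝓕 (H : E3 → ℂ) v = 0 := by
    intro v
    have hGd := hW.diff hb v
    set G : ℂ → ℂ := fun k => ∫ x : E3, ((W x * Real.exp (-‖x - y₀‖ ^ 2) : ℝ) : ℂ) *
      Complex.exp (k * ((⟪v, x⟫_ℝ : ℝ) : ℂ)) with hG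
    have hG0 : ∀ t : ℝ, |t| * ‖v‖ < 2 * ρ → G t = 0 := by
      intro t ht
      have h2 : ∀ x : E3, ((W x * Real.exp (-‖x - y₀‖ ^ 2) : ℝ) : ℂ) *
          Complex.exp ((t : ℂ) * ((⟪v, x⟫_ℝ : ℝ) : ℂ)) =
          ((Real.exp (t * ⟪v, y₀⟫_ℝ + t ^ 2 / 4 * ‖v‖ ^ 2) *
            (W x * Real.exp (-‖x - (y₀ + (t / 2) • v)‖ ^ 2)) : ℝ) : ℂ) := by
        intro x
        have e1 : Complex.exp ((t : ℂ) * ((⟪v, x⟫_ℝ : ℝ) : ℂ)) =
            ((Real.exp (t * ⟪v, x⟫_ℝ) : ℝ) : ℂ) := by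
          rw [Complex.ofReal_exp]
          congr 1
          push_cast
          rfl
        rw [e1, ← Complex.ofReal_mul, mul_assoc, sphL_sq]
        congr 1
        ring
      rw [hG]
      simp only
      simp_rw [h2]
      rw [integral_complex_ofReal, integral_const_mul, h, mul_zero, Complex.ofReal_zero]
      rw [add_sub_cancel_left, norm_smul, Real.norm_eq_abs, abs_div, abs_two]
      linarith
    have hfr : ∃ᶠ k in 𝓝[≠] (0 : ℂ), G k = 0 := by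
      have hev : ∀ᶠ t : ℝ in 𝓝[≠] (0 : ℝ), G (t : ℂ) = 0 := by
        have hc : Tendsto (fun t : ℝ => |t| * ‖v‖) (𝓝 0) (𝓝 (|(0 : ℝ)| * ‖v‖)) :=
          (continuous_abs.mul continuous_const).tendsto 0
        rw [abs_zero, zero_mul] at hc
        exact (((hc.eventually_lt_const (by positivity : (0 : ℝ) < 2 * ρ)).filter_mono
          nhdsWithin_le_nhds).mono hG0)
      have ht : Tendsto (fun t : ℝ => (t : ℂ)) (𝓝[≠] 0) (𝓝[≠] 0) := by
        refine tendsto_nhdsWithin_iff.2 ⟨?_, ?_⟩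
        · have := Complex.continuous_ofReal.tendsto 0
          simp only [Complex.ofReal_zero] at this
          exact this.mono_left nhdsWithin_le_nhds
        · filter_upwards [self_mem_nhdsWithin] with t ht
          have ht' : (t : ℂ) ≠ 0 := Complex.ofReal_ne_zero.2 ht
          simp [ht']
      exact ht.frequently hev.frequently
    have hz := (hGd.differentiableOn (s := univ)).analyticOnNhd isOpen_univ
      |>.eqOn_zero_of_preconnected_of_frequently_eq_zero isPreconnected_univ (mem_univ 0) hfr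
    have hv : G (-(2 * Real.pi * Complex.I)) = 0 := hz (mem_univ _)
    rw [← hv, hG, Real.fourier_eq']
    simp only
    refine integral_congr_ae ?_
    filter_upwards [hHc] with x b
    rw [b, smul_eq_mul, mul_comm]
    congr 1
    congr 1
    rw [real_inner_comm]
    push_cast
    ring
  have hFT : FT H = 0 := by
    apply Lp.ext
    filter_upwards [FT_coe_of_integrable H hHi, Lp.coeFn_zero ℂ 2 (volume : Measure E3)] with ξ a b
    rw [a, b, hF]
    rfl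
  have hH0 : H = 0 := (LinearIsometryEquiv.map_eq_zero_iff FT).1 hFT
  have hz0 : (H : E3 → ℂ) =ᵐ[volume] 0 := by
    rw [hH0]
    exact Lp.coeFn_zero ℂ 2 (volume : Measure E3)
  filter_upwards [hHc, hz0] with x a b
  have h1 : m x = 0 := by
    rw [← a, b]
    rfl
  have h2 : W x * Real.exp (-‖x - y₀‖ ^ 2) = 0 := by
    rw [hm] at h1
    exact Complex.ofReal_eq_zero.1 h1
  rcases mul_eq_zero.1 h2 with h3 | h3
  · exact h3
  · exact absurd h3 (Real.exp_pos _).ne'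

theorem sphL {W : E3 → ℝ} (hWm : Measurable W) (hW2 : MemLp W 2 (volume : Measure E3)) {y₀ : E3}
    {ρ ρ' : ℝ} (hρ : 0 < ρ) (hρ' : 0 < ρ')
    (hW0 : ∀ᵐ x ∂(volume : Measure E3), ‖x - y₀‖ < ρ → W x = 0) {b : ℝ} (hb : 4 < b)
    (h : ∀ y : E3, ‖y - y₀‖ < ρ' → ∫ x, W x * ‖x - y‖ ^ (-b) = 0) :
    ∀ᵐ x ∂(volume : Measure E3), W x = 0 := by
  have hk2 : MemLp (fun x : E3 => (1 + ‖x‖) ^ (-b)) 2 (volume : Measure E3) := by
    have hmeas : Measurable (fun x : E3 => (1 + ‖x‖) ^ (-b)) := by fun_prop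
    rw [memLp_two_iff_integrable_sq hmeas.aestronglyMeasurable]
    have h1 : Integrable (fun x : E3 => (1 + ‖x‖) ^ (-(2 * b))) (volume : Measure E3) := by
      apply integrable_one_add_norm
      simp
      linarith
    refine h1.congr (Eventually.of_forall fun x => ?_)
    simp only
    rw [← Real.rpow_natCast, ← Real.rpow_mul (by positivity)]
    congr 1
    push_cast
    ring
  have hW : SphLW W y₀ (min ρ ρ') b := by
    refine ⟨hWm, ?_, hW2.integrable_mul hk2⟩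
    filter_upwards [hW0] with x hx hlt
    exact hx (hlt.trans_le (min_le_left _ _))
  have h' : ∀ y : E3, ‖y - y₀‖ < min ρ ρ' → ∫ x, W x * ‖x - y‖ ^ (-b) = 0 := fun y hy =>
    h y (hy.trans_le (min_le_right _ _))
  exact hW.final (lt_min hρ hρ') (by linarith) hW2 fun y hy =>
    hW.gauss (by linarith) h' y hy

end FracScatC

end
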