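import Pool.Agent.Lib.MP_6e2ba5_an.Dx.UcpA
import Pool.Agent.Lib.MP_6e2ba5_an.Dx.SphL

/-! # Unique continuation for the resolvent

`ψ = multL (mI s τ) q`. `ucpA` for the real and the imaginary part (`kf` is real, `kf s (x-w) = ‖x-w‖^(-(3+2s))`) and `sphL` (take
measurable representatives) give `ψ = 0`; then `mI · FT q = 0` a.e. and `mI ≠ 0` everywhere, so `q = 0`. -/

set_option autoImplicit false

open MeasureTheory Filter Topology Set
open scoped FourierTransform SchwartzMap InnerProductSpace ENNReal BoundedContinuousFunction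

noncomputable section

namespace FracScatC

open FracScat

private theorem ucp_half {s : ℝ} (h0 : 3 / 4 < s) {ψ : HS} {x₀ : E3} {ρ : ℝ} (hρ : 0 < ρ)
    (hψ : ∀ᵐ x ∂(volume : Measure E3), ‖x - x₀‖ < ρ → (ψ : E3 → ℂ) x = 0)
    (h : ∀ w : E3, ‖w - x₀‖ < ρ / 2 → ∫ x, kf s (x - w) * (ψ : E3 → ℂ) x = 0) (L : ℂ →L[ℝ] ℝ) :
    ∀ᵐ x ∂(volume : Measure E3), L ((ψ : E3 → ℂ) x) = 0 := by
  refine sphL (W := fun x => L ((ψ : E3 → ℂ) x)) (y₀ := x₀) (ρ := ρ) (ρ' := ρ / 2)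
    (b := 3 + 2 * s) ?_ ?_ hρ (half_pos hρ) ?_ (by linarith) ?_
  · exact L.measurable.comp (Lp.stronglyMeasurable ψ).measurable
  · exact L.comp_memLp' (Lp.memLp ψ)
  · filter_upwards [hψ] with x hx hxr
    rw [hx hxr, map_zero]
  · intro w hw
    have hi := kf_int h0 hρ hψ (w := w) (by linarith)
    have e1 := L.integral_comp_comm hi
    rw [h w hw, map_zero] at e1
    rw [← e1]
    refine integral_congr_ae (Eventually.of_forall fun x => ?_)
    have e2 : kf s (x - w) * (ψ : E3 → ℂ) x =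
        (‖x - w‖ ^ (-(3 + 2 * s)) : ℝ) • (ψ : E3 → ℂ) x := by
      rw [Complex.real_smul]
      rfl
    simp only [e2, map_smul, smul_eq_mul]
    exact mul_comm _ _

theorem ucp {s : ℝ} (h0 : 3 / 4 < s) (h2 : s < 2) (h1 : s ≠ 1) {τ : ℝ} (hτ : 0 < τ) {q : HS}
    {x₀ : E3} {ρ : ℝ} (hρ : 0 < ρ)
    (hq : ∀ᵐ x ∂(volume : Measure E3), ‖x - x₀‖ < ρ → (q : E3 → ℂ) x = 0)
    (hψ : ∀ᵐ x ∂(volume : Measure E3), ‖x - x₀‖ < ρ → (multL (mI s τ) q : E3 → ℂ) x = 0) :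
    q = 0 := by
  have hA := ucpA h0 h2 h1 hτ hρ hq hψ
  have hre := ucp_half h0 hρ hψ hA Complex.reCLM
  have him := ucp_half h0 hρ hψ hA Complex.imCLM
  have hz : multL (mI s τ) q = 0 := by
    apply Lp.ext
    filter_upwards [hre, him, Lp.coeFn_zero ℂ 2 (volume : Measure E3)] with x hx1 hx2 hx3
    rw [hx3]
    exact Complex.ext (by simpa using hx1) (by simpa using hx2)
  have hs0 : 0 < s := by linarith
  have hF : FT q = 0 := by
    apply Lp.ext
    have e1 := FT_multL_coe (mI_BM hs0 h2 h1 hτ) q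
    rw [hz, map_zero] at e1
    obtain ⟨c, hc, hS⟩ := symI hs0 h2 h1
    filter_upwards [e1, Lp.coeFn_zero ℂ 2 (volume : Measure E3)] with ξ hξ1 hξ2
    rw [hξ2] at hξ1 ⊢
    have hne : mI s τ ξ ≠ 0 := by
      rw [mI_eq]
      have h3 := hS τ hτ ((2 * Real.pi * ‖ξ‖) ^ (2 * s)) (by positivity)
      have h4 : 0 < c * ((2 * Real.pi * ‖ξ‖) ^ (2 * s) + τ ^ (2 * s)) := by positivity
      have h5 : aS s ξ - zt s τ ≠ 0 := by
        have h6 : 0 < ‖aS s ξ - zt s τ‖ := h4.trans_le h3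
        exact norm_pos_iff.1 h6
      exact one_div_ne_zero h5
    have h7 : mI s τ ξ * (FT q : E3 → ℂ) ξ = 0 := hξ1.symm
    rcases mul_eq_zero.1 h7 with h8 | h8
    · exact absurd h8 hne
    · exact h8
  exact (LinearIsometryEquiv.map_eq_zero_iff FT).1 hF

end FracScatC

end
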