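import Pool.Agent.Lib.MP_6e2ba5_an.Dx.QZ
import Pool.Agent.Lib.MP_6e2ba5_an.Dx.Ucp

/-! # Good points

`q = (TI V₁ - TI V₂)(gX y) ≠ 0` for some large `τ` (`QZ`). `q` vanishes a.e. where `V₁ = V₂ = 0` (`TI = mulL V ∘ SI`), in particular on
`O`, and `q ∈ HB r`. If `Dk τ x y = pr (gX x) q = 0` for all `x` of a nonempty open `O' ⊆ O`, then `multL (mI s τ) q = 0` a.e. on `O'`
(`pr_gX`), so `q = 0` by `ucp`: a contradiction. -/

set_option autoImplicit false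

open MeasureTheory Filter Topology Set
open scoped FourierTransform SchwartzMap InnerProductSpace ENNReal BoundedContinuousFunction

noncomputable section

namespace FracScatC

open FracScat

theorem goodP {s : ℝ} (h0 : 3 / 4 < s) (h2 : s < 2) (h1 : s ≠ 1) {r : ℝ} (hr : 0 < r)
    {M K : ℝ} (hK : KOK s r M K) {V₁ V₂ : E3 → ℂ} (hV₁ : IsPot r M V₁) (hV₂ : IsPot r M V₂)
    (hne : ¬ V₁ =ᵐ[volume] V₂) {y : E3} (hy : ‖y‖ < r) (K' : ℝ) {O : Set E3}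
    (hO₁ : ∀ᵐ x ∂(volume : Measure E3), x ∈ O → V₁ x = 0)
    (hO₂ : ∀ᵐ x ∂(volume : Measure E3), x ∈ O → V₂ x = 0) :
    ∃ τ : ℝ, K' ≤ τ ∧ ∀ O' : Set E3, IsOpen O' → O' ⊆ O → O'.Nonempty →
      ∃ x ∈ O', Dk s r V₁ V₂ τ x y ≠ 0 := by
  obtain ⟨τ, hτK', hτK, hq0⟩ := QZ h0 h2 h1 hr hK hV₁ hV₂ hne hy K'
  refine ⟨τ, hτK', fun O' hO'o hO'O hO'n => ?_⟩
  have hτ : 0 < τ := lt_of_lt_of_le one_pos (hK.one.trans hτK)
  by_contra hcon
  push Not at hcon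
  apply hq0
  set q : HS := (TI s r V₁ τ - TI s r V₂ τ) (gX s r τ y) with hq
  have hq' : q = mulL V₁ (SI s r V₁ τ (gX s r τ y)) - mulL V₂ (SI s r V₂ τ (gX s r τ y)) := rfl
  have hqB : q ∈ HB r := by
    rw [mem_HB, hq', map_sub, mulL_indB_of_pot hV₁, mulL_indB_of_pot hV₂]
  have hqO : ∀ᵐ x ∂(volume : Measure E3), x ∈ O → (q : E3 → ℂ) x = 0 := by
    have e1 := mulL_coe hV₁.BM (SI s r V₁ τ (gX s r τ y))
    have e2 := mulL_coe hV₂.BM (SI s r V₂ τ (gX s r τ y))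
    have e3 := Lp.coeFn_sub (mulL V₁ (SI s r V₁ τ (gX s r τ y)))
      (mulL V₂ (SI s r V₂ τ (gX s r τ y)))
    filter_upwards [e1, e2, e3, hO₁, hO₂] with x a b c d e hx
    rw [hq', c, Pi.sub_apply, a, b, d hx, e hx, zero_mul, zero_mul, sub_zero]
  obtain ⟨x₀, hx₀⟩ := hO'n
  obtain ⟨ρ, hρ, hball⟩ := Metric.isOpen_iff.1 hO'o x₀ hx₀
  refine ucp h0 h2 h1 hτ (q := q) (x₀ := x₀) (ρ := ρ) hρ ?_ ?_
  · filter_upwards [hqO] with x hx hxρ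
    exact hx (hO'O (hball (by rwa [Metric.mem_ball, dist_eq_norm])))
  · filter_upwards [pr_gX h0 h2 h1 hr hτ hqB] with x hx hxρ
    rw [← hx]
    exact hcon x (hball (by rwa [Metric.mem_ball, dist_eq_norm]))

end FracScatC

end
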