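import Pool.Agent.Lib.MP_6e2ba5_an.Dx.Defs
import Pool.Agent.Lib.MP_6e2ba5_an.Rx.FD6
import Pool.Agent.Lib.MP_6e2ba5_an.Rx.SymI

/-! # Sixth differences of the resolvent symbol are integrable

`mI s τ = 1/(aS - z)`, `z = zt s τ`. For `‖ξ‖` large against `‖h‖` the function `t ↦ mI s τ (ξ - t h)` has an analytic extension
to `‖t‖ ≤ R = ε‖ξ‖/‖h‖` bounded by `C τ^(-2s)` (the proof of `mz_ext` in `Rx/MzE.lean` with `1/(a - z)` in place of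
`a²/(a - z)`: `a(t) = (2π‖ξ‖)^(2s) (1 + w(t))^s`), so `fd6` (`Rx/FD6.lean`) gives `‖D6 (mI s τ) h ξ‖ ≤ C ‖ξ‖^(-6)` for large
`‖ξ‖`; it is bounded everywhere (`symI`) and measurable. -/

set_option autoImplicit false

open MeasureTheory Filter Topology Set
open scoped FourierTransform SchwartzMap InnerProductSpace ENNReal BoundedContinuousFunction

noncomputable section

namespace FracScatC

open FracScat

/-- The relative deviation of `‖ξ - t h‖²`. -/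
private def KerCa_w (ξ h : E3) (t : ℂ) : ℂ :=
  t ^ 2 * ((‖h‖ ^ 2 / ‖ξ‖ ^ 2 : ℝ) : ℂ) - 2 * t * ((⟪ξ, h⟫_ℝ / ‖ξ‖ ^ 2 : ℝ) : ℂ)

private theorem KerCa_w_diff (ξ h : E3) : Differentiable ℂ (KerCa_w ξ h) := by
  unfold KerCa_w
  fun_prop

private theorem KerCa_w_norm {ξ h : E3} (hξ : ξ ≠ 0) {ε : ℝ} (h0 : 0 < ε) (h1 : ε ≤ 1) {t : ℂ}
    (ht : ‖t‖ * ‖h‖ ≤ ε * ‖ξ‖) : ‖KerCa_w ξ h t‖ ≤ 3 * ε := by
  have hn : 0 < ‖ξ‖ := norm_pos_iff.2 hξ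
  have hq : ‖t‖ * ‖h‖ / ‖ξ‖ ≤ ε := by
    rw [div_le_iff₀ hn]
    exact ht
  have hq0 : 0 ≤ ‖t‖ * ‖h‖ / ‖ξ‖ := by positivity
  unfold KerCa_w
  refine (norm_sub_le _ _).trans ?_
  have e1 : ‖t ^ 2 * ((‖h‖ ^ 2 / ‖ξ‖ ^ 2 : ℝ) : ℂ)‖ = (‖t‖ * ‖h‖ / ‖ξ‖) ^ 2 := by
    rw [norm_mul, norm_pow, Complex.norm_real, Real.norm_of_nonneg (by positivity)]
    ring
  have e2 : ‖2 * t * ((⟪ξ, h⟫_ℝ / ‖ξ‖ ^ 2 : ℝ) : ℂ)‖ ≤ 2 * (‖t‖ * ‖h‖ / ‖ξ‖) := by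
    rw [norm_mul, norm_mul, Complex.norm_real, Complex.norm_two, norm_div, norm_pow, norm_norm]
    have h3 : ‖⟪ξ, h⟫_ℝ‖ ≤ ‖ξ‖ * ‖h‖ := norm_inner_le_norm _ _
    calc 2 * ‖t‖ * (‖⟪ξ, h⟫_ℝ‖ / ‖ξ‖ ^ 2) ≤ 2 * ‖t‖ * ((‖ξ‖ * ‖h‖) / ‖ξ‖ ^ 2) := by gcongr
      _ = 2 * (‖t‖ * ‖h‖ / ‖ξ‖) := by
        field_simp
  rw [e1]
  nlinarith

private theorem KerCa_real {ξ h : E3} (hξ : ξ ≠ 0) (t : ℝ) :
    KerCa_w ξ h (t : ℂ) = ((‖ξ - t • h‖ ^ 2 / ‖ξ‖ ^ 2 - 1 : ℝ) : ℂ) := by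
  have hn : 0 < ‖ξ‖ := norm_pos_iff.2 hξ
  have e : ‖ξ - t • h‖ ^ 2 = ‖ξ‖ ^ 2 - 2 * t * ⟪ξ, h⟫_ℝ + t ^ 2 * ‖h‖ ^ 2 := by
    rw [norm_sub_sq_real, real_inner_smul_right, norm_smul, mul_pow, Real.norm_eq_abs, sq_abs]
    ring
  unfold KerCa_w
  rw [e, ← Complex.ofReal_pow, ← Complex.ofReal_mul]
  have e2 : (2 * (t : ℂ)) = ((2 * t : ℝ) : ℂ) := by push_cast; ring
  rw [e2, ← Complex.ofReal_mul, ← Complex.ofReal_sub]
  congr 1
  field_simp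
  ring

private theorem KerCa_aS {s : ℝ} {ξ h : E3} (hξ : ξ ≠ 0) (t : ℝ) :
    aS s (ξ - t • h) = (((2 * Real.pi * ‖ξ‖) ^ (2 * s) : ℝ) : ℂ) *
      (1 + KerCa_w ξ h (t : ℂ)) ^ (s : ℂ) := by
  have hn : 0 < ‖ξ‖ := norm_pos_iff.2 hξ
  have hp := Real.pi_pos
  have hw : (1 : ℂ) + KerCa_w ξ h (t : ℂ) = ((‖ξ - t • h‖ ^ 2 / ‖ξ‖ ^ 2 : ℝ) : ℂ) := by
    rw [KerCa_real hξ]
    push_cast
    ring
  rw [hw, ← Complex.ofReal_cpow (by positivity), ← Complex.ofReal_mul]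
  unfold aS
  congr 1
  have e1 : (2 * Real.pi * ‖ξ - t • h‖) ^ (2 * s) = ((2 * Real.pi * ‖ξ - t • h‖) ^ (2 : ℝ)) ^ s :=
    Real.rpow_mul (by positivity) _ _
  have e2 : (2 * Real.pi * ‖ξ‖) ^ (2 * s) = ((2 * Real.pi * ‖ξ‖) ^ (2 : ℝ)) ^ s :=
    Real.rpow_mul (by positivity) _ _
  rw [e1, e2, ← Real.mul_rpow (by positivity) (by positivity), Real.rpow_two, Real.rpow_two]
  congr 1
  field_simp

private theorem KerCa_ext {s : ℝ} (h0 : 0 < s) (h2 : s < 2) (h1 : s ≠ 1) {τ : ℝ} (hτ : 0 < τ) :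
    ∃ ε C : ℝ, 0 < ε ∧ 0 ≤ C ∧ ∀ ξ h : E3, ξ ≠ 0 → ∀ R : ℝ, 0 < R →
      R * ‖h‖ ≤ ε * ‖ξ‖ → ∃ M : ℂ → ℂ, DiffContOnCl ℂ M (Metric.ball 0 R) ∧
        (∀ t : ℝ, |t| ≤ R → M (t : ℂ) = mI s τ (ξ - t • h)) ∧
        ∀ z ∈ Metric.closedBall (0 : ℂ) R, ‖M z‖ ≤ C := by
  obtain ⟨c, hc, H⟩ := symI h0 h2 h1
  have hp := Real.pi_pos
  -- continuity of `(1 + w)^s` at `0`
  have hcont : ContinuousAt (fun w : ℂ => (1 + w) ^ (s : ℂ)) 0 := by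
    refine ContinuousAt.cpow (continuousAt_const.add continuousAt_id) continuousAt_const ?_
    simp
  obtain ⟨δ, hδ, Hδ⟩ := Metric.continuousAt_iff.1 hcont _ (half_pos hc)
  set δ' : ℝ := min δ (1 / 2) with hδ'
  have hδ0 : 0 < δ' := lt_min hδ (by norm_num)
  have hδh : δ' ≤ 1 / 2 := min_le_right _ _
  have key : ∀ w : ℂ, ‖w‖ < δ' → ‖(1 + w) ^ (s : ℂ) - 1‖ < c / 2 := by
    intro w hw
    have h3 := Hδ (x := w) (by rw [dist_zero_right]; exact hw.trans_le (min_le_left _ _))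
    rw [dist_eq_norm, add_zero, Complex.one_cpow] at h3
    exact h3
  set ε : ℝ := δ' / 4 with hε
  have hε0 : 0 < ε := by positivity
  have hε1 : ε ≤ 1 := by linarith
  have hτ0 : 0 < τ ^ (2 * s) := by positivity
  refine ⟨ε, 1 / (c / 2 * τ ^ (2 * s)), hε0, by positivity, ?_⟩
  intro ξ h hξ R hR hRh
  have hn : 0 < ‖ξ‖ := norm_pos_iff.2 hξ
  set A : ℝ := (2 * Real.pi * ‖ξ‖) ^ (2 * s) with hA
  have hA0 : 0 < A := by positivity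
  have hw : ∀ z ∈ Metric.closedBall (0 : ℂ) R, ‖KerCa_w ξ h z‖ < δ' := by
    intro z hz
    rw [mem_closedBall_zero_iff] at hz
    have h3 : ‖z‖ * ‖h‖ ≤ ε * ‖ξ‖ := (mul_le_mul_of_nonneg_right hz (norm_nonneg _)).trans hRh
    have h4 := KerCa_w_norm hξ hε0 hε1 h3
    linarith
  have hden : ∀ z ∈ Metric.closedBall (0 : ℂ) R,
      c / 2 * τ ^ (2 * s) ≤ ‖(A : ℂ) * (1 + KerCa_w ξ h z) ^ (s : ℂ) - zt s τ‖ := by
    intro z hz
    have h3 := key _ (hw z hz)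
    have h4 := H τ hτ A hA0.le
    have h5 : (A : ℂ) - zt s τ = ((A : ℂ) * (1 + KerCa_w ξ h z) ^ (s : ℂ) - zt s τ) -
        (A : ℂ) * ((1 + KerCa_w ξ h z) ^ (s : ℂ) - 1) := by ring
    have h6 : ‖(A : ℂ) * ((1 + KerCa_w ξ h z) ^ (s : ℂ) - 1)‖ ≤ A * (c / 2) := by
      rw [norm_mul, Complex.norm_real, Real.norm_of_nonneg hA0.le]
      exact mul_le_mul_of_nonneg_left h3.le hA0.le
    rw [h5] at h4
    have h7 := h4.trans (norm_sub_le _ _)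
    have h8 : 0 < c * τ ^ (2 * s) := by positivity
    have h9 : 0 < c * A := by positivity
    nlinarith
  have hpos : 0 < c / 2 * τ ^ (2 * s) := by positivity
  have hden0 : ∀ z ∈ Metric.closedBall (0 : ℂ) R,
      (A : ℂ) * (1 + KerCa_w ξ h z) ^ (s : ℂ) - zt s τ ≠ 0 := by
    intro z hz h3
    have h4 := hden z hz
    rw [h3, norm_zero] at h4
    linarith
  refine ⟨fun z => 1 / ((A : ℂ) * (1 + KerCa_w ξ h z) ^ (s : ℂ) - zt s τ), ?_, ?_, ?_⟩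
  · refine DifferentiableOn.diffContOnCl ?_
    intro z hz
    have hz' : z ∈ Metric.closedBall (0 : ℂ) R := Metric.closure_ball_subset_closedBall hz
    refine DifferentiableAt.differentiableWithinAt ?_
    have hsl : 1 + KerCa_w ξ h z ∈ Complex.slitPlane := by
      refine Or.inl ?_
      have h3 := hw z hz'
      have h4 := Complex.abs_re_le_norm (KerCa_w ξ h z)
      have h5 := abs_le.1 (h4.trans h3.le)
      rw [Complex.add_re, Complex.one_re]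
      linarith [h5.1]
    have hd : DifferentiableAt ℂ (fun z => (A : ℂ) * (1 + KerCa_w ξ h z) ^ (s : ℂ)) z := by
      refine DifferentiableAt.const_mul ?_ _
      exact DifferentiableAt.cpow_const ((KerCa_w_diff ξ h z).const_add 1) hsl
    exact (differentiableAt_const _).div (hd.sub_const _) (hden0 z hz')
  · intro t ht
    show 1 / ((A : ℂ) * (1 + KerCa_w ξ h (t : ℂ)) ^ (s : ℂ) - zt s τ) = _
    rw [mI_eq, KerCa_aS hξ]
  · intro z hz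
    show ‖1 / ((A : ℂ) * (1 + KerCa_w ξ h z) ^ (s : ℂ) - zt s τ)‖ ≤ _
    rw [norm_div, norm_one]
    exact one_div_le_one_div_of_le hpos (hden z hz)

private theorem KerCa_meas (s τ : ℝ) (h : E3) : Measurable (D6 (mI s τ) h) := by
  have h0 : Measurable (mI s τ) := by
    have : mI s τ = fun ξ => 1 / (aS s ξ - zt s τ) := rfl
    rw [this]
    exact measurable_const.div ((aS_measurable s).sub_const _)
  have h1 : D6 (mI s τ) h = fun ξ => ∑ j ∈ Finset.range 7, (-1 : ℂ) ^ j * (Nat.choose 6 j : ℂ) *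
      mI s τ (ξ - (j : ℝ) • h) := rfl
  rw [h1]
  refine Finset.measurable_fun_sum _ fun j _ => ?_
  exact (h0.comp (measurable_id.sub_const _)).const_mul _

private theorem KerCa_bd {s : ℝ} (h0 : 3 / 4 < s) (h2 : s < 2) (h1 : s ≠ 1) {τ : ℝ}
    (hτ : 0 < τ) (h : E3) :
    ∃ C : ℝ, ∀ ξ : E3, ‖D6 (mI s τ) h ξ‖ ≤ C * (1 + ‖ξ‖) ^ (-(6 : ℝ)) := by
  have hs0 : 0 < s := by linarith
  by_cases hh : h = 0
  · refine ⟨0, fun ξ => ?_⟩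
    have : D6 (mI s τ) h ξ = 0 := by
      rw [D6, hh]
      simp only [smul_zero, sub_zero]
      rw [← Finset.sum_mul]
      have : ∑ j ∈ Finset.range 7, (-1 : ℂ) ^ j * (Nat.choose 6 j : ℂ) = 0 := by
        simp [Finset.sum_range_succ, Nat.choose]
        norm_num
      rw [this, zero_mul]
    rw [this]
    simp
  have hhn : 0 < ‖h‖ := norm_pos_iff.2 hh
  obtain ⟨ε, C₁, hε, hC₁, hext⟩ := KerCa_ext hs0 h2 h1 hτ
  obtain ⟨C₂, hC₂, hfd⟩ := fd6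
  obtain ⟨c, hc, hsym⟩ := symI hs0 h2 h1
  have hts : 0 < τ ^ (2 * s) := Real.rpow_pos_of_pos hτ _
  set ρ : ℝ := 12 * ‖h‖ / ε with hρ
  have hρ0 : 0 < ρ := by positivity
  set A₁ : ℝ := C₂ * C₁ * (‖h‖ / ε) ^ 6 * ((1 + ρ) / ρ) ^ 6 with hA₁
  set A₂ : ℝ := 64 * (1 / (c * τ ^ (2 * s))) * (1 + ρ) ^ 6 with hA₂
  have hA₁0 : 0 ≤ A₁ := by positivity
  have hA₂0 : 0 ≤ A₂ := by positivity
  have hpow : ∀ ξ : E3, (1 + ‖ξ‖) ^ (-(6 : ℝ)) = 1 / (1 + ‖ξ‖) ^ 6 := by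
    intro ξ
    rw [Real.rpow_neg (by positivity), one_div]
    congr 1
    exact_mod_cast Real.rpow_natCast (1 + ‖ξ‖) 6
  refine ⟨A₁ + A₂, fun ξ => ?_⟩
  rw [hpow]
  have hξ1 : 0 < 1 / (1 + ‖ξ‖) ^ 6 := by positivity
  rcases le_or_gt (12 * ‖h‖) (ε * ‖ξ‖) with hcase | hcase
  · -- the main case
    have hξ0 : 0 < ‖ξ‖ := by
      by_contra hcon
      have : ‖ξ‖ = 0 := le_antisymm (not_lt.1 hcon) (norm_nonneg _)
      rw [this] at hcase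
      linarith
    have hξne : ξ ≠ 0 := norm_pos_iff.1 hξ0
    have hR0 : 0 < ε * ‖ξ‖ / ‖h‖ := by positivity
    have hR12 : 12 ≤ ε * ‖ξ‖ / ‖h‖ := by
      rw [le_div_iff₀ hhn]
      exact hcase
    have hRh : ε * ‖ξ‖ / ‖h‖ * ‖h‖ ≤ ε * ‖ξ‖ := by
      rw [div_mul_cancel₀ _ hhn.ne']
    obtain ⟨M, hMd, hMr, hMb⟩ := hext ξ h hξne _ hR0 hRh
    have hS := hfd _ _ M hR12 hMd (fun z hz => hMb z (Metric.sphere_subset_closedBall hz))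
    have hD : D6 (mI s τ) h ξ =
        ∑ j ∈ Finset.range 7, (-1 : ℂ) ^ j * (Nat.choose 6 j : ℂ) * M (j : ℂ) := by
      rw [D6]
      refine Finset.sum_congr rfl fun j hj => ?_
      have hj' : j < 7 := Finset.mem_range.1 hj
      have hjR : |(j : ℝ)| ≤ ε * ‖ξ‖ / ‖h‖ := by
        rw [abs_of_nonneg (Nat.cast_nonneg j)]
        have : (j : ℝ) ≤ 6 := by exact_mod_cast Nat.lt_succ_iff.1 hj'
        linarith
      rw [← hMr (j : ℝ) hjR, Complex.ofReal_natCast]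
    rw [hD]
    refine hS.trans ?_
    have hx : ρ ≤ ‖ξ‖ := by
      rw [hρ, div_le_iff₀ hε]
      linarith
    have hc1 : 1 + ‖ξ‖ ≤ (1 + ρ) / ρ * ‖ξ‖ := by
      rw [div_mul_eq_mul_div, le_div_iff₀ hρ0]
      nlinarith
    have hc2 : 1 / ‖ξ‖ ^ 6 ≤ ((1 + ρ) / ρ) ^ 6 * (1 / (1 + ‖ξ‖) ^ 6) := by
      rw [mul_one_div, div_le_div_iff₀ (by positivity) (by positivity), one_mul, ← mul_pow]
      exact pow_le_pow_left₀ (by positivity) hc1 6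
    have hre : C₂ * C₁ / (ε * ‖ξ‖ / ‖h‖) ^ 6 = C₂ * C₁ * (‖h‖ / ε) ^ 6 * (1 / ‖ξ‖ ^ 6) := by
      rw [div_pow, mul_pow, div_pow]
      field_simp
    rw [hre]
    calc C₂ * C₁ * (‖h‖ / ε) ^ 6 * (1 / ‖ξ‖ ^ 6)
        ≤ C₂ * C₁ * (‖h‖ / ε) ^ 6 * (((1 + ρ) / ρ) ^ 6 * (1 / (1 + ‖ξ‖) ^ 6)) :=
          mul_le_mul_of_nonneg_left hc2 (by positivity)
      _ = A₁ * (1 / (1 + ‖ξ‖) ^ 6) := by rw [hA₁]; ring
      _ ≤ (A₁ + A₂) * (1 / (1 + ‖ξ‖) ^ 6) :=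
          mul_le_mul_of_nonneg_right (by linarith) hξ1.le
  · -- small `ξ`
    have hx : ‖ξ‖ ≤ ρ := by
      rw [hρ, le_div_iff₀ hε]
      linarith
    have hm : ∀ η : E3, ‖mI s τ η‖ ≤ 1 / (c * τ ^ (2 * s)) := by
      intro η
      have ha0 : 0 ≤ (2 * Real.pi * ‖η‖) ^ (2 * s) := by positivity
      have h3 := hsym τ hτ _ ha0
      have h4 : c * τ ^ (2 * s) ≤ ‖aS s η - zt s τ‖ := by
        refine le_trans ?_ h3
        exact mul_le_mul_of_nonneg_left (by linarith) hc.le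
      rw [mI_eq, norm_div, norm_one]
      exact one_div_le_one_div_of_le (by positivity) h4
    have hterm : ∀ j ∈ Finset.range 7,
        ‖(-1 : ℂ) ^ j * (Nat.choose 6 j : ℂ) * mI s τ (ξ - (j : ℝ) • h)‖
          ≤ (Nat.choose 6 j : ℝ) * (1 / (c * τ ^ (2 * s))) := by
      intro j _
      rw [norm_mul, norm_mul, norm_pow, norm_neg, norm_one, one_pow, one_mul, Complex.norm_natCast]
      exact mul_le_mul_of_nonneg_left (hm _) (Nat.cast_nonneg _)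
    have hsum : ‖D6 (mI s τ) h ξ‖ ≤ 64 * (1 / (c * τ ^ (2 * s))) := by
      rw [D6]
      refine (norm_sum_le_of_le _ hterm).trans (le_of_eq ?_)
      rw [← Finset.sum_mul]
      congr 1
      have : ∑ j ∈ Finset.range 7, Nat.choose 6 j = 64 := by decide
      exact_mod_cast this
    have hlow : 1 ≤ (1 + ρ) ^ 6 * (1 / (1 + ‖ξ‖) ^ 6) := by
      rw [mul_one_div, one_le_div (by positivity)]
      exact pow_le_pow_left₀ (by positivity) (by linarith) 6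
    calc ‖D6 (mI s τ) h ξ‖ ≤ 64 * (1 / (c * τ ^ (2 * s))) := hsum
      _ = 64 * (1 / (c * τ ^ (2 * s))) * 1 := (mul_one _).symm
      _ ≤ 64 * (1 / (c * τ ^ (2 * s))) * ((1 + ρ) ^ 6 * (1 / (1 + ‖ξ‖) ^ 6)) :=
          mul_le_mul_of_nonneg_left hlow (by positivity)
      _ = A₂ * (1 / (1 + ‖ξ‖) ^ 6) := by rw [hA₂]; ring
      _ ≤ (A₁ + A₂) * (1 / (1 + ‖ξ‖) ^ 6) :=
          mul_le_mul_of_nonneg_right (by linarith) hξ1.le

theorem D6_mI_integrable {s : ℝ} (h0 : 3 / 4 < s) (h2 : s < 2) (h1 : s ≠ 1) {τ : ℝ}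
    (hτ : 0 < τ) (h : E3) : Integrable (D6 (mI s τ) h) := by
  obtain ⟨C, hC⟩ := KerCa_bd h0 h2 h1 hτ h
  have hdim : (Module.finrank ℝ E3 : ℝ) < 6 := by
    rw [finrank_euclideanSpace]
    simp only [Fintype.card_fin]
    norm_num
  have hi : Integrable (fun ξ : E3 => C * (1 + ‖ξ‖) ^ (-(6 : ℝ))) :=
    (integrable_one_add_norm hdim).const_mul C
  exact hi.mono' (KerCa_meas s τ h).aestronglyMeasurable (Eventually.of_forall hC)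

end FracScatC

end
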