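import Pool.Agent.Lib.MP_6e2ba5_an.Dx.KerCa

/-! # The resolvent kernel is continuous off the origin

`FT (ps6 h · GI) = D6 (FT GI) = D6 (mI s τ) h` (`FT_ps6`, `D6_congr_ae` in `Rx/OffD.lean`, private: copy them), which is
integrable, so `ps6 h · GI` is a.e. equal to the continuous function `q_h = 𝓕⁻ (D6 (mI s τ) h)`
(`FTsymm_coe_of_integrable`). Where `ps6 h x ≠ 0`, `GI = q_h / ps6 h` a.e. For `x ≠ 0` there is `h` with `ps6 h ≠ 0` near `x`
(e.g. `h = x/(2‖x‖²)`, `efun h x = -1`). Countably many `h` suffice to cover `{x ≠ 0}` by the open sets `{ps6 h ≠ 0}`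
(Lindelöf); two continuous functions which agree a.e. on an open set agree there, so the pieces define a continuous
function `k` on `{x ≠ 0}`. -/

set_option autoImplicit false

open MeasureTheory Filter Topology Set
open scoped FourierTransform SchwartzMap InnerProductSpace ENNReal BoundedContinuousFunction

noncomputable section

namespace FracScatC

open FracScat

private theorem ps6_sum (h x : E3) : ps6 h x =
    ∑ j ∈ Finset.range 7, ((-1 : ℂ) ^ j * (Nat.choose 6 j : ℂ)) * efun ((j : ℝ) • h) x := by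
  have he : ∀ j : ℕ, efun ((j : ℝ) • h) x = efun h x ^ j := by
    intro j
    rw [efun, efun, ← Complex.exp_nat_mul]
    congr 1
    rw [real_inner_smul_left]
    push_cast
    ring
  simp only [he]
  rw [ps6]
  simp only [Finset.sum_range_succ, Finset.sum_range_zero]
  norm_num [Nat.choose]
  ring

private theorem mulL_ps6 (h : E3) (g : HS) : mulL (ps6 h) g =
    ∑ j ∈ Finset.range 7, ((-1 : ℂ) ^ j * (Nat.choose 6 j : ℂ)) • mulL (efun ((j : ℝ) • h)) g := by
  have hB : BM (ps6 h) := by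
    refine ⟨(ps6_continuous h).aestronglyMeasurable, 64, Eventually.of_forall fun x => ?_⟩
    rw [ps6, norm_pow]
    have h1 : ‖efun h x - 1‖ ≤ 2 := by
      refine (norm_sub_le _ _).trans ?_
      rw [norm_efun, norm_one]
      norm_num
    calc ‖efun h x - 1‖ ^ 6 ≤ 2 ^ 6 := pow_le_pow_left₀ (norm_nonneg _) h1 6
      _ = 64 := by norm_num
  apply Lp.ext
  have h1 : ∀ᵐ x ∂(volume : Measure E3), ∀ j ∈ Finset.range 7,
      ((((-1 : ℂ) ^ j * (Nat.choose 6 j : ℂ)) • mulL (efun ((j : ℝ) • h)) g : HS) : E3 → ℂ) x =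
      ((-1 : ℂ) ^ j * (Nat.choose 6 j : ℂ)) * (efun ((j : ℝ) • h) x * (g : E3 → ℂ) x) := by
    rw [Finset.eventually_all]
    intro j _
    filter_upwards [Lp.coeFn_smul ((-1 : ℂ) ^ j * (Nat.choose 6 j : ℂ)) (mulL (efun ((j : ℝ) • h)) g),
      mulL_coe (efun_BM ((j : ℝ) • h)) g] with x a b
    rw [a, Pi.smul_apply, b, smul_eq_mul]
  filter_upwards [mulL_coe hB g, h1, Lp.coeFn_fun_finsetSum (Finset.range 7) (fun j : ℕ =>
    ((-1 : ℂ) ^ j * (Nat.choose 6 j : ℂ)) • mulL (efun ((j : ℝ) • h)) g)] with x a b c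
  rw [a, c, Finset.sum_congr rfl b, ps6_sum, Finset.sum_mul]
  exact Finset.sum_congr rfl fun j _ => by ring

private theorem FT_ps6 (h : E3) (g : HS) :
    (FT (mulL (ps6 h) g) : E3 → ℂ) =ᵐ[volume] D6 (FT g : E3 → ℂ) h := by
  rw [mulL_ps6, map_sum]
  have h1 : ∀ᵐ ξ ∂(volume : Measure E3), ∀ j ∈ Finset.range 7,
      ((FT (((-1 : ℂ) ^ j * (Nat.choose 6 j : ℂ)) • mulL (efun ((j : ℝ) • h)) g) : HS) : E3 → ℂ) ξ =
      (-1 : ℂ) ^ j * (Nat.choose 6 j : ℂ) * (FT g : E3 → ℂ) (ξ - (j : ℝ) • h) := by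
    rw [Finset.eventually_all]
    intro j _
    rw [map_smul]
    filter_upwards [Lp.coeFn_smul ((-1 : ℂ) ^ j * (Nat.choose 6 j : ℂ))
      (FT (mulL (efun ((j : ℝ) • h)) g)), FT_efun_all ((j : ℝ) • h) g] with x a b
    rw [a, Pi.smul_apply, b, smul_eq_mul]
  filter_upwards [h1, Lp.coeFn_fun_finsetSum (Finset.range 7) (fun j : ℕ =>
    FT (((-1 : ℂ) ^ j * (Nat.choose 6 j : ℂ)) • mulL (efun ((j : ℝ) • h)) g))] with ξ b c
  rw [c, Finset.sum_congr rfl b, D6]

private theorem D6_congr_ae {F F' : E3 → ℂ} (hF : F =ᵐ[volume] F') (h : E3) :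
    D6 F h =ᵐ[volume] D6 F' h := by
  have h1 : ∀ᵐ ξ ∂(volume : Measure E3), ∀ j ∈ Finset.range 7,
      F (ξ - (j : ℝ) • h) = F' (ξ - (j : ℝ) • h) := by
    rw [Finset.eventually_all]
    intro j _
    exact (measurePreserving_sub_right volume ((j : ℝ) • h)).quasiMeasurePreserving.ae hF
  filter_upwards [h1] with ξ a
  rw [D6, D6]
  exact Finset.sum_congr rfl fun j hj => by rw [a j hj]

private theorem ps6_BM (h : E3) : BM (ps6 h) := by
  refine ⟨(ps6_continuous h).aestronglyMeasurable, 64, Eventually.of_forall fun x => ?_⟩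
  rw [ps6, norm_pow]
  have h1 : ‖efun h x - 1‖ ≤ 2 := by
    refine (norm_sub_le _ _).trans ?_
    rw [norm_efun, norm_one]
    norm_num
  calc ‖efun h x - 1‖ ^ 6 ≤ 2 ^ 6 := pow_le_pow_left₀ (norm_nonneg _) h1 6
    _ = 64 := by norm_num

private theorem finv_cont (F : E3 → ℂ) (hF : Integrable F) : Continuous (𝓕⁻ F) := by
  have hcont : Continuous (𝓕 F) :=
    VectorFourier.fourierIntegral_continuous Real.continuous_fourierChar continuous_inner hF
  have hneg : (𝓕⁻ F) = fun x => 𝓕 F (-x) := by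
    funext x
    exact Real.fourierInv_eq_fourier_neg _ x
  rw [hneg]
  exact hcont.comp continuous_neg

private theorem finv_congr {F F' : E3 → ℂ} (h : F =ᵐ[volume] F') : 𝓕⁻ F = 𝓕⁻ F' := by
  funext x
  rw [Real.fourierInv_eq', Real.fourierInv_eq']
  refine integral_congr_ae ?_
  filter_upwards [h] with y hy
  rw [hy]

private theorem ps6_mul_ae {s : ℝ} (h0 : 3 / 4 < s) (h2 : s < 2) (h1 : s ≠ 1) {τ : ℝ}
    (hτ : 0 < τ) (h : E3) :
    ∀ᵐ x ∂(volume : Measure E3),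
      ps6 h x * (GI s τ : E3 → ℂ) x = 𝓕⁻ (D6 (mI s τ) h) x := by
  have e1 : (FT (mulL (ps6 h) (GI s τ)) : E3 → ℂ) =ᵐ[volume] D6 (mI s τ) h :=
    (FT_ps6 h (GI s τ)).trans (D6_congr_ae (FT_GI (mI_memLp h0 h2 h1 hτ)) h)
  have e2 : Integrable (FT (mulL (ps6 h) (GI s τ)) : E3 → ℂ) :=
    (D6_mI_integrable h0 h2 h1 hτ h).congr e1.symm
  have e3 := FTsymm_coe_of_integrable (FT (mulL (ps6 h) (GI s τ))) e2
  rw [LinearIsometryEquiv.symm_apply_apply, finv_congr e1] at e3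
  filter_upwards [e3, mulL_coe (ps6_BM h) (GI s τ)] with x a b
  rw [← a, b]

private theorem ps6_cont_left (x : E3) : Continuous fun h : E3 => ps6 h x := by
  unfold ps6 efun
  fun_prop

private theorem ps6_ne {x : E3} (hx : x ≠ 0) : ∃ h : E3, ps6 h x ≠ 0 := by
  refine ⟨(1 / (2 * ‖x‖ ^ 2)) • x, ?_⟩
  have hx0 : ‖x‖ ≠ 0 := norm_ne_zero_iff.2 hx
  have e1 : efun ((1 / (2 * ‖x‖ ^ 2)) • x) x = -1 := by
    rw [efun, real_inner_smul_left, real_inner_self_eq_norm_sq]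
    have e2 : 2 * Real.pi * (1 / (2 * ‖x‖ ^ 2) * ‖x‖ ^ 2) = Real.pi := by
      field_simp
    rw [e2, Complex.exp_pi_mul_I]
  rw [ps6, e1]
  norm_num

theorem kerC {s : ℝ} (h0 : 3 / 4 < s) (h2 : s < 2) (h1 : s ≠ 1) {τ : ℝ} (hτ : 0 < τ) :
    ∃ k : E3 → ℂ, ContinuousOn k {x | x ≠ 0} ∧ (GI s τ : E3 → ℂ) =ᵐ[volume] k := by
  classical
  obtain ⟨D, hDc, hDd⟩ := TopologicalSpace.exists_countable_dense E3
  set q : E3 → E3 → ℂ := fun h => 𝓕⁻ (D6 (mI s τ) h) with hq
  have hqc : ∀ h, Continuous (q h) := fun h => finv_cont _ (D6_mI_integrable h0 h2 h1 hτ h)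
  have hqa : ∀ h, ∀ᵐ x ∂(volume : Measure E3), ps6 h x * (GI s τ : E3 → ℂ) x = q h x :=
    fun h => ps6_mul_ae h0 h2 h1 hτ h
  have hcross : ∀ h h' x, q h x * ps6 h' x = q h' x * ps6 h x := by
    intro h h'
    have e1 : (fun x => q h x * ps6 h' x) =ᵐ[volume] fun x => q h' x * ps6 h x := by
      filter_upwards [hqa h, hqa h'] with x a b
      rw [← a, ← b]
      ring
    have e2 := (Continuous.ae_eq_iff_eq (volume : Measure E3)
      ((hqc h).mul (ps6_continuous h')) ((hqc h').mul (ps6_continuous h))).1 e1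
    intro x
    exact congrFun e2 x
  set k : E3 → ℂ := fun x => if hx : ∃ h : E3, ps6 h x ≠ 0 then q hx.choose x / ps6 hx.choose x
    else 0 with hk
  have hke : ∀ h x, ps6 h x ≠ 0 → k x = q h x / ps6 h x := by
    intro h x hx
    have hx' : ∃ h : E3, ps6 h x ≠ 0 := ⟨h, hx⟩
    simp only [hk]
    rw [dif_pos hx', div_eq_div_iff hx'.choose_spec hx]
    exact hcross _ _ _
  refine ⟨k, ?_, ?_⟩
  · intro x hx
    obtain ⟨h, hh⟩ := ps6_ne (x := x) hx
    have hU : IsOpen {y : E3 | ps6 h y ≠ 0} := isOpen_ne_fun (ps6_continuous h) continuous_const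
    have e1 : ContinuousAt (fun y => q h y / ps6 h y) x :=
      (hqc h).continuousAt.div (ps6_continuous h).continuousAt hh
    refine ContinuousAt.continuousWithinAt ?_
    refine e1.congr ?_
    filter_upwards [hU.mem_nhds hh] with y hy
    exact (hke h y hy).symm
  · have e1 : ∀ᵐ x ∂(volume : Measure E3), ∀ h ∈ D, ps6 h x * (GI s τ : E3 → ℂ) x = q h x :=
      (ae_ball_iff hDc).2 fun h _ => hqa h
    have e2 : ∀ᵐ x ∂(volume : Measure E3), x ≠ 0 := by
      rw [ae_iff]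
      simp
    filter_upwards [e1, e2] with x a b
    have hU : IsOpen {h : E3 | ps6 h x ≠ 0} := isOpen_ne_fun (ps6_cont_left x) continuous_const
    obtain ⟨h, hh, hD⟩ := hDd.inter_open_nonempty _ hU (ps6_ne b)
    rw [hke h x hh, ← a h hD, mul_div_assoc, mul_comm]
    rw [div_mul_cancel₀ _ hh]

end FracScatC

end
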