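import Pool.Agent.Lib.MP_6e2ba5_an.Dx.TSeq

/-! # The kernel of the linearised data map is finite-dimensional

The set `{w ∈ HB r | ∀ ξ, K < ‖ξ‖ → A3 w (UA V ξ) (UA V ξ) = 0}` is a subspace of `L²` (`A3_W_add`, `A3_W_smul`; `UA` is bounded: `UK_Bd`,
`AR_SymB`, `eH_Bd`), closed (`A3_lim`), and its unit ball is sequentially compact by `tseq` with `ε = 0`. So it is
finite-dimensional (Riesz: `FiniteDimensional.of_isCompact_closedBall₀` or similar). -/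

set_option autoImplicit false

open MeasureTheory Filter Topology Set
open scoped FourierTransform SchwartzMap InnerProductSpace ENNReal BoundedContinuousFunction

noncomputable section

namespace FracScatC

open FracScat

private theorem kerF_Bd {s : ℝ} (h0 : 3 / 4 < s) (h2 : s < 2) (h1 : s ≠ 1) {r : ℝ} (hr : 0 < r)
    {M K : ℝ} (hK : KOK s r M K) {V : E3 → ℂ} (hV : IsPot r M V) {ξ : E3} (hξ : K < ‖ξ‖) :
    ∃ C : ℝ, Bd C (UA s r V ξ) :=
  ⟨_, UK_Bd (AR_SymB h0 h2 h1 hr (hK.one.trans hξ.le)) hV (hK.ar ξ hξ.le) (eH_Bd r ξ)⟩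

private theorem kerF_zero (f g : HS) : A3 0 f g = 0 := by
  have h := A3_W_smul 0 0 f g
  rwa [zero_smul, zero_mul] at h

theorem kerF {s : ℝ} (h0 : 3 / 4 < s) (h2 : s < 2) (h1 : s ≠ 1) {r : ℝ} (hr : 0 < r)
    {M K : ℝ} (hK : KOK s r M K) {V : E3 → ℂ} (hV : IsPot r M V) :
    ∃ F : Submodule ℂ HS, FiniteDimensional ℂ F ∧ ∀ w ∈ HB r,
      (∀ ξ : E3, K < ‖ξ‖ → A3 w (UA s r V ξ) (UA s r V ξ) = 0) → w ∈ F := by
  obtain ⟨F, hF⟩ : ∃ F : Submodule ℂ HS, ∀ w, w ∈ F ↔ (w ∈ HB r ∧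
      ∀ ξ : E3, K < ‖ξ‖ → A3 w (UA s r V ξ) (UA s r V ξ) = 0) := by
    refine ⟨{ carrier := {w | w ∈ HB r ∧ ∀ ξ : E3, K < ‖ξ‖ →
                A3 w (UA s r V ξ) (UA s r V ξ) = 0}
              add_mem' := ?_
              zero_mem' := ?_
              smul_mem' := ?_ }, fun w => Iff.rfl⟩
    · rintro a b ⟨ha, ha'⟩ ⟨hb, hb'⟩
      refine ⟨(HB r).add_mem ha hb, fun ξ hξ => ?_⟩
      obtain ⟨C, hC⟩ := kerF_Bd h0 h2 h1 hr hK hV hξ
      rw [A3_W_add hC, ha' ξ hξ, hb' ξ hξ, add_zero]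
    · exact ⟨(HB r).zero_mem, fun ξ _ => kerF_zero _ _⟩
    · rintro c a ⟨ha, ha'⟩
      refine ⟨(HB r).smul_mem c ha, fun ξ hξ => ?_⟩
      rw [A3_W_smul, ha' ξ hξ, mul_zero]
  refine ⟨F, ?_, fun w hw h => (hF w).2 ⟨hw, h⟩⟩
  refine FiniteDimensional.of_isCompact_closedBall₀ ℂ (r := 1) one_pos ?_
  refine IsSeqCompact.isCompact ?_
  intro x hx
  have hx1 : ∀ n, ‖((x n : F) : HS)‖ ≤ 1 := fun n => by
    have := hx n
    rw [Metric.mem_closedBall, dist_zero_right] at this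
    exact this
  have hxF : ∀ n, ((x n : F) : HS) ∈ F := fun n => (x n).2
  obtain ⟨φ, hφ, w₀, hw₀, hlim⟩ := tseq h0 h2 h1 hr hK (V₁ := fun _ => V) (V₁' := fun _ => V)
    (V₂ := fun _ => V) (V₂' := fun _ => V) (fun _ => hV) (fun _ => hV) (fun _ => hV) (fun _ => hV)
    (w := fun n => ((x n : F) : HS)) (ε := fun _ => 0) (fun n => ((hF _).1 (hxF n)).1)
    (fun _ => (HB r).zero_mem) hx1 (ε₀ := 0) tendsto_const_nhds
    (fun n ξ hξ => by
      rw [((hF _).1 (hxF n)).2 ξ hξ, kerF_zero])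
  have hmem : w₀ ∈ F := by
    refine (hF w₀).2 ⟨hw₀, fun ξ hξ => ?_⟩
    obtain ⟨C, hC⟩ := kerF_Bd h0 h2 h1 hr hK hV hξ
    have hl := A3_lim hlim (tendsto_const_nhds (x := UA s r V ξ)) (tendsto_const_nhds (x := UA s r V ξ))
      (fun _ => hC) (fun _ => hC) hC hC
    have hz : (fun n => A3 (((fun n => ((x n : F) : HS)) ∘ φ) n) (UA s r V ξ) (UA s r V ξ)) =
        fun _ => (0 : ℂ) := by
      funext n
      exact ((hF _).1 (hxF (φ n))).2 ξ hξ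
    rw [hz] at hl
    exact tendsto_nhds_unique hl tendsto_const_nhds
  have hn : ‖w₀‖ ≤ 1 := le_of_tendsto hlim.norm (Eventually.of_forall fun n => hx1 (φ n))
  refine ⟨⟨w₀, hmem⟩, ?_, φ, hφ, ?_⟩
  · rw [Metric.mem_closedBall, dist_zero_right]
    exact hn
  · rw [tendsto_subtype_rng]
    exact hlim

end FracScatC

end
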