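import Pool.Agent.Lib.MP_6e2ba5_an.Dx.Tight
import Pool.Agent.Lib.MP_6e2ba5_an.Dx.Cmp
import Pool.Agent.Lib.MP_6e2ba5_an.Ex.J2E

/-! # Sequences of solutions of the linearised identity

For `N > K` the identity and `tight` (for `w n` with `V₂ n`, `V₂' n` and for `ε n` with `V₁ n`, `V₁' n`) give on
`{‖ξ‖ ≥ N}`: `|ftX (w n)(-2ξ)| ≤ |ftX (ε n)(-2ξ)| + G_w(ξ) + G_ε(ξ)`, so
`∫_{‖ξ‖≥N} |ftX (w n)(-2ξ)|² ≤ 4 (∫_{‖ξ‖≥N} |ftX (ε n)(-2ξ)|² + C N^(-γ) (A² + A'²))`, `A'` a bound of `‖ε n‖`. Since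
`ε n → ε₀`: `∫_{‖ξ‖≥N} |ftX (ε n)(-2ξ)|² ≤ 2 ∫_{‖ξ‖≥N} |ftX ε₀ (-2ξ)|² + 2 ‖ε n - ε₀‖²` (`ftX_sqW`, `ftX` is additive on
`HB r`), which is small for `N` large and then `n` large. Apply `cmpct`. -/

set_option autoImplicit false

open MeasureTheory Filter Topology Set
open scoped FourierTransform SchwartzMap InnerProductSpace ENNReal BoundedContinuousFunction

noncomputable section

namespace FracScatC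

open FracScat

private theorem tseq_sq (a b : ℝ≥0∞) : (a + b) ^ 2 ≤ 4 * (a ^ 2 + b ^ 2) := by
  have key : ∀ x y : ℝ≥0∞, x ≤ y → (x + y) ^ 2 ≤ 4 * (x ^ 2 + y ^ 2) := by
    intro x y h
    calc (x + y) ^ 2 ≤ (y + y) ^ 2 := by gcongr
      _ = 4 * y ^ 2 := by rw [← two_mul, mul_pow]; norm_num
      _ ≤ 4 * (x ^ 2 + y ^ 2) := by gcongr; exact le_add_self
  rcases le_total a b with h | h
  · exact key a b h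
  · rw [add_comm a b, add_comm (a ^ 2)]
    exact key b a h

private theorem tseq_sq4 {x a b c d : ℝ≥0∞} (h : x ≤ a + b + (c + d)) :
    x ^ 2 ≤ 16 * (a ^ 2 + b ^ 2 + (c ^ 2 + d ^ 2)) := by
  calc x ^ 2 ≤ (a + b + (c + d)) ^ 2 := by gcongr
    _ ≤ 4 * ((a + b) ^ 2 + (c + d) ^ 2) := tseq_sq _ _
    _ ≤ 4 * (4 * (a ^ 2 + b ^ 2) + 4 * (c ^ 2 + d ^ 2)) := by
      gcongr
      · exact tseq_sq _ _
      · exact tseq_sq _ _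
    _ = 16 * (a ^ 2 + b ^ 2 + (c ^ 2 + d ^ 2)) := by
      rw [← mul_add, ← mul_assoc]
      norm_num

private theorem tseq_ftX_sub {r : ℝ} {W W' : HS} (h : W ∈ HB r) (h' : W' ∈ HB r) (η : E3) :
    ftX W η = ftX W' η + ftX (W - W') η := by
  have hi := HB_integrable h
  have hi' := HB_integrable h'
  have hs := HB_integrable ((HB r).sub_mem h h')
  rw [ftX_apply hs, ftX_apply hi, ftX_apply hi', Real.fourier_eq, Real.fourier_eq,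
    Real.fourier_eq, ← integral_add ((Real.fourierIntegral_convergent_iff η).2 hi')
      ((Real.fourierIntegral_convergent_iff η).2 hs)]
  apply integral_congr_ae
  filter_upwards [Lp.coeFn_sub W W'] with x hx
  rw [hx, Pi.sub_apply, ← smul_add]
  congr 1
  ring

private theorem tseq_meas (W : HS) : Measurable fun ξ : E3 => ‖ftX W (-(2 : ℝ) • ξ)‖ₑ ^ 2 := by
  have h : Measurable fun ξ : E3 => ftX W (-(2 : ℝ) • ξ) :=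
    (ftX W).continuous.measurable.comp (measurable_const_smul _)
  exact h.enorm.pow_const 2

private theorem tseq_le {r : ℝ} {W : HS} (hW : W ∈ HB r) :
    ∫⁻ ξ : E3, ‖ftX W (-(2 : ℝ) • ξ)‖ₑ ^ 2 ≤ ‖W‖ₑ ^ 2 := by
  have hm : Measurable fun ξ : E3 => ‖ftX W ξ‖ₑ ^ 2 :=
    (ftX W).continuous.measurable.enorm.pow_const 2
  rw [← ftX_sqW hW, J1E hm]
  exact le_mul_of_one_le_left (by positivity) (by norm_num)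

private theorem tseq_tail {f : E3 → ℝ≥0∞} (hfin : ∫⁻ ξ, f ξ ≠ ∞) :
    Tendsto (fun n : ℕ => ∫⁻ ξ in {ξ : E3 | (n : ℝ) ≤ ‖ξ‖}, f ξ) atTop (𝓝 0) := by
  have hms : ∀ n : ℕ, MeasurableSet {ξ : E3 | (n : ℝ) ≤ ‖ξ‖} := fun n =>
    measurableSet_le measurable_const measurable_norm
  have h1 := tendsto_measure_iInter_atTop (μ := (volume : Measure E3).withDensity f)
    (s := fun n : ℕ => {ξ : E3 | (n : ℝ) ≤ ‖ξ‖}) (fun n => (hms n).nullMeasurableSet)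
    (by
      intro m n hmn ξ hξ
      have h3 : (n : ℝ) ≤ ‖ξ‖ := hξ
      exact le_trans (Nat.cast_le.2 hmn) h3)
    ⟨0, by
      rw [withDensity_apply _ (hms 0)]
      exact (lt_of_le_of_lt (setLIntegral_le_lintegral _ _) (lt_top_iff_ne_top.2 hfin)).ne⟩
  have h2 : (⋂ n : ℕ, {ξ : E3 | (n : ℝ) ≤ ‖ξ‖}) = ∅ := by
    ext ξ
    simp only [mem_iInter, mem_ofPred_eq, mem_empty_iff_false, iff_false, not_forall, not_le]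
    exact exists_nat_gt ‖ξ‖
  rw [h2, measure_empty] at h1
  refine h1.congr fun n => ?_
  rw [Function.comp_apply, withDensity_apply _ (hms n)]

theorem tseq {s : ℝ} (h0 : 3 / 4 < s) (h2 : s < 2) (h1 : s ≠ 1) {r : ℝ} (hr : 0 < r)
    {M K : ℝ} (hK : KOK s r M K) {V₁ V₁' V₂ V₂' : ℕ → E3 → ℂ} (hV₁ : ∀ n, IsPot r M (V₁ n))
    (hV₁' : ∀ n, IsPot r M (V₁' n)) (hV₂ : ∀ n, IsPot r M (V₂ n)) (hV₂' : ∀ n, IsPot r M (V₂' n))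
    {w ε : ℕ → HS} (hw : ∀ n, w n ∈ HB r) (hε : ∀ n, ε n ∈ HB r) {A : ℝ} (hA : ∀ n, ‖w n‖ ≤ A)
    {ε₀ : HS} (hε₀ : Tendsto ε atTop (𝓝 ε₀))
    (hid : ∀ (n : ℕ) (ξ : E3), K < ‖ξ‖ → A3 (w n) (UA s r (V₂ n) ξ) (UA s r (V₂' n) ξ) =
      A3 (ε n) (UA s r (V₁ n) ξ) (UA s r (V₁' n) ξ)) :
    ∃ φ : ℕ → ℕ, StrictMono φ ∧ ∃ w₀ ∈ HB r, Tendsto (w ∘ φ) atTop (𝓝 w₀) := by
  -- the limit is in `HB r`
  have hclosed : IsClosed ((HB r : Submodule ℂ HS) : Set HS) :=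
    ContinuousLinearMap.isClosed_ker (1 - mulL (indB r) : HS →L[ℂ] HS)
  have hε₀m : ε₀ ∈ HB r := hclosed.mem_of_tendsto hε₀ (Eventually.of_forall hε)
  obtain ⟨A', hA'⟩ := hε₀.norm.bddAbove_range
  have hA' : ∀ n, ‖ε n‖ ≤ A' := fun n => hA' (mem_range_self n)
  obtain ⟨C, γ, hC, hγ, ht⟩ := tight h0 h2 h1 hr hK
  refine cmpct hr hw hA fun e he => ?_
  have he' : (0 : ℝ) < e / 64 := by positivity
  -- choice of `N`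
  have hfin : ∫⁻ ξ : E3, ‖ftX ε₀ (-(2 : ℝ) • ξ)‖ₑ ^ 2 ≠ ∞ :=
    (lt_of_le_of_lt (tseq_le hε₀m) (ENNReal.pow_lt_top enorm_lt_top)).ne
  have hN1 : ∀ᶠ n : ℕ in atTop, ∫⁻ ξ in {ξ : E3 | (n : ℝ) ≤ ‖ξ‖},
      ‖ftX ε₀ (-(2 : ℝ) • ξ)‖ₑ ^ 2 ≤ ENNReal.ofReal (e / 64) :=
    (tseq_tail hfin).eventually_le_const (ENNReal.ofReal_pos.2 he')
  have hN2 : ∀ B : ℝ, ∀ᶠ n : ℕ in atTop, C * (n : ℝ) ^ (-γ) * B ^ 2 ≤ e / 64 := by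
    intro B
    have h3 : Tendsto (fun n : ℕ => C * (n : ℝ) ^ (-γ) * B ^ 2) atTop (𝓝 (C * 0 * B ^ 2)) :=
      (((tendsto_rpow_neg_atTop hγ).comp tendsto_natCast_atTop_atTop).const_mul C).mul_const _
    rw [mul_zero, zero_mul] at h3
    exact h3.eventually_le_const he'
  have hN3 : ∀ᶠ n : ℕ in atTop, K < (n : ℝ) := tendsto_natCast_atTop_atTop.eventually_gt_atTop K
  obtain ⟨N, hNa, hNb, hNc, hNd⟩ := (hN1.and ((hN2 A).and ((hN2 A').and hN3))).exists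
  refine ⟨N, ?_⟩
  have hms : MeasurableSet {ξ : E3 | (N : ℝ) ≤ ‖ξ‖} :=
    measurableSet_le measurable_const measurable_norm
  -- `ε n → ε₀`
  have hn1 : ∀ᶠ n : ℕ in atTop, ‖ε n - ε₀‖ₑ ^ 2 ≤ ENNReal.ofReal (e / 64) := by
    have h3 : Tendsto (fun n => ‖ε n - ε₀‖ ^ 2) atTop (𝓝 (0 ^ 2)) :=
      (tendsto_iff_norm_sub_tendsto_zero.1 hε₀).pow 2
    rw [zero_pow two_ne_zero] at h3
    filter_upwards [h3.eventually_le_const he'] with n hn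
    rw [← ofReal_norm, ← ENNReal.ofReal_pow (norm_nonneg _)]
    exact ENNReal.ofReal_le_ofReal hn
  filter_upwards [hn1] with n hn
  obtain ⟨Gw, mGw, bGw, iGw⟩ := ht N hNd.le (V₂ n) (V₂' n) (hV₂ n) (hV₂' n) (w n) (hw n)
  obtain ⟨Ge, mGe, bGe, iGe⟩ := ht N hNd.le (V₁ n) (V₁' n) (hV₁ n) (hV₁' n) (ε n) (hε n)
  have hpow : (0 : ℝ) ≤ C * (N : ℝ) ^ (-γ) := mul_nonneg hC (Real.rpow_nonneg (Nat.cast_nonneg _) _)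
  have i3 : ∫⁻ ξ in {ξ : E3 | (N : ℝ) ≤ ‖ξ‖}, Gw ξ ^ 2 ≤ ENNReal.ofReal (e / 64) := by
    refine iGw.trans (ENNReal.ofReal_le_ofReal (le_trans ?_ hNb))
    exact mul_le_mul_of_nonneg_left (pow_le_pow_left₀ (norm_nonneg _) (hA n) 2) hpow
  have i4 : ∫⁻ ξ in {ξ : E3 | (N : ℝ) ≤ ‖ξ‖}, Ge ξ ^ 2 ≤ ENNReal.ofReal (e / 64) := by
    refine iGe.trans (ENNReal.ofReal_le_ofReal (le_trans ?_ hNc))
    exact mul_le_mul_of_nonneg_left (pow_le_pow_left₀ (norm_nonneg _) (hA' n) 2) hpow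
  have i2 : ∫⁻ ξ in {ξ : E3 | (N : ℝ) ≤ ‖ξ‖}, ‖ftX (ε n - ε₀) (-(2 : ℝ) • ξ)‖ₑ ^ 2 ≤
      ENNReal.ofReal (e / 64) :=
    ((setLIntegral_le_lintegral _ _).trans (tseq_le ((HB r).sub_mem (hε n) hε₀m))).trans hn
  have hpt : ∀ ξ : E3, (N : ℝ) ≤ ‖ξ‖ → ‖ftX (w n) (-(2 : ℝ) • ξ)‖ₑ ≤
      ‖ftX ε₀ (-(2 : ℝ) • ξ)‖ₑ + ‖ftX (ε n - ε₀) (-(2 : ℝ) • ξ)‖ₑ + (Gw ξ + Ge ξ) := by
    intro ξ hξ
    have e1 : ftX (w n) (-(2 : ℝ) • ξ) = (ftX ε₀ (-(2 : ℝ) • ξ) +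
        ftX (ε n - ε₀) (-(2 : ℝ) • ξ)) +
        (-(A3 (w n) (UA s r (V₂ n) ξ) (UA s r (V₂' n) ξ) - ftX (w n) (-(2 : ℝ) • ξ)) +
        (A3 (ε n) (UA s r (V₁ n) ξ) (UA s r (V₁' n) ξ) - ftX (ε n) (-(2 : ℝ) • ξ))) := by
      rw [hid n ξ (lt_of_lt_of_le hNd hξ), tseq_ftX_sub (hε n) hε₀m]
      ring
    calc ‖ftX (w n) (-(2 : ℝ) • ξ)‖ₑ = ‖(ftX ε₀ (-(2 : ℝ) • ξ) +
        ftX (ε n - ε₀) (-(2 : ℝ) • ξ)) +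
        (-(A3 (w n) (UA s r (V₂ n) ξ) (UA s r (V₂' n) ξ) - ftX (w n) (-(2 : ℝ) • ξ)) +
        (A3 (ε n) (UA s r (V₁ n) ξ) (UA s r (V₁' n) ξ) - ftX (ε n) (-(2 : ℝ) • ξ)))‖ₑ := by
          rw [← e1]
      _ ≤ ‖ftX ε₀ (-(2 : ℝ) • ξ) + ftX (ε n - ε₀) (-(2 : ℝ) • ξ)‖ₑ +
        ‖-(A3 (w n) (UA s r (V₂ n) ξ) (UA s r (V₂' n) ξ) - ftX (w n) (-(2 : ℝ) • ξ)) +
        (A3 (ε n) (UA s r (V₁ n) ξ) (UA s r (V₁' n) ξ) - ftX (ε n) (-(2 : ℝ) • ξ))‖ₑ :=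
          enorm_add_le _ _
      _ ≤ (‖ftX ε₀ (-(2 : ℝ) • ξ)‖ₑ + ‖ftX (ε n - ε₀) (-(2 : ℝ) • ξ)‖ₑ) +
        (‖-(A3 (w n) (UA s r (V₂ n) ξ) (UA s r (V₂' n) ξ) - ftX (w n) (-(2 : ℝ) • ξ))‖ₑ +
        ‖A3 (ε n) (UA s r (V₁ n) ξ) (UA s r (V₁' n) ξ) - ftX (ε n) (-(2 : ℝ) • ξ)‖ₑ) :=
          add_le_add (enorm_add_le _ _) (enorm_add_le _ _)
      _ ≤ ‖ftX ε₀ (-(2 : ℝ) • ξ)‖ₑ + ‖ftX (ε n - ε₀) (-(2 : ℝ) • ξ)‖ₑ + (Gw ξ + Ge ξ) := by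
          rw [enorm_neg]
          exact add_le_add le_rfl (add_le_add (bGw ξ hξ) (bGe ξ hξ))
  calc ∫⁻ ξ in {ξ : E3 | (N : ℝ) ≤ ‖ξ‖}, ‖ftX (w n) (-(2 : ℝ) • ξ)‖ₑ ^ 2 ≤
      ∫⁻ ξ in {ξ : E3 | (N : ℝ) ≤ ‖ξ‖}, 16 * (‖ftX ε₀ (-(2 : ℝ) • ξ)‖ₑ ^ 2 +
        ‖ftX (ε n - ε₀) (-(2 : ℝ) • ξ)‖ₑ ^ 2 + (Gw ξ ^ 2 + Ge ξ ^ 2)) :=
        setLIntegral_mono' hms fun ξ hξ => tseq_sq4 (hpt ξ hξ)
    _ = 16 * ((∫⁻ ξ in {ξ : E3 | (N : ℝ) ≤ ‖ξ‖}, ‖ftX ε₀ (-(2 : ℝ) • ξ)‖ₑ ^ 2) +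
        (∫⁻ ξ in {ξ : E3 | (N : ℝ) ≤ ‖ξ‖}, ‖ftX (ε n - ε₀) (-(2 : ℝ) • ξ)‖ₑ ^ 2) +
        ((∫⁻ ξ in {ξ : E3 | (N : ℝ) ≤ ‖ξ‖}, Gw ξ ^ 2) +
        (∫⁻ ξ in {ξ : E3 | (N : ℝ) ≤ ‖ξ‖}, Ge ξ ^ 2))) := by
        have m1 : Measurable fun ξ : E3 => Gw ξ ^ 2 := mGw.pow_const 2
        have m2 : Measurable fun ξ : E3 => Gw ξ ^ 2 + Ge ξ ^ 2 := m1.add (mGe.pow_const 2)
        rw [lintegral_const_mul' _ _ (by norm_num), lintegral_add_right _ m2,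
          lintegral_add_left (tseq_meas ε₀), lintegral_add_left m1]
    _ ≤ 16 * (ENNReal.ofReal (e / 64) + ENNReal.ofReal (e / 64) +
        (ENNReal.ofReal (e / 64) + ENNReal.ofReal (e / 64))) := by gcongr
    _ = ENNReal.ofReal e := by
        rw [← ENNReal.ofReal_add he'.le he'.le, ← ENNReal.ofReal_add (by positivity)
          (by positivity), show (16 : ℝ≥0∞) = ENNReal.ofReal 16 by simp,
          ← ENNReal.ofReal_mul (by norm_num)]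
        congr 1
        ring

end FracScatC

end
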