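import Pool.Agent.Lib.MP_6e2ba5_an.Dx.KerTP
import Pool.Agent.Lib.MP_6e2ba5_an.Dx.KerTN

/-! # The kernel of the linearised problem is trivial for generic multiples -/

set_option autoImplicit false

open MeasureTheory Filter Topology Set
open scoped FourierTransform SchwartzMap InnerProductSpace ENNReal BoundedContinuousFunction

noncomputable section

namespace FracScatC

open FracScat

theorem ker_scale {s r M : ℝ} (h0 : 3 / 4 < s) (h2 : s < 2) (h1 : s ≠ 1) (hr : 0 < r)
    {V : E3 → ℂ} (hV : IsPot r M V) (T K : ℝ) :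
    ∃ S : Set ℂ, S.Finite ∧ (0 : ℂ) ∉ S ∧ ∀ t : ℂ, ‖t‖ ≤ T → t ∉ S → ∀ W ∈ HB r,
      (∀ ξ : E3, K < ‖ξ‖ → A3 W (UA s r (fun x => t * V x) ξ) (UA s r (fun x => t * V x) ξ) = 0) →
      W = 0 := by
  rcases lt_or_gt_of_ne h1 with h | h
  · obtain ⟨S, hS, hS0, hh⟩ := ker_scaleN h0 h hr hV hV T K
    refine ⟨S, hS, hS0, fun t ht htS W hW hA => hh t ht htS W hW fun ξ hξ => ?_⟩
    have := hA ξ hξ
    have e : UA s r (fun x => t * V x) ξ = UN s r (fun x => t * V x) ξ := by
      rw [UA, UK, AR, if_neg (by linarith)]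
      rfl
    rwa [e] at this
  · obtain ⟨S, hS, hS0, hh⟩ := ker_scaleP h0 h2 h hr hV hV T K
    refine ⟨S, hS, hS0, fun t ht htS W hW hA => hh t ht htS W hW fun ξ hξ => ?_⟩
    have := hA ξ hξ
    have e : UA s r (fun x => t * V x) ξ = UX s r (fun x => t * V x) ξ := by
      rw [UA, UK, AR, if_pos h]
      rfl
    rwa [e] at this

end FracScatC

end
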