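import Pool.Agent.Lib.MP_6e2ba5_an.Dx.Defs

/-! # Supports from the decay of Laplace transforms

`laplace_half`. With `ψ_N(x) = 1 - exp(-exp(N (u - a·x))) = ∑_{k ≥ 1} (-1)^(k-1)/k! · exp(k N (u - a·x))` (`N ∈ ℕ` large,
the series converges uniformly on the ball, where `a·x` is bounded; outside of the ball `f = 0`)
`|∫ f ψ_N| ≤ ∑_{k ≥ 1} 1/k! · exp(kNu) C exp(-kNc) ≤ C (exp(exp(-N(c-u))) - 1) → 0`, and `ψ_N → 1` on `{a·x < u}`,
`ψ_N → 0` on `{a·x > u}`, `0 ≤ ψ_N ≤ 1`, `{a·x = u}` is a null set as `a ≠ 0`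
(`Measure.addHaar_affineSubspace` or the like). Dominated convergence.
`expo_inj`: for each `ξ` the function `t ↦ ∫ f(x) exp(-t ξ·x) dx` is entire and vanishes for real `t`, so it vanishes at
`t = 2πi`: `𝓕 f = 0`, so `f = 0` a.e. (`f` integrable with zero Fourier transform; a uniqueness theorem for the Fourier
transform is in Mathlib, or use test functions as in `FTfacts.lean`).
`laplace_zero`: by `laplace_half` for `f(x) exp(-b·x)`: `∫_{a·x < u} f(x) exp(-b·x) dx = 0` for all `b`, `u < c`; so by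
`expo_inj` for `1_{a·x<u} f` it vanishes a.e.; take `u = c - 1/n`. -/

set_option autoImplicit false

open MeasureTheory Filter Topology Set
open scoped FourierTransform SchwartzMap InnerProductSpace ENNReal BoundedContinuousFunction

noncomputable section

namespace FracScatC

open FracScat

private theorem null_plane {a : E3} (ha : a ≠ 0) (u : ℝ) :
    (volume : Measure E3) {x : E3 | ⟪a, x⟫_ℝ = u} = 0 := by
  let S : AffineSubspace ℝ E3 :=
    { carrier := {x | ⟪a, x⟫_ℝ = u}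
      smul_vsub_vadd_mem' := by
        intro c p q w hp hq hw
        have hp' : ⟪a, p⟫_ℝ = u := hp
        have hq' : ⟪a, q⟫_ℝ = u := hq
        have hw' : ⟪a, w⟫_ℝ = u := hw
        change ⟪a, c • (p - q) + w⟫_ℝ = u
        rw [inner_add_right, inner_smul_right, inner_sub_right, hp', hq', hw']
        ring }
  have hS : S ≠ ⊤ := by
    intro h
    have h0 : (0 : E3) ∈ S := by rw [h]; trivial
    have h1 : a ∈ S := by rw [h]; trivial
    have h0' : ⟪a, (0 : E3)⟫_ℝ = u := h0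
    have h1' : ⟪a, a⟫_ℝ = u := h1
    rw [inner_zero_right] at h0'
    rw [← h0'] at h1'
    exact ha (inner_self_eq_zero.1 h1')
  exact Measure.addHaar_affineSubspace volume S hS

/-- `f` times a function bounded on the ball -/
private theorem int_mul {f : E3 → ℂ} (hf : Integrable f) {r : ℝ}
    (hfr : ∀ᵐ x ∂(volume : Measure E3), r ≤ ‖x‖ → f x = 0) {g : E3 → ℂ} (hg : Continuous g)
    {M : ℝ} (hM : ∀ x, ‖x‖ < r → ‖g x‖ ≤ M) :
    Integrable (fun x => f x * g x) ∧ ∫ x, ‖f x * g x‖ ≤ (∫ x, ‖f x‖) * M := by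
  have hb : ∀ᵐ x ∂(volume : Measure E3), ‖f x * g x‖ ≤ ‖f x‖ * M := by
    filter_upwards [hfr] with x hx
    rcases lt_or_ge ‖x‖ r with h | h
    · rw [norm_mul]
      exact mul_le_mul_of_nonneg_left (hM x h) (norm_nonneg _)
    · rw [hx h]
      simp
  have hi : Integrable (fun x => f x * g x) :=
    (hf.norm.mul_const M).mono' (hf.aestronglyMeasurable.mul hg.aestronglyMeasurable) hb
  refine ⟨hi, ?_⟩
  rw [← integral_mul_const]
  exact integral_mono_ae hi.norm (hf.norm.mul_const M) hb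

private theorem exp_series (y : ℝ) :
    HasSum (fun k : ℕ => y ^ (k + 1) / ((k + 1).factorial : ℝ)) (Real.exp y - 1) := by
  have h := NormedSpace.expSeries_div_hasSum_exp (𝔸 := ℝ) y
  rw [← Real.exp_eq_exp_ℝ] at h
  have h2 := (hasSum_nat_add_iff' (f := fun n : ℕ => y ^ n / (n.factorial : ℝ)) 1).2 h
  simpa using h2

private theorem inner_bd {a x : E3} {r : ℝ} (hx : ‖x‖ < r) : |⟪a, x⟫_ℝ| ≤ ‖a‖ * r :=
  (abs_real_inner_le_norm a x).trans (mul_le_mul_of_nonneg_left hx.le (norm_nonneg a))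

theorem laplace_half {f : E3 → ℂ} (hf : Integrable f) {r : ℝ}
    (hfr : ∀ᵐ x ∂(volume : Measure E3), r ≤ ‖x‖ → f x = 0) {a : E3} (ha : a ≠ 0) {c C t₀ : ℝ}
    (h : ∀ t : ℝ, t₀ ≤ t → ‖∫ x, f x * ((Real.exp (-(t * ⟪a, x⟫_ℝ)) : ℝ) : ℂ)‖ ≤
      C * Real.exp (-(t * c))) {u : ℝ} (hu : u < c) :
    ∫ x in {x : E3 | ⟪a, x⟫_ℝ < u}, f x = 0 := by
  have hms : MeasurableSet {x : E3 | ⟪a, x⟫_ℝ < u} :=
    measurableSet_lt (by fun_prop) measurable_const
  -- the approximations
  let z : ℕ → E3 → ℝ := fun N x => Real.exp (N * (u - ⟪a, x⟫_ℝ))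
  have hz : ∀ N, Continuous (z N) := by
    intro N
    change Continuous fun x : E3 => Real.exp (N * (u - ⟪a, x⟫_ℝ))
    fun_prop
  have hzpos : ∀ N x, 0 < z N x := fun N x => Real.exp_pos _
  have hlim : Tendsto (fun N : ℕ => ∫ x, f x * ((1 - Real.exp (-(z N x)) : ℝ) : ℂ)) atTop
      (𝓝 (∫ x, {x : E3 | ⟪a, x⟫_ℝ < u}.indicator f x)) := by
    refine tendsto_integral_of_dominated_convergence (fun x => ‖f x‖) ?_ hf.norm ?_ ?_
    · intro N
      have hc : Continuous fun x : E3 => ((1 - Real.exp (-(z N x)) : ℝ) : ℂ) := by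
        have := hz N
        fun_prop
      exact hf.aestronglyMeasurable.mul hc.aestronglyMeasurable
    · intro N
      refine Eventually.of_forall fun x => ?_
      rw [norm_mul]
      have h1 : ‖((1 - Real.exp (-(z N x)) : ℝ) : ℂ)‖ ≤ 1 := by
        rw [Complex.norm_real, Real.norm_eq_abs, abs_le]
        have h2 : Real.exp (-(z N x)) ≤ 1 := Real.exp_le_one_iff.2 (by linarith [hzpos N x])
        have h3 := Real.exp_pos (-(z N x))
        constructor <;> linarith
      exact mul_le_of_le_one_right (norm_nonneg _) h1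
    · have hn : ∀ᵐ x ∂(volume : Measure E3), ¬ ⟪a, x⟫_ℝ = u := by
        rw [ae_iff]
        simpa using null_plane ha u
      filter_upwards [hn] with x hx
      rcases lt_or_gt_of_ne hx with h1 | h1
      · have h2 : {x : E3 | ⟪a, x⟫_ℝ < u}.indicator f x = f x * ((1 - 0 : ℝ) : ℂ) := by
          rw [indicator_of_mem (show x ∈ {x : E3 | ⟪a, x⟫_ℝ < u} from h1)]
          simp
        rw [h2]
        refine Tendsto.const_mul _ ?_
        refine (Complex.continuous_ofReal.tendsto _).comp ?_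
        refine Tendsto.const_sub _ ?_
        refine Real.tendsto_exp_atBot.comp ?_
        refine tendsto_neg_atTop_atBot.comp ?_
        refine Real.tendsto_exp_atTop.comp ?_
        exact (tendsto_natCast_atTop_atTop).atTop_mul_const (by linarith)
      · have h2 : {x : E3 | ⟪a, x⟫_ℝ < u}.indicator f x = f x * ((1 - Real.exp (-0) : ℝ) : ℂ) := by
          rw [indicator_of_notMem (show ¬ x ∈ {x : E3 | ⟪a, x⟫_ℝ < u} from fun h => by
            have : ⟪a, x⟫_ℝ < u := h
            linarith)]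
          simp
        rw [h2]
        refine Tendsto.const_mul _ ?_
        refine (Complex.continuous_ofReal.tendsto _).comp ?_
        refine Tendsto.const_sub _ ?_
        refine (Real.continuous_exp.tendsto _).comp ?_
        refine Tendsto.neg ?_
        refine Real.tendsto_exp_atBot.comp ?_
        exact (tendsto_natCast_atTop_atTop).atTop_mul_const_of_neg (by linarith)
  rw [integral_indicator hms] at hlim
  -- the bound
  have hzero : Tendsto (fun N : ℕ => ∫ x, f x * ((1 - Real.exp (-(z N x)) : ℝ) : ℂ)) atTop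
      (𝓝 0) := by
    have hq : Tendsto (fun N : ℕ => C * (Real.exp (Real.exp (-((N : ℝ) * (c - u)))) - 1)) atTop
        (𝓝 0) := by
      have h1 : Tendsto (fun N : ℕ => Real.exp (-((N : ℝ) * (c - u)))) atTop (𝓝 0) := by
        refine Real.tendsto_exp_atBot.comp ?_
        refine tendsto_neg_atTop_atBot.comp ?_
        exact (tendsto_natCast_atTop_atTop).atTop_mul_const (by linarith)
      have h2 := ((Real.continuous_exp.tendsto 0).comp h1)
      have h3 := (h2.sub_const 1).const_mul C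
      simpa using h3
    refine squeeze_zero_norm' ?_ hq
    obtain ⟨N₀, hN₀⟩ := exists_nat_ge t₀
    filter_upwards [eventually_ge_atTop (max N₀ 1)] with N hN
    have hN1 : (1 : ℝ) ≤ N := by exact_mod_cast (le_max_right _ _).trans hN
    have hN2 : t₀ ≤ N := hN₀.trans (by exact_mod_cast (le_max_left _ _).trans hN)
    -- the series
    let F : ℕ → E3 → ℂ := fun k x =>
      f x * ((-((-(z N x)) ^ (k + 1) / ((k + 1).factorial : ℝ)) : ℝ) : ℂ)
    set M : ℝ := Real.exp (N * (|u| + ‖a‖ * r)) with hMdef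
    have hzM : ∀ x, ‖x‖ < r → z N x ≤ M := by
      intro x hx
      refine Real.exp_le_exp.2 (mul_le_mul_of_nonneg_left ?_ (by linarith))
      have h1 := inner_bd (a := a) hx
      have h2 := neg_abs_le (⟪a, x⟫_ℝ)
      have h3 := le_abs_self u
      linarith
    have hF : ∀ k, Integrable (F k) ∧
        ∫ x, ‖F k x‖ ≤ (∫ x, ‖f x‖) * (M ^ (k + 1) / ((k + 1).factorial : ℝ)) := by
      intro k
      refine int_mul hf hfr ?_ ?_
      · have := hz N
        fun_prop
      · intro x hx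
        rw [Complex.norm_real, norm_neg, Real.norm_eq_abs, abs_div, abs_pow, abs_neg,
          abs_of_pos (hzpos N x), Nat.abs_cast]
        exact div_le_div_of_nonneg_right
          (pow_le_pow_left₀ (hzpos N x).le (hzM x hx) _) (Nat.cast_nonneg _)
    have hsum : Summable fun k => ∫ x, ‖F k x‖ := by
      refine Summable.of_nonneg_of_le (fun k => integral_nonneg fun x => norm_nonneg _)
        (fun k => (hF k).2) ?_
      exact (exp_series M).summable.mul_left _
    have hs := hasSum_integral_of_summable_integral_norm (fun k => (hF k).1) hsum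
    have hFs : ∀ x, ∑' k, F k x = f x * ((1 - Real.exp (-(z N x)) : ℝ) : ℂ) := by
      intro x
      have h1 := (exp_series (-(z N x))).neg
      have h2 : HasSum (fun k => ((-((-(z N x)) ^ (k + 1) / ((k + 1).factorial : ℝ)) : ℝ) : ℂ))
          ((-(Real.exp (-(z N x)) - 1) : ℝ) : ℂ) := Complex.hasSum_ofReal.2 h1
      rw [neg_sub] at h2
      exact (h2.mul_left (f x)).tsum_eq
    simp_rw [hFs] at hs
    rw [← hs.tsum_eq]
    set q : ℝ := Real.exp (-((N : ℝ) * (c - u))) with hqdef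
    refine tsum_of_norm_bounded ((exp_series q).mul_left C) ?_
    intro k
    have hk : t₀ ≤ ((k : ℝ) + 1) * N := by
      have h1 : (0 : ℝ) ≤ (k : ℝ) := Nat.cast_nonneg k
      nlinarith
    have h1 := h (((k : ℝ) + 1) * N) hk
    have h2 : ∀ x, F k x = ((-((-1 : ℝ) ^ (k + 1) * Real.exp (((k : ℝ) + 1) * N * u) /
        ((k + 1).factorial : ℝ)) : ℝ) : ℂ) *
        (f x * ((Real.exp (-(((k : ℝ) + 1) * N * ⟪a, x⟫_ℝ)) : ℝ) : ℂ)) := by
      intro x
      have h3 : (-(z N x)) ^ (k + 1) = (-1 : ℝ) ^ (k + 1) * Real.exp (((k : ℝ) + 1) * N * u) *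
          Real.exp (-(((k : ℝ) + 1) * N * ⟪a, x⟫_ℝ)) := by
        rw [neg_pow, mul_assoc, ← Real.exp_add, ← Real.exp_nat_mul]
        congr 2
        push_cast
        ring
      change f x * ((-((-(z N x)) ^ (k + 1) / ((k + 1).factorial : ℝ)) : ℝ) : ℂ) = _
      rw [h3]
      push_cast
      ring
    simp_rw [h2]
    rw [integral_const_mul, norm_mul, Complex.norm_real, norm_neg, Real.norm_eq_abs, abs_div,
      abs_mul, abs_pow, abs_neg, abs_one, one_pow, one_mul, abs_of_pos (Real.exp_pos _),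
      Nat.abs_cast]
    calc Real.exp (((k : ℝ) + 1) * N * u) / ((k + 1).factorial : ℝ) *
          ‖∫ x, f x * ((Real.exp (-(((k : ℝ) + 1) * N * ⟪a, x⟫_ℝ)) : ℝ) : ℂ)‖
        ≤ Real.exp (((k : ℝ) + 1) * N * u) / ((k + 1).factorial : ℝ) *
          (C * Real.exp (-(((k : ℝ) + 1) * N * c))) :=
        mul_le_mul_of_nonneg_left h1 (by positivity)
      _ = C * (q ^ (k + 1) / ((k + 1).factorial : ℝ)) := by
        have h4 : q ^ (k + 1) = Real.exp (((k : ℝ) + 1) * N * u) *
            Real.exp (-(((k : ℝ) + 1) * N * c)) := by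
          rw [hqdef, ← Real.exp_add, ← Real.exp_nat_mul]
          congr 1
          push_cast
          ring
        rw [h4]
        ring
  exact tendsto_nhds_unique hlim hzero

private theorem expo_deriv {f : E3 → ℂ} (hf : Integrable f) {r : ℝ}
    (hfr : ∀ᵐ x ∂(volume : Measure E3), r ≤ ‖x‖ → f x = 0) (ξ : E3) :
    Differentiable ℂ fun z : ℂ => ∫ x, f x * Complex.exp (-(z * ((⟪ξ, x⟫_ℝ : ℝ) : ℂ))) := by
  intro z₀
  have hexp : ∀ z : ℂ, Continuous fun x : E3 => Complex.exp (-(z * ((⟪ξ, x⟫_ℝ : ℝ) : ℂ))) := by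
    intro z
    fun_prop
  have hbd : ∀ z ∈ Metric.ball z₀ 1, ∀ x : E3, ‖x‖ < r →
      ‖Complex.exp (-(z * ((⟪ξ, x⟫_ℝ : ℝ) : ℂ)))‖ ≤ Real.exp ((‖z₀‖ + 1) * (‖ξ‖ * r)) := by
    intro z hz x hx
    rw [Complex.norm_exp]
    refine Real.exp_le_exp.2 ((Complex.re_le_norm _).trans ?_)
    rw [norm_neg, norm_mul, Complex.norm_real, Real.norm_eq_abs]
    have h1 : ‖z‖ ≤ ‖z₀‖ + 1 := by
      have h2 : ‖z - z₀‖ < 1 := by
        rw [← dist_eq_norm]
        exact hz
      have h3 := norm_add_le z₀ (z - z₀)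
      rw [add_sub_cancel] at h3
      linarith
    have h4 := inner_bd (a := ξ) hx
    exact mul_le_mul h1 h4 (abs_nonneg _) (by positivity)
  have hmain := hasDerivAt_integral_of_dominated_loc_of_deriv_le (μ := (volume : Measure E3))
    (𝕜 := ℂ) (x₀ := z₀) (s := Metric.ball z₀ 1)
    (F := fun z x => f x * Complex.exp (-(z * ((⟪ξ, x⟫_ℝ : ℝ) : ℂ))))
    (F' := fun z x => f x * (-((⟪ξ, x⟫_ℝ : ℝ) : ℂ) *
      Complex.exp (-(z * ((⟪ξ, x⟫_ℝ : ℝ) : ℂ)))))
    (bound := fun x => ‖f x‖ * ((‖ξ‖ * r) * Real.exp ((‖z₀‖ + 1) * (‖ξ‖ * r))))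
    (Metric.ball_mem_nhds z₀ one_pos) ?_ ?_ ?_ ?_ ?_ ?_
  · exact hmain.2.differentiableAt
  · exact Eventually.of_forall fun z =>
      hf.aestronglyMeasurable.mul (hexp z).aestronglyMeasurable
  · exact (int_mul hf hfr (hexp z₀)
      (fun x hx => hbd z₀ (Metric.mem_ball_self one_pos) x hx)).1
  · have hc : Continuous fun x : E3 => -((⟪ξ, x⟫_ℝ : ℝ) : ℂ) *
        Complex.exp (-(z₀ * ((⟪ξ, x⟫_ℝ : ℝ) : ℂ))) := by
      fun_prop
    exact hf.aestronglyMeasurable.mul hc.aestronglyMeasurable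
  · filter_upwards [hfr] with x hx z hz
    rcases lt_or_ge ‖x‖ r with h | h
    · rw [norm_mul, norm_mul, norm_neg, Complex.norm_real, Real.norm_eq_abs]
      refine mul_le_mul_of_nonneg_left ?_ (norm_nonneg _)
      have h4 := inner_bd (a := ξ) h
      exact mul_le_mul h4 (hbd z hz x h) (norm_nonneg _) ((abs_nonneg _).trans h4)
    · rw [hx h]
      simp
  · exact hf.norm.mul_const _
  · refine Eventually.of_forall fun x z _ => ?_
    have h1 : HasDerivAt (fun z : ℂ => -(z * ((⟪ξ, x⟫_ℝ : ℝ) : ℂ)))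
        (-((⟪ξ, x⟫_ℝ : ℝ) : ℂ)) z := by
      have h2 := ((hasDerivAt_id z).mul_const ((⟪ξ, x⟫_ℝ : ℝ) : ℂ)).neg
      exact h2.congr_deriv (by rw [one_mul])
    have h3 := (h1.cexp).const_mul (f x)
    refine h3.congr_deriv ?_
    ring

private theorem ae_of_schwartz {u v : E3 → ℂ} (hu : LocallyIntegrable u) (hv : LocallyIntegrable v)
    (h : ∀ φ : 𝓢(E3, ℂ), ∫ x, φ x • u x = ∫ x, φ x • v x) : u =ᵐ[volume] v := by
  apply ae_eq_of_integral_contDiff_smul_eq hu hv
  intro g g_smooth g_cpt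
  have hg₁ : HasCompactSupport (Complex.ofRealCLM ∘ g) := g_cpt.comp_left rfl
  have hg₂ : ContDiff ℝ (⊤ : ℕ∞) (Complex.ofRealCLM ∘ g) :=
    Complex.ofRealCLM.contDiff.comp g_smooth
  have := h (hg₁.toSchwartzMap hg₂)
  simpa using this

private theorem flip_schwartz (f : E3 → ℂ) (hf : Integrable f) (φ : 𝓢(E3, ℂ)) :
    ∫ x, φ x • (𝓕 f : E3 → ℂ) x = ∫ x, (𝓕 φ) x • f x := by
  have h := VectorFourier.integral_fourierIntegral_smul_eq_flip (L := innerₗ E3)
      Real.continuous_fourierChar continuous_inner (φ.integrable (μ := volume)) hf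
  rw [flip_innerₗ] at h
  exact h.symm

theorem expo_inj {f : E3 → ℂ} (hf : Integrable f) {r : ℝ}
    (hfr : ∀ᵐ x ∂(volume : Measure E3), r ≤ ‖x‖ → f x = 0)
    (h : ∀ b : E3, ∫ x, f x * ((Real.exp (-⟪b, x⟫_ℝ) : ℝ) : ℂ) = 0) :
    ∀ᵐ x ∂(volume : Measure E3), f x = 0 := by
  have hF : ∀ ξ : E3, 𝓕 f ξ = 0 := by
    intro ξ
    have hd := expo_deriv hf hfr ξ
    have h0 : (fun z : ℂ => ∫ x, f x * Complex.exp (-(z * ((⟪ξ, x⟫_ℝ : ℝ) : ℂ)))) =
        fun _ => 0 := by
      refine AnalyticOnNhd.eq_of_frequently_eq (z₀ := 0) (fun z _ => hd.analyticAt z)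
        (fun z _ => analyticAt_const) ?_
      have hreal : ∀ t : ℝ, ∫ x, f x * Complex.exp (-((t : ℂ) * ((⟪ξ, x⟫_ℝ : ℝ) : ℂ))) = 0 := by
        intro t
        have h1 := h (t • ξ)
        simp_rw [real_inner_smul_left] at h1
        rw [← h1]
        refine integral_congr_ae (Eventually.of_forall fun x => ?_)
        change f x * Complex.exp (-((t : ℂ) * ((⟪ξ, x⟫_ℝ : ℝ) : ℂ))) =
          f x * ((Real.exp (-(t * ⟪ξ, x⟫_ℝ)) : ℝ) : ℂ)
        push_cast
        rfl
      have ht : Tendsto (fun n : ℕ => (((1 / ((n : ℝ) + 1) : ℝ)) : ℂ)) atTop (𝓝[≠] 0) := by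
        refine tendsto_nhdsWithin_iff.2 ⟨?_, Eventually.of_forall fun n => ?_⟩
        · have h1 : Tendsto (fun n : ℕ => ((1 / ((n : ℝ) + 1) : ℝ))) atTop (𝓝 0) :=
            tendsto_one_div_add_atTop_nhds_zero_nat
          have h2 := (Complex.continuous_ofReal.tendsto 0).comp h1
          rw [Complex.ofReal_zero] at h2
          exact h2
        · intro h1
          have h2 : (((1 / ((n : ℝ) + 1) : ℝ)) : ℂ) = 0 := h1
          rw [Complex.ofReal_eq_zero] at h2
          have h3 : (0 : ℝ) < 1 / ((n : ℝ) + 1) := by positivity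
          linarith
      exact ht.frequently (Frequently.of_forall fun n => hreal _)
    have h1 := congrFun h0 (2 * Real.pi * Complex.I)
    rw [Real.fourier_eq']
    rw [← h1]
    refine integral_congr_ae (Eventually.of_forall fun x => ?_)
    change Complex.exp (((-2 * Real.pi * ⟪x, ξ⟫_ℝ : ℝ) : ℂ) * Complex.I) • f x =
      f x * Complex.exp (-(2 * Real.pi * Complex.I * ((⟪ξ, x⟫_ℝ : ℝ) : ℂ)))
    rw [smul_eq_mul, mul_comm, real_inner_comm x ξ]
    congr 2
    push_cast
    ring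
  have h2 : f =ᵐ[volume] fun _ => (0 : ℂ) := by
    refine ae_of_schwartz hf.locallyIntegrable (locallyIntegrable_const 0) ?_
    intro φ
    have h3 := flip_schwartz f hf (𝓕⁻ φ)
    rw [FourierTransform.fourier_fourierInv_eq] at h3
    rw [← h3]
    simp_rw [hF]
    simp
  exact h2

theorem laplace_zero {f : E3 → ℂ} (hf : Integrable f) {r : ℝ}
    (hfr : ∀ᵐ x ∂(volume : Measure E3), r ≤ ‖x‖ → f x = 0) {a : E3} (ha : a ≠ 0) {c : ℝ}
    (h : ∀ b : E3, ∃ C t₀ : ℝ, ∀ t : ℝ, t₀ ≤ t →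
      ‖∫ x, f x * ((Real.exp (-(t * ⟪a, x⟫_ℝ + ⟪b, x⟫_ℝ)) : ℝ) : ℂ)‖ ≤ C * Real.exp (-(t * c))) :
    ∀ᵐ x ∂(volume : Measure E3), ⟪a, x⟫_ℝ < c → f x = 0 := by
  have key : ∀ n : ℕ, ∀ᵐ x ∂(volume : Measure E3),
      {x : E3 | ⟪a, x⟫_ℝ < c - 1 / ((n : ℝ) + 1)}.indicator f x = 0 := by
    intro n
    set u : ℝ := c - 1 / ((n : ℝ) + 1) with hudef
    have hu : u < c := by
      have h3 : (0 : ℝ) < 1 / ((n : ℝ) + 1) := by positivity
      linarith
    have hms : MeasurableSet {x : E3 | ⟪a, x⟫_ℝ < u} :=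
      measurableSet_lt (by fun_prop) measurable_const
    refine expo_inj (r := r) (hf.indicator hms) ?_ ?_
    · filter_upwards [hfr] with x hx hr
      by_cases h1 : x ∈ {x : E3 | ⟪a, x⟫_ℝ < u}
      · rw [indicator_of_mem h1, hx hr]
      · rw [indicator_of_notMem h1]
    · intro b
      obtain ⟨C, t₀, hC⟩ := h b
      have hc : Continuous fun x : E3 => ((Real.exp (-⟪b, x⟫_ℝ) : ℝ) : ℂ) := by fun_prop
      have hint := (int_mul hf hfr hc (M := Real.exp (‖b‖ * r)) (fun x hx => by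
        rw [Complex.norm_real, Real.norm_eq_abs, abs_of_pos (Real.exp_pos _)]
        refine Real.exp_le_exp.2 ?_
        have h1 := inner_bd (a := b) hx
        have h2 := neg_abs_le (⟪b, x⟫_ℝ)
        linarith)).1
      have h5 := laplace_half hint (r := r) (by
        filter_upwards [hfr] with x hx hr
        rw [hx hr, zero_mul]) ha (c := c) (C := C) (t₀ := t₀) (u := u) (by
        intro t ht
        refine le_trans (le_of_eq ?_) (hC t ht)
        congr 1
        refine integral_congr_ae (Eventually.of_forall fun x => ?_)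
        change f x * ((Real.exp (-⟪b, x⟫_ℝ) : ℝ) : ℂ) *
          ((Real.exp (-(t * ⟪a, x⟫_ℝ)) : ℝ) : ℂ) =
          f x * ((Real.exp (-(t * ⟪a, x⟫_ℝ + ⟪b, x⟫_ℝ)) : ℝ) : ℂ)
        rw [mul_assoc, ← Complex.ofReal_mul, ← Real.exp_add]
        congr 3
        ring) hu
      rw [← integral_indicator hms] at h5
      rw [← h5]
      refine integral_congr_ae (Eventually.of_forall fun x => ?_)
      change {x : E3 | ⟪a, x⟫_ℝ < u}.indicator f x * ((Real.exp (-⟪b, x⟫_ℝ) : ℝ) : ℂ) =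
        {x : E3 | ⟪a, x⟫_ℝ < u}.indicator
          (fun x => f x * ((Real.exp (-⟪b, x⟫_ℝ) : ℝ) : ℂ)) x
      by_cases h1 : x ∈ {x : E3 | ⟪a, x⟫_ℝ < u}
      · rw [indicator_of_mem h1, indicator_of_mem h1]
      · rw [indicator_of_notMem h1, indicator_of_notMem h1, zero_mul]
  filter_upwards [ae_all_iff.2 key] with x hx hxc
  obtain ⟨n, hn⟩ := exists_nat_one_div_lt (sub_pos.2 hxc)
  have h1 := hx n
  rwa [indicator_of_mem (show x ∈ {x : E3 | ⟪a, x⟫_ℝ < c - 1 / ((n : ℝ) + 1)} from by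
    change ⟪a, x⟫_ℝ < c - 1 / ((n : ℝ) + 1)
    linarith)] at h1

end FracScatC

end
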