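import Pool.Agent.Lib.MP_6e2ba5_an.Dx.Star
import Pool.Agent.Lib.MP_6e2ba5_an.Dx.LipL
import Pool.Agent.Lib.MP_6e2ba5_an.Dx.DimL
import Pool.Agent.Lib.MP_6e2ba5_an.Dx.KerF
import Pool.Agent.Lib.MP_6e2ba5_an.Dx.GoodP
import Pool.Agent.Lib.MP_6e2ba5_an.Dx.ConeL
import Pool.Agent.Lib.MP_6e2ba5_an.Dx.FCeq

/-! # The local lemma -/

set_option autoImplicit false

open MeasureTheory Filter Topology Set
open scoped FourierTransform SchwartzMap InnerProductSpace ENNReal BoundedContinuousFunction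

noncomputable section

namespace FracScatC

open FracScat

theorem cone_mono {y : E3} {c c' : ℝ} (h : c' ≤ c) : cone y c ⊆ cone y c' := by
  intro x hx
  exact (mul_le_mul_of_nonneg_right h (norm_nonneg _)).trans hx

theorem not_cone_of_lt {y : E3} {c : ℝ} (hc : 0 ≤ c) {x : E3} (h : ⟪dv, x⟫_ℝ < ⟪dv, y⟫_ℝ) :
    x ∉ cone y c := by
  intro hx
  have h1 : c * ‖x - y‖ ≤ ⟪dv, x - y⟫_ℝ := hx
  rw [inner_sub_right] at h1
  have h2 : 0 ≤ c * ‖x - y‖ := by positivity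
  linarith

/-- Points with distinct projections on `dv` in an open set. -/
theorem levels {O : Set E3} (hO : IsOpen O) (hne : O.Nonempty) (N : ℕ) :
    ∃ P : Fin N → Set E3, (∀ i, IsOpen (P i)) ∧ (∀ i, P i ⊆ O) ∧ (∀ i, (P i).Nonempty) ∧
      ∀ i j, ∀ x ∈ P i, ∀ y ∈ P j, ⟪dv, x⟫_ℝ = ⟪dv, y⟫_ℝ → i = j := by
  obtain ⟨p, hp⟩ := hne
  obtain ⟨κ, hκ, hball⟩ := Metric.isOpen_iff.1 hO p hp
  have hN : (0 : ℝ) < N + 1 := by positivity
  set h : ℝ := κ / (N + 1) with hh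
  have hhpos : 0 < h := div_pos hκ hN
  refine ⟨fun i => Metric.ball p κ ∩ {x | ⟪dv, p⟫_ℝ + i * h < ⟪dv, x⟫_ℝ ∧
      ⟪dv, x⟫_ℝ < ⟪dv, p⟫_ℝ + (i + 1) * h}, fun i => ?_, fun i => ?_, fun i => ?_, ?_⟩
  · refine Metric.isOpen_ball.inter ?_
    have hcont : Continuous fun x : E3 => ⟪dv, x⟫_ℝ := by fun_prop
    exact (isOpen_lt continuous_const hcont).inter (isOpen_lt hcont continuous_const)
  · exact inter_subset_left.trans hball
  · have hi : ((i : ℕ) : ℝ) + 1 ≤ N := by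
      have := i.2
      exact_mod_cast this
    have hi0 : (0 : ℝ) ≤ ((i : ℕ) : ℝ) := Nat.cast_nonneg _
    refine ⟨p + (((i : ℕ) : ℝ) + 1 / 2) • h • dv, ?_, ?_, ?_⟩
    · rw [Metric.mem_ball, dist_eq_norm, add_sub_cancel_left, norm_smul, norm_smul, norm_dv,
        mul_one, Real.norm_of_nonneg (by linarith), Real.norm_of_nonneg hhpos.le, hh]
      rw [mul_div_assoc', div_lt_iff₀ hN, mul_comm κ]
      exact mul_lt_mul_of_pos_right (by linarith) hκ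
    · show _ < _
      rw [inner_add_right, inner_smul_right, inner_smul_right, real_inner_self_eq_norm_sq, norm_dv]
      nlinarith
    · show _ < _
      rw [inner_add_right, inner_smul_right, inner_smul_right, real_inner_self_eq_norm_sq, norm_dv]
      nlinarith
  · rintro i j x ⟨_, hx1, hx2⟩ y ⟨_, hy1, hy2⟩ he
    rw [he] at hx1 hx2
    have e1 : (((i : ℕ) : ℝ)) * h < (((j : ℕ) : ℝ) + 1) * h := by linarith
    have e2 : (((j : ℕ) : ℝ)) * h < (((i : ℕ) : ℝ) + 1) * h := by linarith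
    have e3 := lt_of_mul_lt_mul_right e1 hhpos.le
    have e4 := lt_of_mul_lt_mul_right e2 hhpos.le
    have e5 : (i : ℕ) < (j : ℕ) + 1 := by exact_mod_cast e3
    have e6 : (j : ℕ) < (i : ℕ) + 1 := by exact_mod_cast e4
    exact Fin.ext (by omega)

/-- Small cubes at finitely many points of an open set. -/
theorem small_cubes {O : Set E3} (hO : IsOpen O) {y₀ : E3} {N : ℕ} {x : Fin N → E3}
    (hx : ∀ i, x i ∈ O) (hlt : ∀ i, ⟪dv, x i⟫_ℝ < ⟪dv, y₀⟫_ℝ) :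
    ∃ l : ℝ, 0 < l ∧ (∀ i, cube (x i) l ⊆ O) ∧
      ∀ i, ⟪dv, x i⟫_ℝ + Real.sqrt 3 * l < ⟪dv, y₀⟫_ℝ := by
  have h3 : (0 : ℝ) < Real.sqrt 3 := Real.sqrt_pos.2 (by norm_num)
  have hev : ∀ᶠ l : ℝ in 𝓝[>] 0, ∀ i, cube (x i) l ⊆ O ∧
      ⟪dv, x i⟫_ℝ + Real.sqrt 3 * l < ⟪dv, y₀⟫_ℝ := by
    rw [eventually_all]
    intro i
    obtain ⟨κ, hκ, hball⟩ := Metric.isOpen_iff.1 hO (x i) (hx i)
    have hg : 0 < min κ (⟪dv, y₀⟫_ℝ - ⟪dv, x i⟫_ℝ) / Real.sqrt 3 :=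
      div_pos (lt_min hκ (by linarith [hlt i])) h3
    have : ∀ᶠ l : ℝ in 𝓝[>] 0, l < min κ (⟪dv, y₀⟫_ℝ - ⟪dv, x i⟫_ℝ) / Real.sqrt 3 :=
      (eventually_lt_nhds hg).filter_mono nhdsWithin_le_nhds
    filter_upwards [this] with l hl
    rw [lt_div_iff₀ h3] at hl
    refine ⟨fun y hy => hball ?_, ?_⟩
    · rw [Metric.mem_ball, dist_eq_norm]
      calc ‖y - x i‖ ≤ Real.sqrt 3 * l := cube_norm hy
        _ < κ := by
          rw [mul_comm]
          exact lt_of_lt_of_le hl (min_le_left _ _)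
    · have := lt_of_lt_of_le hl (min_le_right _ _)
      rw [mul_comm] at this
      linarith
  obtain ⟨l, h4, h5⟩ := (hev.and self_mem_nhdsWithin).exists
  exact ⟨l, h5, fun i => (h4 i).1, fun i => (h4 i).2⟩

theorem localL {s : ℝ} (h0 : 3 / 4 < s) (h2 : s < 2) (h1 : s ≠ 1) {r : ℝ} (hr : 0 < r)
    {M K : ℝ} (hM : 1 ≤ M) (hK : KOK s r M K) {V₁ V₂ : E3 → ℝ} (hV₁ : IsPot r M (Vc V₁))
    (hV₂ : IsPot r M (Vc V₂)) (hne : ¬ V₁ =ᵐ[volume] V₂) (hSD : SD s r (Vc V₁) (Vc V₂))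
    {y₀ : E3} {c : ℝ} (hy₀ : ‖y₀‖ < r) (hc : 0 < c)
    (hc₁ : ∀ᵐ x ∂(volume : Measure E3), x ∉ cone y₀ c → V₁ x = 0) {ρ : ℝ} (hρ : ρ ≠ 0) {δ₀ : ℝ}
    (hδ₀ : 0 < δ₀) (htip : ∀ᵐ x ∂(volume : Measure E3), ‖x - y₀‖ < δ₀ →
      V₁ x = (oct y₀).indicator (fun _ => ρ) x)
    {O : Set E3} (hO : IsOpen O) (hOne : O.Nonempty) (hOr : ∀ x ∈ O, ‖x‖ < r)
    (hOlt : ∀ x ∈ O, ⟪dv, x⟫_ℝ < ⟪dv, y₀⟫_ℝ) :
    ∃ δ : ℝ, 0 < δ ∧ ∀ V : E3 → ℝ, IsPot r (M - 1) (Vc V) →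
      (∀ᵐ x ∂(volume : Measure E3), |V x - V₁ x| ≤ δ) → ∀ ε₁ : ℝ, 0 < ε₁ →
      ∃ W : E3 → ℝ, Measurable W ∧ (∀ x, |W x| ≤ ε₁) ∧ (∀ x, x ∉ O → W x = 0) ∧
        ∀ U : E3 → ℝ, IsPot r M (Vc U) → ‖dH r (Vc U) - dH r (Vc V₂)‖ ≤ δ →
          ¬ SD s r (Vc fun x => V x + W x) (Vc U) := by
  classical
  obtain ⟨c', hc', hcc', hc₂⟩ := coneL h0 h2 h1 hr hK hV₁ hV₂ hSD hc hc₁
  have hKpos := hK.one
  have hF : ∀ τ : ℝ, K ≤ τ → ∀ η : Fin 3 → ℂ, Adm τ η →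
      FC s r (Vc V₁) τ η = FC s r (Vc V₂) τ η := fun τ hτ η hη =>
    FC_eq (by linarith) (fun θ hθ => SD_I h0 h2 h1 hr hK hV₁ hV₂ hSD hθ τ hτ) hη
  obtain ⟨F, hFd, hF0⟩ := kerF h0 h2 h1 hr hK hV₂
  have hOv : ∀ {V : E3 → ℝ} {c : ℝ}, 0 ≤ c → (∀ᵐ x ∂(volume : Measure E3), x ∉ cone y₀ c →
      V x = 0) → ∀ᵐ x ∂(volume : Measure E3), x ∈ O → Vc V x = 0 := by
    intro V c hc hV
    filter_upwards [hV] with x hx hxO
    rw [Vc, hx (not_cone_of_lt hc (hOlt x hxO))]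
    rfl
  have hne' : ¬ Vc V₁ =ᵐ[volume] Vc V₂ := fun h => hne (by
    filter_upwards [h] with x hx
    exact Complex.ofReal_injective hx)
  obtain ⟨τ₀, hτ₀, hgood⟩ := goodP h0 h2 h1 hr hK hV₁ hV₂ hne' hy₀ (2 * K) (hOv hc.le hc₁)
    (hOv hc'.le hc₂)
  set N : ℕ := 2 * Module.finrank ℂ F + 1 with hN
  obtain ⟨P, hP1, hP2, hP3, hP4⟩ := levels hO hOne N
  choose x hxP hxD using fun i => hgood (P i) (hP1 i) (hP2 i) (hP3 i)
  obtain ⟨l, hl, hcube, hlt⟩ := small_cubes hO (fun i => hP2 i (hxP i))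
    (fun i => hOlt _ (hP2 i (hxP i)))
  have hcubeB : ∀ i, cube (x i) l ⊆ Metric.ball 0 r := fun i y hy =>
    mem_ball_zero_iff.2 (hOr y (hcube i hy))
  have he : ∀ i, IsPot r 1 ((cube (x i) l).indicator fun _ => (1 : ℂ)) := fun i =>
    cube_pot (hcubeB i)
  have hc₁' : ∀ᵐ x ∂(volume : Measure E3), x ∉ cone y₀ c' → Vc V₁ x = 0 := by
    filter_upwards [hc₁] with z hz h
    rw [Vc, hz fun h' => h (cone_mono hcc' h')]
    rfl
  have hc₂' : ∀ᵐ x ∂(volume : Measure E3), x ∉ cone y₀ c' → Vc V₂ x = 0 := by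
    filter_upwards [hc₂] with z hz h
    rw [Vc, hz h]
    rfl
  have htip' : ∀ᵐ x ∂(volume : Measure E3), ‖x - y₀‖ < δ₀ →
      Vc V₁ x = (oct y₀).indicator (fun _ => (ρ : ℂ)) x := by
    filter_upwards [htip] with z hz h
    rw [Vc, hz h]
    by_cases hm : z ∈ oct y₀
    · rw [Set.indicator_of_mem hm, Set.indicator_of_mem hm]
    · rw [Set.indicator_of_notMem hm, Set.indicator_of_notMem hm, Complex.ofReal_zero]
  have hstar : ∀ cc : Fin N → ℝ, ∀ w ∈ HB r, (∀ τ : ℝ, K ≤ τ → ∀ η : Fin 3 → ℂ, Adm τ η →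
      A3 (dH r (fun y => ∑ i, ((cc i : ℝ) : ℂ) * (cube (x i) l).indicator (fun _ => (1 : ℂ)) y))
        (SI s r (Vc V₁) τ (ec r η)) (SI s r (Vc V₁) τ (ec r η)) =
        A3 w (SI s r (Vc V₂) τ (ec r η)) (SI s r (Vc V₂) τ (ec r η))) → cc = 0 := by
    intro cc w hw hlin
    exact star h0 h2 h1 hr hK hV₁ hV₂ hF hy₀ hc' hc₁' hc₂' (Complex.ofReal_ne_zero.2 hρ) hδ₀ htip'
      hl hcubeB hlt (fun i j hij => hP4 i j _ (hxP i) _ (hxP j) hij) hτ₀ hxD cc hw hlin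
  obtain ⟨δ₁, C, hδ₁, hC, hL⟩ := lipL h0 h2 h1 hr hK hV₁ hV₂ hF0 he hstar
  refine ⟨δ₁ / 2, by linarith, fun V hV hVδ ε₁ hε₁ => ?_⟩
  -- the scale of the coefficients
  set t : ℝ := min ε₁ (min 1 (δ₁ / 2)) / (N + 1) with ht
  have hNp : (0 : ℝ) < N + 1 := by positivity
  have htpos : 0 < t := div_pos (lt_min hε₁ (lt_min one_pos (by linarith))) hNp
  have hNt : (N : ℝ) * t ≤ min ε₁ (min 1 (δ₁ / 2)) := by
    have : (N + 1) * t = min ε₁ (min 1 (δ₁ / 2)) := by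
      rw [ht]
      field_simp
    nlinarith
  have hind : ∀ (i : Fin N) (y : E3), |(cube (x i) l).indicator (fun _ => (1 : ℝ)) y| ≤ 1 := by
    intro i y
    by_cases hm : y ∈ cube (x i) l
    · rw [Set.indicator_of_mem hm, abs_one]
    · rw [Set.indicator_of_notMem hm, abs_zero]
      exact zero_le_one
  set Wf : (Fin N → ℝ) → E3 → ℝ := fun cc y =>
    ∑ i, cc i * (cube (x i) l).indicator (fun _ => (1 : ℝ)) y with hWf
  have hWb : ∀ cc : Fin N → ℝ, ‖cc‖ < t → ∀ y, |Wf cc y| ≤ min ε₁ (min 1 (δ₁ / 2)) := by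
    intro cc hcc y
    refine le_trans ?_ hNt
    rw [hWf]
    refine (Finset.abs_sum_le_sum_abs _ _).trans ?_
    have : ∀ i ∈ (Finset.univ : Finset (Fin N)),
        |cc i * (cube (x i) l).indicator (fun _ => (1 : ℝ)) y| ≤ t := by
      intro i _
      rw [abs_mul]
      have h3 : |cc i| ≤ t := ((norm_le_pi_norm cc i).trans hcc.le)
      calc |cc i| * |(cube (x i) l).indicator (fun _ => (1 : ℝ)) y| ≤ |cc i| * 1 :=
            mul_le_mul_of_nonneg_left (hind i y) (abs_nonneg _)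
        _ ≤ t := by rw [mul_one]; exact h3
    have h4 := Finset.sum_le_sum this
    rw [Finset.sum_const, Finset.card_univ, Fintype.card_fin, nsmul_eq_mul] at h4
    exact h4
  have hWc : ∀ (cc : Fin N → ℝ) (y : E3), ((Wf cc y : ℝ) : ℂ) =
      ∑ i, ((cc i : ℝ) : ℂ) * (cube (x i) l).indicator (fun _ => (1 : ℂ)) y := by
    intro cc y
    rw [hWf]
    push_cast
    refine Finset.sum_congr rfl fun i _ => ?_
    by_cases hm : y ∈ cube (x i) l
    · rw [Set.indicator_of_mem hm, Set.indicator_of_mem hm, Complex.ofReal_one]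
    · rw [Set.indicator_of_notMem hm, Set.indicator_of_notMem hm, Complex.ofReal_zero]
  have hVW : ∀ cc : Fin N → ℝ, (fun y => Vc V y + ∑ i, ((cc i : ℝ) : ℂ) *
      (cube (x i) l).indicator (fun _ => (1 : ℂ)) y) = Vc fun y => V y + Wf cc y := by
    intro cc
    funext y
    rw [← hWc, Vc, Vc, Complex.ofReal_add]
  have hWm : ∀ cc : Fin N → ℝ, Measurable (Wf cc) := by
    intro cc
    exact Finset.measurable_fun_sum _ fun i _ =>
      (measurable_const.indicator (cube_meas _ _)).const_mul _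
  have hWO : ∀ (cc : Fin N → ℝ) (y : E3), y ∉ O → Wf cc y = 0 := by
    intro cc y hy
    refine Finset.sum_eq_zero fun i _ => ?_
    rw [Set.indicator_of_notMem (fun h => hy (hcube i h)), mul_zero]
  have hVpot : ∀ cc : Fin N → ℝ, ‖cc‖ < t → IsPot r M (fun y => Vc V y + ∑ i, ((cc i : ℝ) : ℂ) *
      (cube (x i) l).indicator (fun _ => (1 : ℂ)) y) := by
    intro cc hcc
    rw [hVW]
    refine ⟨?_, fun y => ?_, fun y hy => ?_⟩
    · have hVm : Measurable V := by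
        have := hV.measurable
        have h3 : V = fun y => (Vc V y).re := by
          funext y
          rw [Vc, Complex.ofReal_re]
        rw [h3]
        exact Complex.measurable_re.comp this
      exact Complex.measurable_ofReal.comp (hVm.add (hWm cc))
    · rw [Vc, Complex.norm_real, Real.norm_eq_abs]
      have h3 : |V y| ≤ M - 1 := by
        have := hV.bounded y
        rwa [Vc, Complex.norm_real, Real.norm_eq_abs] at this
      have h4 := hWb cc hcc y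
      have h5 : min ε₁ (min 1 (δ₁ / 2)) ≤ 1 := (min_le_right _ _).trans (min_le_left _ _)
      have h6 := abs_add_le (V y) (Wf cc y)
      linarith
    · have h3 : V y = 0 := by
        have := hV.vanish y hy
        rw [Vc] at this
        exact_mod_cast this
      rw [Vc, h3, hWO cc y fun h => absurd (hOr y h) (not_lt.2 hy), add_zero, Complex.ofReal_zero]
  have hVae : ∀ cc : Fin N → ℝ, ‖cc‖ < t → ∀ᵐ y ∂(volume : Measure E3),
      ‖Vc V y + ∑ i, ((cc i : ℝ) : ℂ) * (cube (x i) l).indicator (fun _ => (1 : ℂ)) y -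
        Vc V₁ y‖ ≤ δ₁ := by
    intro cc hcc
    filter_upwards [hVδ] with y hy
    have h3 := hWb cc hcc y
    have h4 : min ε₁ (min 1 (δ₁ / 2)) ≤ δ₁ / 2 := (min_le_right _ _).trans (min_le_right _ _)
    rw [← hWc, Vc, Vc, ← Complex.ofReal_add, ← Complex.ofReal_sub, Complex.norm_real,
      Real.norm_eq_abs]
    have h5 : V y + Wf cc y - V₁ y = (V y - V₁ y) + Wf cc y := by ring
    rw [h5]
    have h6 := abs_add_le (V y - V₁ y) (Wf cc y)
    linarith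
  set R : (Fin N → ℝ) → F → Prop := fun cc g => ‖cc‖ < t ∧ ∃ U : E3 → ℝ, IsPot r M (Vc U) ∧
    ‖dH r (Vc U) - dH r (Vc V₂)‖ ≤ δ₁ / 2 ∧ SD s r (Vc fun y => V y + Wf cc y) (Vc U) ∧
    g = F.orthogonalProjection (dH r (Vc U)) with hR
  set S : Set (Fin N → ℝ) := {cc | ∃ g, R cc g} with hS
  have hdense : Dense Sᶜ := by
    refine dimL (F := F) (by omega) (R := R) (fun cc hcc => hcc) hC ?_
    rintro cc cc' g g' ⟨hcc, U, hU1, hU2, hU3, rfl⟩ ⟨hcc', U', hU1', hU2', hU3', rfl⟩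
    have h3 := hL (Vc V) (Vc U) (Vc U') cc cc' (hVpot cc hcc) (hVpot cc' hcc') hU1 hU1'
      (hVae cc hcc) (hVae cc' hcc') (hU2.trans (by linarith)) (hU2'.trans (by linarith))
      (by rw [hVW]; exact hU3) (by rw [hVW]; exact hU3')
    rwa [map_sub] at h3
  obtain ⟨cc, hccS, hcct⟩ := hdense.exists_dist_lt (0 : Fin N → ℝ) htpos
  rw [dist_zero_left] at hcct
  refine ⟨Wf cc, hWm cc, fun y => (hWb cc hcct y).trans (min_le_left _ _), hWO cc,
    fun U hU1 hU2 hU3 => hccS ?_⟩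
  exact ⟨_, hcct, U, hU1, hU2, hU3, rfl⟩

end FracScatC

end
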