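import Pool.Agent.Lib.MP_6e2ba5_an.Dx.Dir

/-! # Masses of the exponential sources

`nz r V ω y m` is `m³ V(x) exp(η·(x-y))` on the ball, `η = em m ω`, `ω` real, `|exp(η·(x-y))| = exp(-σ dv·(x-y))`,
`σ = m + ω/(4m)` (`em_re`), `σ ≥ m/2` for large `m`. `cone_l1`, `cone_conc`: on the cone `dv·(x-y) ≥ c ‖x-y‖`, and
`∫ exp(-σ c ‖x-y‖) dx = C (σ c)^(-3)` (scaling; `∫ exp(-‖x‖)` is finite), on `{‖x-y‖ ≥ δ}` bounded by
`exp(-σcδ/2) C (σc/2)^(-3)`. `cone_l2` similarly: `∫ exp(-2σc‖x-y‖) = C (2σc)^(-3)`. -/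

set_option autoImplicit false

open MeasureTheory Filter Topology Set
open scoped FourierTransform SchwartzMap InnerProductSpace ENNReal BoundedContinuousFunction

noncomputable section

namespace FracScatC

open FracScat

/-- The mass `∫ exp(-‖x‖)`. -/
private def MassA_I : ℝ := ∫ x : E3, Real.exp (-‖x‖)

private theorem MassA_I_nonneg : 0 ≤ MassA_I := integral_nonneg fun _ => (Real.exp_pos _).le

private theorem MassA_int0 : Integrable (fun x : E3 => Real.exp (-‖x‖)) := by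
  have h4 : ((Module.finrank ℝ E3 : ℕ) : ℝ) < 4 := by
    rw [finrank_euclideanSpace_fin]
    norm_num
  have h := (integrable_one_add_norm (μ := (volume : Measure E3)) h4).const_mul
    (24 * Real.exp 1)
  refine h.mono' (by fun_prop) (Eventually.of_forall fun x => ?_)
  rw [Real.norm_eq_abs, abs_of_pos (Real.exp_pos _)]
  have ht : 0 < 1 + ‖x‖ := by positivity
  have h1 := Real.pow_div_factorial_le_exp (1 + ‖x‖) ht.le 4
  have hf : ((Nat.factorial 4 : ℕ) : ℝ) = 24 := by norm_num [Nat.factorial]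
  rw [hf, div_le_iff₀ (by norm_num : (0 : ℝ) < 24)] at h1
  have h2 : (1 + ‖x‖) ^ (-(4 : ℝ)) = ((1 + ‖x‖) ^ 4)⁻¹ := by
    rw [Real.rpow_neg ht.le]
    congr 1
    exact_mod_cast Real.rpow_natCast (1 + ‖x‖) 4
  rw [h2, ← div_eq_mul_inv, le_div_iff₀ (by positivity)]
  have h3 : Real.exp (-‖x‖) * Real.exp (1 + ‖x‖) = Real.exp 1 := by
    rw [← Real.exp_add]
    congr 1
    ring
  calc Real.exp (-‖x‖) * (1 + ‖x‖) ^ 4 ≤ Real.exp (-‖x‖) * (Real.exp (1 + ‖x‖) * 24) :=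
        mul_le_mul_of_nonneg_left h1 (Real.exp_pos _).le
    _ = 24 * Real.exp 1 := by rw [← mul_assoc, h3, mul_comm]

private theorem MassA_int {a : ℝ} (ha : 0 < a) (y : E3) :
    Integrable (fun x : E3 => Real.exp (-(a * ‖x - y‖))) := by
  have h1 : Integrable (fun x : E3 => Real.exp (-‖a • x‖)) :=
    MassA_int0.comp_smul ha.ne'
  have h2 := h1.comp_sub_right y
  refine h2.congr (Eventually.of_forall fun x => ?_)
  show Real.exp (-‖a • (x - y)‖) = _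
  rw [norm_smul, Real.norm_eq_abs, abs_of_pos ha]

private theorem MassA_eval {a : ℝ} (ha : 0 < a) (y : E3) :
    ∫ x : E3, Real.exp (-(a * ‖x - y‖)) = (a ^ 3)⁻¹ * MassA_I := by
  have h1 := integral_sub_right_eq_self (μ := (volume : Measure E3))
    (fun x : E3 => Real.exp (-(a * ‖x‖))) y
  rw [h1]
  have h2 := Measure.integral_comp_smul_of_nonneg (volume : Measure E3)
    (fun x : E3 => Real.exp (-‖x‖)) a (hR := ha.le)
  rw [finrank_euclideanSpace_fin, smul_eq_mul] at h2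
  rw [MassA_I, ← h2]
  refine integral_congr_ae (Eventually.of_forall fun x => ?_)
  show Real.exp (-(a * ‖x‖)) = Real.exp (-‖a • x‖)
  rw [norm_smul, Real.norm_eq_abs, abs_of_pos ha]

/-- The pointwise bound of the sources. -/
private theorem MassA_pt {r M : ℝ} {V : E3 → ℂ} (hV : IsPot r M V) {y : E3} {c : ℝ}
    (hc : 0 < c) (hcv : ∀ᵐ x ∂(volume : Measure E3), x ∉ cone y c → V x = 0) {ω m : ℝ}
    (hm : 0 < m) (hs : m / 2 ≤ m + ω / (4 * m)) :
    ∀ᵐ x ∂(volume : Measure E3), ‖(nz r V (ω : ℂ) y m : E3 → ℂ) x‖ ≤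
      M * m ^ 3 * Real.exp (-(m * c / 2 * ‖x - y‖)) := by
  have e1 := Lp.coeFn_smul ((m : ℂ) ^ 3 * Complex.exp (-cd (em m (ω : ℂ)) y))
    (mulL V (ec r (em m (ω : ℂ))))
  have hM := hV.nonneg
  filter_upwards [e1, mulL_coe hV.BM (ec r (em m (ω : ℂ))), ec_coe r (em m (ω : ℂ)), hcv]
    with x a1 a2 a3 a4
  have hx : (nz r V (ω : ℂ) y m : E3 → ℂ) x =
      ((m : ℂ) ^ 3 * Complex.exp (-cd (em m (ω : ℂ)) y)) *
        (V x * (indB r x * Complex.exp (cd (em m (ω : ℂ)) x))) := by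
    unfold nz
    rw [a1, Pi.smul_apply, smul_eq_mul, a2, a3]
  rw [hx]
  by_cases hxc : x ∈ cone y c
  · have hi : ‖indB r x‖ ≤ 1 := by
      unfold indB
      split_ifs <;> simp
    have hn : ‖Complex.exp (-cd (em m (ω : ℂ)) y)‖ * ‖Complex.exp (cd (em m (ω : ℂ)) x)‖ ≤
        Real.exp (-(m * c / 2 * ‖x - y‖)) := by
      rw [Complex.exp_neg, norm_inv, em_re hm.ne' ω y, em_re hm.ne' ω x, ← Real.exp_neg,
        ← Real.exp_add, Real.exp_le_exp]
      have h1 : c * ‖x - y‖ ≤ ⟪dv, x - y⟫_ℝ := hxc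
      rw [inner_sub_right] at h1
      have h0 : 0 ≤ c * ‖x - y‖ := mul_nonneg hc.le (norm_nonneg _)
      have h2 : m / 2 * (c * ‖x - y‖) ≤
          (m + ω / (4 * m)) * (⟪dv, x⟫_ℝ - ⟪dv, y⟫_ℝ) :=
        mul_le_mul hs h1 h0 ((by positivity : (0 : ℝ) ≤ m / 2).trans hs)
      linarith
    have hv := hV.bounded x
    rw [norm_mul, norm_mul, norm_mul, norm_mul, norm_pow, Complex.norm_real, Real.norm_eq_abs,
      abs_of_pos hm]
    calc m ^ 3 * ‖Complex.exp (-cd (em m (ω : ℂ)) y)‖ *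
          (‖V x‖ * (‖indB r x‖ * ‖Complex.exp (cd (em m (ω : ℂ)) x)‖))
        = (‖V x‖ * ‖indB r x‖) * m ^ 3 * (‖Complex.exp (-cd (em m (ω : ℂ)) y)‖ *
            ‖Complex.exp (cd (em m (ω : ℂ)) x)‖) := by ring
      _ ≤ (M * 1) * m ^ 3 * Real.exp (-(m * c / 2 * ‖x - y‖)) := by
          refine mul_le_mul ?_ hn (by positivity) (by positivity)
          exact mul_le_mul_of_nonneg_right (mul_le_mul hv hi (norm_nonneg _) hM) (by positivity)
      _ = _ := by rw [mul_one]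
  · rw [a4 hxc, zero_mul, mul_zero, norm_zero]
    positivity

private theorem MassA_large (ω : ℝ) : ∀ᶠ m : ℝ in atTop, 0 < m ∧ m / 2 ≤ m + ω / (4 * m) := by
  filter_upwards [eventually_ge_atTop (1 + |ω|)] with m hm
  have h0 : 0 ≤ |ω| := abs_nonneg ω
  have hm0 : 0 < m := by linarith
  have hm1 : 1 ≤ m := by linarith
  refine ⟨hm0, ?_⟩
  have h1 : -(1 / 4 : ℝ) ≤ ω / (4 * m) := by
    rw [le_div_iff₀ (by positivity)]
    have h2 : -|ω| ≤ ω := neg_abs_le ω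
    linarith
  linarith

theorem cone_l1 {r : ℝ} (hr : 0 < r) {M : ℝ} {V : E3 → ℂ} (hV : IsPot r M V) {y : E3} {c : ℝ}
    (hc : 0 < c) (hcv : ∀ᵐ x ∂(volume : Measure E3), x ∉ cone y c → V x = 0) (ω : ℝ) :
    ∃ C : ℝ, ∀ᶠ m : ℝ in atTop, ∫ x, ‖(nz r V (ω : ℂ) y m : E3 → ℂ) x‖ ≤ C := by
  refine ⟨M * (2 / c) ^ 3 * MassA_I, ?_⟩
  filter_upwards [MassA_large ω] with m hm
  have ha : 0 < m * c / 2 := by
    have := mul_pos hm.1 hc
    positivity
  have h1 : ∫ x, ‖(nz r V (ω : ℂ) y m : E3 → ℂ) x‖ ≤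
      ∫ x : E3, M * m ^ 3 * Real.exp (-(m * c / 2 * ‖x - y‖)) :=
    integral_mono_of_nonneg (Eventually.of_forall fun x => norm_nonneg _)
      ((MassA_int ha y).const_mul _) (MassA_pt hV hc hcv hm.1 hm.2)
  refine h1.trans (le_of_eq ?_)
  rw [integral_const_mul, MassA_eval ha]
  have := hm.1.ne'
  field_simp

theorem cone_conc {r : ℝ} (hr : 0 < r) {M : ℝ} {V : E3 → ℂ} (hV : IsPot r M V) {y : E3} {c : ℝ}
    (hc : 0 < c) (hcv : ∀ᵐ x ∂(volume : Measure E3), x ∉ cone y c → V x = 0) (ω : ℝ) {δ : ℝ}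
    (hδ : 0 < δ) : Tendsto (fun m : ℝ => ∫ x in {x : E3 | δ ≤ ‖x - y‖},
      ‖(nz r V (ω : ℂ) y m : E3 → ℂ) x‖) atTop (𝓝 0) := by
  have hM := hV.nonneg
  have hlim : Tendsto (fun m : ℝ => M * (4 / c) ^ 3 * MassA_I * Real.exp (-(c * δ / 4 * m)))
      atTop (𝓝 0) := by
    have h1 : Tendsto (fun m : ℝ => c * δ / 4 * m) atTop atTop :=
      tendsto_id.const_mul_atTop (by positivity)
    have h2 : Tendsto (fun m : ℝ => Real.exp (-(c * δ / 4 * m))) atTop (𝓝 0) :=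
      Real.tendsto_exp_neg_atTop_nhds_zero.comp h1
    have h3 := h2.const_mul (M * (4 / c) ^ 3 * MassA_I)
    rwa [mul_zero] at h3
  refine tendsto_of_tendsto_of_tendsto_of_le_of_le' tendsto_const_nhds hlim
    (Eventually.of_forall fun m => integral_nonneg fun x => norm_nonneg _) ?_
  filter_upwards [MassA_large ω] with m hm
  have ha : 0 < m * c / 4 := by
    have := mul_pos hm.1 hc
    positivity
  have hset : MeasurableSet {x : E3 | δ ≤ ‖x - y‖} :=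
    (isClosed_le continuous_const (by fun_prop)).measurableSet
  have hm0 := hm.1
  have hb : ∀ᵐ x ∂((volume : Measure E3).restrict {x : E3 | δ ≤ ‖x - y‖}),
      ‖(nz r V (ω : ℂ) y m : E3 → ℂ) x‖ ≤
        M * m ^ 3 * Real.exp (-(c * δ / 4 * m)) * Real.exp (-(m * c / 4 * ‖x - y‖)) := by
    rw [ae_restrict_iff' hset]
    filter_upwards [MassA_pt hV hc hcv hm.1 hm.2] with x hx hd
    refine hx.trans ?_
    rw [mul_assoc (M * m ^ 3), ← Real.exp_add]
    refine mul_le_mul_of_nonneg_left ?_ (by positivity)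
    rw [Real.exp_le_exp]
    have hd' : δ ≤ ‖x - y‖ := hd
    have h5 : m * c / 4 * δ ≤ m * c / 4 * ‖x - y‖ := mul_le_mul_of_nonneg_left hd' ha.le
    linarith
  have h1 : ∫ x in {x : E3 | δ ≤ ‖x - y‖}, ‖(nz r V (ω : ℂ) y m : E3 → ℂ) x‖ ≤
      ∫ x in {x : E3 | δ ≤ ‖x - y‖},
        M * m ^ 3 * Real.exp (-(c * δ / 4 * m)) * Real.exp (-(m * c / 4 * ‖x - y‖)) :=
    integral_mono_of_nonneg (Eventually.of_forall fun x => norm_nonneg _)
      ((MassA_int ha y).const_mul _).integrableOn hb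
  have h2 : ∫ x in {x : E3 | δ ≤ ‖x - y‖},
        M * m ^ 3 * Real.exp (-(c * δ / 4 * m)) * Real.exp (-(m * c / 4 * ‖x - y‖)) ≤
      ∫ x : E3, M * m ^ 3 * Real.exp (-(c * δ / 4 * m)) * Real.exp (-(m * c / 4 * ‖x - y‖)) :=
    setIntegral_le_integral ((MassA_int ha y).const_mul _)
      (Eventually.of_forall fun x => by
        show 0 ≤ M * m ^ 3 * Real.exp (-(c * δ / 4 * m)) * Real.exp (-(m * c / 4 * ‖x - y‖))
        positivity)
  refine (h1.trans h2).trans (le_of_eq ?_)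
  rw [integral_const_mul, MassA_eval ha]
  have := hm0.ne'
  field_simp

theorem cone_l2 {r : ℝ} (hr : 0 < r) {M : ℝ} {V : E3 → ℂ} (hV : IsPot r M V) {y : E3} {c : ℝ}
    (hc : 0 < c) (hcv : ∀ᵐ x ∂(volume : Measure E3), x ∉ cone y c → V x = 0) (ω : ℝ) :
    ∃ C : ℝ, ∀ᶠ m : ℝ in atTop, ‖nz r V (ω : ℂ) y m‖ ≤ C * m ^ (3 / 2 : ℝ) := by
  have hM := hV.nonneg
  refine ⟨Real.sqrt (M ^ 2 * (c⁻¹) ^ 3 * MassA_I), ?_⟩
  filter_upwards [MassA_large ω] with m hm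
  have hm0 := hm.1
  have ha : 0 < m * c := mul_pos hm.1 hc
  set f : HS := nz r V (ω : ℂ) y m with hf
  have hsq : ‖f‖ ^ 2 = ∫ x, ‖(f : E3 → ℂ) x‖ ^ 2 := by
    have h3 : (⟪f, f⟫_ℂ) = ((∫ x, ‖(f : E3 → ℂ) x‖ ^ 2 : ℝ) : ℂ) := by
      rw [L2.inner_def, ← integral_complex_ofReal]
      refine integral_congr_ae (Eventually.of_forall fun x => ?_)
      show ⟪(f : E3 → ℂ) x, (f : E3 → ℂ) x⟫_ℂ = _
      rw [inner_self_eq_norm_sq_to_K]
      push_cast
      rfl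
    rw [inner_self_eq_norm_sq_to_K] at h3
    apply Complex.ofReal_injective
    rw [← h3]
    push_cast
    rfl
  have h1 : ∫ x, ‖(f : E3 → ℂ) x‖ ^ 2 ≤
      ∫ x : E3, M ^ 2 * m ^ 6 * Real.exp (-(m * c * ‖x - y‖)) := by
    refine integral_mono_of_nonneg (Eventually.of_forall fun x => by positivity)
      ((MassA_int ha y).const_mul _) ?_
    filter_upwards [MassA_pt hV hc hcv hm.1 hm.2] with x hx
    have h2 : ‖(f : E3 → ℂ) x‖ ^ 2 ≤
        (M * m ^ 3 * Real.exp (-(m * c / 2 * ‖x - y‖))) ^ 2 :=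
      pow_le_pow_left₀ (norm_nonneg _) hx 2
    refine h2.trans (le_of_eq ?_)
    have h4 : Real.exp (-(m * c / 2 * ‖x - y‖)) ^ 2 = Real.exp (-(m * c * ‖x - y‖)) := by
      rw [← Real.exp_nat_mul]
      congr 1
      push_cast
      ring
    rw [mul_pow, mul_pow, h4]
    ring
  rw [integral_const_mul, MassA_eval ha] at h1
  have h5 : ‖f‖ ^ 2 ≤ (Real.sqrt (M ^ 2 * (c⁻¹) ^ 3 * MassA_I) * m ^ (3 / 2 : ℝ)) ^ 2 := by
    rw [hsq]
    refine h1.trans (le_of_eq ?_)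
    have hI := MassA_I_nonneg
    have h7 : 0 ≤ M ^ 2 * (c⁻¹) ^ 3 * MassA_I := by positivity
    rw [mul_pow (Real.sqrt (M ^ 2 * (c⁻¹) ^ 3 * MassA_I)), Real.sq_sqrt h7]
    have h6 : (m ^ (3 / 2 : ℝ)) ^ 2 = m ^ 3 := by
      rw [← Real.rpow_natCast, ← Real.rpow_mul hm0.le, ← Real.rpow_natCast]
      norm_num
    rw [h6]
    have := hm0.ne'
    field_simp
  exact le_of_sq_le_sq h5 (by positivity)

end FracScatC

end
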