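import Pool.Agent.Lib.MP_6e2ba5_an.Dx.MassA
import Pool.Agent.Lib.MP_6e2ba5_an.Dx.RIb

/-! # The masses of the two potentials agree in the limit

`η = em m (τ²)`, `η' = em (m/2) (τ²/4)`, `2η' = η` (`em_half`), `η'` is admissible for `τ/2 ≥ K` (`em_adm`). With `e' = ec r η'`:
`FC s r V (τ/2) η' = pr e' (V e') + pr (V e') (RI (V S e'))` (`TI = V SI`, `SI e' = e' + RI (V SI e')`, symmetry), and
`pr e' (V e') = ∫ V exp(η·x)`. The second term: `RI (V S e')` is bounded by `C ‖V S e'‖ ≤ 2C ‖V e'‖` (`RI_SymB`, `UK_V`),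
so it is at most `C' ‖V e'‖_{L¹} ‖V e'‖_{L²}`. With `cone_l1`, `cone_l2` for `η'` (`m/2` in place of `m`, `ω = τ²/4`):
`‖V e'‖_{L¹} ≤ C m^(-3) |exp(η'·y)|`, `‖V e'‖_{L²} ≤ C m^(-3/2) |exp(η'·y)|`, and `|exp(η'·y)|² = |exp(η·y)|`. Multiplying
by `m³ exp(-η·y)`: `∫ nz r V₁ - ∫ nz r V₂ = O(m^(-3/2))`, as the data are equal. -/

set_option autoImplicit false

open MeasureTheory Filter Topology Set
open scoped FourierTransform SchwartzMap InnerProductSpace ENNReal BoundedContinuousFunction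

noncomputable section

namespace FracScatC

open FracScat

private theorem mb_em {m : ℝ} (hm : m ≠ 0) (τ : ℝ) (j : Fin 3) :
    2 * em (m / 2) (((τ / 2) ^ 2 : ℝ) : ℂ) j = em m ((τ ^ 2 : ℝ) : ℂ) j := by
  have h : (((τ / 2) ^ 2 : ℝ) : ℂ) = ((τ ^ 2 : ℝ) : ℂ) / 4 := by
    push_cast
    ring
  rw [h]
  exact em_half hm _ j

private theorem mb_cd {m : ℝ} (hm : m ≠ 0) (τ : ℝ) (x : E3) :
    cd (em m ((τ ^ 2 : ℝ) : ℂ)) x = cd (em (m / 2) (((τ / 2) ^ 2 : ℝ) : ℂ)) x +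
      cd (em (m / 2) (((τ / 2) ^ 2 : ℝ) : ℂ)) x := by
  unfold cd
  rw [← Finset.sum_add_distrib]
  apply Finset.sum_congr rfl
  intro j _
  rw [← mb_em hm τ j]
  ring

private theorem mb_int {r M : ℝ} {V : E3 → ℂ} (hV : IsPot r M V) {m : ℝ} (hm : m ≠ 0) (τ : ℝ)
    (y : E3) :
    ∫ z, (nz r V ((τ ^ 2 : ℝ) : ℂ) y m : E3 → ℂ) z =
      (m : ℂ) ^ 3 * Complex.exp (-cd (em m ((τ ^ 2 : ℝ) : ℂ)) y) *
        pr (ec r (em (m / 2) (((τ / 2) ^ 2 : ℝ) : ℂ)))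
          (mulL V (ec r (em (m / 2) (((τ / 2) ^ 2 : ℝ) : ℂ)))) := by
  rw [pr_eq, ← integral_const_mul]
  apply integral_congr_ae
  unfold nz
  filter_upwards [Lp.coeFn_smul ((m : ℂ) ^ 3 * Complex.exp (-cd (em m ((τ ^ 2 : ℝ) : ℂ)) y))
      (mulL V (ec r (em m ((τ ^ 2 : ℝ) : ℂ)))),
    mulL_coe hV.BM (ec r (em m ((τ ^ 2 : ℝ) : ℂ))), ec_coe r (em m ((τ ^ 2 : ℝ) : ℂ)),
    mulL_coe hV.BM (ec r (em (m / 2) (((τ / 2) ^ 2 : ℝ) : ℂ))),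
    ec_coe r (em (m / 2) (((τ / 2) ^ 2 : ℝ) : ℂ))] with x a b c d e
  rw [a, Pi.smul_apply, smul_eq_mul, b, c, d, e, mb_cd hm τ x, Complex.exp_add]
  have hi : indB r x * indB r x = indB r x := by
    unfold indB
    split_ifs <;> simp
  generalize Complex.exp (cd (em (m / 2) (((τ / 2) ^ 2 : ℝ) : ℂ)) x) = E
  generalize (m : ℂ) ^ 3 * Complex.exp (-cd (em m ((τ ^ 2 : ℝ) : ℂ)) y) = Q
  linear_combination (-(Q * V x * E * E)) * hi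

private theorem mb_pr_mul {r M : ℝ} {V : E3 → ℂ} (hV : IsPot r M V) (f g : HS) :
    pr f (mulL V g) = pr (mulL V f) g := by
  rw [pr_eq, pr_eq]
  apply integral_congr_ae
  filter_upwards [mulL_coe hV.BM f, mulL_coe hV.BM g] with x a b
  rw [a, b]
  ring

private theorem mb_l1 {f g : HS} (hf : Integrable (f : E3 → ℂ)) {C : ℝ} (hg : Bd C g) :
    ‖pr f g‖ ≤ (∫ x, ‖(f : E3 → ℂ) x‖) * C := by
  rw [pr_eq, ← integral_mul_const]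
  refine norm_integral_le_of_norm_le (hf.norm.mul_const C) ?_
  filter_upwards [hg] with x hx
  rw [norm_mul]
  exact mul_le_mul_of_nonneg_left hx (norm_nonneg _)

private theorem mb_FC {s r M K : ℝ} (hK : KOK s r M K) {V : E3 → ℂ} (hV : IsPot r M V) {τ : ℝ}
    (hτ : K ≤ τ) (η : Fin 3 → ℂ) :
    FC s r V τ η = pr (ec r η) (mulL V (ec r η)) +
      pr (mulL V (ec r η)) (RI s r τ (mulL V (SI s r V τ (ec r η)))) := by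
  have h := UK_fix hV (hK.ri τ hτ) (ec r η)
  rw [← SI_eq] at h
  have h1 : FC s r V τ η = pr (ec r η) (mulL V (SI s r V τ (ec r η))) := rfl
  have h2 := congrArg (fun u : HS => pr (ec r η) (mulL V u)) h
  simp only [map_add, pr_add_right] at h2
  rw [h1, h2, mb_pr_mul hV (ec r η) (RI s r τ _)]

private theorem mb_rem {s : ℝ} (h0 : 3 / 4 < s) (h2 : s < 2) (h1 : s ≠ 1) {r : ℝ} (hr : 0 < r)
    {M K : ℝ} (hK : KOK s r M K) {V : E3 → ℂ} (hV : IsPot r M V) {y : E3} {c : ℝ} (hc : 0 < c)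
    (hcv : ∀ᵐ x ∂(volume : Measure E3), x ∉ cone y c → V x = 0) {τ : ℝ} (hτ : 2 * K ≤ τ) :
    ∃ C : ℝ, ∀ᶠ m : ℝ in atTop,
      ‖(m : ℂ) ^ 3 * Complex.exp (-cd (em m ((τ ^ 2 : ℝ) : ℂ)) y) *
        pr (mulL V (ec r (em (m / 2) (((τ / 2) ^ 2 : ℝ) : ℂ))))
          (RI s r (τ / 2) (mulL V (SI s r V (τ / 2)
            (ec r (em (m / 2) (((τ / 2) ^ 2 : ℝ) : ℂ))))))‖ ≤
        C * (m / 2) ^ (-(3 / 2) : ℝ) := by
  have hK1 := hK.one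
  have hτK : K ≤ τ / 2 := by linarith
  have hτ1 : 1 ≤ τ / 2 := by linarith
  obtain ⟨C, hC, hR⟩ := RI_SymB h0 h2 h1 hr
  have hS := hR (τ / 2) hτ1
  obtain ⟨C1, hC1⟩ := cone_l1 hr hV hc hcv ((τ / 2) ^ 2)
  obtain ⟨C2, hC2⟩ := cone_l2 hr hV hc hcv ((τ / 2) ^ 2)
  have hhalf : Tendsto (fun m : ℝ => m / 2) atTop atTop :=
    tendsto_id.atTop_div_const (by norm_num)
  refine ⟨16 * C * C1 * C2, ?_⟩
  filter_upwards [hhalf.eventually hC1, hhalf.eventually hC2, eventually_gt_atTop (0 : ℝ)]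
    with m hm1 hm2 hm
  have hm0 : m ≠ 0 := hm.ne'
  have hmh : 0 < m / 2 := by linarith
  set e : HS := ec r (em (m / 2) (((τ / 2) ^ 2 : ℝ) : ℂ)) with he
  set z : ℂ := Complex.exp (-cd (em (m / 2) (((τ / 2) ^ 2 : ℝ) : ℂ)) y) with hz
  set q : ℂ := ((m / 2 : ℝ) : ℂ) ^ 3 * z with hq
  have hqn : ‖q‖ = (m / 2) ^ 3 * ‖z‖ := by
    rw [hq, norm_mul, norm_pow, Complex.norm_real, Real.norm_of_nonneg hmh.le]
  have hnz : nz r V (((τ / 2) ^ 2 : ℝ) : ℂ) y (m / 2) = q • mulL V e := rfl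
  rw [hnz] at hm1 hm2
  rw [norm_smul] at hm2
  have hint : ∫ x, ‖((q • mulL V e : HS) : E3 → ℂ) x‖ =
      ‖q‖ * ∫ x, ‖((mulL V e : HS) : E3 → ℂ) x‖ := by
    rw [← integral_const_mul]
    apply integral_congr_ae
    filter_upwards [Lp.coeFn_smul q (mulL V e)] with x hx
    rw [hx, Pi.smul_apply, norm_smul]
  rw [hint] at hm1
  have hI : Integrable ((mulL V e : HS) : E3 → ℂ) :=
    HB_integrable (mem_HB.2 (mulL_indB_of_pot hV e))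
  have hB := hS.bd (mulL V (SI s r V (τ / 2) e))
  have hpr := mb_l1 hI hB
  have hV2 : ‖mulL V (SI s r V (τ / 2) e)‖ ≤ 2 * ‖mulL V e‖ := by
    rw [SI_eq]
    exact UK_V hV (hK.ri _ hτK) e
  have hI0 : 0 ≤ ∫ x, ‖((mulL V e : HS) : E3 → ℂ) x‖ := integral_nonneg fun x => norm_nonneg _
  have hpr2 : ‖pr (mulL V e) (RI s r (τ / 2) (mulL V (SI s r V (τ / 2) e)))‖ ≤
      (∫ x, ‖((mulL V e : HS) : E3 → ℂ) x‖) * (C * (2 * ‖mulL V e‖)) :=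
    hpr.trans (mul_le_mul_of_nonneg_left (mul_le_mul_of_nonneg_left hV2 hC) hI0)
  have hQ : ‖(m : ℂ) ^ 3 * Complex.exp (-cd (em m ((τ ^ 2 : ℝ) : ℂ)) y)‖ =
      8 * (m / 2) ^ 3 * (‖z‖ * ‖z‖) := by
    have hexp : Complex.exp (-cd (em m ((τ ^ 2 : ℝ) : ℂ)) y) = z * z := by
      rw [hz, ← Complex.exp_add, mb_cd hm0 τ y]
      congr 1
      ring
    rw [hexp, norm_mul, norm_mul, norm_pow, Complex.norm_real, Real.norm_of_nonneg hm.le]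
    ring
  rw [norm_mul, hQ]
  have hz0 := norm_nonneg z
  have hA0 : 0 ≤ ‖q‖ * ∫ x, ‖((mulL V e : HS) : E3 → ℂ) x‖ := mul_nonneg (norm_nonneg _) hI0
  have hB0 : 0 ≤ ‖q‖ * ‖mulL V e‖ := mul_nonneg (norm_nonneg _) (norm_nonneg _)
  have hprod : (‖q‖ * ∫ x, ‖((mulL V e : HS) : E3 → ℂ) x‖) * (‖q‖ * ‖mulL V e‖) ≤
      C1 * (C2 * (m / 2) ^ (3 / 2 : ℝ)) :=
    mul_le_mul hm1 hm2 hB0 (hA0.trans hm1)
  have hpw : (m / 2) ^ (3 / 2 : ℝ) = (m / 2) ^ 3 * (m / 2) ^ (-(3 / 2) : ℝ) := by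
    rw [← Real.rpow_natCast, ← Real.rpow_add hmh]
    norm_num
  have h3 : 0 < (m / 2) ^ 3 := pow_pos hmh 3
  have hkey : 8 * (m / 2) ^ 3 * (‖z‖ * ‖z‖) *
      ((∫ x, ‖((mulL V e : HS) : E3 → ℂ) x‖) * (C * (2 * ‖mulL V e‖))) * (m / 2) ^ 3 =
      16 * C * ((‖q‖ * ∫ x, ‖((mulL V e : HS) : E3 → ℂ) x‖) * (‖q‖ * ‖mulL V e‖)) := by
    rw [hqn]
    ring
  have hfin : 8 * (m / 2) ^ 3 * (‖z‖ * ‖z‖) *
      ((∫ x, ‖((mulL V e : HS) : E3 → ℂ) x‖) * (C * (2 * ‖mulL V e‖))) * (m / 2) ^ 3 ≤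
      16 * C * C1 * C2 * (m / 2) ^ (-(3 / 2) : ℝ) * (m / 2) ^ 3 := by
    rw [hkey]
    calc 16 * C * ((‖q‖ * ∫ x, ‖((mulL V e : HS) : E3 → ℂ) x‖) * (‖q‖ * ‖mulL V e‖))
        ≤ 16 * C * (C1 * (C2 * (m / 2) ^ (3 / 2 : ℝ))) :=
          mul_le_mul_of_nonneg_left hprod (by positivity)
      _ = 16 * C * C1 * C2 * (m / 2) ^ (-(3 / 2) : ℝ) * (m / 2) ^ 3 := by
          rw [hpw]
          ring
  refine le_trans ?_ (le_of_mul_le_mul_right hfin h3)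
  exact mul_le_mul_of_nonneg_left hpr2 (by positivity)

theorem mass_eq {s : ℝ} (h0 : 3 / 4 < s) (h2 : s < 2) (h1 : s ≠ 1) {r : ℝ} (hr : 0 < r)
    {M K : ℝ} (hK : KOK s r M K) {V₁ V₂ : E3 → ℂ} (hV₁ : IsPot r M V₁) (hV₂ : IsPot r M V₂)
    (hF : ∀ τ : ℝ, K ≤ τ → ∀ η : Fin 3 → ℂ, Adm τ η → FC s r V₁ τ η = FC s r V₂ τ η)
    {y : E3} {c : ℝ} (hc : 0 < c)
    (hc₁ : ∀ᵐ x ∂(volume : Measure E3), x ∉ cone y c → V₁ x = 0)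
    (hc₂ : ∀ᵐ x ∂(volume : Measure E3), x ∉ cone y c → V₂ x = 0) {τ : ℝ} (hτ : 2 * K ≤ τ) :
    Tendsto (fun m : ℝ => (∫ z, (nz r V₁ ((τ ^ 2 : ℝ) : ℂ) y m : E3 → ℂ) z) -
      ∫ z, (nz r V₂ ((τ ^ 2 : ℝ) : ℂ) y m : E3 → ℂ) z) atTop (𝓝 0) := by
  obtain ⟨C1, hC1⟩ := mb_rem h0 h2 h1 hr hK hV₁ hc hc₁ hτ
  obtain ⟨C2, hC2⟩ := mb_rem h0 h2 h1 hr hK hV₂ hc hc₂ hτ
  have hK1 := hK.one
  have hτK : K ≤ τ / 2 := by linarith
  have hlim : Tendsto (fun m : ℝ => (C1 + C2) * (m / 2) ^ (-(3 / 2) : ℝ)) atTop (𝓝 0) := by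
    have h := (tendsto_rpow_neg_atTop (by norm_num : (0 : ℝ) < 3 / 2)).comp
      (tendsto_id.atTop_div_const (by norm_num : (0 : ℝ) < 2))
    have h' := h.const_mul (C1 + C2)
    rw [mul_zero] at h'
    exact h'
  refine squeeze_zero_norm' ?_ hlim
  filter_upwards [hC1, hC2, eventually_gt_atTop (0 : ℝ)] with m hm1 hm2 hm
  have hm0 : m ≠ 0 := hm.ne'
  have hadm : Adm (τ / 2) (em (m / 2) (((τ / 2) ^ 2 : ℝ) : ℂ)) :=
    em_adm (by linarith [hm] : (0 : ℝ) < m / 2).ne' (τ / 2)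
  have hFC := hF (τ / 2) hτK _ hadm
  rw [mb_FC hK hV₁ hτK, mb_FC hK hV₂ hτK] at hFC
  rw [mb_int hV₁ hm0, mb_int hV₂ hm0]
  have hd : pr (ec r (em (m / 2) (((τ / 2) ^ 2 : ℝ) : ℂ)))
        (mulL V₁ (ec r (em (m / 2) (((τ / 2) ^ 2 : ℝ) : ℂ)))) -
      pr (ec r (em (m / 2) (((τ / 2) ^ 2 : ℝ) : ℂ)))
        (mulL V₂ (ec r (em (m / 2) (((τ / 2) ^ 2 : ℝ) : ℂ)))) =
      pr (mulL V₂ (ec r (em (m / 2) (((τ / 2) ^ 2 : ℝ) : ℂ))))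
          (RI s r (τ / 2) (mulL V₂ (SI s r V₂ (τ / 2)
            (ec r (em (m / 2) (((τ / 2) ^ 2 : ℝ) : ℂ)))))) -
      pr (mulL V₁ (ec r (em (m / 2) (((τ / 2) ^ 2 : ℝ) : ℂ))))
          (RI s r (τ / 2) (mulL V₁ (SI s r V₁ (τ / 2)
            (ec r (em (m / 2) (((τ / 2) ^ 2 : ℝ) : ℂ)))))) := by
    linear_combination hFC
  rw [← mul_sub, hd, mul_sub]
  refine (norm_sub_le _ _).trans ?_
  rw [add_mul, add_comm]
  exact add_le_add hm1 hm2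

end FracScatC

end
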