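import Pool.Agent.Lib.MP_6e2ba5_an.Dx.MassA

/-! # Masses of the cube and of the octant

See `MassA.lean`. `cube_mass`: `∫_{cube x l} exp(η·(z-x)) dz = ∏_j (exp(l η_j) - 1)/η_j` (product measure on `EuclideanSpace`, or
`MeasureTheory.integral_fintype_prod_eq_prod`), `m/η_j → -1/ϑ_j`, `|exp(l η_j)| → 0` as `Re η_j → -∞`; `(-1)³·(-1)³ = 1`.
`oct_mass`: if `V = ρ 1_oct` near `y` then `∫ nz` differs from `ρ m³ ∫_{cube y l} exp(η·(z-y))` (`l` small, cube inside the
`δ`-ball and the ball) by terms with `dv·(x-y) ≥ c₁ > 0`, which are `O(m³ exp(-σ c₁))` (`cone_conc`, `cone_dir`). -/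

set_option autoImplicit false

open MeasureTheory Filter Topology Set
open scoped FourierTransform SchwartzMap InnerProductSpace ENNReal BoundedContinuousFunction

noncomputable section

namespace FracScatC

open FracScat

private theorem MassC_cd_sub (η : Fin 3 → ℂ) (x y : E3) : cd η (x - y) = cd η x - cd η y := by
  unfold cd
  rw [← Finset.sum_sub_distrib]
  refine Finset.sum_congr rfl fun j _ => ?_
  rw [PiLp.sub_apply, Complex.ofReal_sub, mul_sub]

/-- the pointwise formula -/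
private theorem MassC_coe {r M : ℝ} {V : E3 → ℂ} (hV : IsPot r M V) (ω : ℂ) (y : E3) (m : ℝ) :
    (nz r V ω y m : E3 → ℂ) =ᵐ[volume]
      fun x => (m : ℂ) ^ 3 * Complex.exp (cd (em m ω) (x - y)) * V x := by
  unfold nz
  filter_upwards [Lp.coeFn_smul ((m : ℂ) ^ 3 * Complex.exp (-cd (em m ω) y))
    (mulL V (ec r (em m ω))), mulL_coe hV.BM (ec r (em m ω)), ec_coe r (em m ω)] with x a b d
  rw [a, Pi.smul_apply, b, d, smul_eq_mul, MassC_cd_sub, sub_eq_add_neg, Complex.exp_add]
  unfold indB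
  split_ifs with h
  · ring
  · rw [hV.vanish x (not_lt.1 h)]
    ring

private theorem MassC_cut {r M : ℝ} {V : E3 → ℂ} (hV : IsPot r M V) (ω : ℂ) (y : E3) (m : ℝ) :
    mulL (indB r) (nz r V ω y m) = nz r V ω y m := by
  apply Lp.ext
  filter_upwards [mulL_coe (indB_BM r) (nz r V ω y m), MassC_coe hV ω y m] with x a b
  rw [a, b]
  unfold indB
  split_ifs with h
  · ring
  · rw [hV.vanish x (not_lt.1 h)]
    ring

private theorem MassC_int {r M : ℝ} {V : E3 → ℂ} (hV : IsPot r M V) (ω : ℂ) (y : E3) (m : ℝ) :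
    Integrable (nz r V ω y m : E3 → ℂ) :=
  integrable_of_indB (MassC_cut hV ω y m)

/-- one factor -/
private def MassC_f (η : ℂ) (m a l t : ℝ) : ℂ :=
  (Set.Ico a (a + l)).indicator (fun t : ℝ => (m : ℂ) * Complex.exp (η * ((t - a : ℝ) : ℂ))) t

private theorem MassC_f_int {η : ℂ} (hη : η ≠ 0) (m a : ℝ) {l : ℝ} (hl : 0 < l) :
    ∫ t, MassC_f η m a l t = (m : ℂ) / η * (Complex.exp (η * l) - 1) := by
  unfold MassC_f
  rw [integral_indicator measurableSet_Ico, integral_Ico_eq_integral_Ioc,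
    ← intervalIntegral.integral_of_le (by linarith), intervalIntegral.integral_const_mul]
  have h1 : (∫ t in a..(a + l), Complex.exp (η * ((t - a : ℝ) : ℂ))) =
      ∫ t in (0 : ℝ)..l, Complex.exp (η * ((t : ℝ) : ℂ)) := by
    rw [intervalIntegral.integral_comp_sub_right (fun t : ℝ => Complex.exp (η * ((t : ℝ) : ℂ))) a]
    congr 1 <;> ring
  rw [h1, integral_exp_mul_complex hη]
  simp
  ring

/-- the cube integral is a product -/
private theorem MassC_prod {r : ℝ} {x : E3} {l : ℝ}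
    (h : cube x l ⊆ Metric.ball 0 r) (ω : ℂ) (m : ℝ) :
    ∫ z, (nz r ((cube x l).indicator fun _ => (1 : ℂ)) ω x m : E3 → ℂ) z =
      ∏ j, ∫ t, MassC_f (em m ω j) m (x j) l t := by
  rw [integral_congr_ae (MassC_coe (cube_pot h) ω x m)]
  rw [← integral_fintype_prod_volume_eq_prod]
  rw [← (EuclideanSpace.volume_preserving_symm_measurableEquiv_toLp (Fin 3)).integral_comp
    (MeasurableEquiv.measurableEmbedding _)]
  apply integral_congr_ae
  refine Eventually.of_forall fun z => ?_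
  show (m : ℂ) ^ 3 * Complex.exp (cd (em m ω) (z - x)) *
    (cube x l).indicator (fun _ => (1 : ℂ)) z = ∏ j, MassC_f (em m ω j) m (x j) l (z j)
  by_cases hz : z ∈ cube x l
  · rw [indicator_of_mem hz]
    have h2 : ∀ j : Fin 3, MassC_f (em m ω j) m (x j) l (z j) =
        (m : ℂ) * Complex.exp (em m ω j * ((z j - x j : ℝ) : ℂ)) := by
      intro j
      unfold MassC_f
      rw [indicator_of_mem]
      exact ⟨(hz j).1, (hz j).2⟩
    rw [Finset.prod_congr rfl fun j _ => h2 j, Finset.prod_mul_distrib, Finset.prod_const,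
      ← Complex.exp_sum]
    simp only [Finset.card_univ, Fintype.card_fin, mul_one]
    rfl
  · rw [indicator_of_notMem hz, mul_zero]
    have h2 : ∃ j : Fin 3, ¬ (x j ≤ z j ∧ z j < x j + l) := by
      by_contra hcon
      push Not at hcon
      exact hz fun j => ⟨(hcon j).1, (hcon j).2⟩
    obtain ⟨j, hj⟩ := h2
    symm
    apply Finset.prod_eq_zero (Finset.mem_univ j)
    unfold MassC_f
    rw [indicator_of_notMem]
    exact hj

private theorem MassC_dv (j : Fin 3) : 0 < dv j := dv_pos (a := dv) (by simp) j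

private theorem MassC_bv (j : Fin 3) : (bv j : ℂ).im = 0 := Complex.ofReal_im _

private theorem MassC_em_re {m : ℝ} (hm : m ≠ 0) (ω : ℝ) (j : Fin 3) :
    (em m ω j).re = -((m + ω / (4 * m)) * dv j) := by
  have h1 : (ω : ℂ) / (4 * m) = ((ω / (4 * m) : ℝ) : ℂ) := by push_cast; rfl
  unfold em
  rw [h1]
  generalize ω / (4 * m) = q
  unfold vt vtb
  simp
  ring

private theorem MassC_lim (ω a : ℝ) {l : ℝ} (hl : 0 < l) (j : Fin 3) :
    Tendsto (fun m : ℝ => ∫ t, MassC_f (em m ω j) m a l t) atTop (𝓝 ((vt j)⁻¹)) := by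
  have hd := MassC_dv j
  have hv : vt j ≠ 0 := by
    intro h0
    have h1 : (vt j).re = dv j := by
      unfold vt
      simp
    rw [h0, Complex.zero_re] at h1
    exact hd.ne h1
  -- the quotient
  have hq : Tendsto (fun m : ℝ => em m ω j / m) atTop (𝓝 (-vt j)) := by
    have h1 : Tendsto (fun m : ℝ => -(vt j + ((ω / (4 * m ^ 2) : ℝ) : ℂ) * vtb j)) atTop
        (𝓝 (-(vt j + ((0 : ℝ) : ℂ) * vtb j))) := by
      have h2 : Tendsto (fun m : ℝ => ω / (4 * m ^ 2)) atTop (𝓝 0) := by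
        apply Tendsto.const_div_atTop
        exact (tendsto_pow_atTop two_ne_zero).const_mul_atTop (by norm_num)
      exact (tendsto_const_nhds.add (((Complex.continuous_ofReal.tendsto 0).comp h2).mul
        tendsto_const_nhds)).neg
    rw [Complex.ofReal_zero, zero_mul, add_zero] at h1
    refine h1.congr' ?_
    filter_upwards [eventually_gt_atTop 0] with m hm
    have hm' : (m : ℂ) ≠ 0 := Complex.ofReal_ne_zero.2 hm.ne'
    unfold em
    push_cast
    field_simp
  have hq2 : Tendsto (fun m : ℝ => (m : ℂ) / em m ω j) atTop (𝓝 ((-vt j)⁻¹)) := by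
    refine (hq.inv₀ (neg_ne_zero.2 hv)).congr fun m => ?_
    rw [inv_div]
  have he : Tendsto (fun m : ℝ => Complex.exp (em m ω j * l)) atTop (𝓝 0) := by
    rw [tendsto_zero_iff_norm_tendsto_zero]
    have h1 : Tendsto (fun m : ℝ => Real.exp (-(m * dv j * l) + |ω| * dv j * l)) atTop (𝓝 0) := by
      apply Real.tendsto_exp_atBot.comp
      apply tendsto_atBot_add_const_right
      apply tendsto_neg_atTop_atBot.comp
      exact (tendsto_id.atTop_mul_const hd).atTop_mul_const hl
    refine squeeze_zero' (Eventually.of_forall fun m => norm_nonneg _) ?_ h1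
    filter_upwards [eventually_ge_atTop 1] with m hm
    have hm0 : (0 : ℝ) < m := by linarith
    rw [Complex.norm_exp, Complex.re_mul_ofReal, MassC_em_re hm0.ne']
    apply Real.exp_le_exp.2
    have h2 : -|ω| ≤ ω / (4 * m) := by
      rw [le_div_iff₀ (by linarith)]
      have := neg_abs_le ω
      nlinarith [abs_nonneg ω]
    have h3 : 0 < dv j * l := mul_pos hd hl
    nlinarith
  have hfin := hq2.mul (he.sub (tendsto_const_nhds (x := (1 : ℂ))))
  have e : (-vt j)⁻¹ * (0 - 1) = (vt j)⁻¹ := by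
    rw [inv_neg]
    ring
  rw [e] at hfin
  refine hfin.congr' ?_
  filter_upwards [eventually_gt_atTop (|ω| + 1)] with m hm
  have hm0 : (0 : ℝ) < m := lt_of_le_of_lt (by positivity) hm
  have hη : em m ω j ≠ 0 := by
    intro h0
    have h1 := MassC_em_re hm0.ne' ω j
    rw [h0, Complex.zero_re] at h1
    have h2 : -|ω| ≤ ω / (4 * m) := by
      rw [le_div_iff₀ (by linarith)]
      have h3 := neg_abs_le ω
      have h4 := abs_nonneg ω
      nlinarith
    have h5 : 0 < (m + ω / (4 * m)) * dv j := mul_pos (by linarith) hd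
    linarith
  rw [MassC_f_int hη m a hl]

theorem cube_mass {r : ℝ} (hr : 0 < r) {x : E3} {l : ℝ} (hl : 0 < l)
    (h : cube x l ⊆ Metric.ball 0 r) (ω : ℝ) :
    Tendsto (fun m : ℝ => ∫ z, (nz r ((cube x l).indicator fun _ => (1 : ℂ)) (ω : ℂ) x m :
      E3 → ℂ) z) atTop (𝓝 T0) := by
  have hT : T0 = ∏ j, (vt j)⁻¹ := rfl
  rw [hT]
  have h1 : ∀ m : ℝ, ∫ z, (nz r ((cube x l).indicator fun _ => (1 : ℂ)) (ω : ℂ) x m :
      E3 → ℂ) z = ∏ j, ∫ t, MassC_f (em m ω j) m (x j) l t := fun m => MassC_prod h ω m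
  simp only [h1]
  refine tendsto_finsetProd _ fun j _ => ?_
  exact MassC_lim ω (x j) hl j

theorem oct_mass {r : ℝ} (hr : 0 < r) {M : ℝ} {V : E3 → ℂ} (hV : IsPot r M V) {y : E3}
    (hy : ‖y‖ < r) {c : ℝ} (hc : 0 < c)
    (hcv : ∀ᵐ x ∂(volume : Measure E3), x ∉ cone y c → V x = 0) {ρ : ℂ} {δ : ℝ} (hδ : 0 < δ)
    (htip : ∀ᵐ x ∂(volume : Measure E3), ‖x - y‖ < δ → V x = (oct y).indicator (fun _ => ρ) x)
    (ω : ℝ) :
    Tendsto (fun m : ℝ => ∫ z, (nz r V (ω : ℂ) y m : E3 → ℂ) z) atTop (𝓝 (ρ * T0)) := by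
  have hs3 : (0 : ℝ) < Real.sqrt 3 := Real.sqrt_pos.2 (by norm_num)
  -- the small cube
  obtain ⟨l, hl, hlr⟩ : ∃ l : ℝ, 0 < l ∧ Real.sqrt 3 * l < r - ‖y‖ := by
    refine ⟨(r - ‖y‖) / (2 * Real.sqrt 3), div_pos (by linarith) (by positivity), ?_⟩
    have e : Real.sqrt 3 * ((r - ‖y‖) / (2 * Real.sqrt 3)) = (r - ‖y‖) / 2 := by
      field_simp
    rw [e]
    linarith
  have hcube : cube y l ⊆ Metric.ball 0 r := by
    intro z hz
    rw [mem_ball_zero_iff]
    have h1 := cube_norm hz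
    have h2 : ‖z‖ ≤ ‖z - y‖ + ‖y‖ := by
      have := norm_add_le (z - y) y
      rwa [sub_add_cancel] at this
    linarith
  set W : E3 → ℂ := (cube y l).indicator fun _ => (1 : ℂ) with hWd
  have hW : IsPot r 1 W := cube_pot hcube
  have hWc : ∀ᵐ x ∂(volume : Measure E3), x ∉ cone y (1 / 2) → W x = 0 := by
    refine Eventually.of_forall fun x hx => ?_
    rw [hWd, indicator_of_notMem]
    intro h1
    exact hx (oct_cone y fun j => (h1 j).1)
  set d : ℝ := min δ l with hd
  have hd0 : 0 < d := lt_min hδ hl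
  have hm1 := (cube_mass hr hl hcube ω).const_mul ρ
  have hz1 := cone_conc hr hV hc hcv ω hd0
  have hz2 := (cone_conc hr hW (by norm_num : (0 : ℝ) < 1 / 2) hWc ω hd0).const_mul ‖ρ‖
  have hz := hz1.add hz2
  rw [mul_zero, add_zero] at hz
  set S : Set E3 := {x : E3 | d ≤ ‖x - y‖} with hS
  have hSm : MeasurableSet S := measurableSet_le measurable_const (by fun_prop)
  have hdiff : Tendsto (fun m : ℝ => (∫ z, (nz r V (ω : ℂ) y m : E3 → ℂ) z) -
      ρ * ∫ z, (nz r W (ω : ℂ) y m : E3 → ℂ) z) atTop (𝓝 0) := by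
    refine squeeze_zero_norm (fun m => ?_) hz
    have hi1 := MassC_int hV (ω : ℂ) y m
    have hi2 := (MassC_int hW (ω : ℂ) y m).const_mul ρ
    rw [← integral_const_mul, ← integral_sub hi1 hi2]
    have h0 : ∀ᵐ z ∂(volume : Measure E3), z ∉ S → (nz r V (ω : ℂ) y m : E3 → ℂ) z -
        ρ * (nz r W (ω : ℂ) y m : E3 → ℂ) z = 0 := by
      filter_upwards [MassC_coe hV (ω : ℂ) y m, MassC_coe hW (ω : ℂ) y m, htip] with z a b t hzS
      have hz3 : ‖z - y‖ < d := not_le.1 hzS
      rw [a, b, t (hz3.trans_le (min_le_left _ _))]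
      have hcomp : ∀ j, |z j - y j| < l := fun j => by
        have h1 := PiLp.norm_apply_le (z - y) j
        rw [PiLp.sub_apply, Real.norm_eq_abs] at h1
        exact (h1.trans_lt hz3).trans_le (min_le_right _ _)
      by_cases hzo : z ∈ oct y
      · have hzc : z ∈ cube y l := fun j => ⟨hzo j, by have := (abs_lt.1 (hcomp j)).2; linarith⟩
        rw [indicator_of_mem hzo, hWd, indicator_of_mem hzc]
        ring
      · have hzc : z ∉ cube y l := fun h1 => hzo fun j => (h1 j).1
        rw [indicator_of_notMem hzo, hWd, indicator_of_notMem hzc]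
        ring
    rw [← setIntegral_eq_integral_of_ae_compl_eq_zero h0]
    refine (norm_integral_le_integral_norm _).trans ?_
    rw [← integral_const_mul, ← integral_add hi1.norm.integrableOn
      ((MassC_int hW (ω : ℂ) y m).norm.integrableOn.const_mul ‖ρ‖)]
    refine integral_mono (hi1.sub hi2).norm.integrableOn (hi1.norm.integrableOn.add
      ((MassC_int hW (ω : ℂ) y m).norm.integrableOn.const_mul ‖ρ‖)) fun z => ?_
    show ‖(nz r V (ω : ℂ) y m : E3 → ℂ) z - ρ * (nz r W (ω : ℂ) y m : E3 → ℂ) z‖ ≤ _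
    refine (norm_sub_le _ _).trans ?_
    rw [norm_mul]
  have := hdiff.add hm1
  rw [zero_add] at this
  refine this.congr fun m => ?_
  ring

end FracScatC

end
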