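import Pool.Agent.Lib.MP_6e2ba5_an.Dx.Stab2
import Pool.Agent.Lib.MP_6e2ba5_an.Dx.KerT
import Pool.Agent.Lib.MP_6e2ba5_an.Dx.FinX

/-! # The open dense sets -/

set_option autoImplicit false

open MeasureTheory Filter Topology Set
open scoped FourierTransform SchwartzMap InnerProductSpace ENNReal BoundedContinuousFunction

noncomputable section

namespace FracScatC

open FracScat

/-- The linearised problem at `V` has only the trivial solution. -/
def kerTriv (s r K : ℝ) (V : E3 → ℂ) : Prop :=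
  ∀ w ∈ HB r, (∀ ξ : E3, K < ‖ξ‖ → A3 w (UA s r V ξ) (UA s r V ξ) = 0) → w = 0

theorem UA_congr {s r : ℝ} {V V' : E3 → ℂ} (h : V =ᵐ[volume] V') (ξ : E3) :
    UA s r V ξ = UA s r V' ξ := by
  unfold UA UK
  rw [mulL_congr h]

theorem kerTriv_congr {s r K : ℝ} {V V' : E3 → ℂ} (h : V =ᵐ[volume] V')
    (hk : kerTriv s r K V) : kerTriv s r K V' := by
  intro w hw hA
  refine hk w hw fun ξ hξ => ?_
  rw [UA_congr h]
  exact hA ξ hξ

theorem ker_open {s : ℝ} (h0 : 3 / 4 < s) (h2 : s < 2) (h1 : s ≠ 1) {r : ℝ} (hr : 0 < r)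
    {M K : ℝ} (hK : KOK s r M K) {V₁ : E3 → ℂ} (hV₁ : IsPot r M V₁) (hk : kerTriv s r K V₁) :
    ∃ κ : ℝ, 0 < κ ∧ ∀ V : E3 → ℂ, IsPot r M V → ‖dH r V - dH r V₁‖ ≤ κ →
      kerTriv s r K V := by
  by_contra hcon
  push Not at hcon
  choose V hV hVd hbad using fun j : ℕ => hcon (1 / ((j : ℝ) + 1)) (by positivity)
  have hbad' : ∀ j, ∃ w ∈ HB r, (∀ ξ : E3, K < ‖ξ‖ →
      A3 w (UA s r (V j) ξ) (UA s r (V j) ξ) = 0) ∧ w ≠ 0 := by
    intro j
    have := hbad j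
    unfold kerTriv at this
    push Not at this
    exact this
  choose w hw hwA hwne using hbad'
  have hd : Tendsto (fun j => dH r (V j)) atTop (𝓝 (dH r V₁)) := tendsto_of_le_inv hVd
  have hn := fun j => normalized (hw j) (Submodule.zero_mem (HB r)) (hwne j)
  simp only [sub_zero] at hn
  set u : ℕ → HS := fun j => ((((‖w j‖)⁻¹ : ℝ) : ℂ) • w j) with hu
  have huA : ∀ (j : ℕ) (ξ : E3), K < ‖ξ‖ → A3 (u j) (UA s r (V j) ξ) (UA s r (V j) ξ) = 0 := by
    intro j ξ hξ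
    rw [hu]
    simp only
    rw [A3_W_smul, hwA j ξ hξ, mul_zero]
  obtain ⟨φ, hφ, u₀, hu₀, hul⟩ := tseq h0 h2 h1 hr hK (V₁ := fun _ => V₁)
    (V₁' := fun _ => V₁) (V₂ := V) (V₂' := V)
    (fun _ => hV₁) (fun _ => hV₁) hV hV (w := u) (ε := fun _ => 0)
    (fun j => (hn j).1) (fun _ => Submodule.zero_mem _) (A := 1) (fun j => (hn j).2.le)
    (tendsto_const_nhds (x := (0 : HS))) (fun j ξ hξ => by
      rw [huA j ξ hξ, A3_zero_left (r := r) ξ ξ])
  have hz : u₀ = 0 := by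
    refine hk u₀ hu₀ fun ξ hξ => ?_
    have h3 := A3_pass h0 h2 h1 hr hK (V := fun j => V (φ j)) (U := fun j => V (φ j))
      (fun j => hV _) (fun j => hV _) hV₁ hV₁ (hd.comp hφ.tendsto_atTop)
      (hd.comp hφ.tendsto_atTop) hul hξ
    refine tendsto_nhds_unique h3 (Tendsto.congr (fun j => ?_) tendsto_const_nhds)
    exact (huA (φ j) ξ hξ).symm
  have h4 : Tendsto (fun j => ‖(u ∘ φ) j‖) atTop (𝓝 ‖u₀‖) := hul.norm
  have h5 : ∀ j, ‖(u ∘ φ) j‖ = 1 := fun j => (hn (φ j)).2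
  simp only [h5] at h4
  have h6 := tendsto_nhds_unique h4 tendsto_const_nhds
  rw [hz, norm_zero] at h6
  exact zero_ne_one h6

theorem Shell_smul {R' R : ℝ} {f : LI} (hf : f ∈ Shell R' R) (t : ℝ) : t • f ∈ Shell R' R := by
  refine map_mem_closure (continuous_const_smul t) hf ?_
  rintro g ⟨ρ, hρ, hg⟩
  refine ⟨ρ, hρ, ?_⟩
  filter_upwards [hg, Lp.coeFn_smul t g] with x h1 h2 hne
  refine h1 fun h => hne ?_
  rw [h2, Pi.smul_apply, h, smul_zero]

/-- Zero potential. -/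
theorem bpot_zero {R' : ℝ} : BPot R' 0 (fun _ : E3 => (0 : ℝ)) :=
  ⟨measurable_const, fun x => by rw [abs_zero], fun _ _ => rfl⟩

theorem pV_zero {R' R : ℝ} (f : Shell R' R) : pV (fun _ => 0) f = rp f := by
  funext x
  rw [pV, zero_add]

theorem rp_pot {R' R : ℝ} (f : Shell R' R) : IsPot (R + 1) ‖(f : LI)‖ (Vc (rp f)) := by
  refine pot_Vc (rp_meas f) (rp_bd f) fun x hx => ?_
  by_contra h
  linarith [(rp_van f x h).2]

/-- The sets with trivial kernel. -/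
theorem ker_set_open {s : ℝ} (h0 : 3 / 4 < s) (h2 : s < 2) (h1 : s ≠ 1) {R' R : ℝ}
    (hR : 0 < R + 1) (j : ℕ) {K : ℝ} (hK : KOK s (R + 1) ((j : ℝ) + 1) K) :
    IsOpen {f : Shell R' R | (j : ℝ) < ‖(f : LI)‖ ∨
      (‖(f : LI)‖ < (j : ℝ) + 1 ∧ kerTriv s (R + 1) K (Vc (rp f)))} := by
  have e1 : IsOpen {f : Shell R' R | (j : ℝ) < ‖(f : LI)‖} :=
    isOpen_lt continuous_const (continuous_norm.comp continuous_subtype_val)
  have e2 : IsOpen {f : Shell R' R | ‖(f : LI)‖ < (j : ℝ) + 1 ∧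
      kerTriv s (R + 1) K (Vc (rp f))} := by
    rw [Metric.isOpen_iff]
    rintro f ⟨hf1, hf2⟩
    obtain ⟨κ, hκ, hκs⟩ := ker_open h0 h2 h1 hR hK ((rp_pot f).mono hf1.le) hf2
    have hone : (0 : ℝ) < ‖oneB (R + 1)‖ + 1 := by positivity
    refine ⟨min ((j : ℝ) + 1 - ‖(f : LI)‖) (κ / (‖oneB (R + 1)‖ + 1)),
      lt_min (by linarith) (div_pos hκ hone), fun g hg => ?_⟩
    have hd : ‖(g : LI) - (f : LI)‖ < min ((j : ℝ) + 1 - ‖(f : LI)‖)
        (κ / (‖oneB (R + 1)‖ + 1)) := by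
      rw [Metric.mem_ball, Subtype.dist_eq, dist_eq_norm] at hg
      exact hg
    have hg1 : ‖(g : LI)‖ < (j : ℝ) + 1 := by
      have h4 := norm_sub_norm_le (g : LI) (f : LI)
      have h5 := lt_of_lt_of_le hd (min_le_left _ _)
      linarith
    refine ⟨hg1, hκs _ ((rp_pot g).mono hg1.le) ?_⟩
    have h6 : ‖dH (R + 1) (Vc (rp g)) - dH (R + 1) (Vc (rp f))‖ ≤
        ‖(g : LI) - (f : LI)‖ * ‖oneB (R + 1)‖ := by
      refine dH_sub_le (rp_pot g) (rp_pot f) (norm_nonneg _) ?_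
      filter_upwards [rp_sub g f] with x hx
      rw [Vc, Vc, ← Complex.ofReal_sub, Complex.norm_real, Real.norm_eq_abs]
      exact hx
    refine h6.trans ?_
    have h5 := lt_of_lt_of_le hd (min_le_right _ _)
    calc ‖(g : LI) - (f : LI)‖ * ‖oneB (R + 1)‖
        ≤ κ / (‖oneB (R + 1)‖ + 1) * ‖oneB (R + 1)‖ :=
          mul_le_mul_of_nonneg_right h5.le (norm_nonneg _)
      _ ≤ κ := by
          rw [div_mul_eq_mul_div, div_le_iff₀ hone]
          exact mul_le_mul_of_nonneg_left (by linarith) hκ.le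
  exact e1.union e2

theorem exists_good_t {S : Set ℂ} (hS : S.Finite) {η : ℝ} (hη : 0 < η) :
    ∃ t : ℝ, |t - 1| < η ∧ (t : ℂ) ∉ S := by
  have hfin : {t : ℝ | (t : ℂ) ∈ S}.Finite :=
    hS.preimage (Complex.ofReal_injective.injOn)
  have hinf : (Ioo (1 - η) (1 + η)).Infinite := Ioo_infinite (by linarith)
  obtain ⟨t, ht, htS⟩ := (hinf.diff hfin).nonempty
  refine ⟨t, abs_lt.2 ⟨by linarith [ht.1], by linarith [ht.2]⟩, htS⟩

theorem ker_set_dense {s : ℝ} (h0 : 3 / 4 < s) (h2 : s < 2) (h1 : s ≠ 1) {R' R : ℝ}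
    (hR : 0 < R + 1) (j : ℕ) (K : ℝ) :
    Dense {f : Shell R' R | (j : ℝ) < ‖(f : LI)‖ ∨
      (‖(f : LI)‖ < (j : ℝ) + 1 ∧ kerTriv s (R + 1) K (Vc (rp f)))} := by
  rw [Metric.dense_iff]
  intro f ε hε
  by_cases hf : (j : ℝ) < ‖(f : LI)‖
  · exact ⟨f, Metric.mem_ball_self hε, Or.inl hf⟩
  · push Not at hf
    obtain ⟨S, hS, -, hSt⟩ := ker_scale h0 h2 h1 hR (rp_pot f) 2 K
    set η : ℝ := min 1 (min ε 1 / (‖(f : LI)‖ + 1)) with hη
    have hfp : (0 : ℝ) < ‖(f : LI)‖ + 1 := by positivity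
    have hηpos : 0 < η := lt_min one_pos (div_pos (lt_min hε one_pos) hfp)
    obtain ⟨t, ht, htS⟩ := exists_good_t hS hηpos
    have ht2 : ‖(t : ℂ)‖ ≤ 2 := by
      rw [Complex.norm_real, Real.norm_eq_abs]
      have h5 : |t - 1| < 1 := lt_of_lt_of_le ht (min_le_left _ _)
      have h6 := abs_add_le (t - 1) 1
      rw [sub_add_cancel, abs_one] at h6
      linarith
    have hd : ‖t • (f : LI) - (f : LI)‖ < min ε 1 := by
      have e1 : t • (f : LI) - (f : LI) = (t - 1) • (f : LI) := by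
        rw [sub_smul, one_smul]
      rw [e1, norm_smul, Real.norm_eq_abs]
      have h5 : |t - 1| < min ε 1 / (‖(f : LI)‖ + 1) := lt_of_lt_of_le ht (min_le_right _ _)
      rw [lt_div_iff₀ hfp] at h5
      have h6 : |t - 1| * ‖(f : LI)‖ ≤ |t - 1| * (‖(f : LI)‖ + 1) :=
        mul_le_mul_of_nonneg_left (by linarith) (abs_nonneg _)
      linarith
    refine ⟨⟨t • (f : LI), Shell_smul f.2 t⟩, ?_, Or.inr ⟨?_, ?_⟩⟩
    · rw [Metric.mem_ball, Subtype.dist_eq, dist_eq_norm]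
      exact lt_of_lt_of_le hd (min_le_left _ _)
    · have h4 := norm_sub_norm_le (t • (f : LI)) (f : LI)
      have h5 := lt_of_lt_of_le hd (min_le_right _ _)
      show ‖t • (f : LI)‖ < (j : ℝ) + 1
      linarith
    · have hae : (fun x => (t : ℂ) * Vc (rp f) x) =ᵐ[volume]
          Vc (rp (⟨t • (f : LI), Shell_smul f.2 t⟩ : Shell R' R)) := by
        filter_upwards [rp_ae f, rp_ae (⟨t • (f : LI), Shell_smul f.2 t⟩ : Shell R' R),
          Lp.coeFn_smul t (f : LI)] with x e1 e2 e3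
        rw [Vc, Vc, ← e2]
        show (t : ℂ) * ((rp f x : ℝ) : ℂ) = (((t • (f : LI) : LI) x : ℝ) : ℂ)
        rw [e3, Pi.smul_apply, smul_eq_mul, e1, Complex.ofReal_mul]
      exact kerTriv_congr hae fun w hw hA => hSt t ht2 htS w hw hA

end FracScatC

end
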