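import Pool.Agent.Lib.MP_6e2ba5_an.Dx.FarG

/-! # The two perturbed kernels differ

If `(TI V₁ - TI V₂)(gX y) = 0` for all `τ ≥ K'`, then `(V₁ - V₂) S₂ (gX y) = 0` for these `τ` (`TI_sub_zero`, `τ ≥ K`). Let
`Z = {V₁ ≠ V₂, ‖x-y‖ ≥ δ}` (inside the ball): `SI V₂ (gX y) = 0` a.e. on `Z`, so by `farG` `∫_Z |κ kf(x-y)|² = 0`, `kf ≠ 0` (for
`x ≠ y`): `Z` is a null set for every `δ > 0`. So `V₁ = V₂` a.e. -/

set_option autoImplicit false

open MeasureTheory Filter Topology Set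
open scoped FourierTransform SchwartzMap InnerProductSpace ENNReal BoundedContinuousFunction

noncomputable section

namespace FracScatC

open FracScat

private theorem QZ_null {s : ℝ} (h0 : 3 / 4 < s) (h2 : s < 2) (h1 : s ≠ 1) {r : ℝ} (hr : 0 < r)
    {M K : ℝ} (hK : KOK s r M K) {V₁ V₂ : E3 → ℂ} (hV₁ : IsPot r M V₁) (hV₂ : IsPot r M V₂)
    {y : E3} (hy : ‖y‖ < r) (K' : ℝ)
    (hz : ∀ τ : ℝ, K' ≤ τ → K ≤ τ → (TI s r V₁ τ - TI s r V₂ τ) (gX s r τ y) = 0)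
    {δ : ℝ} (hδ : 0 < δ) :
    volume ({x : E3 | ‖x‖ < r ∧ δ ≤ ‖x - y‖} ∩ {x : E3 | V₁ x ≠ V₂ x}) = 0 := by
  obtain ⟨κ, hκ, hfar⟩ := farG h0 h2 h1
  have hlim := hfar hr hK hV₂ hy hδ
  set F : Set E3 := {x : E3 | ‖x‖ < r ∧ δ ≤ ‖x - y‖} with hF
  set Z : Set E3 := F ∩ {x : E3 | V₁ x ≠ V₂ x} with hZ
  have hFm : MeasurableSet F :=
    (measurableSet_lt measurable_norm measurable_const).inter
      (measurableSet_le measurable_const (measurable_norm.comp (measurable_id.sub_const y)))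
  have hZm : MeasurableSet Z :=
    hFm.inter (measurableSet_eq_fun hV₁.measurable hV₂.measurable).compl
  have hkm : Measurable (fun x : E3 => ‖κ * kf s (x - y)‖ₑ ^ 2) := by
    have : Measurable (fun x : E3 => κ * kf s (x - y)) := by
      unfold kf
      fun_prop
    exact this.enorm.pow_const 2
  have hbm : BM (fun x => V₁ x - V₂ x) := by
    refine ⟨(hV₁.measurable.sub hV₂.measurable).aestronglyMeasurable, M + M, ?_⟩
    exact Eventually.of_forall fun x =>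
      (norm_sub_le _ _).trans (add_le_add (hV₁.bounded x) (hV₂.bounded x))
  have hle : ∀ᶠ τ : ℝ in atTop, ∫⁻ x in Z, ‖κ * kf s (x - y)‖ₑ ^ 2 ≤
      ∫⁻ x in F, ‖zt s τ ^ 2 * (SI s r V₂ τ (gX s r τ y) : E3 → ℂ) x - κ * kf s (x - y)‖ₑ ^ 2 := by
    filter_upwards [eventually_ge_atTop K', eventually_ge_atTop K] with τ h3 h4
    have h5 := TI_sub_zero hK hV₁ hV₂ h4 (hz τ h3 h4)
    have h6 : ∀ᵐ x ∂(volume : Measure E3),
        (V₁ x - V₂ x) * (SI s r V₂ τ (gX s r τ y) : E3 → ℂ) x = 0 := by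
      have h7 := mulL_coe hbm (SI s r V₂ τ (gX s r τ y))
      rw [h5] at h7
      filter_upwards [h7, Lp.coeFn_zero ℂ 2 (volume : Measure E3)] with x hx hx0
      rw [← hx, hx0, Pi.zero_apply]
    have h8 : ∀ᵐ x ∂(volume.restrict Z), ‖κ * kf s (x - y)‖ₑ ^ 2 =
        ‖zt s τ ^ 2 * (SI s r V₂ τ (gX s r τ y) : E3 → ℂ) x - κ * kf s (x - y)‖ₑ ^ 2 := by
      rw [ae_restrict_iff' hZm]
      filter_upwards [h6] with x hx hxZ
      have hne : V₁ x - V₂ x ≠ 0 := sub_ne_zero.2 hxZ.2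
      have h9 : (SI s r V₂ τ (gX s r τ y) : E3 → ℂ) x = 0 := by
        rcases mul_eq_zero.1 hx with h | h
        · exact absurd h hne
        · exact h
      rw [h9, mul_zero, zero_sub, enorm_neg]
    rw [lintegral_congr_ae h8]
    exact lintegral_mono_set inter_subset_left
  have hzero : ∫⁻ x in Z, ‖κ * kf s (x - y)‖ₑ ^ 2 = 0 :=
    le_antisymm (ge_of_tendsto hlim hle) zero_le
  rw [lintegral_eq_zero_iff hkm, Filter.EventuallyEq, ae_restrict_iff' hZm] at hzero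
  have hnot : ∀ᵐ x ∂(volume : Measure E3), x ∉ Z := by
    filter_upwards [hzero] with x hx hxZ
    have h1x := hx hxZ
    simp only [Pi.zero_apply, pow_eq_zero_iff, ne_eq, OfNat.ofNat_ne_zero, not_false_eq_true,
      enorm_eq_zero, mul_eq_zero] at h1x
    rcases h1x with h | h
    · exact hκ h
    · have hpos : 0 < ‖x - y‖ := lt_of_lt_of_le hδ hxZ.1.2
      unfold kf at h
      exact (Real.rpow_pos_of_pos hpos _).ne' (Complex.ofReal_eq_zero.1 h)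
  have := ae_iff.1 hnot
  simpa using this

theorem QZ {s : ℝ} (h0 : 3 / 4 < s) (h2 : s < 2) (h1 : s ≠ 1) {r : ℝ} (hr : 0 < r)
    {M K : ℝ} (hK : KOK s r M K) {V₁ V₂ : E3 → ℂ} (hV₁ : IsPot r M V₁) (hV₂ : IsPot r M V₂)
    (hne : ¬ V₁ =ᵐ[volume] V₂) {y : E3} (hy : ‖y‖ < r) (K' : ℝ) :
    ∃ τ : ℝ, K' ≤ τ ∧ K ≤ τ ∧ (TI s r V₁ τ - TI s r V₂ τ) (gX s r τ y) ≠ 0 := by
  by_contra hcon
  push Not at hcon
  apply hne
  rw [Filter.EventuallyEq, ae_iff]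
  have hsub : {x : E3 | ¬ V₁ x = V₂ x} ⊆ {y} ∪ ⋃ n : ℕ,
      ({x : E3 | ‖x‖ < r ∧ 1 / ((n : ℝ) + 1) ≤ ‖x - y‖} ∩ {x : E3 | V₁ x ≠ V₂ x}) := by
    intro x hx
    by_cases hxy : x = y
    · exact Or.inl hxy
    · right
      have hpos : 0 < ‖x - y‖ := norm_pos_iff.2 (sub_ne_zero.2 hxy)
      obtain ⟨n, hn⟩ := exists_nat_one_div_lt hpos
      have hxr : ‖x‖ < r := by
        by_contra hge
        exact hx (by rw [hV₁.vanish x (not_lt.1 hge), hV₂.vanish x (not_lt.1 hge)])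
      exact mem_iUnion.2 ⟨n, ⟨hxr, hn.le⟩, hx⟩
  refine measure_mono_null hsub (measure_union_null (measure_singleton y) ?_)
  refine measure_iUnion_null fun n => ?_
  exact QZ_null h0 h2 h1 hr hK hV₁ hV₂ hy K' hcon Nat.one_div_pos_of_nat

end FracScatC

end
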