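import Pool.Agent.Lib.MP_6e2ba5_an.Dx.Bz

/-! # Local injectivity and local Lipschitz stability -/

set_option autoImplicit false

open MeasureTheory Filter Topology Set
open scoped FourierTransform SchwartzMap InnerProductSpace ENNReal BoundedContinuousFunction

noncomputable section

namespace FracScatC

open FracScat

theorem dH_sub {r M M' : ℝ} {A B : E3 → ℂ} (hA : IsPot r M A) (hB : IsPot r M' B) :
    dH r (fun x => A x - B x) = dH r A - dH r B := by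
  unfold dH
  rw [mulL_sub hA.BM hB.BM]
  rfl

theorem A3_zero_left {r : ℝ} (ξ ξ' : E3) (f g : HS) : A3 (0 : HS) f g = 0 := by
  have h6 := A3_W_smul 0 (0 : HS) f g
  rw [zero_smul, zero_mul] at h6
  exact h6

/-- The limit of the linearised forms. -/
theorem A3_pass {s : ℝ} (h0 : 3 / 4 < s) (h2 : s < 2) (h1 : s ≠ 1) {r : ℝ} (hr : 0 < r)
    {M K : ℝ} (hK : KOK s r M K) {V U : ℕ → E3 → ℂ} {V₀ U₀ : E3 → ℂ}
    (hV : ∀ n, IsPot r M (V n)) (hU : ∀ n, IsPot r M (U n)) (hV₀ : IsPot r M V₀)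
    (hU₀ : IsPot r M U₀) (dV : Tendsto (fun n => dH r (V n)) atTop (𝓝 (dH r V₀)))
    (dU : Tendsto (fun n => dH r (U n)) atTop (𝓝 (dH r U₀))) {w : ℕ → HS} {w₀ : HS}
    (hw : Tendsto w atTop (𝓝 w₀)) {ξ : E3} (hξ : K < ‖ξ‖) :
    Tendsto (fun n => A3 (w n) (UA s r (V n) ξ) (UA s r (U n) ξ)) atTop
      (𝓝 (A3 w₀ (UA s r V₀ ξ) (UA s r U₀ ξ))) := by
  have hS := AR_SymB h0 h2 h1 hr (hK.one.trans hξ.le)
  have hb := hK.ar ξ hξ.le
  have he := eH_Bd r ξ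
  exact A3_lim hw (UK_lim hS hV hV₀ hb dV he) (UK_lim hS hU hU₀ hb dU he)
    (fun n => UK_Bd hS (hV n) hb he) (fun n => UK_Bd hS (hU n) hb he)
    (UK_Bd hS hV₀ hb he) (UK_Bd hS hU₀ hb he)

/-- The normalised difference. -/
theorem normalized {r : ℝ} {a b : HS} (ha : a ∈ HB r) (hb : b ∈ HB r) (hne : a ≠ b) :
    ((((‖a - b‖)⁻¹ : ℝ) : ℂ) • (a - b)) ∈ HB r ∧ ‖((((‖a - b‖)⁻¹ : ℝ) : ℂ) • (a - b))‖ = 1 := by
  have hpos : 0 < ‖a - b‖ := norm_pos_iff.2 (sub_ne_zero.2 hne)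
  refine ⟨Submodule.smul_mem _ _ (Submodule.sub_mem _ ha hb), ?_⟩
  rw [norm_smul, Complex.norm_real, Real.norm_of_nonneg (inv_nonneg.2 hpos.le),
    inv_mul_cancel₀ hpos.ne']

theorem uniqL {s : ℝ} (h0 : 3 / 4 < s) (h2 : s < 2) (h1 : s ≠ 1) {r : ℝ} (hr : 0 < r)
    {M K : ℝ} (hK : KOK s r M K) {V₁ : E3 → ℝ} (hV₁ : IsPot r M (Vc V₁))
    (hker : ∀ w ∈ HB r, (∀ ξ : E3, K < ‖ξ‖ →
      A3 w (UA s r (Vc V₁) ξ) (UA s r (Vc V₁) ξ) = 0) → w = 0)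
    (huniq : ∀ U : E3 → ℝ, IsPot r M (Vc U) → SD s r (Vc V₁) (Vc U) →
      dH r (Vc U) = dH r (Vc V₁)) :
    ∃ δ : ℝ, 0 < δ ∧ ∀ V U : E3 → ℝ, IsPot r M (Vc V) → IsPot r M (Vc U) →
      ‖dH r (Vc V) - dH r (Vc V₁)‖ ≤ δ → SD s r (Vc V) (Vc U) →
      dH r (Vc V) = dH r (Vc U) := by
  by_contra hcon
  push Not at hcon
  choose V U hV hU hVd hSD hne using fun j : ℕ => hcon (1 / ((j : ℝ) + 1)) (by positivity)
  have hd : Tendsto (fun j => dH r (Vc (V j))) atTop (𝓝 (dH r (Vc V₁))) :=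
    tendsto_of_le_inv hVd
  obtain ⟨φ, hφ, U₀, hU₀, hlim, hSD₀⟩ := cptL h0 h2 h1 hr hV hU hV₁ hd hSD
  rw [huniq U₀ hU₀ hSD₀] at hlim
  set w : ℕ → HS := fun j => ((((‖dH r (Vc (V (φ j))) - dH r (Vc (U (φ j)))‖)⁻¹ : ℝ) : ℂ) •
    (dH r (Vc (V (φ j))) - dH r (Vc (U (φ j))))) with hw
  have hwn := fun j => normalized (dH_mem (hV (φ j))) (dH_mem (hU (φ j))) (hne (φ j))
  obtain ⟨ψ, hψ, w₀, hw₀, hwl⟩ := tseq h0 h2 h1 hr hK (V₁ := fun _ => Vc V₁)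
    (V₁' := fun _ => Vc V₁) (V₂ := fun n => Vc (V (φ n))) (V₂' := fun n => Vc (U (φ n)))
    (fun _ => hV₁) (fun _ => hV₁) (fun n => hV _) (fun n => hU _) (w := w) (ε := fun _ => 0)
    (fun n => (hwn n).1) (fun _ => Submodule.zero_mem _) (A := 1) (fun n => (hwn n).2.le)
    (tendsto_const_nhds (x := (0 : HS))) (fun n ξ hξ => by
      rw [hw]
      simp only
      rw [A3_W_smul, ← dH_sub (hV _) (hU _), FA_ident h0 h2 h1 hr hK (hV _) (hU _) hξ.le,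
        SD_FA h0 h2 h1 hr hK (hV _) (hU _) (hSD _) ξ hξ, sub_self, mul_zero,
        A3_zero_left (r := r) ξ ξ])
  have hφψ : Tendsto (fun n => φ (ψ n)) atTop atTop := (hφ.comp hψ).tendsto_atTop
  have hz : w₀ = 0 := by
    refine hker w₀ hw₀ fun ξ hξ => ?_
    have h3 := A3_pass h0 h2 h1 hr hK (V := fun n => Vc (V (φ (ψ n))))
      (U := fun n => Vc (U (φ (ψ n)))) (fun n => hV _) (fun n => hU _) hV₁ hV₁
      (hd.comp hφψ) (hlim.comp hψ.tendsto_atTop) hwl hξ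
    refine tendsto_nhds_unique h3 (Tendsto.congr (fun n => ?_) tendsto_const_nhds)
    show (0 : ℂ) = A3 (w (ψ n)) _ _
    rw [hw]
    simp only
    rw [A3_W_smul, ← dH_sub (hV _) (hU _), FA_ident h0 h2 h1 hr hK (hV _) (hU _) hξ.le,
      SD_FA h0 h2 h1 hr hK (hV _) (hU _) (hSD _) ξ hξ, sub_self, mul_zero]
  have h4 : Tendsto (fun n => ‖(w ∘ ψ) n‖) atTop (𝓝 ‖w₀‖) := hwl.norm
  have h5 : ∀ n, ‖(w ∘ ψ) n‖ = 1 := fun n => (hwn (ψ n)).2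
  simp only [h5] at h4
  have h6 := tendsto_nhds_unique h4 tendsto_const_nhds
  rw [hz, norm_zero] at h6
  exact zero_ne_one h6

end FracScatC

end
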