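import Pool.Agent.Lib.MP_6e2ba5_an.Dx.Stab
import Pool.Agent.Lib.MP_6e2ba5_an.Cx.UCont

/-! # Local Lipschitz stability, `s > 1` -/

set_option autoImplicit false

open MeasureTheory Filter Topology Set
open scoped FourierTransform SchwartzMap InnerProductSpace ENNReal BoundedContinuousFunction

noncomputable section

namespace FracScatC

open FracScat

private theorem st_sq (a b : ℝ≥0∞) : (a + b) ^ 2 ≤ 4 * (a ^ 2 + b ^ 2) := by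
  have key : ∀ x y : ℝ≥0∞, x ≤ y → (x + y) ^ 2 ≤ 4 * (x ^ 2 + y ^ 2) := by
    intro x y h
    calc (x + y) ^ 2 ≤ (y + y) ^ 2 := by gcongr
      _ = 4 * y ^ 2 := by rw [← two_mul, mul_pow]; norm_num
      _ ≤ 4 * (x ^ 2 + y ^ 2) := by gcongr; exact le_add_self
  rcases le_total a b with h | h
  · exact key a b h
  · rw [add_comm a b, add_comm (a ^ 2)]
    exact key b a h

theorem dseq {s : ℝ} (h0 : 3 / 4 < s) (h2 : s < 2) (h1 : s ≠ 1) {r : ℝ} (hr : 0 < r)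
    {M K : ℝ} (hK : KOK s r M K) {V₁ V₂ : ℕ → E3 → ℂ} (hV₁ : ∀ n, IsPot r M (V₁ n))
    (hV₂ : ∀ n, IsPot r M (V₂ n)) {w : ℕ → HS} (hw : ∀ n, w n ∈ HB r) {A : ℝ}
    (hA : ∀ n, ‖w n‖ ≤ A) {D : ℕ → E3 → ℝ≥0∞} (hDm : ∀ n, Measurable (D n))
    (hD : Tendsto (fun n => ∫⁻ ξ in {ξ : E3 | K < ‖ξ‖}, D n ξ ^ 2) atTop (𝓝 0))
    (hid : ∀ (n : ℕ) (ξ : E3), K < ‖ξ‖ →
      ‖A3 (w n) (UA s r (V₁ n) ξ) (UA s r (V₂ n) ξ)‖ₑ ≤ D n ξ) :
    ∃ φ : ℕ → ℕ, StrictMono φ ∧ ∃ w₀ ∈ HB r, Tendsto (w ∘ φ) atTop (𝓝 w₀) := by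
  obtain ⟨C, γ, hC, hγ, ht⟩ := tight h0 h2 h1 hr hK
  refine cmpct hr hw hA fun e he => ?_
  have he' : (0 : ℝ) < e / 8 := by positivity
  have hN2 : ∀ᶠ n : ℕ in atTop, C * (n : ℝ) ^ (-γ) * A ^ 2 ≤ e / 8 := by
    have h3 : Tendsto (fun n : ℕ => C * (n : ℝ) ^ (-γ) * A ^ 2) atTop (𝓝 (C * 0 * A ^ 2)) :=
      (((tendsto_rpow_neg_atTop hγ).comp tendsto_natCast_atTop_atTop).const_mul C).mul_const _
    rw [mul_zero, zero_mul] at h3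
    exact h3.eventually_le_const he'
  have hN3 : ∀ᶠ n : ℕ in atTop, K < (n : ℝ) := tendsto_natCast_atTop_atTop.eventually_gt_atTop K
  obtain ⟨N, hNb, hNd⟩ := (hN2.and hN3).exists
  refine ⟨N, ?_⟩
  have hms : MeasurableSet {ξ : E3 | (N : ℝ) ≤ ‖ξ‖} :=
    measurableSet_le measurable_const measurable_norm
  filter_upwards [hD.eventually_le_const (ENNReal.ofReal_pos.2 he')] with n hn
  obtain ⟨Gw, mGw, bGw, iGw⟩ := ht N hNd.le (V₁ n) (V₂ n) (hV₁ n) (hV₂ n) (w n) (hw n)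
  have hpow : (0 : ℝ) ≤ C * (N : ℝ) ^ (-γ) := mul_nonneg hC (Real.rpow_nonneg (Nat.cast_nonneg _) _)
  have i3 : ∫⁻ ξ in {ξ : E3 | (N : ℝ) ≤ ‖ξ‖}, Gw ξ ^ 2 ≤ ENNReal.ofReal (e / 8) := by
    refine iGw.trans (ENNReal.ofReal_le_ofReal (le_trans ?_ hNb))
    exact mul_le_mul_of_nonneg_left (pow_le_pow_left₀ (norm_nonneg _) (hA n) 2) hpow
  have i1 : ∫⁻ ξ in {ξ : E3 | (N : ℝ) ≤ ‖ξ‖}, D n ξ ^ 2 ≤ ENNReal.ofReal (e / 8) := by
    refine le_trans (lintegral_mono_set ?_) hn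
    intro ξ hξ
    exact lt_of_lt_of_le hNd hξ
  have hpt : ∀ ξ : E3, (N : ℝ) ≤ ‖ξ‖ → ‖ftX (w n) (-(2 : ℝ) • ξ)‖ₑ ≤ D n ξ + Gw ξ := by
    intro ξ hξ
    have e1 : ftX (w n) (-(2 : ℝ) • ξ) = A3 (w n) (UA s r (V₁ n) ξ) (UA s r (V₂ n) ξ) -
        (A3 (w n) (UA s r (V₁ n) ξ) (UA s r (V₂ n) ξ) - ftX (w n) (-(2 : ℝ) • ξ)) := by ring
    rw [e1]
    exact enorm_sub_le.trans (add_le_add (hid n ξ (lt_of_lt_of_le hNd hξ)) (bGw ξ hξ))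
  calc ∫⁻ ξ in {ξ : E3 | (N : ℝ) ≤ ‖ξ‖}, ‖ftX (w n) (-(2 : ℝ) • ξ)‖ₑ ^ 2 ≤
      ∫⁻ ξ in {ξ : E3 | (N : ℝ) ≤ ‖ξ‖}, 4 * (D n ξ ^ 2 + Gw ξ ^ 2) :=
        setLIntegral_mono' hms fun ξ hξ => by
          refine le_trans ?_ (st_sq _ _)
          gcongr
          exact hpt ξ hξ
    _ = 4 * ((∫⁻ ξ in {ξ : E3 | (N : ℝ) ≤ ‖ξ‖}, D n ξ ^ 2) +
        ∫⁻ ξ in {ξ : E3 | (N : ℝ) ≤ ‖ξ‖}, Gw ξ ^ 2) := by
        have m1 : Measurable fun ξ : E3 => D n ξ ^ 2 := (hDm n).pow_const 2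
        rw [lintegral_const_mul' _ _ (by norm_num), lintegral_add_left m1]
    _ ≤ 4 * (ENNReal.ofReal (e / 8) + ENNReal.ofReal (e / 8)) := by gcongr
    _ = ENNReal.ofReal e := by
        rw [← ENNReal.ofReal_add he'.le he'.le, show (4 : ℝ≥0∞) = ENNReal.ofReal 4 by simp,
          ← ENNReal.ofReal_mul (by norm_num)]
        congr 1
        ring

/-! ### Continuity in `ξ` -/

theorem UA_contP {s : ℝ} (h0 : 3 / 4 < s) (h2 : s < 2) (h1 : 1 < s) {r : ℝ} (hr : 0 < r)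
    {M K : ℝ} (hK : KOK s r M K) {V : E3 → ℂ} (hV : IsPot r M V) :
    ContinuousOn (UA s r V) {ξ : E3 | K < ‖ξ‖} := by
  have hK1 := hK.one
  have hkx : Continuous fun ξ : E3 => kx ξ := by
    unfold kx
    fun_prop
  have hAR : ContinuousOn (fun ξ : E3 => AR s r ξ) {ξ : E3 | K < ‖ξ‖} := by
    have h3 : ContinuousOn (fun ξ : E3 => Kop s r (kx ξ)) {ξ : E3 | K < ‖ξ‖} := by
      refine (Kop_cont (by linarith) h2 hr.le).comp hkx.continuousOn fun ξ hξ => ?_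
      have h4 : K < ‖ξ‖ := hξ
      exact kx_mem_Quad (norm_pos_iff.1 (by linarith))
    refine h3.congr fun ξ _ => ?_
    show AR s r ξ = Kop s r (kx ξ)
    rw [AR, if_pos h1]
  have hinv : ContinuousOn (fun ξ : E3 => Ring.inverse (1 - AR s r ξ ∘L mulL V))
      {ξ : E3 | K < ‖ξ‖} := by
    intro ξ hξ
    have hξ' : K < ‖ξ‖ := hξ
    have hu : IsUnit (1 - AR s r ξ ∘L mulL V) :=
      isUnit_one_sub_of_norm_lt_one (lt_of_le_of_lt (UK_T hV (hK.ar ξ hξ'.le)) (by norm_num))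
    obtain ⟨u, hu⟩ := hu
    have h3 : ContinuousWithinAt (fun ξ : E3 => 1 - AR s r ξ ∘L mulL V) {ξ : E3 | K < ‖ξ‖} ξ :=
      continuousWithinAt_const.sub ((hAR ξ hξ).clm_comp continuousWithinAt_const)
    have h4 := NormedRing.inverse_continuousAt u
    rw [hu] at h4
    exact ContinuousAt.comp_continuousWithinAt (g := Ring.inverse) h4 h3
  exact hinv.clm_apply (eH_cont r).continuousOn

theorem UA_Bd_unif {s : ℝ} (h0 : 3 / 4 < s) (h2 : s < 2) (h1 : s ≠ 1) {r : ℝ} (hr : 0 < r)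
    {M K : ℝ} (hK : KOK s r M K) {V : E3 → ℂ} (hV : IsPot r M V) :
    ∃ B : ℝ, ∀ ξ : E3, K < ‖ξ‖ → Bd B (UA s r V ξ) := by
  obtain ⟨C, hC, hCa⟩ := aH_norm h0 h2 h1 hr
  refine ⟨1 + C * (M * (2 * ‖oneB r‖)), fun ξ hξ => ?_⟩
  have hξ1 : 1 ≤ ‖ξ‖ := hK.one.trans hξ.le
  have h3 := UK_Bd (AR_SymB h0 h2 h1 hr hξ1) hV (hK.ar ξ hξ.le) (eH_Bd r ξ)
  have h4 : ‖aH s r ξ‖ ≤ C := by
    refine (hCa ξ hξ1).trans ?_
    have h5 : ‖ξ‖ ^ (-(bE s)) ≤ 1 :=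
      Real.rpow_le_one_of_one_le_of_nonpos hξ1 (by linarith [bE_pos h0 h1])
    nlinarith
  have hM := hV.nonneg
  have h6 : ‖aH s r ξ‖ * (M * (2 * ‖eH r ξ‖)) ≤ C * (M * (2 * ‖oneB r‖)) := by
    have h7 := norm_eH_le r ξ
    have h8 : M * (2 * ‖eH r ξ‖) ≤ M * (2 * ‖oneB r‖) :=
      mul_le_mul_of_nonneg_left (by linarith) hM
    have h9 : 0 ≤ M * (2 * ‖eH r ξ‖) := by positivity
    exact mul_le_mul h4 h8 h9 hC
  filter_upwards [h3] with x hx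
  exact hx.trans (by linarith)

theorem A3_contP {s : ℝ} (h0 : 3 / 4 < s) (h2 : s < 2) (h1 : 1 < s) {r : ℝ} (hr : 0 < r)
    {M K : ℝ} (hK : KOK s r M K) {V U : E3 → ℂ} (hV : IsPot r M V) (hU : IsPot r M U) (w : HS) :
    ContinuousOn (fun ξ : E3 => A3 w (UA s r V ξ) (UA s r U ξ)) {ξ : E3 | K < ‖ξ‖} := by
  obtain ⟨B₁, hB₁⟩ := UA_Bd_unif h0 h2 h1.ne' hr hK hV
  obtain ⟨B₂, hB₂⟩ := UA_Bd_unif h0 h2 h1.ne' hr hK hU
  have hB₁' : ∀ ξ : E3, K < ‖ξ‖ → Bd (max B₁ B₂) (UA s r V ξ) := fun ξ hξ => by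
    filter_upwards [hB₁ ξ hξ] with x hx
    exact hx.trans (le_max_left _ _)
  have hB₂' : ∀ ξ : E3, K < ‖ξ‖ → Bd (max B₁ B₂) (UA s r U ξ) := fun ξ hξ => by
    filter_upwards [hB₂ ξ hξ] with x hx
    exact hx.trans (le_max_right _ _)
  have hopen : IsOpen {ξ : E3 | K < ‖ξ‖} := isOpen_lt continuous_const continuous_norm
  intro ξ hξ
  refine ContinuousAt.continuousWithinAt ?_
  have hcV := ((UA_contP h0 h2 h1 hr hK hV) ξ hξ).continuousAt (hopen.mem_nhds hξ)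
  have hcU := ((UA_contP h0 h2 h1 hr hK hU) ξ hξ).continuousAt (hopen.mem_nhds hξ)
  refine tendsto_of_seq_tendsto fun u hu => ?_
  -- modify the sequence to stay in the open set
  have hev : ∀ᶠ n in atTop, K < ‖u n‖ := hu.eventually (hopen.mem_nhds hξ)
  classical
  set v : ℕ → E3 := fun n => if K < ‖u n‖ then u n else ξ with hv
  have hvK : ∀ n, K < ‖v n‖ := by
    intro n
    rw [hv]
    simp only
    split_ifs with h
    · exact h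
    · exact hξ
  have huv : u =ᶠ[atTop] v := by
    filter_upwards [hev] with n hn
    rw [hv]
    simp only
    rw [if_pos hn]
  have hvt : Tendsto v atTop (𝓝 ξ) := hu.congr' huv
  have h3 : Tendsto (fun n => A3 w (UA s r V (v n)) (UA s r U (v n))) atTop
      (𝓝 (A3 w (UA s r V ξ) (UA s r U ξ))) :=
    A3_lim (w := fun _ => w) tendsto_const_nhds (hcV.tendsto.comp hvt) (hcU.tendsto.comp hvt)
      (fun n => hB₁' _ (hvK n)) (fun n => hB₂' _ (hvK n)) (hB₁' ξ hξ) (hB₂' ξ hξ)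
  refine h3.congr' ?_
  filter_upwards [huv] with n hn
  show A3 w (UA s r V (v n)) (UA s r U (v n)) = A3 w (UA s r V (u n)) (UA s r U (u n))
  rw [hn]

/-- A continuous function on an open set with a majorant sequence tending to zero in `L²`. -/
theorem zero_of_majorant {S : Set E3} (hS : IsOpen S) {g : E3 → ℂ} (hg : ContinuousOn g S)
    {gn : ℕ → E3 → ℂ} (hlim : ∀ ξ ∈ S, Tendsto (fun n => gn n ξ) atTop (𝓝 (g ξ)))
    {D : ℕ → E3 → ℝ≥0∞} (hDm : ∀ n, Measurable (D n))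
    (hD : Tendsto (fun n => ∫⁻ ξ in S, D n ξ ^ 2) atTop (𝓝 0))
    (hb : ∀ n, ∀ ξ ∈ S, ‖gn n ξ‖ₑ ≤ D n ξ) : ∀ ξ ∈ S, g ξ = 0 := by
  have h1 : ∀ ξ ∈ S, ‖g ξ‖ₑ ^ 2 ≤ liminf (fun n => D n ξ ^ 2) atTop := by
    intro ξ hξ
    have h3 : Tendsto (fun n => ‖gn n ξ‖ₑ ^ 2) atTop (𝓝 (‖g ξ‖ₑ ^ 2)) :=
      ((ENNReal.continuous_pow 2).tendsto _).comp (hlim ξ hξ).enorm
    rw [← h3.liminf_eq]
    refine liminf_le_liminf (Eventually.of_forall fun n => ?_)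
    gcongr
    exact hb n ξ hξ
  have h2 : ∫⁻ ξ in S, ‖g ξ‖ₑ ^ 2 = 0 := by
    refine le_antisymm ?_ bot_le
    calc ∫⁻ ξ in S, ‖g ξ‖ₑ ^ 2 ≤ ∫⁻ ξ in S, liminf (fun n => D n ξ ^ 2) atTop :=
          setLIntegral_mono' hS.measurableSet h1
      _ ≤ liminf (fun n => ∫⁻ ξ in S, D n ξ ^ 2) atTop :=
          lintegral_liminf_le fun n => (hDm n).pow_const 2
      _ = 0 := hD.liminf_eq
  have hm : AEMeasurable (fun ξ => ‖g ξ‖ₑ ^ 2) (volume.restrict S) := by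
    have h3 : AEMeasurable g (volume.restrict S) := hg.aemeasurable hS.measurableSet
    exact h3.enorm.pow_const 2
  have h4 := (lintegral_eq_zero_iff' hm).1 h2
  have h5 : g =ᵐ[volume.restrict S] fun _ => 0 := by
    filter_upwards [h4] with ξ hξ
    simpa using hξ
  have h6 : EqOn g (fun _ => 0) S :=
    Measure.eqOn_open_of_ae_eq h5 hS hg continuousOn_const
  exact fun ξ hξ => h6 hξ

theorem FA_Ffun {s r : ℝ} (h1 : 1 < s) (V : E3 → ℂ) {ξ : E3} (hξ : ξ ≠ 0) :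
    FA s r V ξ = Ffun s r V (‖ξ‖⁻¹ • ξ) (kx ξ) := by
  unfold FA UA UK AR
  rw [if_pos h1, eH_eq_ev r hξ]
  rfl

theorem SD_of_FA {s r K : ℝ} (h1 : 1 < s) (hK : 0 ≤ K) {V₁ V₂ : E3 → ℂ}
    (h : ∀ ξ : E3, K < ‖ξ‖ → FA s r V₁ ξ = FA s r V₂ ξ) : SD s r V₁ V₂ := by
  refine ⟨2 * Real.pi * K + 1, fun θ hθ k hk => ?_⟩
  have hpi := Real.pi_pos
  have hkpos : 0 < k := by
    have : 0 ≤ 2 * Real.pi * K := by positivity
    linarith
  set ξ : E3 := (k / (2 * Real.pi)) • θ with hξ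
  have hn : ‖ξ‖ = k / (2 * Real.pi) := by
    rw [hξ, norm_smul, hθ, mul_one, Real.norm_of_nonneg (by positivity)]
  have hKξ : K < ‖ξ‖ := by
    rw [hn, lt_div_iff₀ (by positivity)]
    linarith
  have hξ0 : ξ ≠ 0 := norm_pos_iff.1 (lt_of_le_of_lt hK hKξ)
  have h3 := h ξ hKξ
  rw [FA_Ffun h1 V₁ hξ0, FA_Ffun h1 V₂ hξ0] at h3
  have e1 : ‖ξ‖⁻¹ • ξ = θ := by
    rw [hn, hξ, smul_smul, inv_mul_cancel₀ (by positivity), one_smul]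
  have e2 : kx ξ = (k : ℂ) := by
    rw [kx, hn]
    congr 1
    field_simp
  rwa [e1, e2] at h3

theorem stabL {s : ℝ} (h0 : 3 / 4 < s) (h2 : s < 2) (h1 : 1 < s) {r : ℝ} (hr : 0 < r)
    {M K : ℝ} (hK : KOK s r M K) {V₁ : E3 → ℝ} (hV₁ : IsPot r M (Vc V₁))
    (hker : ∀ w ∈ HB r, (∀ ξ : E3, K < ‖ξ‖ →
      A3 w (UA s r (Vc V₁) ξ) (UA s r (Vc V₁) ξ) = 0) → w = 0)
    (huniq : ∀ U : E3 → ℝ, IsPot r M (Vc U) → SD s r (Vc V₁) (Vc U) →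
      dH r (Vc U) = dH r (Vc V₁)) :
    ∃ δ C : ℝ, 0 < δ ∧ 0 ≤ C ∧ ∀ V U : E3 → ℝ, IsPot r M (Vc V) → IsPot r M (Vc U) →
      ‖dH r (Vc V) - dH r (Vc V₁)‖ ≤ δ → ∀ D : E3 → ℝ≥0∞, Measurable D →
      (∀ ξ : E3, K < ‖ξ‖ → ‖FA s r (Vc V) ξ - FA s r (Vc U) ξ‖ₑ ≤ D ξ) →
      ‖dH r (Vc V) - dH r (Vc U)‖ₑ ^ 2 ≤
        ENNReal.ofReal C * ∫⁻ ξ in {ξ : E3 | K < ‖ξ‖}, D ξ ^ 2 := by
  by_contra hcon
  push Not at hcon
  choose V U hV hU hVd D hDm hDb hlt using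
    fun j : ℕ => hcon (1 / ((j : ℝ) + 1)) ((j : ℝ) + 1) (by positivity) (by positivity)
  have hS : IsOpen {ξ : E3 | K < ‖ξ‖} := isOpen_lt continuous_const continuous_norm
  have hne1 := h1.ne'
  have hd : Tendsto (fun j => dH r (Vc (V j))) atTop (𝓝 (dH r (Vc V₁))) :=
    tendsto_of_le_inv hVd
  set T : ℕ → ℝ := fun j => ‖dH r (Vc (V j)) - dH r (Vc (U j))‖ with hT
  have hTm : ∀ j, T j ≤ 2 * (M * ‖oneB r‖) := by
    intro j
    have e1 := norm_dH_le (hV j)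
    have e2 := norm_dH_le (hU j)
    have e3 := norm_sub_le (dH r (Vc (V j))) (dH r (Vc (U j)))
    rw [hT]
    simp only
    linarith
  have hlt' : ∀ j : ℕ, ENNReal.ofReal ((j : ℝ) + 1) * ∫⁻ ξ in {ξ : E3 | K < ‖ξ‖}, D j ξ ^ 2 <
      ENNReal.ofReal (T j ^ 2) := by
    intro j
    have e1 : ‖dH r (Vc (V j)) - dH r (Vc (U j))‖ₑ ^ 2 = ENNReal.ofReal (T j ^ 2) := by
      rw [← ofReal_norm, ← ENNReal.ofReal_pow (norm_nonneg _)]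
    rw [← e1]
    exact hlt j
  have hTpos : ∀ j : ℕ, 0 < T j := by
    intro j
    have h3 : 0 < ENNReal.ofReal (T j ^ 2) := lt_of_le_of_lt bot_le (hlt' j)
    rw [ENNReal.ofReal_pos] at h3
    have h4 : 0 ≤ T j := norm_nonneg _
    exact lt_of_le_of_ne h4 fun h => by
      rw [← h] at h3
      norm_num at h3
  have hne : ∀ j, dH r (Vc (V j)) ≠ dH r (Vc (U j)) := by
    intro j h
    have := hTpos j
    rw [hT] at this
    simp only at this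
    rw [h, sub_self, norm_zero] at this
    exact lt_irrefl _ this
  -- the bound of the data
  have hDle : ∀ j : ℕ, ∫⁻ ξ in {ξ : E3 | K < ‖ξ‖}, D j ξ ^ 2 ≤
      ENNReal.ofReal (T j ^ 2 / ((j : ℝ) + 1)) := by
    intro j
    have hj : (0 : ℝ) < (j : ℝ) + 1 := by positivity
    rw [ENNReal.ofReal_div_of_pos hj, ENNReal.le_div_iff_mul_le (Or.inl (by
      rw [Ne, ENNReal.ofReal_eq_zero, not_le]; exact hj)) (Or.inl ENNReal.ofReal_ne_top), mul_comm]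
    exact (hlt' j).le
  have hD0 : Tendsto (fun j => ∫⁻ ξ in {ξ : E3 | K < ‖ξ‖}, D j ξ ^ 2) atTop (𝓝 0) := by
    have h3 : Tendsto (fun j : ℕ => ENNReal.ofReal ((2 * (M * ‖oneB r‖)) ^ 2 *
        (1 / ((j : ℝ) + 1)))) atTop (𝓝 (ENNReal.ofReal ((2 * (M * ‖oneB r‖)) ^ 2 * 0))) :=
      ENNReal.tendsto_ofReal (tendsto_inv_nat.const_mul _)
    rw [mul_zero, ENNReal.ofReal_zero] at h3
    refine tendsto_of_tendsto_of_tendsto_of_le_of_le tendsto_const_nhds h3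
      (fun _ => bot_le) (fun j => (hDle j).trans (ENNReal.ofReal_le_ofReal ?_))
    rw [mul_one_div]
    refine div_le_div_of_nonneg_right ?_ (by positivity)
    exact pow_le_pow_left₀ (hTpos j).le (hTm j) 2
  have hid : ∀ (j : ℕ) (ξ : E3), K < ‖ξ‖ →
      A3 (dH r (Vc (V j)) - dH r (Vc (U j))) (UA s r (Vc (V j)) ξ) (UA s r (Vc (U j)) ξ) =
        FA s r (Vc (V j)) ξ - FA s r (Vc (U j)) ξ := by
    intro j ξ hξ
    rw [← dH_sub (hV j) (hU j), FA_ident h0 h2 hne1 hr hK (hV j) (hU j) hξ.le]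
  -- first step: `U j → V₁`
  obtain ⟨φ, hφ, w₀, hw₀, hwl⟩ := dseq h0 h2 hne1 hr hK (V₁ := fun j => Vc (V j))
    (V₂ := fun j => Vc (U j)) hV hU (w := fun j => dH r (Vc (V j)) - dH r (Vc (U j)))
    (fun j => Submodule.sub_mem _ (dH_mem (hV j)) (dH_mem (hU j))) (A := 2 * (M * ‖oneB r‖))
    hTm hDm hD0 (fun j ξ hξ => by rw [hid j ξ hξ]; exact hDb j ξ hξ)
  have hφt := hφ.tendsto_atTop
  have hUl : Tendsto (fun j => dH r (Vc (U (φ j)))) atTop (𝓝 (dH r (Vc V₁) - w₀)) := by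
    have := (hd.comp hφt).sub hwl
    refine this.congr fun j => ?_
    simp
  obtain ⟨U₀, hU₀, hU₀e⟩ := rep_pot hV₁.nonneg (fun j => hU (φ j)) hUl
  have hFA0 : ∀ ξ ∈ {ξ : E3 | K < ‖ξ‖}, A3 w₀ (UA s r (Vc V₁) ξ) (UA s r (Vc U₀) ξ) = 0 := by
    refine zero_of_majorant hS (A3_contP h0 h2 h1 hr hK hV₁ hU₀ w₀)
      (gn := fun j ξ => A3 (dH r (Vc (V (φ j))) - dH r (Vc (U (φ j))))
        (UA s r (Vc (V (φ j))) ξ) (UA s r (Vc (U (φ j))) ξ)) ?_ (D := fun j => D (φ j))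
      (fun j => hDm _) (hD0.comp hφt) ?_
    · intro ξ hξ
      exact A3_pass h0 h2 hne1 hr hK (V := fun j => Vc (V (φ j))) (U := fun j => Vc (U (φ j)))
        (fun j => hV _) (fun j => hU _) hV₁ hU₀ (hd.comp hφt) (by rw [hU₀e]; exact hUl) hwl hξ
    · intro j ξ hξ
      rw [hid _ ξ hξ]
      exact hDb _ ξ hξ
  have hw₀e : w₀ = dH r (Vc V₁) - dH r (Vc U₀) := by
    rw [hU₀e]
    abel
  have hSD : SD s r (Vc V₁) (Vc U₀) := by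
    refine SD_of_FA h1 (by linarith [hK.one]) (K := K) fun ξ hξ => ?_
    have h3 := hFA0 ξ hξ
    rw [hw₀e, ← dH_sub hV₁ hU₀, FA_ident h0 h2 hne1 hr hK hV₁ hU₀ (le_of_lt hξ)] at h3
    exact sub_eq_zero.1 h3
  have hUlim : Tendsto (fun j => dH r (Vc (U (φ j)))) atTop (𝓝 (dH r (Vc V₁))) := by
    rw [← huniq U₀ hU₀ hSD, hU₀e]
    exact hUl
  -- second step: the normalised differences
  set w : ℕ → HS := fun j => ((((T (φ j))⁻¹ : ℝ) : ℂ) •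
    (dH r (Vc (V (φ j))) - dH r (Vc (U (φ j))))) with hw
  have hwn := fun j => normalized (dH_mem (hV (φ j))) (dH_mem (hU (φ j))) (hne (φ j))
  set D' : ℕ → E3 → ℝ≥0∞ := fun j ξ => ENNReal.ofReal (T (φ j))⁻¹ * D (φ j) ξ with hD'
  have hD'm : ∀ j, Measurable (D' j) := fun j => (hDm _).const_mul _
  have hD'0 : Tendsto (fun j => ∫⁻ ξ in {ξ : E3 | K < ‖ξ‖}, D' j ξ ^ 2) atTop (𝓝 0) := by
    have h3 : Tendsto (fun j : ℕ => ENNReal.ofReal (1 / ((φ j : ℝ) + 1))) atTop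
        (𝓝 (ENNReal.ofReal 0)) :=
      ENNReal.tendsto_ofReal (tendsto_inv_nat.comp hφt)
    rw [ENNReal.ofReal_zero] at h3
    refine tendsto_of_tendsto_of_tendsto_of_le_of_le tendsto_const_nhds h3
      (fun _ => bot_le) (fun j => ?_)
    have hTj := hTpos (φ j)
    have e1 : ∫⁻ ξ in {ξ : E3 | K < ‖ξ‖}, D' j ξ ^ 2 =
        ENNReal.ofReal ((T (φ j))⁻¹ ^ 2) * ∫⁻ ξ in {ξ : E3 | K < ‖ξ‖}, D (φ j) ξ ^ 2 := by
      rw [← lintegral_const_mul _ ((hDm _).pow_const 2)]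
      refine lintegral_congr fun ξ => ?_
      rw [hD']
      simp only
      rw [mul_pow, ENNReal.ofReal_pow (inv_nonneg.2 hTj.le)]
    rw [e1]
    calc ENNReal.ofReal ((T (φ j))⁻¹ ^ 2) * ∫⁻ ξ in {ξ : E3 | K < ‖ξ‖}, D (φ j) ξ ^ 2
        ≤ ENNReal.ofReal ((T (φ j))⁻¹ ^ 2) * ENNReal.ofReal (T (φ j) ^ 2 / ((φ j : ℝ) + 1)) :=
          mul_le_mul_right (hDle _) _
      _ = ENNReal.ofReal (1 / ((φ j : ℝ) + 1)) := by
          rw [← ENNReal.ofReal_mul (by positivity)]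
          congr 1
          field_simp
  have hidw : ∀ (j : ℕ) (ξ : E3), K < ‖ξ‖ →
      ‖A3 (w j) (UA s r (Vc (V (φ j))) ξ) (UA s r (Vc (U (φ j))) ξ)‖ₑ ≤ D' j ξ := by
    intro j ξ hξ
    rw [hw]
    simp only
    rw [A3_W_smul, hid _ ξ hξ, enorm_mul, hD']
    simp only
    refine mul_le_mul' ?_ (hDb _ ξ hξ)
    rw [← ofReal_norm, Complex.norm_real, Real.norm_of_nonneg (inv_nonneg.2 (hTpos _).le)]
  obtain ⟨ψ, hψ, w₁, hw₁, hwl₁⟩ := dseq h0 h2 hne1 hr hK (V₁ := fun j => Vc (V (φ j)))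
    (V₂ := fun j => Vc (U (φ j))) (fun j => hV _) (fun j => hU _) (w := w)
    (fun j => (hwn j).1) (A := 1) (fun j => (hwn j).2.le) hD'm hD'0 hidw
  have hψt := hψ.tendsto_atTop
  have hz : w₁ = 0 := by
    refine hker w₁ hw₁ ?_
    refine zero_of_majorant hS (A3_contP h0 h2 h1 hr hK hV₁ hV₁ w₁)
      (gn := fun j ξ => A3 (w (ψ j)) (UA s r (Vc (V (φ (ψ j)))) ξ)
        (UA s r (Vc (U (φ (ψ j)))) ξ)) ?_ (D := fun j => D' (ψ j)) (fun j => hD'm _)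
      (hD'0.comp hψt) (fun j ξ hξ => hidw _ ξ hξ)
    intro ξ hξ
    exact A3_pass h0 h2 hne1 hr hK (V := fun j => Vc (V (φ (ψ j))))
      (U := fun j => Vc (U (φ (ψ j)))) (fun j => hV _) (fun j => hU _) hV₁ hV₁
      ((hd.comp hφt).comp hψt) (hUlim.comp hψt) hwl₁ hξ
  have h4 : Tendsto (fun n => ‖(w ∘ ψ) n‖) atTop (𝓝 ‖w₁‖) := hwl₁.norm
  have h5 : ∀ n, ‖(w ∘ ψ) n‖ = 1 := fun n => (hwn (ψ n)).2
  simp only [h5] at h4
  have h6 := tendsto_nhds_unique h4 tendsto_const_nhds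
  rw [hz, norm_zero] at h6
  exact zero_ne_one h6

end FracScatC

end
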