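import Pool.Agent.Lib.MP_6e2ba5_an.Dx.MassB
import Pool.Agent.Lib.MP_6e2ba5_an.Dx.MassC
import Pool.Agent.Lib.MP_6e2ba5_an.Dx.DelB

/-! # The limit of the main term

`η = em m (τ²)`, `e = ec r η`, `ψ_m = nz r 1_cube (τ²) xD m`, `φ_{j,m} = nz r V_j (τ²) y₀ m`, `e~ = m³ exp(-η·y₀) e`.
`Xm = pr ψ_m (SI V₁ e~ - SI V₂ e~)` and `SI V_j e~ = e~ + RI (TI V_j e~)`, so by the symmetry of `RI`
`Xm = pr (RI ψ_m) (TI V₁ e~) - pr (RI ψ_m) (TI V₂ e~)`, and `TI V_j e~ = φ_{j,m} + TI V_j (RI φ_{j,m})` (`TI_neumann`).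
`ψ_m` is `Delta r _ xD T0` (`cone_l1`, `cone_conc` with the cone of the cube: `cube xD l ⊆ oct xD ⊆ cone xD (1/2)`;
`cube_mass`), `φ_{1,m}`, `φ_{2,m}` are `Delta r _ y₀ (ρ T0)` (`oct_mass`, `mass_eq`). So (`delta_RI`)
`RI ψ_m → T0 gX xD`, `RI φ_{j,m} → ρ T0 gX y₀` in `L²`, `pr (RI ψ_m) (TI V_j (RI φ_{j,m})) → ρ T0² pr (gX xD) (TI V_j (gX y₀))`,
and `pr (RI ψ_m) (φ_{1,m} - φ_{2,m}) → 0` by `delta_sep` with `S = cube xD l`, `T = cone y₀ c ∩ ball`: for `a` in the cube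
`dv·a ≤ dv·xD + √3 l < dv·y₀ ≤ dv·b`, so the distance is at least the positive gap. -/

set_option autoImplicit false

open MeasureTheory Filter Topology Set
open scoped FourierTransform SchwartzMap InnerProductSpace ENNReal BoundedContinuousFunction

noncomputable section

namespace FracScatC

open FracScat

private theorem SB1_off {V : E3 → ℂ} (hV : BM V) {S : Set E3}
    (h : ∀ᵐ x ∂(volume : Measure E3), x ∉ S → V x = 0) (r : ℝ) (ω : ℂ) (y : E3) (m : ℝ) :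
    ∀ᵐ x ∂(volume : Measure E3), x ∉ S → (nz r V ω y m : E3 → ℂ) x = 0 := by
  have h1 := Lp.coeFn_smul ((m : ℂ) ^ 3 * Complex.exp (-cd (em m ω) y)) (mulL V (ec r (em m ω)))
  filter_upwards [h, h1, mulL_coe hV (ec r (em m ω))] with x hx a b hxS
  have e : nz r V ω y m =
      ((m : ℂ) ^ 3 * Complex.exp (-cd (em m ω) y)) • mulL V (ec r (em m ω)) := rfl
  rw [e, a, Pi.smul_apply, b, hx hxS, zero_mul, smul_zero]

private theorem SB1_cut {r M : ℝ} {V : E3 → ℂ} (hV : IsPot r M V) (ω : ℂ) (y : E3) (m : ℝ) :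
    mulL (indB r) (nz r V ω y m) = nz r V ω y m := by
  unfold nz
  rw [map_smul, mulL_indB_of_pot hV]

private theorem SB1_delta {r : ℝ} (hr : 0 < r) {M : ℝ} {V : E3 → ℂ} (hV : IsPot r M V) {y : E3}
    {c : ℝ} (hc : 0 < c) (hcv : ∀ᵐ x ∂(volume : Measure E3), x ∉ cone y c → V x = 0) (ω : ℝ)
    {μ : ℂ} (hm : Tendsto (fun m : ℝ => ∫ z, (nz r V (ω : ℂ) y m : E3 → ℂ) z) atTop (𝓝 μ)) :
    Delta r (fun m => nz r V (ω : ℂ) y m) y μ :=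
  ⟨fun m => SB1_cut hV _ _ _, cone_l1 hr hV hc hcv ω, fun _ hδ => cone_conc hr hV hc hcv ω hδ, hm⟩

private theorem SB1_pr {f g : ℝ → HS} {f₀ g₀ : HS} (hf : Tendsto f atTop (𝓝 f₀))
    (hg : Tendsto g atTop (𝓝 g₀)) : Tendsto (fun m => pr (f m) (g m)) atTop (𝓝 (pr f₀ g₀)) := by
  have h := ((prB.continuous₂).tendsto (f₀, g₀)).comp (hf.prodMk_nhds hg)
  exact h

/-- The main term in terms of the normalised sources. -/
private theorem SB1_alg {s r M K C : ℝ} (hK : KOK s r M K) {V₁ V₂ : E3 → ℂ} (hV₁ : IsPot r M V₁)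
    (hV₂ : IsPot r M V₂) {τ : ℝ} (hτ : K ≤ τ) (hS : SymB r C (RI s r τ)) (l : ℝ) (xD y₀ : E3)
    (m : ℝ) :
    Xm s r V₁ V₂ l xD y₀ τ m =
      pr (RI s r τ (nz r ((cube xD l).indicator fun _ => (1 : ℂ)) ((τ ^ 2 : ℝ) : ℂ) xD m))
        (nz r V₁ ((τ ^ 2 : ℝ) : ℂ) y₀ m - nz r V₂ ((τ ^ 2 : ℝ) : ℂ) y₀ m) +
      (pr (RI s r τ (nz r ((cube xD l).indicator fun _ => (1 : ℂ)) ((τ ^ 2 : ℝ) : ℂ) xD m))
        (TI s r V₁ τ (RI s r τ (nz r V₁ ((τ ^ 2 : ℝ) : ℂ) y₀ m))) -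
       pr (RI s r τ (nz r ((cube xD l).indicator fun _ => (1 : ℂ)) ((τ ^ 2 : ℝ) : ℂ) xD m))
        (TI s r V₂ τ (RI s r τ (nz r V₂ ((τ ^ 2 : ℝ) : ℂ) y₀ m)))) := by
  set ω : ℂ := ((τ ^ 2 : ℝ) : ℂ) with hω
  set e : HS := ec r (em m ω) with he
  set b : ℂ := (m : ℂ) ^ 3 * Complex.exp (-cd (em m ω) y₀) with hb
  set a : ℂ := (m : ℂ) ^ 3 * Complex.exp (-cd (em m ω) xD) with ha
  set R := RI s r τ with hR
  set ψ : HS := nz r ((cube xD l).indicator fun _ => (1 : ℂ)) ω xD m with hψ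
  have hMK := hK.ri τ hτ
  have hfix : ∀ {V : E3 → ℂ}, IsPot r M V → SI s r V τ e = e + R (TI s r V τ e) := by
    intro V hV
    have h1 := UK_fix hV hMK e
    rw [← SI_eq] at h1
    exact h1
  have hneu : ∀ {V : E3 → ℂ}, IsPot r M V →
      b • TI s r V τ e = nz r V ω y₀ m + TI s r V τ (R (nz r V ω y₀ m)) := by
    intro V hV
    have h1 := TI_neumann hK hV hτ e
    have h2 : nz r V ω y₀ m = b • mulL V e := rfl
    rw [h2, map_smul, map_smul, ← smul_add, ← hR] at *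
    rw [h1]
  have hab : (m : ℂ) ^ 6 * Complex.exp (-cd (em m ω) (xD + y₀)) = a * b := by
    have h1 : cd (em m ω) (xD + y₀) = cd (em m ω) xD + cd (em m ω) y₀ := by
      unfold cd
      rw [← Finset.sum_add_distrib]
      refine Finset.sum_congr rfl fun j _ => ?_
      rw [PiLp.add_apply, Complex.ofReal_add, mul_add]
    rw [h1, neg_add, Complex.exp_add, ha, hb]
    ring
  have hψa : ψ = a • mulL ((cube xD l).indicator fun _ => (1 : ℂ)) e := rfl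
  have hX : Xm s r V₁ V₂ l xD y₀ τ m =
      pr ψ (R (b • TI s r V₁ τ e - b • TI s r V₂ τ e)) := by
    unfold Xm
    rw [← hω, ← he, hab, hfix hV₁, hfix hV₂, hψa, ← smul_sub, map_smul, pr_smul_left,
      pr_smul_right, map_sub, add_sub_add_left_eq_sub]
    ring
  rw [hX, ← hS.symm, hneu hV₁, hneu hV₂, pr_sub_right, pr_add_right, pr_add_right, pr_sub_right]
  ring

theorem starB_lim {s : ℝ} (h0 : 3 / 4 < s) (h2 : s < 2) (h1 : s ≠ 1) {r : ℝ} (hr : 0 < r)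
    {M K : ℝ} (hK : KOK s r M K) {V₁ V₂ : E3 → ℂ} (hV₁ : IsPot r M V₁) (hV₂ : IsPot r M V₂)
    (hF : ∀ τ : ℝ, K ≤ τ → ∀ η : Fin 3 → ℂ, Adm τ η → FC s r V₁ τ η = FC s r V₂ τ η)
    {y₀ : E3} {c : ℝ} (hy₀ : ‖y₀‖ < r) (hc : 0 < c)
    (hc₁ : ∀ᵐ x ∂(volume : Measure E3), x ∉ cone y₀ c → V₁ x = 0)
    (hc₂ : ∀ᵐ x ∂(volume : Measure E3), x ∉ cone y₀ c → V₂ x = 0) {ρ : ℂ} {δ₀ : ℝ} (hδ₀ : 0 < δ₀)
    (htip : ∀ᵐ x ∂(volume : Measure E3), ‖x - y₀‖ < δ₀ →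
      V₁ x = (oct y₀).indicator (fun _ => ρ) x)
    {xD : E3} {l : ℝ} (hl : 0 < l) (hx : cube xD l ⊆ Metric.ball 0 r)
    (hlt : ⟪dv, xD⟫_ℝ + Real.sqrt 3 * l < ⟪dv, y₀⟫_ℝ) {τ : ℝ} (hτ : 2 * K ≤ τ) :
    Tendsto (fun m : ℝ => Xm s r V₁ V₂ l xD y₀ τ m) atTop
      (𝓝 (ρ * T0 ^ 2 * Dk s r V₁ V₂ τ xD y₀)) := by
  have hK1 := hK.one
  have hKτ : K ≤ τ := by linarith
  have hτ0 : 0 < τ := by linarith
  obtain ⟨C, -, hC⟩ := RI_SymB h0 h2 h1 hr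
  have hS : SymB r C (RI s r τ) := hC τ (by linarith)
  have hVc := cube_pot (r := r) hx
  have hsub : cube xD l ⊆ oct xD := fun y hy j => (hy j).1
  have hcc : ∀ᵐ x ∂(volume : Measure E3), x ∉ cone xD (1 / 2) →
      (cube xD l).indicator (fun _ => (1 : ℂ)) x = 0 :=
    Eventually.of_forall fun x hx' => indicator_of_notMem (fun h => hx' (oct_cone xD (hsub h))) _
  have hmψ := cube_mass hr hl hx (τ ^ 2)
  have hm₁ := oct_mass hr hV₁ hy₀ hc hc₁ hδ₀ htip (τ ^ 2)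
  have hm₂ : Tendsto (fun m : ℝ => ∫ z, (nz r V₂ ((τ ^ 2 : ℝ) : ℂ) y₀ m : E3 → ℂ) z) atTop
      (𝓝 (ρ * T0)) := by
    have h := hm₁.sub (mass_eq h0 h2 h1 hr hK hV₁ hV₂ hF hc hc₁ hc₂ hτ)
    rw [sub_zero] at h
    refine h.congr fun m => ?_
    ring
  have hDψ := SB1_delta hr hVc (by norm_num : (0 : ℝ) < 1 / 2) hcc (τ ^ 2) hmψ
  have hD₁ := SB1_delta hr hV₁ hc hc₁ (τ ^ 2) hm₁
  have hD₂ := SB1_delta hr hV₂ hc hc₂ (τ ^ 2) hm₂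
  have hRψ := delta_RI h0 h2 h1 hr hτ0 hDψ
  have hR₁ := delta_RI h0 h2 h1 hr hτ0 hD₁
  have hR₂ := delta_RI h0 h2 h1 hr hτ0 hD₂
  have hT : MeasurableSet {b : E3 | ⟪dv, y₀⟫_ℝ ≤ ⟪dv, b⟫_ℝ} :=
    measurableSet_le measurable_const (by fun_prop)
  have hoff : ∀ {V : E3 → ℂ}, IsPot r M V → (∀ᵐ x ∂(volume : Measure E3), x ∉ cone y₀ c → V x = 0) →
      ∀ m, ∀ᵐ z ∂(volume : Measure E3), z ∉ {b : E3 | ⟪dv, y₀⟫_ℝ ≤ ⟪dv, b⟫_ℝ} →
        (nz r V ((τ ^ 2 : ℝ) : ℂ) y₀ m : E3 → ℂ) z = 0 := by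
    intro V hV hcv m
    refine SB1_off hV.BM ?_ r _ _ _
    filter_upwards [hcv] with x hx' hxT
    refine hx' fun h => hxT ?_
    have h3 : c * ‖x - y₀‖ ≤ ⟪dv, x - y₀⟫_ℝ := h
    have h4 : 0 ≤ c * ‖x - y₀‖ := by positivity
    rw [inner_sub_right] at h3
    show ⟪dv, y₀⟫_ℝ ≤ ⟪dv, x⟫_ℝ
    linarith
  have hsep := delta_sep h0 h2 h1 hr hτ0 hDψ (ψ := fun m =>
      nz r V₁ ((τ ^ 2 : ℝ) : ℂ) y₀ m - nz r V₂ ((τ ^ 2 : ℝ) : ℂ) y₀ m) (y := y₀)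
      (by
        have h := hD₁.sub hD₂
        rwa [sub_self] at h)
      (cube_meas xD l) hT
      (δ := ⟪dv, y₀⟫_ℝ - (⟪dv, xD⟫_ℝ + Real.sqrt 3 * l)) (by linarith)
      (by
        intro a ha b hb
        have e1 : ⟪dv, a - xD⟫_ℝ ≤ Real.sqrt 3 * l := by
          calc ⟪dv, a - xD⟫_ℝ ≤ ‖dv‖ * ‖a - xD‖ := real_inner_le_norm _ _
            _ ≤ Real.sqrt 3 * l := by
              rw [norm_dv, one_mul]
              exact cube_norm ha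
        have e2 : ⟪dv, b - a⟫_ℝ ≤ ‖a - b‖ := by
          calc ⟪dv, b - a⟫_ℝ ≤ ‖dv‖ * ‖b - a‖ := real_inner_le_norm _ _
            _ = ‖a - b‖ := by rw [norm_dv, one_mul, norm_sub_rev]
        have hb' : ⟪dv, y₀⟫_ℝ ≤ ⟪dv, b⟫_ℝ := hb
        rw [inner_sub_right] at e1 e2
        linarith)
      (fun m => SB1_off hVc.BM (Eventually.of_forall fun x hx' => indicator_of_notMem hx' _) r _ _ _)
      (by
        intro m
        have h5 := Lp.coeFn_sub (nz r V₁ ((τ ^ 2 : ℝ) : ℂ) y₀ m) (nz r V₂ ((τ ^ 2 : ℝ) : ℂ) y₀ m)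
        filter_upwards [h5, hoff hV₁ hc₁ m, hoff hV₂ hc₂ m] with z a1 a2 a3 hz
        rw [a1, Pi.sub_apply, a2 hz, a3 hz, sub_zero])
  have hl₁ := SB1_pr hRψ (((TI s r V₁ τ).continuous.tendsto _).comp hR₁)
  have hl₂ := SB1_pr hRψ (((TI s r V₂ τ).continuous.tendsto _).comp hR₂)
  have hfin := hsep.add (hl₁.sub hl₂)
  have hval : (0 : ℂ) + (pr (T0 • gX s r τ xD) (TI s r V₁ τ ((ρ * T0) • gX s r τ y₀)) -
      pr (T0 • gX s r τ xD) (TI s r V₂ τ ((ρ * T0) • gX s r τ y₀))) =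
      ρ * T0 ^ 2 * Dk s r V₁ V₂ τ xD y₀ := by
    unfold Dk
    rw [_root_.sub_apply, pr_sub_right, map_smul, map_smul, pr_smul_left, pr_smul_left,
      pr_smul_right, pr_smul_right]
    ring
  rw [← hval]
  refine hfin.congr fun m => ?_
  rw [SB1_alg hK hV₁ hV₂ hKτ hS l xD y₀ m]
  rfl

end FracScatC

end
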