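import Pool.Agent.Lib.MP_6e2ba5_an.Dx.Dir
import Pool.Agent.Lib.MP_6e2ba5_an.Dx.RIb

/-! # The remainder

`η = em m (τ²)`, `σ = m + τ²/(4m)`, `|exp(η·x)| = exp(-σ dv·x)` (`em_re`), `e = ec r η`, `SI V_j e = e + v_j`, `f = w - ε`. The
linear identity for `η` gives, as in `StarA0.lean`,
`pr f (ec r (2η)) = A3 f e e = 2 A3 ε e (v₁ - v₂) - 2 A3 f e v₂ + A3 ε v₁ v₁ - A3 w v₂ v₂`, and `A3 ε e (v₁ - v₂)` is
`cD pr (1_cube e) (v₁ - v₂) + A3 ε' e (v₁ - v₂)`, `ε = cD 1_cube + ε'`, `v₁ - v₂ = SI V₁ e - SI V₂ e`. So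
`Phm - 2 cD Xm = N (2 A3 ε' e (v₁ - v₂) - 2 A3 f e v₂ + A3 ε v₁ v₁ - A3 w v₂ v₂)` with `N = m⁶ exp(-η·(xD+y₀))`,
`|N| = m⁶ exp(σ dv·(xD+y₀))`. Sup bounds: `v_j = O(exp(-σ dv·y₀))` (`RI_SymB`, `UK_V`, `V_j = 0` a.e. where `dv·x < dv·y₀`;
constants depend on `τ` only). `∫ |ε' e| = O(exp(-σ (dv·xD + δ')))`, `∫ |f e| = O(exp(-σ dv·(xD+y₀)/2))`. So the four terms,
multiplied by `N`, are `O(m⁶ exp(-σδ'))`, `O(m⁶ exp(-σ dv·(y₀-xD)/2))`, `O(m⁶ exp(-σ dv·(y₀-xD)))` twice: all tend to `0`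
(`σ ≥ m` for `τ² ≥ 0`). -/

set_option autoImplicit false

open MeasureTheory Filter Topology Set
open scoped FourierTransform SchwartzMap InnerProductSpace ENNReal BoundedContinuousFunction

noncomputable section

namespace FracScatC

open FracScat

private theorem sb2_A3_le {W f g : HS} (hW : Integrable (W : E3 → ℂ)) {a b : ℝ} (ha : 0 ≤ a)
    (hf : ∀ᵐ x ∂(volume : Measure E3), (W : E3 → ℂ) x = 0 ∨ ‖(f : E3 → ℂ) x‖ ≤ a)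
    (hg : Bd b g) : ‖A3 W f g‖ ≤ a * b * ∫ x, ‖(W : E3 → ℂ) x‖ := by
  rw [← integral_const_mul]
  refine norm_integral_le_of_norm_le (hW.norm.const_mul (a * b)) ?_
  filter_upwards [hf, hg] with x h1 h2
  rw [norm_mul, norm_mul]
  rcases h1 with h1 | h1
  · rw [h1, norm_zero]
    simp
  · rw [mul_comm (a * b)]
    exact mul_le_mul_of_nonneg_left (mul_le_mul h1 h2 (norm_nonneg _) ha) (norm_nonneg _)

private theorem sb2_ec_norm {r : ℝ} {m : ℝ} (hm : m ≠ 0) (ω : ℝ) :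
    ∀ᵐ x ∂(volume : Measure E3), ‖(ec r (em m (ω : ℂ)) : E3 → ℂ) x‖ ≤
      Real.exp (-((m + ω / (4 * m)) * ⟪dv, x⟫_ℝ)) := by
  filter_upwards [ec_coe r (em m (ω : ℂ))] with x hx
  rw [hx, norm_mul, em_re hm]
  have h : ‖indB r x‖ ≤ 1 := by
    unfold indB
    split_ifs <;> simp
  exact mul_le_of_le_one_left (Real.exp_pos _).le h

private theorem sb2_Ve {r M : ℝ} {V : E3 → ℂ} (hV : IsPot r M V) {y₀ : E3} {c : ℝ} (hc : 0 < c)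
    (hc₁ : ∀ᵐ x ∂(volume : Measure E3), x ∉ cone y₀ c → V x = 0) {m : ℝ} (hm : m ≠ 0) {ω : ℝ}
    (hσ : 0 ≤ m + ω / (4 * m)) :
    ‖mulL V (ec r (em m (ω : ℂ)))‖ ≤
      M * Real.exp (-((m + ω / (4 * m)) * ⟪dv, y₀⟫_ℝ)) * ‖oneB r‖ := by
  refine Lp.norm_le_mul_norm_of_ae_le_mul ?_
  filter_upwards [mulL_coe hV.BM (ec r (em m (ω : ℂ))), ec_coe r (em m (ω : ℂ)), oneB_coe r,
    hc₁] with x h1 h2 h3 h4
  rw [h1, h2, h3, norm_mul, norm_mul, em_re hm]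
  by_cases hx : x ∈ cone y₀ c
  · have h5 : c * ‖x - y₀‖ ≤ ⟪dv, x - y₀⟫_ℝ := hx
    have h6 : 0 ≤ ⟪dv, x - y₀⟫_ℝ := le_trans (by positivity) h5
    rw [inner_sub_right] at h6
    have h7 : Real.exp (-((m + ω / (4 * m)) * ⟪dv, x⟫_ℝ)) ≤
        Real.exp (-((m + ω / (4 * m)) * ⟪dv, y₀⟫_ℝ)) := by
      apply Real.exp_le_exp.2
      have := mul_nonneg hσ h6
      nlinarith
    calc ‖V x‖ * (‖indB r x‖ * Real.exp (-((m + ω / (4 * m)) * ⟪dv, x⟫_ℝ)))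
        ≤ M * (‖indB r x‖ * Real.exp (-((m + ω / (4 * m)) * ⟪dv, y₀⟫_ℝ))) := by
          refine mul_le_mul (hV.bounded x) ?_ (by positivity) hV.nonneg
          exact mul_le_mul_of_nonneg_left h7 (norm_nonneg _)
      _ = M * Real.exp (-((m + ω / (4 * m)) * ⟪dv, y₀⟫_ℝ)) * ‖indB r x‖ := by ring
  · rw [h4 hx, norm_zero, zero_mul]
    have := hV.nonneg
    positivity

private theorem sb2_Bd_v {s : ℝ} {r : ℝ} {M K C : ℝ} (hK : KOK s r M K) {V : E3 → ℂ}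
    (hV : IsPot r M V) {y₀ : E3} {c : ℝ} (hc : 0 < c)
    (hc₁ : ∀ᵐ x ∂(volume : Measure E3), x ∉ cone y₀ c → V x = 0) {τ : ℝ} (hτ : K ≤ τ)
    (hS : SymB r C (RI s r τ)) {m : ℝ} (hm : m ≠ 0) {ω : ℝ} (hσ : 0 ≤ m + ω / (4 * m)) :
    Bd (C * (2 * (M * ‖oneB r‖)) * Real.exp (-((m + ω / (4 * m)) * ⟪dv, y₀⟫_ℝ)))
      (RI s r τ (mulL V (SI s r V τ (ec r (em m (ω : ℂ)))))) := by
  refine (hS.bd _).mono ?_
  have h1 : ‖mulL V (SI s r V τ (ec r (em m (ω : ℂ))))‖ ≤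
      2 * ‖mulL V (ec r (em m (ω : ℂ)))‖ := by
    rw [SI_eq]
    exact UK_V hV (hK.ri τ hτ) _
  have h2 := sb2_Ve hV hc hc₁ hm hσ
  have h3 : ‖mulL V (SI s r V τ (ec r (em m (ω : ℂ))))‖ ≤
      2 * (M * Real.exp (-((m + ω / (4 * m)) * ⟪dv, y₀⟫_ℝ)) * ‖oneB r‖) := by linarith
  calc C * ‖mulL V (SI s r V τ (ec r (em m (ω : ℂ))))‖
      ≤ C * (2 * (M * Real.exp (-((m + ω / (4 * m)) * ⟪dv, y₀⟫_ℝ)) * ‖oneB r‖)) :=
        mul_le_mul_of_nonneg_left h3 hS.nonneg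
    _ = C * (2 * (M * ‖oneB r‖)) * Real.exp (-((m + ω / (4 * m)) * ⟪dv, y₀⟫_ℝ)) := by ring

private theorem sb2_A3_exp {W e v : HS} {B B' : ℝ} (he : Bd B e) (hv : Bd B' v) :
    A3 W (e + v) (e + v) = A3 W e e + 2 * A3 W e v + A3 W v v := by
  rw [A3_add_right (he.add hv), A3_add_left he hv, A3_add_left he hv, A3_comm W v e]
  ring

private theorem sb2_pr_ec (r : ℝ) (f : HS) (η : Fin 3 → ℂ) :
    pr f (ec r (fun j => 2 * η j)) = A3 f (ec r η) (ec r η) := by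
  rw [pr_eq]
  unfold A3
  refine integral_congr_ae ?_
  filter_upwards [ec_coe r η, ec_coe r (fun j => 2 * η j)] with x h1 h2
  rw [h1, h2]
  have h3 : cd (fun j => 2 * η j) x = cd η x + cd η x := by
    unfold cd
    rw [← Finset.sum_add_distrib]
    refine Finset.sum_congr rfl fun j _ => ?_
    ring
  rw [h3, Complex.exp_add]
  unfold indB
  split_ifs
  · ring
  · ring

private theorem sb2_cube {r : ℝ} {xD : E3} {l : ℝ} (hx : cube xD l ⊆ Metric.ball 0 r)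
    (e v : HS) :
    A3 (dH r ((cube xD l).indicator fun _ => (1 : ℂ))) e v =
      pr (mulL ((cube xD l).indicator fun _ => (1 : ℂ)) e) v := by
  rw [pr_eq]
  unfold A3
  refine integral_congr_ae ?_
  filter_upwards [dH_coe (cube_pot hx), mulL_coe (cube_pot hx).BM e] with x h1 h2
  rw [h1, h2]
  ring

/-- The algebraic identity. -/
private theorem sb2_ident {r : ℝ} {xD : E3} {l : ℝ} (hx : cube xD l ⊆ Metric.ball 0 r)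
    {w ε e v₁ v₂ : HS} {cD : ℂ} {B B' : ℝ} (he : Bd B e) (hv₁ : Bd B' v₁) (hv₂ : Bd B' v₂)
    (hlin : A3 ε (e + v₁) (e + v₁) = A3 w (e + v₂) (e + v₂)) :
    A3 (w - ε) e e - 2 * cD * pr (mulL ((cube xD l).indicator fun _ => (1 : ℂ)) e)
        ((e + v₁) - (e + v₂)) =
      2 * A3 (ε - cD • dH r ((cube xD l).indicator fun _ => (1 : ℂ))) e (v₁ - v₂) -
        2 * A3 (w - ε) e v₂ + A3 ε v₁ v₁ - A3 w v₂ v₂ := by
  rw [sb2_A3_exp he hv₁, sb2_A3_exp he hv₂] at hlin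
  have h1 : A3 w e e = A3 (w - ε) e e + A3 ε e e := by
    rw [← A3_W_add he, sub_add_cancel]
  have h2 : A3 w e v₂ = A3 (w - ε) e v₂ + A3 ε e v₂ := by
    rw [← A3_W_add he, sub_add_cancel]
  have h3 : A3 ε e v₁ = A3 ε e (v₁ - v₂) + A3 ε e v₂ := by
    rw [← A3_add_right he, sub_add_cancel]
  have h4 : A3 ε e (v₁ - v₂) =
      A3 (ε - cD • dH r ((cube xD l).indicator fun _ => (1 : ℂ))) e (v₁ - v₂) +
        cD * A3 (dH r ((cube xD l).indicator fun _ => (1 : ℂ))) e (v₁ - v₂) := by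
    rw [← A3_W_smul, ← A3_W_add he, sub_add_cancel]
  have h5 := sb2_cube hx e (v₁ - v₂)
  have h6 : (e + v₁) - (e + v₂) = v₁ - v₂ := by abel
  rw [h6, ← h5]
  linear_combination -hlin - h1 - 2 * h2 + 2 * h3 + 2 * h4

theorem starB_rem {s : ℝ} (h0 : 3 / 4 < s) (h2 : s < 2) (h1 : s ≠ 1) {r : ℝ} (hr : 0 < r)
    {M K : ℝ} (hK : KOK s r M K) {V₁ V₂ : E3 → ℂ} (hV₁ : IsPot r M V₁) (hV₂ : IsPot r M V₂)
    {y₀ : E3} {c : ℝ} (hc : 0 < c)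
    (hc₁ : ∀ᵐ x ∂(volume : Measure E3), x ∉ cone y₀ c → V₁ x = 0)
    (hc₂ : ∀ᵐ x ∂(volume : Measure E3), x ∉ cone y₀ c → V₂ x = 0)
    {xD : E3} {l : ℝ} (hl : 0 < l) (hx : cube xD l ⊆ Metric.ball 0 r)
    (hlt : ⟪dv, xD⟫_ℝ < ⟪dv, y₀⟫_ℝ) {w ε : HS} (hw : w ∈ HB r) (hε : ε ∈ HB r) {cD : ℂ} {δ' : ℝ}
    (hδ' : 0 < δ')
    (hε' : ∀ᵐ x ∂(volume : Measure E3), ⟪dv, x⟫_ℝ < ⟪dv, xD⟫_ℝ + δ' →
      (ε : E3 → ℂ) x = cD * (cube xD l).indicator (fun _ => (1 : ℂ)) x)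
    (hf : ∀ᵐ x ∂(volume : Measure E3), 2 * ⟪dv, x⟫_ℝ < ⟪dv, xD⟫_ℝ + ⟪dv, y₀⟫_ℝ →
      ((w - ε : HS) : E3 → ℂ) x = 0)
    {τ : ℝ} (hτ : K ≤ τ)
    (hlin : ∀ η : Fin 3 → ℂ, Adm τ η → A3 ε (SI s r V₁ τ (ec r η)) (SI s r V₁ τ (ec r η)) =
      A3 w (SI s r V₂ τ (ec r η)) (SI s r V₂ τ (ec r η))) :
    Tendsto (fun m : ℝ => Phm r (w - ε) xD y₀ m ((τ ^ 2 : ℝ) : ℂ) -
      2 * cD * Xm s r V₁ V₂ l xD y₀ τ m) atTop (𝓝 0) := by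
  obtain ⟨C, hC, hS⟩ := RI_SymB h0 h2 h1 hr
  have hτ1 : 1 ≤ τ := hK.one.trans hτ
  have hSτ := hS τ hτ1
  set D : ℝ := C * (2 * (M * ‖oneB r‖)) with hD
  have hD0 : 0 ≤ D := by
    have := hV₁.nonneg
    positivity
  set εH : HS := ε - cD • dH r ((cube xD l).indicator fun _ => (1 : ℂ)) with hεH
  have hεHB : εH ∈ HB r := by
    rw [hεH]
    exact (HB r).sub_mem hε ((HB r).smul_mem _ (dH_mem (cube_pot hx)))
  have hfB : w - ε ∈ HB r := (HB r).sub_mem hw hε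
  have hεH0 : ∀ᵐ x ∂(volume : Measure E3), ⟪dv, x⟫_ℝ < ⟪dv, xD⟫_ℝ + δ' →
      (εH : E3 → ℂ) x = 0 := by
    filter_upwards [hε', Lp.coeFn_sub ε (cD • dH r ((cube xD l).indicator fun _ => (1 : ℂ))),
      Lp.coeFn_smul cD (dH r ((cube xD l).indicator fun _ => (1 : ℂ))),
      dH_coe (cube_pot hx)] with x a1 a2 a3 a4 hlt'
    rw [hεH, a2, Pi.sub_apply, a3, Pi.smul_apply, a4, a1 hlt', smul_eq_mul, sub_self]
  set I1 : ℝ := ∫ x, ‖(εH : E3 → ℂ) x‖ with hI1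
  set I2 : ℝ := ∫ x, ‖((w - ε : HS) : E3 → ℂ) x‖ with hI2
  set I3 : ℝ := ∫ x, ‖(ε : E3 → ℂ) x‖ with hI3
  set I4 : ℝ := ∫ x, ‖(w : E3 → ℂ) x‖ with hI4
  have hI1' : 0 ≤ I1 := integral_nonneg fun x => norm_nonneg _
  have hI2' : 0 ≤ I2 := integral_nonneg fun x => norm_nonneg _
  have hI3' : 0 ≤ I3 := integral_nonneg fun x => norm_nonneg _
  have hI4' : 0 ≤ I4 := integral_nonneg fun x => norm_nonneg _
  set δ : ℝ := min δ' ((⟪dv, y₀⟫_ℝ - ⟪dv, xD⟫_ℝ) / 2) with hδ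
  have hδ0 : 0 < δ := lt_min hδ' (by linarith)
  have hδ1 : δ ≤ δ' := min_le_left _ _
  have hδ2 : δ ≤ (⟪dv, y₀⟫_ℝ - ⟪dv, xD⟫_ℝ) / 2 := min_le_right _ _
  have hlim : Tendsto (fun m : ℝ => (4 * D * I1 + 2 * D * I2 + D ^ 2 * I3 + D ^ 2 * I4) *
      (m ^ (6 : ℝ) * Real.exp (-δ * m))) atTop (𝓝 0) := by
    have := (tendsto_rpow_mul_exp_neg_mul_atTop_nhds_zero 6 δ hδ0).const_mul
      (4 * D * I1 + 2 * D * I2 + D ^ 2 * I3 + D ^ 2 * I4)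
    rwa [mul_zero] at this
  refine squeeze_zero_norm' ?_ hlim
  filter_upwards [eventually_ge_atTop (1 : ℝ)] with m hm
  have hm0 : (0 : ℝ) < m := by linarith
  have hmne : m ≠ 0 := hm0.ne'
  set σ : ℝ := m + τ ^ 2 / (4 * m) with hσ
  have hσm : m ≤ σ := by
    rw [hσ]
    have : 0 ≤ τ ^ 2 / (4 * m) := by positivity
    linarith
  have hσ0 : 0 ≤ σ := hm0.le.trans hσm
  set e : HS := ec r (em m ((τ ^ 2 : ℝ) : ℂ)) with he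
  set v₁ : HS := RI s r τ (mulL V₁ (SI s r V₁ τ e)) with hv₁
  set v₂ : HS := RI s r τ (mulL V₂ (SI s r V₂ τ e)) with hv₂
  have hfix₁ : SI s r V₁ τ e = e + v₁ := by
    rw [hv₁, SI_eq]
    exact UK_fix hV₁ (hK.ri τ hτ) e
  have hfix₂ : SI s r V₂ τ e = e + v₂ := by
    rw [hv₂, SI_eq]
    exact UK_fix hV₂ (hK.ri τ hτ) e
  set E : ℝ := Real.exp (-(σ * ⟪dv, y₀⟫_ℝ)) with hE
  have hE0 : 0 < E := Real.exp_pos _
  have hB₁ : Bd (D * E) v₁ := sb2_Bd_v hK hV₁ hc hc₁ hτ hSτ hmne hσ0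
  have hB₂ : Bd (D * E) v₂ := sb2_Bd_v hK hV₂ hc hc₂ hτ hSτ hmne hσ0
  have hBe := ec_Bd hr (em m ((τ ^ 2 : ℝ) : ℂ))
  rw [← he] at hBe
  have hlin' := hlin (em m ((τ ^ 2 : ℝ) : ℂ)) (em_adm hmne τ)
  rw [← he, hfix₁, hfix₂] at hlin'
  have hid := sb2_ident (cD := cD) hx hBe hB₁ hB₂ hlin'
  rw [← hεH] at hid
  set N : ℂ := (m : ℂ) ^ 6 * Complex.exp (-cd (em m ((τ ^ 2 : ℝ) : ℂ)) (xD + y₀)) with hN
  have hmain : Phm r (w - ε) xD y₀ m ((τ ^ 2 : ℝ) : ℂ) - 2 * cD * Xm s r V₁ V₂ l xD y₀ τ m =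
      N * (2 * A3 εH e (v₁ - v₂) - 2 * A3 (w - ε) e v₂ + A3 ε v₁ v₁ - A3 w v₂ v₂) := by
    rw [← hid]
    unfold Phm Xm
    rw [sb2_pr_ec, ← he, hfix₁, hfix₂, ← hN]
    ring
  have hNn : ‖N‖ = m ^ 6 * Real.exp (σ * (⟪dv, xD⟫_ℝ + ⟪dv, y₀⟫_ℝ)) := by
    rw [hN, norm_mul, norm_pow, Complex.norm_real, Real.norm_of_nonneg hm0.le]
    congr 1
    rw [Complex.exp_neg, norm_inv, em_re hmne, ← Real.exp_neg, neg_neg, inner_add_right]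
  have hen := sb2_ec_norm (r := r) hmne (τ ^ 2)
  rw [← he, ← hσ] at hen
  have hT1 : ‖A3 εH e (v₁ - v₂)‖ ≤
      Real.exp (-(σ * (⟪dv, xD⟫_ℝ + δ'))) * (D * E + D * E) * I1 := by
    refine sb2_A3_le (HB_integrable hεHB) (Real.exp_pos _).le ?_ (hB₁.sub hB₂)
    filter_upwards [hεH0, hen] with x a1 a2
    by_cases hxx : ⟪dv, x⟫_ℝ < ⟪dv, xD⟫_ℝ + δ'
    · exact Or.inl (a1 hxx)
    · right
      refine a2.trans (Real.exp_le_exp.2 ?_)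
      have := mul_le_mul_of_nonneg_left (not_lt.1 hxx) hσ0
      linarith
  have hT2 : ‖A3 (w - ε) e v₂‖ ≤
      Real.exp (-(σ * ((⟪dv, xD⟫_ℝ + ⟪dv, y₀⟫_ℝ) / 2))) * (D * E) * I2 := by
    refine sb2_A3_le (HB_integrable hfB) (Real.exp_pos _).le ?_ hB₂
    filter_upwards [hf, hen] with x a1 a2
    by_cases hxx : 2 * ⟪dv, x⟫_ℝ < ⟪dv, xD⟫_ℝ + ⟪dv, y₀⟫_ℝ
    · exact Or.inl (a1 hxx)
    · right
      refine a2.trans (Real.exp_le_exp.2 ?_)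
      have := mul_le_mul_of_nonneg_left
        (show (⟪dv, xD⟫_ℝ + ⟪dv, y₀⟫_ℝ) / 2 ≤ ⟪dv, x⟫_ℝ by linarith [not_lt.1 hxx]) hσ0
      linarith
  have hT3 : ‖A3 ε v₁ v₁‖ ≤ (D * E) * (D * E) * I3 := by
    refine sb2_A3_le (HB_integrable hε) (by positivity) ?_ hB₁
    filter_upwards [hB₁] with x a1
    exact Or.inr a1
  have hT4 : ‖A3 w v₂ v₂‖ ≤ (D * E) * (D * E) * I4 := by
    refine sb2_A3_le (HB_integrable hw) (by positivity) ?_ hB₂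
    filter_upwards [hB₂] with x a1
    exact Or.inr a1
  have hexp : ∀ t : ℝ, m * δ ≤ t → Real.exp (-t) ≤ Real.exp (-δ * m) := fun t ht =>
    Real.exp_le_exp.2 (by linarith)
  set P : ℝ := Real.exp (σ * (⟪dv, xD⟫_ℝ + ⟪dv, y₀⟫_ℝ)) with hP
  have hP0 : 0 < P := Real.exp_pos _
  have hmδ : m * δ ≤ σ * δ := mul_le_mul_of_nonneg_right hσm hδ0.le
  have hQ1 : P * (Real.exp (-(σ * (⟪dv, xD⟫_ℝ + δ'))) * E) ≤ Real.exp (-δ * m) := by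
    rw [hP, hE, ← Real.exp_add, ← Real.exp_add]
    have h3 := hexp (σ * δ') (hmδ.trans (mul_le_mul_of_nonneg_left hδ1 hσ0))
    refine le_trans (le_of_eq ?_) h3
    congr 1
    ring
  have hQ2 : P * (Real.exp (-(σ * ((⟪dv, xD⟫_ℝ + ⟪dv, y₀⟫_ℝ) / 2))) * E) ≤
      Real.exp (-δ * m) := by
    rw [hP, hE, ← Real.exp_add, ← Real.exp_add]
    have h3 := hexp (σ * ((⟪dv, y₀⟫_ℝ - ⟪dv, xD⟫_ℝ) / 2))
      (hmδ.trans (mul_le_mul_of_nonneg_left hδ2 hσ0))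
    refine le_trans (le_of_eq ?_) h3
    congr 1
    ring
  have hQ3 : P * (E * E) ≤ Real.exp (-δ * m) := by
    rw [hP, hE, ← Real.exp_add, ← Real.exp_add]
    have h4 : σ * δ ≤ σ * (⟪dv, y₀⟫_ℝ - ⟪dv, xD⟫_ℝ) :=
      mul_le_mul_of_nonneg_left (by linarith) hσ0
    have h3 := hexp (σ * (⟪dv, y₀⟫_ℝ - ⟪dv, xD⟫_ℝ)) (hmδ.trans h4)
    refine le_trans (le_of_eq ?_) h3
    congr 1
    ring
  rw [hmain, norm_mul, hNn]
  have hm6 : m ^ (6 : ℝ) = m ^ 6 := by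
    rw [show (6 : ℝ) = ((6 : ℕ) : ℝ) by norm_num, Real.rpow_natCast]
  rw [hm6]
  have hsum : ‖2 * A3 εH e (v₁ - v₂) - 2 * A3 (w - ε) e v₂ + A3 ε v₁ v₁ - A3 w v₂ v₂‖ ≤
      2 * ‖A3 εH e (v₁ - v₂)‖ + 2 * ‖A3 (w - ε) e v₂‖ + ‖A3 ε v₁ v₁‖ + ‖A3 w v₂ v₂‖ := by
    refine (norm_sub_le _ _).trans (add_le_add ?_ le_rfl)
    refine (norm_add_le _ _).trans (add_le_add ?_ le_rfl)
    refine (norm_sub_le _ _).trans (add_le_add ?_ ?_)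
    · rw [norm_mul]
      simp
    · rw [norm_mul]
      simp
  have hX := Real.exp_pos (-δ * m)
  have hb1 : P * ‖A3 εH e (v₁ - v₂)‖ ≤ 2 * D * I1 * Real.exp (-δ * m) := by
    calc P * ‖A3 εH e (v₁ - v₂)‖
        ≤ P * (Real.exp (-(σ * (⟪dv, xD⟫_ℝ + δ'))) * (D * E + D * E) * I1) :=
          mul_le_mul_of_nonneg_left hT1 hP0.le
      _ = (2 * D * I1) * (P * (Real.exp (-(σ * (⟪dv, xD⟫_ℝ + δ'))) * E)) := by ring
      _ ≤ (2 * D * I1) * Real.exp (-δ * m) :=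
          mul_le_mul_of_nonneg_left hQ1 (by positivity)
  have hb2 : P * ‖A3 (w - ε) e v₂‖ ≤ D * I2 * Real.exp (-δ * m) := by
    calc P * ‖A3 (w - ε) e v₂‖
        ≤ P * (Real.exp (-(σ * ((⟪dv, xD⟫_ℝ + ⟪dv, y₀⟫_ℝ) / 2))) * (D * E) * I2) :=
          mul_le_mul_of_nonneg_left hT2 hP0.le
      _ = (D * I2) * (P * (Real.exp (-(σ * ((⟪dv, xD⟫_ℝ + ⟪dv, y₀⟫_ℝ) / 2))) * E)) := by ring
      _ ≤ (D * I2) * Real.exp (-δ * m) :=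
          mul_le_mul_of_nonneg_left hQ2 (by positivity)
  have hb3 : P * ‖A3 ε v₁ v₁‖ ≤ D ^ 2 * I3 * Real.exp (-δ * m) := by
    calc P * ‖A3 ε v₁ v₁‖ ≤ P * ((D * E) * (D * E) * I3) :=
          mul_le_mul_of_nonneg_left hT3 hP0.le
      _ = (D ^ 2 * I3) * (P * (E * E)) := by ring
      _ ≤ (D ^ 2 * I3) * Real.exp (-δ * m) :=
          mul_le_mul_of_nonneg_left hQ3 (by positivity)
  have hb4 : P * ‖A3 w v₂ v₂‖ ≤ D ^ 2 * I4 * Real.exp (-δ * m) := by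
    calc P * ‖A3 w v₂ v₂‖ ≤ P * ((D * E) * (D * E) * I4) :=
          mul_le_mul_of_nonneg_left hT4 hP0.le
      _ = (D ^ 2 * I4) * (P * (E * E)) := by ring
      _ ≤ (D ^ 2 * I4) * Real.exp (-δ * m) :=
          mul_le_mul_of_nonneg_left hQ3 (by positivity)
  have hm6' : 0 ≤ m ^ 6 := by positivity
  calc m ^ 6 * P * ‖2 * A3 εH e (v₁ - v₂) - 2 * A3 (w - ε) e v₂ + A3 ε v₁ v₁ - A3 w v₂ v₂‖
      ≤ m ^ 6 * P * (2 * ‖A3 εH e (v₁ - v₂)‖ + 2 * ‖A3 (w - ε) e v₂‖ + ‖A3 ε v₁ v₁‖ +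
          ‖A3 w v₂ v₂‖) := mul_le_mul_of_nonneg_left hsum (by positivity)
    _ = m ^ 6 * (2 * (P * ‖A3 εH e (v₁ - v₂)‖) + 2 * (P * ‖A3 (w - ε) e v₂‖) +
          P * ‖A3 ε v₁ v₁‖ + P * ‖A3 w v₂ v₂‖) := by ring
    _ ≤ m ^ 6 * (2 * (2 * D * I1 * Real.exp (-δ * m)) + 2 * (D * I2 * Real.exp (-δ * m)) +
          D ^ 2 * I3 * Real.exp (-δ * m) + D ^ 2 * I4 * Real.exp (-δ * m)) := by
        refine mul_le_mul_of_nonneg_left ?_ hm6'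
        linarith
    _ = (4 * D * I1 + 2 * D * I2 + D ^ 2 * I3 + D ^ 2 * I4) * (m ^ 6 * Real.exp (-δ * m)) := by
        ring

end FracScatC

end
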