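import Pool.Agent.Lib.MP_6e2ba5_an.Dx.Dir

/-! # The entire function

`Phm r f xD y₀ m ω = m⁶ ∫ f(x) exp(η·(2x - xD - y₀)) dx`, `η = em m ω`, which is affine in `ω` (`ec_diff`, `cd` is linear in `η`).
For `‖ω‖ ≤ m`, `|exp(η·(2x-xD-y₀))| ≤ exp(-m dv·(2x-xD-y₀)) exp ‖2x-xD-y₀‖ ≤ exp(4r)` where `f ≠ 0` (`em_bd`). -/

set_option autoImplicit false

open MeasureTheory Filter Topology Set
open scoped FourierTransform SchwartzMap InnerProductSpace ENNReal BoundedContinuousFunction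

noncomputable section

namespace FracScatC

open FracScat

private theorem sb3_em_diff (m : ℝ) (j : Fin 3) : Differentiable ℂ (fun ω : ℂ => em m ω j) := by
  unfold em
  fun_prop

private theorem sb3_cd_diff (m : ℝ) (x : E3) : Differentiable ℂ (fun ω : ℂ => cd (em m ω) x) := by
  unfold cd
  refine Differentiable.fun_sum fun j _ => ?_
  exact (sb3_em_diff m j).mul (differentiable_const _)

theorem Phm_diff (r : ℝ) (f : HS) (xD y₀ : E3) (m : ℝ) :
    Differentiable ℂ (Phm r f xD y₀ m) := by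
  have h1 : Differentiable ℂ (fun ω : ℂ => Complex.exp (-cd (em m ω) (xD + y₀))) :=
    (sb3_cd_diff m (xD + y₀)).neg.cexp
  have h2 : Differentiable ℂ (fun ω : ℂ => (fun j => 2 * em m ω j : Fin 3 → ℂ)) := by
    rw [differentiable_pi]
    intro j
    exact (sb3_em_diff m j).const_mul 2
  have h3 : Differentiable ℂ (fun ω : ℂ => pr f (ec r (fun j => 2 * em m ω j))) :=
    (prB f).differentiable.comp ((ec_diff r).comp h2)
  unfold Phm
  exact ((differentiable_const _).mul h1).mul h3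

private theorem sb3_cd (η : Fin 3 → ℂ) (x w : E3) :
    -cd η w + cd (fun j => 2 * η j) x = cd η ((2 : ℝ) • x - w) := by
  unfold cd
  simp only [Fin.sum_univ_three, PiLp.sub_apply, PiLp.smul_apply, smul_eq_mul]
  push_cast
  ring

theorem Phm_bd {r : ℝ} (hr : 0 < r) {f : HS} (hfB : f ∈ HB r) {xD y₀ : E3} (hxD : ‖xD‖ ≤ r)
    (hy₀ : ‖y₀‖ ≤ r)
    (hf : ∀ᵐ x ∂(volume : Measure E3), 2 * ⟪dv, x⟫_ℝ < ⟪dv, xD⟫_ℝ + ⟪dv, y₀⟫_ℝ →
      (f : E3 → ℂ) x = 0) :
    ∃ C : ℝ, 0 ≤ C ∧ ∀ m : ℝ, 1 ≤ m → ∀ ω : ℂ, ‖ω‖ ≤ m → ‖Phm r f xD y₀ m ω‖ ≤ C * m ^ 6 := by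
  refine ⟨∫ x, Real.exp (4 * r) * ‖(f : E3 → ℂ) x * (oneB r : E3 → ℂ) x‖,
    integral_nonneg fun x => by positivity, fun m hm ω hω => ?_⟩
  have hm0 : (0 : ℝ) < m := by linarith
  have hint : Integrable (fun x => Real.exp (4 * r) *
      ‖(f : E3 → ℂ) x * (oneB r : E3 → ℂ) x‖) (volume : Measure E3) :=
    (integrable_mul f (oneB r)).norm.const_mul _
  have h1 : Phm r f xD y₀ m ω = (m : ℂ) ^ 6 *
      ∫ x, Complex.exp (-cd (em m ω) (xD + y₀)) *
        ((f : E3 → ℂ) x * (ec r (fun j => 2 * em m ω j) : E3 → ℂ) x) := by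
    unfold Phm
    rw [pr_eq, integral_const_mul, mul_assoc]
  rw [h1, norm_mul, norm_pow, Complex.norm_real, Real.norm_of_nonneg hm0.le, mul_comm]
  refine mul_le_mul_of_nonneg_right ?_ (by positivity)
  refine norm_integral_le_of_norm_le hint ?_
  filter_upwards [hf, ec_coe r (fun j => 2 * em m ω j), oneB_coe r] with x hx he ho
  rw [he, ho]
  by_cases hlt : 2 * ⟪dv, x⟫_ℝ < ⟪dv, xD⟫_ℝ + ⟪dv, y₀⟫_ℝ
  · rw [hx hlt]
    simp
  · unfold indB
    by_cases hxr : ‖x‖ < r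
    · rw [if_pos hxr, one_mul, mul_one]
      have h2 : Complex.exp (-cd (em m ω) (xD + y₀)) *
          ((f : E3 → ℂ) x * Complex.exp (cd (fun j => 2 * em m ω j) x)) =
          Complex.exp (cd (em m ω) ((2 : ℝ) • x - (xD + y₀))) * (f : E3 → ℂ) x := by
        rw [← sb3_cd, Complex.exp_add]
        ring
      rw [h2, norm_mul]
      refine mul_le_mul_of_nonneg_right ?_ (norm_nonneg _)
      refine (em_bd hm0 hω _).trans ?_
      have h3 : 0 ≤ ⟪dv, (2 : ℝ) • x - (xD + y₀)⟫_ℝ := by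
        rw [inner_sub_right, inner_add_right, inner_smul_right]
        linarith [not_lt.1 hlt]
      have h4 : ‖(2 : ℝ) • x - (xD + y₀)‖ ≤ 4 * r := by
        refine (norm_sub_le _ _).trans ?_
        have := norm_add_le xD y₀
        rw [norm_smul, Real.norm_of_nonneg (by norm_num : (0 : ℝ) ≤ 2)]
        linarith
      have h5 : Real.exp (-(m * ⟪dv, (2 : ℝ) • x - (xD + y₀)⟫_ℝ)) ≤ 1 := by
        rw [Real.exp_le_one_iff]
        have := mul_nonneg hm0.le h3
        linarith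
      calc Real.exp (-(m * ⟪dv, (2 : ℝ) • x - (xD + y₀)⟫_ℝ)) *
            Real.exp ‖(2 : ℝ) • x - (xD + y₀)‖
          ≤ 1 * Real.exp (4 * r) :=
            mul_le_mul h5 (Real.exp_le_exp.2 h4) (Real.exp_pos _).le zero_le_one
        _ = Real.exp (4 * r) := one_mul _
    · rw [if_neg hxr]
      simp

end FracScatC

end
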