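import Pool.Agent.Lib.MP_6e2ba5_an.Dx.StarA
import Pool.Agent.Lib.MP_6e2ba5_an.Dx.StarB1
import Pool.Agent.Lib.MP_6e2ba5_an.Dx.StarB2
import Pool.Agent.Lib.MP_6e2ba5_an.Dx.StarB3
import Pool.Agent.Lib.MP_6e2ba5_an.Dx.FinD
import Pool.Agent.Lib.MP_6e2ba5_an.Dx.DkLim

/-! # The perturbation is not matched -/

set_option autoImplicit false

open MeasureTheory Filter Topology Set
open scoped FourierTransform SchwartzMap InnerProductSpace ENNReal BoundedContinuousFunction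

noncomputable section

namespace FracScatC

open FracScat

theorem cmb_pot {r : ℝ} {N : ℕ} {x : Fin N → E3} {l : ℝ}
    (hx : ∀ i, cube (x i) l ⊆ Metric.ball 0 r) (c : Fin N → ℝ) :
    IsPot r (∑ i, |c i|) (cmb x l c) := by
  refine ⟨?_, fun y => ?_, fun y hy => ?_⟩
  · unfold cmb
    exact Finset.measurable_fun_sum _ fun i _ =>
      (cube_pot (hx i)).measurable.const_mul _
  · unfold cmb
    refine (norm_sum_le _ _).trans (Finset.sum_le_sum fun i _ => ?_)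
    rw [norm_mul, Complex.norm_real, Real.norm_eq_abs]
    exact mul_le_of_le_one_right (abs_nonneg _) ((cube_pot (hx i)).bounded y)
  · unfold cmb
    refine Finset.sum_eq_zero fun i _ => ?_
    rw [(cube_pot (hx i)).vanish y hy, mul_zero]

theorem rv_adm (τ : ℝ) {θ : E3} (hθ : ‖θ‖ = 1) : Adm τ (rv τ θ) := by
  unfold Adm rv
  have h1 : ∑ j, θ j ^ 2 = 1 := by
    have := EuclideanSpace.real_norm_sq_eq θ
    rw [hθ] at this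
    linarith
  have h2 : ∑ j, (((-(τ * θ j) : ℝ) : ℂ)) ^ 2 = ((∑ j, (-(τ * θ j)) ^ 2 : ℝ) : ℂ) := by
    push_cast
    rfl
  rw [h2]
  congr 1
  have h3 : ∀ j, (-(τ * θ j)) ^ 2 = τ ^ 2 * θ j ^ 2 := fun j => by ring
  simp only [h3]
  rw [← Finset.mul_sum, h1, mul_one]

theorem star {s : ℝ} (h0 : 3 / 4 < s) (h2 : s < 2) (h1 : s ≠ 1) {r : ℝ} (hr : 0 < r)
    {M K : ℝ} (hK : KOK s r M K) {V₁ V₂ : E3 → ℂ} (hV₁ : IsPot r M V₁) (hV₂ : IsPot r M V₂)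
    (hF : ∀ τ : ℝ, K ≤ τ → ∀ η : Fin 3 → ℂ, Adm τ η → FC s r V₁ τ η = FC s r V₂ τ η)
    {y₀ : E3} {c : ℝ} (hy₀ : ‖y₀‖ < r) (hc : 0 < c)
    (hc₁ : ∀ᵐ x ∂(volume : Measure E3), x ∉ cone y₀ c → V₁ x = 0)
    (hc₂ : ∀ᵐ x ∂(volume : Measure E3), x ∉ cone y₀ c → V₂ x = 0) {ρ : ℂ} (hρ : ρ ≠ 0) {δ₀ : ℝ}
    (hδ₀ : 0 < δ₀) (htip : ∀ᵐ x ∂(volume : Measure E3), ‖x - y₀‖ < δ₀ →
      V₁ x = (oct y₀).indicator (fun _ => ρ) x)
    {N : ℕ} {x : Fin N → E3} {l : ℝ} (hl : 0 < l) (hx : ∀ i, cube (x i) l ⊆ Metric.ball 0 r)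
    (hlt : ∀ i, ⟪dv, x i⟫_ℝ + Real.sqrt 3 * l < ⟪dv, y₀⟫_ℝ)
    (hinj : ∀ i j, ⟪dv, x i⟫_ℝ = ⟪dv, x j⟫_ℝ → i = j) {τ₀ : ℝ} (hτ₀ : 2 * K ≤ τ₀)
    (hD : ∀ i, Dk s r V₁ V₂ τ₀ (x i) y₀ ≠ 0) (cc : Fin N → ℝ) {w : HS} (hw : w ∈ HB r)
    (hlin : ∀ τ : ℝ, K ≤ τ → ∀ η : Fin 3 → ℂ, Adm τ η →
      A3 (dH r (cmb x l cc)) (SI s r V₁ τ (ec r η)) (SI s r V₁ τ (ec r η)) =
        A3 w (SI s r V₂ τ (ec r η)) (SI s r V₂ τ (ec r η))) : cc = 0 := by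
  classical
  by_contra hcc
  have hcp := cmb_pot hx cc
  have hεc := dH_coe hcp
  have hεB := dH_mem hcp
  set ε : HS := dH r (cmb x l cc) with hεdef
  have hne : (Finset.univ.filter fun i => cc i ≠ 0).Nonempty := by
    by_contra he
    apply hcc
    funext i
    by_contra hi
    exact he ⟨i, Finset.mem_filter.2 ⟨Finset.mem_univ _, hi⟩⟩
  obtain ⟨D, hDm, hDmin⟩ := Finset.exists_min_image _ (fun i => ⟪dv, x i⟫_ℝ) hne
  have hDne : cc D ≠ 0 := (Finset.mem_filter.1 hDm).2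
  have hgap : ∀ i, cc i ≠ 0 → i ≠ D → ⟪dv, x D⟫_ℝ < ⟪dv, x i⟫_ℝ := by
    intro i hi hiD
    have h := hDmin i (Finset.mem_filter.2 ⟨Finset.mem_univ _, hi⟩)
    exact lt_of_le_of_ne h fun he => hiD (hinj i D he.symm)
  have hxD : ‖x D‖ < r := by
    have : x D ∈ cube (x D) l := fun j => ⟨le_rfl, by linarith⟩
    exact mem_ball_zero_iff.1 (hx D this)
  have hltD : ⟪dv, x D⟫_ℝ < ⟪dv, y₀⟫_ℝ := by
    have : 0 < Real.sqrt 3 * l := mul_pos (Real.sqrt_pos.2 (by norm_num)) hl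
    linarith [hlt D]
  -- the open set of directions
  set Ω : Set E3 := {a | ‖a - dv‖ < min (c / 2) (1 / 2)} ∩
    ({a | ⟪a, x D⟫_ℝ < ⟪a, y₀⟫_ℝ} ∩ ⋂ i, {a | cc i ≠ 0 → i ≠ D → ⟪a, x D⟫_ℝ < ⟪a, x i⟫_ℝ})
    with hΩdef
  have hΩo : IsOpen Ω := by
    refine IsOpen.inter ?_ (IsOpen.inter ?_ ?_)
    · exact isOpen_lt (by fun_prop) continuous_const
    · exact isOpen_lt (by fun_prop) (by fun_prop)
    · refine isOpen_iInter_of_finite fun i => ?_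
      by_cases hi : cc i ≠ 0 ∧ i ≠ D
      · have : {a : E3 | cc i ≠ 0 → i ≠ D → ⟪a, x D⟫_ℝ < ⟪a, x i⟫_ℝ} =
            {a | ⟪a, x D⟫_ℝ < ⟪a, x i⟫_ℝ} := by
          ext a
          exact ⟨fun h => h hi.1 hi.2, fun h _ _ => h⟩
        rw [this]
        exact isOpen_lt (by fun_prop) (by fun_prop)
      · have : {a : E3 | cc i ≠ 0 → i ≠ D → ⟪a, x D⟫_ℝ < ⟪a, x i⟫_ℝ} = univ := by
          ext a
          exact ⟨fun _ => mem_univ _, fun _ h3 h4 => absurd ⟨h3, h4⟩ hi⟩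
        rw [this]
        exact isOpen_univ
  have hdvΩ : dv ∈ Ω := by
    refine ⟨?_, hltD, mem_iInter.2 fun i => fun h3 h4 => hgap i h3 h4⟩
    show ‖dv - dv‖ < _
    rw [sub_self, norm_zero]
    exact lt_min (by positivity) (by norm_num)
  have hΩpos : ∀ a ∈ Ω, ∀ j, 0 < a j := fun a ha =>
    dv_pos (lt_of_lt_of_le ha.1 (min_le_right _ _))
  have hΩ0 : ∀ a ∈ Ω, a ≠ 0 := by
    intro a ha h
    have := hΩpos a ha 0
    rw [h] at this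
    simp at this
  have hΩlt : ∀ a ∈ Ω, ⟪a, x D⟫_ℝ < ⟪a, y₀⟫_ℝ := fun a ha => ha.2.1
  have hcv : ∀ {V : E3 → ℂ}, (∀ᵐ x ∂(volume : Measure E3), x ∉ cone y₀ c → V x = 0) → ∀ a ∈ Ω,
      ∀ᵐ x ∂(volume : Measure E3), ⟪a, x⟫_ℝ < ⟪a, y₀⟫_ℝ → V x = 0 := by
    intro V hV a ha
    filter_upwards [hV] with z hz hlt'
    apply hz
    intro hmem
    have h3 := cone_dir hmem (le_of_lt (lt_of_lt_of_le ha.1 (min_le_left _ _)))
    rw [inner_sub_right] at h3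
    have h4 : 0 ≤ c / 2 * ‖z - y₀‖ := by positivity
    linarith
  have hεv : ∀ a ∈ Ω, ∀ᵐ z ∂(volume : Measure E3), ⟪a, z⟫_ℝ < ⟪a, x D⟫_ℝ →
      (ε : E3 → ℂ) z = 0 := by
    intro a ha
    filter_upwards [hεc] with z hz hlt'
    rw [hz]
    unfold cmb
    refine Finset.sum_eq_zero fun i _ => ?_
    by_cases hi : cc i = 0
    · rw [hi]
      simp
    · have hle : ⟪a, x D⟫_ℝ ≤ ⟪a, x i⟫_ℝ := by
        by_cases hiD : i = D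
        · rw [hiD]
        · exact le_of_lt (mem_iInter.1 ha.2.2 i hi hiD)
      rw [Set.indicator_of_notMem, mul_zero]
      intro hmem
      have := cube_dir hmem (fun j => (hΩpos a ha j).le)
      linarith
  have hlinR : ∀ τ : ℝ, K ≤ τ → ∀ θ : E3, ‖θ‖ = 1 →
      A3 ε (SI s r V₁ τ (ec r (rv τ θ))) (SI s r V₁ τ (ec r (rv τ θ))) =
        A3 w (SI s r V₂ τ (ec r (rv τ θ))) (SI s r V₂ τ (ec r (rv τ θ))) := fun τ hτ θ hθ =>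
    hlin τ hτ _ (rv_adm τ hθ)
  have hf := starA h0 h2 h1 hr hK hV₁ hV₂ hΩo hΩ0 hxD.le hy₀.le hΩlt (hcv hc₁) (hcv hc₂) hw hεB
    hεv hlinR dv hdvΩ
  -- the gap
  obtain ⟨δ', hδ', hgapδ⟩ : ∃ δ' : ℝ, 0 < δ' ∧ ∀ i, cc i ≠ 0 → i ≠ D →
      ⟪dv, x D⟫_ℝ + δ' ≤ ⟪dv, x i⟫_ℝ := by
    have hev : ∀ᶠ δ' : ℝ in 𝓝[>] 0, ∀ i, cc i ≠ 0 → i ≠ D →
        ⟪dv, x D⟫_ℝ + δ' ≤ ⟪dv, x i⟫_ℝ := by
      rw [eventually_all]
      intro i
      by_cases hi : cc i ≠ 0 ∧ i ≠ D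
      · have hg := hgap i hi.1 hi.2
        have : ∀ᶠ δ' : ℝ in 𝓝[>] 0, δ' < ⟪dv, x i⟫_ℝ - ⟪dv, x D⟫_ℝ :=
          (eventually_lt_nhds (by linarith)).filter_mono nhdsWithin_le_nhds
        filter_upwards [this] with δ' h3 _ _
        linarith
      · exact Eventually.of_forall fun _ h3 h4 => absurd ⟨h3, h4⟩ hi
    obtain ⟨δ', h3, h4⟩ := (hev.and self_mem_nhdsWithin).exists
    exact ⟨δ', h4, h3⟩
  have hε' : ∀ᵐ z ∂(volume : Measure E3), ⟪dv, z⟫_ℝ < ⟪dv, x D⟫_ℝ + δ' →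
      (ε : E3 → ℂ) z = ((cc D : ℝ) : ℂ) * (cube (x D) l).indicator (fun _ => (1 : ℂ)) z := by
    filter_upwards [hεc] with z hz hlt'
    rw [hz]
    unfold cmb
    refine Finset.sum_eq_single D (fun i _ hiD => ?_) (fun h => absurd (Finset.mem_univ _) h)
    by_cases hi : cc i = 0
    · rw [hi]
      simp
    · rw [Set.indicator_of_notMem, mul_zero]
      intro hmem
      have := cube_dir hmem (fun j => (hΩpos dv hdvΩ j).le)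
      linarith [hgapδ i hi hiD]
  obtain ⟨C, hC0, hC⟩ := Phm_bd hr (sub_mem hw hεB) hxD.le hy₀.le hf
  have hlim : ∀ τ : ℝ, 2 * K ≤ τ → Tendsto (fun m : ℝ => Phm r (w - ε) (x D) y₀ m
      ((τ ^ 2 : ℝ) : ℂ)) atTop
      (𝓝 (2 * ((cc D : ℝ) : ℂ) * (ρ * T0 ^ 2 * Dk s r V₁ V₂ τ (x D) y₀))) := by
    intro τ hτ
    have hKpos := hK.one
    have e1 := starB_rem h0 h2 h1 hr hK hV₁ hV₂ hc hc₁ hc₂ hl (hx D) hltD hw hεB hδ' hε' hf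
      (show K ≤ τ by linarith) (hlin τ (by linarith))
    have e2 := starB_lim h0 h2 h1 hr hK hV₁ hV₂ hF hy₀ hc hc₁ hc₂ hδ₀ htip hl (hx D) (hlt D) hτ
    have e3 := e1.add (e2.const_mul (2 * ((cc D : ℝ) : ℂ)))
    rw [zero_add] at e3
    refine e3.congr fun m => ?_
    ring
  have hLz : Tendsto (fun τ : ℝ => 2 * ((cc D : ℝ) : ℂ) *
      (ρ * T0 ^ 2 * Dk s r V₁ V₂ τ (x D) y₀)) atTop (𝓝 0) := by
    have := ((Dk_lim h0 h2 h1 hK hV₁ hV₂ (x D) y₀).const_mul (ρ * T0 ^ 2)).const_mul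
      (2 * ((cc D : ℝ) : ℂ))
    rwa [mul_zero, mul_zero] at this
  have hK0 : (0 : ℝ) ≤ 2 * K := by linarith [hK.one]
  have hv := vanish (fun m => Phm_diff r (w - ε) (x D) y₀ m) (fun m hm ω hω => hC m hm ω hω)
    hK0 hlim hLz τ₀ hτ₀
  have hcD : ((cc D : ℝ) : ℂ) ≠ 0 := Complex.ofReal_ne_zero.2 hDne
  refine hD D ?_
  have h5 : 2 * ((cc D : ℝ) : ℂ) ≠ 0 := mul_ne_zero two_ne_zero hcD
  have h6 := (mul_eq_zero.1 hv).resolve_left h5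
  exact (mul_eq_zero.1 h6).resolve_left (mul_ne_zero hρ (pow_ne_zero _ T0_ne))

end FracScatC

end
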