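import Pool.Agent.Lib.MP_6e2ba5_an.Dx.StarA0
import Pool.Agent.Lib.MP_6e2ba5_an.Dx.Lap

/-! # Real directions: the support of `w - ε`

`f = w - ε`. Define `c₀(a) = -r ‖a‖`, `c_{k+1}(a) = (min (c_k a) ⟪a, xD⟫ + ⟪a, y₀⟫)/2`. All `c_k` are positively
homogeneous (`c_k (t a) = t c_k a`) and Lipschitz with the constant `r` (as `‖xD‖, ‖y₀‖ ≤ r`). Claim: for all `k` and all
`a ∈ Ω`, `f = 0` a.e. on `{a·x < c_k(a)}`. `k = 0`: `f` vanishes outside the ball. Step: fix `a ∈ Ω`, `b ∈ E3`; for large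
`t`, `a' = a + b/t ∈ Ω` and `starA_est` for `a'` and `c = c_k(a')` gives
`|∫ f exp(-2(t a + b)·x)| ≤ C exp(-2t c_{k+1}(a')) ≤ C exp(-2t c_{k+1}(a) + 2 r ‖b‖)`. So `laplace_zero` (for `2a`... or with
`t' = 2t`, `b' = 2b`) gives `f = 0` a.e. on `{a·x < c_{k+1}(a)}`. Finally for each `a` some `c_k(a) ≥ ⟪a, xD⟫`:
otherwise `c_{k+1} = (c_k + ⟪a,y₀⟫)/2` for all `k`, which tends to `⟪a,y₀⟫ > ⟪a,xD⟫`; and then
`c_{k+1}(a) = (⟪a,xD⟫ + ⟪a,y₀⟫)/2`. -/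

set_option autoImplicit false

open MeasureTheory Filter Topology Set
open scoped FourierTransform SchwartzMap InnerProductSpace ENNReal BoundedContinuousFunction

noncomputable section

namespace FracScatC

open FracScat

/-- the constants of the iteration -/
private def StarA_c (r : ℝ) (xD y₀ : E3) : ℕ → E3 → ℝ
  | 0, a => -(r * ‖a‖)
  | k + 1, a => (min (StarA_c r xD y₀ k a) ⟪a, xD⟫_ℝ + ⟪a, y₀⟫_ℝ) / 2

private theorem StarA_inner {r : ℝ} {a a' z : E3} (hz : ‖z‖ ≤ r) :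
    ⟪a, z⟫_ℝ - r * ‖a' - a‖ ≤ ⟪a', z⟫_ℝ := by
  have h1 : |⟪a' - a, z⟫_ℝ| ≤ ‖a' - a‖ * ‖z‖ := abs_real_inner_le_norm _ _
  have h2 : ‖a' - a‖ * ‖z‖ ≤ ‖a' - a‖ * r := mul_le_mul_of_nonneg_left hz (norm_nonneg _)
  have h3 := (abs_le.1 (h1.trans h2)).1
  rw [inner_sub_left] at h3
  linarith

private theorem StarA_lip {r : ℝ} (hr : 0 < r) {xD y₀ : E3} (hxD : ‖xD‖ ≤ r) (hy₀ : ‖y₀‖ ≤ r)
    (a a' : E3) (k : ℕ) :
    StarA_c r xD y₀ k a - r * ‖a' - a‖ ≤ StarA_c r xD y₀ k a' := by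
  induction k with
  | zero =>
    simp only [StarA_c]
    have h1 : ‖a'‖ ≤ ‖a' - a‖ + ‖a‖ := by
      have := norm_add_le (a' - a) a
      rwa [sub_add_cancel] at this
    nlinarith
  | succ k ih =>
    simp only [StarA_c]
    have h1 := StarA_inner (a := a) (a' := a') hxD
    have h2 := StarA_inner (a := a) (a' := a') hy₀
    have h3 : min (StarA_c r xD y₀ k a) ⟪a, xD⟫_ℝ - r * ‖a' - a‖ ≤
        min (StarA_c r xD y₀ k a') ⟪a', xD⟫_ℝ := by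
      apply le_min
      · exact (sub_le_sub_right (min_le_left _ _) _).trans ih
      · exact (sub_le_sub_right (min_le_right _ _) _).trans h1
    linarith

private theorem StarA_ex {r : ℝ} {xD y₀ a : E3} (h : ⟪a, xD⟫_ℝ < ⟪a, y₀⟫_ℝ) :
    ∃ k, ⟪a, xD⟫_ℝ ≤ StarA_c r xD y₀ k a := by
  by_contra hcon
  push Not at hcon
  have h1 : ∀ k, StarA_c r xD y₀ (k + 1) a = (StarA_c r xD y₀ k a + ⟪a, y₀⟫_ℝ) / 2 := by
    intro k
    simp only [StarA_c]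
    rw [min_eq_left (hcon k).le]
  have h2 : ∀ k, ⟪a, y₀⟫_ℝ - StarA_c r xD y₀ k a =
      (⟪a, y₀⟫_ℝ - StarA_c r xD y₀ 0 a) * (1 / 2) ^ k := by
    intro k
    induction k with
    | zero => rw [pow_zero, mul_one]
    | succ k ih =>
      rw [h1, pow_succ, ← mul_assoc, ← ih]
      ring
  have h3 : Tendsto (fun k : ℕ => (⟪a, y₀⟫_ℝ - StarA_c r xD y₀ 0 a) * (1 / 2 : ℝ) ^ k) atTop
      (𝓝 ((⟪a, y₀⟫_ℝ - StarA_c r xD y₀ 0 a) * 0)) :=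
    (tendsto_pow_atTop_nhds_zero_of_lt_one (by norm_num) (by norm_num)).const_mul _
  rw [mul_zero] at h3
  obtain ⟨k, hk⟩ := (h3.eventually (gt_mem_nhds (sub_pos.2 h))).exists
  rw [← h2 k] at hk
  linarith [hcon k]

theorem starA {s : ℝ} (h0 : 3 / 4 < s) (h2 : s < 2) (h1 : s ≠ 1) {r : ℝ} (hr : 0 < r)
    {M K : ℝ} (hK : KOK s r M K) {V₁ V₂ : E3 → ℂ} (hV₁ : IsPot r M V₁) (hV₂ : IsPot r M V₂)
    {Ω : Set E3} (hΩ : IsOpen Ω) (hΩ0 : ∀ a ∈ Ω, a ≠ 0) {xD y₀ : E3} (hxD : ‖xD‖ ≤ r)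
    (hy₀ : ‖y₀‖ ≤ r) (hlt : ∀ a ∈ Ω, ⟪a, xD⟫_ℝ < ⟪a, y₀⟫_ℝ)
    (hv₁ : ∀ a ∈ Ω, ∀ᵐ x ∂(volume : Measure E3), ⟪a, x⟫_ℝ < ⟪a, y₀⟫_ℝ → V₁ x = 0)
    (hv₂ : ∀ a ∈ Ω, ∀ᵐ x ∂(volume : Measure E3), ⟪a, x⟫_ℝ < ⟪a, y₀⟫_ℝ → V₂ x = 0)
    {w ε : HS} (hw : w ∈ HB r) (hε : ε ∈ HB r)
    (hεv : ∀ a ∈ Ω, ∀ᵐ x ∂(volume : Measure E3), ⟪a, x⟫_ℝ < ⟪a, xD⟫_ℝ → (ε : E3 → ℂ) x = 0)
    (hlin : ∀ τ : ℝ, K ≤ τ → ∀ θ : E3, ‖θ‖ = 1 →
      A3 ε (SI s r V₁ τ (ec r (rv τ θ))) (SI s r V₁ τ (ec r (rv τ θ))) =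
        A3 w (SI s r V₂ τ (ec r (rv τ θ))) (SI s r V₂ τ (ec r (rv τ θ)))) :
    ∀ a ∈ Ω, ∀ᵐ x ∂(volume : Measure E3), 2 * ⟪a, x⟫_ℝ < ⟪a, xD⟫_ℝ + ⟪a, y₀⟫_ℝ →
      ((w - ε : HS) : E3 → ℂ) x = 0 := by
  obtain ⟨C, hC0, hest⟩ := starA_est h0 h2 h1 hr hK hV₁ hV₂ hΩ0 hlt hv₁ hv₂ hw hε hεv hlin
  have hfB : (w - ε : HS) ∈ HB r := Submodule.sub_mem _ hw hε
  have hfi : Integrable ((w - ε : HS) : E3 → ℂ) := HB_integrable hfB
  have hfr : ∀ᵐ x ∂(volume : Measure E3), r ≤ ‖x‖ → ((w - ε : HS) : E3 → ℂ) x = 0 := by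
    have h := mulL_coe (indB_BM r) (w - ε : HS)
    rw [mem_HB.1 hfB] at h
    filter_upwards [h] with x hx hrx
    rw [hx, indB, if_neg (not_lt.2 hrx), zero_mul]
  have key : ∀ k : ℕ, ∀ a ∈ Ω, ∀ᵐ x ∂(volume : Measure E3), ⟪a, x⟫_ℝ < StarA_c r xD y₀ k a →
      ((w - ε : HS) : E3 → ℂ) x = 0 := by
    intro k
    induction k with
    | zero =>
      intro a ha
      filter_upwards [hfr] with x hx hax
      apply hx
      by_contra hlt'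
      push Not at hlt'
      simp only [StarA_c] at hax
      have h3 : |⟪a, x⟫_ℝ| ≤ ‖a‖ * ‖x‖ := abs_real_inner_le_norm _ _
      have h4 := (abs_le.1 h3).1
      have h5 : ‖a‖ * ‖x‖ ≤ ‖a‖ * r := mul_le_mul_of_nonneg_left hlt'.le (norm_nonneg _)
      linarith
    | succ k ih =>
      intro a ha
      have ha0 : 0 < ‖a‖ := norm_pos_iff.2 (hΩ0 a ha)
      refine laplace_zero hfi hfr (hΩ0 a ha) (fun b => ?_)
      -- the perturbed directions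
      have hlim : Tendsto (fun t : ℝ => a + t⁻¹ • b) atTop (𝓝 a) := by
        have h3 : Tendsto (fun t : ℝ => t⁻¹ • b) atTop (𝓝 ((0 : ℝ) • b)) :=
          tendsto_inv_atTop_zero.smul_const b
        rw [zero_smul] at h3
        simpa using h3.const_add a
      have hev1 : ∀ᶠ t : ℝ in atTop, a + t⁻¹ • b ∈ Ω := hlim.eventually (hΩ.mem_nhds ha)
      have hev2 : ∀ᶠ t : ℝ in atTop, ‖a‖ / 2 < ‖a + t⁻¹ • b‖ :=
        hlim.norm.eventually (lt_mem_nhds (by linarith))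
      have hev3 : ∀ᶠ t : ℝ in atTop, 4 * K / ‖a‖ ≤ t := eventually_ge_atTop _
      have hev4 : ∀ᶠ t : ℝ in atTop, (1 : ℝ) ≤ t := eventually_ge_atTop _
      obtain ⟨t₀, ht₀⟩ := eventually_atTop.1 (hev1.and (hev2.and (hev3.and hev4)))
      refine ⟨C * Real.exp (r * ‖b‖), t₀, fun t ht => ?_⟩
      obtain ⟨hΩt, hnt, hKt, h1t⟩ := ht₀ t ht
      have htpos : 0 < t := by linarith
      have hK' : K ≤ t / 2 * ‖a + t⁻¹ • b‖ := by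
        have h3 : 4 * K ≤ t * ‖a‖ := by rwa [div_le_iff₀ ha0] at hKt
        nlinarith
      have hE := hest (a + t⁻¹ • b) hΩt (t / 2) (by linarith) hK' _ (ih _ hΩt)
      have hin : ∀ x : E3, 2 * (t / 2) * ⟪a + t⁻¹ • b, x⟫_ℝ = t * ⟪a, x⟫_ℝ + ⟪b, x⟫_ℝ := by
        intro x
        rw [inner_add_left, real_inner_smul_left]
        field_simp
      simp only [hin] at hE
      refine hE.trans ?_
      rw [mul_assoc, ← Real.exp_add]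
      apply mul_le_mul_of_nonneg_left _ hC0
      apply Real.exp_le_exp.2
      have h6 := StarA_lip hr hxD hy₀ a (a + t⁻¹ • b) (k + 1)
      have h7 : ‖a + t⁻¹ • b - a‖ = t⁻¹ * ‖b‖ := by
        rw [add_sub_cancel_left, norm_smul, Real.norm_of_nonneg (inv_nonneg.2 htpos.le)]
      rw [h7] at h6
      have h8 : StarA_c r xD y₀ (k + 1) (a + t⁻¹ • b) =
          (min (StarA_c r xD y₀ k (a + t⁻¹ • b)) ⟪a + t⁻¹ • b, xD⟫_ℝ +
            ⟪a + t⁻¹ • b, y₀⟫_ℝ) / 2 := rfl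
      have h9 : t * (r * (t⁻¹ * ‖b‖)) = r * ‖b‖ := by field_simp
      have h10 := mul_le_mul_of_nonneg_left h6 htpos.le
      rw [mul_sub, h9] at h10
      rw [h8] at h10
      linarith
  intro a ha
  obtain ⟨k, hk⟩ := StarA_ex (r := r) (hlt a ha)
  filter_upwards [key (k + 1) a ha] with x hx hax
  apply hx
  simp only [StarA_c]
  rw [min_eq_right hk]
  linarith

end FracScatC

end
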