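import Pool.Agent.Lib.MP_6e2ba5_an.Dx.RIb

/-! # Real directions: the estimate

Let `θ = a/‖a‖`, `τ = t ‖a‖ ≥ K`, `e = ec r (rv τ θ) = 1_B exp(-t a·x)` (`ec_coe`), `u_j = SI s r V_j τ e = e + v_j`,
`v_j = RI (V_j u_j)` (`UK_fix`), `f = w - ε`. Expanding (`A3_add_right`, `A3_comm`; all factors are bounded)
`A3 w e e - A3 ε e e = 2 A3 ε e v₁ + A3 ε v₁ v₁ - 2 A3 w e v₂ - A3 w v₂ v₂`, and the left side is
`∫ f exp(-2t a·x)` (`w`, `ε` vanish outside the ball). Bounds: `‖V_j u_j‖ ≤ 2 ‖V_j e‖ ≤ 2 M ‖1_B‖ exp(-t a·y₀)` (`UK_V`, `V_j = 0` a.e.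
where `a·x < a·y₀`), so `v_j` is bounded by `C₁ exp(-t a·y₀)` (`RI_SymB`, a constant for all `τ ≥ 1`);
`∫ |ε| e ≤ exp(-t a·xD) ∫ |ε|`; `w = f + ε` and `∫ |f| e ≤ exp(-t c) ∫ |f|`. So the whole is at most
`C (exp(-t a·xD) + exp(-t c)) exp(-t a·y₀) + C exp(-2t a·y₀)`, and `a·xD < a·y₀`. -/

set_option autoImplicit false

open MeasureTheory Filter Topology Set
open scoped FourierTransform SchwartzMap InnerProductSpace ENNReal BoundedContinuousFunction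

noncomputable section

namespace FracScatC

open FracScat

private theorem StarA0_est {W f g : HS} (hW : Integrable (W : E3 → ℂ)) {A B : ℝ}
    (hA : ∀ᵐ x ∂(volume : Measure E3), ‖(W : E3 → ℂ) x‖ * ‖(f : E3 → ℂ) x‖ ≤
      A * ‖(W : E3 → ℂ) x‖) (_hB : 0 ≤ B) (hg : Bd B g) :
    ‖A3 W f g‖ ≤ A * B * ∫ x, ‖(W : E3 → ℂ) x‖ := by
  unfold A3
  rw [← integral_const_mul]
  refine norm_integral_le_of_norm_le (hW.norm.const_mul (A * B)) ?_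
  unfold Bd at hg
  filter_upwards [hA, hg] with x h1 h2
  rw [norm_mul, norm_mul, ← mul_assoc]
  calc ‖(W : E3 → ℂ) x‖ * ‖(f : E3 → ℂ) x‖ * ‖(g : E3 → ℂ) x‖
      ≤ (A * ‖(W : E3 → ℂ) x‖) * B :=
        mul_le_mul h1 h2 (norm_nonneg _) ((mul_nonneg (norm_nonneg _) (norm_nonneg _)).trans h1)
    _ = A * B * ‖(W : E3 → ℂ) x‖ := by ring

private theorem StarA0_expand {Ce Cv : ℝ} {W e v : HS} (he : Bd Ce e) (hv : Bd Cv v) :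
    A3 W (e + v) (e + v) = A3 W e e + 2 * A3 W e v + A3 W v v := by
  rw [A3_add_left he hv, A3_add_right he, A3_add_right hv, A3_comm W v e]
  ring

private theorem StarA0_cd {a : E3} (ha : a ≠ 0) (t : ℝ) (x : E3) :
    cd (rv (t * ‖a‖) (‖a‖⁻¹ • a)) x = ((-(t * ⟪a, x⟫_ℝ) : ℝ) : ℂ) := by
  have hn : ‖a‖ ≠ 0 := norm_ne_zero_iff.2 ha
  unfold cd rv
  have h1 : ⟪a, x⟫_ℝ = ∑ j, a j * x j := by
    rw [PiLp.inner_apply]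
    refine Finset.sum_congr rfl fun j _ => ?_
    simp [mul_comm]
  rw [h1, Finset.mul_sum, ← Finset.sum_neg_distrib, Complex.ofReal_sum]
  refine Finset.sum_congr rfl fun j _ => ?_
  rw [← Complex.ofReal_mul]
  congr 1
  have h2 : (‖a‖⁻¹ • a : E3) j = ‖a‖⁻¹ * a j := rfl
  rw [h2]
  field_simp

private theorem StarA0_ec (r : ℝ) {a : E3} (ha : a ≠ 0) (t : ℝ) :
    (ec r (rv (t * ‖a‖) (‖a‖⁻¹ • a)) : E3 → ℂ) =ᵐ[volume]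
      fun x => indB r x * ((Real.exp (-(t * ⟪a, x⟫_ℝ)) : ℝ) : ℂ) := by
  filter_upwards [ec_coe r (rv (t * ‖a‖) (‖a‖⁻¹ • a))] with x hx
  rw [hx, StarA0_cd ha t x, Complex.ofReal_exp]

private theorem StarA0_indB (r : ℝ) (x : E3) : ‖indB r x‖ ≤ 1 := by
  unfold indB
  split_ifs <;> simp

/-- `W` vanishes where `a·x < c`. -/
private theorem StarA0_W {r : ℝ} {a : E3} (ha : a ≠ 0) {t : ℝ} (ht : 0 < t) {W : HS} {c : ℝ}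
    (hW : ∀ᵐ x ∂(volume : Measure E3), ⟪a, x⟫_ℝ < c → (W : E3 → ℂ) x = 0) :
    ∀ᵐ x ∂(volume : Measure E3), ‖(W : E3 → ℂ) x‖ *
      ‖(ec r (rv (t * ‖a‖) (‖a‖⁻¹ • a)) : E3 → ℂ) x‖ ≤
        Real.exp (-(t * c)) * ‖(W : E3 → ℂ) x‖ := by
  filter_upwards [hW, StarA0_ec r ha t] with x h1 h2
  by_cases hx : ⟪a, x⟫_ℝ < c
  · rw [h1 hx, norm_zero, zero_mul, mul_zero]
  · rw [mul_comm]
    refine mul_le_mul_of_nonneg_right ?_ (norm_nonneg _)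
    rw [h2, norm_mul, Complex.norm_real, Real.norm_of_nonneg (Real.exp_nonneg _)]
    calc ‖indB r x‖ * Real.exp (-(t * ⟪a, x⟫_ℝ)) ≤ 1 * Real.exp (-(t * ⟪a, x⟫_ℝ)) :=
          mul_le_mul_of_nonneg_right (StarA0_indB r x) (Real.exp_nonneg _)
      _ = Real.exp (-(t * ⟪a, x⟫_ℝ)) := one_mul _
      _ ≤ Real.exp (-(t * c)) := by
          refine Real.exp_le_exp.2 (neg_le_neg ?_)
          exact mul_le_mul_of_nonneg_left (not_lt.1 hx) ht.le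

private theorem StarA0_Ve {r M : ℝ} {V : E3 → ℂ} (hV : IsPot r M V) {a : E3} (ha : a ≠ 0) {t : ℝ}
    (ht : 0 < t) {y₀ : E3}
    (hv : ∀ᵐ x ∂(volume : Measure E3), ⟪a, x⟫_ℝ < ⟪a, y₀⟫_ℝ → V x = 0) :
    ‖mulL V (ec r (rv (t * ‖a‖) (‖a‖⁻¹ • a)))‖ ≤
      M * Real.exp (-(t * ⟪a, y₀⟫_ℝ)) * ‖oneB r‖ := by
  refine Lp.norm_le_mul_norm_of_ae_le_mul ?_
  filter_upwards [hv, StarA0_ec r ha t, mulL_coe hV.BM (ec r (rv (t * ‖a‖) (‖a‖⁻¹ • a))),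
    oneB_coe r] with x h1 h2 h3 h4
  rw [h3, h2, h4, norm_mul, norm_mul]
  by_cases hx : ⟪a, x⟫_ℝ < ⟪a, y₀⟫_ℝ
  · rw [h1 hx, norm_zero, zero_mul]
    have := hV.nonneg
    positivity
  · rw [Complex.norm_real, Real.norm_of_nonneg (Real.exp_nonneg _)]
    have h5 : Real.exp (-(t * ⟪a, x⟫_ℝ)) ≤ Real.exp (-(t * ⟪a, y₀⟫_ℝ)) := by
      refine Real.exp_le_exp.2 (neg_le_neg ?_)
      exact mul_le_mul_of_nonneg_left (not_lt.1 hx) ht.le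
    calc ‖V x‖ * (‖indB r x‖ * Real.exp (-(t * ⟪a, x⟫_ℝ)))
        ≤ M * (‖indB r x‖ * Real.exp (-(t * ⟪a, y₀⟫_ℝ))) := by
          refine mul_le_mul (hV.bounded x) ?_ (by positivity) hV.nonneg
          exact mul_le_mul_of_nonneg_left h5 (norm_nonneg _)
      _ = M * Real.exp (-(t * ⟪a, y₀⟫_ℝ)) * ‖indB r x‖ := by ring

private theorem StarA0_v {s r M K C₁ : ℝ} (hK : KOK s r M K)
    (hC : ∀ τ : ℝ, 1 ≤ τ → SymB r C₁ (RI s r τ)) (hC0 : 0 ≤ C₁) {V : E3 → ℂ} (hV : IsPot r M V)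
    {a : E3} (ha : a ≠ 0) {t : ℝ} (ht : 0 < t) (hKt : K ≤ t * ‖a‖) {y₀ : E3}
    (hv : ∀ᵐ x ∂(volume : Measure E3), ⟪a, x⟫_ℝ < ⟪a, y₀⟫_ℝ → V x = 0) :
    ∃ v : HS, SI s r V (t * ‖a‖) (ec r (rv (t * ‖a‖) (‖a‖⁻¹ • a))) =
        ec r (rv (t * ‖a‖) (‖a‖⁻¹ • a)) + v ∧
      Bd (C₁ * (2 * (M * ‖oneB r‖)) * Real.exp (-(t * ⟪a, y₀⟫_ℝ))) v := by
  have hMK := hK.ri (t * ‖a‖) hKt
  refine ⟨RI s r (t * ‖a‖) (mulL V (UK (RI s r (t * ‖a‖)) V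
    (ec r (rv (t * ‖a‖) (‖a‖⁻¹ • a))))), ?_, ?_⟩
  · rw [SI_eq]
    exact UK_fix hV hMK _
  · refine ((hC (t * ‖a‖) (hK.one.trans hKt)).bd _).mono ?_
    have h1 := UK_V hV hMK (ec r (rv (t * ‖a‖) (‖a‖⁻¹ • a)))
    have h3 := StarA0_Ve hV ha ht hv
    calc C₁ * ‖mulL V (UK (RI s r (t * ‖a‖)) V (ec r (rv (t * ‖a‖) (‖a‖⁻¹ • a))))‖
        ≤ C₁ * (2 * (M * Real.exp (-(t * ⟪a, y₀⟫_ℝ)) * ‖oneB r‖)) := by
          refine mul_le_mul_of_nonneg_left (h1.trans ?_) hC0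
          exact mul_le_mul_of_nonneg_left h3 zero_le_two
      _ = C₁ * (2 * (M * ‖oneB r‖)) * Real.exp (-(t * ⟪a, y₀⟫_ℝ)) := by ring

private theorem StarA0_left {r : ℝ} {f w ε : HS} (hf : f = w - ε) (hw : w ∈ HB r) (hε : ε ∈ HB r)
    {a : E3} (ha : a ≠ 0) (t : ℝ) {Ce : ℝ} (he : Bd Ce (ec r (rv (t * ‖a‖) (‖a‖⁻¹ • a)))) :
    ∫ x, (f : E3 → ℂ) x * ((Real.exp (-(2 * t * ⟪a, x⟫_ℝ)) : ℝ) : ℂ) =
      A3 w (ec r (rv (t * ‖a‖) (‖a‖⁻¹ • a))) (ec r (rv (t * ‖a‖) (‖a‖⁻¹ • a))) -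
        A3 ε (ec r (rv (t * ‖a‖) (‖a‖⁻¹ • a))) (ec r (rv (t * ‖a‖) (‖a‖⁻¹ • a))) := by
  unfold A3
  rw [← integral_sub (A3_integrable he) (A3_integrable he)]
  refine integral_congr_ae ?_
  have hfB : mulL (indB r) f = f := by
    rw [hf, map_sub, mem_HB.1 hw, mem_HB.1 hε]
  have h1 := mulL_coe (indB_BM r) f
  rw [hfB] at h1
  have h2 : (f : E3 → ℂ) =ᵐ[volume] (w : E3 → ℂ) - (ε : E3 → ℂ) := by
    rw [hf]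
    exact Lp.coeFn_sub w ε
  filter_upwards [h1, h2, StarA0_ec r ha t] with x a1 a2 a3
  have h3 : ((Real.exp (-(2 * t * ⟪a, x⟫_ℝ)) : ℝ) : ℂ) =
      ((Real.exp (-(t * ⟪a, x⟫_ℝ)) : ℝ) : ℂ) * ((Real.exp (-(t * ⟪a, x⟫_ℝ)) : ℝ) : ℂ) := by
    rw [← Complex.ofReal_mul, ← Real.exp_add]
    congr 2
    ring
  rw [Pi.sub_apply] at a2
  have h4 : indB r x * indB r x = indB r x := by
    unfold indB
    split_ifs <;> simp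
  rw [a3, h3, ← sub_mul, ← a2]
  calc (f : E3 → ℂ) x * (((Real.exp (-(t * ⟪a, x⟫_ℝ)) : ℝ) : ℂ) *
        ((Real.exp (-(t * ⟪a, x⟫_ℝ)) : ℝ) : ℂ))
      = (indB r x * (f : E3 → ℂ) x) * (((Real.exp (-(t * ⟪a, x⟫_ℝ)) : ℝ) : ℂ) *
        ((Real.exp (-(t * ⟪a, x⟫_ℝ)) : ℝ) : ℂ)) := by rw [← a1]
    _ = ((indB r x * indB r x) * (f : E3 → ℂ) x) * (((Real.exp (-(t * ⟪a, x⟫_ℝ)) : ℝ) : ℂ) *
        ((Real.exp (-(t * ⟪a, x⟫_ℝ)) : ℝ) : ℂ)) := by rw [h4]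
    _ = _ := by ring

theorem starA_est {s : ℝ} (h0 : 3 / 4 < s) (h2 : s < 2) (h1 : s ≠ 1) {r : ℝ} (hr : 0 < r)
    {M K : ℝ} (hK : KOK s r M K) {V₁ V₂ : E3 → ℂ} (hV₁ : IsPot r M V₁) (hV₂ : IsPot r M V₂)
    {Ω : Set E3} (hΩ0 : ∀ a ∈ Ω, a ≠ 0) {xD y₀ : E3} (hlt : ∀ a ∈ Ω, ⟪a, xD⟫_ℝ < ⟪a, y₀⟫_ℝ)
    (hv₁ : ∀ a ∈ Ω, ∀ᵐ x ∂(volume : Measure E3), ⟪a, x⟫_ℝ < ⟪a, y₀⟫_ℝ → V₁ x = 0)
    (hv₂ : ∀ a ∈ Ω, ∀ᵐ x ∂(volume : Measure E3), ⟪a, x⟫_ℝ < ⟪a, y₀⟫_ℝ → V₂ x = 0)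
    {w ε : HS} (hw : w ∈ HB r) (hε : ε ∈ HB r)
    (hεv : ∀ a ∈ Ω, ∀ᵐ x ∂(volume : Measure E3), ⟪a, x⟫_ℝ < ⟪a, xD⟫_ℝ → (ε : E3 → ℂ) x = 0)
    (hlin : ∀ τ : ℝ, K ≤ τ → ∀ θ : E3, ‖θ‖ = 1 →
      A3 ε (SI s r V₁ τ (ec r (rv τ θ))) (SI s r V₁ τ (ec r (rv τ θ))) =
        A3 w (SI s r V₂ τ (ec r (rv τ θ))) (SI s r V₂ τ (ec r (rv τ θ)))) :
    ∃ C : ℝ, 0 ≤ C ∧ ∀ a ∈ Ω, ∀ t : ℝ, 0 < t → K ≤ t * ‖a‖ → ∀ c : ℝ,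
      (∀ᵐ x ∂(volume : Measure E3), ⟪a, x⟫_ℝ < c → ((w - ε : HS) : E3 → ℂ) x = 0) →
      ‖∫ x, ((w - ε : HS) : E3 → ℂ) x * ((Real.exp (-(2 * t * ⟪a, x⟫_ℝ)) : ℝ) : ℂ)‖ ≤
        C * Real.exp (-(t * (min c ⟪a, xD⟫_ℝ + ⟪a, y₀⟫_ℝ))) := by
  obtain ⟨C₁, hC0, hC⟩ := RI_SymB h0 h2 h1 hr
  have hM : 0 ≤ M := hV₁.nonneg
  have hwI := HB_integrable hw
  have hεI := HB_integrable hε
  set B : ℝ := C₁ * (2 * (M * ‖oneB r‖)) with hB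
  have hB0 : 0 ≤ B := by positivity
  set Iw : ℝ := ∫ x, ‖(w : E3 → ℂ) x‖ with hIw
  set Ie : ℝ := ∫ x, ‖(ε : E3 → ℂ) x‖ with hIe
  have hIw0 : 0 ≤ Iw := integral_nonneg fun x => norm_nonneg _
  have hIe0 : 0 ≤ Ie := integral_nonneg fun x => norm_nonneg _
  refine ⟨(2 * B + B * B) * (Ie + Iw), by positivity, ?_⟩
  intro a ha t ht hKt c hc
  have ha0 := hΩ0 a ha
  have hn : ‖a‖ ≠ 0 := norm_ne_zero_iff.2 ha0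
  obtain ⟨v₁, hu₁, hb₁⟩ := StarA0_v hK hC hC0 hV₁ ha0 ht hKt (hv₁ a ha)
  obtain ⟨v₂, hu₂, hb₂⟩ := StarA0_v hK hC hC0 hV₂ ha0 ht hKt (hv₂ a ha)
  rw [← hB] at hb₁ hb₂
  have hθ : ‖‖a‖⁻¹ • a‖ = 1 := by
    rw [norm_smul, norm_inv, norm_norm, inv_mul_cancel₀ hn]
  have hl := hlin (t * ‖a‖) hKt (‖a‖⁻¹ • a) hθ
  have heB := ec_Bd hr (rv (t * ‖a‖) (‖a‖⁻¹ • a))
  rw [hu₁, hu₂, StarA0_expand heB hb₁, StarA0_expand heB hb₂] at hl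
  have hmain := StarA0_left (f := w - ε) rfl hw hε ha0 t heB
  rw [hmain]
  set e : HS := ec r (rv (t * ‖a‖) (‖a‖⁻¹ • a)) with he
  have hid : A3 w e e - A3 ε e e =
      (2 * A3 ε e v₁ + A3 ε v₁ v₁) - (2 * A3 w e v₂ + A3 w v₂ v₂) := by
    linear_combination (-1 : ℂ) * hl
  rw [hid]
  set m : ℝ := min c ⟪a, xD⟫_ℝ with hm
  set E0 : ℝ := Real.exp (-(t * ⟪a, y₀⟫_ℝ)) with hE0
  set E1 : ℝ := Real.exp (-(t * m)) with hE1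
  have hE0p : 0 < E0 := Real.exp_pos _
  have hE1p : 0 < E1 := Real.exp_pos _
  have hE01 : E0 ≤ E1 := by
    refine Real.exp_le_exp.2 (neg_le_neg (mul_le_mul_of_nonneg_left ?_ ht.le))
    exact (min_le_right _ _).trans (hlt a ha).le
  have hwv : ∀ᵐ x ∂(volume : Measure E3), ⟪a, x⟫_ℝ < m → (w : E3 → ℂ) x = 0 := by
    filter_upwards [hc, hεv a ha, Lp.coeFn_sub w ε] with x b1 b2 b3 b4
    have b5 := b1 (b4.trans_le (min_le_left _ _))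
    have b6 := b2 (b4.trans_le (min_le_right _ _))
    rw [b3, Pi.sub_apply, b6, sub_zero] at b5
    exact b5
  have hεv' : ∀ᵐ x ∂(volume : Measure E3), ⟪a, x⟫_ℝ < m → (ε : E3 → ℂ) x = 0 := by
    filter_upwards [hεv a ha] with x b2 b4
    exact b2 (b4.trans_le (min_le_right _ _))
  have hBE : 0 ≤ B * E0 := mul_nonneg hB0 hE0p.le
  have g1 : ‖A3 ε e v₁‖ ≤ E1 * (B * E0) * Ie :=
    StarA0_est hεI (StarA0_W ha0 ht hεv') hBE hb₁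
  have g2 : ‖A3 w e v₂‖ ≤ E1 * (B * E0) * Iw :=
    StarA0_est hwI (StarA0_W ha0 ht hwv) hBE hb₂
  have g3 : ‖A3 ε v₁ v₁‖ ≤ (B * E0) * (B * E0) * Ie := by
    refine StarA0_est hεI ?_ hBE hb₁
    filter_upwards [hb₁] with x hx
    rw [mul_comm]
    exact mul_le_mul_of_nonneg_right hx (norm_nonneg _)
  have g4 : ‖A3 w v₂ v₂‖ ≤ (B * E0) * (B * E0) * Iw := by
    refine StarA0_est hwI ?_ hBE hb₂
    filter_upwards [hb₂] with x hx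
    rw [mul_comm]
    exact mul_le_mul_of_nonneg_right hx (norm_nonneg _)
  have g5 : (B * E0) * (B * E0) ≤ B * B * (E1 * E0) := by
    calc (B * E0) * (B * E0) = B * B * (E0 * E0) := by ring
      _ ≤ B * B * (E1 * E0) :=
        mul_le_mul_of_nonneg_left (mul_le_mul_of_nonneg_right hE01 hE0p.le) (mul_nonneg hB0 hB0)
  have g6 : Real.exp (-(t * (m + ⟪a, y₀⟫_ℝ))) = E1 * E0 := by
    rw [hE1, hE0, ← Real.exp_add]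
    congr 1
    ring
  rw [g6]
  have k1 : ‖(2 : ℂ) * A3 ε e v₁‖ ≤ 2 * (E1 * (B * E0) * Ie) := by
    rw [norm_mul, Complex.norm_ofNat]
    exact mul_le_mul_of_nonneg_left g1 zero_le_two
  have k2 : ‖(2 : ℂ) * A3 w e v₂‖ ≤ 2 * (E1 * (B * E0) * Iw) := by
    rw [norm_mul, Complex.norm_ofNat]
    exact mul_le_mul_of_nonneg_left g2 zero_le_two
  have k3 : ‖A3 ε v₁ v₁‖ ≤ B * B * (E1 * E0) * Ie :=
    g3.trans (mul_le_mul_of_nonneg_right g5 hIe0)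
  have k4 : ‖A3 w v₂ v₂‖ ≤ B * B * (E1 * E0) * Iw :=
    g4.trans (mul_le_mul_of_nonneg_right g5 hIw0)
  calc ‖(2 * A3 ε e v₁ + A3 ε v₁ v₁) - (2 * A3 w e v₂ + A3 w v₂ v₂)‖
      ≤ (‖(2 : ℂ) * A3 ε e v₁‖ + ‖A3 ε v₁ v₁‖) + (‖(2 : ℂ) * A3 w e v₂‖ + ‖A3 w v₂ v₂‖) :=
        (norm_sub_le _ _).trans (add_le_add (norm_add_le _ _) (norm_add_le _ _))
    _ ≤ (2 * (E1 * (B * E0) * Ie) + B * B * (E1 * E0) * Ie) +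
        (2 * (E1 * (B * E0) * Iw) + B * B * (E1 * E0) * Iw) :=
        add_le_add (add_le_add k1 k3) (add_le_add k2 k4)
    _ = (2 * B + B * B) * (Ie + Iw) * (E1 * E0) := by ring

end FracScatC

end
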