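import Pool.Agent.Lib.MP_6e2ba5_an.Stmt

/-! # Generic uniqueness: the definitions of the statement -/

set_option autoImplicit false

open MeasureTheory Filter Topology Set
open scoped InnerProductSpace ENNReal

noncomputable section

namespace FracScat

/-- The closure in `L^∞(ℝ³; ℝ)` of the functions which vanish a.e. outside of a shell `R' ≤ |x| ≤ ρ` with `ρ < R`. -/
def Shell (R' R : ℝ) : Set (Lp ℝ ∞ (volume : Measure E3)) :=
  closure {f | ∃ ρ : ℝ, ρ < R ∧
    ∀ᵐ x ∂(volume : Measure E3), (f : E3 → ℝ) x ≠ 0 → R' ≤ ‖x‖ ∧ ‖x‖ ≤ ρ}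

/-- `V` is a real measurable potential bounded by `M` which vanishes for `|x| > r`. -/
structure BPot (r M : ℝ) (V : E3 → ℝ) : Prop where
  measurable : Measurable V
  bounded : ∀ x, |V x| ≤ M
  vanish : ∀ x, r < ‖x‖ → V x = 0

/-- The back-scattering data of `V` for all directions and the wave numbers in one band `(a, b)` determine `V` among all
real bounded potentials with compact support. Only `a ≥ K r M` is needed, where both potentials are bounded by `M` and
vanish for `|x| > r`. -/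
def Determined (s : ℝ) (K : ℝ → ℝ → ℝ) (V : E3 → ℝ) : Prop :=
  ∀ r M : ℝ, ∀ V₁ V₂ : E3 → ℝ, BPot r M V₁ → BPot r M V₂ → V₁ =ᵐ[volume] V →
    ∀ a b : ℝ, K r M ≤ a → a < b →
      (∀ θ : E3, ‖θ‖ = 1 → ∀ k ∈ Ioo a b, SameBackScattering s k V₁ V₂ θ) →
        V₂ =ᵐ[volume] V₁

/-- At the wave number `k` and for the incident direction `θ` there are outgoing solutions for
`V₁` and `V₂` whose back-scattering amplitudes differ by at most `ε`. -/
def BackDistR (s k : ℝ) (V₁ V₂ : E3 → ℝ) (θ : E3) (ε : ℝ) : Prop :=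
  ∃ u₁ u₂ : E3 → ℂ, IsScattering s k V₁ θ u₁ ∧ IsScattering s k V₂ θ u₂ ∧
    ‖amplitude k V₁ u₁ (-θ) - amplitude k V₂ u₂ (-θ)‖ ≤ ε

/-- Let `V` be any potential in a small `L^∞` neighbourhood of `f` and `U` any potential bounded by `M`, both real and
vanishing for `|x| > R`. Equal back-scattering data in one band of large wave numbers give `V = U`, and for `s > 1` the
`L²` norm of `V - U` is at most a constant times the `L²` norm of the difference `D` of the back-scattering amplitudes. -/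
def LocStable (s R M : ℝ) (f : E3 → ℝ) : Prop :=
  ∃ δ K C : ℝ, 0 < δ ∧ 0 < K ∧ 0 ≤ C ∧ ∀ V U : E3 → ℝ, Measurable V → (∀ x, R < ‖x‖ → V x = 0) →
    (∀ᵐ x ∂(volume : Measure E3), |V x - f x| ≤ δ) → BPot R M U →
    (∀ a b : ℝ, K ≤ a → a < b →
      (∀ θ : E3, ‖θ‖ = 1 → ∀ k ∈ Ioo a b, SameBackScattering s k V U θ) → V =ᵐ[volume] U) ∧
    (1 < s → ∀ D : E3 → ℝ, Measurable D →
      (∀ ξ : E3, K ≤ ‖ξ‖ → BackDistR s (2 * Real.pi * ‖ξ‖) V U (‖ξ‖⁻¹ • ξ) (D ξ)) →
      ∫⁻ x, ‖V x - U x‖ₑ ^ 2 ≤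
        ENNReal.ofReal C * ∫⁻ ξ in {ξ : E3 | K ≤ ‖ξ‖}, ‖D ξ‖ₑ ^ 2)

end FracScat

end
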