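import Pool.Agent.Lib.MP_6e2ba5_an.Dx.StmtX

/-! # Generic uniqueness: the function space, in elementary terms -/

set_option autoImplicit false

open MeasureTheory Filter Topology Set
open scoped InnerProductSpace ENNReal

noncomputable section

namespace FracScat

/-- `f` is in the space `X(R', R)`: it is a real function, measurable and essentially bounded, and in the closure in
`L^∞` of the functions which vanish a.e. outside of a shell `R' ≤ |x| ≤ ρ` with `ρ < R`. -/
def InShell (R' R : ℝ) (f : E3 → ℝ) : Prop :=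
  Measurable f ∧ (∃ M : ℝ, ∀ᵐ x ∂(volume : Measure E3), |f x| ≤ M) ∧
    ∀ ε : ℝ, 0 < ε → ∃ ρ : ℝ, ρ < R ∧
      ∀ᵐ x ∂(volume : Measure E3), |f x| ≤ ε ∨ (R' ≤ ‖x‖ ∧ ‖x‖ ≤ ρ)

/-- `|g - f| ≤ δ` almost everywhere. -/
def Near (δ : ℝ) (f g : E3 → ℝ) : Prop := ∀ᵐ x ∂(volume : Measure E3), |g x - f x| ≤ δ

/-- The elements of `X(R', R)` with the property `P` form an open dense subset of `X(R', R)`, for the norm of `L^∞`. -/
def OpenDense (R' R : ℝ) (P : (E3 → ℝ) → Prop) : Prop :=
  (∀ f : E3 → ℝ, InShell R' R f → P f →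
    ∃ δ : ℝ, 0 < δ ∧ ∀ g : E3 → ℝ, InShell R' R g → Near δ f g → P g) ∧
  ∀ f : E3 → ℝ, InShell R' R f → ∀ ε : ℝ, 0 < ε →
    ∃ g : E3 → ℝ, InShell R' R g ∧ Near ε f g ∧ P g

/-- The elements of `X(R', R)` with the property `P` form a residual subset of `X(R', R)`: they contain the
intersection of a sequence of open dense subsets. -/
def Residual (R' R : ℝ) (P : (E3 → ℝ) → Prop) : Prop :=
  ∃ G : ℕ → (E3 → ℝ) → Prop, (∀ n, OpenDense R' R (G n)) ∧
    ∀ f : E3 → ℝ, InShell R' R f → (∀ n, G n f) → P f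

end FracScat

end
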