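import Pool.Agent.Lib.MP_6e2ba5_an.Dx.Defs

/-! # The tail of the resolvent kernel at infinity

`MI s τ ξ = aS² / (aS - z)`, `z²/(a-z) = -z - a + a²/(a-z)`. Scaling: for `λ > 0`, `aS s (λ ξ) = λ^(2s) aS s ξ`, `zt s (λ τ) = λ^(2s) zt s τ`,
so `MI s (λτ) (λξ) = λ^(2s) MI s τ ξ` and `D6 (MI s τ) h ξ = λ^(-2s) D6 (MI s (λτ)) (λh) (λξ)`. For `τ ≥ 1`, `h = ρ e_i`, `ρ ≤ 1`, `λ = 1/ρ`:
`∫ |D6 (MI s τ) (ρ e_i)|² = ρ^(4s+3) ∫ |D6 (MI s (τ/ρ)) e_i|² ≤ C ρ^(4s+3)` (`mzd`, `Rx/MzD.lean`, for the three vectors `e_i`;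
`(1+‖ξ‖)^(-7/2)` is integrable). By `FT (ps6 h (z² GI - κ kf)) = D6 (MI s τ) h` (see `offD` in `Rx/OffD.lean`: the constant
`κ` is the one of `kapF`; `D6` of constants is `0`) and `OffE_int` in `Rx/OffE.lean` (private: copy) on the annulus `{R/2 ≤ ‖x‖ ≤ R}` with
`h = (4R)⁻¹ e_i` (its constant depends on `δ/R = 1/2` only): `∫_{R/2≤‖x‖≤R} |z² GI - κ kf|² ≤ C R^(-(4s+3))` for `R ≥ 1`, `τ ≥ 1`. Summing over
dyadic annuli, and `∫_{‖x‖≥L} |kf|² = C L^(-(3+4s))`. -/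

set_option autoImplicit false

open MeasureTheory Filter Topology Set
open scoped FourierTransform SchwartzMap InnerProductSpace ENNReal BoundedContinuousFunction

noncomputable section

namespace FracScatC

open FracScat

private theorem tailt_lint_sq (f : HS) : ∫⁻ x, ‖(f : E3 → ℂ) x‖ₑ ^ 2 = ‖f‖ₑ ^ 2 := by
  have h := eLpNorm_nnreal_pow_eq_lintegral (p := 2) (f := (f : E3 → ℂ))
    (μ := (volume : Measure E3)) (by norm_num)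
  rw [Lp.enorm_def]
  norm_num at h
  rw [← h]

private theorem tailt_ps6_sum (h x : E3) : ps6 h x =
    ∑ j ∈ Finset.range 7, ((-1 : ℂ) ^ j * (Nat.choose 6 j : ℂ)) * efun ((j : ℝ) • h) x := by
  have he : ∀ j : ℕ, efun ((j : ℝ) • h) x = efun h x ^ j := by
    intro j
    rw [efun, efun, ← Complex.exp_nat_mul]
    congr 1
    rw [real_inner_smul_left]
    push_cast
    ring
  simp only [he]
  rw [ps6]
  simp only [Finset.sum_range_succ, Finset.sum_range_zero]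
  norm_num [Nat.choose]
  ring

private theorem tailt_mulL_ps6 (h : E3) (g : HS) : mulL (ps6 h) g =
    ∑ j ∈ Finset.range 7, ((-1 : ℂ) ^ j * (Nat.choose 6 j : ℂ)) • mulL (efun ((j : ℝ) • h)) g := by
  have hB : BM (ps6 h) := by
    refine ⟨(ps6_continuous h).aestronglyMeasurable, 64, Eventually.of_forall fun x => ?_⟩
    rw [ps6, norm_pow]
    have h1 : ‖efun h x - 1‖ ≤ 2 := by
      refine (norm_sub_le _ _).trans ?_
      rw [norm_efun, norm_one]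
      norm_num
    calc ‖efun h x - 1‖ ^ 6 ≤ 2 ^ 6 := pow_le_pow_left₀ (norm_nonneg _) h1 6
      _ = 64 := by norm_num
  apply Lp.ext
  have h1 : ∀ᵐ x ∂(volume : Measure E3), ∀ j ∈ Finset.range 7,
      ((((-1 : ℂ) ^ j * (Nat.choose 6 j : ℂ)) • mulL (efun ((j : ℝ) • h)) g : HS) : E3 → ℂ) x =
      ((-1 : ℂ) ^ j * (Nat.choose 6 j : ℂ)) * (efun ((j : ℝ) • h) x * (g : E3 → ℂ) x) := by
    rw [Finset.eventually_all]
    intro j _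
    filter_upwards [Lp.coeFn_smul ((-1 : ℂ) ^ j * (Nat.choose 6 j : ℂ)) (mulL (efun ((j : ℝ) • h)) g),
      mulL_coe (efun_BM ((j : ℝ) • h)) g] with x a b
    rw [a, Pi.smul_apply, b, smul_eq_mul]
  filter_upwards [mulL_coe hB g, h1, Lp.coeFn_fun_finsetSum (Finset.range 7) (fun j : ℕ =>
    ((-1 : ℂ) ^ j * (Nat.choose 6 j : ℂ)) • mulL (efun ((j : ℝ) • h)) g)] with x a b c
  rw [a, c, Finset.sum_congr rfl b, tailt_ps6_sum, Finset.sum_mul]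
  exact Finset.sum_congr rfl fun j _ => by ring

private theorem tailt_FT_ps6 (h : E3) (g : HS) :
    (FT (mulL (ps6 h) g) : E3 → ℂ) =ᵐ[volume] D6 (FT g : E3 → ℂ) h := by
  rw [tailt_mulL_ps6, map_sum]
  have h1 : ∀ᵐ ξ ∂(volume : Measure E3), ∀ j ∈ Finset.range 7,
      ((FT (((-1 : ℂ) ^ j * (Nat.choose 6 j : ℂ)) • mulL (efun ((j : ℝ) • h)) g) : HS) : E3 → ℂ) ξ =
      (-1 : ℂ) ^ j * (Nat.choose 6 j : ℂ) * (FT g : E3 → ℂ) (ξ - (j : ℝ) • h) := by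
    rw [Finset.eventually_all]
    intro j _
    rw [map_smul]
    filter_upwards [Lp.coeFn_smul ((-1 : ℂ) ^ j * (Nat.choose 6 j : ℂ))
      (FT (mulL (efun ((j : ℝ) • h)) g)), FT_efun_all ((j : ℝ) • h) g] with x a b
    rw [a, Pi.smul_apply, b, smul_eq_mul]
  filter_upwards [h1, Lp.coeFn_fun_finsetSum (Finset.range 7) (fun j : ℕ =>
    FT (((-1 : ℂ) ^ j * (Nat.choose 6 j : ℂ)) • mulL (efun ((j : ℝ) • h)) g))] with ξ b c
  rw [c, Finset.sum_congr rfl b, D6]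

private theorem tailt_D6_congr_ae {F F' : E3 → ℂ} (hF : F =ᵐ[volume] F') (h : E3) :
    D6 F h =ᵐ[volume] D6 F' h := by
  have h1 : ∀ᵐ ξ ∂(volume : Measure E3), ∀ j ∈ Finset.range 7,
      F (ξ - (j : ℝ) • h) = F' (ξ - (j : ℝ) • h) := by
    rw [Finset.eventually_all]
    intro j _
    exact (measurePreserving_sub_right volume ((j : ℝ) • h)).quasiMeasurePreserving.ae hF
  filter_upwards [h1] with ξ a
  rw [D6, D6]
  exact Finset.sum_congr rfl fun j hj => by rw [a j hj]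


private theorem tailt_iso {s : ℝ} (h0 : 3 / 4 < s) (h2 : s < 2) (h1 : s ≠ 1) : ∃ κ : ℂ, ∀ (h : E3) (τ : ℝ),
    0 < τ → ∫⁻ x : E3, ‖ps6 h x * (zt s τ ^ 2 * (GI s τ : E3 → ℂ) x - κ * kf s x)‖ₑ ^ 2 =
      ∫⁻ ξ : E3, ‖D6 (MI s τ) h ξ‖ₑ ^ 2 := by
  have h00 : 0 < s := by linarith
  obtain ⟨γ, hγ, hF⟩ := kapF h00 h2 h1
  have hγ' : (γ : ℂ) ≠ 0 := Complex.ofReal_ne_zero.2 hγ
  refine ⟨-1 / (γ : ℂ), fun h τ hτ0 => ?_⟩
  obtain ⟨c, hc0, hc⟩ := symI h00 h2 h1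
  set G := GI s τ with hG
  set K : HS := (kap_memLp h00 h2 h).toLp _ with hK
  have hKc : (K : E3 → ℂ) =ᵐ[volume] fun x => ps6 h x * kf s x := (kap_memLp h00 h2 h).coeFn_toLp
  have hB : BM (ps6 h) := by
    refine ⟨(ps6_continuous h).aestronglyMeasurable, 64, Eventually.of_forall fun x => ?_⟩
    rw [ps6, norm_pow]
    have h1 : ‖efun h x - 1‖ ≤ 2 := by
      refine (norm_sub_le _ _).trans ?_
      rw [norm_efun, norm_one]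
      norm_num
    calc ‖efun h x - 1‖ ^ 6 ≤ 2 ^ 6 := pow_le_pow_left₀ (norm_nonneg _) h1 6
      _ = 64 := by norm_num
  set F : HS := (zt s τ ^ 2) • mulL (ps6 h) G - (-1 / (γ : ℂ)) • K with hFdef
  have hFc : (F : E3 → ℂ) =ᵐ[volume] fun x =>
      ps6 h x * (zt s τ ^ 2 * (G : E3 → ℂ) x - -1 / (γ : ℂ) * kf s x) := by
    filter_upwards [Lp.coeFn_sub ((zt s τ ^ 2) • mulL (ps6 h) G) ((-1 / (γ : ℂ)) • K),
      Lp.coeFn_smul (zt s τ ^ 2) (mulL (ps6 h) G), Lp.coeFn_smul (-1 / (γ : ℂ)) K,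
      mulL_coe hB G, hKc] with x a1 a2 a3 a4 a5
    rw [hFdef, a1, Pi.sub_apply, a2, a3, Pi.smul_apply, Pi.smul_apply, a4, a5, smul_eq_mul,
      smul_eq_mul]
    ring
  have hKi : Integrable (K : E3 → ℂ) := (kap_int h00 h2 h).congr hKc.symm
  have hKF : 𝓕 (K : E3 → ℂ) = fun ξ => (γ : ℂ) * D6 (aS s) h ξ := by
    funext ξ
    rw [← hF h ξ, Real.fourier_eq', Real.fourier_eq']
    refine integral_congr_ae ?_
    filter_upwards [hKc] with x a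
    rw [a]
  have hden : ∀ ξ : E3, aS s ξ - zt s τ ≠ 0 := by
    intro ξ h3
    have ha : 0 ≤ (2 * Real.pi * ‖ξ‖) ^ (2 * s) := by positivity
    have h4 := hc τ hτ0 _ ha
    have h5 : (((2 * Real.pi * ‖ξ‖) ^ (2 * s) : ℝ) : ℂ) - zt s τ = 0 := h3
    rw [h5, norm_zero] at h4
    have h6 : 0 < τ ^ (2 * s) := Real.rpow_pos_of_pos hτ0 _
    have : 0 < c * ((2 * Real.pi * ‖ξ‖) ^ (2 * s) + τ ^ (2 * s)) := by positivity
    linarith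
  have hsym : ∀ ξ : E3, zt s τ ^ 2 * mI s τ ξ + aS s ξ = MI s τ ξ - zt s τ := by
    intro ξ
    rw [mI_eq, MI]
    have := hden ξ
    field_simp
    ring
  have hFT : (FT F : E3 → ℂ) =ᵐ[volume] D6 (MI s τ) h := by
    have e1 : FT F = (zt s τ ^ 2) • FT (mulL (ps6 h) G) - (-1 / (γ : ℂ)) • FT K := by
      rw [hFdef, map_sub, map_smul, map_smul]
    rw [e1]
    filter_upwards [Lp.coeFn_sub ((zt s τ ^ 2) • FT (mulL (ps6 h) G)) ((-1 / (γ : ℂ)) • FT K),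
      Lp.coeFn_smul (zt s τ ^ 2) (FT (mulL (ps6 h) G)), Lp.coeFn_smul (-1 / (γ : ℂ)) (FT K),
      tailt_FT_ps6 h G, tailt_D6_congr_ae (FT_GI (mI_memLp h0 h2 h1 hτ0)) h,
      FT_coe_of_integrable K hKi] with ξ a1 a2 a3 a4 a5 a6
    rw [a1, Pi.sub_apply, a2, a3, Pi.smul_apply, Pi.smul_apply, a4, hG, a5, a6, hKF]
    simp only [smul_eq_mul]
    have e2 : zt s τ ^ 2 * D6 (mI s τ) h ξ - -1 / (γ : ℂ) * ((γ : ℂ) * D6 (aS s) h ξ) =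
        zt s τ ^ 2 * D6 (mI s τ) h ξ + D6 (aS s) h ξ := by
      field_simp
      ring
    rw [e2]
    have e3 : D6 (MI s τ) h ξ = zt s τ ^ 2 * D6 (mI s τ) h ξ + D6 (aS s) h ξ +
        zt s τ * ∑ j ∈ Finset.range 7, (-1 : ℂ) ^ j * (Nat.choose 6 j : ℂ) := by
      simp only [D6]
      rw [Finset.mul_sum, Finset.mul_sum, ← Finset.sum_add_distrib, ← Finset.sum_add_distrib]
      refine Finset.sum_congr rfl fun j _ => ?_
      have := hsym (ξ - (j : ℝ) • h)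
      linear_combination (-((-1 : ℂ) ^ j * (Nat.choose 6 j : ℂ))) * this
    have e4 : ∑ j ∈ Finset.range 7, (-1 : ℂ) ^ j * (Nat.choose 6 j : ℂ) = 0 := by
      simp only [Finset.sum_range_succ, Finset.sum_range_zero]
      norm_num [Nat.choose]
    rw [e3, e4, mul_zero, add_zero]
  have e5 : ∫⁻ x : E3,
      ‖ps6 h x * (zt s τ ^ 2 * (G : E3 → ℂ) x - -1 / (γ : ℂ) * kf s x)‖ₑ ^ 2 =
      ∫⁻ ξ : E3, ‖D6 (MI s τ) h ξ‖ₑ ^ 2 := by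
    have e6 : ∫⁻ x : E3,
        ‖ps6 h x * (zt s τ ^ 2 * (G : E3 → ℂ) x - -1 / (γ : ℂ) * kf s x)‖ₑ ^ 2 =
        ∫⁻ x : E3, ‖(F : E3 → ℂ) x‖ₑ ^ 2 := by
      refine lintegral_congr_ae ?_
      filter_upwards [hFc] with x a
      rw [a]
    have e7 : ∫⁻ ξ : E3, ‖D6 (MI s τ) h ξ‖ₑ ^ 2 = ∫⁻ x : E3, ‖(FT F : E3 → ℂ) x‖ₑ ^ 2 := by
      refine lintegral_congr_ae ?_
      filter_upwards [hFT] with x a
      rw [a]
    have e8 : ‖FT F‖ₑ = ‖F‖ₑ := by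
      rw [← ofReal_norm, ← ofReal_norm, LinearIsometryEquiv.norm_map]
    rw [e6, e7, tailt_lint_sq, tailt_lint_sq, e8]
  exact e5

private theorem tailt_OffE_pt {R : ℝ} (hR : 0 < R) {x : E3} (hx : ‖x‖ ≤ R) (i : Fin 3) :
    |x i| / R ≤ ‖efun ((4 * R)⁻¹ • EuclideanSpace.single i (1 : ℝ)) x - 1‖ := by
  have hpi := Real.pi_pos
  have hxi : |x i| ≤ R := by
    refine le_trans ?_ hx
    have := PiLp.norm_apply_le x i
    rwa [Real.norm_eq_abs] at this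
  have hin : ⟪(4 * R)⁻¹ • EuclideanSpace.single i (1 : ℝ), x⟫_ℝ = (4 * R)⁻¹ * x i := by
    rw [inner_smul_left, EuclideanSpace.inner_single_left]
    simp
  have e1 : ‖efun ((4 * R)⁻¹ • EuclideanSpace.single i (1 : ℝ)) x - 1‖ =
      2 * |Real.sin (Real.pi * ((4 * R)⁻¹ * x i))| := by
    unfold efun
    rw [hin, mul_comm, Complex.norm_exp_I_mul_ofReal_sub_one]
    rw [norm_mul, Real.norm_eq_abs, Real.norm_eq_abs, abs_of_pos (by norm_num : (0 : ℝ) < 2)]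
    congr 3
    ring
  have ht : |(4 * R)⁻¹ * x i| ≤ 1 / 4 := by
    rw [abs_mul, abs_of_pos (by positivity : 0 < (4 * R)⁻¹), inv_mul_le_iff₀ (by positivity)]
    linarith
  have e2 : 2 / Real.pi * |Real.pi * ((4 * R)⁻¹ * x i)| ≤
      |Real.sin (Real.pi * ((4 * R)⁻¹ * x i))| := by
    apply Real.mul_abs_le_abs_sin
    rw [abs_mul, abs_of_pos hpi]
    nlinarith
  have e3 : 2 / Real.pi * |Real.pi * ((4 * R)⁻¹ * x i)| = |x i| / R / 2 := by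
    rw [abs_mul, abs_of_pos hpi, abs_mul, abs_of_pos (by positivity : 0 < (4 * R)⁻¹)]
    field_simp
    ring
  rw [e3] at e2
  rw [e1]
  linarith

private theorem tailt_OffE_sum {δ R : ℝ} (hδ : 0 < δ) (hR : 0 < R) {x : E3} (h1 : δ ≤ ‖x‖) (hx : ‖x‖ ≤ R) :
    (δ ^ 2 / (3 * R ^ 2)) ^ 6 ≤
      ∑ i : Fin 3, ‖ps6 ((4 * R)⁻¹ • EuclideanSpace.single i (1 : ℝ)) x‖ ^ 2 := by
  have hex : ∃ i : Fin 3, δ ^ 2 / 3 ≤ x i ^ 2 := by
    by_contra hcon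
    push Not at hcon
    have e1 : ‖x‖ ^ 2 = ∑ i : Fin 3, x i ^ 2 := by
      rw [EuclideanSpace.norm_sq_eq]
      apply Finset.sum_congr rfl
      intro i _
      rw [Real.norm_eq_abs, sq_abs]
    have e2 : δ ^ 2 ≤ ‖x‖ ^ 2 := pow_le_pow_left₀ hδ.le h1 2
    rw [e1, Fin.sum_univ_three] at e2
    have a0 := hcon 0
    have a1 := hcon 1
    have a2 := hcon 2
    linarith
  obtain ⟨i, hi⟩ := hex
  have h2 : δ ^ 2 / (3 * R ^ 2) ≤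
      ‖efun ((4 * R)⁻¹ • EuclideanSpace.single i (1 : ℝ)) x - 1‖ ^ 2 := by
    have h3 := tailt_OffE_pt hR hx i
    have h4 : (|x i| / R) ^ 2 ≤
        ‖efun ((4 * R)⁻¹ • EuclideanSpace.single i (1 : ℝ)) x - 1‖ ^ 2 :=
      pow_le_pow_left₀ (by positivity) h3 2
    refine le_trans ?_ h4
    rw [div_pow, sq_abs, ← div_div]
    exact div_le_div_of_nonneg_right hi (by positivity)
  have h5 : (δ ^ 2 / (3 * R ^ 2)) ^ 6 ≤
      ‖ps6 ((4 * R)⁻¹ • EuclideanSpace.single i (1 : ℝ)) x‖ ^ 2 := by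
    unfold ps6
    rw [norm_pow, ← pow_mul, mul_comm 6 2, pow_mul]
    exact pow_le_pow_left₀ (by positivity) h2 6
  refine h5.trans ?_
  exact Finset.single_le_sum
    (f := fun i : Fin 3 => ‖ps6 ((4 * R)⁻¹ • EuclideanSpace.single i (1 : ℝ)) x‖ ^ 2)
    (fun j _ => sq_nonneg _) (Finset.mem_univ i)

private theorem tailt_OffE_ann {δ R : ℝ} : MeasurableSet {x : E3 | δ ≤ ‖x‖ ∧ ‖x‖ ≤ R} :=
  (measurableSet_le measurable_const measurable_norm).inter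
    (measurableSet_le measurable_norm measurable_const)

private theorem tailt_OffE_int {δ R : ℝ} (hδ : 0 < δ) (hR : 0 < R) {F : E3 → ℂ}
    (hF : AEStronglyMeasurable F volume) :
    ∫⁻ x in {x : E3 | δ ≤ ‖x‖ ∧ ‖x‖ ≤ R}, ‖F x‖ₑ ^ 2 ≤
      ENNReal.ofReal (((δ ^ 2 / (3 * R ^ 2)) ^ 6)⁻¹) * ∑ i : Fin 3,
        ∫⁻ x, ‖ps6 ((4 * R)⁻¹ • EuclideanSpace.single i (1 : ℝ)) x * F x‖ₑ ^ 2 := by
  set c : ℝ := (δ ^ 2 / (3 * R ^ 2)) ^ 6 with hc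
  have hc0 : 0 < c := by positivity
  have hpt : ∀ x ∈ {x : E3 | δ ≤ ‖x‖ ∧ ‖x‖ ≤ R}, ‖F x‖ₑ ^ 2 ≤
      ENNReal.ofReal c⁻¹ * ∑ i : Fin 3,
        ‖ps6 ((4 * R)⁻¹ • EuclideanSpace.single i (1 : ℝ)) x * F x‖ₑ ^ 2 := by
    intro x hx
    have h1 := tailt_OffE_sum hδ hR hx.1 hx.2
    rw [← hc] at h1
    have h2 : ‖F x‖ ^ 2 ≤ c⁻¹ * ∑ i : Fin 3,
        ‖ps6 ((4 * R)⁻¹ • EuclideanSpace.single i (1 : ℝ)) x * F x‖ ^ 2 := by
      simp_rw [norm_mul, mul_pow]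
      rw [← Finset.sum_mul, ← mul_assoc]
      have : 1 ≤ c⁻¹ * ∑ i : Fin 3,
          ‖ps6 ((4 * R)⁻¹ • EuclideanSpace.single i (1 : ℝ)) x‖ ^ 2 := by
        rw [← div_eq_inv_mul, le_div_iff₀ hc0, one_mul]
        exact h1
      nlinarith [sq_nonneg ‖F x‖]
    have h3 := ENNReal.ofReal_le_ofReal h2
    rw [ENNReal.ofReal_mul (by positivity),
      ENNReal.ofReal_sum_of_nonneg (fun i _ => by positivity)] at h3
    simp_rw [ENNReal.ofReal_pow (norm_nonneg _), ofReal_norm] at h3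
    exact h3
  calc ∫⁻ x in {x : E3 | δ ≤ ‖x‖ ∧ ‖x‖ ≤ R}, ‖F x‖ₑ ^ 2
      ≤ ∫⁻ x in {x : E3 | δ ≤ ‖x‖ ∧ ‖x‖ ≤ R}, ENNReal.ofReal c⁻¹ * ∑ i : Fin 3,
        ‖ps6 ((4 * R)⁻¹ • EuclideanSpace.single i (1 : ℝ)) x * F x‖ₑ ^ 2 :=
        setLIntegral_mono' tailt_OffE_ann hpt
    _ ≤ ∫⁻ x, ENNReal.ofReal c⁻¹ * ∑ i : Fin 3,
        ‖ps6 ((4 * R)⁻¹ • EuclideanSpace.single i (1 : ℝ)) x * F x‖ₑ ^ 2 :=
        setLIntegral_le_lintegral _ _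
    _ = _ := by
        rw [lintegral_const_mul' _ _ ENNReal.ofReal_ne_top, lintegral_finsetSum']
        intro i _
        exact (((ps6_continuous _).aestronglyMeasurable.mul hF).enorm).pow_const 2

private theorem tailt_OffE_meas (s τ : ℝ) (κ : ℂ) : AEStronglyMeasurable
    (fun x : E3 => zt s τ ^ 2 * (GI s τ : E3 → ℂ) x - κ * kf s x) volume :=
  ((Lp.aestronglyMeasurable (GI s τ)).const_mul _).sub
    ((kf_measurable s).aestronglyMeasurable.const_mul _)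


private theorem tailt_aS {s lam : ℝ} (hl : 0 < lam) (ξ : E3) :
    aS s (lam • ξ) = ((lam ^ (2 * s) : ℝ) : ℂ) * aS s ξ := by
  unfold aS
  rw [← Complex.ofReal_mul]
  congr 1
  rw [norm_smul, Real.norm_of_nonneg hl.le, ← Real.mul_rpow hl.le (by positivity)]
  congr 1
  ring

private theorem tailt_zt_eq {s τ : ℝ} (hτ : 0 < τ) :
    zt s τ = Complex.exp (((Real.log τ * (2 * s) : ℝ) : ℂ) + ((Real.pi * s : ℝ) : ℂ) * Complex.I) := by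
  unfold zt
  have h0 : Complex.I * (τ : ℂ) ≠ 0 :=
    mul_ne_zero Complex.I_ne_zero (Complex.ofReal_ne_zero.2 hτ.ne')
  rw [Complex.cpow_def_of_ne_zero h0, Complex.log_mul_ofReal τ hτ _ Complex.I_ne_zero,
    Complex.log_I]
  congr 1
  push_cast
  ring

private theorem tailt_zt {s lam τ : ℝ} (hl : 0 < lam) (hτ : 0 < τ) :
    zt s (lam * τ) = ((lam ^ (2 * s) : ℝ) : ℂ) * zt s τ := by
  rw [tailt_zt_eq (mul_pos hl hτ), tailt_zt_eq hτ, Real.rpow_def_of_pos hl, Complex.ofReal_exp,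
    ← Complex.exp_add, Real.log_mul hl.ne' hτ.ne']
  congr 1
  push_cast
  ring

private theorem tailt_MI {s lam τ : ℝ} (hl : 0 < lam) (hτ : 0 < τ) (ξ : E3) :
    MI s (lam * τ) (lam • ξ) = ((lam ^ (2 * s) : ℝ) : ℂ) * MI s τ ξ := by
  unfold MI
  rw [tailt_aS hl, tailt_zt hl hτ, ← mul_sub]
  have hne : ((lam ^ (2 * s) : ℝ) : ℂ) ≠ 0 :=
    Complex.ofReal_ne_zero.2 (Real.rpow_pos_of_pos hl _).ne'
  rw [mul_pow, sq ((lam ^ (2 * s) : ℝ) : ℂ), mul_assoc, mul_div_mul_left _ _ hne, mul_div_assoc]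

private theorem tailt_D6 {s lam τ : ℝ} (hl : 0 < lam) (hτ : 0 < τ) (h ξ : E3) :
    D6 (MI s (lam * τ)) (lam • h) (lam • ξ) = ((lam ^ (2 * s) : ℝ) : ℂ) * D6 (MI s τ) h ξ := by
  unfold D6
  rw [Finset.mul_sum]
  refine Finset.sum_congr rfl fun j _ => ?_
  have e : lam • ξ - (j : ℝ) • lam • h = lam • (ξ - (j : ℝ) • h) := by
    rw [smul_sub, smul_comm]
  rw [e, tailt_MI hl hτ]
  ring

private theorem tailt_D6int {s : ℝ} (h0 : 3 / 4 < s) (h2 : s < 2) (h1 : s ≠ 1) (e : E3) :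
    ∃ C : ℝ, 0 ≤ C ∧ ∀ ρ τ : ℝ, 0 < ρ → ρ ≤ 1 → 1 ≤ τ →
      ∫⁻ ξ : E3, ‖D6 (MI s τ) (ρ • e) ξ‖ₑ ^ 2 ≤ ENNReal.ofReal (C * ρ ^ (4 * s + 3)) := by
  obtain ⟨C, hC0, hC⟩ := mzd h0 h2 h1 e
  set I : ℝ≥0∞ := ∫⁻ ξ : E3, ENNReal.ofReal ((1 + ‖ξ‖) ^ (-(7 / 2 : ℝ))) with hI
  have hItop : I < ∞ := finite_integral_one_add_norm (μ := (volume : Measure E3)) (by
    simp only [finrank_euclideanSpace, Fintype.card_fin]
    norm_num)
  refine ⟨C ^ 2 * I.toReal, by positivity, fun ρ τ hρ hρ1 hτ => ?_⟩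
  have hτ0 : 0 < τ := by linarith
  have hri : 0 < ρ⁻¹ := inv_pos.2 hρ
  have hpt : ∀ ξ : E3, ‖D6 (MI s τ) (ρ • e) ξ‖ₑ ^ 2 ≤ ENNReal.ofReal (C ^ 2 * ρ ^ (4 * s)) *
      ENNReal.ofReal ((1 + ‖ρ⁻¹ • ξ‖) ^ (-(7 / 2 : ℝ))) := by
    intro ξ
    have e1 := tailt_D6 (s := s) hri hτ0 (ρ • e) ξ
    rw [smul_smul, inv_mul_cancel₀ hρ.ne', one_smul] at e1
    have hτ' : 1 ≤ ρ⁻¹ * τ := by
      have : 1 ≤ ρ⁻¹ := (one_le_inv₀ hρ).2 hρ1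
      nlinarith
    have b := hC (ρ⁻¹ * τ) hτ' (ρ⁻¹ • ξ)
    have hp : (0 : ℝ) < 1 + ‖ρ⁻¹ • ξ‖ := by positivity
    rw [e1, norm_mul, Complex.norm_real, Real.norm_of_nonneg (by positivity),
      Real.inv_rpow hρ.le] at b
    have hrs : 0 < ρ ^ (2 * s) := Real.rpow_pos_of_pos hρ _
    have b2 : ‖D6 (MI s τ) (ρ • e) ξ‖ ≤ ρ ^ (2 * s) * C * (1 + ‖ρ⁻¹ • ξ‖) ^ (-(7 / 4 : ℝ)) := by
      have b3 : (ρ⁻¹ * τ) ^ (-(1 / 4 : ℝ)) ≤ 1 :=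
        Real.rpow_le_one_of_one_le_of_nonpos hτ' (by norm_num)
      have b4 : C * (ρ⁻¹ * τ) ^ (-(1 / 4 : ℝ)) * (1 + ‖ρ⁻¹ • ξ‖) ^ (-(7 / 4 : ℝ)) ≤
          C * (1 + ‖ρ⁻¹ • ξ‖) ^ (-(7 / 4 : ℝ)) := by
        refine mul_le_mul_of_nonneg_right ?_ (by positivity)
        exact mul_le_of_le_one_right hC0 b3
      have b5 := b.trans b4
      rw [inv_mul_le_iff₀ hrs] at b5
      rw [mul_assoc]
      exact b5
    rw [← ofReal_norm, ← ENNReal.ofReal_pow (norm_nonneg _), ← ENNReal.ofReal_mul (by positivity)]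
    refine ENNReal.ofReal_le_ofReal ?_
    calc ‖D6 (MI s τ) (ρ • e) ξ‖ ^ 2
        ≤ (ρ ^ (2 * s) * C * (1 + ‖ρ⁻¹ • ξ‖) ^ (-(7 / 4 : ℝ))) ^ 2 :=
          pow_le_pow_left₀ (norm_nonneg _) b2 2
      _ = C ^ 2 * (ρ ^ (2 * s)) ^ 2 * ((1 + ‖ρ⁻¹ • ξ‖) ^ (-(7 / 4 : ℝ))) ^ 2 := by ring
      _ = C ^ 2 * ρ ^ (4 * s) * (1 + ‖ρ⁻¹ • ξ‖) ^ (-(7 / 2 : ℝ)) := by
          have q1 : (ρ ^ (2 * s)) ^ 2 = ρ ^ (4 * s) := by
            rw [← Real.rpow_natCast, ← Real.rpow_mul hρ.le]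
            congr 1
            push_cast
            ring
          have q2 : ((1 + ‖ρ⁻¹ • ξ‖) ^ (-(7 / 4 : ℝ))) ^ 2 =
              (1 + ‖ρ⁻¹ • ξ‖) ^ (-(7 / 2 : ℝ)) := by
            rw [← Real.rpow_natCast, ← Real.rpow_mul hp.le]
            norm_num
          rw [q1, q2]
  have h3 : Measure.map (fun ζ : E3 => ρ⁻¹ • ζ) volume =
      ENNReal.ofReal (ρ ^ 3) • (volume : Measure E3) := by
    rw [Measure.map_addHaar_smul volume hri.ne', finrank_euclideanSpace_fin,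
      inv_pow, inv_inv, abs_of_pos (pow_pos hρ 3)]
  have h4 : ∫⁻ ξ : E3, ENNReal.ofReal ((1 + ‖ρ⁻¹ • ξ‖) ^ (-(7 / 2 : ℝ))) =
      ENNReal.ofReal (ρ ^ 3) * I := by
    have hme : Measurable fun ζ : E3 => ENNReal.ofReal ((1 + ‖ζ‖) ^ (-(7 / 2 : ℝ))) := by
      fun_prop
    rw [hI, ← smul_eq_mul, ← lintegral_smul_measure, ← h3,
      lintegral_map hme (measurable_const_smul ρ⁻¹)]
  calc ∫⁻ ξ : E3, ‖D6 (MI s τ) (ρ • e) ξ‖ₑ ^ 2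
      ≤ ∫⁻ ξ : E3, ENNReal.ofReal (C ^ 2 * ρ ^ (4 * s)) *
          ENNReal.ofReal ((1 + ‖ρ⁻¹ • ξ‖) ^ (-(7 / 2 : ℝ))) := lintegral_mono hpt
    _ = ENNReal.ofReal (C ^ 2 * ρ ^ (4 * s)) * (ENNReal.ofReal (ρ ^ 3) * I) := by
        rw [lintegral_const_mul' _ _ ENNReal.ofReal_ne_top, h4]
    _ = ENNReal.ofReal (C ^ 2 * I.toReal * ρ ^ (4 * s + 3)) := by
        conv_lhs => rw [← ENNReal.ofReal_toReal hItop.ne]
        rw [← ENNReal.ofReal_mul (by positivity), ← ENNReal.ofReal_mul (by positivity)]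
        congr 1
        rw [Real.rpow_add hρ, show (3 : ℝ) = ((3 : ℕ) : ℝ) by norm_num, Real.rpow_natCast]
        ring

private theorem tailt_annulus {s : ℝ} (h0 : 3 / 4 < s) (h2 : s < 2) (h1 : s ≠ 1) :
    ∃ C : ℝ, 0 ≤ C ∧ ∀ τ R : ℝ, 1 ≤ τ → 1 ≤ R →
      ∫⁻ x in {x : E3 | R / 2 ≤ ‖x‖ ∧ ‖x‖ ≤ R}, ‖zt s τ ^ 2 * (GI s τ : E3 → ℂ) x‖ₑ ^ 2 ≤
        ENNReal.ofReal (C * R ^ (-(3 + 4 * s))) := by
  obtain ⟨κ, hκ⟩ := tailt_iso h0 h2 h1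
  choose D hD0 hD using fun i : Fin 3 =>
    tailt_D6int h0 h2 h1 (EuclideanSpace.single i (1 : ℝ) : E3)
  set v : ℝ := (volume (Metric.ball (0 : E3) 1)).toReal with hv
  have hvE : volume (Metric.ball (0 : E3) 1) = ENNReal.ofReal v :=
    (ENNReal.ofReal_toReal measure_ball_lt_top.ne).symm
  have hv0 : 0 ≤ v := ENNReal.toReal_nonneg
  have hDs : 0 ≤ ∑ i, D i := Finset.sum_nonneg fun i _ => hD0 i
  refine ⟨2 * (12 ^ 6 * ∑ i, D i) + 2 * ‖κ‖ ^ 2 * 2 ^ (6 + 4 * s) * v, by positivity,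
    fun τ R hτ hR => ?_⟩
  have hτ0 : 0 < τ := by linarith
  have hR0 : 0 < R := by linarith
  set A : Set E3 := {x : E3 | R / 2 ≤ ‖x‖ ∧ ‖x‖ ≤ R} with hA
  set F : E3 → ℂ := fun x => zt s τ ^ 2 * (GI s τ : E3 → ℂ) x - κ * kf s x with hF
  have hvol : volume A ≤ ENNReal.ofReal (R ^ 3 * v) := by
    refine (measure_mono (t := Metric.closedBall (0 : E3) R) ?_).trans ?_
    · rintro x ⟨-, hx⟩
      simpa using hx
    · rw [Measure.addHaar_closedBall _ _ hR0.le, finrank_euclideanSpace_fin, hvE,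
        ← ENNReal.ofReal_mul (by positivity)]
  have hFi : ∫⁻ x in A, ‖F x‖ₑ ^ 2 ≤
      ENNReal.ofReal (12 ^ 6 * (∑ i, D i) * R ^ (-(3 + 4 * s))) := by
    refine (tailt_OffE_int (half_pos hR0) hR0 (tailt_OffE_meas s τ κ)).trans ?_
    have hc : (((R / 2) ^ 2 / (3 * R ^ 2)) ^ 6)⁻¹ = (12 : ℝ) ^ 6 := by
      have : (R / 2) ^ 2 / (3 * R ^ 2) = 1 / 12 := by
        field_simp
        norm_num
      rw [this]
      norm_num
    rw [hc]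
    have hρ : 0 < (4 * R)⁻¹ := by positivity
    have hρ1 : (4 * R)⁻¹ ≤ 1 := inv_le_one_of_one_le₀ (by linarith)
    have hρp : ((4 * R)⁻¹) ^ (4 * s + 3) ≤ R ^ (-(3 + 4 * s)) := by
      have e1 : (4 * R)⁻¹ ≤ R⁻¹ := inv_anti₀ hR0 (by linarith)
      have e2 : R ^ (-(3 + 4 * s)) = (R⁻¹) ^ (4 * s + 3) := by
        rw [Real.inv_rpow hR0.le, ← Real.rpow_neg hR0.le]
        congr 1
        ring
      rw [e2]
      exact Real.rpow_le_rpow hρ.le e1 (by linarith)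
    have hsum : ∑ i : Fin 3, ∫⁻ x, ‖ps6 ((4 * R)⁻¹ • EuclideanSpace.single i (1 : ℝ)) x *
        (zt s τ ^ 2 * (GI s τ : E3 → ℂ) x - κ * kf s x)‖ₑ ^ 2 ≤
        ENNReal.ofReal ((∑ i, D i) * R ^ (-(3 + 4 * s))) := by
      rw [Finset.sum_mul, ENNReal.ofReal_sum_of_nonneg (fun i _ => mul_nonneg (hD0 i)
        (Real.rpow_nonneg hR0.le _))]
      refine Finset.sum_le_sum fun i _ => ?_
      rw [hκ _ τ hτ0]
      refine (hD i _ τ hρ hρ1 hτ).trans ?_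
      exact ENNReal.ofReal_le_ofReal (mul_le_mul_of_nonneg_left hρp (hD0 i))
    calc ENNReal.ofReal ((12 : ℝ) ^ 6) * ∑ i : Fin 3, ∫⁻ x,
          ‖ps6 ((4 * R)⁻¹ • EuclideanSpace.single i (1 : ℝ)) x *
          (zt s τ ^ 2 * (GI s τ : E3 → ℂ) x - κ * kf s x)‖ₑ ^ 2
        ≤ ENNReal.ofReal ((12 : ℝ) ^ 6) * ENNReal.ofReal ((∑ i, D i) * R ^ (-(3 + 4 * s))) := by
          gcongr
      _ = ENNReal.ofReal (12 ^ 6 * (∑ i, D i) * R ^ (-(3 + 4 * s))) := by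
          rw [← ENNReal.ofReal_mul (by positivity), mul_assoc]
  set B : ℝ := ‖κ‖ * (R / 2) ^ (-(3 + 2 * s)) with hB
  have hB0 : 0 ≤ B := by positivity
  have hpt : ∀ x ∈ A, ‖zt s τ ^ 2 * (GI s τ : E3 → ℂ) x‖ₑ ^ 2 ≤
      2 * ‖F x‖ₑ ^ 2 + ENNReal.ofReal (2 * B ^ 2) := by
    intro x hx
    have a1 : ‖κ * kf s x‖ ≤ B := by
      rw [norm_mul, hB]
      exact mul_le_mul_of_nonneg_left (kf_bound (by linarith) (half_pos hR0) hx.1) (norm_nonneg _)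
    have a2 : ‖zt s τ ^ 2 * (GI s τ : E3 → ℂ) x‖ ≤ ‖F x‖ + B := by
      have := norm_add_le (zt s τ ^ 2 * (GI s τ : E3 → ℂ) x - κ * kf s x) (κ * kf s x)
      rw [sub_add_cancel] at this
      show _ ≤ ‖zt s τ ^ 2 * (GI s τ : E3 → ℂ) x - κ * kf s x‖ + B
      linarith
    have a3 : ‖zt s τ ^ 2 * (GI s τ : E3 → ℂ) x‖ ^ 2 ≤ 2 * ‖F x‖ ^ 2 + 2 * B ^ 2 := by
      have n1 := norm_nonneg (zt s τ ^ 2 * (GI s τ : E3 → ℂ) x)
      have n2 := norm_nonneg (F x)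
      nlinarith [sq_nonneg (‖F x‖ - B), pow_le_pow_left₀ n1 a2 2]
    have a4 := ENNReal.ofReal_le_ofReal a3
    rw [ENNReal.ofReal_add (by positivity) (by positivity),
      ENNReal.ofReal_mul (by norm_num), ENNReal.ofReal_pow (norm_nonneg _),
      ENNReal.ofReal_pow (norm_nonneg _), ofReal_norm, ofReal_norm] at a4
    simpa using a4
  have hp : 0 ≤ R ^ (-(3 + 4 * s)) := Real.rpow_nonneg hR0.le _
  calc ∫⁻ x in A, ‖zt s τ ^ 2 * (GI s τ : E3 → ℂ) x‖ₑ ^ 2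
      ≤ ∫⁻ x in A, (2 * ‖F x‖ₑ ^ 2 + ENNReal.ofReal (2 * B ^ 2)) :=
        setLIntegral_mono' tailt_OffE_ann hpt
    _ = 2 * (∫⁻ x in A, ‖F x‖ₑ ^ 2) + ENNReal.ofReal (2 * B ^ 2) * volume A := by
        rw [lintegral_add_right' _ aemeasurable_const, lintegral_const_mul' _ _ (by simp),
          setLIntegral_const]
    _ ≤ 2 * ENNReal.ofReal (12 ^ 6 * (∑ i, D i) * R ^ (-(3 + 4 * s))) +
          ENNReal.ofReal (2 * B ^ 2) * ENNReal.ofReal (R ^ 3 * v) := by gcongr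
    _ = ENNReal.ofReal (2 * (12 ^ 6 * (∑ i, D i) * R ^ (-(3 + 4 * s))) +
          2 * B ^ 2 * (R ^ 3 * v)) := by
        rw [ENNReal.ofReal_add (by positivity) (by positivity),
          ENNReal.ofReal_mul (p := 2) (by norm_num), ENNReal.ofReal_mul (p := 2 * B ^ 2) (by positivity)]
        simp
    _ = _ := by
        congr 1
        have e1 : B ^ 2 * R ^ 3 = ‖κ‖ ^ 2 * 2 ^ (6 + 4 * s) * R ^ (-(3 + 4 * s)) := by
          rw [hB, mul_pow, mul_assoc, mul_assoc]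
          congr 1
          rw [Real.div_rpow hR0.le (by norm_num), div_pow, ← Real.rpow_natCast, ← Real.rpow_natCast,
            ← Real.rpow_natCast, ← Real.rpow_mul hR0.le, ← Real.rpow_mul (by norm_num),
            div_mul_eq_mul_div, ← Real.rpow_add hR0, div_eq_mul_inv, ← Real.rpow_neg (by norm_num),
            mul_comm]
          congr 2
          · push_cast; ring
          · push_cast; ring
        linear_combination (2 * v) * e1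

theorem tailT {s : ℝ} (h0 : 3 / 4 < s) (h2 : s < 2) (h1 : s ≠ 1) :
    ∃ C : ℝ, 0 ≤ C ∧ ∀ τ L : ℝ, 1 ≤ τ → 1 ≤ L →
      ∫⁻ x in {x : E3 | L ≤ ‖x‖}, ‖zt s τ ^ 2 * (GI s τ : E3 → ℂ) x‖ₑ ^ 2 ≤
        ENNReal.ofReal (C * L ^ (-(3 + 4 * s))) := by
  obtain ⟨C, hC0, hC⟩ := tailt_annulus h0 h2 h1
  refine ⟨C, hC0, fun τ L hτ hL => ?_⟩
  have hL0 : 0 < L := by linarith
  have hsub : {x : E3 | L ≤ ‖x‖} ⊆
      ⋃ n : ℕ, {x : E3 | (2 ^ (n + 1) * L) / 2 ≤ ‖x‖ ∧ ‖x‖ ≤ 2 ^ (n + 1) * L} := by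
    intro x hx
    have hx' : L ≤ ‖x‖ := hx
    obtain ⟨n, hn1, hn2⟩ := exists_nat_pow_near ((one_le_div hL0).2 hx') (one_lt_two)
    rw [le_div_iff₀ hL0] at hn1
    rw [div_lt_iff₀ hL0] at hn2
    refine mem_iUnion.2 ⟨n, ?_, hn2.le⟩
    rw [pow_succ]
    linarith
  set a : ℝ := C * L ^ (-(3 + 4 * s)) with ha
  have ha0 : 0 ≤ a := by positivity
  have hn : ∀ n : ℕ, ∫⁻ x in {x : E3 | (2 ^ (n + 1) * L) / 2 ≤ ‖x‖ ∧ ‖x‖ ≤ 2 ^ (n + 1) * L},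
      ‖zt s τ ^ 2 * (GI s τ : E3 → ℂ) x‖ₑ ^ 2 ≤ ENNReal.ofReal (a / 2 / 2 ^ n) := by
    intro n
    have h21 : (1 : ℝ) ≤ 2 ^ (n + 1) := one_le_pow₀ one_le_two
    refine (hC τ (2 ^ (n + 1) * L) hτ (by nlinarith)).trans ?_
    refine ENNReal.ofReal_le_ofReal ?_
    rw [Real.mul_rpow (by positivity) hL0.le]
    have e1 : ((2 : ℝ) ^ (n + 1)) ^ (-(3 + 4 * s)) ≤ ((2 : ℝ) ^ (n + 1)) ^ (-1 : ℝ) :=
      Real.rpow_le_rpow_of_exponent_le h21 (by linarith)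
    rw [Real.rpow_neg_one] at e1
    have e2 : a / 2 / 2 ^ n = ((2 : ℝ) ^ (n + 1))⁻¹ * a := by
      rw [pow_succ]
      field_simp
    rw [e2, ha]
    have e3 : C * (((2 : ℝ) ^ (n + 1)) ^ (-(3 + 4 * s)) * L ^ (-(3 + 4 * s))) =
        ((2 : ℝ) ^ (n + 1)) ^ (-(3 + 4 * s)) * (C * L ^ (-(3 + 4 * s))) := by ring
    rw [e3]
    exact mul_le_mul_of_nonneg_right e1 ha0
  calc ∫⁻ x in {x : E3 | L ≤ ‖x‖}, ‖zt s τ ^ 2 * (GI s τ : E3 → ℂ) x‖ₑ ^ 2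
      ≤ ∫⁻ x in ⋃ n : ℕ, {x : E3 | (2 ^ (n + 1) * L) / 2 ≤ ‖x‖ ∧ ‖x‖ ≤ 2 ^ (n + 1) * L},
          ‖zt s τ ^ 2 * (GI s τ : E3 → ℂ) x‖ₑ ^ 2 := lintegral_mono_set hsub
    _ ≤ ∑' n : ℕ, ∫⁻ x in {x : E3 | (2 ^ (n + 1) * L) / 2 ≤ ‖x‖ ∧ ‖x‖ ≤ 2 ^ (n + 1) * L},
          ‖zt s τ ^ 2 * (GI s τ : E3 → ℂ) x‖ₑ ^ 2 := lintegral_iUnion_le _ _
    _ ≤ ∑' n : ℕ, ENNReal.ofReal (a / 2 / 2 ^ n) := ENNReal.tsum_le_tsum hn
    _ = ENNReal.ofReal a := by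
        rw [← ENNReal.ofReal_tsum_of_nonneg (fun n => by positivity) (summable_geometric_two' a),
          tsum_geometric_two']

end FracScatC

end
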