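import Pool.Agent.Lib.MP_6e2ba5_an.Dx.AxApi
import Pool.Agent.Lib.MP_6e2ba5_an.Ex.CaseA

/-! # The first bilinear term

`g = V e` vanishes outside the ball, `A3_eA`: the left side is `∫ a(ζ) FT(V e)(ζ) F(-ζ-ξ) dζ`, `F = ftX w`,
`PA = prodL (aH) (FT g)` (`prodL_coe`), and `FT (V e)(ζ) = ftX (dH V)(ζ - ξ)` almost everywhere (`mulL_eH`,
`UnfrN_FT` in `Ex/UnfrN.lean` is the model). Cauchy-Schwarz: the square is at most `‖aH‖² G(ξ)²`,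
`G(ξ)² = ∫ ‖ftX (dH V)(ζ-ξ)‖² ‖F(-ζ-ξ)‖² dζ`, and `8 ∫ G² = ‖dH V‖² ‖w‖²` by `fh_lintegral` (`Ex/CaseA.lean`),
`ftX_sq` (`Ex/LamE.lean`; for `w ∈ HB r` the same: Plancherel, `FT_coe_of_integrable`). -/

set_option autoImplicit false

open MeasureTheory Filter Topology Set
open scoped FourierTransform SchwartzMap InnerProductSpace ENNReal BoundedContinuousFunction

noncomputable section

namespace FracScatC

open FracScat

private theorem tA_L2 (f : HS) : ∫⁻ x, ‖(f : E3 → ℂ) x‖ₑ ^ 2 = ‖f‖ₑ ^ 2 := by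
  rw [Lp.enorm_def, eLpNorm_eq_lintegral_rpow_enorm_toReal (by norm_num) (by norm_num),
    ENNReal.toReal_ofNat]
  have h1 : ∀ ζ : E3, ‖(f : E3 → ℂ) ζ‖ₑ ^ (2 : ℝ) = ‖(f : E3 → ℂ) ζ‖ₑ ^ 2 := fun ζ =>
    ENNReal.rpow_two _
  simp only [h1]
  rw [← ENNReal.rpow_two, ← ENNReal.rpow_mul]
  norm_num

private theorem tA_sq {w : HS} (hi : Integrable (w : E3 → ℂ)) :
    ∫⁻ η, ‖ftX w η‖ₑ ^ 2 = ‖w‖ₑ ^ 2 := by
  have e1 : ∫⁻ η, ‖ftX w η‖ₑ ^ 2 = ∫⁻ η, ‖(FT w : E3 → ℂ) η‖ₑ ^ 2 := by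
    refine lintegral_congr_ae ?_
    filter_upwards [FT_eq_ftX hi] with ζ a
    rw [a]
  have e2 : ‖w‖ₑ = ‖FT w‖ₑ := by
    rw [← ofReal_norm, ← ofReal_norm, LinearIsometryEquiv.norm_map]
  rw [e1, e2, tA_L2]

theorem ftX_sqW {r : ℝ} {w : HS} (hw : w ∈ HB r) : ∫⁻ η, ‖ftX w η‖ₑ ^ 2 = ‖w‖ₑ ^ 2 :=
  tA_sq (HB_integrable hw)

private theorem tA_FT (ξ : E3) {h : HS} (hh : Integrable (h : E3 → ℂ)) :
    (FT (mulL (efun ξ) h) : E3 → ℂ) =ᵐ[volume] fun ζ => ftX h (ζ - ξ) := by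
  have hmp : MeasurePreserving (fun ζ : E3 => ζ - ξ) volume volume :=
    measurePreserving_sub_right volume ξ
  have h4 : ∀ᵐ ζ ∂(volume : Measure E3), (FT h : E3 → ℂ) (ζ - ξ) = ftX h (ζ - ξ) :=
    hmp.quasiMeasurePreserving.ae (FT_eq_ftX hh)
  filter_upwards [FT_efun ξ hh, h4] with ζ a b
  rw [a, b]

private theorem tA_PA {s r M : ℝ} {V : E3 → ℂ} (hV : IsPot r M V) (ξ : E3) :
    (PA s r ξ (mulL V (eH r ξ)) : E3 → ℂ) =ᵐ[volume]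
      fun ζ => (aH s r ξ : E3 → ℂ) ζ * ftX (dH r V) (ζ - ξ) := by
  unfold PA
  rw [mulL_eH hV]
  filter_upwards [prodL_coe (aH s r ξ) (FT (mulL (efun ξ) (dH r V))),
    tA_FT ξ (HB_integrable (dH_mem hV))] with ζ a b
  rw [a, b]

private theorem tA_ton {f h : E3 → ℝ≥0∞} (hf : Measurable f) (hh : Measurable h) :
    8 * ∫⁻ ξ : E3, ∫⁻ x : E3, f (x - ξ) * h (-x - ξ) = (∫⁻ x, f x) * ∫⁻ z, h z := by
  have e1 : ∀ ξ : E3, ∫⁻ x : E3, f (x - ξ) * h (-x - ξ) =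
      ∫⁻ p : E3, f p * h (-p + -(2 : ℝ) • ξ) := by
    intro ξ
    rw [← lintegral_add_right_eq_self (μ := (volume : Measure E3))
      (fun x => f (x - ξ) * h (-x - ξ)) ξ]
    refine lintegral_congr fun p => ?_
    have e0 : -(p + ξ) - ξ = -p + -(2 : ℝ) • ξ := by
      rw [neg_smul, two_smul]
      abel
    rw [add_sub_cancel_right, e0]
  have m2 : Measurable (Function.uncurry fun ξ p : E3 => f p * h (-p + -(2 : ℝ) • ξ)) := by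
    have a1 : Measurable fun z : E3 × E3 => -z.2 + -(2 : ℝ) • z.1 := by fun_prop
    exact (hf.comp measurable_snd).mul (hh.comp a1)
  have e2 : ∀ p : E3, 8 * ∫⁻ ξ : E3, f p * h (-p + -(2 : ℝ) • ξ) = f p * ∫⁻ z, h z := by
    intro p
    have a1 : Measurable fun ξ : E3 => -p + -(2 : ℝ) • ξ := by fun_prop
    have h2 := J1E (g := fun η : E3 => h (-p + η)) (hh.comp (measurable_const_add _))
    rw [lintegral_add_left_eq_self (μ := (volume : Measure E3)) (fun z => h z) (-p)] at h2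
    rw [lintegral_const_mul (f p) (f := fun ξ : E3 => h (-p + -(2 : ℝ) • ξ)) (hh.comp a1), h2]
    ring
  have e8 : (8 : ℝ≥0∞) ≠ ⊤ := by norm_num
  calc 8 * ∫⁻ ξ : E3, ∫⁻ x : E3, f (x - ξ) * h (-x - ξ)
      = 8 * ∫⁻ ξ : E3, ∫⁻ p : E3, f p * h (-p + -(2 : ℝ) • ξ) := by
        congr 1
        exact lintegral_congr e1
    _ = 8 * ∫⁻ p : E3, ∫⁻ ξ : E3, f p * h (-p + -(2 : ℝ) • ξ) := by
        rw [lintegral_lintegral_swap m2.aemeasurable]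
    _ = ∫⁻ p : E3, f p * ∫⁻ z, h z := by
        rw [← lintegral_const_mul' _ _ e8]
        exact lintegral_congr fun p => e2 p
    _ = _ := lintegral_mul_const _ hf

private theorem tA_root {x y : ℝ≥0∞} (h : x ^ 2 ≤ y ^ 2) : x ≤ y := by
  have h1 := ENNReal.rpow_le_rpow h (show (0 : ℝ) ≤ 1 / 2 by norm_num)
  have e : ∀ z : ℝ≥0∞, (z ^ 2) ^ (1 / 2 : ℝ) = z := fun z => by
    rw [← ENNReal.rpow_natCast, ← ENNReal.rpow_mul]
    norm_num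
  rwa [e, e] at h1

private theorem tA_half (x : ℝ≥0∞) : (x ^ (1 / 2 : ℝ)) ^ 2 = x := by
  rw [← ENNReal.rpow_natCast, ← ENNReal.rpow_mul]
  norm_num

theorem tightA {s : ℝ} (h0 : 3 / 4 < s) (h2 : s < 2) (h1 : s ≠ 1) {r : ℝ} (hr : 0 < r)
    {M : ℝ} {V : E3 → ℂ} (hV : IsPot r M V) {w : HS} (hw : w ∈ HB r) :
    ∃ G : E3 → ℝ≥0∞, Measurable G ∧
      (∀ ξ : E3, 1 ≤ ‖ξ‖ → ‖A3 w (eH r ξ) (AR s r ξ (mulL V (eH r ξ)))‖ₑ ≤
        ENNReal.ofReal ‖aH s r ξ‖ * G ξ) ∧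
      ∫⁻ ξ, G ξ ^ 2 ≤ ENNReal.ofReal ((‖dH r V‖ * ‖w‖) ^ 2) := by
  have c1 : Measurable fun x : E3 => ‖ftX (dH r V) x‖ₑ :=
    (ftX (dH r V)).continuous.enorm.measurable
  have c3 : Measurable fun x : E3 => ‖ftX w x‖ₑ := (ftX w).continuous.enorm.measurable
  have hm2 : Measurable fun z : E3 × E3 =>
      (‖ftX (dH r V) (z.2 - z.1)‖ₑ * ‖ftX w (-z.2 - z.1)‖ₑ) ^ 2 := by
    have a1 : Measurable fun z : E3 × E3 => z.2 - z.1 := by fun_prop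
    have a3 : Measurable fun z : E3 × E3 => -z.2 - z.1 := by fun_prop
    exact ((c1.comp a1).mul (c3.comp a3)).pow_const 2
  have hm1 : Measurable fun ξ : E3 => ∫⁻ x : E3,
      (‖ftX (dH r V) (x - ξ)‖ₑ * ‖ftX w (-x - ξ)‖ₑ) ^ 2 := hm2.lintegral_prod_right'
  refine ⟨fun ξ => (∫⁻ x : E3, (‖ftX (dH r V) (x - ξ)‖ₑ * ‖ftX w (-x - ξ)‖ₑ) ^ 2) ^
      (1 / 2 : ℝ), hm1.pow_const _, ?_, ?_⟩
  · intro ξ hξ
    rw [A3_eA h0 h2 h1 hr hξ hw (mulL_indB_of_pot hV _)]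
    have hα : Measurable fun x : E3 => ‖(aH s r ξ : E3 → ℂ) x‖ₑ :=
      (Lp.stronglyMeasurable (aH s r ξ)).measurable.enorm
    have a1 : Measurable fun x : E3 => x - ξ := by fun_prop
    have a2 : Measurable fun x : E3 => -x - ξ := by fun_prop
    have hb : Measurable fun x : E3 => ‖ftX (dH r V) (x - ξ)‖ₑ * ‖ftX w (-x - ξ)‖ₑ :=
      (c1.comp a1).mul (c3.comp a2)
    have hcs := cs_lintegral hα hb
    have hle : ‖lam ξ (PA s r ξ (mulL V (eH r ξ))) (ftX w)‖ₑ ≤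
        ∫⁻ x : E3, ‖(aH s r ξ : E3 → ℂ) x‖ₑ * (‖ftX (dH r V) (x - ξ)‖ₑ * ‖ftX w (-x - ξ)‖ₑ) := by
      unfold lam
      refine (enorm_integral_le_lintegral_enorm _).trans ?_
      refine lintegral_mono_ae ?_
      filter_upwards [tA_PA (s := s) hV ξ] with x a
      rw [enorm_mul, a, enorm_mul, mul_assoc]
    refine hle.trans (tA_root (hcs.trans (le_of_eq ?_)))
    rw [mul_pow, tA_half, tA_L2, ofReal_norm]
  · have e1 : ∀ ξ : E3, ((∫⁻ x : E3, (‖ftX (dH r V) (x - ξ)‖ₑ * ‖ftX w (-x - ξ)‖ₑ) ^ 2) ^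
          (1 / 2 : ℝ)) ^ 2 = ∫⁻ x : E3, ‖ftX (dH r V) (x - ξ)‖ₑ ^ 2 * ‖ftX w (-x - ξ)‖ₑ ^ 2 := by
      intro ξ
      rw [tA_half]
      simp only [mul_pow]
    have h3 := tA_ton (c1.pow_const 2) (c3.pow_const 2)
    rw [tA_sq (HB_integrable (dH_mem hV)), tA_sq (HB_integrable hw)] at h3
    have e2 : ENNReal.ofReal ((‖dH r V‖ * ‖w‖) ^ 2) = ‖dH r V‖ₑ ^ 2 * ‖w‖ₑ ^ 2 := by
      rw [ENNReal.ofReal_pow (by positivity), ENNReal.ofReal_mul (by positivity),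
        ofReal_norm, ofReal_norm]
      ring
    rw [e2, ← h3]
    simp only [e1]
    refine le_mul_of_one_le_left bot_le ?_
    norm_num

end FracScatC

end
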