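import Pool.Agent.Lib.MP_6e2ba5_an.Dx.AxApi
import Pool.Agent.Lib.MP_6e2ba5_an.Ex.CaseA

/-! # The trilinear term

`A3_AA`: the left side is `∫∫ a(ζ₁) v₁(ζ₁-ξ) a(ζ₂) v₂(ζ₂-ξ) F(-ζ₁-ζ₂) dζ₂ dζ₁`, `v_j = ftX (dH V_j)`, `F = ftX w`
(see `TightA.lean`). Cauchy-Schwarz in both variables: the square is at most `‖aH‖⁴ G(ξ)²`,
`G(ξ)² = ∫∫ |v₁(ζ₁-ξ)|² |v₂(ζ₂-ξ)|² |F(-ζ₁-ζ₂)|² dζ₂ dζ₁`. With `p = ζ₁ - ξ`, `q = ζ₂ - ξ` and Tonelli
`∫ G² dξ = ∫∫ |v₁(p)|² |v₂(q)|² ∫ |F(-p-q-2ξ)|² dξ dq dp = ‖V₁‖² ‖V₂‖² ‖w‖² / 8` (translation invariance, `J1E` in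
`Ex/J2E.lean`, Plancherel). `G` is measurable as an iterated integral of a measurable function (`ftX` is
continuous). The square root: `G ξ = (∫⁻∫⁻ ...) ^ (1/2 : ℝ)`. -/

set_option autoImplicit false

open MeasureTheory Filter Topology Set
open scoped FourierTransform SchwartzMap InnerProductSpace ENNReal BoundedContinuousFunction

noncomputable section

namespace FracScatC

open FracScat

private theorem tB_L2 (f : HS) : ∫⁻ x, ‖(f : E3 → ℂ) x‖ₑ ^ 2 = ‖f‖ₑ ^ 2 := by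
  rw [Lp.enorm_def, eLpNorm_eq_lintegral_rpow_enorm_toReal (by norm_num) (by norm_num),
    ENNReal.toReal_ofNat]
  have h1 : ∀ ζ : E3, ‖(f : E3 → ℂ) ζ‖ₑ ^ (2 : ℝ) = ‖(f : E3 → ℂ) ζ‖ₑ ^ 2 := fun ζ =>
    ENNReal.rpow_two _
  simp only [h1]
  rw [← ENNReal.rpow_two, ← ENNReal.rpow_mul]
  norm_num

private theorem tB_sq {w : HS} (hi : Integrable (w : E3 → ℂ)) :
    ∫⁻ η, ‖ftX w η‖ₑ ^ 2 = ‖w‖ₑ ^ 2 := by
  have e1 : ∫⁻ η, ‖ftX w η‖ₑ ^ 2 = ∫⁻ η, ‖(FT w : E3 → ℂ) η‖ₑ ^ 2 := by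
    refine lintegral_congr_ae ?_
    filter_upwards [FT_eq_ftX hi] with ζ a
    rw [a]
  have e2 : ‖w‖ₑ = ‖FT w‖ₑ := by
    rw [← ofReal_norm, ← ofReal_norm, LinearIsometryEquiv.norm_map]
  rw [e1, e2, tB_L2]

private theorem tB_FT (ξ : E3) {h : HS} (hh : Integrable (h : E3 → ℂ)) :
    (FT (mulL (efun ξ) h) : E3 → ℂ) =ᵐ[volume] fun ζ => ftX h (ζ - ξ) := by
  have hmp : MeasurePreserving (fun ζ : E3 => ζ - ξ) volume volume :=
    measurePreserving_sub_right volume ξ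
  have h4 : ∀ᵐ ζ ∂(volume : Measure E3), (FT h : E3 → ℂ) (ζ - ξ) = ftX h (ζ - ξ) :=
    hmp.quasiMeasurePreserving.ae (FT_eq_ftX hh)
  filter_upwards [FT_efun ξ hh, h4] with ζ a b
  rw [a, b]

private theorem tB_PA {s r M : ℝ} {V : E3 → ℂ} (hV : IsPot r M V) (ξ : E3) :
    (PA s r ξ (mulL V (eH r ξ)) : E3 → ℂ) =ᵐ[volume]
      fun ζ => (aH s r ξ : E3 → ℂ) ζ * ftX (dH r V) (ζ - ξ) := by
  unfold PA
  rw [mulL_eH hV]
  filter_upwards [prodL_coe (aH s r ξ) (FT (mulL (efun ξ) (dH r V))),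
    tB_FT ξ (HB_integrable (dH_mem hV))] with ζ a b
  rw [a, b]

private theorem tB_cs {α a b : E3 → ℝ≥0∞} {k : E3 → E3 → ℝ≥0∞} (hα : Measurable α)
    (ha : Measurable a) (hb : Measurable b) (hk : Measurable (Function.uncurry k)) :
    (∫⁻ x, α x * a x * ∫⁻ y, α y * b y * k x y) ^ 2 ≤
      (∫⁻ x, α x ^ 2) ^ 2 * ∫⁻ x, ∫⁻ y, (a x * b y * k x y) ^ 2 := by
  set N := ∫⁻ x, α x ^ 2 with hN
  have hI : Measurable fun x => ∫⁻ y, α y * b y * k x y := by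
    have h1 : Measurable (Function.uncurry fun x y => α y * b y * k x y) :=
      ((hα.comp measurable_snd).mul (hb.comp measurable_snd)).mul hk
    exact h1.lintegral_prod_right'
  have hkx : ∀ x, Measurable (fun y => k x y) := fun x =>
    hk.comp (measurable_const.prodMk measurable_id)
  have hJ : Measurable fun x => ∫⁻ y, (a x * b y * k x y) ^ 2 := by
    have h1 : Measurable (Function.uncurry fun x y => (a x * b y * k x y) ^ 2) :=
      (((ha.comp measurable_fst).mul (hb.comp measurable_snd)).mul hk).pow_const 2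
    exact h1.lintegral_prod_right'
  have hin : ∀ x, (∫⁻ y, α y * b y * k x y) ^ 2 ≤ N * ∫⁻ y, (b y * k x y) ^ 2 := by
    intro x
    have h := cs_lintegral hα (hb.mul (hkx x))
    refine le_trans (le_of_eq ?_) h
    congr 1
    refine lintegral_congr fun y => ?_
    exact mul_assoc _ _ _
  calc (∫⁻ x, α x * a x * ∫⁻ y, α y * b y * k x y) ^ 2
      = (∫⁻ x, α x * (a x * ∫⁻ y, α y * b y * k x y)) ^ 2 := by
        congr 1
        exact lintegral_congr fun x => mul_assoc _ _ _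
    _ ≤ N * ∫⁻ x, (a x * ∫⁻ y, α y * b y * k x y) ^ 2 := cs_lintegral hα (ha.mul hI)
    _ ≤ N * ∫⁻ x, N * ∫⁻ y, (a x * b y * k x y) ^ 2 := by
        refine mul_le_mul_right (lintegral_mono fun x => ?_) N
        calc (a x * ∫⁻ y, α y * b y * k x y) ^ 2
            = a x ^ 2 * (∫⁻ y, α y * b y * k x y) ^ 2 := mul_pow _ _ _
          _ ≤ a x ^ 2 * (N * ∫⁻ y, (b y * k x y) ^ 2) := mul_le_mul_right (hin x) _
          _ = N * (a x ^ 2 * ∫⁻ y, (b y * k x y) ^ 2) := by ring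
          _ = N * ∫⁻ y, (a x * b y * k x y) ^ 2 := by
              rw [← lintegral_const_mul (a x ^ 2) (f := fun y => (b y * k x y) ^ 2)
                ((hb.mul (hkx x)).pow_const 2)]
              congr 1
              refine lintegral_congr fun y => ?_
              ring
    _ = N ^ 2 * ∫⁻ x, ∫⁻ y, (a x * b y * k x y) ^ 2 := by
        rw [lintegral_const_mul _ hJ]
        ring

private theorem tB_ton {f g h : E3 → ℝ≥0∞} (hf : Measurable f) (hg : Measurable g)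
    (hh : Measurable h) :
    8 * ∫⁻ ξ : E3, ∫⁻ x : E3, ∫⁻ y : E3, f (x - ξ) * g (y - ξ) * h (-x - y) =
      (∫⁻ x, f x) * ((∫⁻ y, g y) * ∫⁻ z, h z) := by
  have e1 : ∀ ξ : E3, ∫⁻ x : E3, ∫⁻ y : E3, f (x - ξ) * g (y - ξ) * h (-x - y) =
      ∫⁻ p : E3, ∫⁻ q : E3, f p * g q * h (-p - q + -(2 : ℝ) • ξ) := by
    intro ξ
    rw [← lintegral_add_right_eq_self (μ := (volume : Measure E3))
      (fun x => ∫⁻ y : E3, f (x - ξ) * g (y - ξ) * h (-x - y)) ξ]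
    refine lintegral_congr fun p => ?_
    rw [← lintegral_add_right_eq_self (μ := (volume : Measure E3))
      (fun y => f (p + ξ - ξ) * g (y - ξ) * h (-(p + ξ) - y)) ξ]
    refine lintegral_congr fun q => ?_
    have e0 : -(p + ξ) - (q + ξ) = -p - q + -(2 : ℝ) • ξ := by
      rw [neg_smul, two_smul]
      abel
    rw [add_sub_cancel_right, add_sub_cancel_right, e0]
  have m3 : Measurable fun z : (E3 × E3) × E3 =>
      f z.1.2 * g z.2 * h (-z.1.2 - z.2 + -(2 : ℝ) • z.1.1) := by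
    have a1 : Measurable fun z : (E3 × E3) × E3 => -z.1.2 - z.2 + -(2 : ℝ) • z.1.1 := by fun_prop
    have a2 : Measurable fun z : (E3 × E3) × E3 => z.1.2 := by fun_prop
    exact ((hf.comp a2).mul (hg.comp measurable_snd)).mul (hh.comp a1)
  have m2 : Measurable (Function.uncurry fun ξ p : E3 =>
      ∫⁻ q : E3, f p * g q * h (-p - q + -(2 : ℝ) • ξ)) := m3.lintegral_prod_right'
  have m1 : ∀ p : E3, Measurable (Function.uncurry fun ξ q : E3 =>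
      f p * g q * h (-p - q + -(2 : ℝ) • ξ)) := by
    intro p
    have a1 : Measurable fun z : E3 × E3 => -p - z.2 + -(2 : ℝ) • z.1 := by fun_prop
    exact ((hg.comp measurable_snd).const_mul (f p)).mul (hh.comp a1)
  have e2 : ∀ p q : E3, 8 * ∫⁻ ξ : E3, f p * g q * h (-p - q + -(2 : ℝ) • ξ) =
      f p * g q * ∫⁻ z, h z := by
    intro p q
    have a1 : Measurable fun ξ : E3 => -p - q + -(2 : ℝ) • ξ := by fun_prop
    have h2 := J1E (g := fun η : E3 => h (-p - q + η)) (hh.comp (measurable_const_add _))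
    rw [lintegral_add_left_eq_self (μ := (volume : Measure E3)) (fun z => h z) (-p - q)] at h2
    rw [lintegral_const_mul (f p * g q) (f := fun ξ : E3 => h (-p - q + -(2 : ℝ) • ξ))
      (hh.comp a1), h2]
    ring
  have e8 : (8 : ℝ≥0∞) ≠ ⊤ := by norm_num
  calc 8 * ∫⁻ ξ : E3, ∫⁻ x : E3, ∫⁻ y : E3, f (x - ξ) * g (y - ξ) * h (-x - y)
      = 8 * ∫⁻ ξ : E3, ∫⁻ p : E3, ∫⁻ q : E3, f p * g q * h (-p - q + -(2 : ℝ) • ξ) := by
        congr 1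
        exact lintegral_congr e1
    _ = 8 * ∫⁻ p : E3, ∫⁻ ξ : E3, ∫⁻ q : E3, f p * g q * h (-p - q + -(2 : ℝ) • ξ) := by
        rw [lintegral_lintegral_swap m2.aemeasurable]
    _ = 8 * ∫⁻ p : E3, ∫⁻ q : E3, ∫⁻ ξ : E3, f p * g q * h (-p - q + -(2 : ℝ) • ξ) := by
        congr 1
        refine lintegral_congr fun p => ?_
        rw [lintegral_lintegral_swap (m1 p).aemeasurable]
    _ = ∫⁻ p : E3, ∫⁻ q : E3, f p * g q * ∫⁻ z, h z := by
        rw [← lintegral_const_mul' _ _ e8]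
        refine lintegral_congr fun p => ?_
        rw [← lintegral_const_mul' _ _ e8]
        exact lintegral_congr fun q => e2 p q
    _ = ∫⁻ p : E3, f p * ((∫⁻ y, g y) * ∫⁻ z, h z) := by
        refine lintegral_congr fun p => ?_
        rw [lintegral_mul_const _ (hg.const_mul (f p)), lintegral_const_mul _ hg, mul_assoc]
    _ = _ := lintegral_mul_const _ hf

private theorem tB_root {x y : ℝ≥0∞} (h : x ^ 2 ≤ y ^ 2) : x ≤ y := by
  have h1 := ENNReal.rpow_le_rpow h (show (0 : ℝ) ≤ 1 / 2 by norm_num)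
  have e : ∀ z : ℝ≥0∞, (z ^ 2) ^ (1 / 2 : ℝ) = z := fun z => by
    rw [← ENNReal.rpow_natCast, ← ENNReal.rpow_mul]
    norm_num
  rwa [e, e] at h1

private theorem tB_half (x : ℝ≥0∞) : (x ^ (1 / 2 : ℝ)) ^ 2 = x := by
  rw [← ENNReal.rpow_natCast, ← ENNReal.rpow_mul]
  norm_num

theorem tightB {s : ℝ} (h0 : 3 / 4 < s) (h2 : s < 2) (h1 : s ≠ 1) {r : ℝ} (hr : 0 < r)
    {M : ℝ} {V₁ V₂ : E3 → ℂ} (hV₁ : IsPot r M V₁) (hV₂ : IsPot r M V₂) {w : HS}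
    (hw : w ∈ HB r) : ∃ G : E3 → ℝ≥0∞, Measurable G ∧
      (∀ ξ : E3, 1 ≤ ‖ξ‖ →
        ‖A3 w (AR s r ξ (mulL V₁ (eH r ξ))) (AR s r ξ (mulL V₂ (eH r ξ)))‖ₑ ≤
          ENNReal.ofReal (‖aH s r ξ‖ ^ 2) * G ξ) ∧
      ∫⁻ ξ, G ξ ^ 2 ≤ ENNReal.ofReal ((‖dH r V₁‖ * ‖dH r V₂‖ * ‖w‖) ^ 2) := by
  have c1 : Measurable fun x : E3 => ‖ftX (dH r V₁) x‖ₑ :=
    (ftX (dH r V₁)).continuous.enorm.measurable
  have c2 : Measurable fun x : E3 => ‖ftX (dH r V₂) x‖ₑ :=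
    (ftX (dH r V₂)).continuous.enorm.measurable
  have c3 : Measurable fun x : E3 => ‖ftX w x‖ₑ := (ftX w).continuous.enorm.measurable
  have hm3 : Measurable fun z : (E3 × E3) × E3 =>
      (‖ftX (dH r V₁) (z.1.2 - z.1.1)‖ₑ * ‖ftX (dH r V₂) (z.2 - z.1.1)‖ₑ *
        ‖ftX w (-z.1.2 - z.2)‖ₑ) ^ 2 := by
    have a1 : Measurable fun z : (E3 × E3) × E3 => z.1.2 - z.1.1 := by fun_prop
    have a2 : Measurable fun z : (E3 × E3) × E3 => z.2 - z.1.1 := by fun_prop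
    have a3 : Measurable fun z : (E3 × E3) × E3 => -z.1.2 - z.2 := by fun_prop
    exact (((c1.comp a1).mul (c2.comp a2)).mul (c3.comp a3)).pow_const 2
  have hm2 : Measurable fun z : E3 × E3 => ∫⁻ y : E3,
      (‖ftX (dH r V₁) (z.2 - z.1)‖ₑ * ‖ftX (dH r V₂) (y - z.1)‖ₑ * ‖ftX w (-z.2 - y)‖ₑ) ^ 2 :=
    hm3.lintegral_prod_right'
  have hm1 : Measurable fun ξ : E3 => ∫⁻ x : E3, ∫⁻ y : E3,
      (‖ftX (dH r V₁) (x - ξ)‖ₑ * ‖ftX (dH r V₂) (y - ξ)‖ₑ * ‖ftX w (-x - y)‖ₑ) ^ 2 :=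
    hm2.lintegral_prod_right'
  refine ⟨fun ξ => (∫⁻ x : E3, ∫⁻ y : E3,
    (‖ftX (dH r V₁) (x - ξ)‖ₑ * ‖ftX (dH r V₂) (y - ξ)‖ₑ * ‖ftX w (-x - y)‖ₑ) ^ 2) ^
      (1 / 2 : ℝ), hm1.pow_const _, ?_, ?_⟩
  · intro ξ hξ
    rw [A3_AA h0 h2 h1 hr hξ hw (mulL_indB_of_pot hV₁ _) (mulL_indB_of_pot hV₂ _)]
    have hα : Measurable fun x : E3 => ‖(aH s r ξ : E3 → ℂ) x‖ₑ :=
      (Lp.stronglyMeasurable (aH s r ξ)).measurable.enorm
    have hk : Measurable (Function.uncurry fun x y : E3 => ‖ftX w (-x - y)‖ₑ) := by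
      have a1 : Measurable fun z : E3 × E3 => -z.1 - z.2 := by fun_prop
      exact c3.comp a1
    have hcs := tB_cs hα (c1.comp (measurable_id.sub_const ξ))
      (c2.comp (measurable_id.sub_const ξ)) hk
    simp only [Function.comp_def, id_eq] at hcs
    have hle : ‖bet (PA s r ξ (mulL V₁ (eH r ξ))) (PA s r ξ (mulL V₂ (eH r ξ))) (ftX w)‖ₑ ≤
        ∫⁻ x : E3, ‖(aH s r ξ : E3 → ℂ) x‖ₑ * ‖ftX (dH r V₁) (x - ξ)‖ₑ *
          ∫⁻ y : E3, ‖(aH s r ξ : E3 → ℂ) y‖ₑ * ‖ftX (dH r V₂) (y - ξ)‖ₑ *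
            ‖ftX w (-x - y)‖ₑ := by
      unfold bet
      refine (enorm_integral_le_lintegral_enorm _).trans ?_
      refine lintegral_mono_ae ?_
      filter_upwards [tB_PA (s := s) hV₁ ξ] with x a
      rw [enorm_mul, a, enorm_mul]
      refine mul_le_mul_right ?_ _
      refine (enorm_integral_le_lintegral_enorm _).trans ?_
      refine lintegral_mono_ae ?_
      filter_upwards [tB_PA (s := s) hV₂ ξ] with y b
      rw [enorm_mul, b, enorm_mul]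
    refine hle.trans (tB_root (hcs.trans (le_of_eq ?_)))
    have e1 : ENNReal.ofReal (‖aH s r ξ‖ ^ 2) = ∫⁻ x, ‖(aH s r ξ : E3 → ℂ) x‖ₑ ^ 2 := by
      rw [tB_L2, ENNReal.ofReal_pow (norm_nonneg _), ofReal_norm]
    rw [mul_pow, tB_half, e1]
  · have e1 : ∀ ξ : E3, ((∫⁻ x : E3, ∫⁻ y : E3,
        (‖ftX (dH r V₁) (x - ξ)‖ₑ * ‖ftX (dH r V₂) (y - ξ)‖ₑ * ‖ftX w (-x - y)‖ₑ) ^ 2) ^
          (1 / 2 : ℝ)) ^ 2 = ∫⁻ x : E3, ∫⁻ y : E3,
        ‖ftX (dH r V₁) (x - ξ)‖ₑ ^ 2 * ‖ftX (dH r V₂) (y - ξ)‖ₑ ^ 2 * ‖ftX w (-x - y)‖ₑ ^ 2 := by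
      intro ξ
      rw [tB_half]
      simp only [mul_pow]
    have h3 := tB_ton (c1.pow_const 2) (c2.pow_const 2) (c3.pow_const 2)
    rw [tB_sq (HB_integrable (dH_mem hV₁)), tB_sq (HB_integrable (dH_mem hV₂)),
      tB_sq (HB_integrable hw)] at h3
    have e2 : ENNReal.ofReal ((‖dH r V₁‖ * ‖dH r V₂‖ * ‖w‖) ^ 2) =
        ‖dH r V₁‖ₑ ^ 2 * (‖dH r V₂‖ₑ ^ 2 * ‖w‖ₑ ^ 2) := by
      rw [ENNReal.ofReal_pow (by positivity), ENNReal.ofReal_mul (by positivity),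
        ENNReal.ofReal_mul (by positivity), ofReal_norm, ofReal_norm, ofReal_norm]
      ring
    rw [e2, ← h3]
    simp only [e1]
    refine le_mul_of_one_le_left bot_le ?_
    norm_num

end FracScatC

end
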