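import Pool.Agent.Lib.MP_6e2ba5_an.Dx.Abs
import Pool.Agent.Lib.MP_6e2ba5_an.Dx.TightA
import Pool.Agent.Lib.MP_6e2ba5_an.Dx.TightB

/-! # The main estimate

`u_j = e + v_j`, `v_j = A(V_j u_j) = a_j + b_j`, `a_j = A(V_j e)`, `b_j = A(V_j v_j)`, `A = AR s r ξ`. For `‖ξ‖ ≥ K`:
`‖v_j‖ ≤ ‖A‖ M 2 ‖1_B‖ = O(‖ξ‖^(-aE))`, `‖b_j‖ ≤ ‖A‖ M ‖v_j‖ = O(‖ξ‖^(-2 aE))`, sup bounds (`SymB.bd`):
`a_j = O(1)`, `b_j = O(‖ξ‖^(-aE))` (`‖aH‖ = O(1)`, `V_j v_j` in `L²`). Then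
`A3 w u₁ u₂ - A3 w e e = A3 w e a₂ + A3 w e a₁ + A3 w a₁ a₂ + R`, where `A3 w e e = ftX w (-2ξ)` (`A3_ee`) and
`R = A3 w e b₂ + A3 w b₁ e + A3 w a₁ b₂ + A3 w b₁ v₂`, `|R| ≤ C ‖w‖ ‖ξ‖^(-2 aE)` (`A3_norm`, `A3_comm`: one factor
bounded, one in `L²`). `∫_{‖ξ‖ ≥ N} ‖ξ‖^(-4 aE) dξ ≤ C N^(3 - 4 aE) ≤ C N^(-1)` as `aE > 1`. The other terms: `tightA`,
`tightB` and `‖aH s r ξ‖ ≤ C ‖ξ‖^(-bE) ≤ C N^(-bE)`. Take `γ = min 1 (2 bE)`, `G` the sum of the majorants on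
`{‖ξ‖ ≥ N}`; the `ftX w` term is not in `G`. -/

set_option autoImplicit false

open MeasureTheory Filter Topology Set
open scoped FourierTransform SchwartzMap InnerProductSpace ENNReal BoundedContinuousFunction

noncomputable section

namespace FracScatC

open FracScat

private theorem tg_sq4 (a b c d : ℝ≥0∞) :
    (a + b + c + d) ^ 2 ≤ 16 * (a ^ 2 + b ^ 2 + c ^ 2 + d ^ 2) := by
  have h1 : a + b + c + d ≤ 4 * max (max a b) (max c d) := by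
    have ha : a ≤ max (max a b) (max c d) := le_max_of_le_left (le_max_left _ _)
    have hb : b ≤ max (max a b) (max c d) := le_max_of_le_left (le_max_right _ _)
    have hc : c ≤ max (max a b) (max c d) := le_max_of_le_right (le_max_left _ _)
    have hd : d ≤ max (max a b) (max c d) := le_max_of_le_right (le_max_right _ _)
    calc a + b + c + d ≤ max (max a b) (max c d) + max (max a b) (max c d) +
          max (max a b) (max c d) + max (max a b) (max c d) :=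
          add_le_add (add_le_add (add_le_add ha hb) hc) hd
      _ = 4 * max (max a b) (max c d) := by ring
  have h2 : (max (max a b) (max c d)) ^ 2 ≤ a ^ 2 + b ^ 2 + c ^ 2 + d ^ 2 := by
    rcases max_choice (max a b) (max c d) with h | h <;> rw [h]
    · rcases max_choice a b with h' | h' <;> rw [h']
      · calc a ^ 2 ≤ a ^ 2 + (b ^ 2 + c ^ 2 + d ^ 2) := le_self_add
          _ = _ := by ring
      · calc b ^ 2 ≤ b ^ 2 + (a ^ 2 + c ^ 2 + d ^ 2) := le_self_add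
          _ = _ := by ring
    · rcases max_choice c d with h' | h' <;> rw [h']
      · calc c ^ 2 ≤ c ^ 2 + (a ^ 2 + b ^ 2 + d ^ 2) := le_self_add
          _ = _ := by ring
      · calc d ^ 2 ≤ d ^ 2 + (a ^ 2 + b ^ 2 + c ^ 2) := le_self_add
          _ = _ := by ring
  calc (a + b + c + d) ^ 2 ≤ (4 * max (max a b) (max c d)) ^ 2 := pow_le_pow_left' h1 2
    _ = 16 * (max (max a b) (max c d)) ^ 2 := by ring
    _ ≤ _ := mul_le_mul_right h2 _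

private theorem tg_fin {a b c d : ℝ} (ha : 0 ≤ a) (hb : 0 ≤ b) (hc : 0 ≤ c) (hd : 0 ≤ d) :
    16 * (ENNReal.ofReal a + ENNReal.ofReal b + ENNReal.ofReal c + ENNReal.ofReal d) =
      ENNReal.ofReal (16 * (a + b + c + d)) := by
  rw [← ENNReal.ofReal_add ha hb, ← ENNReal.ofReal_add (add_nonneg ha hb) hc,
    ← ENNReal.ofReal_add (add_nonneg (add_nonneg ha hb) hc) hd,
    ENNReal.ofReal_mul (by norm_num : (0 : ℝ) ≤ 16), ENNReal.ofReal_ofNat]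

/-- the pointwise decay -/
private theorem tg_dec {a γ N x : ℝ} (ha : 1 < a) (hγ : γ ≤ 1 / 2) (hN : 1 ≤ N) (hx : N ≤ x) :
    (x ^ (-(2 * a))) ^ 2 ≤ N ^ (-γ) * (16 * (1 + x) ^ (-(7 / 2) : ℝ)) := by
  have hx1 : 1 ≤ x := hN.trans hx
  have hx0 : 0 < x := by linarith
  have h1 : (x ^ (-(2 * a))) ^ 2 = x ^ (-(4 * a)) := by
    rw [← Real.rpow_natCast, ← Real.rpow_mul hx0.le]
    congr 1
    push_cast
    ring
  have h2 : x ^ (-(4 * a)) ≤ x ^ (-(1 / 2) + -(7 / 2) : ℝ) :=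
    Real.rpow_le_rpow_of_exponent_le hx1 (by linarith)
  rw [Real.rpow_add hx0] at h2
  have h3 : x ^ (-(1 / 2) : ℝ) ≤ N ^ (-γ) :=
    (Real.rpow_le_rpow_of_nonpos (by linarith) hx (by norm_num)).trans
      (Real.rpow_le_rpow_of_exponent_le hN (by linarith))
  have h4 : x ^ (-(7 / 2) : ℝ) ≤ 16 * (1 + x) ^ (-(7 / 2) : ℝ) := by
    have h5 : x ^ (-(7 / 2) : ℝ) ≤ ((1 + x) / 2) ^ (-(7 / 2) : ℝ) :=
      Real.rpow_le_rpow_of_nonpos (by linarith) (by linarith) (by norm_num)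
    refine h5.trans ?_
    rw [Real.div_rpow (by linarith) (by norm_num), div_eq_mul_inv, mul_comm]
    refine mul_le_mul_of_nonneg_right ?_ (Real.rpow_nonneg (by linarith) _)
    rw [← Real.rpow_neg (by norm_num), neg_neg]
    calc (2 : ℝ) ^ (7 / 2 : ℝ) ≤ 2 ^ (4 : ℝ) :=
          Real.rpow_le_rpow_of_exponent_le (by norm_num) (by norm_num)
      _ = 16 := by norm_num
  rw [h1]
  refine h2.trans ?_
  exact mul_le_mul h3 h4 (Real.rpow_nonneg hx0.le _) (Real.rpow_nonneg (by linarith) _)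

/-- the algebra -/
private theorem tg_alg {w e a₁ b₁ a₂ b₂ : HS} {D0 D1 D2 : ℝ} (heB : Bd D0 e) (Ba₁ : Bd D1 a₁)
    (Bb₁ : Bd D2 b₁) :
    A3 w (e + (a₁ + b₁)) (e + (a₂ + b₂)) - A3 w e e =
      A3 w e a₂ + A3 w e a₁ + A3 w a₁ a₂ +
        (A3 w e b₂ + A3 w a₁ b₂ + A3 w e b₁ + A3 w b₁ (a₂ + b₂)) := by
  have t1 : A3 w (e + (a₁ + b₁)) (e + (a₂ + b₂)) =
      A3 w e (e + (a₂ + b₂)) + A3 w (a₁ + b₁) (e + (a₂ + b₂)) :=
    A3_add_left heB (Ba₁.add Bb₁)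
  have t2 : A3 w (a₁ + b₁) (e + (a₂ + b₂)) =
      A3 w a₁ (e + (a₂ + b₂)) + A3 w b₁ (e + (a₂ + b₂)) := A3_add_left Ba₁ Bb₁
  have t3 : A3 w e (e + (a₂ + b₂)) = A3 w e e + A3 w e (a₂ + b₂) := A3_add_right heB
  have t4 : A3 w e (a₂ + b₂) = A3 w e a₂ + A3 w e b₂ := A3_add_right heB
  have t5 : A3 w a₁ (e + (a₂ + b₂)) = A3 w a₁ e + A3 w a₁ (a₂ + b₂) := A3_add_right Ba₁
  have t6 : A3 w a₁ (a₂ + b₂) = A3 w a₁ a₂ + A3 w a₁ b₂ := A3_add_right Ba₁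
  have t7 : A3 w b₁ (e + (a₂ + b₂)) = A3 w b₁ e + A3 w b₁ (a₂ + b₂) := A3_add_right Bb₁
  have t8 : A3 w a₁ e = A3 w e a₁ := A3_comm w a₁ e
  have t9 : A3 w b₁ e = A3 w e b₁ := A3_comm w b₁ e
  rw [t1, t2, t3, t4, t5, t6, t7, t8, t9]
  ring

/-- the remainder -/
private theorem tg_rem {w e a₁ b₁ b₂ v₂ : HS} {D1 D2 n x y : ℝ} (heB : Bd 1 e) (Ba₁ : Bd D1 a₁)
    (Bb₁ : Bd D2 b₁) (hD1 : 0 ≤ D1) (hD2 : 0 ≤ D2) (hn : ‖w‖ ≤ n) (nb₁ : ‖b₁‖ ≤ x)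
    (nb₂ : ‖b₂‖ ≤ x) (nv₂ : ‖v₂‖ ≤ y) :
    ‖A3 w e b₂ + A3 w a₁ b₂ + A3 w e b₁ + A3 w b₁ v₂‖ ≤
      1 * n * x + D1 * n * x + 1 * n * x + D2 * n * y := by
  have hn0 : 0 ≤ n := (norm_nonneg _).trans hn
  have r1 : ‖A3 w e b₂‖ ≤ 1 * n * x :=
    (A3_norm zero_le_one heB).trans (mul_le_mul (mul_le_mul_of_nonneg_left hn zero_le_one) nb₂
      (norm_nonneg _) (by positivity))
  have r2 : ‖A3 w a₁ b₂‖ ≤ D1 * n * x :=
    (A3_norm hD1 Ba₁).trans (mul_le_mul (mul_le_mul_of_nonneg_left hn hD1) nb₂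
      (norm_nonneg _) (by positivity))
  have r3 : ‖A3 w e b₁‖ ≤ 1 * n * x :=
    (A3_norm zero_le_one heB).trans (mul_le_mul (mul_le_mul_of_nonneg_left hn zero_le_one) nb₁
      (norm_nonneg _) (by positivity))
  have r4 : ‖A3 w b₁ v₂‖ ≤ D2 * n * y :=
    (A3_norm hD2 Bb₁).trans (mul_le_mul (mul_le_mul_of_nonneg_left hn hD2) nv₂
      (norm_nonneg _) (by positivity))
  have q1 := norm_add_le (A3 w e b₂ + A3 w a₁ b₂ + A3 w e b₁) (A3 w b₁ v₂)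
  have q2 := norm_add_le (A3 w e b₂ + A3 w a₁ b₂) (A3 w e b₁)
  have q3 := norm_add_le (A3 w e b₂) (A3 w a₁ b₂)
  linarith

/-- the pieces of the field -/
private theorem tg_key {r M : ℝ} {A : HS →L[ℂ] HS} {c Cb o : ℝ} (hA : SymB r c A) (hc : c ≤ Cb)
    {V : E3 → ℂ} (hV : IsPot r M V) (hMA : M * ‖A‖ ≤ 1 / 2) {e : HS} (heo : ‖e‖ ≤ o) :
    ∃ b : HS, UK A V e = e + (A (mulL V e) + b) ∧ Bd (Cb * (M * o)) (A (mulL V e)) ∧
      Bd (Cb * (M * (‖A‖ * (M * (2 * o))))) b ∧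
      ‖b‖ ≤ ‖A‖ * (M * (‖A‖ * (M * (2 * o)))) ∧
      ‖A (mulL V e) + b‖ ≤ ‖A‖ * (M * (2 * o)) := by
  have hM : 0 ≤ M := hV.nonneg
  have hCb : 0 ≤ Cb := hA.nonneg.trans hc
  have ho0 : 0 ≤ o := (norm_nonneg _).trans heo
  have hn : ∀ f : HS, ‖mulL V f‖ ≤ M * ‖f‖ := fun f => ((mulL V).le_opNorm f).trans
      (mul_le_mul_of_nonneg_right (hV.norm_mulL hM) (norm_nonneg _))
  have hAn : ∀ f : HS, ‖A f‖ ≤ ‖A‖ * ‖f‖ := fun f => A.le_opNorm f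
  have hfix := UK_fix hV hMA e
  have hu : ‖UK A V e‖ ≤ 2 * o := (norm_UK_le hV hMA e).trans (by linarith)
  have hv : ‖A (mulL V (UK A V e))‖ ≤ ‖A‖ * (M * (2 * o)) :=
    (hAn _).trans (mul_le_mul_of_nonneg_left
      ((hn _).trans (mul_le_mul_of_nonneg_left hu hM)) (norm_nonneg _))
  have hsplit : A (mulL V (UK A V e)) =
      A (mulL V e) + A (mulL V (A (mulL V (UK A V e)))) := by
    have h1 : mulL V (UK A V e) = mulL V e + mulL V (A (mulL V (UK A V e))) := by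
      have h2 := congrArg (mulL V) hfix
      rw [map_add] at h2
      exact h2
    have h3 := congrArg A h1
    rw [map_add] at h3
    exact h3
  have hVv : ‖mulL V (A (mulL V (UK A V e)))‖ ≤ M * (‖A‖ * (M * (2 * o))) :=
    (hn _).trans (mul_le_mul_of_nonneg_left hv hM)
  refine ⟨A (mulL V (A (mulL V (UK A V e)))), ?_, ?_, ?_, ?_, ?_⟩
  · rw [← hsplit]
    exact hfix
  · refine (hA.bd _).mono ?_
    exact mul_le_mul hc ((hn _).trans (mul_le_mul_of_nonneg_left heo hM)) (norm_nonneg _) hCb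
  · refine (hA.bd _).mono ?_
    exact mul_le_mul hc hVv (norm_nonneg _) hCb
  · exact (hAn _).trans (mul_le_mul_of_nonneg_left hVv (norm_nonneg A))
  · rw [← hsplit]
    exact hv

/-- the algebra and the bounds for one frequency -/
private theorem tg_pt {r M : ℝ} {A : HS →L[ℂ] HS} {c : ℝ} (hA : SymB r c A) {V₁ V₂ : E3 → ℂ}
    (hV₁ : IsPot r M V₁) (hV₂ : IsPot r M V₂) (hMA : M * ‖A‖ ≤ 1 / 2) {w : HS} (hw : w ∈ HB r)
    {Cb : ℝ} (hc : c ≤ Cb) (ξ : E3) :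
    ‖A3 w (UK A V₁ (eH r ξ)) (UK A V₂ (eH r ξ)) - ftX w (-(2 : ℝ) • ξ)‖ₑ ≤
      ‖A3 w (eH r ξ) (A (mulL V₂ (eH r ξ)))‖ₑ + ‖A3 w (eH r ξ) (A (mulL V₁ (eH r ξ)))‖ₑ +
        ‖A3 w (A (mulL V₁ (eH r ξ))) (A (mulL V₂ (eH r ξ)))‖ₑ +
        ENNReal.ofReal ((2 * M ^ 2 * ‖oneB r‖ * (2 + Cb * M * ‖oneB r‖) +
          4 * Cb * M ^ 3 * ‖oneB r‖ ^ 2) * ‖w‖ * ‖A‖ ^ 2) := by
  have hM : 0 ≤ M := hV₁.nonneg
  have hCb : 0 ≤ Cb := hA.nonneg.trans hc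
  have heo : ‖eH r ξ‖ ≤ ‖oneB r‖ := norm_eH_le r ξ
  have heB : Bd 1 (eH r ξ) := eH_Bd r ξ
  obtain ⟨b₁, hu₁, Ba₁, Bb₁, nb₁, nv₁⟩ := tg_key hA hc hV₁ hMA heo
  obtain ⟨b₂, hu₂, Ba₂, Bb₂, nb₂, nv₂⟩ := tg_key hA hc hV₂ hMA heo
  rw [hu₁, hu₂, ← A3_ee hw ξ, tg_alg heB Ba₁ Bb₁]
  have hR := tg_rem heB Ba₁ Bb₁ (by positivity) (by positivity) (le_refl ‖w‖) nb₁ nb₂ nv₂
  have e1 : ‖A3 w (eH r ξ) b₂ + A3 w (A (mulL V₁ (eH r ξ))) b₂ + A3 w (eH r ξ) b₁ +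
      A3 w b₁ (A (mulL V₂ (eH r ξ)) + b₂)‖ₑ ≤
      ENNReal.ofReal ((2 * M ^ 2 * ‖oneB r‖ * (2 + Cb * M * ‖oneB r‖) +
          4 * Cb * M ^ 3 * ‖oneB r‖ ^ 2) * ‖w‖ * ‖A‖ ^ 2) := by
    rw [← ofReal_norm]
    refine ENNReal.ofReal_le_ofReal (hR.trans (le_of_eq ?_))
    ring
  refine (enorm_add_le _ _).trans (add_le_add ?_ e1)
  exact (enorm_add_le _ _).trans (add_le_add_left (enorm_add_le _ _) _)

theorem tight {s : ℝ} (h0 : 3 / 4 < s) (h2 : s < 2) (h1 : s ≠ 1) {r : ℝ} (hr : 0 < r)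
    {M K : ℝ} (hK : KOK s r M K) : ∃ C γ : ℝ, 0 ≤ C ∧ 0 < γ ∧ ∀ N : ℝ, K ≤ N →
      ∀ V₁ V₂ : E3 → ℂ, IsPot r M V₁ → IsPot r M V₂ → ∀ w ∈ HB r, ∃ G : E3 → ℝ≥0∞,
        Measurable G ∧ (∀ ξ : E3, N ≤ ‖ξ‖ →
          ‖A3 w (UA s r V₁ ξ) (UA s r V₂ ξ) - ftX w (-(2 : ℝ) • ξ)‖ₑ ≤ G ξ) ∧
        ∫⁻ ξ in {ξ : E3 | N ≤ ‖ξ‖}, G ξ ^ 2 ≤ ENNReal.ofReal (C * N ^ (-γ) * ‖w‖ ^ 2) := by
  obtain ⟨Ca, hCa0, hCa⟩ := AR_norm h0 h2 h1 hr
  obtain ⟨Cb, hCb0, hCb⟩ := aH_norm h0 h2 h1 hr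
  have hb := bE_pos h0 h1
  have ha := aE_gt h0 h1
  set γ : ℝ := min (1 / 2) (2 * bE s) with hγ
  have hγ0 : 0 < γ := lt_min (by norm_num) (by linarith)
  have hγ1 : γ ≤ 1 / 2 := min_le_left _ _
  have hγ2 : γ ≤ 2 * bE s := min_le_right _ _
  set o := ‖oneB r‖ with ho
  have ho0 : 0 ≤ o := norm_nonneg _
  set J : ℝ≥0∞ := ∫⁻ x : E3, ENNReal.ofReal ((1 + ‖x‖) ^ (-(7 / 2) : ℝ)) with hJ
  have hJfin : J < ∞ := by
    have := finite_integral_one_add_norm (E := E3) (μ := (volume : Measure E3)) (r := 7 / 2)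
      (by rw [finrank_euclideanSpace_fin]; norm_num)
    exact this
  set C4 : ℝ := (2 * M ^ 2 * o * (2 + Cb * M * o) + 4 * Cb * M ^ 3 * o ^ 2) * Ca ^ 2 with hC4
  refine ⟨16 * (2 * Cb ^ 2 * (M * o) ^ 2 + Cb ^ 4 * (M * o * (M * o)) ^ 2 +
    C4 ^ 2 * 16 * J.toReal), γ, by positivity, hγ0, ?_⟩
  intro N hN V₁ V₂ hV₁ hV₂ w hw
  have hM : 0 ≤ M := hV₁.nonneg
  have hN1 : 1 ≤ N := hK.one.trans hN
  have hN0 : 0 < N := by linarith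
  obtain ⟨G1, mG1, pG1, iG1⟩ := tightA h0 h2 h1 hr hV₁ hw
  obtain ⟨G2, mG2, pG2, iG2⟩ := tightA h0 h2 h1 hr hV₂ hw
  obtain ⟨G3, mG3, pG3, iG3⟩ := tightB h0 h2 h1 hr hV₁ hV₂ hw
  have hC40 : 0 ≤ C4 := by positivity
  set β : ℝ := N ^ (-(bE s)) with hβ
  have hβ0 : 0 ≤ β := Real.rpow_nonneg hN0.le _
  set q : ℝ := N ^ (-γ) with hq
  have hq0 : 0 ≤ q := Real.rpow_nonneg hN0.le _
  have hq1 : q ≤ 1 := Real.rpow_le_one_of_one_le_of_nonpos hN1 (by linarith)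
  have hβq : β ^ 2 ≤ q := by
    rw [hβ, hq, ← Real.rpow_natCast, ← Real.rpow_mul hN0.le]
    refine Real.rpow_le_rpow_of_exponent_le hN1 ?_
    push_cast
    linarith
  have hβ4 : β ^ 4 ≤ q := by
    calc β ^ 4 = (β ^ 2) ^ 2 := by ring
      _ ≤ q ^ 2 := pow_le_pow_left₀ (sq_nonneg _) hβq 2
      _ = q * q := sq q
      _ ≤ q * 1 := mul_le_mul_of_nonneg_left hq1 hq0
      _ = q := mul_one q
  have mG4 : Measurable fun ξ : E3 => ENNReal.ofReal (C4 * ‖w‖ * ‖ξ‖ ^ (-(2 * aE s))) := by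
    refine ENNReal.measurable_ofReal.comp ?_
    refine Measurable.const_mul ?_ _
    exact measurable_norm.pow_const _
  refine ⟨fun ξ => ENNReal.ofReal (Cb * β) * G2 ξ + ENNReal.ofReal (Cb * β) * G1 ξ +
    ENNReal.ofReal ((Cb * β) ^ 2) * G3 ξ + ENNReal.ofReal (C4 * ‖w‖ * ‖ξ‖ ^ (-(2 * aE s))),
    (((mG2.const_mul _).add (mG1.const_mul _)).add (mG3.const_mul _)).add mG4, ?_, ?_⟩
  · intro ξ hξ
    have hξ1 : 1 ≤ ‖ξ‖ := hN1.trans hξ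
    have hξ0 : 0 < ‖ξ‖ := by linarith
    have hSB := AR_SymB h0 h2 h1 hr hξ1
    have haH : ‖aH s r ξ‖ ≤ Cb * β := by
      refine (hCb ξ hξ1).trans (mul_le_mul_of_nonneg_left ?_ hCb0)
      exact Real.rpow_le_rpow_of_nonpos hN0 hξ (by linarith)
    have haH1 : ‖aH s r ξ‖ ≤ Cb := by
      refine haH.trans ?_
      have hβ1 : β ≤ 1 := Real.rpow_le_one_of_one_le_of_nonpos hN1 (by linarith)
      calc Cb * β ≤ Cb * 1 := mul_le_mul_of_nonneg_left hβ1 hCb0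
        _ = Cb := mul_one _
    have hp := tg_pt hSB hV₁ hV₂ (hK.ar ξ (hN.trans hξ)) hw haH1 ξ
    refine hp.trans (add_le_add (add_le_add (add_le_add ?_ ?_) ?_) ?_)
    · exact (pG2 ξ hξ1).trans (mul_le_mul_left (ENNReal.ofReal_le_ofReal haH) _)
    · exact (pG1 ξ hξ1).trans (mul_le_mul_left (ENNReal.ofReal_le_ofReal haH) _)
    · exact (pG3 ξ hξ1).trans (mul_le_mul_left (ENNReal.ofReal_le_ofReal
        (pow_le_pow_left₀ (norm_nonneg _) haH 2)) _)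
    · refine ENNReal.ofReal_le_ofReal ?_
      have h5 : ‖AR s r ξ‖ ^ 2 ≤ Ca ^ 2 * ‖ξ‖ ^ (-(2 * aE s)) := by
        refine (pow_le_pow_left₀ (norm_nonneg _) (hCa ξ hξ1) 2).trans (le_of_eq ?_)
        rw [mul_pow, ← Real.rpow_natCast (‖ξ‖ ^ (-(aE s))), ← Real.rpow_mul hξ0.le]
        congr 2
        push_cast
        ring
      refine (mul_le_mul_of_nonneg_left h5 (by positivity)).trans (le_of_eq ?_)
      rw [hC4]
      ring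
  · skip
    have hstep : ∫⁻ ξ in {ξ : E3 | N ≤ ‖ξ‖}, (ENNReal.ofReal (Cb * β) * G2 ξ +
        ENNReal.ofReal (Cb * β) * G1 ξ + ENNReal.ofReal ((Cb * β) ^ 2) * G3 ξ +
        ENNReal.ofReal (C4 * ‖w‖ * ‖ξ‖ ^ (-(2 * aE s)))) ^ 2 ≤
        ∫⁻ ξ : E3, 16 * ((ENNReal.ofReal (Cb * β)) ^ 2 * G2 ξ ^ 2 +
          (ENNReal.ofReal (Cb * β)) ^ 2 * G1 ξ ^ 2 +
          (ENNReal.ofReal ((Cb * β) ^ 2)) ^ 2 * G3 ξ ^ 2 +
          ENNReal.ofReal ((C4 * ‖w‖) ^ 2 * (q * 16)) *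
            ENNReal.ofReal ((1 + ‖ξ‖) ^ (-(7 / 2) : ℝ))) := by
      refine le_trans (lintegral_mono_ae ((ae_restrict_iff' (measurableSet_le measurable_const
        measurable_norm)).2 (Eventually.of_forall fun ξ hξ => ?_)))
        (setLIntegral_le_lintegral _ _)
      refine (tg_sq4 _ _ _ _).trans (mul_le_mul_right ?_ _)
      rw [mul_pow, mul_pow, mul_pow]
      refine add_le_add_right ?_ _
      rw [← ENNReal.ofReal_pow (by positivity), ← ENNReal.ofReal_mul (by positivity)]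
      refine ENNReal.ofReal_le_ofReal ?_
      rw [mul_pow]
      have h6 := tg_dec (a := aE s) ha hγ1 hN1 hξ
      refine (mul_le_mul_of_nonneg_left h6 (sq_nonneg _)).trans (le_of_eq ?_)
      rw [hq]
      ring
    refine hstep.trans ?_
    have m1 : Measurable fun ξ : E3 => (ENNReal.ofReal (Cb * β)) ^ 2 * G2 ξ ^ 2 :=
      (mG2.pow_const 2).const_mul _
    have m2 : Measurable fun ξ : E3 => (ENNReal.ofReal (Cb * β)) ^ 2 * G1 ξ ^ 2 :=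
      (mG1.pow_const 2).const_mul _
    have m3 : Measurable fun ξ : E3 => (ENNReal.ofReal ((Cb * β) ^ 2)) ^ 2 * G3 ξ ^ 2 :=
      (mG3.pow_const 2).const_mul _
    have m4 : Measurable fun ξ : E3 => ENNReal.ofReal ((C4 * ‖w‖) ^ 2 * (q * 16)) *
        ENNReal.ofReal ((1 + ‖ξ‖) ^ (-(7 / 2) : ℝ)) :=
      (ENNReal.measurable_ofReal.comp ((measurable_norm.const_add 1).pow_const _)).const_mul _
    rw [lintegral_const_mul' _ _ (by norm_num), lintegral_add_right _ m4,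
      lintegral_add_right _ m3, lintegral_add_right _ m2,
      lintegral_const_mul _ (mG2.pow_const 2), lintegral_const_mul _ (mG1.pow_const 2),
      lintegral_const_mul _ (mG3.pow_const 2),
      lintegral_const_mul' _ _ ENNReal.ofReal_ne_top, ← hJ]
    have nd : ∀ {V : E3 → ℂ}, IsPot r M V → ‖dH r V‖ ≤ M * o := fun hV => norm_dH_le hV
    have i1 : ∫⁻ ξ, G1 ξ ^ 2 ≤ ENNReal.ofReal ((M * o) ^ 2 * ‖w‖ ^ 2) := by
      refine iG1.trans (ENNReal.ofReal_le_ofReal ?_)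
      rw [mul_pow]
      exact mul_le_mul_of_nonneg_right (pow_le_pow_left₀ (norm_nonneg _) (nd hV₁) 2) (sq_nonneg _)
    have i2 : ∫⁻ ξ, G2 ξ ^ 2 ≤ ENNReal.ofReal ((M * o) ^ 2 * ‖w‖ ^ 2) := by
      refine iG2.trans (ENNReal.ofReal_le_ofReal ?_)
      rw [mul_pow]
      exact mul_le_mul_of_nonneg_right (pow_le_pow_left₀ (norm_nonneg _) (nd hV₂) 2) (sq_nonneg _)
    have i3 : ∫⁻ ξ, G3 ξ ^ 2 ≤ ENNReal.ofReal ((M * o * (M * o)) ^ 2 * ‖w‖ ^ 2) := by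
      refine iG3.trans (ENNReal.ofReal_le_ofReal ?_)
      rw [mul_pow]
      refine mul_le_mul_of_nonneg_right (pow_le_pow_left₀ (by positivity) ?_ 2) (sq_nonneg _)
      exact mul_le_mul (nd hV₁) (nd hV₂) (norm_nonneg _) (by positivity)
    have hJ0 : 0 ≤ J.toReal := ENNReal.toReal_nonneg
    have t1 : (ENNReal.ofReal (Cb * β)) ^ 2 * ∫⁻ ξ, G2 ξ ^ 2 ≤
        ENNReal.ofReal (Cb ^ 2 * q * ((M * o) ^ 2 * ‖w‖ ^ 2)) := by
      rw [← ENNReal.ofReal_pow (by positivity)]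
      refine (mul_le_mul_right i2 _).trans ?_
      rw [← ENNReal.ofReal_mul (by positivity)]
      refine ENNReal.ofReal_le_ofReal (mul_le_mul_of_nonneg_right ?_ (by positivity))
      rw [mul_pow]
      exact mul_le_mul_of_nonneg_left hβq (sq_nonneg _)
    have t2 : (ENNReal.ofReal (Cb * β)) ^ 2 * ∫⁻ ξ, G1 ξ ^ 2 ≤
        ENNReal.ofReal (Cb ^ 2 * q * ((M * o) ^ 2 * ‖w‖ ^ 2)) := by
      rw [← ENNReal.ofReal_pow (by positivity)]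
      refine (mul_le_mul_right i1 _).trans ?_
      rw [← ENNReal.ofReal_mul (by positivity)]
      refine ENNReal.ofReal_le_ofReal (mul_le_mul_of_nonneg_right ?_ (by positivity))
      rw [mul_pow]
      exact mul_le_mul_of_nonneg_left hβq (sq_nonneg _)
    have t3 : (ENNReal.ofReal ((Cb * β) ^ 2)) ^ 2 * ∫⁻ ξ, G3 ξ ^ 2 ≤
        ENNReal.ofReal (Cb ^ 4 * q * ((M * o * (M * o)) ^ 2 * ‖w‖ ^ 2)) := by
      rw [← ENNReal.ofReal_pow (by positivity)]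
      refine (mul_le_mul_right i3 _).trans ?_
      rw [← ENNReal.ofReal_mul (by positivity)]
      refine ENNReal.ofReal_le_ofReal (mul_le_mul_of_nonneg_right ?_ (by positivity))
      calc ((Cb * β) ^ 2) ^ 2 = Cb ^ 4 * β ^ 4 := by ring
        _ ≤ Cb ^ 4 * q := mul_le_mul_of_nonneg_left hβ4 (by positivity)
    have hw0 : 0 ≤ ‖w‖ := norm_nonneg _
    have hMo : 0 ≤ M * o := mul_nonneg hM ho0
    have z1 : 0 ≤ Cb ^ 2 * q * ((M * o) ^ 2 * ‖w‖ ^ 2) := by positivity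
    have z3 : 0 ≤ Cb ^ 4 * q * ((M * o * (M * o)) ^ 2 * ‖w‖ ^ 2) := by positivity
    have z4 : 0 ≤ (C4 * ‖w‖) ^ 2 * (q * 16) := by positivity
    have z5 : 0 ≤ (C4 * ‖w‖) ^ 2 * (q * 16) * J.toReal := mul_nonneg z4 hJ0
    have hJm : ENNReal.ofReal ((C4 * ‖w‖) ^ 2 * (q * 16)) * J =
        ENNReal.ofReal ((C4 * ‖w‖) ^ 2 * (q * 16) * J.toReal) := by
      rw [ENNReal.ofReal_mul z4, ENNReal.ofReal_toReal hJfin.ne]
    rw [hJm]
    refine (mul_le_mul_right (add_le_add (add_le_add (add_le_add t1 t2) t3) le_rfl) _).trans ?_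
    rw [tg_fin z1 z1 z3 z5]
    refine ENNReal.ofReal_le_ofReal (le_of_eq ?_)
    ring

end FracScatC

end
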