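import Pool.Agent.Lib.MP_6e2ba5_an.Dx.TailT
import Pool.Agent.Lib.MP_6e2ba5_an.Rx.OffN

/-! # The exterior formula

`ψ = multL (mI s τ) q`, `q = 0` and `ψ = 0` a.e. on the ball `B(x₀,ρ)`. For `τ' ≥ 1`, `τ' ≠ τ`, `z' = zt s τ'`: `mI s τ' · mI s τ = (mI s τ' - mI s τ)/(z' - z)`, so
`multL (mI s τ') ψ = (multL (mI s τ') q - ψ)/(z' - z)`. Claim: `‖z'² multL (mI s τ') ψ‖` on `T = B(x₀, ρ/2)` tends to `0` as
`τ' → ∞`: `ψ = 0` there, and `z'² multL (mI s τ') q` is bounded in `L²(T)` (the same argument as below with `q` in place of `ψ`: `q` vanishes on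
`B(x₀,ρ)`), the factor `1/(z'-z) → 0`. On the other hand `z'² multL (mI s τ') ψ → κ ∫ kf(x-x') ψ(x') dx'` in `L²(T)`:
split `ψ = ψ_L + (ψ - ψ_L)`, `ψ_L = 1_{‖x‖≤L} ψ` (integrable, bounded support at distance `≥ ρ/2` from `T`): `offN`
(`Rx/OffN.lean`). For `ψ - ψ_L`: for the integrable functions `1_{L<‖x‖≤n} ψ` the convolution formula
(`conv_sub` in `Rx/OffN.lean`, private: copy) and Cauchy-Schwarz with `tailT` give the pointwise bound `C (L - ‖x₀‖ - ρ)^(-(3+4s)/2) ‖ψ‖` on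
`T`, uniformly in `n`, `τ'`; let `n → ∞` (`multL` is continuous). The same bound for `kf`. So for a.e. `w ∈ T` the
integral `∫ kf(x-w) ψ(x) dx` vanishes (`κ ≠ 0`), and for all `w ∈ T` by continuity in `w` (`kf_lip`, or dominated convergence with
the majorant `C ‖x-x₀‖^(-3-2s) |ψ|` on `‖x-x₀‖ ≥ ρ`). -/

set_option autoImplicit false

open MeasureTheory Filter Topology Set
open scoped FourierTransform SchwartzMap InnerProductSpace ENNReal BoundedContinuousFunction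

noncomputable section

namespace FracScatC

open FracScat

/-- Cauchy-Schwarz -/
private theorem cs2 {a b : E3 → ℝ≥0∞} (ha : AEMeasurable a volume) (hb : AEMeasurable b volume) :
    (∫⁻ x, a x * b x) ^ 2 ≤ (∫⁻ x, a x ^ 2) * ∫⁻ x, b x ^ 2 := by
  have h1 := ENNReal.lintegral_mul_le_Lp_mul_Lq (volume : Measure E3)
    Real.HolderConjugate.two_two ha hb
  have e2 : ∀ t : ℝ≥0∞, (t ^ (1 / 2 : ℝ)) ^ 2 = t := fun t => by
    rw [← ENNReal.rpow_two, ← ENNReal.rpow_mul]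
    norm_num
  calc (∫⁻ x, a x * b x) ^ 2
      ≤ ((∫⁻ x, a x ^ (2 : ℝ)) ^ (1 / 2 : ℝ) * (∫⁻ x, b x ^ (2 : ℝ)) ^ (1 / 2 : ℝ)) ^ 2 :=
        pow_le_pow_left' h1 2
    _ = (∫⁻ x, a x ^ 2) * ∫⁻ x, b x ^ 2 := by
        rw [mul_pow, e2, e2]
        simp only [ENNReal.rpow_two]

private theorem lsq (u : HS) : ∫⁻ z, ‖(u : E3 → ℂ) z‖ₑ ^ 2 = ‖u‖ₑ ^ 2 := by
  have h2 : ∫⁻ η, ‖(u : E3 → ℂ) η‖ₑ ^ (2 : ℝ) = (eLpNorm (u : E3 → ℂ) 2 volume) ^ (2 : ℝ) := by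
    rw [eLpNorm_eq_lintegral_rpow_enorm_toReal two_ne_zero ENNReal.ofNat_ne_top,
      ← ENNReal.rpow_mul]
    simp
  rw [Lp.enorm_def, ← ENNReal.rpow_two, ← h2]
  apply lintegral_congr
  intro z
  rw [ENNReal.rpow_two]

private theorem sq3 (a b c : ℂ) :
    ‖a + b + c‖ₑ ^ 2 ≤ 3 * (‖a‖ₑ ^ 2 + (‖b‖ₑ ^ 2 + ‖c‖ₑ ^ 2)) := by
  have hs : ∀ z : ℂ, ‖z‖ₑ ^ 2 = ENNReal.ofReal (‖z‖ ^ 2) := fun z => by
    rw [← ofReal_norm, ENNReal.ofReal_pow (norm_nonneg _)]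
  have h4 : (3 : ℝ≥0∞) = ENNReal.ofReal 3 := by simp
  rw [hs, hs, hs, hs, ← ENNReal.ofReal_add (by positivity) (by positivity),
    ← ENNReal.ofReal_add (by positivity) (by positivity), h4,
    ← ENNReal.ofReal_mul (by norm_num)]
  apply ENNReal.ofReal_le_ofReal
  have h1 : ‖a + b + c‖ ≤ ‖a‖ + ‖b‖ + ‖c‖ :=
    (norm_add_le _ _).trans (add_le_add_left (norm_add_le _ _) _)
  have h0 := norm_nonneg (a + b + c)
  have h2 : ‖a + b + c‖ ^ 2 ≤ (‖a‖ + ‖b‖ + ‖c‖) ^ 2 := pow_le_pow_left₀ h0 h1 2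
  nlinarith [sq_nonneg (‖a‖ - ‖b‖), sq_nonneg (‖a‖ - ‖c‖), sq_nonneg (‖b‖ - ‖c‖)]

private theorem mfar (d : ℝ) : MeasurableSet {y : E3 | d ≤ ‖y‖} :=
  measurableSet_le measurable_const measurable_norm

/-- pointwise bound of a convolution with a far source -/
private theorem kb {k : E3 → ℂ} (hk : AEStronglyMeasurable k volume) (h : HS) {S : Set E3}
    (hS : ∀ᵐ x' ∂(volume : Measure E3), x' ∉ S → (h : E3 → ℂ) x' = 0) {x : E3} {d : ℝ}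
    (hd : ∀ x' ∈ S, d ≤ ‖x - x'‖) :
    ‖∫ x', k (x - x') * (h : E3 → ℂ) x'‖ₑ ^ 2 ≤
      (∫⁻ y in {y : E3 | d ≤ ‖y‖}, ‖k y‖ₑ ^ 2) * ‖h‖ₑ ^ 2 := by
  have hmp : MeasurePreserving (fun y : E3 => x - y) volume volume :=
    Measure.measurePreserving_sub_left volume x
  set kd : E3 → ℝ≥0∞ := {y : E3 | d ≤ ‖y‖}.indicator fun y => ‖k y‖ₑ with hkd
  have hkdm : AEMeasurable kd volume := hk.enorm.indicator (mfar d)
  have h1 : ‖∫ x', k (x - x') * (h : E3 → ℂ) x'‖ₑ ≤ ∫⁻ x', kd (x - x') * ‖(h : E3 → ℂ) x'‖ₑ := by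
    refine (enorm_integral_le_lintegral_enorm _).trans (lintegral_mono_ae ?_)
    filter_upwards [hS] with x' hx'
    rw [enorm_mul]
    by_cases hm : x' ∈ S
    · rw [hkd, indicator_of_mem (show x - x' ∈ {y : E3 | d ≤ ‖y‖} from hd x' hm)]
    · rw [hx' hm]
      simp
  refine (pow_le_pow_left' h1 2).trans ((cs2 (hkdm.comp_quasiMeasurePreserving
    hmp.quasiMeasurePreserving) (Lp.aestronglyMeasurable h).enorm).trans (le_of_eq ?_))
  rw [lsq]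
  congr 1
  simp only [Function.comp]
  rw [lintegral_sub_left_eq_self (fun y => kd y ^ 2) x, ← lintegral_indicator (mfar d)]
  refine lintegral_congr fun y => ?_
  by_cases hy : y ∈ {y : E3 | d ≤ ‖y‖}
  · rw [hkd, indicator_of_mem hy, indicator_of_mem hy]
  · rw [hkd, indicator_of_notMem hy, indicator_of_notMem hy]
    simp

/-- tail of the kernel -/
private theorem kft {s : ℝ} (h0 : 0 < s) : ∃ J : ℝ≥0∞, J < ⊤ ∧ ∀ d : ℝ, 0 < d →
    ∫⁻ y in {y : E3 | d ≤ ‖y‖}, ‖kf s y‖ₑ ^ 2 ≤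
      ENNReal.ofReal (d⁻¹ * (1 + d⁻¹) ^ (5 + 4 * s)) * J := by
  have hI : Integrable (fun y : E3 => (1 + ‖y‖) ^ (-(5 + 4 * s))) :=
    integrable_one_add_norm (by simp; linarith)
  refine ⟨∫⁻ y : E3, ENNReal.ofReal ((1 + ‖y‖) ^ (-(5 + 4 * s))), ?_, fun d hd => ?_⟩
  · have := hI.lintegral_lt_top
    exact this
  · rw [← lintegral_const_mul' _ _ ENNReal.ofReal_ne_top]
    refine (setLIntegral_mono' (mfar d) fun y hy => ?_).trans (setLIntegral_le_lintegral _ _)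
    have hy' : d ≤ ‖y‖ := hy
    have hyp : 0 < ‖y‖ := hd.trans_le hy'
    rw [← ENNReal.ofReal_mul (by positivity), ← ofReal_norm,
      ← ENNReal.ofReal_pow (norm_nonneg _)]
    apply ENNReal.ofReal_le_ofReal
    have e1 : ‖kf s y‖ ^ 2 = ‖y‖⁻¹ * ‖y‖ ^ (-(5 + 4 * s)) := by
      unfold kf
      rw [Complex.norm_real, Real.norm_of_nonneg (by positivity), ← Real.rpow_natCast,
        ← Real.rpow_mul hyp.le, ← Real.rpow_neg_one, ← Real.rpow_add hyp]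
      congr 1
      push_cast
      ring
    have e2 : ‖y‖ ^ (-(5 + 4 * s)) ≤ (1 + d⁻¹) ^ (5 + 4 * s) * (1 + ‖y‖) ^ (-(5 + 4 * s)) := by
      have e3 : 1 + ‖y‖ ≤ (1 + d⁻¹) * ‖y‖ := by
        have : 1 ≤ d⁻¹ * ‖y‖ := by
          rw [inv_mul_eq_div, le_div_iff₀ hd]
          linarith
        linarith
      have e4 : (1 + ‖y‖) ^ (5 + 4 * s) ≤ ((1 + d⁻¹) * ‖y‖) ^ (5 + 4 * s) :=
        Real.rpow_le_rpow (by positivity) e3 (by linarith)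
      rw [Real.mul_rpow (by positivity) hyp.le] at e4
      rw [Real.rpow_neg hyp.le, Real.rpow_neg (by positivity), ← div_eq_mul_inv,
        inv_eq_one_div, div_le_div_iff₀ (by positivity) (by positivity)]
      linarith
    rw [e1]
    have e5 : ‖y‖⁻¹ ≤ d⁻¹ := inv_anti₀ hd hy'
    calc ‖y‖⁻¹ * ‖y‖ ^ (-(5 + 4 * s))
        ≤ d⁻¹ * ((1 + d⁻¹) ^ (5 + 4 * s) * (1 + ‖y‖) ^ (-(5 + 4 * s))) :=
          mul_le_mul e5 e2 (by positivity) (by positivity)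
      _ = _ := by ring

private theorem kf_memLp {s : ℝ} (h0 : 0 < s) {d : ℝ} (hd : 0 < d) :
    MemLp ({y : E3 | d ≤ ‖y‖}.indicator (kf s)) 2 (volume : Measure E3) := by
  rw [memLp_indicator_iff_restrict (mfar d)]
  refine ⟨(kf_measurable s).aestronglyMeasurable, ?_⟩
  rw [eLpNorm_lt_top_iff_lintegral_rpow_enorm_lt_top (by norm_num) (by norm_num)]
  obtain ⟨J, hJ, hb⟩ := kft h0
  refine lt_of_le_of_lt ?_ ((hb d hd).trans_lt (ENNReal.mul_lt_top ENNReal.ofReal_lt_top hJ))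
  refine le_of_eq (lintegral_congr fun y => ?_)
  norm_num

/-- integrability of the convolution integrand -/
private theorem ik {s : ℝ} (h0 : 0 < s) (h : HS) {S : Set E3}
    (hS : ∀ᵐ x' ∂(volume : Measure E3), x' ∉ S → (h : E3 → ℂ) x' = 0) {x : E3} {d : ℝ}
    (hd0 : 0 < d) (hd : ∀ x' ∈ S, d ≤ ‖x - x'‖) :
    Integrable (fun x' => kf s (x - x') * (h : E3 → ℂ) x') := by
  have hmp : MeasurePreserving (fun y : E3 => x - y) volume volume :=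
    Measure.measurePreserving_sub_left volume x
  have h1 := (kf_memLp h0 hd0).comp_measurePreserving hmp
  have h2 := h1.integrable_mul (Lp.memLp h)
  refine h2.congr ?_
  filter_upwards [hS] with x' hx'
  simp only [Pi.mul_apply, Function.comp]
  by_cases hm : x' ∈ S
  · rw [indicator_of_mem (show x - x' ∈ {y : E3 | d ≤ ‖y‖} from hd x' hm)]
  · rw [hx' hm]
    simp

private theorem conv_sub {s : ℝ} (h0 : 3 / 4 < s) (h2 : s < 2) (h1 : s ≠ 1) {τ : ℝ} (hτ : 0 < τ)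
    {f : HS} (hf : Integrable (f : E3 → ℂ)) :
    (multL (mI s τ) f : E3 → ℂ) =ᵐ[volume] fun x => ∫ x', (GI s τ : E3 → ℂ) (x - x') *
      (f : E3 → ℂ) x' := by
  have hs : 0 < s := by linarith
  have e := multL_conv (mI_BM hs h2 h1 hτ) (FT_GI (mI_memLp h0 h2 h1 hτ)) hf
  filter_upwards [e] with x hx
  rw [hx]
  have := integral_sub_left_eq_self (fun z => (GI s τ : E3 → ℂ) z * (f : E3 → ℂ) (x - z)) volume x
  rw [← this]
  refine integral_congr_ae (Eventually.of_forall fun x' => ?_)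
  simp only [sub_sub_cancel]

private theorem indB_le (r : ℝ) (x : E3) : ‖indB r x‖ ≤ 1 := by
  unfold indB
  split_ifs <;> simp

private theorem tcut (h : HS) : Tendsto (fun n : ℕ => mulL (indB n) h) atTop (𝓝 h) := by
  rw [tendsto_iff_edist_tendsto_0]
  have h1 : Tendsto (fun n : ℕ => ∫⁻ x, ‖indB n x * (h : E3 → ℂ) x - (h : E3 → ℂ) x‖ₑ ^ 2) atTop
      (𝓝 0) := by
    have e0 : ∫⁻ _ : E3, (0 : ℝ≥0∞) = 0 := by simp
    rw [← e0]
    refine tendsto_lintegral_of_dominated_convergence' (fun x => ‖(h : E3 → ℂ) x‖ₑ ^ 2) ?_ ?_ ?_ ?_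
    · intro n
      exact ((((indB_BM n).1.mul (Lp.aestronglyMeasurable h)).sub
        (Lp.aestronglyMeasurable h)).enorm.pow_const 2)
    · intro n
      refine Eventually.of_forall fun x => pow_le_pow_left' ?_ 2
      unfold indB
      split_ifs
      · simp
      · simp
    · rw [lsq]
      exact ENNReal.pow_ne_top enorm_ne_top
    · refine Eventually.of_forall fun x => ?_
      refine tendsto_const_nhds.congr' ?_
      obtain ⟨N, hN⟩ := exists_nat_gt ‖x‖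
      filter_upwards [eventually_ge_atTop N] with n hn
      have : ‖x‖ < (n : ℝ) := hN.trans_le (by exact_mod_cast hn)
      simp [indB, this]
  have h2 : ∀ n : ℕ, edist (mulL (indB n) h) h =
      (∫⁻ x, ‖indB n x * (h : E3 → ℂ) x - (h : E3 → ℂ) x‖ₑ ^ 2) ^ (1 / 2 : ℝ) := by
    intro n
    have e1 : ∫⁻ x, ‖indB n x * (h : E3 → ℂ) x - (h : E3 → ℂ) x‖ₑ ^ 2 =
        ‖mulL (indB n) h - h‖ₑ ^ 2 := by
      rw [← lsq]
      refine lintegral_congr_ae ?_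
      filter_upwards [mulL_coe (indB_BM n) h, Lp.coeFn_sub (mulL (indB n) h) h] with x a b
      rw [b, Pi.sub_apply, a]
    rw [e1, edist_eq_enorm_sub, ← ENNReal.rpow_two, ← ENNReal.rpow_mul]
    norm_num
  simp only [h2]
  have h3 := (ENNReal.continuous_rpow_const (y := (1 / 2 : ℝ))).tendsto 0
  have h4 := h3.comp h1
  rw [ENNReal.zero_rpow_of_pos (by norm_num)] at h4
  exact h4

private theorem mT (x₀ : E3) (r : ℝ) : MeasurableSet {x : E3 | ‖x - x₀‖ < r} :=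
  measurableSet_lt (by fun_prop) measurable_const

private theorem vT (x₀ : E3) (r : ℝ) : volume {x : E3 | ‖x - x₀‖ < r} < ⊤ := by
  refine (measure_mono (?_ : _ ⊆ Metric.ball x₀ r)).trans_lt measure_ball_lt_top
  intro x hx
  rw [mem_ball_iff_norm]
  exact hx

/-- restriction to the ball, an operator -/
private def PT (x₀ : E3) (r : ℝ) : HS →L[ℂ] HS := ContinuousLinearMap.id ℂ HS - mulL (indF x₀ r)

private theorem PT_coe (x₀ : E3) (r : ℝ) (u : HS) :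
    (PT x₀ r u : E3 → ℂ) =ᵐ[volume] {x : E3 | ‖x - x₀‖ < r}.indicator (u : E3 → ℂ) := by
  have e : PT x₀ r u = u - mulL (indF x₀ r) u := rfl
  rw [e]
  filter_upwards [Lp.coeFn_sub u (mulL (indF x₀ r) u), mulL_coe (indF_BM x₀ r) u] with x a b
  rw [a, Pi.sub_apply, b]
  unfold indF
  by_cases h : ‖x - x₀‖ < r
  · rw [if_neg (not_le.2 h), indicator_of_mem (show x ∈ {x : E3 | ‖x - x₀‖ < r} from h)]
    simp
  · rw [if_pos (not_lt.1 h), indicator_of_notMem (show x ∉ {x : E3 | ‖x - x₀‖ < r} from h)]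
    simp

private theorem PT_sq (x₀ : E3) (r : ℝ) (u : HS) :
    ∫⁻ x in {x : E3 | ‖x - x₀‖ < r}, ‖(u : E3 → ℂ) x‖ₑ ^ 2 = ‖PT x₀ r u‖ₑ ^ 2 := by
  rw [← lsq, ← lintegral_indicator (mT x₀ r)]
  refine lintegral_congr_ae ?_
  filter_upwards [PT_coe x₀ r u] with x hx
  rw [hx]
  by_cases h : x ∈ {x : E3 | ‖x - x₀‖ < r}
  · rw [indicator_of_mem h, indicator_of_mem h]
  · rw [indicator_of_notMem h, indicator_of_notMem h]
    simp

private theorem cut_le (n : ℕ) (h : HS) : ‖mulL (indB n) h‖ₑ ≤ ‖h‖ₑ := by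
  rw [← ofReal_norm, ← ofReal_norm]
  apply ENNReal.ofReal_le_ofReal
  have h1 := (mulL (indB n)).le_opNorm h
  have h2 := norm_mulL_indB (n : ℝ)
  nlinarith [norm_nonneg h]

/-- the tail of the resolvent, integrable functions -/
private theorem mta {s : ℝ} (h0 : 3 / 4 < s) (h2 : s < 2) (h1 : s ≠ 1) {C : ℝ} {τ L : ℝ}
    (hτ : 0 < τ) (hC : ∫⁻ x in {x : E3 | L ≤ ‖x‖}, ‖zt s τ ^ 2 * (GI s τ : E3 → ℂ) x‖ₑ ^ 2 ≤
        ENNReal.ofReal (C * L ^ (-(3 + 4 * s)))) {x₀ : E3} {r : ℝ} {S : Set E3}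
    (hTS : ∀ x : E3, ‖x - x₀‖ < r → ∀ x' ∈ S, L ≤ ‖x - x'‖) (h : HS)
    (hi : Integrable (h : E3 → ℂ))
    (hS : ∀ᵐ x' ∂(volume : Measure E3), x' ∉ S → (h : E3 → ℂ) x' = 0) :
    ∫⁻ x in {x : E3 | ‖x - x₀‖ < r}, ‖(((zt s τ ^ 2) • multL (mI s τ) h : HS) : E3 → ℂ) x‖ₑ ^ 2 ≤
      ENNReal.ofReal (C * L ^ (-(3 + 4 * s))) * ‖h‖ₑ ^ 2 * volume {x : E3 | ‖x - x₀‖ < r} := by
  rw [← setLIntegral_const]
  refine lintegral_mono_ae ?_
  filter_upwards [ae_restrict_of_ae (conv_sub h0 h2 h1 hτ hi), ae_restrict_mem (mT x₀ r),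
    ae_restrict_of_ae (Lp.coeFn_smul (zt s τ ^ 2) (multL (mI s τ) h))] with x hx hxT hsm
  rw [hsm, Pi.smul_apply, hx, smul_eq_mul, ← integral_const_mul]
  have hk : AEStronglyMeasurable (fun x => zt s τ ^ 2 * (GI s τ : E3 → ℂ) x)
      (volume : Measure E3) := (Lp.aestronglyMeasurable (GI s τ)).const_mul _
  have h3 := kb hk h hS (x := x) (d := L) (hTS x hxT)
  simp only [← mul_assoc]
  refine h3.trans ?_
  gcongr

private theorem mt {s : ℝ} (h0 : 3 / 4 < s) (h2 : s < 2) (h1 : s ≠ 1) {C : ℝ} {τ L : ℝ}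
    (hτ : 0 < τ) (hC : ∫⁻ x in {x : E3 | L ≤ ‖x‖}, ‖zt s τ ^ 2 * (GI s τ : E3 → ℂ) x‖ₑ ^ 2 ≤
        ENNReal.ofReal (C * L ^ (-(3 + 4 * s)))) {x₀ : E3} {r : ℝ} {S : Set E3}
    (hTS : ∀ x : E3, ‖x - x₀‖ < r → ∀ x' ∈ S, L ≤ ‖x - x'‖) (h : HS)
    (hS : ∀ᵐ x' ∂(volume : Measure E3), x' ∉ S → (h : E3 → ℂ) x' = 0) :
    ∫⁻ x in {x : E3 | ‖x - x₀‖ < r}, ‖(((zt s τ ^ 2) • multL (mI s τ) h : HS) : E3 → ℂ) x‖ₑ ^ 2 ≤
      ENNReal.ofReal (C * L ^ (-(3 + 4 * s))) * ‖h‖ₑ ^ 2 * volume {x : E3 | ‖x - x₀‖ < r} := by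
  have hn : ∀ n : ℕ, ‖PT x₀ r ((zt s τ ^ 2) • multL (mI s τ) (mulL (indB n) h))‖ₑ ^ 2 ≤
      ENNReal.ofReal (C * L ^ (-(3 + 4 * s))) * ‖h‖ₑ ^ 2 * volume {x : E3 | ‖x - x₀‖ < r} := by
    intro n
    rw [← PT_sq]
    refine (mta h0 h2 h1 hτ hC hTS (mulL (indB n) h) (integrable_of_indB (indB_idem n h)) ?_).trans
      ?_
    · filter_upwards [hS, mulL_coe (indB_BM n) h] with x hx hx2 hm
      rw [hx2, hx hm, mul_zero]
    · have := cut_le n h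
      gcongr
  rw [PT_sq]
  have hcont : Continuous fun g : HS => ‖PT x₀ r ((zt s τ ^ 2) • multL (mI s τ) g)‖ₑ ^ 2 := by
    have c0 : Continuous fun g : HS => (zt s τ ^ 2) • multL (mI s τ) g :=
      (multL (mI s τ)).continuous.const_smul (zt s τ ^ 2)
    have c1 : Continuous fun g : HS => PT x₀ r ((zt s τ ^ 2) • multL (mI s τ) g) :=
      (PT x₀ r).continuous.comp c0
    exact (ENNReal.continuous_pow 2).comp c1.enorm
  exact le_of_tendsto ((hcont.tendsto h).comp (tcut h)) (Eventually.of_forall hn)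

private theorem tU {s : ℝ} (h0 : 0 < s) (C : ℝ) {J a b k : ℝ≥0∞} (hJ : J < ⊤) (ha : a < ⊤)
    (hb : b < ⊤) (hk : k < ⊤) :
    Tendsto (fun L : ℝ => 3 * (ENNReal.ofReal (C * L ^ (-(3 + 4 * s))) * a * b +
      k * ((ENNReal.ofReal (L⁻¹ * (1 + L⁻¹) ^ (5 + 4 * s)) * J) * a) * b)) atTop (𝓝 0) := by
  have t1 : Tendsto (fun L : ℝ => ENNReal.ofReal (C * L ^ (-(3 + 4 * s)))) atTop (𝓝 0) := by
    have := (tendsto_rpow_neg_atTop (y := 3 + 4 * s) (by linarith)).const_mul C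
    rw [mul_zero] at this
    have h := ENNReal.tendsto_ofReal this
    rwa [ENNReal.ofReal_zero] at h
  have t2 : Tendsto (fun L : ℝ => ENNReal.ofReal (L⁻¹ * (1 + L⁻¹) ^ (5 + 4 * s))) atTop (𝓝 0) := by
    have a1 : Tendsto (fun L : ℝ => L⁻¹) atTop (𝓝 0) := tendsto_inv_atTop_zero
    have a2 : Tendsto (fun L : ℝ => (1 + L⁻¹) ^ (5 + 4 * s)) atTop (𝓝 ((1 + 0) ^ (5 + 4 * s))) :=
      (tendsto_const_nhds.add a1).rpow_const (Or.inl (by norm_num))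
    have a3 := a1.mul a2
    rw [zero_mul] at a3
    have h := ENNReal.tendsto_ofReal a3
    rwa [ENNReal.ofReal_zero] at h
  have m1 := ENNReal.Tendsto.mul_const (ENNReal.Tendsto.mul_const t1 (Or.inr ha.ne)) (Or.inr hb.ne)
  have m2 := ENNReal.Tendsto.mul_const (ENNReal.Tendsto.const_mul
    (ENNReal.Tendsto.mul_const (ENNReal.Tendsto.mul_const t2 (Or.inr hJ.ne)) (Or.inr ha.ne))
    (Or.inr hk.ne)) (Or.inr hb.ne)
  have m3 := ENNReal.Tendsto.const_mul (m1.add m2) (Or.inr (ENNReal.ofNat_ne_top (n := 3)))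
  simpa using m3

private theorem elim {s : ℝ} (h0 : 3 / 4 < s) (h2 : s < 2) (h1 : s ≠ 1) {κ : ℂ}
    (hκ : ∀ δ R : ℝ, 0 < δ → ∃ η : ℝ → ℝ, (∀ τ, 0 ≤ η τ) ∧ Tendsto η atTop (𝓝 0) ∧
      ∀ τ : ℝ, 1 ≤ τ → ∀ f : HS, Integrable (f : E3 → ℂ) → ∀ S T : Set E3, MeasurableSet S →
        MeasurableSet T → (∀ᵐ x ∂(volume : Measure E3), x ∉ S → (f : E3 → ℂ) x = 0) →
        (∀ x ∈ T, ∀ x' ∈ S, δ ≤ ‖x - x'‖ ∧ ‖x - x'‖ ≤ R) →
        ∫⁻ x in T, ‖zt s τ ^ 2 * (multL (mI s τ) f : E3 → ℂ) x -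
            κ * ∫ x', kf s (x - x') * (f : E3 → ℂ) x'‖ₑ ^ 2 ≤
          ENNReal.ofReal (η τ) * (∫⁻ x, ‖(f : E3 → ℂ) x‖ₑ) ^ 2)
    {x₀ : E3} {ρ : ℝ} (hρ : 0 < ρ) (f : HS)
    (hf : ∀ᵐ x ∂(volume : Measure E3), ‖x - x₀‖ < ρ → (f : E3 → ℂ) x = 0) :
    Tendsto (fun τ : ℝ => ∫⁻ x in {x : E3 | ‖x - x₀‖ < ρ / 2},
      ‖zt s τ ^ 2 * (multL (mI s τ) f : E3 → ℂ) x -
        κ * ∫ x', kf s (x - x') * (f : E3 → ℂ) x'‖ₑ ^ 2) atTop (𝓝 0) := by
  have hs : 0 < s := by linarith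
  obtain ⟨C, hC0, hC⟩ := tailT h0 h2 h1
  obtain ⟨J, hJ, hkft⟩ := kft hs
  have hfl : ‖f‖ₑ ^ 2 < ⊤ := ENNReal.pow_lt_top enorm_lt_top
  have hkl : ‖κ‖ₑ ^ 2 < ⊤ := ENNReal.pow_lt_top enorm_lt_top
  have hU := tU hs C hJ hfl (vT x₀ (ρ / 2)) hkl
  rw [ENNReal.tendsto_nhds_zero]
  intro ε hε
  have hε2 : 0 < ε / 2 := ENNReal.half_pos hε.ne'
  obtain ⟨L, hUL, hL1⟩ := ((ENNReal.tendsto_nhds_zero.1 hU (ε / 2) hε2).and
    (eventually_ge_atTop (1 : ℝ))).exists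
  set N : ℝ := L + ‖x₀‖ + ρ with hN
  set fL : HS := mulL (indB N) f with hfL
  set g : HS := f - fL with hg
  have hfLc : (fL : E3 → ℂ) =ᵐ[volume] fun x => indB N x * (f : E3 → ℂ) x :=
    mulL_coe (indB_BM N) f
  have hgc : (g : E3 → ℂ) =ᵐ[volume] fun x => (f : E3 → ℂ) x - (fL : E3 → ℂ) x :=
    Lp.coeFn_sub f fL
  have hfLi : Integrable (fL : E3 → ℂ) := integrable_of_indB (indB_idem N f)
  have hS2 : ∀ᵐ x' ∂(volume : Measure E3), x' ∉ {x : E3 | N ≤ ‖x‖} → (g : E3 → ℂ) x' = 0 := by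
    filter_upwards [hfLc, hgc] with x a b hm
    have hm' : ‖x‖ < N := not_le.1 hm
    rw [b, a]
    simp [indB, hm']
  have hS1 : ∀ᵐ x' ∂(volume : Measure E3), x' ∉ {x : E3 | ρ ≤ ‖x - x₀‖ ∧ ‖x‖ ≤ N} →
      (fL : E3 → ℂ) x' = 0 := by
    filter_upwards [hfLc, hf] with x a b hm
    rw [a]
    by_cases h3 : ‖x - x₀‖ < ρ
    · rw [b h3, mul_zero]
    · have h4 : ¬ ‖x‖ < N := fun h5 => hm ⟨not_lt.1 h3, h5.le⟩
      simp [indB, h4]
  have hgle : ‖g‖ₑ ^ 2 ≤ ‖f‖ₑ ^ 2 := by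
    rw [← lsq, ← lsq]
    refine lintegral_mono_ae ?_
    filter_upwards [hfLc, hgc] with x a b
    rw [b, a]
    unfold indB
    split_ifs
    · simp
    · simp
  have hT2 : ∀ x : E3, ‖x - x₀‖ < ρ / 2 → ∀ x' ∈ {x : E3 | N ≤ ‖x‖}, L ≤ ‖x - x'‖ := by
    intro x hx x' hx'
    have h3 : N ≤ ‖x'‖ := hx'
    have h4 : ‖x'‖ ≤ ‖x - x'‖ + (‖x - x₀‖ + ‖x₀‖) := by
      have e : x' = -(x - x') + ((x - x₀) + x₀) := by abel
      calc ‖x'‖ = ‖-(x - x') + ((x - x₀) + x₀)‖ := by rw [← e]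
        _ ≤ ‖-(x - x')‖ + ‖(x - x₀) + x₀‖ := norm_add_le _ _
        _ ≤ ‖x - x'‖ + (‖x - x₀‖ + ‖x₀‖) := by
            rw [norm_neg]
            exact add_le_add_right (norm_add_le _ _) _
    linarith
  have hT1 : ∀ x ∈ {x : E3 | ‖x - x₀‖ < ρ / 2}, ∀ x' ∈ {x : E3 | ρ ≤ ‖x - x₀‖ ∧ ‖x‖ ≤ N},
      ρ / 2 ≤ ‖x - x'‖ ∧ ‖x - x'‖ ≤ N + ‖x₀‖ + ρ := by
    intro x hx x' hx'
    have hx1 : ‖x - x₀‖ < ρ / 2 := hx
    have h3 : ρ ≤ ‖x' - x₀‖ := hx'.1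
    have h4 : ‖x'‖ ≤ N := hx'.2
    constructor
    · have h5 : ‖x' - x₀‖ ≤ ‖x - x'‖ + ‖x - x₀‖ := by
        have e : x' - x₀ = -(x - x') + (x - x₀) := by abel
        rw [e]
        refine (norm_add_le _ _).trans ?_
        rw [norm_neg]
      linarith
    · have h5 : ‖x - x'‖ ≤ ‖x - x₀‖ + (‖x₀‖ + ‖x'‖) := by
        have e : x - x' = (x - x₀) + (x₀ - x') := by abel
        rw [e]
        exact (norm_add_le _ _).trans (add_le_add_right (norm_sub_le _ _) _)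
      linarith
  obtain ⟨η, hη0, hη, hηb⟩ := hκ (ρ / 2) (N + ‖x₀‖ + ρ) (by linarith)
  have hmS1 : MeasurableSet {x : E3 | ρ ≤ ‖x - x₀‖ ∧ ‖x‖ ≤ N} := by
    have m1 : MeasurableSet {x : E3 | ρ ≤ ‖x - x₀‖} := measurableSet_le measurable_const (by fun_prop)
    exact m1.inter (measurableSet_le measurable_norm measurable_const)
  have hfLfin : (∫⁻ x, ‖(fL : E3 → ℂ) x‖ₑ) ^ 2 ≠ ⊤ := ENNReal.pow_ne_top hfLi.2.ne
  have hηt : Tendsto (fun τ : ℝ => 3 * (ENNReal.ofReal (η τ) * (∫⁻ x, ‖(fL : E3 → ℂ) x‖ₑ) ^ 2))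
      atTop (𝓝 0) := by
    have a1 := ENNReal.tendsto_ofReal hη
    rw [ENNReal.ofReal_zero] at a1
    have a2 := ENNReal.Tendsto.const_mul (ENNReal.Tendsto.mul_const a1 (Or.inr hfLfin))
      (Or.inr (ENNReal.ofNat_ne_top (n := 3)))
    simpa using a2
  filter_upwards [ENNReal.tendsto_nhds_zero.1 hηt (ε / 2) hε2, eventually_ge_atTop (1 : ℝ)]
    with τ hτ1 hτ2
  have hτ0 : 0 < τ := by linarith
  have hA := mt h0 h2 h1 hτ0 (hC τ L hτ2 hL1) hT2 g hS2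
  have hE := hηb τ hτ2 fL hfLi _ {x : E3 | ‖x - x₀‖ < ρ / 2} hmS1 (mT x₀ (ρ / 2)) hS1 hT1
  have hpt : ∀ᵐ x ∂(volume.restrict {x : E3 | ‖x - x₀‖ < ρ / 2}),
      ‖zt s τ ^ 2 * (multL (mI s τ) f : E3 → ℂ) x -
        κ * ∫ x', kf s (x - x') * (f : E3 → ℂ) x'‖ₑ ^ 2 ≤
      3 * (‖zt s τ ^ 2 * (multL (mI s τ) fL : E3 → ℂ) x -
        κ * ∫ x', kf s (x - x') * (fL : E3 → ℂ) x'‖ₑ ^ 2 +
        (‖(((zt s τ ^ 2) • multL (mI s τ) g : HS) : E3 → ℂ) x‖ₑ ^ 2 +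
          ‖κ‖ₑ ^ 2 * ((ENNReal.ofReal (L⁻¹ * (1 + L⁻¹) ^ (5 + 4 * s)) * J) * ‖f‖ₑ ^ 2))) := by
    have ef : f = fL + g := by rw [hg]; abel
    have em : multL (mI s τ) f = multL (mI s τ) fL + multL (mI s τ) g := by
      rw [← map_add, ← ef]
    filter_upwards [ae_restrict_mem (mT x₀ (ρ / 2)),
      ae_restrict_of_ae (Lp.coeFn_add (multL (mI s τ) fL) (multL (mI s τ) g)),
      ae_restrict_of_ae (Lp.coeFn_smul (zt s τ ^ 2) (multL (mI s τ) g))] with x hxT ha hsm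
    have i1 := ik hs fL hS1 (x := x) (d := ρ / 2) (by linarith) fun x' hx' => (hT1 x hxT x' hx').1
    have i2 := ik hs g hS2 (x := x) (d := L) (by linarith) (hT2 x hxT)
    have i3 : ∫ x', kf s (x - x') * (f : E3 → ℂ) x' =
        (∫ x', kf s (x - x') * (fL : E3 → ℂ) x') + ∫ x', kf s (x - x') * (g : E3 → ℂ) x' := by
      rw [← integral_add i1 i2]
      refine integral_congr_ae ?_
      filter_upwards [hgc] with x' hx'
      rw [hx']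
      ring
    have i4 : ‖κ * ∫ x', kf s (x - x') * (g : E3 → ℂ) x'‖ₑ ^ 2 ≤
        ‖κ‖ₑ ^ 2 * ((ENNReal.ofReal (L⁻¹ * (1 + L⁻¹) ^ (5 + 4 * s)) * J) * ‖f‖ₑ ^ 2) := by
      rw [enorm_mul, mul_pow]
      have h5 := kb (kf_measurable s).aestronglyMeasurable g hS2 (x := x) (d := L) (hT2 x hxT)
      have h6 := hkft L (by linarith)
      refine mul_le_mul_right (h5.trans ?_) _
      gcongr
    have i5 : zt s τ ^ 2 * (multL (mI s τ) f : E3 → ℂ) x -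
        κ * ∫ x', kf s (x - x') * (f : E3 → ℂ) x' =
        (zt s τ ^ 2 * (multL (mI s τ) fL : E3 → ℂ) x -
          κ * ∫ x', kf s (x - x') * (fL : E3 → ℂ) x') +
        (((zt s τ ^ 2) • multL (mI s τ) g : HS) : E3 → ℂ) x +
        (-(κ * ∫ x', kf s (x - x') * (g : E3 → ℂ) x')) := by
      rw [em, ha, hsm, i3, Pi.add_apply, Pi.smul_apply, smul_eq_mul]
      ring
    rw [i5]
    refine (sq3 _ _ _).trans ?_
    rw [enorm_neg]
    gcongr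
  have hmb : AEMeasurable (fun x => ‖(((zt s τ ^ 2) • multL (mI s τ) g : HS) : E3 → ℂ) x‖ₑ ^ 2 +
      ‖κ‖ₑ ^ 2 * ((ENNReal.ofReal (L⁻¹ * (1 + L⁻¹) ^ (5 + 4 * s)) * J) * ‖f‖ₑ ^ 2))
      (volume.restrict {x : E3 | ‖x - x₀‖ < ρ / 2}) :=
    (((Lp.aestronglyMeasurable _).enorm.pow_const 2).add_const _).restrict
  refine (lintegral_mono_ae hpt).trans ?_
  rw [lintegral_const_mul' _ _ (ENNReal.ofNat_ne_top (n := 3)), lintegral_add_right' _ hmb,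
    lintegral_add_right _ measurable_const, setLIntegral_const]
  calc 3 * ((∫⁻ x in {x : E3 | ‖x - x₀‖ < ρ / 2}, ‖zt s τ ^ 2 * (multL (mI s τ) fL : E3 → ℂ) x -
        κ * ∫ x', kf s (x - x') * (fL : E3 → ℂ) x'‖ₑ ^ 2) +
        ((∫⁻ x in {x : E3 | ‖x - x₀‖ < ρ / 2},
          ‖(((zt s τ ^ 2) • multL (mI s τ) g : HS) : E3 → ℂ) x‖ₑ ^ 2) +
          ‖κ‖ₑ ^ 2 * ((ENNReal.ofReal (L⁻¹ * (1 + L⁻¹) ^ (5 + 4 * s)) * J) * ‖f‖ₑ ^ 2) *
            volume {x : E3 | ‖x - x₀‖ < ρ / 2}))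
      ≤ 3 * (ENNReal.ofReal (η τ) * (∫⁻ x, ‖(fL : E3 → ℂ) x‖ₑ) ^ 2 +
        (ENNReal.ofReal (C * L ^ (-(3 + 4 * s))) * ‖f‖ₑ ^ 2 *
            volume {x : E3 | ‖x - x₀‖ < ρ / 2} +
          ‖κ‖ₑ ^ 2 * ((ENNReal.ofReal (L⁻¹ * (1 + L⁻¹) ^ (5 + 4 * s)) * J) * ‖f‖ₑ ^ 2) *
            volume {x : E3 | ‖x - x₀‖ < ρ / 2})) := by
        have hA2 := hA.trans (show ENNReal.ofReal (C * L ^ (-(3 + 4 * s))) * ‖g‖ₑ ^ 2 *
            volume {x : E3 | ‖x - x₀‖ < ρ / 2} ≤ ENNReal.ofReal (C * L ^ (-(3 + 4 * s))) *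
            ‖f‖ₑ ^ 2 * volume {x : E3 | ‖x - x₀‖ < ρ / 2} by gcongr)
        gcongr
    _ ≤ ε / 2 + ε / 2 := by
        rw [mul_add]
        exact add_le_add hτ1 hUL
    _ = ε := ENNReal.add_halves ε

/-- the resolvent identity -/
private theorem res_id {s : ℝ} (h0 : 0 < s) (h2 : s < 2) (h1 : s ≠ 1) {τ τ' : ℝ} (hτ : 0 < τ)
    (hτ' : 0 < τ') (hne : zt s τ' - zt s τ ≠ 0) (q : HS) :
    multL (mI s τ') (multL (mI s τ) q) =
      (zt s τ' - zt s τ)⁻¹ • (multL (mI s τ') q - multL (mI s τ) q) := by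
  obtain ⟨c, hc, hsym⟩ := symI h0 h2 h1
  have hnz : ∀ (t : ℝ), 0 < t → ∀ ξ : E3, aS s ξ - zt s t ≠ 0 := by
    intro t ht ξ h
    have hpi := Real.pi_pos
    have h3 := hsym t ht ((2 * Real.pi * ‖ξ‖) ^ (2 * s)) (by positivity)
    unfold aS at h
    rw [h, norm_zero] at h3
    have h4 : 0 < t ^ (2 * s) := Real.rpow_pos_of_pos ht _
    have h5 : 0 ≤ (2 * Real.pi * ‖ξ‖) ^ (2 * s) := by positivity
    nlinarith
  rw [multL_multL (mI_BM h0 h2 h1 hτ') (mI_BM h0 h2 h1 hτ)]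
  have e : (fun ξ : E3 => mI s τ' ξ * mI s τ ξ) =
      fun ξ => (zt s τ' - zt s τ)⁻¹ * (mI s τ' ξ - mI s τ ξ) := by
    funext ξ
    rw [mI_eq, mI_eq]
    have a1 := hnz τ hτ ξ
    have a2 := hnz τ' hτ' ξ
    field_simp
    ring
  rw [e, multL_const_mul _ ((mI_BM h0 h2 h1 hτ').sub (mI_BM h0 h2 h1 hτ)),
    multL_sub (mI_BM h0 h2 h1 hτ') (mI_BM h0 h2 h1 hτ), _root_.smul_apply, _root_.sub_apply]

private theorem tinv {s : ℝ} (h0 : 0 < s) (τ : ℝ) :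
    Tendsto (fun τ' : ℝ => ‖(zt s τ' - zt s τ)⁻¹‖ₑ ^ 2) atTop (𝓝 0) := by
  have h1 : Tendsto (fun τ' : ℝ => ‖zt s τ' - zt s τ‖) atTop atTop := by
    have a1 : Tendsto (fun τ' : ℝ => τ' ^ (2 * s) - ‖zt s τ‖) atTop atTop :=
      tendsto_atTop_add_const_right _ _ (tendsto_rpow_atTop (by linarith))
    refine tendsto_atTop_mono' _ ?_ a1
    filter_upwards [eventually_gt_atTop (0 : ℝ)] with t ht
    rw [← zt_norm ht]
    exact norm_sub_norm_le _ _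
  have h2 : Tendsto (fun τ' : ℝ => ENNReal.ofReal (‖zt s τ' - zt s τ‖⁻¹)) atTop (𝓝 0) := by
    have := ENNReal.tendsto_ofReal (tendsto_inv_atTop_zero.comp h1)
    rwa [ENNReal.ofReal_zero] at this
  have h3 := ((ENNReal.continuous_pow 2).tendsto 0).comp h2
  have e0 : (0 : ℝ≥0∞) ^ 2 = 0 := by simp
  rw [e0] at h3
  refine h3.congr fun t => ?_
  simp only [Function.comp]
  rw [← norm_inv, ofReal_norm]

private theorem supp_c {f : HS} {x₀ : E3} {ρ : ℝ}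
    (hf : ∀ᵐ x ∂(volume : Measure E3), ‖x - x₀‖ < ρ → (f : E3 → ℂ) x = 0) :
    ∀ᵐ x' ∂(volume : Measure E3), x' ∉ {x : E3 | ρ ≤ ‖x - x₀‖} → (f : E3 → ℂ) x' = 0 := by
  filter_upwards [hf] with x hx hm
  exact hx (not_le.1 hm)

private theorem supp_d {x₀ : E3} {ρ : ℝ} {x : E3} (hx : ‖x - x₀‖ < ρ / 2) :
    ∀ x' ∈ {x : E3 | ρ ≤ ‖x - x₀‖}, ρ / 2 ≤ ‖x - x'‖ := by
  intro x' hx'
  have h3 : ρ ≤ ‖x' - x₀‖ := hx'
  have h5 : ‖x' - x₀‖ ≤ ‖x - x'‖ + ‖x - x₀‖ := by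
    have e : x' - x₀ = -(x - x') + (x - x₀) := by abel
    rw [e]
    refine (norm_add_le _ _).trans ?_
    rw [norm_neg]
  linarith

private theorem If_fin {s : ℝ} (h0 : 0 < s) {f : HS} {x₀ : E3} {ρ : ℝ} (hρ : 0 < ρ)
    (hf : ∀ᵐ x ∂(volume : Measure E3), ‖x - x₀‖ < ρ → (f : E3 → ℂ) x = 0) (κ : ℂ) :
    ∫⁻ x in {x : E3 | ‖x - x₀‖ < ρ / 2}, ‖κ * ∫ x', kf s (x - x') * (f : E3 → ℂ) x'‖ₑ ^ 2 < ⊤ := by
  obtain ⟨J, hJ, hkft⟩ := kft h0
  have hb : ∀ x ∈ {x : E3 | ‖x - x₀‖ < ρ / 2},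
      ‖κ * ∫ x', kf s (x - x') * (f : E3 → ℂ) x'‖ₑ ^ 2 ≤
      ‖κ‖ₑ ^ 2 * ((ENNReal.ofReal ((ρ / 2)⁻¹ * (1 + (ρ / 2)⁻¹) ^ (5 + 4 * s)) * J) *
        ‖f‖ₑ ^ 2) := by
    intro x hx
    rw [enorm_mul, mul_pow]
    have h5 := kb (kf_measurable s).aestronglyMeasurable f (supp_c hf) (x := x) (d := ρ / 2)
      (supp_d hx)
    have h6 := hkft (ρ / 2) (by linarith)
    refine mul_le_mul_right (h5.trans ?_) _
    gcongr
  refine (setLIntegral_mono' (mT x₀ (ρ / 2)) hb).trans_lt ?_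
  rw [setLIntegral_const]
  have e1 : ‖κ‖ₑ ^ 2 < ⊤ := ENNReal.pow_lt_top enorm_lt_top
  have e2 : ‖f‖ₑ ^ 2 < ⊤ := ENNReal.pow_lt_top enorm_lt_top
  exact ENNReal.mul_lt_top (ENNReal.mul_lt_top e1 (ENNReal.mul_lt_top
    (ENNReal.mul_lt_top ENNReal.ofReal_lt_top hJ) e2)) (vT x₀ (ρ / 2))

private theorem If_cont {s : ℝ} (h0 : 0 < s) {f : HS} {x₀ : E3} {ρ : ℝ} (hρ : 0 < ρ)
    (hf : ∀ᵐ x ∂(volume : Measure E3), ‖x - x₀‖ < ρ → (f : E3 → ℂ) x = 0) :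
    ContinuousOn (fun x => ∫ x', kf s (x - x') * (f : E3 → ℂ) x') {x : E3 | ‖x - x₀‖ < ρ / 2} := by
  have hI := ik h0 f (supp_c hf) (x := x₀) (d := ρ) hρ (by
    intro x' hx'
    rw [norm_sub_rev]
    exact hx')
  have hI2 : Integrable (fun x' => (2 : ℝ) ^ (3 + 2 * s) * ‖kf s (x₀ - x') * (f : E3 → ℂ) x'‖) :=
    hI.norm.const_mul _
  refine continuousOn_of_dominated (bound := fun x' => (2 : ℝ) ^ (3 + 2 * s) *
    ‖kf s (x₀ - x') * (f : E3 → ℂ) x'‖) ?_ ?_ hI2 ?_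
  · intro x hx
    exact (((kf_measurable s).comp (measurable_const.sub measurable_id)).aestronglyMeasurable).mul
      (Lp.aestronglyMeasurable f)
  · intro x hx
    filter_upwards [hf] with a ha
    by_cases h3 : ‖a - x₀‖ < ρ
    · rw [ha h3]
      simp
    · have h4 : ρ ≤ ‖a - x₀‖ := not_lt.1 h3
      have hx1 : ‖x - x₀‖ < ρ / 2 := hx
      have h5 : ‖a - x₀‖ ≤ ‖x - a‖ + ‖x - x₀‖ := by
        have e : a - x₀ = -(x - a) + (x - x₀) := by abel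
        rw [e]
        refine (norm_add_le _ _).trans ?_
        rw [norm_neg]
      have h6 : ‖x₀ - a‖ ≤ 2 * ‖x - a‖ := by
        rw [norm_sub_rev x₀ a]
        linarith
      have h7 : 0 < ‖x - a‖ := by linarith
      have h8 : 0 < ‖x₀ - a‖ := by
        rw [norm_sub_rev x₀ a]
        linarith
      rw [norm_mul, norm_mul, ← mul_assoc]
      refine mul_le_mul_of_nonneg_right ?_ (norm_nonneg _)
      unfold kf
      rw [Complex.norm_real, Complex.norm_real, Real.norm_of_nonneg (by positivity),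
        Real.norm_of_nonneg (by positivity)]
      have h9 : ‖x₀ - a‖ ^ (3 + 2 * s) ≤ (2 * ‖x - a‖) ^ (3 + 2 * s) :=
        Real.rpow_le_rpow h8.le h6 (by linarith)
      rw [Real.mul_rpow (by norm_num) h7.le] at h9
      rw [Real.rpow_neg h7.le, Real.rpow_neg h8.le, ← div_eq_mul_inv, inv_eq_one_div,
        div_le_div_iff₀ (by positivity) (by positivity)]
      linarith
  · filter_upwards [hf] with a ha
    by_cases h3 : ‖a - x₀‖ < ρ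
    · rw [ha h3]
      simp only [mul_zero]
      exact continuousOn_const
    · have h4 : ρ ≤ ‖a - x₀‖ := not_lt.1 h3
      refine ContinuousOn.mul ?_ continuousOn_const
      unfold kf
      refine Complex.continuous_ofReal.comp_continuousOn ?_
      refine ContinuousOn.rpow_const ?_ ?_
      · exact (continuous_id.sub continuous_const).norm.continuousOn
      · intro x hx
        have hx1 : ‖x - x₀‖ < ρ / 2 := hx
        left
        intro h5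
        have h6 : x = a := by
          rw [norm_eq_zero] at h5
          exact sub_eq_zero.1 h5
        rw [h6] at hx1
        linarith

theorem kf_int {s : ℝ} (h0 : 3 / 4 < s) {ψ : HS} {x₀ : E3} {ρ : ℝ} (hρ : 0 < ρ)
    (hψ : ∀ᵐ x ∂(volume : Measure E3), ‖x - x₀‖ < ρ → (ψ : E3 → ℂ) x = 0) {w : E3}
    (hw : ‖w - x₀‖ < ρ) : Integrable (fun x => kf s (x - w) * (ψ : E3 → ℂ) x) := by
  have h1 := ik (s := s) (by linarith) ψ (S := {x : E3 | ρ ≤ ‖x - x₀‖}) (x := w)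
    (d := ρ - ‖w - x₀‖) (by
      filter_upwards [hψ] with x hx hm
      exact hx (not_le.1 hm)) (by linarith) (by
      intro x' hx'
      have h2 : ρ ≤ ‖x' - x₀‖ := hx'
      have h3 : ‖x' - x₀‖ ≤ ‖w - x'‖ + ‖w - x₀‖ := by
        have : x' - x₀ = -(w - x') + (w - x₀) := by abel
        rw [this]
        refine (norm_add_le _ _).trans ?_
        rw [norm_neg]
      linarith)
  refine h1.congr (Eventually.of_forall fun x => ?_)
  simp only [kf]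
  rw [norm_sub_rev]

theorem ucpA {s : ℝ} (h0 : 3 / 4 < s) (h2 : s < 2) (h1 : s ≠ 1) {τ : ℝ} (hτ : 0 < τ) {q : HS}
    {x₀ : E3} {ρ : ℝ} (hρ : 0 < ρ)
    (hq : ∀ᵐ x ∂(volume : Measure E3), ‖x - x₀‖ < ρ → (q : E3 → ℂ) x = 0)
    (hψ : ∀ᵐ x ∂(volume : Measure E3), ‖x - x₀‖ < ρ → (multL (mI s τ) q : E3 → ℂ) x = 0)
    (w : E3) (hw : ‖w - x₀‖ < ρ / 2) :
    ∫ x, kf s (x - w) * (multL (mI s τ) q : E3 → ℂ) x = 0 := by
  have hs : 0 < s := by linarith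
  obtain ⟨κ, hκ0, hκ⟩ := offN h0 h2 h1
  set ψ : HS := multL (mI s τ) q with hψd
  have tψ := elim h0 h2 h1 hκ hρ ψ hψ
  have tq := elim h0 h2 h1 hκ hρ q hq
  have ti := tinv hs τ
  have hfin := If_fin hs hρ hq κ
  have hcont := If_cont hs hρ hψ
  have hcontq := If_cont hs hρ hq
  set T : Set E3 := {x : E3 | ‖x - x₀‖ < ρ / 2} with hT
  have hTm : MeasurableSet T := mT x₀ (ρ / 2)
  have hTo : IsOpen T := isOpen_lt (by fun_prop) continuous_const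
  have hmq : AEStronglyMeasurable (fun x => ∫ x', kf s (x - x') * (q : E3 → ℂ) x')
      (volume.restrict T) := hcontq.aestronglyMeasurable hTm
  have hmψ : AEStronglyMeasurable (fun x => ∫ x', kf s (x - x') * (ψ : E3 → ℂ) x')
      (volume.restrict T) := hcont.aestronglyMeasurable hTm
  have key : ∫⁻ x in T, ‖κ * ∫ x', kf s (x - x') * (ψ : E3 → ℂ) x'‖ₑ ^ 2 = 0 := by
    have hle : ∀ᶠ τ' : ℝ in atTop, ∫⁻ x in T, ‖κ * ∫ x', kf s (x - x') * (ψ : E3 → ℂ) x'‖ₑ ^ 2 ≤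
        3 * ((∫⁻ x in T, ‖zt s τ' ^ 2 * (multL (mI s τ') ψ : E3 → ℂ) x -
            κ * ∫ x', kf s (x - x') * (ψ : E3 → ℂ) x'‖ₑ ^ 2) +
          (‖(zt s τ' - zt s τ)⁻¹‖ₑ ^ 2 *
            (∫⁻ x in T, ‖zt s τ' ^ 2 * (multL (mI s τ') q : E3 → ℂ) x -
              κ * ∫ x', kf s (x - x') * (q : E3 → ℂ) x'‖ₑ ^ 2) +
            ‖(zt s τ' - zt s τ)⁻¹‖ₑ ^ 2 *
            ∫⁻ x in T, ‖κ * ∫ x', kf s (x - x') * (q : E3 → ℂ) x'‖ₑ ^ 2)) := by
      have hbig : ∀ᶠ τ' : ℝ in atTop, ‖zt s τ‖ < τ' ^ (2 * s) :=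
        (tendsto_rpow_atTop (by linarith : 0 < 2 * s)).eventually_gt_atTop _
      filter_upwards [hbig, eventually_gt_atTop (0 : ℝ)] with τ' hb hτ'
      have hne : zt s τ' - zt s τ ≠ 0 := by
        intro h
        have h3 : zt s τ' = zt s τ := sub_eq_zero.1 h
        rw [← zt_norm hτ', h3] at hb
        exact lt_irrefl _ hb
      have hid := res_id hs h2 h1 hτ hτ' hne q
      rw [← hψd] at hid
      set v : ℂ := (zt s τ' - zt s τ)⁻¹ with hv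
      have hve : ‖v‖ₑ ^ 2 ≠ ⊤ := ENNReal.pow_ne_top enorm_ne_top
      have hpt : ∀ᵐ x ∂(volume.restrict T), ‖κ * ∫ x', kf s (x - x') * (ψ : E3 → ℂ) x'‖ₑ ^ 2 ≤
          3 * (‖zt s τ' ^ 2 * (multL (mI s τ') ψ : E3 → ℂ) x -
            κ * ∫ x', kf s (x - x') * (ψ : E3 → ℂ) x'‖ₑ ^ 2 +
          (‖v‖ₑ ^ 2 * ‖zt s τ' ^ 2 * (multL (mI s τ') q : E3 → ℂ) x -
              κ * ∫ x', kf s (x - x') * (q : E3 → ℂ) x'‖ₑ ^ 2 +
            ‖v‖ₑ ^ 2 * ‖κ * ∫ x', kf s (x - x') * (q : E3 → ℂ) x'‖ₑ ^ 2)) := by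
        filter_upwards [ae_restrict_mem hTm, ae_restrict_of_ae hψ,
          ae_restrict_of_ae (Lp.coeFn_smul v (multL (mI s τ') q - ψ)),
          ae_restrict_of_ae (Lp.coeFn_sub (multL (mI s τ') q) ψ)] with x hxT h3 h4 h5
        have hx0 : (ψ : E3 → ℂ) x = 0 := h3 (lt_trans hxT (by linarith))
        have h6 : (multL (mI s τ') ψ : E3 → ℂ) x = v * (multL (mI s τ') q : E3 → ℂ) x := by
          rw [hid, h4, Pi.smul_apply, h5, Pi.sub_apply, hx0, sub_zero, smul_eq_mul]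
        have h7 : κ * ∫ x', kf s (x - x') * (ψ : E3 → ℂ) x' =
            -(zt s τ' ^ 2 * (multL (mI s τ') ψ : E3 → ℂ) x -
              κ * ∫ x', kf s (x - x') * (ψ : E3 → ℂ) x') +
            v * (zt s τ' ^ 2 * (multL (mI s τ') q : E3 → ℂ) x -
              κ * ∫ x', kf s (x - x') * (q : E3 → ℂ) x') +
            v * (κ * ∫ x', kf s (x - x') * (q : E3 → ℂ) x') := by
          rw [h6]
          ring
        calc ‖κ * ∫ x', kf s (x - x') * (ψ : E3 → ℂ) x'‖ₑ ^ 2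
            = ‖-(zt s τ' ^ 2 * (multL (mI s τ') ψ : E3 → ℂ) x -
              κ * ∫ x', kf s (x - x') * (ψ : E3 → ℂ) x') +
            v * (zt s τ' ^ 2 * (multL (mI s τ') q : E3 → ℂ) x -
              κ * ∫ x', kf s (x - x') * (q : E3 → ℂ) x') +
            v * (κ * ∫ x', kf s (x - x') * (q : E3 → ℂ) x')‖ₑ ^ 2 := by rw [← h7]
          _ ≤ _ := sq3 _ _ _
          _ = _ := by rw [enorm_neg, enorm_mul v, enorm_mul v, mul_pow, mul_pow]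
      refine (lintegral_mono_ae hpt).trans (le_of_eq ?_)
      have m1 : AEMeasurable (fun x => ‖v‖ₑ ^ 2 *
          ‖κ * ∫ x', kf s (x - x') * (q : E3 → ℂ) x'‖ₑ ^ 2) (volume.restrict T) :=
        (((hmq.const_mul κ).enorm.pow_const 2).const_mul _)
      have m2 : AEMeasurable (fun x => ‖v‖ₑ ^ 2 *
          ‖zt s τ' ^ 2 * (multL (mI s τ') q : E3 → ℂ) x -
              κ * ∫ x', kf s (x - x') * (q : E3 → ℂ) x'‖ₑ ^ 2) (volume.restrict T) :=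
        (((((Lp.aestronglyMeasurable (multL (mI s τ') q)).restrict.const_mul _).sub
          (hmq.const_mul κ)).enorm.pow_const 2).const_mul _)
      have m12 : AEMeasurable (fun x => ‖v‖ₑ ^ 2 *
          ‖zt s τ' ^ 2 * (multL (mI s τ') q : E3 → ℂ) x -
              κ * ∫ x', kf s (x - x') * (q : E3 → ℂ) x'‖ₑ ^ 2 + ‖v‖ₑ ^ 2 *
          ‖κ * ∫ x', kf s (x - x') * (q : E3 → ℂ) x'‖ₑ ^ 2) (volume.restrict T) := m2.add m1
      rw [lintegral_const_mul' _ _ (ENNReal.ofNat_ne_top (n := 3)),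
        lintegral_add_right' _ m12, lintegral_add_right' _ m1,
        lintegral_const_mul' _ _ hve, lintegral_const_mul' _ _ hve]
    have hlim := ENNReal.Tendsto.const_mul (tψ.add
      ((ENNReal.Tendsto.mul ti (Or.inr (by simp)) tq (Or.inr (by simp))).add
        (ENNReal.Tendsto.mul_const ti (Or.inr hfin.ne)))) (Or.inr (ENNReal.ofNat_ne_top (n := 3)))
    simp only [zero_mul, add_zero, mul_zero] at hlim
    exact le_antisymm (ge_of_tendsto hlim hle) bot_le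
  have hae : (fun x => ∫ x', kf s (x - x') * (ψ : E3 → ℂ) x') =ᵐ[volume.restrict T]
      fun _ => (0 : ℂ) := by
    rw [lintegral_eq_zero_iff' ((hmψ.const_mul κ).enorm.pow_const 2)] at key
    filter_upwards [key] with x hx
    have h3 : ‖κ * ∫ x', kf s (x - x') * (ψ : E3 → ℂ) x'‖ₑ ^ 2 = 0 := hx
    have h4 : κ * ∫ x', kf s (x - x') * (ψ : E3 → ℂ) x' = 0 := by
      rw [← enorm_eq_zero]
      exact pow_eq_zero_iff (two_ne_zero) |>.1 h3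
    exact (mul_eq_zero.1 h4).resolve_left hκ0
  have hev := Measure.eqOn_open_of_ae_eq hae hTo hcont continuousOn_const
  have hfin2 := hev (show w ∈ T from hw)
  have e : ∫ x, kf s (x - w) * (ψ : E3 → ℂ) x = ∫ x', kf s (w - x') * (ψ : E3 → ℂ) x' := by
    refine integral_congr_ae (Eventually.of_forall fun x => ?_)
    simp only [kf]
    rw [norm_sub_rev]
  rw [e]
  exact hfin2

end FracScatC

end
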