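import Pool.Agent.Lib.MP_6e2ba5_an.Dx.StmtX

/-! # The space of the perturbations -/

set_option autoImplicit false

open MeasureTheory Filter Topology Set
open scoped InnerProductSpace ENNReal

noncomputable section

namespace FracScat

/-- `L^∞(ℝ³; ℝ)`. -/
abbrev LI := Lp ℝ ∞ (volume : Measure E3)

theorem LI_ae_le (f : LI) : ∀ᵐ x ∂(volume : Measure E3), |(f : E3 → ℝ) x| ≤ ‖f‖ := by
  have h := ae_le_eLpNormEssSup (f := (f : E3 → ℝ)) (μ := (volume : Measure E3))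
  filter_upwards [h] with x hx
  have h2 : eLpNormEssSup (f : E3 → ℝ) volume = ENNReal.ofReal ‖f‖ := by
    rw [Lp.norm_def, ENNReal.ofReal_toReal (Lp.eLpNorm_ne_top f), eLpNorm_exponent_top]
  rw [h2] at hx
  rw [← Real.norm_eq_abs]
  rw [← ofReal_norm_eq_enorm] at hx
  exact (ENNReal.ofReal_le_ofReal_iff (norm_nonneg f)).1 hx

theorem LI_sub_ae (f g : LI) :
    ∀ᵐ x ∂(volume : Measure E3), |(f : E3 → ℝ) x - (g : E3 → ℝ) x| ≤ ‖f - g‖ := by
  filter_upwards [LI_ae_le (f - g), Lp.coeFn_sub f g] with x h1 h2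
  rw [h2, Pi.sub_apply] at h1
  exact h1

theorem LI_norm_le {f : LI} {C : ℝ} (hC : 0 ≤ C)
    (h : ∀ᵐ x ∂(volume : Measure E3), |(f : E3 → ℝ) x| ≤ C) : ‖f‖ ≤ C := by
  rw [Lp.norm_def, eLpNorm_exponent_top]
  refine ENNReal.toReal_le_of_le_ofReal hC ?_
  refine eLpNormEssSup_le_of_ae_bound ?_
  filter_upwards [h] with x hx
  rwa [Real.norm_eq_abs]

/-- The class of a bounded measurable function. -/
theorem memLI {g : E3 → ℝ} (hg : Measurable g) {C : ℝ} (hb : ∀ x, |g x| ≤ C) :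
    MemLp g ∞ (volume : Measure E3) :=
  memLp_top_of_bound hg.aestronglyMeasurable C (Eventually.of_forall fun x => by
    rw [Real.norm_eq_abs]
    exact hb x)

theorem Shell_mem_of {R' R ρ : ℝ} (hρ : ρ < R) {f : LI}
    (h : ∀ᵐ x ∂(volume : Measure E3), (f : E3 → ℝ) x ≠ 0 → R' ≤ ‖x‖ ∧ ‖x‖ ≤ ρ) :
    f ∈ Shell R' R := subset_closure ⟨ρ, hρ, h⟩

theorem Shell_vanish {R' R : ℝ} {f : LI} (hf : f ∈ Shell R' R) :
    ∀ᵐ x ∂(volume : Measure E3), (f : E3 → ℝ) x ≠ 0 → R' ≤ ‖x‖ ∧ ‖x‖ < R := by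
  have h1 : ∀ j : ℕ, ∀ᵐ x ∂(volume : Measure E3), ¬ (R' ≤ ‖x‖ ∧ ‖x‖ < R) →
      |(f : E3 → ℝ) x| ≤ 1 / ((j : ℝ) + 1) := by
    intro j
    obtain ⟨g, ⟨ρ, hρ, hg⟩, hd⟩ := Metric.mem_closure_iff.1 hf (1 / ((j : ℝ) + 1)) (by positivity)
    filter_upwards [hg, LI_sub_ae f g] with x hx1 hx2 hx3
    have h4 : (g : E3 → ℝ) x = 0 := by
      by_contra h5
      exact hx3 ⟨(hx1 h5).1, lt_of_le_of_lt (hx1 h5).2 hρ⟩
    rw [h4, sub_zero] at hx2
    rw [dist_eq_norm] at hd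
    exact hx2.trans hd.le
  filter_upwards [ae_all_iff.2 h1] with x hx hne
  by_contra h
  have h2 : ∀ j : ℕ, |(f : E3 → ℝ) x| ≤ 1 / ((j : ℝ) + 1) := fun j => hx j h
  have h3 := ge_of_tendsto' tendsto_one_div_add_atTop_nhds_zero_nat h2
  exact hne (abs_eq_zero.1 (le_antisymm h3 (abs_nonneg _)))

/-- A good representative. -/
theorem Shell_rep {R' R : ℝ} {f : LI} (hf : f ∈ Shell R' R) :
    ∃ g : E3 → ℝ, Measurable g ∧ (∀ x, |g x| ≤ ‖f‖) ∧ (∀ x, g x ≠ 0 → R' ≤ ‖x‖ ∧ ‖x‖ < R) ∧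
      (f : E3 → ℝ) =ᵐ[volume] g := by
  have hm : Measurable (f : E3 → ℝ) := (Lp.stronglyMeasurable f).measurable
  set S : Set E3 := {x | R' ≤ ‖x‖ ∧ ‖x‖ < R} ∩ {x | |(f : E3 → ℝ) x| ≤ ‖f‖} with hS
  have hSm : MeasurableSet S := by
    refine MeasurableSet.inter ?_ ?_
    · exact (measurableSet_le measurable_const measurable_norm).inter
        (measurableSet_lt measurable_norm measurable_const)
    · exact measurableSet_le hm.abs measurable_const
  refine ⟨S.indicator (f : E3 → ℝ), hm.indicator hSm, fun x => ?_, fun x hx => ?_, ?_⟩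
  · by_cases h : x ∈ S
    · rw [Set.indicator_of_mem h]
      exact h.2
    · rw [Set.indicator_of_notMem h, abs_zero]
      exact norm_nonneg f
  · by_contra h
    exact hx (Set.indicator_of_notMem (fun h' => h h'.1) _)
  · filter_upwards [Shell_vanish hf, LI_ae_le f] with x h1 h2
    by_cases h : x ∈ S
    · rw [Set.indicator_of_mem h]
    · rw [Set.indicator_of_notMem h]
      by_contra h3
      exact h ⟨h1 h3, h2⟩

/-- The chosen representative. -/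
def rp {R' R : ℝ} (f : Shell R' R) : E3 → ℝ := (Shell_rep f.2).choose

theorem rp_meas {R' R : ℝ} (f : Shell R' R) : Measurable (rp f) := (Shell_rep f.2).choose_spec.1

theorem rp_bd {R' R : ℝ} (f : Shell R' R) (x : E3) : |rp f x| ≤ ‖(f : LI)‖ :=
  (Shell_rep f.2).choose_spec.2.1 x

theorem rp_van {R' R : ℝ} (f : Shell R' R) (x : E3) (hx : rp f x ≠ 0) : R' ≤ ‖x‖ ∧ ‖x‖ < R :=
  (Shell_rep f.2).choose_spec.2.2.1 x hx

theorem rp_ae {R' R : ℝ} (f : Shell R' R) : ((f : LI) : E3 → ℝ) =ᵐ[volume] rp f :=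
  (Shell_rep f.2).choose_spec.2.2.2

theorem rp_sub {R' R : ℝ} (f g : Shell R' R) :
    ∀ᵐ x ∂(volume : Measure E3), |rp f x - rp g x| ≤ ‖(f : LI) - (g : LI)‖ := by
  filter_upwards [rp_ae f, rp_ae g, LI_sub_ae (f : LI) (g : LI)] with x h1 h2 h3
  rwa [h1, h2] at h3

instance Shell_baire (R' R : ℝ) : BaireSpace (Shell R' R) := by
  have : CompleteSpace (Shell R' R) := isClosed_closure.completeSpace_coe
  infer_instance

/-! ### Transfer of the data -/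

theorem IsScattering_congr {s k : ℝ} {V V' : E3 → ℝ} (h : V =ᵐ[volume] V') {θ : E3} {u : E3 → ℂ}
    (hu : IsScattering s k V θ u) : IsScattering s k V' θ u := by
  refine ⟨hu.bstar, fun φ => ⟨(hu.equation φ).1, ?_⟩, hu.radiation⟩
  rw [(hu.equation φ).2]
  refine integral_congr_ae ?_
  filter_upwards [h] with x hx
  rw [hx]

theorem amplitude_congr {k : ℝ} {V V' : E3 → ℝ} (h : V =ᵐ[volume] V') (u : E3 → ℂ) (ω : E3) :
    amplitude k V u ω = amplitude k V' u ω := by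
  unfold amplitude
  refine integral_congr_ae ?_
  filter_upwards [h] with x hx
  rw [hx]

theorem SBS_congr {s k : ℝ} {V₁ V₂ V₁' V₂' : E3 → ℝ} (e₁ : V₁ =ᵐ[volume] V₁')
    (e₂ : V₂ =ᵐ[volume] V₂') {θ : E3} (h : SameBackScattering s k V₁ V₂ θ) :
    SameBackScattering s k V₁' V₂' θ := by
  obtain ⟨u₁, u₂, h1, h2, h3⟩ := h
  refine ⟨u₁, u₂, IsScattering_congr e₁ h1, IsScattering_congr e₂ h2, ?_⟩
  rw [← amplitude_congr e₁, ← amplitude_congr e₂]
  exact h3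

end FracScat

end
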